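import Pool.Agent.LibGD31.OS4

/-! # CH3: the recursion -/

open Filter Topology Set

namespace GD31

/-- window lengths -/
noncomputable def wj (j : ℕ) : ℝ := (1 / 4 : ℝ) ^ j

/-- window positions: `xj 0 = 0`, `xj (j+1) = xj j + 3 wj j` -/
noncomputable def xj (j : ℕ) : ℝ := 4 * (1 - (1 / 4 : ℝ) ^ j)

/-- length scales: `1, √ε, ε, ε², ε⁴, …` -/
noncomputable def lj (ε : ℝ) : ℕ → ℝ
  | 0 => 1
  | 1 => Real.sqrt ε
  | n + 2 => lj ε (n + 1) ^ 2

/-- left margins -/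
noncomputable def mj (μ : ℝ) (j : ℕ) : ℝ := if j = 0 then μ else wj j / 2

private theorem ch3_Sz {B l s : ℝ} {F : Pm} (h : Nl 5 B l (disp F)) (hl : 0 < l) (hl1 : l ≤ 1)
    (hB : 0 ≤ B) (hs : B / l ^ 2 ≤ s) : Sz s F := by
  have hF : (F : ℝ → ℝ) = fun x => x + disp F x := by
    ext x
    unfold disp
    ring
  have hsm := h.smooth
  have hd : Differentiable ℝ (disp F) := (contDiff_infty_iff_deriv.1 hsm).1
  have hsm1 : Sm (deriv (disp F)) := (contDiff_infty_iff_deriv.1 hsm).2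
  have hd1 : Differentiable ℝ (deriv (disp F)) := (contDiff_infty_iff_deriv.1 hsm1).1
  have hdF : deriv (F : ℝ → ℝ) = fun x => 1 + deriv (disp F) x := by
    rw [hF]
    ext x
    exact ((hasDerivAt_id' x).fun_add (hd x).hasDerivAt).deriv
  have hl2 : l ^ 2 ≤ 1 := pow_le_one₀ hl.le hl1
  have h0 : B / l ^ 0 ≤ B / l ^ 2 := by
    rw [pow_zero]
    exact div_le_div_of_nonneg_left hB (by positivity) hl2
  have h1 : B / l ^ 1 ≤ B / l ^ 2 := by
    rw [pow_one]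
    refine div_le_div_of_nonneg_left hB (by positivity) ?_
    nlinarith
  refine ⟨?_, fun x => ?_, fun x => ?_, fun x => ?_⟩
  · rw [hF]
    have h2 : ((2 : ℕ∞) : WithTop ℕ∞) ≤ ((⊤ : ℕ∞) : WithTop ℕ∞) := WithTop.coe_le_coe.2 le_top
    exact contDiff_id.add (hsm.of_le h2)
  · have h2 := h.bound 0 (by norm_num) x
    rw [iteratedDeriv_zero] at h2
    exact h2.trans (h0.trans hs)
  · have h2 := h.bound 1 (by norm_num) x
    rw [iteratedDeriv_one] at h2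
    rw [hdF]
    have e : (1 + deriv (disp F) x) - 1 = deriv (disp F) x := by ring
    simp only [e]
    exact h2.trans (h1.trans hs)
  · have h2 := h.bound 2 (by norm_num) x
    rw [iteratedDeriv_succ, iteratedDeriv_one] at h2
    have e : deriv (deriv (F : ℝ → ℝ)) x = deriv (deriv (disp F)) x := by
      rw [hdF]
      exact ((hd1 x).hasDerivAt.const_add 1).deriv
    rw [e]
    exact h2.trans hs

private theorem ch3_l {ε δ : ℝ} (hδ : δ = Real.sqrt ε) (hδ0 : 0 < δ) (hδ1 : δ ≤ 1) (j : ℕ) :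
    0 < lj ε j ∧ lj ε j ≤ δ ^ j := by
  induction j with
  | zero => exact ⟨by simp [lj], by simp [lj]⟩
  | succ j ih =>
    cases j with
    | zero =>
      have e : lj ε (0 + 1) = δ := by rw [hδ]; rfl
      rw [e]
      exact ⟨hδ0, by simp⟩
    | succ n =>
      have e : lj ε (n + 1 + 1) = lj ε (n + 1) ^ 2 := rfl
      rw [e]
      refine ⟨by have := ih.1; positivity, ?_⟩
      have h1 : δ ^ (n + 1) ≤ δ := by
        calc δ ^ (n + 1) = δ ^ n * δ := pow_succ _ _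
          _ ≤ 1 * δ := mul_le_mul_of_nonneg_right (pow_le_one₀ hδ0.le hδ1) hδ0.le
          _ = δ := one_mul δ
      have h2 := ih.2.trans h1
      calc lj ε (n + 1) ^ 2 = lj ε (n + 1) * lj ε (n + 1) := sq _
        _ ≤ δ ^ (n + 1) * δ := mul_le_mul ih.2 h2 ih.1.le (by positivity)
        _ = δ ^ (n + 1 + 1) := (pow_succ _ _).symm

/-- the two facts on consecutive scales -/
private theorem ch3_l2 {ε δ : ℝ} (hδ : δ = Real.sqrt ε) (hδ0 : 0 < δ) (hδ1 : δ ≤ 1) (j : ℕ) :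
    lj ε (j + 1) ≤ δ * lj ε j ∧ δ * lj ε j ^ 3 ≤ lj ε (j + 1) * δ ^ j := by
  cases j with
  | zero =>
    have e : lj ε (0 + 1) = δ := by rw [hδ]; rfl
    have e0 : lj ε 0 = 1 := rfl
    rw [e, e0]
    simp
  | succ n =>
    have e : lj ε (n + 1 + 1) = lj ε (n + 1) ^ 2 := rfl
    obtain ⟨h1, h2⟩ := ch3_l hδ hδ0 hδ1 (n + 1)
    have h3 : δ ^ (n + 1) ≤ δ := by
      calc δ ^ (n + 1) = δ ^ n * δ := pow_succ _ _
        _ ≤ 1 * δ := mul_le_mul_of_nonneg_right (pow_le_one₀ hδ0.le hδ1) hδ0.le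
        _ = δ := one_mul δ
    rw [e]
    constructor
    · rw [sq]
      exact mul_le_mul_of_nonneg_right (h2.trans h3) h1.le
    · calc δ * lj ε (n + 1) ^ 3 = lj ε (n + 1) ^ 2 * (δ * lj ε (n + 1)) := by ring
        _ ≤ lj ε (n + 1) ^ 2 * (1 * δ ^ (n + 1)) := by gcongr
        _ = lj ε (n + 1) ^ 2 * δ ^ (n + 1) := by rw [one_mul]

private theorem ch3_supp_inv {F : Pm} {I : Set ℝ} (h : Supp F I) : Supp F⁻¹ I := fun x hx => by
  have h1 := h x hx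
  calc F⁻¹ x = F⁻¹ (F x) := by rw [h1]
    _ = x := F.symm_apply_apply x

/-- the state of the recursion -/
private structure ch3_Q (C₁ P ε : ℝ) (j : ℕ) (F : Pm) : Prop where
  n1 : Nl 5 (P * (C₁ * P) ^ j * (Real.sqrt ε) ^ 2 * lj ε j ^ 5) (lj ε j) (disp F)
  n2 : Nl 5 (P * (C₁ * P) ^ j * (Real.sqrt ε) ^ 2 * lj ε j ^ 5) (lj ε j) (disp F⁻¹)
  supp : Supp F (Icc (xj j) (xj j + wj j))

private theorem ch3_Q.inv {C₁ P ε : ℝ} {j : ℕ} {F : Pm} (h : ch3_Q C₁ P ε j F) :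
    ch3_Q C₁ P ε j F⁻¹ :=
  ⟨h.n2, by rw [inv_inv]; exact h.n1, ch3_supp_inv h.supp⟩

/-- the output of a step -/
private structure ch3_R (C₁ P μ ε : ℝ) (j : ℕ) (F a b D S e : Pm) : Prop where
  eq : F = cm a b * cm D S * e
  sa : Supp a (Ioo (xj j - mj μ j) (xj (j + 1) + 2 * wj (j + 1)))
  sb : Supp b (Ioo (xj j - mj μ j) (xj (j + 1) + 2 * wj (j + 1)))
  sD : Supp D (Ioo (xj j - mj μ j) (xj (j + 1) + 2 * wj (j + 1)))
  sS : Supp S (Ioo (xj j - mj μ j) (xj (j + 1) + 2 * wj (j + 1)))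
  za : Sz (4 * (C₁ * P) / μ ^ 2 * Real.sqrt ε * (1 / 2) ^ j) a
  zb : Sz (4 * (C₁ * P) / μ ^ 2 * Real.sqrt ε * (1 / 2) ^ j) b
  zD : Sz (4 * (C₁ * P) / μ ^ 2 * Real.sqrt ε * (1 / 2) ^ j) D
  zS : Sz (4 * (C₁ * P) / μ ^ 2 * Real.sqrt ε * (1 / 2) ^ j) S
  next : ch3_Q C₁ P ε (j + 1) e

private theorem ch3_step {μ : ℝ} (hμ : 0 < μ) (hμ1 : μ ≤ 1) {C₁ P : ℝ} (hC1 : 1 ≤ C₁) (hP1 : 1 ≤ P)
    (hone : ∀ (x w m l α A d : ℝ) (G : Pm), 0 < w → w ≤ 1 → 0 < m →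
      m ≤ w → 0 < l → l ≤ w → 0 < α → C₁ * α ≤ l → C₁ * α ≤ m → 0 < d → C₁ * d ≤ 1 → 0 ≤ A →
      C₁ * w * A ≤ α * l → C₁ * A ≤ d * w →
      Nl 5 A l (disp G) → Supp G (Icc x (x + w)) →
      ∃ a b D S e : Pm, G = cm a b * cm D S * e ∧
        Nl 5 (C₁ * w * A / α) l (disp a) ∧ Supp a (Icc x (x + 3 * w + w / 4)) ∧
        Nl 5 (C₁ * α) m (disp b) ∧ Supp b (Ioo (x - m) (x + 3 * w + w / 2)) ∧
        Nl 5 (C₁ * d * w) w (disp D) ∧ Supp D (Icc (x + w) (x + 2 * w)) ∧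
        Nl 5 (C₁ * A / d) w (disp S) ∧ Supp S (Icc (x + w) (x + 2 * w)) ∧
        Nl 5 (C₁ * A * (α / l) ^ 5) α (disp e) ∧ Supp e (Icc (x + 3 * w) (x + 3 * w + w / 4)))
    (hperm : ∀ (B l : ℝ) (ψ : ℝ → ℝ), 0 < l → 0 ≤ B → P * B ≤ l → Nl 5 B l ψ →
      ∃ F : Pm, (∀ x, F x = x + ψ x) ∧ Nl 5 (P * B) l (disp F⁻¹))
    {ε : ℝ} (hε : 0 < ε) (hsm : 512 * (C₁ * P) * Real.sqrt ε ≤ μ) (j : ℕ) (F : Pm)
    (hF : ch3_Q C₁ P ε j F) : ∃ a b D S e : Pm, ch3_R C₁ P μ ε j F a b D S e := by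
  obtain ⟨δ, hδ⟩ : ∃ δ, δ = Real.sqrt ε := ⟨_, rfl⟩
  have hδ0 : 0 < δ := by rw [hδ]; exact Real.sqrt_pos.2 hε
  obtain ⟨C', hC'⟩ : ∃ C', C' = C₁ * P := ⟨_, rfl⟩
  have hC'1 : 1 ≤ C' := by rw [hC']; nlinarith
  have hCC' : C₁ ≤ C' := by rw [hC']; nlinarith
  have hPC' : P ≤ C' := by rw [hC']; nlinarith
  rw [← hδ, ← hC'] at hsm
  have hs : 512 * (C' * δ) ≤ μ := by linarith
  have hs1 : C' * δ ≤ 1 / 512 := by linarith
  have hδs : δ ≤ C' * δ := by nlinarith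
  have hδ1 : δ ≤ 1 := by linarith
  have hC₁δ : C₁ * δ ≤ C' * δ := mul_le_mul_of_nonneg_right hCC' hδ0.le
  have hPδ : P * δ ≤ C' * δ := mul_le_mul_of_nonneg_right hPC' hδ0.le
  have hC₁0 : 0 < C₁ := by linarith
  have hP0 : 0 < P := by linarith
  have hC'0 : 0 < C' := by linarith
  obtain ⟨l, hl⟩ : ∃ l, l = lj ε j := ⟨_, rfl⟩
  obtain ⟨α, hα⟩ : ∃ α, α = lj ε (j + 1) := ⟨_, rfl⟩
  obtain ⟨hl0, hlδ⟩ := ch3_l hδ hδ0 hδ1 j
  obtain ⟨hα0, hαδ⟩ := ch3_l hδ hδ0 hδ1 (j + 1)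
  obtain ⟨hαl, hαl3⟩ := ch3_l2 hδ hδ0 hδ1 j
  rw [← hl] at hl0 hlδ hαl hαl3
  rw [← hα] at hα0 hαδ hαl hαl3
  obtain ⟨w, hw⟩ : ∃ w, w = wj j := ⟨_, rfl⟩
  have hw' : w = (1 / 4 : ℝ) ^ j := hw
  have hw0 : 0 < w := by rw [hw']; positivity
  have hw1 : w ≤ 1 := by rw [hw']; exact pow_le_one₀ (by norm_num) (by norm_num)
  obtain ⟨m, hm⟩ : ∃ m, m = mj μ j := ⟨_, rfl⟩
  have hmw : m ≤ w ∧ μ * w / 2 ≤ m := by
    rw [hm]
    unfold mj
    by_cases h0 : j = 0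
    · rw [if_pos h0]
      have : w = 1 := by rw [hw', h0, pow_zero]
      rw [this]
      constructor <;> linarith
    · rw [if_neg h0, ← hw]
      constructor
      · linarith
      · nlinarith
  obtain ⟨hmw1, hmw2⟩ := hmw
  have hm0 : 0 < m := lt_of_lt_of_le (by positivity) hmw2
  have hδj : δ ^ j ≤ w := by
    rw [hw']
    exact pow_le_pow_left₀ hδ0.le (by linarith) j
  have hl1 : l ≤ 1 := hlδ.trans (pow_le_one₀ hδ0.le hδ1)
  have hlw : l ≤ w := hlδ.trans hδj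
  have hδj0 : 0 < δ ^ j := pow_pos hδ0 j
  obtain ⟨A, hA⟩ : ∃ A, A = P * C' ^ j * δ ^ 2 * l ^ 5 := ⟨_, rfl⟩
  have hA0 : 0 ≤ A := by rw [hA]; positivity
  -- powers
  have hCj : ∀ K : ℝ, 0 ≤ K → K ≤ 256 → (K * C') ^ j * δ ^ j ≤ (1 / 2) ^ j := by
    intro K hK0 hK
    rw [← mul_pow]
    refine pow_le_pow_left₀ (by positivity) ?_ j
    have : K * C' * δ = K * (C' * δ) := by ring
    rw [this]
    have h1 : 0 ≤ C' * δ := by positivity
    nlinarith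
  have hCj1 : C' ^ j * δ ^ j ≤ 1 := by
    have h1 := hCj 1 (by norm_num) (by norm_num)
    rw [one_mul] at h1
    exact h1.trans (pow_le_one₀ (by norm_num) (by norm_num))
  have hl5 : l ^ 5 ≤ δ ^ j := by
    calc l ^ 5 = l ^ 4 * l := by ring
      _ ≤ 1 * l := mul_le_mul_of_nonneg_right (pow_le_one₀ hl0.le hl1) hl0.le
      _ ≤ δ ^ j := by rw [one_mul]; exact hlδ
  obtain ⟨d, hd⟩ : ∃ d, d = δ * (1 / 16 : ℝ) ^ j := ⟨_, rfl⟩
  have hd0 : 0 < d := by rw [hd]; positivity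
  have hdδ : d ≤ δ := by
    rw [hd]
    exact mul_le_of_le_one_right hδ0.le (pow_le_one₀ (by norm_num) (by norm_num))
  -- the hypotheses of `one_step`
  have r2 : C₁ * α ≤ l := by
    calc C₁ * α ≤ C₁ * (δ * l) := mul_le_mul_of_nonneg_left hαl hC₁0.le
      _ = (C₁ * δ) * l := by ring
      _ ≤ 1 * l := mul_le_mul_of_nonneg_right (by linarith) hl0.le
      _ = l := one_mul l
  have r3 : C₁ * α ≤ m := by
    calc C₁ * α ≤ C₁ * (δ ^ j * δ) := by rw [← pow_succ]; gcongr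
      _ = (C₁ * δ) * δ ^ j := by ring
      _ ≤ (μ / 512) * w := mul_le_mul (by linarith) hδj hδj0.le (by positivity)
      _ ≤ μ * w / 2 := by nlinarith [mul_pos hμ hw0]
      _ ≤ m := hmw2
  have r4 : C₁ * d ≤ 1 := by
    calc C₁ * d ≤ C₁ * δ := mul_le_mul_of_nonneg_left hdδ hC₁0.le
      _ ≤ 1 := by linarith
  have r5 : C₁ * w * A ≤ α * l := by
    have h1 : C₁ * w * A = w * (C' * δ) * C' ^ j * l ^ 2 * (δ * l ^ 3) := by
      rw [hA, hC']
      ring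
    rw [h1]
    calc w * (C' * δ) * C' ^ j * l ^ 2 * (δ * l ^ 3)
        ≤ w * (C' * δ) * C' ^ j * l ^ 2 * (α * δ ^ j) :=
          mul_le_mul_of_nonneg_left hαl3 (by positivity)
      _ = (w * (C' * δ)) * (C' ^ j * δ ^ j) * l * (α * l) := by ring
      _ ≤ (1 * 1) * 1 * 1 * (α * l) := by gcongr; linarith
      _ = α * l := by ring
  have hdw : d * w = δ * (1 / 64 : ℝ) ^ j := by
    rw [hd, hw', mul_assoc, ← mul_pow]
    norm_num
  have r6 : C₁ * A ≤ d * w := by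
    have h1 : C₁ * A = C' * δ * (δ * (C' ^ j * l ^ 5)) := by
      rw [hA, hC']
      ring
    rw [h1, hdw]
    have h2 : C' ^ j * l ^ 5 ≤ (1 / 64) ^ j := by
      calc C' ^ j * l ^ 5 ≤ C' ^ j * δ ^ j := by gcongr
        _ = (C' * δ) ^ j := (mul_pow _ _ _).symm
        _ ≤ (1 / 64) ^ j := pow_le_pow_left₀ (by positivity) (by linarith) j
    calc C' * δ * (δ * (C' ^ j * l ^ 5)) ≤ 1 * (δ * (1 / 64) ^ j) := by
          gcongr
          linarith
      _ = δ * (1 / 64) ^ j := one_mul _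
  have hQ1 : Nl 5 A l (disp F) := by
    have := hF.n1
    rw [← hδ, ← hC', ← hl, ← hA] at this
    exact this
  have hsupp : Supp F (Icc (xj j) (xj j + w)) := by
    rw [hw]
    exact hF.supp
  obtain ⟨a, b, D, S, e, heq, na, sa, nb, sb, nD, sD, nS, sS, ne, se⟩ :=
    hone (xj j) w m l α A d F hw0 hw1 hm0 hmw1 hl0 hlw hα0 r2 r3 hd0 r4 hA0 r5 r6 hQ1 hsupp
  have hx1 : xj (j + 1) = xj j + 3 * w := by
    rw [hw']
    unfold xj
    rw [pow_succ]
    ring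
  have hwj1 : wj (j + 1) = w / 4 := by
    rw [hw']
    unfold wj
    rw [pow_succ]
    ring
  have hsub : ∀ {T : Pm} {I : Set ℝ}, Supp T I → I ⊆ Ioo (xj j - m) (xj j + 3 * w + w / 2) →
      Supp T (Ioo (xj j - mj μ j) (xj (j + 1) + 2 * wj (j + 1))) := by
    intro T I hT hI y hy
    apply hT
    intro hyI
    apply hy
    have h1 := hI hyI
    rw [hx1, hwj1, ← hm, mem_Ioo]
    rw [mem_Ioo] at h1
    constructor <;> linarith [h1.1, h1.2]
  -- the sizes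
  have hμ2 : μ ^ 2 ≤ 1 := pow_le_one₀ hμ.le hμ1
  have hbig : ∀ T : ℝ, T ≤ 4 * C' * δ * (1 / 2) ^ j → T ≤ 4 * C' / μ ^ 2 * δ * (1 / 2) ^ j := by
    intro T hT
    refine hT.trans ?_
    have h1 : 4 * C' ≤ 4 * C' / μ ^ 2 := by
      rw [le_div_iff₀ (by positivity)]
      nlinarith
    gcongr
  have hhalf : (0 : ℝ) < (1 / 2) ^ j := by positivity
  have ta : C₁ * w * A / α / l ^ 2 ≤ 4 * C' * δ * (1 / 2) ^ j := by
    rw [div_div, div_le_iff₀ (by positivity)]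
    have h1 : C₁ * w * A = w * C' * δ * C' ^ j * l ^ 2 * (δ * l ^ 3) := by
      rw [hA, hC']
      ring
    rw [h1]
    have h2 : C' ^ j * δ ^ j ≤ (1 / 2) ^ j := by
      have := hCj 1 (by norm_num) (by norm_num)
      rwa [one_mul] at this
    calc w * C' * δ * C' ^ j * l ^ 2 * (δ * l ^ 3)
        ≤ w * C' * δ * C' ^ j * l ^ 2 * (α * δ ^ j) :=
          mul_le_mul_of_nonneg_left hαl3 (by positivity)
      _ = w * (C' * δ) * (C' ^ j * δ ^ j) * (α * l ^ 2) := by ring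
      _ ≤ 4 * (C' * δ) * (1 / 2) ^ j * (α * l ^ 2) := by gcongr; linarith
      _ = 4 * C' * δ * (1 / 2) ^ j * (α * l ^ 2) := by ring
  have tb : C₁ * α / m ^ 2 ≤ 4 * C' / μ ^ 2 * δ * (1 / 2) ^ j := by
    rw [div_le_iff₀ (by positivity)]
    have h1 : (μ * w / 2) ^ 2 ≤ m ^ 2 := pow_le_pow_left₀ (by positivity) hmw2 2
    have h2 : w ^ 2 = (1 / 16) ^ j := by
      rw [hw', ← pow_mul, mul_comm, pow_mul]
      norm_num
    have h3 : δ ^ j ≤ (1 / 2) ^ j * (1 / 16) ^ j := by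
      rw [← mul_pow]
      exact pow_le_pow_left₀ hδ0.le (by linarith) j
    calc C₁ * α ≤ C' * (δ ^ j * δ) := by
          rw [← pow_succ]
          gcongr
      _ ≤ C' * ((1 / 2) ^ j * (1 / 16) ^ j * δ) := by gcongr
      _ = 4 * C' / μ ^ 2 * δ * (1 / 2) ^ j * (μ * w / 2) ^ 2 := by
          have h4 : (μ * w / 2) ^ 2 = μ ^ 2 * (1 / 16) ^ j / 4 := by
            rw [← h2]
            ring
          rw [h4]
          generalize (1 / 2 : ℝ) ^ j = u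
          generalize (1 / 16 : ℝ) ^ j = v
          field_simp
      _ ≤ 4 * C' / μ ^ 2 * δ * (1 / 2) ^ j * m ^ 2 := mul_le_mul_of_nonneg_left h1 (by positivity)
  have tD : C₁ * d * w / w ^ 2 ≤ 4 * C' * δ * (1 / 2) ^ j := by
    rw [div_le_iff₀ (by positivity)]
    have h1 : (1 / 16 : ℝ) ^ j = w * w := by
      rw [hw', ← mul_pow]
      norm_num
    have h2 : w ≤ (1 / 2) ^ j := by
      rw [hw']
      exact pow_le_pow_left₀ (by norm_num) (by norm_num) j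
    calc C₁ * d * w = C₁ * δ * w * w ^ 2 := by rw [hd, h1]; ring
      _ ≤ (4 * C') * δ * (1 / 2) ^ j * w ^ 2 := by
          gcongr
          linarith
      _ = 4 * C' * δ * (1 / 2) ^ j * w ^ 2 := by ring
  have tS : C₁ * A / d / w ^ 2 ≤ 4 * C' * δ * (1 / 2) ^ j := by
    rw [div_div, div_le_iff₀ (by positivity)]
    have h1 : (256 : ℝ) ^ j * (d * w ^ 2) = δ := by
      rw [hd, hw', ← pow_mul, mul_comm j 2, pow_mul]
      have h2 : (256 : ℝ) ^ j * (δ * (1 / 16) ^ j * ((1 / 4) ^ 2) ^ j) =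
          δ * (256 * (1 / 16) * (1 / 4) ^ 2) ^ j := by
        rw [mul_pow, mul_pow]
        ring
      rw [h2]
      norm_num
    have h3 : (256 * C') ^ j * δ ^ j ≤ (1 / 2) ^ j := hCj 256 (by norm_num) le_rfl
    calc C₁ * A = C' * δ * (C' ^ j * l ^ 5) * δ := by
          rw [hA, hC']
          ring
      _ = C' * δ * (C' ^ j * l ^ 5) * ((256 : ℝ) ^ j * (d * w ^ 2)) := by rw [h1]
      _ = C' * δ * ((256 * C') ^ j * l ^ 5) * (d * w ^ 2) := by
          rw [mul_pow]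
          ring
      _ ≤ C' * δ * ((256 * C') ^ j * δ ^ j) * (d * w ^ 2) := by gcongr
      _ ≤ (4 * C') * δ * (1 / 2) ^ j * (d * w ^ 2) := by
          gcongr
          linarith
      _ = 4 * C' * δ * (1 / 2) ^ j * (d * w ^ 2) := by ring
  -- the next state
  have hne : C₁ * A * (α / l) ^ 5 = C' * C' ^ j * δ ^ 2 * α ^ 5 := by
    rw [hA, hC']
    field_simp
  rw [hne] at ne
  have hPe : P * (C' * C' ^ j * δ ^ 2 * α ^ 5) ≤ α := by
    have hα1 : α ≤ 1 := hαδ.trans (pow_le_one₀ hδ0.le hδ1)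
    have hαδ' : α ≤ δ ^ j := by
      refine hαδ.trans ?_
      rw [pow_succ]
      exact mul_le_of_le_one_right hδj0.le hδ1
    have h1 : α ^ 4 ≤ δ ^ j := by
      calc α ^ 4 = α ^ 3 * α := by ring
        _ ≤ 1 * α := mul_le_mul_of_nonneg_right (pow_le_one₀ hα0.le hα1) hα0.le
        _ ≤ δ ^ j := by rw [one_mul]; exact hαδ'
    calc P * (C' * C' ^ j * δ ^ 2 * α ^ 5) = (P * δ) * (C' * δ) * (C' ^ j * α ^ 4) * α := by ring
      _ ≤ (P * δ) * (C' * δ) * (C' ^ j * δ ^ j) * α := by gcongr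
      _ ≤ 1 * 1 * 1 * α := by
          gcongr
          · linarith
          · linarith
      _ = α := by ring
  obtain ⟨e', he', hne'⟩ := hperm (C' * C' ^ j * δ ^ 2 * α ^ 5) α (disp e) hα0 (by positivity) hPe ne
  have hee : e' = e := by
    ext y
    rw [he' y]
    unfold disp
    ring
  rw [hee] at hne'
  have hAn : P * C' ^ (j + 1) * δ ^ 2 * α ^ 5 = P * (C' * C' ^ j * δ ^ 2 * α ^ 5) := by
    rw [pow_succ]
    ring
  refine ⟨a, b, D, S, e, ⟨heq, ?_, ?_, ?_, ?_, ?_, ?_, ?_, ?_, ?_⟩⟩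
  · exact hsub sa fun y hy => by
      rw [mem_Icc] at hy
      rw [mem_Ioo]
      constructor <;> linarith [hy.1, hy.2]
  · exact hsub sb fun y hy => hy
  · exact hsub sD fun y hy => by
      rw [mem_Icc] at hy
      rw [mem_Ioo]
      constructor <;> linarith [hy.1, hy.2]
  · exact hsub sS fun y hy => by
      rw [mem_Icc] at hy
      rw [mem_Ioo]
      constructor <;> linarith [hy.1, hy.2]
  · rw [← hδ, ← hC']
    exact ch3_Sz na hl0 hl1 (by positivity) (hbig _ ta)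
  · rw [← hδ, ← hC']
    exact ch3_Sz nb hm0 (hmw1.trans hw1) (by positivity) tb
  · rw [← hδ, ← hC']
    exact ch3_Sz nD hw0 hw1 (by positivity) (hbig _ tD)
  · rw [← hδ, ← hC']
    exact ch3_Sz nS hw0 hw1 (by positivity) (hbig _ tS)
  · refine ⟨?_, ?_, ?_⟩
    · rw [← hδ, ← hC', ← hα, hAn]
      refine ne.mono le_rfl (by positivity) ?_ hα0 le_rfl
      exact le_mul_of_one_le_left (by positivity) hP1
    · rw [← hδ, ← hC', ← hα, hAn]
      exact hne'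
    · rw [hx1, hwj1]
      exact se

/-- The recursion: `one_step` with `w = wj j`, `m = mj μ j`, `l = lj ε j`, `α = lj ε (j+1)`,
`A = C^j ε (lj ε j)^5`, `d = √ε 16^(-j)`; for odd `j` it is applied to `(G j)⁻¹`.
All sizes are stated as they come out. -/
theorem chain_recursion (μ : ℝ) (hμ : 0 < μ) (hμ1 : μ ≤ 1) : ∃ C c₀ : ℝ, 1 ≤ C ∧ 0 < c₀ ∧
    ∀ (ε : ℝ) (G₀ : Pm), 0 < ε → ε ≤ c₀ → Nl 5 ε 1 (disp G₀) → Supp G₀ (Icc 0 1) →
    ∃ (G a b D S : ℕ → Pm), G 0 = G₀ ∧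
      (∀ j, Supp (G j) (Icc (xj j) (xj j + wj j))) ∧
      (∀ j, Supp (a j) (Ioo (xj j - mj μ j) (xj (j + 1) + 2 * wj (j + 1)))) ∧
      (∀ j, Supp (b j) (Ioo (xj j - mj μ j) (xj (j + 1) + 2 * wj (j + 1)))) ∧
      (∀ j, Supp (D j) (Ioo (xj j - mj μ j) (xj (j + 1) + 2 * wj (j + 1)))) ∧
      (∀ j, Supp (S j) (Ioo (xj j - mj μ j) (xj (j + 1) + 2 * wj (j + 1)))) ∧
      (∀ j, G (2 * j) = cm (a (2 * j)) (b (2 * j)) * cm (D (2 * j)) (S (2 * j)) * G (2 * j + 1)) ∧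
      (∀ j, G (2 * j + 1) = G (2 * j + 2) * (cm (D (2 * j + 1)) (S (2 * j + 1)))⁻¹ *
        (cm (a (2 * j + 1)) (b (2 * j + 1)))⁻¹) ∧
      (∀ j, Sz (C * Real.sqrt ε * (1 / 2) ^ j) (a j)) ∧
      (∀ j, Sz (C * Real.sqrt ε * (1 / 2) ^ j) (b j)) ∧
      (∀ j, Sz (C * Real.sqrt ε * (1 / 2) ^ j) (D j)) ∧
      (∀ j, Sz (C * Real.sqrt ε * (1 / 2) ^ j) (S j)) := by
  obtain ⟨C₁, hC1, hone⟩ := one_step
  obtain ⟨P, hP1, hperm⟩ := exists_perm 5 (by norm_num)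
  have hC'0 : 0 < C₁ * P := by nlinarith
  have hC'1 : 1 ≤ C₁ * P := by nlinarith
  refine ⟨4 * (C₁ * P) / μ ^ 2, (μ / (512 * (C₁ * P))) ^ 2, ?_, by positivity, ?_⟩
  · rw [le_div_iff₀ (by positivity)]
    have := pow_le_one₀ hμ.le hμ1 (n := 2)
    linarith
  intro ε G₀ hε hεc hG₀ hs₀
  have hsm : 512 * (C₁ * P) * Real.sqrt ε ≤ μ := by
    have h1 : Real.sqrt ε ≤ μ / (512 * (C₁ * P)) := by
      rw [Real.sqrt_le_left (by positivity)]
      exact hεc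
    rw [le_div_iff₀ (by positivity)] at h1
    linarith
  have hδ0 : 0 < Real.sqrt ε := Real.sqrt_pos.2 hε
  have hδ2 : Real.sqrt ε ^ 2 = ε := Real.sq_sqrt hε.le
  have hQ0 : ch3_Q C₁ P ε 0 G₀ := by
    have hPε : P * ε ≤ 1 := by
      have h1 : P ≤ C₁ * P := le_mul_of_one_le_left (by linarith) hC1
      have h2 : C₁ * P * Real.sqrt ε ≤ 1 := by nlinarith
      have h3 : Real.sqrt ε ≤ 1 := by nlinarith
      calc P * ε = P * (Real.sqrt ε * Real.sqrt ε) := by rw [← sq, hδ2]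
        _ ≤ (C₁ * P) * (Real.sqrt ε * 1) := by gcongr
        _ ≤ 1 := by linarith
    obtain ⟨F, hF, hF2⟩ := hperm ε 1 (disp G₀) one_pos hε.le hPε hG₀
    have hFG : F = G₀ := by
      ext y
      rw [hF y]
      unfold disp
      ring
    rw [hFG] at hF2
    have e1 : P * (C₁ * P) ^ 0 * Real.sqrt ε ^ 2 * lj ε 0 ^ 5 = P * ε := by
      rw [hδ2]
      simp [lj]
    have e2 : lj ε 0 = 1 := rfl
    refine ⟨?_, ?_, ?_⟩
    · rw [e1, e2]
      exact hG₀.mono le_rfl hε.le (le_mul_of_one_le_left hε.le hP1) one_pos le_rfl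
    · rw [e1, e2]
      exact hF2
    · have e3 : xj 0 = 0 := by simp [xj]
      have e4 : wj 0 = 1 := by simp [wj]
      rw [e3, e4, zero_add]
      exact hs₀
  have step := fun (j : ℕ) (F : Pm) (hF : ch3_Q C₁ P ε j F) =>
    ch3_step hμ hμ1 hC1 hP1 hone hperm hε hsm j F hF
  choose! fa fb fD fS fe hR using step
  let T : ℕ → Pm := fun j => Nat.rec (motive := fun _ => Pm) G₀
    (fun j F => if j % 2 = 0 then fe j F else (fe j F⁻¹)⁻¹) j
  let U : ℕ → Pm := fun j => if j % 2 = 0 then T j else (T j)⁻¹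
  have hT0 : T 0 = G₀ := rfl
  have hTs : ∀ j, T (j + 1) = if j % 2 = 0 then fe j (T j) else (fe j (T j)⁻¹)⁻¹ := fun j => rfl
  have hQ : ∀ j, ch3_Q C₁ P ε j (T j) := by
    intro j
    induction j with
    | zero => exact hQ0
    | succ j ih =>
      rw [hTs]
      by_cases h0 : j % 2 = 0
      · rw [if_pos h0]
        exact (hR j _ ih).next
      · rw [if_neg h0]
        exact (hR j _ ih.inv).next.inv
  have hQU : ∀ j, ch3_Q C₁ P ε j (U j) := by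
    intro j
    by_cases h0 : j % 2 = 0
    · have : U j = T j := if_pos h0
      rw [this]
      exact hQ j
    · have : U j = (T j)⁻¹ := if_neg h0
      rw [this]
      exact (hQ j).inv
  have hRU := fun j => hR j (U j) (hQU j)
  refine ⟨T, fun j => fa j (U j), fun j => fb j (U j), fun j => fD j (U j), fun j => fS j (U j),
    hT0, fun j => (hQ j).supp, fun j => (hRU j).sa, fun j => (hRU j).sb, fun j => (hRU j).sD,
    fun j => (hRU j).sS, ?_, ?_, fun j => (hRU j).za, fun j => (hRU j).zb, fun j => (hRU j).zD,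
    fun j => (hRU j).zS⟩
  · intro j
    have h0 : (2 * j) % 2 = 0 := by omega
    have e1 : U (2 * j) = T (2 * j) := if_pos h0
    have e2 : T (2 * j + 1) = fe (2 * j) (U (2 * j)) := by rw [hTs, if_pos h0, e1]
    have h1 := (hRU (2 * j)).eq
    rw [← e2] at h1
    rw [← h1, e1]
  · intro j
    have h0 : ¬ (2 * j + 1) % 2 = 0 := by omega
    have e1 : U (2 * j + 1) = (T (2 * j + 1))⁻¹ := if_neg h0
    have e2 : T (2 * j + 2) = (fe (2 * j + 1) (U (2 * j + 1)))⁻¹ := by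
      rw [hTs, if_neg h0, e1]
    have h1 := (hRU (2 * j + 1)).eq
    rw [e2]
    have h2 : T (2 * j + 1) = (U (2 * j + 1))⁻¹ := by rw [e1, inv_inv]
    rw [h2]
    nth_rewrite 1 [h1]
    simp only [mul_inv_rev]
    rw [mul_assoc]

end GD31
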