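import Pool.Agent.LibGD31.CH2
import Pool.Agent.LibGD31.CH3

/-! # CH4: the chain lemma -/

open Filter Topology Set

namespace GD31

private theorem ch4_supp_inv {F : Pm} {I : Set ℝ} (h : Supp F I) : Supp F⁻¹ I := by
  intro x hx
  exact (Equiv.symm_apply_eq F).2 (h x hx).symm

private theorem ch4_supp_cm {F G : Pm} {I : Set ℝ} (hF : Supp F I) (hG : Supp G I) :
    Supp (cm F G) I := by
  intro x hx
  show F (G (F⁻¹ (G⁻¹ x))) = x
  rw [ch4_supp_inv hG x hx, ch4_supp_inv hF x hx, hG x hx, hF x hx]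

private theorem ch4_cm_inv (F G : Pm) : (cm F G)⁻¹ = cm G F := by
  unfold cm
  simp only [mul_inv_rev, inv_inv, mul_assoc]

private theorem ch4_sz_mono {s s' : ℝ} {F : ℝ → ℝ} (h : Sz s F) (hs : s ≤ s') : Sz s' F :=
  ⟨h.contDiff, fun x => (h.d0 x).trans hs, fun x => (h.d1 x).trans hs,
    fun x => (h.d2 x).trans hs⟩

private theorem ch4_sum {K : ℝ} (hK : 0 ≤ K) (e : ℕ → ℕ) (he : ∀ i, i ≤ e i) :
    Summable (fun i => K * (1 / 2 : ℝ) ^ e i) ∧ ∑' i, K * (1 / 2 : ℝ) ^ e i ≤ 2 * K := by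
  have h1 : ∀ i, K * (1 / 2 : ℝ) ^ e i ≤ K * (1 / 2 : ℝ) ^ i := by
    intro i
    exact mul_le_mul_of_nonneg_left
      (pow_le_pow_of_le_one (by norm_num) (by norm_num) (he i)) hK
  have h2 : Summable (fun i : ℕ => K * (1 / 2 : ℝ) ^ i) := summable_geometric_two.mul_left K
  have h3 : Summable (fun i => K * (1 / 2 : ℝ) ^ e i) :=
    Summable.of_nonneg_of_le (fun i => by positivity) h1 h2
  refine ⟨h3, ?_⟩
  refine (h3.tsum_le_tsum h1 h2).trans ?_
  rw [tsum_mul_left, tsum_geometric_two, mul_comm]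

private theorem ch4_glue_supp {V : ℕ → Set ℝ} {F : ℕ → Pm} {H : Pm} {I : Set ℝ}
    (h : IsGlue V F H) (hV : ∀ i, V i ⊆ I) : Supp H I := by
  intro x hx
  exact h.off x fun i hi => hx (hV i hi)

private theorem ch4_wj_pos (j : ℕ) : 0 < wj j := by
  unfold wj
  positivity

private theorem ch4_wj_succ (j : ℕ) : wj (j + 1) = wj j / 4 := by
  unfold wj
  rw [pow_succ]
  ring

private theorem ch4_wj_anti {i j : ℕ} (h : i ≤ j) : wj j ≤ wj i := by
  unfold wj
  exact pow_le_pow_of_le_one (by norm_num) (by norm_num) h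

private theorem ch4_xj (j : ℕ) : xj j = 4 - 4 * wj j := by
  unfold xj wj
  ring

/-- the windows of the chain -/
private noncomputable def ch4_V (μ : ℝ) (j : ℕ) : Set ℝ :=
  Ioo (xj j - mj μ j) (xj (j + 1) + 2 * wj (j + 1))

private theorem ch4_V_sub {μ : ℝ} (hμ : 0 < μ) (j : ℕ) : ch4_V μ j ⊆ Ioo (-μ) 5 := by
  intro x hx
  obtain ⟨h1, h2⟩ := hx
  rw [ch4_xj] at h1 h2
  have h3 := ch4_wj_pos (j + 1)
  refine ⟨?_, by linarith⟩
  unfold mj at h1
  split_ifs at h1 with hj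
  · subst hj
    have : wj 0 = 1 := by
      unfold wj
      rw [pow_zero]
    rw [this] at h1
    linarith
  · have h4 : wj j ≤ wj 1 := ch4_wj_anti (by omega)
    have h5 : wj 1 = 1 / 4 := by
      unfold wj
      rw [pow_one]
    rw [h5] at h4
    linarith

private theorem ch4_V_disj (μ : ℝ) {i j : ℕ} (hij : i < j) (h2 : i % 2 = j % 2) :
    Disjoint (ch4_V μ i) (ch4_V μ j) := by
  rw [Set.disjoint_left]
  intro x hx hx'
  have h3 : x < xj (i + 1) + 2 * wj (i + 1) := hx.2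
  have h4 : xj j - mj μ j < x := hx'.1
  have hj : j ≠ 0 := by omega
  unfold mj at h4
  rw [if_neg hj, ch4_xj] at h4
  rw [ch4_xj] at h3
  have h5 : wj j ≤ wj (i + 1 + 1) := ch4_wj_anti (by omega)
  rw [ch4_wj_succ] at h5
  have h6 := ch4_wj_pos (i + 1)
  linarith

private theorem ch4_V_disj' (μ : ℝ) {i j : ℕ} (hij : i ≠ j) (h2 : i % 2 = j % 2) :
    Disjoint (ch4_V μ i) (ch4_V μ j) := by
  rcases lt_or_gt_of_ne hij with h | h
  · exact ch4_V_disj μ h h2
  · exact (ch4_V_disj μ h h2.symm).symm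

private theorem ch4_X_disj {i j : ℕ} (hij : i < j) :
    Disjoint (Icc (xj i) (xj i + wj i)) (Icc (xj j) (xj j + wj j)) := by
  rw [Set.disjoint_left]
  intro x hx hx'
  have h3 : x ≤ xj i + wj i := hx.2
  have h4 : xj j ≤ x := hx'.1
  rw [ch4_xj] at h3 h4
  have h5 : wj j ≤ wj (i + 1) := ch4_wj_anti (by omega)
  rw [ch4_wj_succ] at h5
  have h6 := ch4_wj_pos i
  linarith

/-- **Chain lemma.** -/
theorem chain_lemma (μ : ℝ) (hμ : 0 < μ) (hμ1 : μ ≤ 1) : ∃ C c₀ : ℝ, 1 ≤ C ∧ 0 < c₀ ∧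
    ∀ (ε : ℝ) (G : Pm), 0 < ε → ε ≤ c₀ → Nl 5 ε 1 (disp G) → Supp G (Icc 0 1) →
    ∃ a b : Fin 4 → Pm, (∀ i, Sz (C * Real.sqrt ε) (a i)) ∧ (∀ i, Sz (C * Real.sqrt ε) (b i)) ∧
      (∀ i, Supp (a i) (Ioo (-μ) 5)) ∧ (∀ i, Supp (b i) (Ioo (-μ) 5)) ∧
      G = cm (a 0) (b 0) * cm (a 1) (b 1) * cm (a 2) (b 2) * cm (a 3) (b 3) := by
  obtain ⟨C, c₀, hC, hc₀, hrec⟩ := chain_recursion μ hμ hμ1
  refine ⟨2 * C, c₀, by linarith, hc₀, ?_⟩
  intro ε G₀ hε hε' hN hS₀
  obtain ⟨G, a, b, D, S, hG0, hGs, has, hbs, hDs, hSs, heven, hodd, haz, hbz, hDz, hSz⟩ :=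
    hrec ε G₀ hε hε' hN hS₀
  have hK : 0 ≤ C * Real.sqrt ε := mul_nonneg (by linarith) (Real.sqrt_nonneg ε)
  have hVs : ∀ j, ch4_V μ j ⊆ Ioo (-μ) 5 := fun j => ch4_V_sub hμ j
  have hde : Pairwise (fun i j => Disjoint (ch4_V μ (2 * i)) (ch4_V μ (2 * j))) :=
    fun i j hij => ch4_V_disj' μ (by omega) (by omega)
  have hdo : Pairwise (fun i j => Disjoint (ch4_V μ (2 * i + 1)) (ch4_V μ (2 * j + 1))) :=
    fun i j hij => ch4_V_disj' μ (by omega) (by omega)
  have glue : ∀ (F : ℕ → Pm) (e : ℕ → ℕ), (∀ i, i ≤ e i) →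
      Pairwise (fun i j => Disjoint (ch4_V μ (e i)) (ch4_V μ (e j))) →
      (∀ j, Supp (F j) (ch4_V μ j)) → (∀ j, Sz (C * Real.sqrt ε * (1 / 2) ^ j) (F j)) →
      ∃ H : Pm, IsGlue (fun i => ch4_V μ (e i)) (fun i => F (e i)) H ∧
        Sz (2 * C * Real.sqrt ε) H ∧ Supp H (Ioo (-μ) 5) := by
    intro F e he hd hFs hFz
    obtain ⟨H, hH⟩ := exists_glue (fun i => ch4_V μ (e i)) (fun i => F (e i)) hd
      (fun i => hFs (e i))
    obtain ⟨hs1, hs2⟩ := ch4_sum hK e he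
    refine ⟨H, hH, ?_, ch4_glue_supp hH fun i => hVs (e i)⟩
    have h1 := IsGlue.sz hd (fun i => hFs (e i)) hH (fun i => C * Real.sqrt ε * (1 / 2) ^ e i)
      (fun i => hFz (e i)) hs1
    refine ch4_sz_mono h1 (hs2.trans (le_of_eq (by ring)))
  obtain ⟨Ae, hAe, hAez, hAes⟩ := glue a (fun i => 2 * i) (fun i => by omega) hde has haz
  obtain ⟨Be, hBe, hBez, hBes⟩ := glue b (fun i => 2 * i) (fun i => by omega) hde hbs hbz
  obtain ⟨De, hDe, hDez, hDes⟩ := glue D (fun i => 2 * i) (fun i => by omega) hde hDs hDz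
  obtain ⟨Se, hSe, hSez, hSes⟩ := glue S (fun i => 2 * i) (fun i => by omega) hde hSs hSz
  obtain ⟨Ao, hAo, hAoz, hAos⟩ := glue a (fun i => 2 * i + 1) (fun i => by omega) hdo has haz
  obtain ⟨Bo, hBo, hBoz, hBos⟩ := glue b (fun i => 2 * i + 1) (fun i => by omega) hdo hbs hbz
  obtain ⟨Do, hDo, hDoz, hDos⟩ := glue D (fun i => 2 * i + 1) (fun i => by omega) hdo hDs hDz
  obtain ⟨So, hSo, hSoz, hSos⟩ := glue S (fun i => 2 * i + 1) (fun i => by omega) hdo hSs hSz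
  let c : ℕ → Pm := fun j => if j % 2 = 0 then cm (a j) (b j) else cm (b j) (a j)
  let k : ℕ → Pm := fun j => if j % 2 = 0 then cm (D j) (S j) else cm (S j) (D j)
  have hce : ∀ j, c (2 * j) = cm (a (2 * j)) (b (2 * j)) := fun j => if_pos (by omega)
  have hco : ∀ j, c (2 * j + 1) = cm (b (2 * j + 1)) (a (2 * j + 1)) := fun j => if_neg (by omega)
  have hke : ∀ j, k (2 * j) = cm (D (2 * j)) (S (2 * j)) := fun j => if_pos (by omega)
  have hko : ∀ j, k (2 * j + 1) = cm (S (2 * j + 1)) (D (2 * j + 1)) := fun j => if_neg (by omega)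
  have hcs : ∀ j, Supp (c j) (ch4_V μ j) := by
    intro j
    show Supp (if j % 2 = 0 then cm (a j) (b j) else cm (b j) (a j)) _
    split_ifs
    · exact ch4_supp_cm (has j) (hbs j)
    · exact ch4_supp_cm (hbs j) (has j)
  have hks : ∀ j, Supp (k j) (ch4_V μ j) := by
    intro j
    show Supp (if j % 2 = 0 then cm (D j) (S j) else cm (S j) (D j)) _
    split_ifs
    · exact ch4_supp_cm (hDs j) (hSs j)
    · exact ch4_supp_cm (hSs j) (hDs j)
  have hCe : IsGlue (fun i => ch4_V μ (2 * i)) (fun i => c (2 * i)) (cm Ae Be) := by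
    have h := IsGlue.cm hde (fun i => has (2 * i)) (fun i => hbs (2 * i)) hAe hBe
    simp only [hce]
    exact h
  have hKe : IsGlue (fun i => ch4_V μ (2 * i)) (fun i => k (2 * i)) (cm De Se) := by
    have h := IsGlue.cm hde (fun i => hDs (2 * i)) (fun i => hSs (2 * i)) hDe hSe
    simp only [hke]
    exact h
  have hKo : IsGlue (fun i => ch4_V μ (2 * i + 1)) (fun i => k (2 * i + 1)) (cm So Do) := by
    have h := IsGlue.cm hdo (fun i => hSs (2 * i + 1)) (fun i => hDs (2 * i + 1)) hSo hDo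
    simp only [hko]
    exact h
  have hCo : IsGlue (fun i => ch4_V μ (2 * i + 1)) (fun i => c (2 * i + 1)) (cm Bo Ao) := by
    have h := IsGlue.cm hdo (fun i => hbs (2 * i + 1)) (fun i => has (2 * i + 1)) hBo hAo
    simp only [hco]
    exact h
  have hmain := infinite_product (ch4_V μ) (fun j => Icc (xj j) (xj j + wj j)) c k G
    (fun i j hij h2 => ch4_V_disj' μ hij h2)
    (fun i j hij => by
      rcases lt_or_gt_of_ne hij with h | h
      · exact ch4_X_disj h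
      · exact (ch4_X_disj h).symm)
    hcs hks hGs
    (fun j => by rw [hce, hke]; exact heven j)
    (fun j => by
      rw [hco, hko, ← ch4_cm_inv (D (2 * j + 1)) (S (2 * j + 1)),
        ← ch4_cm_inv (a (2 * j + 1)) (b (2 * j + 1))]
      exact hodd j)
    (cm Ae Be) (cm De Se) (cm So Do) (cm Bo Ao) hCe hKe hKo hCo
  refine ⟨![Ae, De, So, Bo], ![Be, Se, Do, Ao], ?_, ?_, ?_, ?_, ?_⟩
  · intro i
    fin_cases i
    · exact hAez
    · exact hDez
    · exact hSoz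
    · exact hBoz
  · intro i
    fin_cases i
    · exact hBez
    · exact hSez
    · exact hDoz
    · exact hAoz
  · intro i
    fin_cases i
    · exact hAes
    · exact hDes
    · exact hSos
    · exact hBos
  · intro i
    fin_cases i
    · exact hBes
    · exact hSes
    · exact hDos
    · exact hAos
  · rw [← hG0]
    exact hmain

end GD31
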