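import Pool.Agent.LibGD31.CK2

/-! # CK4: inverse -/

open Filter Topology Set

namespace GD31

theorem ck4_const (k : ℕ) {l : ℝ} (hl : 0 < l) (c : ℝ) : Nl k |c| l (fun _ => c) := by
  refine ⟨contDiff_const, fun i _ x => ?_⟩
  rw [iteratedDeriv_const]
  split_ifs with h
  · rw [h, pow_zero, div_one]
  · rw [abs_zero]
    positivity

theorem ck4_abs {k : ℕ} {A l : ℝ} {f : ℝ → ℝ} (h : Nl k A l f) (x : ℝ) : |f x| ≤ A := by
  have h1 := h.bound 0 (Nat.zero_le k) x
  rwa [iteratedDeriv_zero, pow_zero, div_one] at h1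

theorem ck4_deriv {k : ℕ} {A l : ℝ} {f : ℝ → ℝ} (hk : 1 ≤ k) (h : Nl k A l f) (x : ℝ) :
    |deriv f x| ≤ A / l := by
  have h1 := h.bound 1 hk x
  rwa [iteratedDeriv_one, pow_one] at h1

theorem ck4_ne {u : ℝ} {a : ℝ} (ha : a ≤ 1 / 2) (h : |u| ≤ a) : 1 / 2 ≤ 1 + u := by
  have := abs_le.1 h
  linarith [this.1]

theorem ck4_theta_sm {u : ℝ → ℝ} (hs : Sm u) (h : ∀ x, 1 + u x ≠ 0) :
    Sm (fun x => -u x / (1 + u x)) :=
  hs.neg.div (contDiff_const.add hs) h

theorem ck4_theta_deriv {u : ℝ → ℝ} (hs : Sm u) (h : ∀ x, 1 + u x ≠ 0) :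
    deriv (fun x => -u x / (1 + u x)) = fun x => (-1) * (deriv u x *
      ((1 + -u x / (1 + u x)) * (1 + -u x / (1 + u x)))) := by
  funext x
  have hd : HasDerivAt u (deriv u x) x :=
    (hs.differentiable (by simp)).differentiableAt.hasDerivAt
  have h1 : HasDerivAt (fun x => -u x / (1 + u x))
      ((-deriv u x * (1 + u x) - -u x * deriv u x) / (1 + u x) ^ 2) x :=
    hd.neg.div (hd.const_add 1) (h x)
  rw [h1.deriv]
  have h2 := h x
  field_simp
  ring

theorem ck4_theta (k : ℕ) : ∃ C : ℝ, 1 ≤ C ∧ ∀ (a l : ℝ) (u : ℝ → ℝ), 0 < l → 0 ≤ a →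
    a ≤ 1 / 2 → Nl k a l u → Nl k (C * a) l (fun x => -u x / (1 + u x)) := by
  induction k with
  | zero =>
    refine ⟨2, by norm_num, fun a l u hl ha ha2 hu => ?_⟩
    have hne : ∀ x, 1 + u x ≠ 0 := fun x => by
      have := ck4_ne ha2 (ck4_abs hu x)
      linarith
    refine ⟨ck4_theta_sm hu.smooth hne, fun i hi x => ?_⟩
    have hi0 : i = 0 := by omega
    subst hi0
    rw [iteratedDeriv_zero, pow_zero, div_one, abs_div, abs_neg]
    have h1 := ck4_ne ha2 (ck4_abs hu x)
    have h2 : 0 < 1 + u x := by linarith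
    rw [abs_of_pos h2, div_le_iff₀ h2]
    have := ck4_abs hu x
    nlinarith
  | succ k ih =>
    obtain ⟨C, hC, hih⟩ := ih
    refine ⟨2 + 2 ^ k * (2 ^ k * (1 + C) * (1 + C)), ?_, fun a l u hl ha ha2 hu => ?_⟩
    · have : 0 ≤ 2 ^ k * (2 ^ k * (1 + C) * (1 + C)) := by positivity
      linarith
    have hne : ∀ x, 1 + u x ≠ 0 := fun x => by
      have := ck4_ne ha2 (ck4_abs hu x)
      linarith
    have hu' : Nl k a l u := hu.mono (Nat.le_succ k) ha le_rfl hl le_rfl
    have hth := hih a l u hl ha ha2 hu'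
    have hC0 : 0 ≤ C := by linarith
    have h1 : Nl k (1 + C) l (fun x => 1 + -u x / (1 + u x)) := by
      have h2 := (ck4_const k hl 1).add hth
      refine h2.mono le_rfl (by positivity) ?_ hl le_rfl
      rw [abs_one]
      nlinarith
    have hud : Nl k (a / l) l (deriv u) := hu.derivative hl
    have hal : 0 ≤ a / l := div_nonneg ha hl.le
    have h3 := (h1.mul h1 hl (by linarith) (by linarith))
    have h4 := (hud.mul h3 hl hal (by positivity)).const_mul (-1)
    have hP : 0 ≤ 2 ^ k * (2 ^ k * (1 + C) * (1 + C)) := by positivity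
    refine Nl.of_deriv (ck4_theta_sm hu.smooth hne) hl (fun x => ?_) ?_
    · rw [abs_div, abs_neg]
      have h5 := ck4_ne ha2 (ck4_abs hu x)
      have h6 : 0 < 1 + u x := by linarith
      rw [abs_of_pos h6, div_le_iff₀ h6]
      have h7 := ck4_abs hu x
      have h8 : 2 * a ≤ (2 + 2 ^ k * (2 ^ k * (1 + C) * (1 + C))) * a := by nlinarith
      nlinarith
    · rw [ck4_theta_deriv hu.smooth hne]
      refine h4.mono le_rfl ?_ ?_ hl le_rfl
      · rw [abs_neg, abs_one]
        positivity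
      · rw [abs_neg, abs_one, one_mul]
        have h9 : 2 ^ k * (a / l) * (2 ^ k * (1 + C) * (1 + C)) =
            2 ^ k * (2 ^ k * (1 + C) * (1 + C)) * a / l := by ring
        rw [h9]
        refine div_le_div_of_nonneg_right ?_ hl.le
        nlinarith

theorem ck4_eta_deriv {ψ η : ℝ → ℝ} (hψ : Sm ψ) (hη : Sm η)
    (he : ∀ y, η y = -ψ (y + η y)) (h : ∀ x, 1 + deriv ψ x ≠ 0) :
    deriv η = fun y => -deriv ψ (y + η y) / (1 + deriv ψ (y + η y)) := by
  funext y
  have hd : HasDerivAt η (deriv η y) y :=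
    (hη.differentiable (by simp)).differentiableAt.hasDerivAt
  have hd1 : HasDerivAt (fun y => y + η y) (1 + deriv η y) y := (hasDerivAt_id y).add hd
  have hd2 : HasDerivAt ψ (deriv ψ (y + η y)) (y + η y) :=
    (hψ.differentiable (by simp)).differentiableAt.hasDerivAt
  have hd3 : HasDerivAt (fun y => -ψ (y + η y)) (-(deriv ψ (y + η y) * (1 + deriv η y))) y :=
    (hd2.comp y hd1).neg
  have heq : η = fun y => -ψ (y + η y) := funext he
  have h1 : deriv η y = -(deriv ψ (y + η y) * (1 + deriv η y)) := by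
    conv_lhs => rw [heq]
    exact hd3.deriv
  rw [eq_div_iff (h _)]
  linear_combination h1

theorem ck4_eta (k : ℕ) : ∃ C : ℝ, 1 ≤ C ∧ ∀ (B l : ℝ) (ψ η : ℝ → ℝ), 0 < l → 0 ≤ B →
    C * B ≤ l → Nl k B l ψ → Sm η → (∀ y, η y = -ψ (y + η y)) → Nl k (C * B) l η := by
  induction k with
  | zero =>
    refine ⟨1, le_rfl, fun B l ψ η hl hB _ hψ hη he => ?_⟩
    refine ⟨hη, fun i hi x => ?_⟩
    have hi0 : i = 0 := by omega
    subst hi0
    rw [iteratedDeriv_zero, pow_zero, div_one, he x, abs_neg, one_mul]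
    exact ck4_abs hψ _
  | succ k ih =>
    obtain ⟨C2, hC2, h2⟩ := ih
    obtain ⟨C1, hC1, h1⟩ := ck4_theta k
    obtain ⟨C3, hC3, h3⟩ := Nl.comp_id_add k
    have h13 : 1 ≤ C3 * C1 := by nlinarith
    refine ⟨2 + C2 + C3 * C1, by linarith, fun B l ψ η hl hB hBl hψ hη he => ?_⟩
    have hCB : C2 * B ≤ l := by nlinarith
    have hB2 : B / l ≤ 1 / 2 := by
      rw [div_le_iff₀ hl]
      nlinarith
    have hψ' : Nl k B l ψ := hψ.mono (Nat.le_succ k) hB le_rfl hl le_rfl
    have hη1 := h2 B l ψ η hl hB hCB hψ' hη he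
    have hη2 : Nl k l l η := hη1.mono le_rfl (by positivity) hCB hl le_rfl
    have hu : Nl k (B / l) l (deriv ψ) := hψ.derivative hl
    have hBl0 : 0 ≤ B / l := div_nonneg hB hl.le
    have hth := h1 (B / l) l (deriv ψ) hl hBl0 hB2 hu
    have hcomp := h3 (C1 * (B / l)) l _ η hl (by positivity) hth hη2
    have hne : ∀ x, 1 + deriv ψ x ≠ 0 := fun x => by
      have := ck4_ne hB2 (ck4_abs hu x)
      linarith
    refine Nl.of_deriv hη hl (fun x => ?_) ?_
    · rw [he x, abs_neg]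
      refine (ck4_abs hψ _).trans ?_
      nlinarith
    · rw [ck4_eta_deriv hψ.smooth hη he hne]
      refine hcomp.mono le_rfl (by positivity) ?_ hl le_rfl
      have h9 : C3 * (C1 * (B / l)) = C3 * C1 * B / l := by ring
      rw [h9]
      refine div_le_div_of_nonneg_right ?_ hl.le
      nlinarith

theorem disp_smooth_inv {F : Pm} (hs : Sm (disp F)) (hd : ∀ x, 0 < deriv F x) :
    Sm (disp F⁻¹) := by
  have hF : Sm (F : ℝ → ℝ) := by
    have h1 : (F : ℝ → ℝ) = fun x => disp F x + x := by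
      funext x
      unfold disp
      ring
    rw [h1]
    exact hs.add contDiff_id
  have hmono : StrictMono (F : ℝ → ℝ) := strictMono_of_deriv_pos hd
  let e : ℝ ≃o ℝ := hmono.orderIsoOfSurjective (F : ℝ → ℝ) F.surjective
  have he : ∀ x, e x = F x := fun x => rfl
  have h2 : ContDiff ℝ ((⊤ : ℕ∞) : WithTop ℕ∞) (e.toHomeomorph.symm : ℝ → ℝ) := by
    refine e.toHomeomorph.contDiff_symm_deriv (f' := deriv F) (fun x => (hd x).ne') ?_ hF
    intro x
    exact (hF.differentiable (by simp)).differentiableAt.hasDerivAt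
  have h3 : disp F⁻¹ = fun y => e.toHomeomorph.symm y - y := by
    funext y
    unfold disp
    congr 1
    rw [Equiv.Perm.inv_def, Equiv.symm_apply_eq]
    change y = F (e.symm y)
    rw [← he, e.apply_symm_apply]
  rw [h3]
  exact h2.sub contDiff_id

/-- `id + ψ` is a permutation of the line if `ψ` is `C¹`-small (`C B ≤ l`), and the inverse is
`id + ψ'` with `ψ'` of the same size. Proof: derivative `≥ 1/2`, surjective by the intermediate
value theorem, inverse smooth (`ContDiffAt.to_localInverse` or `HasDerivAt.of_local_left_inverse`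
and induction); `ψ' = - ψ ∘ (id + ψ')`; `(ψ')' = θ ∘ (id + ψ')` with `θ = -ψ_x / (1 + ψ_x)`
and induction on `k` with CK2. -/
theorem exists_perm (k : ℕ) (hk : 1 ≤ k) : ∃ C : ℝ, 1 ≤ C ∧ ∀ (B l : ℝ) (ψ : ℝ → ℝ), 0 < l →
    0 ≤ B → C * B ≤ l → Nl k B l ψ →
    ∃ F : Pm, (∀ x, F x = x + ψ x) ∧ Nl k (C * B) l (disp F⁻¹) := by
  obtain ⟨C, hC, h⟩ := ck4_eta k
  refine ⟨C + 2, by linarith, fun B l ψ hl hB hCB hψ => ?_⟩
  have hB2 : B / l ≤ 1 / 2 := by
    rw [div_le_iff₀ hl]
    nlinarith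
  have hdiff : Differentiable ℝ ψ := hψ.smooth.differentiable (by simp)
  have hder : ∀ x, HasDerivAt (fun x => x + ψ x) (1 + deriv ψ x) x := fun x =>
    (hasDerivAt_id x).add (hdiff x).hasDerivAt
  have hpos : ∀ x, 0 < 1 + deriv ψ x := fun x => by
    have := ck4_ne hB2 (ck4_deriv hk hψ x)
    linarith
  have hmono : StrictMono fun x => x + ψ x :=
    strictMono_of_deriv_pos fun x => by
      rw [(hder x).deriv]
      exact hpos x
  have hcont : Continuous fun x => x + ψ x := continuous_id.add hdiff.continuous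
  have hbd : ∀ x, |ψ x| ≤ B := ck4_abs hψ
  have htop : Tendsto (fun x => x + ψ x) atTop atTop := by
    refine tendsto_atTop_mono (f := fun x => x - B) (fun x => ?_)
      (tendsto_atTop_add_const_right atTop (-B) tendsto_id)
    have := (abs_le.1 (hbd x)).1
    linarith
  have hbot : Tendsto (fun x => x + ψ x) atBot atBot := by
    have h8 : ∀ x : ℝ, x + ψ x ≤ x + B := fun x => by
      have := (abs_le.1 (hbd x)).2
      linarith
    exact tendsto_atBot_mono h8 (tendsto_atBot_add_const_right atBot B tendsto_id)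
  have hsurj : Function.Surjective fun x => x + ψ x := hcont.surjective htop hbot
  let F : Pm := Equiv.ofBijective (fun x => x + ψ x) ⟨hmono.injective, hsurj⟩
  have hFx : ∀ x, F x = x + ψ x := fun x => rfl
  have hdisp : disp F = ψ := by
    funext x
    unfold disp
    rw [hFx]
    ring
  have hderF : ∀ x, 0 < deriv F x := fun x => by
    have h1 : deriv (F : ℝ → ℝ) x = 1 + deriv ψ x := (hder x).deriv
    rw [h1]
    exact hpos x
  have hsm : Sm (disp F⁻¹) := disp_smooth_inv (by rw [hdisp]; exact hψ.smooth) hderF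
  have he : ∀ y, disp F⁻¹ y = -ψ (y + disp F⁻¹ y) := by
    intro y
    have h1 : y + disp F⁻¹ y = F⁻¹ y := by
      unfold disp
      ring
    rw [h1]
    have h2 : F (F⁻¹ y) = y := Equiv.apply_symm_apply F y
    rw [hFx] at h2
    unfold disp
    linarith
  refine ⟨F, hFx, ?_⟩
  have h5 := h B l ψ (disp F⁻¹) hl hB (by nlinarith) hψ hsm he
  exact h5.mono le_rfl (by positivity) (by nlinarith) hl le_rfl

/-- composition of permutations close to the identity -/
theorem Nl.mul_perm (k : ℕ) : ∃ C : ℝ, 1 ≤ C ∧ ∀ (A B l : ℝ) (F G : Pm), 0 < l → 0 ≤ A → 0 ≤ B →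
    B ≤ l → Nl k A l (disp F) → Nl k B l (disp G) → Nl k (C * A + B) l (disp (F * G)) := by
  obtain ⟨C, hC, h⟩ := Nl.comp_id_add k
  refine ⟨C, hC, fun A B l F G hl hA hB hBl hF hG => ?_⟩
  have hG' : Nl k l l (disp G) := hG.mono le_rfl hB hBl hl le_rfl
  have h1 := (h A l (disp F) (disp G) hl hA hF hG').add hG
  have h2 : disp (F * G) = fun x => disp F (x + disp G x) + disp G x := by
    funext x
    unfold disp
    rw [Equiv.Perm.mul_apply]
    have h3 : x + (G x - x) = G x := by ring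
    rw [h3]
    ring
  rw [h2]
  exact h1

end GD31
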