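import Pool.Agent.LibGD31.CK3
import Pool.Agent.LibGD31.CK4

/-! # CK7: commutators -/

open Filter Topology Set

namespace GD31

private theorem ck7_disp (F G : Pm) (x : ℝ) :
    disp (cm F G) x =
      (disp F ((x + disp (G * F)⁻¹ x) + disp G (x + disp (G * F)⁻¹ x)) -
        disp F (x + disp (G * F)⁻¹ x)) -
      (disp G ((x + disp (G * F)⁻¹ x) + disp F (x + disp (G * F)⁻¹ x)) -
        disp G (x + disp (G * F)⁻¹ x)) := by
  have hu : x + disp (G * F)⁻¹ x = (G * F)⁻¹ x := by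
    unfold disp
    ring
  rw [hu]
  have hx : x = G (F ((G * F)⁻¹ x)) := by
    exact (Equiv.apply_symm_apply (G * F) x).symm
  have hc : cm F G x = F (G ((G * F)⁻¹ x)) := by
    unfold cm
    rw [mul_inv_rev]
    rfl
  have h1 : (G * F)⁻¹ x + disp G ((G * F)⁻¹ x) = G ((G * F)⁻¹ x) := by
    unfold disp
    ring
  have h2 : (G * F)⁻¹ x + disp F ((G * F)⁻¹ x) = F ((G * F)⁻¹ x) := by
    unfold disp
    ring
  rw [h1, h2]
  show cm F G x - x = _
  rw [hc]
  generalize (G * F)⁻¹ x = u at hx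
  subst hx
  unfold disp
  ring

/-- `disp (F G) - disp (G F) = (f(x + g) - f x) - (g (x + f) - g x) =: ρ` and
`disp (cm F G) = ρ ∘ (G F)⁻¹`; CK2, CK3, CK4. -/
theorem cm_bound (k : ℕ) (hk : 1 ≤ k) : ∃ C : ℝ, 1 ≤ C ∧ ∀ (A B l : ℝ) (F G : Pm), 0 < l → 0 ≤ A →
    0 ≤ B → C * A ≤ l → C * B ≤ l → Nl (k + 1) A l (disp F) → Nl (k + 1) B l (disp G) →
    Nl k (C * A * B / l) l (disp (cm F G)) := by
  obtain ⟨C1, hC1, h1⟩ := Nl.diff k
  obtain ⟨C2, hC2, h2⟩ := Nl.mul_perm k
  obtain ⟨C3, hC3, h3⟩ := exists_perm k hk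
  obtain ⟨C4, hC4, h4⟩ := Nl.comp_id_add k
  have h14 : 1 ≤ C1 * C4 := one_le_mul_of_one_le_of_one_le hC1 hC4
  have h23 : 1 ≤ C2 * C3 := one_le_mul_of_one_le_of_one_le hC2 hC3
  have hC : 1 ≤ 2 * (C1 * C4) * (C2 * C3) := by nlinarith
  refine ⟨2 * (C1 * C4) * (C2 * C3), hC, ?_⟩
  intro A B l F G hl hA hB hCA hCB hF hG
  have hAl : A ≤ l := by nlinarith
  have hBl : B ≤ l := by nlinarith
  have hF' : Nl k A l (disp F) := hF.mono (Nat.le_succ k) hA le_rfl hl le_rfl
  have hG' : Nl k B l (disp G) := hG.mono (Nat.le_succ k) hB le_rfl hl le_rfl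
  have hr1 := h1 A B l (disp F) (disp G) hl hA hB hBl hF hG'
  have hr2 := h1 B A l (disp G) (disp F) hl hB hA hAl hG hF'
  have hr := hr1.sub hr2
  have hGF := h2 B A l G F hl hB hA hAl hG' hF'
  have hGF0 : 0 ≤ C2 * B + A := by positivity
  have e1 : C3 * (C2 * B + A) ≤ l := by
    have e2 : C3 * (C2 * B) ≤ l / 2 := by
      have : 2 * (C3 * (C2 * B)) ≤ 2 * (C1 * C4) * (C2 * C3) * B := by
        have e3 : 2 * (C1 * C4) * (C2 * C3) * B = (C1 * C4) * (2 * (C3 * (C2 * B))) := by ring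
        rw [e3]
        exact le_mul_of_one_le_left (by positivity) h14
      linarith
    have e4 : C3 * A ≤ l / 2 := by
      have : 2 * (C3 * A) ≤ 2 * (C1 * C4) * (C2 * C3) * A := by
        have e3 : 2 * (C1 * C4) * (C2 * C3) * A = (C1 * C4) * (C2 * (2 * (C3 * A))) := by ring
        rw [e3]
        refine le_trans ?_ (le_mul_of_one_le_left (by positivity) h14)
        exact le_mul_of_one_le_left (by positivity) hC2
      linarith
    rw [mul_add]
    linarith
  obtain ⟨H, hH, hHi⟩ := h3 (C2 * B + A) l (disp (G * F)) hl hGF0 e1 hGF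
  have hHe : H = G * F := by
    ext x
    rw [hH]
    unfold disp
    ring
  rw [hHe] at hHi
  have hψ : Nl k l l (disp (G * F)⁻¹) :=
    hHi.mono le_rfl (by positivity) e1 hl le_rfl
  have hA2 : 0 ≤ C1 * A * B / l + C1 * B * A / l := by positivity
  have hfin := h4 _ l _ (disp (G * F)⁻¹) hl hA2 hr hψ
  have e5 : (fun x => (fun x => (fun x => disp F (x + disp G x) - disp F x) x -
      (fun x => disp G (x + disp F x) - disp G x) x) (x + disp (G * F)⁻¹ x)) = disp (cm F G) := by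
    funext x
    exact (ck7_disp F G x).symm
  have hfin' : Nl k (C4 * (C1 * A * B / l + C1 * B * A / l)) l (disp (cm F G)) := by
    rw [← e5]
    exact hfin
  refine hfin'.mono le_rfl (by positivity) ?_ hl le_rfl
  have e6 : C4 * (C1 * A * B / l + C1 * B * A / l) = 2 * (C1 * C4) * A * B / l := by ring
  have e7 : 2 * (C1 * C4) * (C2 * C3) * A * B / l = (C2 * C3) * (2 * (C1 * C4) * A * B / l) := by
    ring
  rw [e6, e7]
  exact le_mul_of_one_le_left (by positivity) h23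

end GD31
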