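import Pool.Agent.LibGD31.Defs

/-! # ST1: placing a content in a cell -/

open Filter Topology Set

namespace GD31

/-- The cell with base point `y`, length `l` (sign included) and margin `μ`:
`{y + l x : x ∈ [-μ, 5]}`. -/
def cell (y l μ : ℝ) : Set ℝ := (fun x => y + l * x) '' Icc (-μ) 5

/-- the content `a` (unit coordinate) placed in the cell -/
noncomputable def place (y l : ℝ) (hl : l ≠ 0) (a : Pm) : Pm := af y l hl * a * (af y l hl)⁻¹

theorem place_apply {y l : ℝ} (hl : l ≠ 0) (a : Pm) (x : ℝ) :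
    place y l hl a (y + l * x) = y + l * a x := by
  have h : (af y l hl)⁻¹ (y + l * x) = x := (af y l hl).symm_apply_apply x
  show af y l hl (a ((af y l hl)⁻¹ (y + l * x))) = _
  rw [h, af_apply]

theorem st1_fun {y l : ℝ} (hl : l ≠ 0) (a : Pm) :
    (place y l hl a : ℝ → ℝ) = fun z => y + l * a ((z - y) / l) := by
  funext z
  have h := place_apply (y := y) hl a ((z - y) / l)
  have h2 : y + l * ((z - y) / l) = z := by
    rw [mul_div_cancel₀ _ hl]
    ring
  rw [h2] at h
  exact h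

theorem place_mul {y l : ℝ} (hl : l ≠ 0) (a b : Pm) :
    place y l hl (a * b) = place y l hl a * place y l hl b := by
  simp only [place]
  group

theorem place_cm {y l : ℝ} (hl : l ≠ 0) (a b : Pm) :
    place y l hl (cm a b) = cm (place y l hl a) (place y l hl b) := by
  simp only [place, cm]
  group

theorem place_supp {y l μ : ℝ} (hl : l ≠ 0) {a : Pm} (ha : Supp a (Icc (-μ) 5)) :
    Supp (place y l hl a) (cell y l μ) := by
  intro z hz
  have h2 : y + l * ((z - y) / l) = z := by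
    rw [mul_div_cancel₀ _ hl]
    ring
  have hx : (z - y) / l ∉ Icc (-μ) 5 := fun h => hz ⟨(z - y) / l, h, h2⟩
  rw [st1_fun]
  show y + l * a ((z - y) / l) = z
  rw [ha _ hx, h2]

theorem st1_u (y l z : ℝ) : HasDerivAt (fun z => (z - y) / l) (1 / l) z :=
  ((hasDerivAt_id z).sub_const y).div_const l

theorem st1_deriv {y l s : ℝ} (hl : l ≠ 0) {a : Pm} (ha : Sz s a) :
    deriv (place y l hl a : ℝ → ℝ) = fun z => deriv (a : ℝ → ℝ) ((z - y) / l) := by
  funext z
  rw [st1_fun]
  have hd : HasDerivAt (a : ℝ → ℝ) (deriv (a : ℝ → ℝ) ((z - y) / l)) ((z - y) / l) :=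
    ((ha.contDiff.differentiable (by norm_num)) _).hasDerivAt
  have h := ((hd.comp z (st1_u y l z)).const_mul l).const_add y
  have h4 : l * (deriv (a : ℝ → ℝ) ((z - y) / l) * (1 / l)) =
      deriv (a : ℝ → ℝ) ((z - y) / l) := by
    rw [mul_left_comm, mul_one_div_cancel hl, mul_one]
  rw [h4] at h
  exact h.deriv

/-- `C²` size of a placed content. -/
theorem place_size {y l s : ℝ} (hl : l ≠ 0) {a : Pm} (ha : Sz s a) :
    ContDiff ℝ 2 (place y l hl a) ∧ (∀ z, |place y l hl a z - z| ≤ |l| * s) ∧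
      (∀ z, |deriv (place y l hl a) z - 1| ≤ s) ∧
      (∀ z, |deriv (deriv (place y l hl a)) z| ≤ s / |l|) := by
  refine ⟨?_, ?_, ?_, ?_⟩
  · rw [st1_fun]
    exact contDiff_const.add (contDiff_const.mul
      (ha.contDiff.comp ((contDiff_id.sub contDiff_const).div_const l)))
  · intro z
    rw [st1_fun]
    have h2 : y + l * ((z - y) / l) = z := by
      rw [mul_div_cancel₀ _ hl]
      ring
    have h3 : y + l * a ((z - y) / l) - z = l * (a ((z - y) / l) - (z - y) / l) := by
      rw [mul_sub]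
      linarith
    show |y + l * a ((z - y) / l) - z| ≤ |l| * s
    rw [h3, abs_mul]
    exact mul_le_mul_of_nonneg_left (ha.d0 _) (abs_nonneg l)
  · intro z
    rw [st1_deriv hl ha]
    exact ha.d1 _
  · intro z
    rw [st1_deriv hl ha]
    have hd : HasDerivAt (deriv (a : ℝ → ℝ)) (deriv (deriv (a : ℝ → ℝ)) ((z - y) / l))
        ((z - y) / l) := ((ha.contDiff.differentiable_deriv_two) _).hasDerivAt
    have h := hd.comp z (st1_u y l z)
    have h5 : deriv (fun z => deriv (a : ℝ → ℝ) ((z - y) / l)) z =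
        deriv (deriv (a : ℝ → ℝ)) ((z - y) / l) * (1 / l) := h.deriv
    rw [h5, abs_mul, abs_div, abs_one, mul_one_div]
    exact div_le_div_of_nonneg_right (ha.d2 _) (abs_nonneg l)

/-- geometry of a cell: `|y|/2 ≤ |z| ≤ (1 + 5 Λ) |y|` and it is compact -/
theorem cell_abs {y l μ Λ z : ℝ} (hμ : 0 < μ) (hsign : 0 < l * y) (hmar : 2 * μ * |l| ≤ |y|)
    (hΛ : |l| ≤ Λ * |y|) (hz : z ∈ cell y l μ) : |y| / 2 ≤ |z| ∧ |z| ≤ (1 + 5 * Λ) * |y| := by
  obtain ⟨x, ⟨hx1, hx2⟩, rfl⟩ := hz
  show |y| / 2 ≤ |y + l * x| ∧ |y + l * x| ≤ (1 + 5 * Λ) * |y|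
  rcases pos_and_pos_or_neg_and_neg_of_mul_pos hsign with ⟨h1, h2⟩ | ⟨h1, h2⟩
  · rw [abs_of_pos h1, abs_of_pos h2] at *
    have h3 : l * (-μ) ≤ l * x := mul_le_mul_of_nonneg_left hx1 h1.le
    have h4 : l * x ≤ l * 5 := mul_le_mul_of_nonneg_left hx2 h1.le
    have h5 : 0 < y + l * x := by nlinarith
    rw [abs_of_pos h5]
    constructor <;> nlinarith
  · rw [abs_of_neg h1, abs_of_neg h2] at *
    have h3 : l * x ≤ l * (-μ) := mul_le_mul_of_nonpos_left hx1 h1.le
    have h4 : l * 5 ≤ l * x := mul_le_mul_of_nonpos_left hx2 h1.le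
    have h5 : y + l * x < 0 := by nlinarith
    rw [abs_of_neg h5]
    constructor <;> nlinarith

theorem isCompact_cell (y l μ : ℝ) : IsCompact (cell y l μ) :=
  isCompact_Icc.image (continuous_const.add (continuous_const.mul continuous_id))

/-- image of a cell under `z ↦ r z` -/
theorem image_cell (r y l μ : ℝ) : (fun z => r * z) '' cell y l μ = cell (r * y) (r * l) μ := by
  rw [cell, cell, Set.image_image]
  refine congrFun (congrArg Set.image ?_) _
  funext x
  ring

end GD31
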