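import Pool.Agent.LibGD31.PP2

/-! # PP3: normal form -/

open Filter Topology Set Asymptotics

namespace GD31

private theorem pp3_mono {a b : ℕ} (h : b ≤ a) :
    (fun x : ℝ => x ^ a) =O[𝓝 0] fun x => x ^ b := by
  obtain ⟨c, rfl⟩ := Nat.exists_eq_add_of_le h
  have h1 : (fun x : ℝ => x ^ c) =O[𝓝 0] fun _ => (1 : ℝ) :=
    ((continuous_pow c).tendsto (0 : ℝ)).isBigO_one ℝ
  have h2 := (isBigO_refl (fun x : ℝ => x ^ b) (𝓝 0)).mul h1
  simpa [pow_add] using h2

private theorem pp3_deriv_id : deriv (fun x : ℝ => x) 0 = 1 := by simp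

/-- Induction on `N` with `taylor_O` and `elim_step` (at `m = 2p+1` the coefficient is `a`). -/
theorem normal_form {f : ℝ → ℝ} (hf : Cinf f) {p : ℕ} {c : ℝ} (hp : 1 ≤ p) (hc : c ≠ 0)
    (h : (fun x => f x - (x + c * x ^ (p + 1))) =O[𝓝 0] fun x => x ^ (p + 2)) (N : ℕ) :
    ∃ (φ f' : ℝ → ℝ) (a : ℝ), Cinf φ ∧ φ 0 = 0 ∧ deriv φ 0 = 1 ∧ Cinf f' ∧
      (∀ᶠ x in 𝓝 0, φ (f x) = f' (φ x)) ∧
      (fun x => f' x - (x + c * x ^ (p + 1) + a * x ^ (2 * p + 1))) =O[𝓝 0]
        fun x => x ^ N := by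
  induction N with
  | zero =>
    refine ⟨fun x => x, f, 0, contDiffAt_id, rfl, pp3_deriv_id, hf, Eventually.of_forall fun _ => rfl, ?_⟩
    refine (h.trans (pp3_mono (Nat.zero_le _))).congr_left fun x => ?_
    ring
  | succ N ih =>
    rcases Nat.lt_or_ge N (p + 2) with hN | hN
    · refine ⟨fun x => x, f, 0, contDiffAt_id, rfl, pp3_deriv_id, hf,
        Eventually.of_forall fun _ => rfl, ?_⟩
      refine (h.trans (pp3_mono (by omega))).congr_left fun x => ?_
      ring
    · obtain ⟨φ, f', a, hφ, hφ0, hφ1, hf', hcomm, hO⟩ := ih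
      have hpoly : Cinf (fun x : ℝ => x + c * x ^ (p + 1) + a * x ^ (2 * p + 1)) :=
        ContDiff.contDiffAt ((contDiff_id.add (contDiff_const.mul (contDiff_id.pow _))).add
          (contDiff_const.mul (contDiff_id.pow _)))
      obtain ⟨d, hd⟩ := taylor_O (hf'.sub hpoly) hO
      -- composition with a further change of coordinates
      have key : ∀ a' : ℝ, (∃ φ₂ f'' : ℝ → ℝ, Cinf φ₂ ∧ φ₂ 0 = 0 ∧ deriv φ₂ 0 = 1 ∧ Cinf f'' ∧
          (∀ᶠ x in 𝓝 0, φ₂ (f' x) = f'' (φ₂ x)) ∧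
          (fun x => f'' x - (x + c * x ^ (p + 1) + a' * x ^ (2 * p + 1))) =O[𝓝 0]
            fun x => x ^ (N + 1)) → ∃ (φ f' : ℝ → ℝ) (a : ℝ), Cinf φ ∧ φ 0 = 0 ∧ deriv φ 0 = 1 ∧
          Cinf f' ∧ (∀ᶠ x in 𝓝 0, φ (f x) = f' (φ x)) ∧
          (fun x => f' x - (x + c * x ^ (p + 1) + a * x ^ (2 * p + 1))) =O[𝓝 0]
            fun x => x ^ (N + 1) := by
        rintro a' ⟨φ₂, f'', h1, h2, h3, h4, h5, h6⟩
        refine ⟨φ₂ ∘ φ, f'', a', ?_, ?_, ?_, h4, ?_, h6⟩
        · refine ContDiffAt.comp 0 ?_ hφ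
          rw [hφ0]
          exact h1
        · rw [Function.comp, hφ0, h2]
        · have hn : ((⊤ : ℕ∞) : WithTop ℕ∞) ≠ 0 := by simp
          have d1 : HasDerivAt φ₂ 1 (φ 0) := by
            rw [hφ0, ← h3]
            exact (h1.differentiableAt hn).hasDerivAt
          have d2 : HasDerivAt φ 1 0 := by
            have := (hφ.differentiableAt hn).hasDerivAt
            rwa [hφ1] at this
          have d3 := (d1.comp 0 d2).deriv
          rw [mul_one] at d3
          exact d3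
        · have hφt : Tendsto φ (𝓝 0) (𝓝 0) := by
            have := hφ.continuousAt.tendsto
            rwa [hφ0] at this
          filter_upwards [hcomm, hφt.eventually h5] with x hx1 hx2
          simp only [Function.comp, hx1, hx2]
      by_cases hN1 : N = 2 * p + 1
      · refine ⟨φ, f', a + d, hφ, hφ0, hφ1, hf', hcomm, ?_⟩
        refine hd.congr_left fun x => ?_
        rw [hN1]
        ring
      · rcases Nat.lt_or_ge N (2 * p + 1) with hN2 | hN2
        · refine key 0 (elim_step (m := N) (d := d) hf' hp hc hN hN1 (fun _ => rfl) ?_)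
          have h1 : (fun x : ℝ => a * x ^ (2 * p + 1)) =O[𝓝 0] fun x => x ^ (N + 1) :=
            (pp3_mono (by omega)).const_mul_left a
          refine (hd.add h1).congr_left fun x => ?_
          ring
        · refine key a (elim_step (m := N) (d := d) hf' hp hc hN hN1 (fun h => by omega) ?_)
          refine hd.congr_left fun x => ?_
          ring

end GD31
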