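import Pool.Agent.LibGD31.PP6

/-! # PP7: two-sided conjugacy -/

open Filter Topology Set Asymptotics

namespace GD31

private structure pp7_D (U : Set ℝ) (h h' h'' : ℝ → ℝ) : Prop where
  d1 : ∀ z ∈ U, HasDerivAt h (h' z) z
  d2 : ∀ z ∈ U, HasDerivAt h' (h'' z) z
  c : ContinuousOn h'' U

private theorem pp7_D.contDiffAt {U : Set ℝ} {h h' h'' : ℝ → ℝ} (hU : IsOpen U)
    (H : pp7_D U h h' h'') {z : ℝ} (hz : z ∈ U) : ContDiffAt ℝ 2 h z := by
  have c0 : ContDiffOn ℝ 0 (deriv h') U := by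
    rw [contDiffOn_zero]
    refine H.c.congr fun y hy => ?_
    exact (H.d2 y hy).deriv
  have c1 : ContDiffOn ℝ 1 h' U := by
    have := (contDiffOn_succ_iff_deriv_of_isOpen (𝕜 := ℝ) (n := 0) (f := h') hU).2
      ⟨fun y hy => (H.d2 y hy).differentiableAt.differentiableWithinAt, by simp, c0⟩
    simpa using this
  have c1' : ContDiffOn ℝ 1 (deriv h) U := c1.congr fun y hy => (H.d1 y hy).deriv
  have c2 : ContDiffOn ℝ (1 + 1) h U :=
    (contDiffOn_succ_iff_deriv_of_isOpen (𝕜 := ℝ) (n := 1) (f := h) hU).2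
      ⟨fun y hy => (H.d1 y hy).differentiableAt.differentiableWithinAt, by simp, c1'⟩
  have e : (1 + 1 : WithTop ℕ∞) = 2 := by norm_num
  rw [e] at c2
  exact c2.contDiffAt (hU.mem_nhds hz)

private theorem pp7_cd_deriv {h : ℝ → ℝ} {z : ℝ} {m n : WithTop ℕ∞} (H : ContDiffAt ℝ n h z)
    (hmn : m + 1 ≤ n) : ContDiffAt ℝ m (deriv h) z := by
  have h1 : ContDiffAt ℝ m (fderiv ℝ h) z := H.fderiv_right hmn
  have h2 : ContDiffAt ℝ m (fun x => fderiv ℝ h x 1) z := h1.clm_apply contDiffAt_const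
  exact h2

/-- the data at one point -/
private theorem pp7_at {h : ℝ → ℝ} {z : ℝ} (H : ContDiffAt ℝ 2 h z) :
    HasDerivAt h (deriv h z) z ∧ HasDerivAt (deriv h) (deriv (deriv h) z) z ∧
      ContinuousAt (deriv (deriv h)) z := by
  have h1 : ContDiffAt ℝ 1 (deriv h) z := pp7_cd_deriv H (by norm_num)
  have h2 : ContDiffAt ℝ 0 (deriv (deriv h)) z := pp7_cd_deriv h1 (by norm_num)
  exact ⟨(H.differentiableAt (by norm_num)).hasDerivAt,
    (h1.differentiableAt (by norm_num)).hasDerivAt, h2.continuousAt⟩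

private theorem pp7_neg_left : Tendsto (fun x : ℝ => -x) (𝓝[<] 0) (𝓝[>] 0) := by
  rw [tendsto_nhdsWithin_iff]
  constructor
  · have h : Tendsto (fun x : ℝ => -x) (𝓝 0) (𝓝 0) := by
      have := (continuous_neg (G := ℝ)).tendsto 0
      rwa [neg_zero] at this
    exact h.mono_left nhdsWithin_le_nhds
  · filter_upwards [self_mem_nhdsWithin] with x hx
    have hx' : x < 0 := hx
    show 0 < -x
    linarith

private theorem pp7_two {α : Type*} {u : ℝ → α} {L : Filter α} (h1 : Tendsto u (𝓝[>] 0) L)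
    (h2 : Tendsto (fun x => u (-x)) (𝓝[>] 0) L) : Tendsto u (𝓝[≠] 0) L := by
  rw [← nhdsLT_sup_nhdsGT]
  refine Tendsto.sup ?_ h1
  have := h2.comp pp7_neg_left
  refine this.congr fun x => ?_
  simp

/-- the odd gluing of two germs -/
private noncomputable def pp7_glue (f g : ℝ → ℝ) (s v : ℝ) (x : ℝ) : ℝ :=
  if 0 < x then f x else if x < 0 then s * g (-x) else v

private theorem pp7_pos (f g : ℝ → ℝ) (s v : ℝ) {x : ℝ} (hx : 0 < x) :
    pp7_glue f g s v x = f x := if_pos hx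

private theorem pp7_neg (f g : ℝ → ℝ) (s v : ℝ) {x : ℝ} (hx : x < 0) :
    pp7_glue f g s v x = s * g (-x) := by
  unfold pp7_glue
  rw [if_neg (not_lt.2 hx.le), if_pos hx]

private theorem pp7_zero (f g : ℝ → ℝ) (s v : ℝ) : pp7_glue f g s v 0 = v := by
  unfold pp7_glue
  rw [if_neg (lt_irrefl _), if_neg (lt_irrefl _)]

private theorem pp7_eq_pos (f g : ℝ → ℝ) (s v : ℝ) {x : ℝ} (hx : 0 < x) :
    pp7_glue f g s v =ᶠ[𝓝 x] f := by
  filter_upwards [lt_mem_nhds hx] with y hy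
  exact pp7_pos f g s v hy

private theorem pp7_eq_neg (f g : ℝ → ℝ) (s v : ℝ) {x : ℝ} (hx : x < 0) :
    pp7_glue f g s v =ᶠ[𝓝 x] fun y => s * g (-y) := by
  filter_upwards [gt_mem_nhds hx] with y hy
  exact pp7_neg f g s v hy

/-- the glued function is `C²` at `0` -/
private theorem pp7_C2 {φ ψ : ℝ → ℝ} (h1 : Tan φ) (h2 : Tan ψ) :
    ContDiffAt ℝ 2 (pp7_glue φ ψ (-1) 0) 0 ∧ deriv (pp7_glue φ ψ (-1) 0) 0 = 1 := by
  have e1 := h1.contDiff
  have e2 := h2.contDiff
  rw [eventually_nhdsWithin_iff, Metric.eventually_nhds_iff] at e1 e2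
  obtain ⟨r1, hr1, e1⟩ := e1
  obtain ⟨r2, hr2, e2⟩ := e2
  set r := min r1 r2 with hr
  have hr0 : 0 < r := lt_min hr1 hr2
  have d1 : ∀ x, 0 < x → x < r → ContDiffAt ℝ 2 φ x := by
    intro x hx hxr
    refine e1 ?_ hx
    rw [Real.dist_eq, sub_zero, abs_of_pos hx]
    exact hxr.trans_le (min_le_left _ _)
  have d2 : ∀ x, 0 < x → x < r → ContDiffAt ℝ 2 ψ x := by
    intro x hx hxr
    refine e2 ?_ hx
    rw [Real.dist_eq, sub_zero, abs_of_pos hx]
    exact hxr.trans_le (min_le_right _ _)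
  -- limits at `0`
  have slope1 : ∀ {χ : ℝ → ℝ}, Tan χ → Tendsto (fun x => χ x / x) (𝓝[>] 0) (𝓝 1) := by
    intro χ hχ
    have hid : Tendsto (fun x : ℝ => x) (𝓝[>] 0) (𝓝 0) := tendsto_id.mono_left nhdsWithin_le_nhds
    have := (hχ.t0.mul hid).add_const 1
    rw [zero_mul, zero_add] at this
    refine this.congr' ?_
    filter_upwards [self_mem_nhdsWithin] with x hx
    have hx' : x ≠ 0 := ne_of_gt hx
    field_simp
    ring
  have D0 : HasDerivAt (pp7_glue φ ψ (-1) 0) 1 0 := by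
    rw [hasDerivAt_iff_tendsto_slope]
    refine pp7_two ?_ ?_
    · refine (slope1 h1).congr' ?_
      filter_upwards [self_mem_nhdsWithin] with x hx
      rw [slope_def_field, pp7_zero, pp7_pos _ _ _ _ hx, sub_zero, sub_zero]
    · refine (slope1 h2).congr' ?_
      filter_upwards [self_mem_nhdsWithin] with x hx
      have hx' : 0 < x := hx
      rw [slope_def_field, pp7_zero, pp7_neg _ _ _ _ (by linarith : -x < 0), sub_zero, sub_zero,
        neg_neg]
      rw [neg_one_mul, neg_div_neg_eq]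
  have D1 : HasDerivAt (pp7_glue (deriv φ) (deriv ψ) 1 1) 0 0 := by
    rw [hasDerivAt_iff_tendsto_slope]
    refine pp7_two ?_ ?_
    · refine h1.t1.congr' ?_
      filter_upwards [self_mem_nhdsWithin] with x hx
      rw [slope_def_field, pp7_zero, pp7_pos _ _ _ _ hx, sub_zero]
    · have := h2.t1.neg
      rw [neg_zero] at this
      refine this.congr' ?_
      filter_upwards [self_mem_nhdsWithin] with x hx
      have hx' : 0 < x := hx
      rw [slope_def_field, pp7_zero, pp7_neg _ _ _ _ (by linarith : -x < 0), sub_zero, neg_neg,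
        one_mul, div_neg]
  have C2 : ContinuousAt (pp7_glue (deriv (deriv φ)) (deriv (deriv ψ)) (-1) 0) 0 := by
    rw [continuousAt_iff_punctured_nhds, pp7_zero]
    refine pp7_two ?_ ?_
    · refine h1.t2.congr' ?_
      filter_upwards [self_mem_nhdsWithin] with x hx
      rw [pp7_pos _ _ _ _ hx]
    · have := h2.t2.neg
      rw [neg_zero] at this
      refine this.congr' ?_
      filter_upwards [self_mem_nhdsWithin] with x hx
      have hx' : 0 < x := hx
      rw [pp7_neg _ _ _ _ (by linarith : -x < 0), neg_neg, neg_one_mul]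
  have H : pp7_D (Ioo (-r) r) (pp7_glue φ ψ (-1) 0) (pp7_glue (deriv φ) (deriv ψ) 1 1)
      (pp7_glue (deriv (deriv φ)) (deriv (deriv ψ)) (-1) 0) := by
    refine ⟨fun x hx => ?_, fun x hx => ?_, fun x hx => ?_⟩
    · rcases lt_trichotomy x 0 with h | h | h
      · have a1 := (pp7_at (d2 (-x) (by linarith) (by linarith [hx.1]))).1
        have a2 : HasDerivAt (fun y => -1 * ψ (-y)) (-1 * (deriv ψ (-x) * -1)) x :=
          (a1.comp x (hasDerivAt_neg x)).const_mul (-1)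
        rw [pp7_neg _ _ _ _ h]
        have a3 : (1 : ℝ) * deriv ψ (-x) = -1 * (deriv ψ (-x) * -1) := by ring
        rw [a3]
        exact a2.congr_of_eventuallyEq (pp7_eq_neg _ _ _ _ h)
      · subst h
        rw [pp7_zero]
        exact D0
      · rw [pp7_pos _ _ _ _ h]
        exact (pp7_at (d1 x h hx.2)).1.congr_of_eventuallyEq (pp7_eq_pos _ _ _ _ h)
    · rcases lt_trichotomy x 0 with h | h | h
      · have a1 := (pp7_at (d2 (-x) (by linarith) (by linarith [hx.1]))).2.1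
        have a2 : HasDerivAt (fun y => 1 * deriv ψ (-y)) (1 * (deriv (deriv ψ) (-x) * -1)) x :=
          (a1.comp x (hasDerivAt_neg x)).const_mul 1
        rw [pp7_neg _ _ _ _ h]
        have a3 : (-1 : ℝ) * deriv (deriv ψ) (-x) = 1 * (deriv (deriv ψ) (-x) * -1) := by ring
        rw [a3]
        exact a2.congr_of_eventuallyEq (pp7_eq_neg _ _ _ _ h)
      · subst h
        rw [pp7_zero]
        exact D1
      · rw [pp7_pos _ _ _ _ h]
        exact (pp7_at (d1 x h hx.2)).2.1.congr_of_eventuallyEq (pp7_eq_pos _ _ _ _ h)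
    · refine ContinuousAt.continuousWithinAt ?_
      rcases lt_trichotomy x 0 with h | h | h
      · have a1 := (pp7_at (d2 (-x) (by linarith) (by linarith [hx.1]))).2.2
        have a2 : ContinuousAt (fun y => -1 * deriv (deriv ψ) (-y)) x :=
          (ContinuousAt.comp (f := fun y : ℝ => -y) (g := deriv (deriv ψ)) a1
            continuous_neg.continuousAt).const_mul (-1)
        exact a2.congr (pp7_eq_neg _ _ _ _ h).symm
      · subst h
        exact C2
      · exact (pp7_at (d1 x h hx.2)).2.2.congr (pp7_eq_pos _ _ _ _ h).symm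
  exact ⟨H.contDiffAt isOpen_Ioo ⟨by linarith, hr0⟩, D0.deriv⟩

private theorem pp7_pow_O {m n : ℕ} (h : m ≤ n) :
    (fun x : ℝ => x ^ n) =O[𝓝 0] fun x => x ^ m := by
  obtain ⟨j, rfl⟩ := Nat.exists_eq_add_of_le h
  have h1 : (fun x : ℝ => x ^ j) =O[𝓝 0] fun _ => (1 : ℝ) := by
    have : Tendsto (fun x : ℝ => x ^ j) (𝓝 0) (𝓝 (0 ^ j)) := (continuous_pow j).tendsto 0
    exact this.isBigO_one ℝ
  have h2 := (isBigO_refl (fun x : ℝ => x ^ m) (𝓝 0)).mul h1
  refine (h2.congr (fun x => ?_) fun x => ?_)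
  · rw [pow_add]
  · rw [mul_one]

/-- the sign of a germ tangent to the identity -/
private theorem pp7_sign {f : ℝ → ℝ} {p : ℕ} (hp : 2 ≤ p) {c a : ℝ}
    (h : (fun x => f x - (x + c * x ^ (p + 1) + a * x ^ (2 * p + 1))) =O[𝓝 0]
      fun x => x ^ (3 * p + 2)) :
    ∀ᶠ x in 𝓝 0, (0 < x → 0 < f x) ∧ (x < 0 → f x < 0) ∧ (x = 0 → f x = 0) := by
  have h1 : (fun x => f x - x) =O[𝓝 0] fun x : ℝ => x ^ 2 := by
    have a1 := h.trans (pp7_pow_O (by omega : 2 ≤ 3 * p + 2))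
    have a2 := (pp7_pow_O (by omega : 2 ≤ p + 1)).const_mul_left c
    have a3 := (pp7_pow_O (by omega : 2 ≤ 2 * p + 1)).const_mul_left a
    refine ((a1.add a2).add a3).congr_left fun x => ?_
    ring
  have h2 : (fun x => f x - x) =o[𝓝 0] fun x : ℝ => x := by
    refine h1.trans_isLittleO ?_
    have : (fun x : ℝ => x ^ 2) =o[𝓝 0] fun x => x ^ 1 := isLittleO_pow_pow (by norm_num)
    simpa using this
  filter_upwards [h2.def (c := 1 / 2) (by norm_num)] with x hx
  rw [Real.norm_eq_abs, Real.norm_eq_abs] at hx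
  refine ⟨fun h0 => ?_, fun h0 => ?_, fun h0 => ?_⟩
  · rw [abs_of_pos h0] at hx
    have := (abs_le.1 hx).1
    linarith
  · rw [abs_of_neg h0] at hx
    have := (abs_le.1 hx).2
    linarith
  · subst h0
    rw [abs_zero, mul_zero, sub_zero] at hx
    exact abs_eq_zero.1 (le_antisymm hx (abs_nonneg _))

/-- `φ = φ₊` on the right, `φ x = - φ₋ (-x)` on the left with `φ₋` from `one_sided` for
`x ↦ - f (-x)` (coefficients `(-1)^p c`, `a`), `φ 0 = 0`; it is `C²` at `0` by the limit theorem for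
derivatives. -/
theorem two_sided {f : ℝ → ℝ} (hf : Cinf f) {p : ℕ} (hp : 2 ≤ p) {c a : ℝ} (hc : c ≠ 0)
    (h : (fun x => f x - (x + c * x ^ (p + 1) + a * x ^ (2 * p + 1))) =O[𝓝 0]
      fun x => x ^ (3 * p + 2)) :
    ∃ φ : ℝ → ℝ, ContDiffAt ℝ 2 φ 0 ∧ φ 0 = 0 ∧ deriv φ 0 = 1 ∧
      ∀ᶠ x in 𝓝 0, φ (f x) = F0 c p (φ x) := by
  obtain ⟨φ, hφ, hφe⟩ := one_sided hf hp hc h
  -- the reflected germ
  have hneg : Tendsto (fun x : ℝ => -x) (𝓝 0) (𝓝 0) := by
    have := (continuous_neg (G := ℝ)).tendsto 0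
    rwa [neg_zero] at this
  have hf' : Cinf (fun x => -f (-x)) := by
    have h0 : ContDiffAt ℝ ((⊤ : ℕ∞) : WithTop ℕ∞) f (-(0 : ℝ)) := by
      rw [neg_zero]
      exact hf
    have h1 : ContDiffAt ℝ ((⊤ : ℕ∞) : WithTop ℕ∞) (fun x : ℝ => f (-x)) 0 :=
      ContDiffAt.comp (f := fun x : ℝ => -x) (g := f) 0 h0 contDiff_neg.contDiffAt
    exact h1.neg
  have hc' : (-1) ^ p * c ≠ 0 := mul_ne_zero (pow_ne_zero _ (by norm_num)) hc
  have h' : (fun x => -f (-x) - (x + ((-1) ^ p * c) * x ^ (p + 1) + a * x ^ (2 * p + 1))) =O[𝓝 0]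
      fun x => x ^ (3 * p + 2) := by
    have h1 := (h.comp_tendsto hneg).neg_left
    have h2 : (fun x : ℝ => (-x) ^ (3 * p + 2)) =O[𝓝 0] fun x => x ^ (3 * p + 2) := by
      refine IsBigO.of_bound 1 (Eventually.of_forall fun x => ?_)
      rw [one_mul, norm_pow, norm_neg, norm_pow]
    refine (h1.trans h2).congr_left fun x => ?_
    have e1 : ((-1 : ℝ) ^ p) * x ^ (p + 1) = -((-x) ^ (p + 1)) := by
      rw [neg_pow x (p + 1), pow_succ (-1 : ℝ) p]
      ring
    have e2 : (-x) ^ (2 * p + 1) = -(x ^ (2 * p + 1)) := Odd.neg_pow ⟨p, by ring⟩ x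
    simp only [Function.comp_apply]
    rw [e2]
    linear_combination (-c) * e1
  obtain ⟨ψ, hψ, hψe⟩ := one_sided hf' hp hc' h'
  obtain ⟨g1, g2⟩ := pp7_C2 hφ hψ
  refine ⟨pp7_glue φ ψ (-1) 0, g1, pp7_zero _ _ _ _, g2, ?_⟩
  rw [eventually_nhdsWithin_iff] at hφe hψe
  filter_upwards [pp7_sign hp h, hφe, hneg.eventually hψe] with x hs e1 e2
  rcases lt_trichotomy x 0 with h0 | h0 | h0
  · have h3 : f x < 0 := hs.2.1 h0
    have h4 : ψ (-f x) = F0 ((-1) ^ p * c) p (ψ (-x)) := by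
      have := e2 (show (0 : ℝ) < -x by linarith)
      simpa using this
    rw [pp7_neg _ _ _ _ h3, pp7_neg _ _ _ _ h0, h4]
    unfold F0
    have e3 : (-1 * ψ (-x)) ^ p = (-1) ^ p * ψ (-x) ^ p := mul_pow _ _ _
    rw [e3]
    have e4 : (p : ℝ) * c * ((-1) ^ p * ψ (-x) ^ p) = p * ((-1) ^ p * c) * ψ (-x) ^ p := by ring
    rw [e4]
    ring
  · rw [hs.2.2 h0, h0, pp7_zero]
    unfold F0
    rw [zero_mul]
  · rw [pp7_pos _ _ _ _ (hs.1 h0), pp7_pos _ _ _ _ h0]
    exact e1 h0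

end GD31
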