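import Pool.Agent.LibGD31.GI1

/-! # GI3: germs of `C²` functions as elements of `G²`; conjugation and the coordinate `1/z` -/

open Filter Topology Set

namespace GD31

open GermDist46

/-- a `C²` function with `f 0 = 0`, `f' 0 ≠ 0` represents an element of `G²`
(`ContDiffAt.to_localInverse`) -/
theorem exists_germ {f : ℝ → ℝ} (hf : ContDiffAt ℝ 2 f 0) (h0 : f 0 = 0)
    (h1 : deriv f 0 ≠ 0) : ∃ g : GermGroup 2, Represents g f := by
  have hr0 : (2 : WithTop ℕ∞) ≠ 0 := two_ne_zero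
  have hd : HasDerivAt f (deriv f 0) 0 := (hf.differentiableAt hr0).hasDerivAt
  set e : ℝ ≃L[ℝ] ℝ := ContinuousLinearEquiv.unitsEquivAut ℝ (Units.mk0 (deriv f 0) h1) with he
  have hfd : HasFDerivAt f (e : ℝ →L[ℝ] ℝ) 0 := by
    have h1 := hd.hasFDerivAt
    have h2 : (e : ℝ →L[ℝ] ℝ) = ContinuousLinearMap.toSpanSingleton ℝ (deriv f 0) := by
      ext; simp [he]
    rw [h2]
    exact h1
  set k := hf.localInverse hfd hr0 with hk
  have hs := hf.hasStrictFDerivAt' hfd hr0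
  have hk1 : ∀ᶠ x in 𝓝 (0 : ℝ), k (f x) = x := hs.eventually_left_inverse
  have hk2 : ∀ᶠ x in 𝓝 (0 : ℝ), f (k x) = x := by
    have := hs.eventually_right_inverse
    rwa [h0] at this
  have hk0 : k 0 = 0 := by
    have := hf.localInverse_apply_image hfd hr0
    rwa [h0] at this
  have hkc : ContDiffAt ℝ 2 k 0 := by
    have := hf.to_localInverse hfd hr0
    rwa [h0] at this
  let F : CrFun 2 := ⟨f, h0, hf⟩
  let K : CrFun 2 := ⟨k, hk0, hkc⟩
  refine ⟨⟨(F : GermMonoid 2), (K : GermMonoid 2), ?_, ?_⟩, F, rfl, rfl⟩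
  · change ((F * K : CrFun 2) : GermMonoid 2) = ((1 : CrFun 2) : GermMonoid 2)
    rw [Con.eq]
    exact hk2
  · change ((K * F : CrFun 2) : GermMonoid 2) = ((1 : CrFun 2) : GermMonoid 2)
    rw [Con.eq]
    exact hk1

theorem represents_unique' {f f' : ℝ → ℝ} {g g' : GermGroup 2} (h : Represents g f)
    (h' : Represents g' f') (hff : f =ᶠ[𝓝 0] f') : g = g' := by
  obtain ⟨F, hF, hg⟩ := h
  obtain ⟨F', hF', hg'⟩ := h'
  refine Units.ext ?_
  rw [← hg, ← hg', Con.eq]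
  show F.toFun =ᶠ[𝓝 0] F'.toFun
  rw [hF, hF']
  exact hff

theorem represents_mul {f f' : ℝ → ℝ} {g g' : GermGroup 2} (h : Represents g f)
    (h' : Represents g' f') : Represents (g * g') (f ∘ f') := by
  obtain ⟨F, hF, hg⟩ := h
  obtain ⟨F', hF', hg'⟩ := h'
  refine ⟨F * F', ?_, ?_⟩
  · rw [CrFun.mul_toFun, hF, hF']
  · rw [Units.val_mul, ← hg, ← hg']
    rfl

private theorem gi3_ne {f : ℝ → ℝ} {g : GermGroup 2} (h : Represents g f) :
    f 0 = 0 ∧ ∀ᶠ x in 𝓝[≠] (0 : ℝ), f x ≠ 0 := by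
  obtain ⟨F, hF, hg⟩ := h
  obtain ⟨K, hK⟩ := Con.mk'_surjective (c := germCon 2) ((g⁻¹ : GermGroup 2) : GermMonoid 2)
  have h1 : ((K * F : CrFun 2) : GermMonoid 2) = ((1 : CrFun 2) : GermMonoid 2) := by
    have h2 : ((K : CrFun 2) : GermMonoid 2) * (F : GermMonoid 2) = 1 := by
      have h3 : ((K : CrFun 2) : GermMonoid 2) = ((g⁻¹ : GermGroup 2) : GermMonoid 2) := hK
      rw [h3, hg]
      exact Units.inv_mul g
    exact h2
  rw [Con.eq] at h1
  have h4 : ∀ᶠ x in 𝓝 (0 : ℝ), K.toFun (F.toFun x) = x := h1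
  have h0 : f 0 = 0 := by
    rw [← hF]
    exact F.map_zero'
  refine ⟨h0, ?_⟩
  rw [hF] at h4
  filter_upwards [h4.filter_mono nhdsWithin_le_nhds, self_mem_nhdsWithin] with x hx hx0 hfx
  rw [hfx, K.map_zero'] at hx
  exact hx0 hx.symm

private theorem gi3_inv {P : ℝ → Prop} (h : ∀ᶠ z in cocompact ℝ, P z) :
    ∀ᶠ x in 𝓝[≠] (0 : ℝ), P x⁻¹ := by
  rw [← Metric.cobounded_eq_cocompact] at h
  exact tendsto_inv₀_nhdsNE_zero.eventually h

/-- If `φ (G z) = H (φ z)` near infinity in the coordinate `z = 1/x`, then the germs are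
conjugate: `g = cv G`, `h = cv H`, `g = φ⁻¹ h φ`. -/
theorem conj_of_eventually {g h : GermGroup 2} {f : ℝ → ℝ} {H φ : ℝ → ℝ} (hg : Represents g f)
    (hh : Represents h (cv H)) (hφ : GInf 1 0 φ)
    (hH : Tendsto (fun z => |H z|) (cocompact ℝ) atTop)
    (h1 : ∀ᶠ z in cocompact ℝ, φ ((f z⁻¹)⁻¹) = H (φ z)) :
    ∃ c : GermGroup 2, g = c⁻¹ * h * c := by
  obtain ⟨hc1, hc2⟩ := hφ.cv_contDiffAt
  have hc0 : cv φ 0 = 0 := if_pos rfl
  obtain ⟨c, hc⟩ := exists_germ hc1 hc0 (by rw [hc2.deriv]; norm_num)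
  refine ⟨c, ?_⟩
  have key : c * g = h * c := by
    refine represents_unique' (represents_mul hc hg) (represents_mul hh hc) ?_
    obtain ⟨hf0, hfn⟩ := gi3_ne hg
    have hφn : ∀ᶠ z in cocompact ℝ, φ z ≠ 0 := by
      have h2 : ∀ᶠ z in cocompact ℝ, |φ z - 1 * z - 0| < 1 := by
        have := (Metric.tendsto_nhds.1 hφ.f0) 1 one_pos
        filter_upwards [this] with z hz
        rwa [Real.dist_0_eq_abs] at hz
      have h3 : ∀ᶠ z in cocompact ℝ, (1 : ℝ) ≤ |z| := by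
        have h4 : Tendsto (fun z : ℝ => ‖z‖) (cocompact ℝ) atTop := tendsto_norm_cocompact_atTop
        exact h4.eventually_ge_atTop 1
      filter_upwards [h2, h3] with z h5 h6 h7
      rw [h7, zero_sub, sub_zero, abs_neg, one_mul] at h5
      linarith
    have hev := gi3_inv (h1.and hφn)
    have hpun : ∀ᶠ x in 𝓝[≠] (0 : ℝ), (cv φ ∘ f) x = (cv H ∘ cv φ) x := by
      filter_upwards [hev, hfn, self_mem_nhdsWithin] with x hx hfx hx0
      obtain ⟨hx1, hx2⟩ := hx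
      have hx0' : x ≠ 0 := hx0
      rw [inv_inv] at hx1
      show cv φ (f x) = cv H (cv φ x)
      have e1 : cv φ (f x) = (φ (f x)⁻¹)⁻¹ := if_neg hfx
      have e2 : cv φ x = (φ x⁻¹)⁻¹ := if_neg hx0'
      have e3 : cv H ((φ x⁻¹)⁻¹) = (H (φ x⁻¹)⁻¹⁻¹)⁻¹ := if_neg (inv_ne_zero hx2)
      rw [e1, e2, e3, inv_inv, hx1]
    have h0 : (cv φ ∘ f) 0 = (cv H ∘ cv φ) 0 := by
      show cv φ (f 0) = cv H (cv φ 0)
      rw [hf0, hc0]
      exact (if_pos rfl).symm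
    have h8 : ∀ᶠ x in 𝓝 (0 : ℝ), x ≠ 0 → (cv φ ∘ f) x = (cv H ∘ cv φ) x :=
      eventually_nhdsWithin_iff.1 hpun
    filter_upwards [h8] with x hx
    by_cases hx0 : x = 0
    · rw [hx0]
      exact h0
    · exact hx hx0
  rw [mul_assoc, ← key, inv_mul_cancel_left]

end GD31
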