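import Pool.Agent.LibGD31.PP5
import Pool.Agent.LibGD31.GI3
import Pool.Agent.LibGC45.F2

/-! # PP8: the model is distorted -/

open Filter Topology Set Asymptotics

namespace GD31

open GermDist46

private theorem pp8_log {G : Type*} [Group G] (g h : G) (hg : h * g * h⁻¹ = g ^ 2) (S : Set G)
    (hgS : g ∈ S) (hhS : h ∈ S) (n : ℕ) :
    GermDist46.wordLength S (g ^ n) ≤ 3 * Nat.log 2 n + 1 := by
  have hgc : g ∈ Subgroup.closure S := Subgroup.subset_closure hgS
  have hhc : h ∈ Subgroup.closure S := Subgroup.subset_closure hhS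
  have hg1 : wordLength S g ≤ 1 := GC45.f2_wl_gen S g hgS
  have hh1 : wordLength S h ≤ 1 := GC45.f2_wl_gen S h hhS
  have hhi : wordLength S h⁻¹ ≤ 1 := by
    have := GC45.f2_wl_le S [h⁻¹] (by simp [hhS])
    simpa using this
  have hdouble : ∀ m : ℕ, g ^ (2 * m) = h * g ^ m * h⁻¹ := by
    intro m
    rw [pow_mul, ← hg, conj_pow]
  have hd : ∀ m : ℕ, wordLength S (g ^ (2 * m)) ≤ wordLength S (g ^ m) + 2 := by
    intro m
    rw [hdouble m]
    have h1 := GC45.f2_wl_mul S (h * g ^ m) h⁻¹ (mul_mem hhc (pow_mem hgc m)) (inv_mem hhc)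
    have h2 := GC45.f2_wl_mul S h (g ^ m) hhc (pow_mem hgc m)
    omega
  induction n using Nat.strong_induction_on with
  | _ n ih =>
    rcases Nat.lt_or_ge n 2 with hn | hn
    · interval_cases n
      · rw [pow_zero, GC45.f2_wl_one]; omega
      · rw [pow_one]; omega
    · have h1 := ih (n / 2) (by omega)
      have h2 : Nat.log 2 n = Nat.log 2 (n / 2) + 1 := by
        rw [Nat.log_of_one_lt_of_le (by norm_num) hn]
      rcases Nat.even_or_odd' n with ⟨m, hm | hm⟩
      · have h3 : n / 2 = m := by omega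
        rw [h3] at h1 h2
        have h4 := hd m
        rw [← hm] at h4
        omega
      · have h3 : n / 2 = m := by omega
        rw [h3] at h1 h2
        have h4 := hd m
        have h5 := GC45.f2_wl_mul S (g ^ (2 * m)) g (pow_mem hgc _) hgc
        rw [← pow_succ, ← hm] at h5
        omega

private theorem pp8_tendsto :
    Tendsto (fun n : ℕ => ((3 * Nat.log 2 n + 1 : ℕ) : ℝ) / n) atTop (𝓝 0) := by
  have h1 : Tendsto (fun n : ℕ => Real.log (n : ℝ) / n) atTop (𝓝 0) := by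
    have h := Real.isLittleO_log_id_atTop.tendsto_div_nhds_zero
    exact h.comp tendsto_natCast_atTop_atTop
  have h2 : Tendsto (fun n : ℕ => (1 : ℝ) / n) atTop (𝓝 0) := tendsto_one_div_atTop_nhds_zero_nat
  have h3 : Tendsto (fun n : ℕ => 3 / Real.log 2 * (Real.log (n : ℝ) / n) + 1 / n) atTop (𝓝 0) := by
    have := (h1.const_mul (3 / Real.log 2)).add h2
    simpa using this
  refine squeeze_zero (fun n => by positivity) (fun n => ?_) h3
  rcases Nat.eq_zero_or_pos n with rfl | hn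
  · simp
  have hnR : (0 : ℝ) < n := by exact_mod_cast hn
  have hl2 : 0 < Real.log 2 := Real.log_pos (by norm_num)
  have h4 : (Nat.log 2 n : ℝ) ≤ Real.log n / Real.log 2 := by
    rw [le_div_iff₀ hl2, ← Real.log_pow]
    apply Real.log_le_log (by positivity)
    exact_mod_cast Nat.pow_log_le_self 2 hn.ne'
  have h5 : ((3 * Nat.log 2 n + 1 : ℕ) : ℝ) ≤ 3 * (Real.log n / Real.log 2) + 1 := by
    push_cast
    linarith
  calc ((3 * Nat.log 2 n + 1 : ℕ) : ℝ) / n ≤ (3 * (Real.log n / Real.log 2) + 1) / n := by gcongr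
    _ = 3 / Real.log 2 * (Real.log (n : ℝ) / n) + 1 / n := by
      field_simp

/-- A Baumslag–Solitar relation implies distortion: `g^(2^k) = h^k g h^(-k)`
(`GC45.distortion_of_words` or `f2_iff`). -/
theorem distorted_of_BS {G : Type*} [Group G] (g h : G) (hg : h * g * h⁻¹ = g ^ 2) :
    IsDistortionElement g := by
  classical
  rw [GC45.f2_iff]
  refine ⟨{g, h}, Subgroup.subset_closure (by simp), ?_⟩
  refine squeeze_zero (fun n => by positivity) (fun n => ?_) pp8_tendsto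
  gcongr
  exact pp8_log g h hg _ (by simp) (by simp) n

private theorem pp8_base {c : ℝ} {p : ℕ} (hp : 1 ≤ p) :
    ∀ᶠ x in 𝓝 (0 : ℝ), 0 < 1 - p * c * x ^ p := by
  have h : ContinuousAt (fun x : ℝ => 1 - p * c * x ^ p) 0 := by fun_prop
  have h0 : (0 : ℝ) < 1 - p * c * (0 : ℝ) ^ p := by
    rw [zero_pow (by omega)]; norm_num
  exact h.eventually (lt_mem_nhds h0)

private theorem pp8_smooth {c : ℝ} {p : ℕ} (hp : 1 ≤ p) :
    ContDiffAt ℝ 2 (fun x : ℝ => (1 - p * c * x ^ p) ^ (-(1 / (p : ℝ)))) 0 := by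
  have h0 : (1 : ℝ) - p * c * (0 : ℝ) ^ p ≠ 0 := by
    rw [zero_pow (by omega)]; norm_num
  have h : ContDiffAt ℝ 2 (fun x : ℝ => 1 - p * c * x ^ p) 0 := by fun_prop
  exact h.rpow_const_of_ne h0

private theorem pp8_comp {c x : ℝ} {p : ℕ} (hp : 1 ≤ p) (h1 : 0 < 1 - p * c * x ^ p)
    (h2 : 0 < 1 - p * (2 * c) * x ^ p) : F0 c p (F0 c p x) = F0 (2 * c) p x := by
  have hp0 : (p : ℝ) ≠ 0 := by
    have : (0 : ℝ) < p := by exact_mod_cast hp
    exact this.ne'
  have hy : (F0 c p x) ^ p = x ^ p / (1 - p * c * x ^ p) := by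
    unfold F0
    rw [mul_pow, ← Real.rpow_natCast ((1 - p * c * x ^ p) ^ (-(1 / (p : ℝ)))) p,
      ← Real.rpow_mul h1.le]
    have : -(1 / (p : ℝ)) * (p : ℝ) = -1 := by field_simp
    rw [this, Real.rpow_neg_one]
    rfl
  have h3 : 1 - p * c * (F0 c p x) ^ p = (1 - p * (2 * c) * x ^ p) / (1 - p * c * x ^ p) := by
    rw [hy]
    field_simp
    ring
  have h4 : F0 c p (F0 c p x) = F0 c p x * (1 - p * c * (F0 c p x) ^ p) ^ (-(1 / (p : ℝ))) := rfl
  rw [h4, h3, Real.div_rpow h2.le h1.le]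
  have h5 : F0 c p x = x * (1 - p * c * x ^ p) ^ (-(1 / (p : ℝ))) := rfl
  have h6 : (1 - p * c * x ^ p) ^ (-(1 / (p : ℝ))) ≠ 0 := (Real.rpow_pos_of_pos h1 _).ne'
  rw [h5]
  show _ = x * (1 - p * (2 * c) * x ^ p) ^ (-(1 / (p : ℝ)))
  field_simp

/-- `F0 c p` is smooth at `0`, `F0 c p ∘ F0 c p = F0 (2c) p`, and `F0 (2c) p` is conjugate to
`F0 c p` by the homothety of ratio `2^(1/p)`. -/
theorem F0_distorted {c : ℝ} {p : ℕ} (hp : 1 ≤ p) : ContDiffAt ℝ 2 (F0 c p) 0 ∧
    F0 c p 0 = 0 ∧ deriv (F0 c p) 0 = 1 ∧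
    ∀ g : GermGroup 2, Represents g (F0 c p) → IsDistortionElement g := by
  have hp0 : (0 : ℝ) < p := by exact_mod_cast hp
  have hs := pp8_smooth (c := c) hp
  have hc : ContDiffAt ℝ 2 (F0 c p) 0 := contDiffAt_id.mul hs
  have hd : HasDerivAt (F0 c p) 1 0 := by
    have h1 : HasDerivAt (fun x : ℝ => x) 1 (0 : ℝ) := hasDerivAt_id 0
    have h2 := (hs.differentiableAt (by norm_num)).hasDerivAt
    have h3 := h1.mul h2
    have h4 : (1 : ℝ) * (1 - p * c * (0 : ℝ) ^ p) ^ (-(1 / (p : ℝ))) +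
        0 * deriv (fun x : ℝ => (1 - p * c * x ^ p) ^ (-(1 / (p : ℝ)))) 0 = 1 := by
      rw [zero_pow (by omega)]
      simp
    rw [h4] at h3
    exact h3
  refine ⟨hc, by simp [F0], hd.deriv, ?_⟩
  intro g hg
  set l : ℝ := (2 : ℝ) ^ (1 / (p : ℝ)) with hl
  have hl0 : 0 < l := Real.rpow_pos_of_pos (by norm_num) _
  have hlp : l ^ p = 2 := by
    rw [hl, ← Real.rpow_natCast, ← Real.rpow_mul (by norm_num)]
    have : 1 / (p : ℝ) * (p : ℝ) = 1 := by field_simp
    rw [this, Real.rpow_one]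
  obtain ⟨h, hh⟩ := exists_germ (f := fun x : ℝ => l⁻¹ * x) (by fun_prop) (by simp) (by
    have : HasDerivAt (fun x : ℝ => l⁻¹ * x) (l⁻¹ * 1) 0 := (hasDerivAt_id 0).const_mul _
    rw [this.deriv, mul_one]
    exact (inv_pos.2 hl0).ne')
  refine distorted_of_BS g h ?_
  have key : h * g = g ^ 2 * h := by
    rw [pow_two]
    refine represents_unique' (represents_mul hh hg) (represents_mul (represents_mul hg hg) hh) ?_
    have ht : Tendsto (fun x : ℝ => l⁻¹ * x) (𝓝 0) (𝓝 0) := by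
      have : ContinuousAt (fun x : ℝ => l⁻¹ * x) 0 := by fun_prop
      have h2 := this.tendsto
      simpa using h2
    filter_upwards [ht.eventually (pp8_base (c := c) hp), ht.eventually (pp8_base (c := 2 * c) hp)]
      with x h1 h2
    show l⁻¹ * F0 c p x = F0 c p (F0 c p (l⁻¹ * x))
    rw [pp8_comp hp h1 h2]
    unfold F0
    have h3 : (l⁻¹ * x) ^ p = 2⁻¹ * x ^ p := by
      rw [mul_pow, inv_pow, hlp]
    rw [h3]
    have h4 : (p : ℝ) * (2 * c) * (2⁻¹ * x ^ p) = p * c * x ^ p := by ring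
    rw [h4]
    ring
  rw [key, mul_inv_cancel_right]

end GD31
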