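import Pool.Agent.LibGD31.Main
import Pool.Agent.LibGD31.PP3
import Pool.Agent.LibGD31.PP7
import Pool.Agent.LibGD31.PP8
import Pool.Agent.LibGermDist46.Main

/-! # PP9: smooth germs in `G²` -/

open Filter Topology Set Asymptotics

namespace GD31

open GermDist46

private theorem pp9_mono {f : ℝ → ℝ} (hf : Cinf f) (n : ℕ) : ContDiffAt ℝ n f 0 :=
  hf.of_le (by exact_mod_cast le_top)

/-- the derivative of a germ `C^∞` at `0` is `C^∞` at `0` -/
private theorem pp9_deriv {f : ℝ → ℝ} (hf : Cinf f) : Cinf (deriv f) := by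
  have h1 : ContDiffAt ℝ ((⊤ : ℕ∞) : WithTop ℕ∞) (fderiv ℝ f) 0 :=
    hf.fderiv_right (by simp)
  have h2 : deriv f = fun x => fderiv ℝ f x 1 := by
    funext x; exact (fderiv_apply_one_eq_deriv).symm
  rw [h2]
  exact h1.clm_apply contDiffAt_const

/-- the second derivative from the order-2 expansion -/
private theorem pp9_second {f : ℝ → ℝ} (hf : Cinf f) {c : ℝ}
    (h : (fun x => f x - (x + c * x ^ (1 + 1))) =O[𝓝 0] fun x => x ^ (1 + 2)) :
    iteratedDeriv 2 f 0 = 2 * c := by
  have hp : Cinf (fun x : ℝ => x + c * x ^ (1 + 1)) :=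
    contDiffAt_id.add (contDiffAt_const.mul (contDiffAt_id.pow _))
  have hr : Cinf (fun x => f x - (x + c * x ^ (1 + 1))) := hf.sub hp
  have h1 := deriv_O hr (m := 2) h
  have h2 := deriv_O (pp9_deriv hr) (m := 1) h1
  have h3 : deriv (deriv fun x => f x - (x + c * x ^ (1 + 1))) 0 = 0 := by
    have h4 : Tendsto (deriv (deriv fun x => f x - (x + c * x ^ (1 + 1)))) (𝓝 0) (𝓝 0) := by
      refine h2.trans_tendsto ?_
      have h5 : Tendsto (fun x : ℝ => x ^ 1) (𝓝 0) (𝓝 (0 ^ 1)) := tendsto_id.pow 1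
      simpa using h5
    have h6 := (pp9_deriv (pp9_deriv hr)).continuousAt.tendsto
    exact tendsto_nhds_unique h6 h4
  have hev : ∀ᶠ x in 𝓝 (0 : ℝ), DifferentiableAt ℝ f x := by
    have h5 : ∀ᶠ x in 𝓝 (0 : ℝ), ContDiffAt ℝ (1 : ℕ) f x :=
      (pp9_mono hf 1).eventually (by simp)
    filter_upwards [h5] with x hx
    exact hx.differentiableAt (by simp)
  have h7 : deriv (fun x => f x - (x + c * x ^ (1 + 1))) =ᶠ[𝓝 0]
      fun x => deriv f x - (1 + c * (2 * x)) := by
    filter_upwards [hev] with x hx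
    have h8 : HasDerivAt (fun x : ℝ => x + c * x ^ (1 + 1)) (1 + c * (2 * x)) x := by
      have h9 := (hasDerivAt_id x).add (((hasDerivAt_pow 2 x)).const_mul c)
      have e : 1 + c * (2 * x) = 1 + c * (((2 : ℕ) : ℝ) * x ^ (2 - 1)) := by
        norm_num
      rw [e]
      exact h9
    exact (hx.hasDerivAt.sub h8).deriv
  have h10 : deriv (fun x => deriv f x - (1 + c * (2 * x))) 0 = deriv (deriv f) 0 - c * 2 := by
    have h8 : HasDerivAt (fun x : ℝ => 1 + c * (2 * x)) (c * 2) 0 := by
      have h9 := (((hasDerivAt_id (0:ℝ)).const_mul 2).const_mul c).const_add 1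
      have e : c * 2 = c * (2 * 1) := by ring
      rw [e]
      exact h9
    have h11 : HasDerivAt (deriv f) (deriv (deriv f) 0) 0 :=
      ((pp9_deriv hf).differentiableAt (by simp)).hasDerivAt
    exact (h11.sub h8).deriv
  rw [h7.deriv_eq, h10] at h3
  rw [iteratedDeriv_succ, iteratedDeriv_one]
  linarith

private theorem pp9_rep {f : ℝ → ℝ} {g : GermGroup 2} (hg : Represents g f) :
    f 0 = 0 ∧ ContDiffAt ℝ 2 f 0 := by
  obtain ⟨F, rfl, -⟩ := hg
  exact ⟨F.map_zero', F.contDiffAt'⟩

/-- Smooth germs tangent to the identity and not infinitely tangent to it are distortion elements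
of `G²`: `p = 1` is Theorem A (`distorted_of_parabolic`), `p ≥ 2` by `normal_form` (`N = 3p+2`),
`two_sided` and `F0_distorted`. -/
theorem distorted_of_nonflat {f : ℝ → ℝ} (hf : Cinf f) (h0 : f 0 = 0) (h1 : deriv f 0 = 1)
    (h2 : ∃ k, 2 ≤ k ∧ iteratedDeriv k f 0 ≠ 0) {g : GermGroup 2} (hg : Represents g f) :
    IsDistortionElement g := by
  obtain ⟨p, c, hp, hc, hexp⟩ := exists_order hf h0 h1 h2
  rcases Nat.lt_or_ge 1 p with hp2 | hp2
  · -- p ≥ 2
    obtain ⟨φ, f', a, hφ, hφ0, hφ1, hf', hconj, hO⟩ := normal_form hf hp hc hexp (3 * p + 2)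
    obtain ⟨φ₂, hφ₂, hφ₂0, hφ₂1, hconj₂⟩ := two_sided hf' hp2 hc hO
    obtain ⟨hFc, hF0, hF1, hFd⟩ := F0_distorted (c := c) hp
    obtain ⟨h, hh⟩ := exists_germ hFc hF0 (by rw [hF1]; exact one_ne_zero)
    obtain ⟨k₁, hk₁⟩ := exists_germ (by exact_mod_cast pp9_mono hφ 2) hφ0
      (by rw [hφ1]; exact one_ne_zero)
    obtain ⟨k₂, hk₂⟩ := exists_germ hφ₂ hφ₂0 (by rw [hφ₂1]; exact one_ne_zero)
    have hφt : Tendsto φ (𝓝 0) (𝓝 0) := by
      have := hφ.continuousAt.tendsto
      rwa [hφ0] at this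
    have key : k₂ * k₁ * g = h * (k₂ * k₁) := by
      refine represents_unique' (represents_mul (represents_mul hk₂ hk₁) hg)
        (represents_mul hh (represents_mul hk₂ hk₁)) ?_
      filter_upwards [hconj, hφt.eventually hconj₂] with x hx1 hx2
      show φ₂ (φ (f x)) = F0 c p (φ₂ (φ x))
      rw [hx1, hx2]
    have hg' : g = (k₂ * k₁)⁻¹ * h * (k₂ * k₁) := by
      rw [mul_assoc, ← key]; group
    rw [hg']
    have h3 := GC45.distortion_conj (k₂ * k₁)⁻¹ h (hFd h hh)
    simpa using h3
  · have hp1 : p = 1 := by omega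
    subst hp1
    refine distorted_of_parabolic (by exact_mod_cast pp9_mono hf 4) h0 h1 ?_ hg
    rw [pp9_second hf hexp]
    exact mul_ne_zero two_ne_zero hc

/-- the derivative at `0` as a homomorphism (see `LibGC45/F1.lean` `exists_derivHom` for `r = 1` and
`derG` in `LibGermDist46/Main.lean`) -/
theorem not_distorted_of_deriv {f : ℝ → ℝ} {g : GermGroup 2} (hg : Represents g f)
    (h : |deriv f 0| ≠ 1) : ¬ IsDistortionElement g := by
  let φ : GermGroup 2 →* Multiplicative ℝ :=
    { toFun := fun g => Multiplicative.ofAdd (Real.log (derG (m := 0) (g : GermMonoid 2)))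
      map_one' := by
        show Multiplicative.ofAdd (Real.log (derG (m := 0) (1 : GermMonoid 2))) = 1
        rw [derG_one, Real.log_one, ofAdd_zero]
      map_mul' := fun x y => by
        rw [Units.val_mul, derG_mul, Real.log_mul (derG_unit_ne_zero (m := 0) x)
          (derG_unit_ne_zero (m := 0) y), ofAdd_add] }
  refine GC45.not_distortion_of_hom φ g ?_
  intro h1
  have h2 : Real.log (derG (m := 0) (g : GermMonoid 2)) = 0 := h1
  have h3 : derG (m := 0) (g : GermMonoid 2) ≠ 0 := derG_unit_ne_zero (m := 0) g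
  obtain ⟨F, rfl, hF⟩ := hg
  have h4 : derG (m := 0) (g : GermMonoid 2) = deriv F.toFun 0 := by rw [← hF]; rfl
  rw [h4] at h2 h3
  rcases Real.log_eq_zero.1 h2 with h5 | h5 | h5
  · exact h3 h5
  · exact h (by rw [h5, abs_one])
  · exact h (by rw [h5, abs_neg, abs_one])

private theorem pp9_one : IsDistortionElement (1 : GermGroup 2) := by
  rw [GC45.f2_iff]
  refine ⟨∅, one_mem _, ?_⟩
  simp [GC45.f2_wl_one]

private theorem pp9_analytic_one {f : ℝ → ℝ} (hf : AnalyticAt ℝ f 0) (h1 : deriv f 0 = 1)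
    {g : GermGroup 2} (hg : Represents g f) : IsDistortionElement g := by
  obtain ⟨h0, -⟩ := pp9_rep hg
  by_cases h : ∃ k, 2 ≤ k ∧ iteratedDeriv k f 0 ≠ 0
  · exact distorted_of_nonflat hf.contDiffAt h0 h1 h hg
  · push Not at h
    have hid : AnalyticAt ℝ (fun x : ℝ => x) 0 := analyticAt_id
    have hcoef : ∀ n : ℕ, iteratedDeriv n f 0 = iteratedDeriv n (fun x : ℝ => x) 0 := by
      intro n
      match n with
      | 0 => simp [h0]
      | 1 => simp [h1]
      | (k + 2) =>
        rw [h (k + 2) (by omega), iteratedDeriv_succ']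
        have : deriv (fun x : ℝ => x) = fun _ => (1 : ℝ) := by
          funext x; simp
        rw [this, iteratedDeriv_const]
        simp
    have h3 := hf.hasFPowerSeriesAt.sub hid.hasFPowerSeriesAt
    have h5 : (FormalMultilinearSeries.ofScalars ℝ
        (fun n ↦ iteratedDeriv n f 0 / n.factorial)) -
        (FormalMultilinearSeries.ofScalars ℝ
          (fun n ↦ iteratedDeriv n (fun x : ℝ => x) 0 / n.factorial)) = 0 := by
      rw [sub_eq_zero]
      congr 1
      funext n
      rw [hcoef n]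
    rw [h5] at h3
    have h6 := h3.eventually_eq_zero
    have h7 : g = 1 := by
      have h8 : Represents (1 : GermGroup 2) (fun x => x) := ⟨1, rfl, rfl⟩
      refine represents_unique' hg h8 ?_
      filter_upwards [h6] with x hx
      have hx' : f x - x = 0 := hx
      linarith
    rw [h7]
    exact pp9_one

/-- **Theorem B.** A real-analytic germ is a distortion element of `G²` iff `|f'(0)| = 1`.
(`f'(0) = 1`: identity near `0` or not infinitely tangent to it; `f'(0) = -1`: apply this to `f ∘ f`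
and use `GC45.distortion_of_sq`.) -/
theorem analytic_iff {f : ℝ → ℝ} (hf : AnalyticAt ℝ f 0) {g : GermGroup 2}
    (hg : Represents g f) : IsDistortionElement g ↔ |deriv f 0| = 1 := by
  constructor
  · intro h
    by_contra h1
    exact not_distorted_of_deriv hg h1 h
  · intro h
    rcases eq_or_eq_neg_of_abs_eq h with h1 | h1
    · exact pp9_analytic_one hf h1 hg
    · apply GC45.distortion_of_sq
      obtain ⟨h0, -⟩ := pp9_rep hg
      have hrep : Represents (g ^ 2) (f ∘ f) := by rw [sq]; exact represents_mul hg hg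
      have hf' : AnalyticAt ℝ f (f 0) := by rw [h0]; exact hf
      refine pp9_analytic_one (hf'.comp hf) ?_ hrep
      have hd := hf.differentiableAt
      rw [deriv_comp 0 (by rw [h0]; exact hd) hd, h0, h1]
      norm_num

end GD31
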