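import Pool.Agent.LibGD31.GX1

/-! # AB1: iteration estimates for `f = z + 1 + w + ρ` near `+∞` -/

open Filter Topology Set

namespace GD31

/-- bounds for `w` on `[1, ∞)` (order `-7/8`, three derivatives) -/
structure Wb (w : ℝ → ℝ) : Prop where
  contDiff : ∀ z, 1 ≤ z → ContDiffAt ℝ 3 w z
  bd : ∃ C : ℝ, 0 ≤ C ∧ ∀ z, 1 ≤ z → |w z| ≤ C * z ^ (-(7 / 8 : ℝ)) ∧
    |deriv w z| ≤ C * z ^ (-(15 / 8 : ℝ)) ∧ |deriv (deriv w) z| ≤ C * z ^ (-(23 / 8 : ℝ)) ∧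
    |iteratedDeriv 3 w z| ≤ C * z ^ (-(31 / 8 : ℝ))

theorem ab1_cd {f : ℝ → ℝ} {z : ℝ} (h : ContDiffAt ℝ 2 f z) : DifferentiableAt ℝ (deriv f) z := by
  have h1 : ContDiffAt ℝ 1 (fderiv ℝ f) z := h.fderiv_right (by norm_num)
  have h2 : ContDiffAt ℝ 1 (fun y => fderiv ℝ f y 1) z := h1.clm_apply contDiffAt_const
  exact h2.differentiableAt (by norm_num)

theorem ab1_comp {f g : ℝ → ℝ} {z : ℝ} (hg : ContDiffAt ℝ 2 g z)
    (hf : ContDiffAt ℝ 2 f (g z)) :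
    ContDiffAt ℝ 2 (f ∘ g) z ∧ deriv (f ∘ g) z = deriv f (g z) * deriv g z ∧
    deriv (deriv (f ∘ g)) z =
      deriv (deriv f) (g z) * deriv g z ^ 2 + deriv f (g z) * deriv (deriv g) z := by
  have hg1 := hg.eventually (by simp)
  have hf1 := (hg.continuousAt.eventually (hf.eventually (by simp)))
  have key : ∀ᶠ y in 𝓝 z, deriv (f ∘ g) y = deriv f (g y) * deriv g y := by
    filter_upwards [hg1, hf1] with y hy hy'
    exact deriv_comp y (hy'.differentiableAt (by norm_num)) (hy.differentiableAt (by norm_num))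
  refine ⟨hf.comp z hg, key.self_of_nhds, ?_⟩
  rw [Filter.EventuallyEq.deriv_eq key]
  have h1 : HasDerivAt (fun y => deriv f (g y)) (deriv (deriv f) (g z) * deriv g z) z :=
    HasDerivAt.comp z (ab1_cd hf).hasDerivAt (hg.differentiableAt (by norm_num)).hasDerivAt
  have h2 := h1.mul (ab1_cd hg).hasDerivAt
  rw [show (fun y => deriv f (g y) * deriv g y) = (fun y => deriv f (g y)) * deriv g from rfl,
    h2.deriv]
  ring

theorem ab1_pot {a t s : ℝ} (ha : 7 / 8 ≤ a) (ht : 1 ≤ t) (h1 : t + 1 / 2 ≤ s) : 7 / 48 * t ^ (-(a + 1)) ≤ t ^ (-a) - s ^ (-a) := by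
  have ht0 : 0 < t := by linarith
  have hs0 : 0 < s := by linarith
  have hr0 : 0 < t / s := div_pos ht0 hs0
  have hr1 : t / s ≤ 1 := by
    rw [div_le_one hs0]
    linarith
  have hp : 0 < t ^ (-a) := Real.rpow_pos_of_pos ht0 _
  have e1 : s ^ (-a) = t ^ (-a) * (t / s) ^ a := by
    rw [Real.div_rpow ht0.le hs0.le, Real.rpow_neg ht0.le, Real.rpow_neg hs0.le]
    have h3 : t ^ a ≠ 0 := (Real.rpow_pos_of_pos ht0 _).ne'
    have h4 : s ^ a ≠ 0 := (Real.rpow_pos_of_pos hs0 _).ne'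
    field_simp
  have e2 : (t / s) ^ a ≤ 1 - 7 / 8 * (1 - t / s) := by
    calc (t / s) ^ a ≤ (t / s) ^ (7 / 8 : ℝ) := Real.rpow_le_rpow_of_exponent_ge hr0 hr1 ha
      _ ≤ 1 + 7 / 8 * (t / s - 1) := by
        have h5 := rpow_one_add_le_one_add_mul_self (s := t / s - 1) (by linarith)
          (p := 7 / 8) (by norm_num) (by norm_num)
        rwa [add_sub_cancel] at h5
      _ = _ := by ring
  have e3 : 1 / 6 * t⁻¹ ≤ 1 - t / s := by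
    have h6 : 1 - t / s = (s - t) / s := by field_simp
    have h7 : 1 / 6 * t⁻¹ = (1 / 2) / (3 * t) := by
      field_simp
      norm_num
    rw [h6, h7, div_le_div_iff₀ (by positivity) hs0]
    nlinarith
  have e4 : t ^ (-(a + 1)) = t ^ (-a) * t⁻¹ := by
    rw [neg_add, Real.rpow_add ht0, Real.rpow_neg_one]
  rw [e1, e4]
  nlinarith [mul_le_mul_of_nonneg_left e2 hp.le, mul_le_mul_of_nonneg_left e3 hp.le]

/-- the bounds for `f` -/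
theorem ab1_f {w f : ℝ → ℝ} (hw : Wb w) (hf : AbH w f) : ∃ C R : ℝ, 0 ≤ C ∧ 1 ≤ R ∧
    14 * C * R ^ (-(7 / 8 : ℝ)) ≤ 1 / 2 ∧ ∀ z, R ≤ z → ContDiffAt ℝ 2 f z ∧
      |f z - z - 1| ≤ C * z ^ (-(7 / 8 : ℝ)) ∧ |deriv f z - 1| ≤ C * z ^ (-(15 / 8 : ℝ)) ∧
      |deriv (deriv f) z| ≤ C * z ^ (-(23 / 8 : ℝ)) := by
  obtain ⟨C₁, hC₁, h1⟩ := hw.bd
  obtain ⟨C₂, R₂, hC₂, hR₂, h2⟩ := hf.ex
  have hlim : Tendsto (fun x : ℝ => 14 * (C₁ + C₂) * x ^ (-(7 / 8 : ℝ))) atTop (𝓝 0) := by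
    have h3 := (tendsto_rpow_neg_atTop (show (0 : ℝ) < 7 / 8 by norm_num)).const_mul
      (14 * (C₁ + C₂))
    rwa [mul_zero] at h3
  have hev := (hlim.eventually (gt_mem_nhds (show (0 : ℝ) < 1 / 2 by norm_num))).and
    (eventually_ge_atTop R₂)
  obtain ⟨R, hR1, hR2⟩ := hev.exists
  refine ⟨C₁ + C₂, R, by positivity, hR₂.trans hR2, hR1.le, fun z hz => ?_⟩
  have hz1 : 1 ≤ z := (hR₂.trans hR2).trans hz
  obtain ⟨a0, a1, a2, a3⟩ := h2 z (hR2.trans hz)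
  obtain ⟨b1, b2, b3, -⟩ := h1 z hz1
  have e1 : z ^ (-(3 / 2 : ℝ)) ≤ z ^ (-(7 / 8 : ℝ)) :=
    Real.rpow_le_rpow_of_exponent_le hz1 (by norm_num)
  have e2 : z ^ (-(5 / 2 : ℝ)) ≤ z ^ (-(15 / 8 : ℝ)) :=
    Real.rpow_le_rpow_of_exponent_le hz1 (by norm_num)
  have e3 : z ^ (-(7 / 2 : ℝ)) ≤ z ^ (-(23 / 8 : ℝ)) :=
    Real.rpow_le_rpow_of_exponent_le hz1 (by norm_num)
  refine ⟨a0, ?_, ?_, ?_⟩
  · have h3 : f z - z - 1 = (f z - z - 1 - w z) + w z := by ring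
    rw [h3]
    refine (abs_add_le _ _).trans ?_
    have := mul_le_mul_of_nonneg_left e1 hC₂
    linarith
  · have h3 : deriv f z - 1 = (deriv f z - 1 - deriv w z) + deriv w z := by ring
    rw [h3]
    refine (abs_add_le _ _).trans ?_
    have := mul_le_mul_of_nonneg_left e2 hC₂
    linarith
  · have h3 : deriv (deriv f) z = (deriv (deriv f) z - deriv (deriv w) z) + deriv (deriv w) z := by
      ring
    rw [h3]
    refine (abs_add_le _ _).trans ?_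
    have := mul_le_mul_of_nonneg_left e3 hC₂
    linarith

theorem ab1_r1 {C D f1 z7 Z7 F7 Z15 : ℝ} (hC : 0 ≤ C) (hZ15 : 0 ≤ Z15)
    (h1 : |f1 - 1| ≤ C * Z15) (hD0 : 0 ≤ D) (hD : D ≤ 3 / 2)
    (h2 : |D - 1| ≤ 14 * C * (z7 - Z7)) (h3 : 7 / 48 * Z15 ≤ Z7 - F7) :
    |f1 * D - 1| ≤ 14 * C * (z7 - F7) := by
  have e1 : f1 * D - 1 = (f1 - 1) * D + (D - 1) := by ring
  rw [e1]
  refine (abs_add_le _ _).trans ?_
  rw [abs_mul, abs_of_nonneg hD0]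
  have e2 : |f1 - 1| * D ≤ C * Z15 * (3 / 2) := mul_le_mul h1 hD hD0 (by positivity)
  have e3 := mul_le_mul_of_nonneg_left h3 (show 0 ≤ 14 * C by positivity)
  have e4 : 0 ≤ C * Z15 := by positivity
  linarith

theorem ab1_r2 {C D f1 f2 E z15 Z15 F15 Z23 : ℝ} (hC : 0 ≤ C) (hZ23 : 0 ≤ Z23)
    (h1 : |f2| ≤ C * Z23) (hf1 : 1 / 2 ≤ f1) (hD0 : 0 ≤ D) (hD : D ≤ 3 / 2)
    (h2 : |E| ≤ 21 * C * (z15 - Z15) * D) (h3 : 7 / 48 * Z23 ≤ Z15 - F15) :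
    |f2 * D ^ 2 + f1 * E| ≤ 21 * C * (z15 - F15) * (f1 * D) := by
  refine (abs_add_le _ _).trans ?_
  have hfp : 0 ≤ f1 := by linarith
  rw [abs_mul, abs_mul, abs_of_nonneg (by positivity : (0 : ℝ) ≤ D ^ 2), abs_of_nonneg hfp]
  have e1 : |f2| * D ^ 2 ≤ (C * Z23) * (3 / 2) * D := by
    rw [sq, ← mul_assoc]
    exact mul_le_mul_of_nonneg_right (mul_le_mul h1 hD hD0 (by positivity)) hD0
  have e2 : f1 * |E| ≤ f1 * (21 * C * (z15 - Z15) * D) := mul_le_mul_of_nonneg_left h2 hfp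
  have e3 := mul_le_mul_of_nonneg_left h3 (show 0 ≤ 21 * C by positivity)
  have e4 : 0 ≤ C * Z23 := by positivity
  have e6 : 3 * (C * Z23) ≤ 21 * C * (Z15 - F15) := by linarith
  have e7 : 3 * (C * Z23) * (1 / 2) ≤ 21 * C * (Z15 - F15) * f1 :=
    mul_le_mul e6 hf1 (by norm_num) (by linarith)
  have e8 := mul_le_mul_of_nonneg_right e7 hD0
  linarith

/-- For large `R`: `f` maps `[R, ∞)` into itself, `z + n/2 ≤ fⁿ z ≤ z + 2 n`, `fⁿ` is `C²` there,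
`|(fⁿ)'| ≤ 2`, `(fⁿ)' ≥ 1/2`, `|(fⁿ)''| ≤ C z^(-15/8)`.
(`(fⁿ)' = ∏ f'(f^i z)`, `|f' - 1| ≤ C z^(-15/8)`, `∑ (z + i/2)^(-15/8)` bounded;
`(fⁿ)''/(fⁿ)' = ∑ (f''/f')(f^i z) (f^i)' z`, `|f''| ≤ C z^(-23/8)`.) -/
theorem iterate_bounds {w f : ℝ → ℝ} (hw : Wb w) (hf : AbH w f) : ∃ C R : ℝ, 0 ≤ C ∧ 1 ≤ R ∧
    ∀ (n : ℕ) (z : ℝ), R ≤ z → z + n / 2 ≤ f^[n] z ∧ f^[n] z ≤ z + 2 * n ∧
      ContDiffAt ℝ 2 f^[n] z ∧ 1 / 2 ≤ deriv f^[n] z ∧ deriv f^[n] z ≤ 2 ∧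
      |deriv (deriv f^[n]) z| ≤ C * z ^ (-(15 / 8 : ℝ)) := by
  obtain ⟨C, R, hC, hR, hCR, hb⟩ := ab1_f hw hf
  refine ⟨42 * C, R, by positivity, hR, fun n z hz => ?_⟩
  have hz1 : 1 ≤ z := hR.trans hz
  have hsm : ∀ y : ℝ, R ≤ y → 14 * C * y ^ (-(7 / 8 : ℝ)) ≤ 1 / 2 := fun y hy =>
    (mul_le_mul_of_nonneg_left (Real.rpow_le_rpow_of_nonpos (by linarith) hy (by norm_num))
      (by positivity)).trans hCR
  have key : ∀ n : ℕ, z + n / 2 ≤ f^[n] z ∧ f^[n] z ≤ z + 2 * n ∧ ContDiffAt ℝ 2 f^[n] z ∧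
      |deriv f^[n] z - 1| ≤ 14 * C * (z ^ (-(7 / 8 : ℝ)) - (f^[n] z) ^ (-(7 / 8 : ℝ))) ∧
      |deriv (deriv f^[n]) z| ≤ 21 * C * (z ^ (-(15 / 8 : ℝ)) - (f^[n] z) ^ (-(15 / 8 : ℝ))) *
        deriv f^[n] z := by
    intro n
    induction n with
    | zero =>
      have h0 : deriv (f^[0]) = fun _ => (1 : ℝ) := by
        funext y
        rw [Function.iterate_zero]
        exact deriv_id y
      refine ⟨by simp, by simp, by rw [Function.iterate_zero]; exact contDiffAt_id, ?_, ?_⟩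
      · rw [h0]
        simp
      · rw [h0]
        simp
    | succ n ih =>
      obtain ⟨i1, i2, i3, i4, i5⟩ := ih
      have hn0 : (0 : ℝ) ≤ n := Nat.cast_nonneg n
      have hZ : R ≤ f^[n] z := by linarith
      have hZ1 : 1 ≤ f^[n] z := hR.trans hZ
      obtain ⟨b0, b1, b2, b3⟩ := hb (f^[n] z) hZ
      set Z := f^[n] z with hZd
      have hp7 : 0 < Z ^ (-(7 / 8 : ℝ)) := Real.rpow_pos_of_pos (by linarith) _
      have hp15 : 0 < Z ^ (-(15 / 8 : ℝ)) := Real.rpow_pos_of_pos (by linarith) _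
      have hp23 : 0 < Z ^ (-(23 / 8 : ℝ)) := Real.rpow_pos_of_pos (by linarith) _
      have hs7 := hsm Z hZ
      have hle : Z ^ (-(15 / 8 : ℝ)) ≤ Z ^ (-(7 / 8 : ℝ)) :=
        Real.rpow_le_rpow_of_exponent_le hZ1 (by norm_num)
      have hb1 := abs_le.mp b1
      have hb2 := abs_le.mp b2
      have hs1 : C * Z ^ (-(7 / 8 : ℝ)) ≤ 1 / 2 := by
        have : 0 ≤ C * Z ^ (-(7 / 8 : ℝ)) := mul_nonneg hC hp7.le
        linarith
      have hs2 : C * Z ^ (-(15 / 8 : ℝ)) ≤ 1 / 2 :=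
        (mul_le_mul_of_nonneg_left hle hC).trans hs1
      have hstep1 : Z + 1 / 2 ≤ f Z := by linarith
      have hstep2 : f Z ≤ Z + 2 := by linarith
      have hf1 : 1 / 2 ≤ deriv f Z := by linarith
      have pot7 := ab1_pot (a := 7 / 8) le_rfl hZ1 hstep1
      have pot15 := ab1_pot (a := 15 / 8) (by norm_num) hZ1 hstep1
      have c1 : -((7 : ℝ) / 8 + 1) = -(15 / 8) := by norm_num
      have c2 : -((15 : ℝ) / 8 + 1) = -(23 / 8) := by norm_num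
      rw [c1] at pot7
      rw [c2] at pot15
      have hsz := hsm z hz
      have hD := abs_le.mp i4
      have hD1 : deriv f^[n] z ≤ 3 / 2 := by
        have : 14 * C * (z ^ (-(7 / 8 : ℝ)) - Z ^ (-(7 / 8 : ℝ))) ≤ 1 / 2 := by
          have h5 : 0 ≤ 14 * C * Z ^ (-(7 / 8 : ℝ)) := by positivity
          linarith
        linarith
      have hD2 : 1 / 2 ≤ deriv f^[n] z := by
        have : 14 * C * (z ^ (-(7 / 8 : ℝ)) - Z ^ (-(7 / 8 : ℝ))) ≤ 1 / 2 := by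
          have h5 : 0 ≤ 14 * C * Z ^ (-(7 / 8 : ℝ)) := by positivity
          linarith
        linarith
      have hcomp := ab1_comp (f := f) (g := f^[n]) i3 b0
      rw [← Function.iterate_succ' f n] at hcomp
      obtain ⟨k1, k2, k3⟩ := hcomp
      rw [← hZd] at k2 k3
      have hfs : f^[n + 1] z = f Z := by rw [Function.iterate_succ_apply']
      rw [hfs]
      refine ⟨by push_cast; linarith, by push_cast; linarith, k1, ?_, ?_⟩
      · rw [k2]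
        exact ab1_r1 hC hp15.le b2 (by linarith) hD1 i4 pot7
      · rw [k2, k3]
        exact ab1_r2 hC hp23.le b3 hf1 (by linarith) hD1 i5 pot15
  obtain ⟨i1, i2, i3, i4, i5⟩ := key n
  have hn0 : (0 : ℝ) ≤ n := Nat.cast_nonneg n
  have hZ : R ≤ f^[n] z := by linarith
  have hp7 : 0 < (f^[n] z) ^ (-(7 / 8 : ℝ)) := Real.rpow_pos_of_pos (by linarith) _
  have hp15 : 0 < (f^[n] z) ^ (-(15 / 8 : ℝ)) := Real.rpow_pos_of_pos (by linarith) _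
  have hq15 : 0 < z ^ (-(15 / 8 : ℝ)) := Real.rpow_pos_of_pos (by linarith) _
  have hsz := hsm z hz
  have hD := abs_le.mp i4
  have h5 : 0 ≤ 14 * C * (f^[n] z) ^ (-(7 / 8 : ℝ)) := by positivity
  have hD1 : deriv f^[n] z ≤ 2 := by linarith
  have hD2 : 1 / 2 ≤ deriv f^[n] z := by linarith
  refine ⟨i1, i2, i3, hD2, hD1, i5.trans ?_⟩
  have h6 : 21 * C * (z ^ (-(15 / 8 : ℝ)) - (f^[n] z) ^ (-(15 / 8 : ℝ))) ≤
      21 * C * z ^ (-(15 / 8 : ℝ)) :=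
    mul_le_mul_of_nonneg_left (by linarith) (by positivity)
  calc 21 * C * (z ^ (-(15 / 8 : ℝ)) - (f^[n] z) ^ (-(15 / 8 : ℝ))) * deriv f^[n] z
      ≤ 21 * C * z ^ (-(15 / 8 : ℝ)) * deriv f^[n] z :=
        mul_le_mul_of_nonneg_right h6 (by linarith)
    _ ≤ 21 * C * z ^ (-(15 / 8 : ℝ)) * 2 :=
        mul_le_mul_of_nonneg_left hD1 (by positivity)
    _ = 42 * C * z ^ (-(15 / 8 : ℝ)) := by ring

end GD31
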