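import Pool.Agent.LibGD31.AB1

/-! # AB2: the Abel function -/

open Filter Topology Set

namespace GD31

/-! ### Powers of `z` -/

private noncomputable def ab2_u (z : ℝ) : ℝ := z ^ (-(1 / 8 : ℝ))

private theorem ab2_u_pos {z : ℝ} (hz : 1 ≤ z) : 0 < ab2_u z :=
  Real.rpow_pos_of_pos (by linarith) _

private theorem ab2_u_le_one {z : ℝ} (hz : 1 ≤ z) : ab2_u z ≤ 1 :=
  Real.rpow_le_one_of_one_le_of_nonpos hz (by norm_num)

private theorem ab2_u_anti {z y : ℝ} (hz : 1 ≤ z) (h : z ≤ y) : ab2_u y ≤ ab2_u z :=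
  Real.rpow_le_rpow_of_nonpos (by linarith) h (by norm_num)

private theorem ab2_u_pow {z : ℝ} (hz : 1 ≤ z) (a : ℝ) (k : ℕ) (h : a = k / 8) :
    z ^ (-a) = ab2_u z ^ k := by
  unfold ab2_u
  rw [← Real.rpow_natCast, ← Real.rpow_mul (by linarith), h]
  congr 1
  ring

private theorem ab2_u8 {z : ℝ} (hz : 1 ≤ z) : z * ab2_u z ^ 8 = 1 := by
  rw [← ab2_u_pow hz 1 8 (by norm_num), Real.rpow_neg_one]
  exact mul_inv_cancel₀ (by linarith)

private theorem ab2_u_tendsto : Tendsto ab2_u atTop (𝓝 0) :=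
  tendsto_rpow_neg_atTop (by norm_num)

private theorem ab2_u_mono {z : ℝ} (hz : 1 ≤ z) {k l : ℕ} (h : k ≤ l) : ab2_u z ^ l ≤ ab2_u z ^ k :=
  pow_le_pow_of_le_one (ab2_u_pos hz).le (ab2_u_le_one hz) h

/-- the summable sequence -/
private noncomputable def ab2_s (n : ℕ) : ℝ := ab2_u (1 + n / 2) ^ 10

private theorem ab2_s_one (n : ℕ) : (1 : ℝ) ≤ 1 + n / 2 := by
  have : (0 : ℝ) ≤ n := Nat.cast_nonneg n
  linarith

private theorem ab2_s_nonneg (n : ℕ) : 0 ≤ ab2_s n := by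
  have := ab2_u_pos (ab2_s_one n)
  unfold ab2_s
  positivity

private theorem ab2_s_summable : Summable ab2_s := by
  have h1 : Summable fun n : ℕ => 1 / |(n : ℝ) + 2| ^ (5 / 4 : ℝ) :=
    (Real.summable_one_div_nat_add_rpow 2 (5 / 4)).2 (by norm_num)
  refine (h1.mul_left ((1 / 2 : ℝ) ^ (-(5 / 4) : ℝ))).congr fun n => ?_
  unfold ab2_s
  rw [← ab2_u_pow (ab2_s_one n) (5 / 4) 10 (by norm_num)]
  have hn : (0 : ℝ) ≤ n := Nat.cast_nonneg n
  have e : (1 : ℝ) + n / 2 = 1 / 2 * (n + 2) := by ring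
  rw [e, Real.mul_rpow (by norm_num) (by linarith), abs_of_nonneg (by linarith : (0:ℝ) ≤ n + 2),
    one_div (((n : ℝ) + 2) ^ (5 / 4 : ℝ)), Real.rpow_neg (by linarith : (0:ℝ) ≤ (n : ℝ) + 2)]

private theorem ab2_s_bound {z y : ℝ} {n : ℕ} (hz : 1 ≤ z) (hy : z + n / 2 ≤ y) (k : ℕ) :
    ab2_u y ^ (10 + k) ≤ ab2_u z ^ k * ab2_s n := by
  have hn : (0 : ℝ) ≤ n := Nat.cast_nonneg n
  have hy1 : 1 ≤ y := by linarith
  have h1 : ab2_u y ≤ ab2_u z := ab2_u_anti hz (by linarith)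
  have h2 : ab2_u y ≤ ab2_u (1 + n / 2) := ab2_u_anti (ab2_s_one n) (by linarith)
  have h0 := (ab2_u_pos hy1).le
  unfold ab2_s
  rw [pow_add, mul_comm]
  exact mul_le_mul (pow_le_pow_left₀ h0 h1 k) (pow_le_pow_left₀ h0 h2 10) (by positivity)
    (by have := ab2_u_pos hz; positivity)

/-! ### Functions with two derivatives on an open set -/

private structure ab2_D (U : Set ℝ) (h h' h'' : ℝ → ℝ) : Prop where
  d1 : ∀ z ∈ U, HasDerivAt h (h' z) z
  d2 : ∀ z ∈ U, HasDerivAt h' (h'' z) z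
  c : ContinuousOn h'' U

private theorem ab2_cd_deriv {h : ℝ → ℝ} {z : ℝ} {m n : WithTop ℕ∞} (H : ContDiffAt ℝ n h z)
    (hmn : m + 1 ≤ n) : ContDiffAt ℝ m (deriv h) z := by
  have h1 : ContDiffAt ℝ m (fderiv ℝ h) z := H.fderiv_right hmn
  have h2 : ContDiffAt ℝ m (fun x => fderiv ℝ h x 1) z := h1.clm_apply contDiffAt_const
  exact h2

private theorem ab2_D_of {U : Set ℝ} {h : ℝ → ℝ} (H : ∀ z ∈ U, ContDiffAt ℝ 2 h z) :
    ab2_D U h (deriv h) (deriv (deriv h)) := by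
  have h1 : ∀ z ∈ U, ContDiffAt ℝ 1 (deriv h) z := fun z hz =>
    ab2_cd_deriv (H z hz) (by norm_num)
  have h2 : ∀ z ∈ U, ContDiffAt ℝ 0 (deriv (deriv h)) z := fun z hz =>
    ab2_cd_deriv (h1 z hz) (by norm_num)
  exact ⟨fun z hz => ((H z hz).differentiableAt (by norm_num)).hasDerivAt,
    fun z hz => ((h1 z hz).differentiableAt (by norm_num)).hasDerivAt,
    fun z hz => (h2 z hz).continuousAt.continuousWithinAt⟩

private theorem ab2_D.deriv_eq {U : Set ℝ} {h h' h'' : ℝ → ℝ} (H : ab2_D U h h' h'') {z : ℝ}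
    (hz : z ∈ U) : deriv h z = h' z := (H.d1 z hz).deriv

private theorem ab2_D.deriv_eq2 {U : Set ℝ} {h h' h'' : ℝ → ℝ} (hU : IsOpen U)
    (H : ab2_D U h h' h'') {z : ℝ} (hz : z ∈ U) : deriv (deriv h) z = h'' z := by
  have e : deriv h =ᶠ[𝓝 z] h' := by
    filter_upwards [hU.mem_nhds hz] with y hy
    exact H.deriv_eq hy
  rw [e.deriv_eq]
  exact (H.d2 z hz).deriv

private theorem ab2_D.contDiffAt {U : Set ℝ} {h h' h'' : ℝ → ℝ} (hU : IsOpen U)
    (H : ab2_D U h h' h'') {z : ℝ} (hz : z ∈ U) : ContDiffAt ℝ 2 h z := by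
  have c0 : ContDiffOn ℝ 0 (deriv h') U := by
    rw [contDiffOn_zero]
    refine H.c.congr fun y hy => ?_
    exact (H.d2 y hy).deriv
  have c1 : ContDiffOn ℝ 1 h' U := by
    have := (contDiffOn_succ_iff_deriv_of_isOpen (𝕜 := ℝ) (n := 0) (f := h') hU).2
      ⟨fun y hy => (H.d2 y hy).differentiableAt.differentiableWithinAt, by simp, c0⟩
    simpa using this
  have c1' : ContDiffOn ℝ 1 (deriv h) U := c1.congr fun y hy => H.deriv_eq hy
  have c2 : ContDiffOn ℝ (1 + 1) h U :=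
    (contDiffOn_succ_iff_deriv_of_isOpen (𝕜 := ℝ) (n := 1) (f := h) hU).2
      ⟨fun y hy => (H.d1 y hy).differentiableAt.differentiableWithinAt, by simp, c1'⟩
  have e : (1 + 1 : WithTop ℕ∞) = 2 := by norm_num
  rw [e] at c2
  exact c2.contDiffAt (hU.mem_nhds hz)

private theorem ab2_D.comp {U V : Set ℝ} {r r' r'' f f' f'' : ℝ → ℝ} (H : ab2_D V r r' r'')
    (K : ab2_D U f f' f'') (hm : MapsTo f U V) :
    ab2_D U (fun z => r (f z)) (fun z => r' (f z) * f' z)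
      (fun z => r'' (f z) * f' z ^ 2 + r' (f z) * f'' z) := by
  refine ⟨fun z hz => (H.d1 _ (hm hz)).comp z (K.d1 z hz), fun z hz => ?_, ?_⟩
  · have h1 : HasDerivAt (fun z => r' (f z)) (r'' (f z) * f' z) z :=
      (H.d2 _ (hm hz)).comp z (K.d1 z hz)
    have h2 := h1.fun_mul (K.d2 z hz)
    refine h2.congr_deriv ?_
    ring
  · have cf : ContinuousOn f U := fun z hz => (K.d1 z hz).continuousAt.continuousWithinAt
    have cf' : ContinuousOn f' U := fun z hz => (K.d2 z hz).continuousAt.continuousWithinAt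
    have cr' : ContinuousOn r' V := fun z hz => (H.d2 z hz).continuousAt.continuousWithinAt
    exact ((H.c.comp cf hm).mul (cf'.pow 2)).add ((cr'.comp cf hm).mul K.c)

private theorem ab2_taylor {h k m : ℝ → ℝ} {z y M : ℝ} (hzy : z ≤ y) (hM : 0 ≤ M)
    (h1 : ∀ t ∈ Icc z y, HasDerivAt h (k t) t) (h2 : ∀ t ∈ Icc z y, HasDerivAt k (m t) t)
    (hm : ∀ t ∈ Icc z y, |m t| ≤ M) : |h y - h z - k z * (y - z)| ≤ M * (y - z) ^ 2 := by
  have hk : ∀ t ∈ Icc z y, ‖k t - k z‖ ≤ M * (t - z) :=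
    norm_image_sub_le_of_norm_deriv_le_segment' (fun t ht => (h2 t ht).hasDerivWithinAt)
      (fun t ht => hm t ⟨ht.1, ht.2.le⟩)
  have hH : ∀ t ∈ Icc z y, HasDerivAt (fun t => h t - k z * t) (k t - k z) t := fun t ht => by
    have := (h1 t ht).fun_sub ((hasDerivAt_id' t).const_mul (k z))
    rwa [mul_one] at this
  have hb : ∀ t ∈ Ico z y, ‖k t - k z‖ ≤ M * (y - z) := fun t ht =>
    (hk t ⟨ht.1, ht.2.le⟩).trans (mul_le_mul_of_nonneg_left (by linarith [ht.2]) hM)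
  have h3 := norm_image_sub_le_of_norm_deriv_le_segment'
    (fun t ht => (hH t ht).hasDerivWithinAt) hb y ⟨hzy, le_rfl⟩
  rw [Real.norm_eq_abs] at h3
  have e : h y - h z - k z * (y - z) = (h y - k z * y) - (h z - k z * z) := by ring
  rw [e]
  refine h3.trans (le_of_eq ?_)
  ring

/-! ### The remainder -/

private theorem ab2_r {w f W : ℝ → ℝ} (hw : Wb w) (hf : AbH w f)
    (hW : ∀ z, 1 ≤ z → HasDerivAt W (w z) z) : ∃ C R : ℝ, 0 ≤ C ∧ 1 ≤ R ∧
    (∀ z, R ≤ z → ContDiffAt ℝ 2 f z) ∧ ∀ z, R ≤ z →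
      |f z - z - 1 - (W (f z) - W z)| ≤ C * ab2_u z ^ 12 ∧
      |deriv f z - 1 - (w (f z) * deriv f z - w z)| ≤ C * ab2_u z ^ 20 ∧
      |deriv (deriv f) z - (deriv w (f z) * deriv f z ^ 2 + w (f z) * deriv (deriv f) z -
        deriv w z)| ≤ C * ab2_u z ^ 28 := by
  obtain ⟨Cw, hCw0, hCw⟩ := hw.bd
  obtain ⟨Cf, Rf, hCf0, hRf, hCf⟩ := hf.ex
  obtain ⟨K, hK⟩ : ∃ K, K = Cw + Cf := ⟨_, rfl⟩
  have hK0 : 0 ≤ K := by rw [hK]; positivity
  have hsmall : ∀ᶠ z : ℝ in atTop, K * ab2_u z ^ 7 < 1 / 2 := by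
    have h1 : Tendsto (fun z => K * ab2_u z ^ 7) atTop (𝓝 (K * 0 ^ 7)) :=
      (ab2_u_tendsto.pow 7).const_mul K
    rw [zero_pow (by norm_num), mul_zero] at h1
    exact h1.eventually (eventually_lt_nhds (by norm_num))
  obtain ⟨R₁, hR₁⟩ := eventually_atTop.1 hsmall
  obtain ⟨C, hC⟩ : ∃ C, C = Cf + 4 * Cw + 2 * (Cw * K) + Cw * K * (2 + K) := ⟨_, rfl⟩
  have hC0 : 0 ≤ C := by rw [hC]; positivity
  refine ⟨C, max Rf R₁, hC0, le_max_of_le_left hRf,
    fun z hz => (hCf z ((le_max_left _ _).trans hz)).1, fun z hz => ?_⟩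
  have hzf : Rf ≤ z := (le_max_left _ _).trans hz
  have hz1 : 1 ≤ z := hRf.trans hzf
  have hs := hR₁ z ((le_max_right _ _).trans hz)
  obtain ⟨-, f0, f1, f2⟩ := hCf z hzf
  rw [ab2_u_pow hz1 (3 / 2) 12 (by norm_num)] at f0
  rw [ab2_u_pow hz1 (5 / 2) 20 (by norm_num)] at f1
  rw [ab2_u_pow hz1 (7 / 2) 28 (by norm_num)] at f2
  have W0 : ∀ t, 1 ≤ t → |w t| ≤ Cw * ab2_u t ^ 7 := fun t ht => by
    have := (hCw t ht).1
    rwa [ab2_u_pow ht (7 / 8) 7 (by norm_num)] at this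
  have W1 : ∀ t, 1 ≤ t → |deriv w t| ≤ Cw * ab2_u t ^ 15 := fun t ht => by
    have := (hCw t ht).2.1
    rwa [ab2_u_pow ht (15 / 8) 15 (by norm_num)] at this
  have W2 : ∀ t, 1 ≤ t → |deriv (deriv w) t| ≤ Cw * ab2_u t ^ 23 := fun t ht => by
    have := (hCw t ht).2.2.1
    rwa [ab2_u_pow ht (23 / 8) 23 (by norm_num)] at this
  have W3 : ∀ t, 1 ≤ t → |deriv (deriv (deriv w)) t| ≤ Cw * ab2_u t ^ 31 := fun t ht => by
    have := (hCw t ht).2.2.2
    rw [ab2_u_pow ht (31 / 8) 31 (by norm_num)] at this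
    have e : iteratedDeriv 3 w = deriv (deriv (deriv w)) := by
      rw [iteratedDeriv_succ, iteratedDeriv_succ, iteratedDeriv_one]
    rwa [e] at this
  have c1 : ∀ t, 1 ≤ t → ContDiffAt ℝ 2 (deriv w) t := fun t ht =>
    ab2_cd_deriv (hw.contDiff t ht) (by norm_num)
  have c2 : ∀ t, 1 ≤ t → ContDiffAt ℝ 1 (deriv (deriv w)) t := fun t ht =>
    ab2_cd_deriv (c1 t ht) (by norm_num)
  have d0 : ∀ t, 1 ≤ t → HasDerivAt w (deriv w t) t := fun t ht =>
    ((hw.contDiff t ht).differentiableAt (by norm_num)).hasDerivAt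
  have d1 : ∀ t, 1 ≤ t → HasDerivAt (deriv w) (deriv (deriv w) t) t := fun t ht =>
    ((c1 t ht).differentiableAt (by norm_num)).hasDerivAt
  have d2 : ∀ t, 1 ≤ t → HasDerivAt (deriv (deriv w)) (deriv (deriv (deriv w)) t) t :=
    fun t ht => ((c2 t ht).differentiableAt (by norm_num)).hasDerivAt
  obtain ⟨u, hu⟩ : ∃ u, u = ab2_u z := ⟨_, rfl⟩
  have hu0 : 0 < u := by rw [hu]; exact ab2_u_pos hz1
  have hu1 : u ≤ 1 := by rw [hu]; exact ab2_u_le_one hz1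
  have hanti : ∀ t, z ≤ t → ∀ k : ℕ, Cw * ab2_u t ^ k ≤ Cw * u ^ k := fun t ht k => by
    have h1 : 1 ≤ t := hz1.trans ht
    rw [hu]
    exact mul_le_mul_of_nonneg_left (pow_le_pow_left₀ (ab2_u_pos h1).le (ab2_u_anti hz1 ht) k) hCw0
  have hmono : ∀ {k l : ℕ}, k ≤ l → u ^ l ≤ u ^ k := fun h =>
    pow_le_pow_of_le_one hu0.le hu1 h
  rw [← hu] at f0 f1 f2 hs
  have w0z : |w z| ≤ Cw * u ^ 7 := by rw [hu]; exact W0 z hz1
  have w1z : |deriv w z| ≤ Cw * u ^ 15 := by rw [hu]; exact W1 z hz1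
  have w2z : |deriv (deriv w) z| ≤ Cw * u ^ 23 := by rw [hu]; exact W2 z hz1
  -- the increment `D`
  obtain ⟨D, hD⟩ : ∃ D, D = f z - z := ⟨_, rfl⟩
  have hD1 : |D - 1| ≤ K * u ^ 7 := by
    have e : D - 1 = (f z - z - 1 - w z) + w z := by rw [hD]; ring
    rw [e]
    refine (abs_add_le _ _).trans ?_
    have h1 : Cf * u ^ 12 ≤ Cf * u ^ 7 := mul_le_mul_of_nonneg_left (hmono (by norm_num)) hCf0
    rw [hK]
    linarith
  have hDa := abs_le.1 hD1
  have hD0 : 0 ≤ D := by linarith [hDa.1]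
  have hD2 : D ≤ 2 := by linarith [hDa.2]
  have hDsq : D ^ 2 ≤ 4 := by nlinarith
  have hfz : z ≤ f z := by linarith
  have hfz1 : 1 ≤ f z := hz1.trans hfz
  have hfD : f z - z = D := hD.symm
  have w0f : |w (f z)| ≤ Cw * u ^ 7 := (W0 _ hfz1).trans (hanti _ hfz 7)
  have w1f : |deriv w (f z)| ≤ Cw * u ^ 15 := (W1 _ hfz1).trans (hanti _ hfz 15)
  -- Taylor
  have T0 : |W (f z) - W z - w z * (f z - z)| ≤ Cw * u ^ 15 * (f z - z) ^ 2 :=
    ab2_taylor hfz (by positivity) (fun t ht => hW t (hz1.trans ht.1))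
      (fun t ht => d0 t (hz1.trans ht.1))
      (fun t ht => (W1 t (hz1.trans ht.1)).trans (hanti t ht.1 15))
  have T1 : |w (f z) - w z - deriv w z * (f z - z)| ≤ Cw * u ^ 23 * (f z - z) ^ 2 :=
    ab2_taylor hfz (by positivity) (fun t ht => d0 t (hz1.trans ht.1))
      (fun t ht => d1 t (hz1.trans ht.1))
      (fun t ht => (W2 t (hz1.trans ht.1)).trans (hanti t ht.1 23))
  have T2 : |deriv w (f z) - deriv w z - deriv (deriv w) z * (f z - z)| ≤
      Cw * u ^ 31 * (f z - z) ^ 2 :=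
    ab2_taylor hfz (by positivity) (fun t ht => d1 t (hz1.trans ht.1))
      (fun t ht => d2 t (hz1.trans ht.1))
      (fun t ht => (W3 t (hz1.trans ht.1)).trans (hanti t ht.1 31))
  rw [hfD] at T0 T1 T2
  have Tb : ∀ k : ℕ, Cw * u ^ k * D ^ 2 ≤ 4 * Cw * u ^ k := fun k => by
    have h1 : 0 ≤ Cw * u ^ k := by positivity
    nlinarith
  -- bounds for the derivatives of `f`
  have g1 : |deriv f z - 1| ≤ K * u ^ 15 := by
    have e : deriv f z - 1 = (deriv f z - 1 - deriv w z) + deriv w z := by ring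
    rw [e]
    refine (abs_add_le _ _).trans ?_
    have h1 : Cf * u ^ 20 ≤ Cf * u ^ 15 := mul_le_mul_of_nonneg_left (hmono (by norm_num)) hCf0
    rw [hK]
    linarith
  have g2 : |deriv (deriv f) z| ≤ K * u ^ 23 := by
    have e : deriv (deriv f) z = (deriv (deriv f) z - deriv (deriv w) z) + deriv (deriv w) z := by
      ring
    rw [e]
    refine (abs_add_le _ _).trans ?_
    have h1 : Cf * u ^ 28 ≤ Cf * u ^ 23 := mul_le_mul_of_nonneg_left (hmono (by norm_num)) hCf0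
    rw [hK]
    linarith
  have g1' : |deriv f z + 1| ≤ 2 + K := by
    have e : deriv f z + 1 = (deriv f z - 1) + 2 := by ring
    rw [e]
    refine (abs_add_le _ _).trans ?_
    have h1 : K * u ^ 15 ≤ K := mul_le_of_le_one_right hK0 (pow_le_one₀ hu0.le hu1)
    rw [abs_two]
    linarith
  have g3 : |deriv f z ^ 2 - 1| ≤ K * u ^ 15 * (2 + K) := by
    have e : deriv f z ^ 2 - 1 = (deriv f z - 1) * (deriv f z + 1) := by ring
    rw [e, abs_mul]
    exact mul_le_mul g1 g1' (abs_nonneg _) (by positivity)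
  have hCwK : 0 ≤ Cw * K := by positivity
  have hCwK2 : 0 ≤ Cw * K * (2 + K) := by positivity
  rw [← hu]
  refine ⟨?_, ?_, ?_⟩
  · have e : f z - z - 1 - (W (f z) - W z) = (f z - z - 1 - w z) -
        (W (f z) - W z - w z * D) - w z * (D - 1) := by
      rw [hD]
      ring
    rw [e]
    have h1 : |w z * (D - 1)| ≤ Cw * K * u ^ 14 := by
      rw [abs_mul]
      calc |w z| * |D - 1| ≤ (Cw * u ^ 7) * (K * u ^ 7) :=
            mul_le_mul w0z hD1 (abs_nonneg _) (by positivity)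
        _ = Cw * K * u ^ 14 := by ring
    have h2 : Cw * K * u ^ 14 ≤ Cw * K * u ^ 12 :=
      mul_le_mul_of_nonneg_left (hmono (by norm_num)) hCwK
    have h3 : 4 * Cw * u ^ 15 ≤ 4 * Cw * u ^ 12 :=
      mul_le_mul_of_nonneg_left (hmono (by norm_num)) (by positivity)
    have h4 := Tb 15
    have h5 : C * u ^ 12 = Cf * u ^ 12 + 4 * Cw * u ^ 12 + 2 * (Cw * K * u ^ 12) +
        Cw * K * (2 + K) * u ^ 12 := by
      rw [hC]
      ring
    have h6 : 0 ≤ Cw * K * u ^ 12 := by positivity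
    have h7 : 0 ≤ Cw * K * (2 + K) * u ^ 12 := by positivity
    rw [h5]
    refine (abs_sub _ _).trans ?_
    refine (add_le_add_left (abs_sub _ _) _).trans ?_
    linarith
  · have e : deriv f z - 1 - (w (f z) * deriv f z - w z) = (deriv f z - 1 - deriv w z) -
        (w (f z) - w z - deriv w z * D) - deriv w z * (D - 1) - w (f z) * (deriv f z - 1) := by
      ring
    rw [e]
    have h1 : |deriv w z * (D - 1)| ≤ Cw * K * u ^ 22 := by
      rw [abs_mul]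
      calc |deriv w z| * |D - 1| ≤ (Cw * u ^ 15) * (K * u ^ 7) :=
            mul_le_mul w1z hD1 (abs_nonneg _) (by positivity)
        _ = Cw * K * u ^ 22 := by ring
    have h1' : |w (f z) * (deriv f z - 1)| ≤ Cw * K * u ^ 22 := by
      rw [abs_mul]
      calc |w (f z)| * |deriv f z - 1| ≤ (Cw * u ^ 7) * (K * u ^ 15) :=
            mul_le_mul w0f g1 (abs_nonneg _) (by positivity)
        _ = Cw * K * u ^ 22 := by ring
    have h2 : Cw * K * u ^ 22 ≤ Cw * K * u ^ 20 :=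
      mul_le_mul_of_nonneg_left (hmono (by norm_num)) hCwK
    have h3 : 4 * Cw * u ^ 23 ≤ 4 * Cw * u ^ 20 :=
      mul_le_mul_of_nonneg_left (hmono (by norm_num)) (by positivity)
    have h4 := Tb 23
    have h5 : C * u ^ 20 = Cf * u ^ 20 + 4 * Cw * u ^ 20 + 2 * (Cw * K * u ^ 20) +
        Cw * K * (2 + K) * u ^ 20 := by
      rw [hC]
      ring
    have h7 : 0 ≤ Cw * K * (2 + K) * u ^ 20 := by positivity
    rw [h5]
    refine (abs_sub _ _).trans ?_
    refine (add_le_add_left (abs_sub _ _) _).trans ?_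
    refine (add_le_add_left (add_le_add_left (abs_sub _ _) _) _).trans ?_
    linarith
  · have e : deriv (deriv f) z - (deriv w (f z) * deriv f z ^ 2 + w (f z) * deriv (deriv f) z -
        deriv w z) = (deriv (deriv f) z - deriv (deriv w) z) -
        (deriv w (f z) - deriv w z - deriv (deriv w) z * D) - deriv (deriv w) z * (D - 1) -
        deriv w (f z) * (deriv f z ^ 2 - 1) - w (f z) * deriv (deriv f) z := by
      ring
    rw [e]
    have h1 : |deriv (deriv w) z * (D - 1)| ≤ Cw * K * u ^ 30 := by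
      rw [abs_mul]
      calc |deriv (deriv w) z| * |D - 1| ≤ (Cw * u ^ 23) * (K * u ^ 7) :=
            mul_le_mul w2z hD1 (abs_nonneg _) (by positivity)
        _ = Cw * K * u ^ 30 := by ring
    have h1' : |deriv w (f z) * (deriv f z ^ 2 - 1)| ≤ Cw * K * (2 + K) * u ^ 30 := by
      rw [abs_mul]
      calc |deriv w (f z)| * |deriv f z ^ 2 - 1| ≤ (Cw * u ^ 15) * (K * u ^ 15 * (2 + K)) :=
            mul_le_mul w1f g3 (abs_nonneg _) (by positivity)
        _ = Cw * K * (2 + K) * u ^ 30 := by ring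
    have h1'' : |w (f z) * deriv (deriv f) z| ≤ Cw * K * u ^ 30 := by
      rw [abs_mul]
      calc |w (f z)| * |deriv (deriv f) z| ≤ (Cw * u ^ 7) * (K * u ^ 23) :=
            mul_le_mul w0f g2 (abs_nonneg _) (by positivity)
        _ = Cw * K * u ^ 30 := by ring
    have h2 : Cw * K * u ^ 30 ≤ Cw * K * u ^ 28 :=
      mul_le_mul_of_nonneg_left (hmono (by norm_num)) hCwK
    have h2' : Cw * K * (2 + K) * u ^ 30 ≤ Cw * K * (2 + K) * u ^ 28 :=
      mul_le_mul_of_nonneg_left (hmono (by norm_num)) hCwK2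
    have h3 : 4 * Cw * u ^ 31 ≤ 4 * Cw * u ^ 28 :=
      mul_le_mul_of_nonneg_left (hmono (by norm_num)) (by positivity)
    have h4 := Tb 31
    have h5 : C * u ^ 28 = Cf * u ^ 28 + 4 * Cw * u ^ 28 + 2 * (Cw * K * u ^ 28) +
        Cw * K * (2 + K) * u ^ 28 := by
      rw [hC]
      ring
    rw [h5]
    refine (abs_sub _ _).trans ?_
    refine (add_le_add_left (abs_sub _ _) _).trans ?_
    refine (add_le_add_left (add_le_add_left (abs_sub _ _) _) _).trans ?_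
    refine (add_le_add_left (add_le_add_left (add_le_add_left (abs_sub _ _) _) _) _).trans ?_
    linarith

/-- **Abel function.** `W` a primitive of `w` on `[1, ∞)`. `Ψ₀ = z - W`,
`r = Ψ₀ ∘ f - Ψ₀ - 1 = ρ - (W(f z) - W z - w z)` satisfies `|r| ≤ C z^(-3/2)`,
`|r'| ≤ C z^(-5/2)`, `|r''| ≤ C z^(-7/2)` (use `W(f) - W(z) = ∫_z^{f z} w`,
`f - z = 1 + O(z^(-7/8))`; derivative: `w(f) f' - w(z) - w'(z) + …`),
`Ψ = Ψ₀ + ∑ₙ r ∘ fⁿ`: the series and its two derivative series converge absolutely and are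
`O(z^(-1/2))`, `O(z^(-3/2))`, `O(z^(-5/2))` (`iterate_bounds`, `contDiff`-of-series lemmas on the
open half line). -/
theorem abel {w f W : ℝ → ℝ} (hw : Wb w) (hf : AbH w f)
    (hW : ∀ z, 1 ≤ z → HasDerivAt W (w z) z) :
    ∃ (Ψ : ℝ → ℝ) (R : ℝ), 1 ≤ R ∧ (∀ z, R < z → ContDiffAt ℝ 2 Ψ z) ∧
      (∀ z, R < z → R < f z ∧ Ψ (f z) = Ψ z + 1) ∧
      Tendsto (fun z => Ψ z - (z - W z)) atTop (𝓝 0) ∧
      Tendsto (fun z => z * (deriv Ψ z - 1 + w z)) atTop (𝓝 0) ∧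
      Tendsto (fun z => z ^ 2 * (deriv (deriv Ψ) z + deriv w z)) atTop (𝓝 0) := by
  obtain ⟨C, Rr, hC0, hRr, hcd, hr⟩ := ab2_r hw hf hW
  obtain ⟨C₂, Ri, hC₂0, hRi, hit⟩ := iterate_bounds hw hf
  obtain ⟨R, hR⟩ : ∃ R, R = max Rr Ri := ⟨_, rfl⟩
  have hRr' : Rr ≤ R := by rw [hR]; exact le_max_left _ _
  have hRi' : Ri ≤ R := by rw [hR]; exact le_max_right _ _
  have hR1 : 1 ≤ R := hRr.trans hRr'
  have hU : IsOpen (Ioi R) := isOpen_Ioi
  have hU1 : ∀ z ∈ Ioi R, 1 ≤ z := fun z hz => hR1.trans (le_of_lt hz)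
  -- the iterates
  have hmaps : ∀ n : ℕ, MapsTo f^[n] (Ioi R) (Ioi R) := fun n z hz => by
    have h1 := (hit n z (hRi'.trans (le_of_lt hz))).1
    have h2 : (0 : ℝ) ≤ n := Nat.cast_nonneg n
    have h3 : R < z := hz
    exact mem_Ioi.2 (by linarith)
  have hmap1 : MapsTo f (Ioi R) (Ioi R) := by
    have h1 := hmaps 1
    rwa [Function.iterate_one] at h1
  have DF : ∀ n : ℕ, ab2_D (Ioi R) f^[n] (deriv f^[n]) (deriv (deriv f^[n])) := fun n =>
    ab2_D_of fun z hz => (hit n z (hRi'.trans (le_of_lt hz))).2.2.1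
  have Df : ab2_D (Ioi R) f (deriv f) (deriv (deriv f)) :=
    ab2_D_of fun z hz => hcd z (hRr'.trans (le_of_lt hz))
  have DW : ab2_D (Ioi R) W w (deriv w) := by
    refine ⟨fun z hz => hW z (hU1 z hz), fun z hz => ?_, fun z hz => ?_⟩
    · exact ((hw.contDiff z (hU1 z hz)).differentiableAt (by norm_num)).hasDerivAt
    · have h1 : ContDiffAt ℝ 2 (deriv w) z := ab2_cd_deriv (hw.contDiff z (hU1 z hz)) (by norm_num)
      exact h1.continuousAt.continuousWithinAt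
  have DWf := DW.comp Df hmap1
  obtain ⟨r, hr0⟩ : ∃ r : ℝ → ℝ, r = fun z => f z - z - 1 - (W (f z) - W z) := ⟨_, rfl⟩
  obtain ⟨r', hr'0⟩ : ∃ r' : ℝ → ℝ, r' = fun z => deriv f z - 1 - (w (f z) * deriv f z - w z) :=
    ⟨_, rfl⟩
  obtain ⟨r'', hr''0⟩ : ∃ r'' : ℝ → ℝ, r'' = fun z => deriv (deriv f) z -
    (deriv w (f z) * deriv f z ^ 2 + w (f z) * deriv (deriv f) z - deriv w z) := ⟨_, rfl⟩
  have Dr : ab2_D (Ioi R) r r' r'' := by
    refine ⟨fun z hz => ?_, fun z hz => ?_, ?_⟩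
    · rw [hr0, hr'0]
      exact (((Df.d1 z hz).fun_sub (hasDerivAt_id' z)).sub_const 1).fun_sub
        ((DWf.d1 z hz).fun_sub (DW.d1 z hz))
    · rw [hr'0, hr''0]
      exact ((Df.d2 z hz).sub_const 1).fun_sub ((DWf.d2 z hz).fun_sub (DW.d2 z hz))
    · rw [hr''0]
      exact Df.c.sub (DWf.c.sub DW.c)
  have Dg : ∀ n : ℕ, ab2_D (Ioi R) (fun z => r (f^[n] z)) (fun z => r' (f^[n] z) * deriv f^[n] z)
      (fun z => r'' (f^[n] z) * deriv f^[n] z ^ 2 + r' (f^[n] z) * deriv (deriv f^[n]) z) :=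
    fun n => Dr.comp (DF n) (hmaps n)
  -- the bounds
  obtain ⟨C₃, hC₃⟩ : ∃ C₃, C₃ = 4 * C + C * C₂ := ⟨_, rfl⟩
  have hC₃0 : 0 ≤ C₃ := by rw [hC₃]; positivity
  have key : ∀ n : ℕ, ∀ z ∈ Ioi R, |r (f^[n] z)| ≤ C * ab2_u z ^ 2 * ab2_s n ∧
      |r' (f^[n] z) * deriv f^[n] z| ≤ 2 * C * ab2_u z ^ 10 * ab2_s n ∧
      |r'' (f^[n] z) * deriv f^[n] z ^ 2 + r' (f^[n] z) * deriv (deriv f^[n]) z| ≤
        C₃ * ab2_u z ^ 18 * ab2_s n := by
    intro n z hz
    have hz1 := hU1 z hz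
    obtain ⟨h1, -, -, h4, h5, h6⟩ := hit n z (hRi'.trans (le_of_lt hz))
    have h7 := hmaps n hz
    have h7' : R < f^[n] z := h7
    obtain ⟨b0, b1, b2⟩ := hr (f^[n] z) (hRr'.trans h7'.le)
    have hsn := ab2_s_nonneg n
    have hu0 := ab2_u_pos hz1
    have hu1 := ab2_u_le_one hz1
    have q0 := ab2_s_bound hz1 h1 2
    have q1 := ab2_s_bound hz1 h1 10
    have q2 := ab2_s_bound hz1 h1 18
    rw [ab2_u_pow hz1 (15 / 8) 15 (by norm_num)] at h6
    have e1 : |deriv f^[n] z| ≤ 2 := by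
      rw [abs_of_nonneg (by linarith)]
      exact h5
    have e2 : deriv f^[n] z ^ 2 ≤ 4 := by nlinarith
    have hr'b : |r' (f^[n] z)| ≤ C * (ab2_u z ^ 10 * ab2_s n) := by
      rw [hr'0]
      exact b1.trans (mul_le_mul_of_nonneg_left q1 hC0)
    have hr''b : |r'' (f^[n] z)| ≤ C * (ab2_u z ^ 18 * ab2_s n) := by
      rw [hr''0]
      exact b2.trans (mul_le_mul_of_nonneg_left q2 hC0)
    refine ⟨?_, ?_, ?_⟩
    · rw [hr0, mul_assoc]
      exact b0.trans (mul_le_mul_of_nonneg_left q0 hC0)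
    · rw [abs_mul]
      calc |r' (f^[n] z)| * |deriv f^[n] z| ≤ (C * (ab2_u z ^ 10 * ab2_s n)) * 2 :=
            mul_le_mul hr'b e1 (abs_nonneg _) (by positivity)
        _ = 2 * C * ab2_u z ^ 10 * ab2_s n := by ring
    · refine (abs_add_le _ _).trans ?_
      rw [abs_mul, abs_mul, abs_of_nonneg (sq_nonneg (deriv f^[n] z))]
      have p1 : |r'' (f^[n] z)| * deriv f^[n] z ^ 2 ≤ (C * (ab2_u z ^ 18 * ab2_s n)) * 4 :=
        mul_le_mul hr''b e2 (sq_nonneg _) (by positivity)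
      have p2 : |r' (f^[n] z)| * |deriv (deriv f^[n]) z| ≤
          (C * (ab2_u z ^ 10 * ab2_s n)) * (C₂ * ab2_u z ^ 15) :=
        mul_le_mul hr'b h6 (abs_nonneg _) (by positivity)
      have p3 : (C * (ab2_u z ^ 10 * ab2_s n)) * (C₂ * ab2_u z ^ 15) ≤
          C * C₂ * ab2_u z ^ 18 * ab2_s n := by
        have p4 : ab2_u z ^ 25 ≤ ab2_u z ^ 18 := ab2_u_mono hz1 (by norm_num)
        calc (C * (ab2_u z ^ 10 * ab2_s n)) * (C₂ * ab2_u z ^ 15)
            = C * C₂ * ab2_s n * ab2_u z ^ 25 := by ring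
          _ ≤ C * C₂ * ab2_s n * ab2_u z ^ 18 := mul_le_mul_of_nonneg_left p4 (by positivity)
          _ = C * C₂ * ab2_u z ^ 18 * ab2_s n := by ring
      have p5 : C₃ * ab2_u z ^ 18 * ab2_s n = (C * (ab2_u z ^ 18 * ab2_s n)) * 4 +
          C * C₂ * ab2_u z ^ 18 * ab2_s n := by
        rw [hC₃]
        ring
      rw [p5]
      linarith
  -- the sums
  obtain ⟨S, hS⟩ := ab2_s_summable
  have hunif : ∀ (B : ℝ) (k : ℕ), 0 ≤ B → ∀ z ∈ Ioi R, ∀ n, B * ab2_u z ^ k * ab2_s n ≤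
      B * ab2_s n := fun B k hB z hz n => by
    have h1 := pow_le_one₀ (ab2_u_pos (hU1 z hz)).le (ab2_u_le_one (hU1 z hz)) (n := k)
    have h2 := ab2_s_nonneg n
    calc B * ab2_u z ^ k * ab2_s n ≤ B * 1 * ab2_s n := by gcongr
      _ = B * ab2_s n := by ring
  have hsum0 : ∀ z ∈ Ioi R, Summable fun n : ℕ => r (f^[n] z) := fun z hz =>
    Summable.of_norm_bounded (hS.summable.mul_left (C * ab2_u z ^ 2)) fun n => (key n z hz).1
  have hsum1 : ∀ z ∈ Ioi R, Summable fun n : ℕ => r' (f^[n] z) * deriv f^[n] z := fun z hz =>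
    Summable.of_norm_bounded (hS.summable.mul_left (2 * C * ab2_u z ^ 10)) fun n =>
      (key n z hz).2.1
  have hR1mem : R + 1 ∈ Ioi R := mem_Ioi.2 (by linarith)
  obtain ⟨G, hG⟩ : ∃ G : ℝ → ℝ, G = fun z => ∑' n : ℕ, r (f^[n] z) := ⟨_, rfl⟩
  obtain ⟨G', hG'⟩ : ∃ G' : ℝ → ℝ, G' = fun z => ∑' n : ℕ, r' (f^[n] z) * deriv f^[n] z :=
    ⟨_, rfl⟩
  obtain ⟨G'', hG''⟩ : ∃ G'' : ℝ → ℝ, G'' = fun z => ∑' n : ℕ, (r'' (f^[n] z) *
    deriv f^[n] z ^ 2 + r' (f^[n] z) * deriv (deriv f^[n]) z) := ⟨_, rfl⟩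
  have DG : ab2_D (Ioi R) G G' G'' := by
    refine ⟨fun z hz => ?_, fun z hz => ?_, ?_⟩
    · rw [hG, hG']
      exact hasDerivAt_tsum_of_isPreconnected (hS.summable.mul_left (2 * C)) hU isPreconnected_Ioi
        (fun n y hy => (Dg n).d1 y hy)
        (fun n y hy => (key n y hy).2.1.trans (hunif _ 10 (by positivity) y hy n)) hR1mem
        (hsum0 _ hR1mem) hz
    · rw [hG', hG'']
      exact hasDerivAt_tsum_of_isPreconnected (hS.summable.mul_left C₃) hU isPreconnected_Ioi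
        (fun n y hy => (Dg n).d2 y hy)
        (fun n y hy => (key n y hy).2.2.trans (hunif _ 18 hC₃0 y hy n)) hR1mem
        (hsum1 _ hR1mem) hz
    · rw [hG'']
      exact continuousOn_tsum (fun n => (Dg n).c) (hS.summable.mul_left C₃)
        (fun n y hy => (key n y hy).2.2.trans (hunif _ 18 hC₃0 y hy n))
  have hG0b : ∀ z ∈ Ioi R, |G z| ≤ C * S * ab2_u z ^ 2 := fun z hz => by
    have h := tsum_of_norm_bounded (f := fun n : ℕ => r (f^[n] z))
      (hS.mul_left (C * ab2_u z ^ 2)) (fun n => (key n z hz).1)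
    rw [hG]
    exact h.trans (le_of_eq (by ring))
  have hG1b : ∀ z ∈ Ioi R, |G' z| ≤ 2 * C * S * ab2_u z ^ 10 := fun z hz => by
    have h := tsum_of_norm_bounded (f := fun n : ℕ => r' (f^[n] z) * deriv f^[n] z)
      (hS.mul_left (2 * C * ab2_u z ^ 10)) (fun n => (key n z hz).2.1)
    rw [hG']
    exact h.trans (le_of_eq (by ring))
  have hG2b : ∀ z ∈ Ioi R, |G'' z| ≤ C₃ * S * ab2_u z ^ 18 := fun z hz => by
    have h := tsum_of_norm_bounded (f := fun n : ℕ => r'' (f^[n] z) * deriv f^[n] z ^ 2 +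
      r' (f^[n] z) * deriv (deriv f^[n]) z)
      (hS.mul_left (C₃ * ab2_u z ^ 18)) (fun n => (key n z hz).2.2)
    rw [hG'']
    exact h.trans (le_of_eq (by ring))
  -- the Abel function
  obtain ⟨Ψ, hΨ⟩ : ∃ Ψ : ℝ → ℝ, Ψ = fun z => z - W z + G z := ⟨_, rfl⟩
  have DΨ : ab2_D (Ioi R) Ψ (fun z => 1 - w z + G' z) (fun z => -deriv w z + G'' z) := by
    refine ⟨fun z hz => ?_, fun z hz => ?_, ?_⟩
    · rw [hΨ]
      exact ((hasDerivAt_id' z).fun_sub (DW.d1 z hz)).fun_add (DG.d1 z hz)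
    · exact ((DW.d2 z hz).const_sub 1).fun_add (DG.d2 z hz)
    · exact DW.c.neg.add DG.c
  have hlim : ∀ B : ℝ, Tendsto (fun z => B * ab2_u z ^ 2) atTop (𝓝 0) := fun B => by
    have h1 : Tendsto (fun z => B * ab2_u z ^ 2) atTop (𝓝 (B * 0 ^ 2)) :=
      (ab2_u_tendsto.pow 2).const_mul B
    rwa [zero_pow (by norm_num), mul_zero] at h1
  refine ⟨Ψ, R, hR1, fun z hz => DΨ.contDiffAt hU hz, fun z hz => ⟨hmap1 hz, ?_⟩, ?_, ?_, ?_⟩
  · have h1 : G z = r z + G (f z) := by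
      rw [hG]
      have h2 := (hsum0 z hz).tsum_eq_zero_add
      simp only [Function.iterate_zero, id_eq, Function.iterate_succ_apply] at h2
      exact h2
    have h3 : r z = f z - z - 1 - (W (f z) - W z) := by rw [hr0]
    rw [hΨ]
    simp only
    rw [h1, h3]
    ring
  · refine squeeze_zero_norm' ?_ (hlim (C * S))
    filter_upwards [eventually_gt_atTop R] with z hz
    have e : Ψ z - (z - W z) = G z := by
      rw [hΨ]
      ring
    rw [e]
    exact hG0b z hz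
  · refine squeeze_zero_norm' ?_ (hlim (2 * C * S))
    filter_upwards [eventually_gt_atTop R] with z hz
    have hz1 : 1 ≤ z := hU1 z hz
    rw [DΨ.deriv_eq hz]
    have e : z * ((fun z => 1 - w z + G' z) z - 1 + w z) = z * G' z := by ring
    rw [e, norm_mul, Real.norm_eq_abs, Real.norm_eq_abs, abs_of_nonneg (by linarith : (0:ℝ) ≤ z)]
    calc z * |G' z| ≤ z * (2 * C * S * ab2_u z ^ 10) :=
          mul_le_mul_of_nonneg_left (hG1b z hz) (by linarith)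
      _ = 2 * C * S * ab2_u z ^ 2 * (z * ab2_u z ^ 8) := by ring
      _ = 2 * C * S * ab2_u z ^ 2 := by rw [ab2_u8 hz1, mul_one]
  · refine squeeze_zero_norm' ?_ (hlim (C₃ * S))
    filter_upwards [eventually_gt_atTop R] with z hz
    have hz1 : 1 ≤ z := hU1 z hz
    rw [DΨ.deriv_eq2 hU hz]
    have e : z ^ 2 * ((fun z => -deriv w z + G'' z) z + deriv w z) = z ^ 2 * G'' z := by ring
    rw [e, norm_mul, Real.norm_eq_abs, Real.norm_eq_abs, abs_of_nonneg (by positivity)]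
    calc z ^ 2 * |G'' z| ≤ z ^ 2 * (C₃ * S * ab2_u z ^ 18) :=
          mul_le_mul_of_nonneg_left (hG2b z hz) (by positivity)
      _ = C₃ * S * ab2_u z ^ 2 * (z * ab2_u z ^ 8) ^ 2 := by ring
      _ = C₃ * S * ab2_u z ^ 2 := by rw [ab2_u8 hz1, one_pow, mul_one]

end GD31
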