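import Pool.Agent.LibGD31.AB2

/-! # AB3: conjugacy at `+∞` -/

open Filter Topology Set

namespace GD31

/-! ### Functions with two derivatives on an open set -/

private structure ab3_D (U : Set ℝ) (h h' h'' : ℝ → ℝ) : Prop where
  d1 : ∀ z ∈ U, HasDerivAt h (h' z) z
  d2 : ∀ z ∈ U, HasDerivAt h' (h'' z) z
  c : ContinuousOn h'' U

private theorem ab3_cd_deriv {h : ℝ → ℝ} {z : ℝ} {m n : WithTop ℕ∞} (H : ContDiffAt ℝ n h z)
    (hmn : m + 1 ≤ n) : ContDiffAt ℝ m (deriv h) z := by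
  have h1 : ContDiffAt ℝ m (fderiv ℝ h) z := H.fderiv_right hmn
  have h2 : ContDiffAt ℝ m (fun x => fderiv ℝ h x 1) z := h1.clm_apply contDiffAt_const
  exact h2

private theorem ab3_D_of {U : Set ℝ} {h : ℝ → ℝ} (H : ∀ z ∈ U, ContDiffAt ℝ 2 h z) :
    ab3_D U h (deriv h) (deriv (deriv h)) := by
  have h1 : ∀ z ∈ U, ContDiffAt ℝ 1 (deriv h) z := fun z hz =>
    ab3_cd_deriv (H z hz) (by norm_num)
  have h2 : ∀ z ∈ U, ContDiffAt ℝ 0 (deriv (deriv h)) z := fun z hz =>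
    ab3_cd_deriv (h1 z hz) (by norm_num)
  exact ⟨fun z hz => ((H z hz).differentiableAt (by norm_num)).hasDerivAt,
    fun z hz => ((h1 z hz).differentiableAt (by norm_num)).hasDerivAt,
    fun z hz => (h2 z hz).continuousAt.continuousWithinAt⟩

private theorem ab3_D.deriv_eq {U : Set ℝ} {h h' h'' : ℝ → ℝ} (H : ab3_D U h h' h'') {z : ℝ}
    (hz : z ∈ U) : deriv h z = h' z := (H.d1 z hz).deriv

private theorem ab3_D.deriv_eq2 {U : Set ℝ} {h h' h'' : ℝ → ℝ} (hU : IsOpen U)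
    (H : ab3_D U h h' h'') {z : ℝ} (hz : z ∈ U) : deriv (deriv h) z = h'' z := by
  have e : deriv h =ᶠ[𝓝 z] h' := by
    filter_upwards [hU.mem_nhds hz] with y hy
    exact H.deriv_eq hy
  rw [e.deriv_eq]
  exact (H.d2 z hz).deriv

private theorem ab3_D.contDiffAt {U : Set ℝ} {h h' h'' : ℝ → ℝ} (hU : IsOpen U)
    (H : ab3_D U h h' h'') {z : ℝ} (hz : z ∈ U) : ContDiffAt ℝ 2 h z := by
  have c0 : ContDiffOn ℝ 0 (deriv h') U := by
    rw [contDiffOn_zero]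
    refine H.c.congr fun y hy => ?_
    exact (H.d2 y hy).deriv
  have c1 : ContDiffOn ℝ 1 h' U := by
    have := (contDiffOn_succ_iff_deriv_of_isOpen (𝕜 := ℝ) (n := 0) (f := h') hU).2
      ⟨fun y hy => (H.d2 y hy).differentiableAt.differentiableWithinAt, by simp, c0⟩
    simpa using this
  have c1' : ContDiffOn ℝ 1 (deriv h) U := c1.congr fun y hy => H.deriv_eq hy
  have c2 : ContDiffOn ℝ (1 + 1) h U :=
    (contDiffOn_succ_iff_deriv_of_isOpen (𝕜 := ℝ) (n := 1) (f := h) hU).2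
      ⟨fun y hy => (H.d1 y hy).differentiableAt.differentiableWithinAt, by simp, c1'⟩
  have e : (1 + 1 : WithTop ℕ∞) = 2 := by norm_num
  rw [e] at c2
  exact c2.contDiffAt (hU.mem_nhds hz)

private theorem ab3_D.mono {U V : Set ℝ} {h h' h'' : ℝ → ℝ} (H : ab3_D U h h' h'') (hV : V ⊆ U) :
    ab3_D V h h' h'' :=
  ⟨fun z hz => H.d1 z (hV hz), fun z hz => H.d2 z (hV hz), H.c.mono hV⟩

private theorem ab3_D.comp {U V : Set ℝ} {r r' r'' f f' f'' : ℝ → ℝ} (H : ab3_D V r r' r'')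
    (K : ab3_D U f f' f'') (hm : MapsTo f U V) :
    ab3_D U (fun z => r (f z)) (fun z => r' (f z) * f' z)
      (fun z => r'' (f z) * f' z ^ 2 + r' (f z) * f'' z) := by
  refine ⟨fun z hz => (H.d1 _ (hm hz)).comp z (K.d1 z hz), fun z hz => ?_, ?_⟩
  · have h1 : HasDerivAt (fun z => r' (f z)) (r'' (f z) * f' z) z :=
      (H.d2 _ (hm hz)).comp z (K.d1 z hz)
    have h2 := h1.fun_mul (K.d2 z hz)
    refine h2.congr_deriv ?_
    ring
  · have cf : ContinuousOn f U := fun z hz => (K.d1 z hz).continuousAt.continuousWithinAt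
    have cf' : ContinuousOn f' U := fun z hz => (K.d2 z hz).continuousAt.continuousWithinAt
    have cr' : ContinuousOn r' V := fun z hz => (H.d2 z hz).continuousAt.continuousWithinAt
    exact ((H.c.comp cf hm).mul (cf'.pow 2)).add ((cr'.comp cf hm).mul K.c)

/-! ### The inverse function -/

private theorem ab3_lower {R : ℝ} {Ψ Ψ' Ψ'' : ℝ → ℝ} (D : ab3_D (Ioi R) Ψ Ψ' Ψ'')
    (hd : ∀ z ∈ Ioi R, 1 / 2 ≤ Ψ' z) {a b : ℝ} (ha : R < a) (hab : a ≤ b) :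
    1 / 2 * (b - a) ≤ Ψ b - Ψ a := by
  have hb : R < b := ha.trans_le hab
  refine Convex.mul_sub_le_image_sub_of_le_deriv (convex_Ioi R) ?_ ?_ ?_ a ha b hb hab
  · exact fun z hz => (D.d1 z hz).continuousAt.continuousWithinAt
  · rw [interior_Ioi]
    exact fun z hz => (D.d1 z hz).differentiableAt.differentiableWithinAt
  · rw [interior_Ioi]
    intro z hz
    rw [D.deriv_eq hz]
    exact hd z hz

private theorem ab3_lower' {R : ℝ} {Ψ Ψ' Ψ'' : ℝ → ℝ} (D : ab3_D (Ioi R) Ψ Ψ' Ψ'')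
    (hd : ∀ z ∈ Ioi R, 1 / 2 ≤ Ψ' z) {a b : ℝ} (ha : R < a) (hb : R < b) :
    |b - a| ≤ 2 * |Ψ b - Ψ a| := by
  rcases le_total a b with h | h
  · have h1 := ab3_lower D hd ha h
    rw [abs_of_nonneg (by linarith), abs_of_nonneg (by linarith)]
    linarith
  · have h1 := ab3_lower D hd hb h
    rw [abs_sub_comm, abs_sub_comm (Ψ b), abs_of_nonneg (by linarith), abs_of_nonneg (by linarith)]
    linarith

private theorem ab3_inverse {R : ℝ} {Ψ Ψ' Ψ'' : ℝ → ℝ} (D : ab3_D (Ioi R) Ψ Ψ' Ψ'')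
    (hd : ∀ z ∈ Ioi R, 1 / 2 ≤ Ψ' z) : ∃ Φ : ℝ → ℝ,
    (∀ y, Ψ (R + 1) < y → R + 1 < Φ y ∧ Ψ (Φ y) = y) ∧
      ab3_D (Ioi (Ψ (R + 1))) Φ (fun y => (Ψ' (Φ y))⁻¹)
        (fun y => -Ψ'' (Φ y) * (Ψ' (Φ y))⁻¹ ^ 3) := by
  have hR1 : R < R + 1 := by linarith
  have hex : ∀ y, Ψ (R + 1) < y → ∃ x, R + 1 < x ∧ Ψ x = y := by
    intro y hy
    obtain ⟨b, hb⟩ : ∃ b, b = R + 1 + 2 * (y - Ψ (R + 1)) := ⟨_, rfl⟩
    have hb1 : R + 1 ≤ b := by linarith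
    have h1 := ab3_lower D hd hR1 hb1
    have h2 : y ≤ Ψ b := by
      have : 1 / 2 * (b - (R + 1)) = y - Ψ (R + 1) := by rw [hb]; ring
      linarith
    have hc : ContinuousOn Ψ (Icc (R + 1) b) := fun z hz =>
      (D.d1 z (hR1.trans_le hz.1)).continuousAt.continuousWithinAt
    obtain ⟨x, hx, hxy⟩ := intermediate_value_Icc hb1 hc ⟨hy.le, h2⟩
    refine ⟨x, lt_of_le_of_ne hx.1 fun h => ?_, hxy⟩
    rw [h] at hy
    linarith
  choose! Φ hΦ using hex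
  have hcont : ∀ y ∈ Ioi (Ψ (R + 1)), ContinuousAt Φ y := by
    intro y hy
    rw [ContinuousAt, tendsto_iff_norm_sub_tendsto_zero]
    have h1 : Tendsto (fun x => 2 * |x - y|) (𝓝 y) (𝓝 0) := by
      have : Continuous fun x : ℝ => 2 * |x - y| := by fun_prop
      have h2 := this.tendsto y
      simpa using h2
    refine squeeze_zero' (Eventually.of_forall fun x => norm_nonneg _) ?_ h1
    filter_upwards [isOpen_Ioi.mem_nhds hy] with x hx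
    have h3 := hΦ x hx
    have h4 := hΦ y hy
    have h5 := ab3_lower' D hd (hR1.trans h4.1) (hR1.trans h3.1)
    rw [h3.2, h4.2] at h5
    exact h5
  have hmaps : MapsTo Φ (Ioi (Ψ (R + 1))) (Ioi R) := fun y hy => hR1.trans (hΦ y hy).1
  have hpos : ∀ y ∈ Ioi (Ψ (R + 1)), 0 < Ψ' (Φ y) := fun y hy => by
    have := hd _ (hmaps hy)
    linarith
  have d1 : ∀ y ∈ Ioi (Ψ (R + 1)), HasDerivAt Φ (Ψ' (Φ y))⁻¹ y := fun y hy =>
    HasDerivAt.of_local_left_inverse (hcont y hy) (D.d1 _ (hmaps hy)) (hpos y hy).ne' (by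
      filter_upwards [isOpen_Ioi.mem_nhds hy] with x hx
      exact (hΦ x hx).2)
  refine ⟨Φ, hΦ, d1, fun y hy => ?_, ?_⟩
  · have h1 : HasDerivAt (fun y => Ψ' (Φ y)) (Ψ'' (Φ y) * (Ψ' (Φ y))⁻¹) y :=
      (D.d2 _ (hmaps hy)).comp y (d1 y hy)
    have h2 := h1.fun_inv (hpos y hy).ne'
    refine h2.congr_deriv ?_
    have := (hpos y hy).ne'
    field_simp
  · have cΦ : ContinuousOn Φ (Ioi (Ψ (R + 1))) := fun y hy => (hcont y hy).continuousWithinAt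
    have cΨ' : ContinuousOn Ψ' (Ioi R) := fun z hz => (D.d2 z hz).continuousAt.continuousWithinAt
    exact ((D.c.comp cΦ hmaps).neg).mul (((cΨ'.comp cΦ hmaps).inv₀ fun y hy =>
      (hpos y hy).ne').pow 3)

/-! ### Small limits -/

private theorem ab3_primitive {w : ℝ → ℝ} (hw : Wb w) (z : ℝ) (hz : 1 ≤ z) :
    HasDerivAt (fun Z => ∫ t in (1 : ℝ)..Z, w t) (w z) z := by
  have hc : ∀ t, 1 ≤ t → ContinuousAt w t := fun t ht => (hw.contDiff t ht).continuousAt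
  have hi : IntervalIntegrable w MeasureTheory.volume 1 z := by
    refine ContinuousOn.intervalIntegrable fun t ht => ?_
    rw [uIcc_of_le hz] at ht
    exact (hc t ht.1).continuousWithinAt
  have hm : StronglyMeasurableAtFilter w (𝓝 z) MeasureTheory.volume := by
    have h1 : ∀ᶠ y in 𝓝 z, ContDiffAt ℝ 3 w y := (hw.contDiff z hz).eventually (by norm_num)
    obtain ⟨s, hs1, hs2, hs3⟩ := eventually_nhds_iff.1 h1
    exact ContinuousOn.stronglyMeasurableAtFilter hs2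
      (fun y hy => (hs1 y hy).continuousAt.continuousWithinAt) z hs3
  exact intervalIntegral.integral_hasDerivAt_right hi hm (hc z hz)

private theorem ab3_rpow_lim (C : ℝ) : Tendsto (fun z : ℝ => C * z ^ (-(7 / 8 : ℝ))) atTop (𝓝 0) := by
  have h1 := (tendsto_rpow_neg_atTop (show (0 : ℝ) < 7 / 8 by norm_num)).const_mul C
  rwa [mul_zero] at h1

private theorem ab3_w_lim {w : ℝ → ℝ} (hw : Wb w) : Tendsto w atTop (𝓝 0) := by
  obtain ⟨C, -, hC⟩ := hw.bd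
  refine squeeze_zero_norm' ?_ (ab3_rpow_lim C)
  filter_upwards [eventually_ge_atTop (1 : ℝ)] with z hz
  exact (hC z hz).1

private theorem ab3_w1_lim {w : ℝ → ℝ} (hw : Wb w) :
    Tendsto (fun z => z * deriv w z) atTop (𝓝 0) := by
  obtain ⟨C, -, hC⟩ := hw.bd
  refine squeeze_zero_norm' ?_ (ab3_rpow_lim C)
  filter_upwards [eventually_ge_atTop (1 : ℝ)] with z hz
  have hz0 : 0 < z := by linarith
  rw [norm_mul, Real.norm_eq_abs, Real.norm_eq_abs, abs_of_pos hz0]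
  have h1 := (hC z hz).2.1
  calc z * |deriv w z| ≤ z * (C * z ^ (-(15 / 8 : ℝ))) := mul_le_mul_of_nonneg_left h1 hz0.le
    _ = C * (z ^ (1 : ℝ) * z ^ (-(15 / 8 : ℝ))) := by rw [Real.rpow_one]; ring
    _ = C * z ^ (-(7 / 8 : ℝ)) := by
        rw [← Real.rpow_add hz0]
        norm_num

/-- `h z - h (φ z)` is `o(z^(-k))` if `h' = O(z^(-k))` and `φ z - z → 0` -/
private theorem ab3_diff {h h' φ : ℝ → ℝ} {C : ℝ} {k : ℕ} (hC : 0 ≤ C)
    (hd : ∀ t, 1 ≤ t → HasDerivAt h (h' t) t) (hb : ∀ t, 1 ≤ t → |h' t| ≤ C / t ^ k)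
    (hφ : Tendsto (fun z => φ z - z) atTop (𝓝 0)) :
    Tendsto (fun z => z ^ k * (h z - h (φ z))) atTop (𝓝 0) := by
  have h1 : Tendsto (fun z => (2 ^ k * C) * |φ z - z|) atTop (𝓝 0) := by
    have := hφ.abs.const_mul (2 ^ k * C)
    rwa [abs_zero, mul_zero] at this
  refine squeeze_zero_norm' ?_ h1
  have h2 : ∀ᶠ z in atTop, |φ z - z| < 1 := by
    have := hφ.abs
    rw [abs_zero] at this
    exact this.eventually (eventually_lt_nhds one_pos)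
  filter_upwards [h2, eventually_ge_atTop (2 : ℝ)] with z hz hz2
  have hz0 : 0 < z := by linarith
  obtain ⟨hz3, hz4⟩ := abs_lt.1 hz
  have hseg : ∀ t ∈ uIcc z (φ z), z / 2 ≤ t ∧ 1 ≤ t := by
    intro t ht
    rw [mem_uIcc] at ht
    rcases ht with ht | ht
    · constructor <;> linarith [ht.1]
    · constructor <;> linarith [ht.1]
  have hbd : ∀ t ∈ uIcc z (φ z), ‖h' t‖ ≤ 2 ^ k * C / z ^ k := by
    intro t ht
    obtain ⟨ht1, ht2⟩ := hseg t ht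
    refine (hb t ht2).trans ?_
    have h3 : (z / 2) ^ k ≤ t ^ k := pow_le_pow_left₀ (by linarith) ht1 k
    calc C / t ^ k ≤ C / (z / 2) ^ k := div_le_div_of_nonneg_left hC (by positivity) h3
      _ = 2 ^ k * C / z ^ k := by
          rw [div_pow]
          field_simp
  have h4 := (convex_uIcc z (φ z)).norm_image_sub_le_of_norm_hasDerivWithin_le
    (f := h) (f' := h') (C := 2 ^ k * C / z ^ k)
    (fun t ht => (hd t (hseg t ht).2).hasDerivWithinAt) hbd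
    (left_mem_uIcc) (right_mem_uIcc)
  rw [Real.norm_eq_abs, Real.norm_eq_abs] at h4
  rw [norm_mul, Real.norm_eq_abs, Real.norm_eq_abs, abs_of_pos (by positivity), abs_sub_comm (h z)]
  calc z ^ k * |h (φ z) - h z| ≤ z ^ k * (2 ^ k * C / z ^ k * |φ z - z|) :=
        mul_le_mul_of_nonneg_left h4 (by positivity)
    _ = (2 ^ k * C) * |φ z - z| := by field_simp

private theorem ab3_large {w f : ℝ → ℝ} (hw : Wb w) (hf : AbH w f) : ∀ᶠ z in atTop, z ≤ f z := by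
  obtain ⟨C, R, hC0, hR, hC⟩ := hf.ex
  have h1 : Tendsto (fun z : ℝ => |w z| + C * z ^ (-(3 / 2 : ℝ))) atTop (𝓝 0) := by
    have h2 := (tendsto_rpow_neg_atTop (show (0 : ℝ) < 3 / 2 by norm_num)).const_mul C
    have h3 := (ab3_w_lim hw).abs.add h2
    rwa [abs_zero, mul_zero, add_zero] at h3
  filter_upwards [h1.eventually (eventually_lt_nhds one_pos), eventually_ge_atTop R] with z h2 h3
  have h4 := (abs_le.1 (hC z h3).2.1).1
  have h5 := neg_abs_le (w z)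
  linarith

/-- `φ = Ψ_g⁻¹ ∘ (Ψ_f + const)`, `const = lim (W₁ - W₂)`. Asymptotics:
`φ - W₂ φ = z - W₁ z + const + o(1)` gives `φ - z → 0`;
`φ' = Ψ_f' / Ψ_g'(φ)`, `z (φ' - 1) → 0` because `z (w₁ z - w₂ z) → 0` and
`z (w₂ (φ z) - w₂ z) → 0`; the same for `φ''`. -/
theorem conj_at_top {w₁ w₂ f g : ℝ → ℝ} (hw₁ : Wb w₁) (hw₂ : Wb w₂) (hf : AbH w₁ f)
    (hg : AbH w₂ g) (h0 : Tendsto (fun z => z * (w₁ z - w₂ z)) atTop (𝓝 0))
    (h1 : Tendsto (fun z => z ^ 2 * (deriv w₁ z - deriv w₂ z)) atTop (𝓝 0))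
    (hI : ∃ L, Tendsto (fun Z => ∫ t in (1 : ℝ)..Z, (w₁ t - w₂ t)) atTop (𝓝 L)) :
    ∃ φ : ℝ → ℝ, (∀ᶠ z in atTop, ContDiffAt ℝ 2 φ z) ∧ (∀ᶠ z in atTop, φ (f z) = g (φ z)) ∧
      Tendsto (fun z => φ z - z) atTop (𝓝 0) ∧
      Tendsto (fun z => z * (deriv φ z - 1)) atTop (𝓝 0) ∧
      Tendsto (fun z => z ^ 2 * deriv (deriv φ) z) atTop (𝓝 0) := by
  obtain ⟨L, hL⟩ := hI
  obtain ⟨W₁, hW₁⟩ : ∃ W₁ : ℝ → ℝ, W₁ = fun Z => ∫ t in (1 : ℝ)..Z, w₁ t := ⟨_, rfl⟩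
  obtain ⟨W₂, hW₂⟩ : ∃ W₂ : ℝ → ℝ, W₂ = fun Z => ∫ t in (1 : ℝ)..Z, w₂ t := ⟨_, rfl⟩
  have dW₁ : ∀ z, 1 ≤ z → HasDerivAt W₁ (w₁ z) z := by
    rw [hW₁]
    exact ab3_primitive hw₁
  have dW₂ : ∀ z, 1 ≤ z → HasDerivAt W₂ (w₂ z) z := by
    rw [hW₂]
    exact ab3_primitive hw₂
  have hint : ∀ w : ℝ → ℝ, Wb w → ∀ z, 1 ≤ z → IntervalIntegrable w MeasureTheory.volume 1 z :=
    fun w hw z hz => ContinuousOn.intervalIntegrable fun t ht => by
      rw [uIcc_of_le hz] at ht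
      exact (hw.contDiff t ht.1).continuousAt.continuousWithinAt
  have hLW : Tendsto (fun z => W₁ z - W₂ z) atTop (𝓝 L) := by
    refine hL.congr' ?_
    filter_upwards [eventually_ge_atTop (1 : ℝ)] with z hz
    rw [hW₁, hW₂]
    exact intervalIntegral.integral_sub (hint w₁ hw₁ z hz) (hint w₂ hw₂ z hz)
  obtain ⟨Ψ₁, R₁, hR₁, c₁, e₁, a₁, b₁, g₁⟩ := abel hw₁ hf dW₁
  obtain ⟨Ψ₂, R₂, hR₂, c₂, e₂, a₂, b₂, g₂⟩ := abel hw₂ hg dW₂
  -- `Ψᵢ' → 1`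
  have lim1 : ∀ (w Ψ : ℝ → ℝ), Wb w → Tendsto (fun z => z * (deriv Ψ z - 1 + w z)) atTop (𝓝 0) →
      Tendsto (deriv Ψ) atTop (𝓝 1) := by
    intro w Ψ hw hb
    have h2 : Tendsto (fun z => z⁻¹ * (z * (deriv Ψ z - 1 + w z)) + (1 - w z)) atTop
        (𝓝 (0 * 0 + (1 - 0))) :=
      (tendsto_inv_atTop_zero.mul hb).add ((ab3_w_lim hw).const_sub 1)
    rw [zero_mul, zero_add, sub_zero] at h2
    refine h2.congr' ?_
    filter_upwards [eventually_gt_atTop (0 : ℝ)] with z hz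
    have hz' := hz.ne'
    field_simp
    ring
  have l₁ := lim1 w₁ Ψ₁ hw₁ b₁
  have l₂ := lim1 w₂ Ψ₂ hw₂ b₂
  -- the region
  have hhalf : ∀ᶠ z in atTop, 1 / 2 ≤ deriv Ψ₂ z :=
    (l₂.eventually (lt_mem_nhds (show (1 / 2 : ℝ) < 1 by norm_num))).mono fun z hz => hz.le
  obtain ⟨R₃, hR₃⟩ := eventually_atTop.1 hhalf
  obtain ⟨R, hR⟩ : ∃ R, R = max (max R₁ R₂) R₃ := ⟨_, rfl⟩
  have hRR₁ : R₁ ≤ R := by rw [hR]; exact (le_max_left _ _).trans (le_max_left _ _)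
  have hRR₂ : R₂ ≤ R := by rw [hR]; exact (le_max_right _ _).trans (le_max_left _ _)
  have hRR₃ : R₃ ≤ R := by rw [hR]; exact le_max_right _ _
  have hR1 : 1 ≤ R := hR₁.trans hRR₁
  have D₁ : ab3_D (Ioi R) Ψ₁ (deriv Ψ₁) (deriv (deriv Ψ₁)) :=
    ab3_D_of fun z hz => c₁ z (lt_of_le_of_lt hRR₁ hz)
  have D₂ : ab3_D (Ioi R) Ψ₂ (deriv Ψ₂) (deriv (deriv Ψ₂)) :=
    ab3_D_of fun z hz => c₂ z (lt_of_le_of_lt hRR₂ hz)
  have hd₂ : ∀ z ∈ Ioi R, 1 / 2 ≤ deriv Ψ₂ z := fun z hz => hR₃ z (hRR₃.trans (le_of_lt hz))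
  obtain ⟨Φ, hΦ, DΦ⟩ := ab3_inverse D₂ hd₂
  -- `Ψ₁ → ∞`
  have hΨ₁top : Tendsto Ψ₁ atTop atTop := by
    have hhalf1 : ∀ᶠ z in atTop, 1 / 2 ≤ deriv Ψ₁ z :=
      (l₁.eventually (lt_mem_nhds (show (1 / 2 : ℝ) < 1 by norm_num))).mono fun z hz => hz.le
    obtain ⟨R₄, hR₄⟩ := eventually_atTop.1 hhalf1
    obtain ⟨R₅, hR₅⟩ : ∃ R₅, R₅ = max R R₄ := ⟨_, rfl⟩
    have D₁' : ab3_D (Ioi R₅) Ψ₁ (deriv Ψ₁) (deriv (deriv Ψ₁)) :=
      D₁.mono (Ioi_subset_Ioi (by rw [hR₅]; exact le_max_left _ _))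
    have hd₁ : ∀ z ∈ Ioi R₅, 1 / 2 ≤ deriv Ψ₁ z := fun z hz =>
      hR₄ z ((le_max_right _ _).trans (by rw [← hR₅]; exact le_of_lt hz))
    have h2 : Tendsto (fun z => 1 / 2 * (z - (R₅ + 1)) + Ψ₁ (R₅ + 1)) atTop atTop :=
      tendsto_atTop_add_const_right _ _
        ((tendsto_atTop_add_const_right _ _ tendsto_id).const_mul_atTop (by norm_num))
    refine tendsto_atTop_mono' _ ?_ h2
    filter_upwards [eventually_ge_atTop (R₅ + 1)] with z hz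
    have h3 := ab3_lower D₁' hd₁ (show R₅ < R₅ + 1 by linarith) hz
    linarith
  have hbig : ∀ᶠ z in atTop, R < z ∧ Ψ₂ (R + 1) < Ψ₁ z + L := by
    have h2 : Tendsto (fun z => Ψ₁ z + L) atTop atTop := tendsto_atTop_add_const_right _ _ hΨ₁top
    exact (eventually_gt_atTop R).and (h2.eventually (eventually_gt_atTop _))
  obtain ⟨R', hR'⟩ := eventually_atTop.1 hbig
  obtain ⟨φ, hφ⟩ : ∃ φ : ℝ → ℝ, φ = fun z => Φ (Ψ₁ z + L) := ⟨_, rfl⟩
  have hφ1 : ∀ z, R' ≤ z → R + 1 < φ z ∧ Ψ₂ (φ z) = Ψ₁ z + L := fun z hz => by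
    rw [hφ]
    exact hΦ _ (hR' z hz).2
  have Dφ : ab3_D (Ioi R') φ (fun z => (deriv Ψ₂ (φ z))⁻¹ * deriv Ψ₁ z)
      (fun z => -deriv (deriv Ψ₂) (φ z) * (deriv Ψ₂ (φ z))⁻¹ ^ 3 * deriv Ψ₁ z ^ 2 +
        (deriv Ψ₂ (φ z))⁻¹ * deriv (deriv Ψ₁) z) := by
    have D₁' : ab3_D (Ioi R') (fun z => Ψ₁ z + L) (deriv Ψ₁) (deriv (deriv Ψ₁)) := by
      have h2 : ab3_D (Ioi R') Ψ₁ (deriv Ψ₁) (deriv (deriv Ψ₁)) :=
        D₁.mono fun z hz => (hR' z (le_of_lt hz)).1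
      exact ⟨fun z hz => (h2.d1 z hz).add_const L, h2.d2, h2.c⟩
    rw [hφ]
    exact DΦ.comp D₁' fun z hz => (hR' z (le_of_lt hz)).2
  -- `φ z - z → 0`
  have hφ0 : Tendsto (fun z => φ z - z) atTop (𝓝 0) := by
    have h2 : Tendsto (fun z => (Ψ₁ z - (z - W₁ z)) - (Ψ₂ z - (z - W₂ z)) + (L - (W₁ z - W₂ z)))
        atTop (𝓝 (0 - 0 + (L - L))) := (a₁.sub a₂).add (hLW.const_sub L)
    rw [sub_self, sub_self, add_zero] at h2
    have h3 := h2.abs.const_mul 2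
    rw [abs_zero, mul_zero] at h3
    refine squeeze_zero_norm' ?_ h3
    filter_upwards [eventually_ge_atTop R', eventually_gt_atTop R] with z hz hzR
    obtain ⟨h4, h5⟩ := hφ1 z hz
    have h6 := ab3_lower' D₂ hd₂ hzR (show R < φ z by linarith)
    rw [h5] at h6
    rw [Real.norm_eq_abs]
    have e : Ψ₁ z - (z - W₁ z) - (Ψ₂ z - (z - W₂ z)) + (L - (W₁ z - W₂ z)) =
        Ψ₁ z + L - Ψ₂ z := by ring
    rw [e]
    exact h6
  have hφtop : Tendsto φ atTop atTop := by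
    have h2 : Tendsto (fun z => z + (φ z - z)) atTop atTop := tendsto_id.atTop_add hφ0
    refine h2.congr fun z => ?_
    ring
  have hquot : Tendsto (fun z => z / φ z) atTop (𝓝 1) := by
    have h2 : Tendsto (fun z => 1 + (φ z - z) * z⁻¹) atTop (𝓝 (1 + 0 * 0)) :=
      (hφ0.mul tendsto_inv_atTop_zero).const_add 1
    rw [mul_zero, add_zero] at h2
    have h3 := h2.inv₀ one_ne_zero
    rw [inv_one] at h3
    refine h3.congr' ?_
    filter_upwards [eventually_gt_atTop (0 : ℝ), hφtop.eventually_gt_atTop 0] with z hz hz2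
    have e : 1 + (φ z - z) * z⁻¹ = φ z / z := by
      field_simp
      ring
    rw [e, inv_div]
  -- the difference of the `w`
  obtain ⟨C, hC0, hC⟩ := hw₂.bd
  have p0 : Tendsto (fun z => z * (w₂ z - w₂ (φ z))) atTop (𝓝 0) := by
    have hp : ∀ t, 1 ≤ t → |deriv w₂ t| ≤ C / t ^ 1 := fun t ht => by
      have h3 : t ^ (-(15 / 8 : ℝ)) ≤ t ^ (-1 : ℝ) :=
        Real.rpow_le_rpow_of_exponent_le ht (by norm_num)
      rw [div_eq_mul_inv, pow_one, ← Real.rpow_neg_one]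
      exact (hC t ht).2.1.trans (mul_le_mul_of_nonneg_left h3 hC0)
    have h2 := ab3_diff (k := 1) (h := w₂) (h' := deriv w₂) hC0
      (fun t ht => ((hw₂.contDiff t ht).differentiableAt (by norm_num)).hasDerivAt) hp hφ0
    simpa using h2
  have p1 : Tendsto (fun z => z ^ 2 * (deriv w₂ z - deriv w₂ (φ z))) atTop (𝓝 0) :=
    ab3_diff (k := 2) (h := deriv w₂) (h' := deriv (deriv w₂)) hC0
      (fun t ht => by
        have h2 : ContDiffAt ℝ 2 (deriv w₂) t := ab3_cd_deriv (hw₂.contDiff t ht) (by norm_num)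
        exact (h2.differentiableAt (by norm_num)).hasDerivAt)
      (fun t ht => (hC t ht).2.2.1.trans (by
        have ht0 : 0 < t := by linarith
        have e : (C : ℝ) / t ^ 2 = C * t ^ (-2 : ℝ) := by
          rw [Real.rpow_neg ht0.le, div_eq_mul_inv]
          norm_num
        rw [e]
        exact mul_le_mul_of_nonneg_left (Real.rpow_le_rpow_of_exponent_le ht (by norm_num)) hC0)) hφ0
  have l₂φ : Tendsto (fun z => deriv Ψ₂ (φ z)) atTop (𝓝 1) := l₂.comp hφtop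
  have b₂φ : Tendsto (fun z => φ z * (deriv Ψ₂ (φ z) - 1 + w₂ (φ z))) atTop (𝓝 0) := b₂.comp hφtop
  have g₂φ : Tendsto (fun z => φ z ^ 2 * (deriv (deriv Ψ₂) (φ z) + deriv w₂ (φ z))) atTop (𝓝 0) :=
    g₂.comp hφtop
  have v₂φ : Tendsto (fun z => φ z * deriv w₂ (φ z)) atTop (𝓝 0) := (ab3_w1_lim hw₂).comp hφtop
  have l₂i : Tendsto (fun z => (deriv Ψ₂ (φ z))⁻¹) atTop (𝓝 1) := by
    have := l₂φ.inv₀ one_ne_zero
    rwa [inv_one] at this
  -- first derivative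
  obtain ⟨φ', hφ'⟩ : ∃ φ' : ℝ → ℝ, φ' = fun z => (deriv Ψ₂ (φ z))⁻¹ * deriv Ψ₁ z := ⟨_, rfl⟩
  have q1 : Tendsto (fun z => z * (φ' z - 1)) atTop (𝓝 0) := by
    have h2 : Tendsto (fun z => (deriv Ψ₂ (φ z))⁻¹ * (z * (deriv Ψ₁ z - 1 + w₁ z) -
        (z / φ z) * (φ z * (deriv Ψ₂ (φ z) - 1 + w₂ (φ z))) - z * (w₁ z - w₂ z) -
        z * (w₂ z - w₂ (φ z)))) atTop (𝓝 (1 * (0 - 1 * 0 - 0 - 0))) :=
      l₂i.mul (((b₁.sub (hquot.mul b₂φ)).sub h0).sub p0)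
    rw [show (1 : ℝ) * (0 - 1 * 0 - 0 - 0) = 0 by norm_num] at h2
    refine h2.congr' ?_
    filter_upwards [hφtop.eventually_gt_atTop 0, eventually_ge_atTop R'] with z hz hz2
    have h3 : 0 < deriv Ψ₂ (φ z) := by
      have := hd₂ (φ z) (mem_Ioi.2 (by linarith [(hφ1 z hz2).1]))
      linarith
    rw [hφ']
    have hz' := hz.ne'
    have h3' := h3.ne'
    simp only
    field_simp
    ring
  have r1 : Tendsto φ' atTop (𝓝 1) := by
    rw [hφ']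
    have := l₂i.mul l₁
    rwa [one_mul] at this
  -- second derivative
  have q2 : Tendsto (fun z => z ^ 2 * (-deriv (deriv Ψ₂) (φ z) * (deriv Ψ₂ (φ z))⁻¹ ^ 3 *
      deriv Ψ₁ z ^ 2 + (deriv Ψ₂ (φ z))⁻¹ * deriv (deriv Ψ₁) z)) atTop (𝓝 0) := by
    have h2 : Tendsto (fun z => (deriv Ψ₂ (φ z))⁻¹ * (z ^ 2 * (deriv (deriv Ψ₁) z + deriv w₁ z) -
        (z / φ z) ^ 2 * φ' z ^ 2 * (φ z ^ 2 * (deriv (deriv Ψ₂) (φ z) + deriv w₂ (φ z))) -
        z ^ 2 * (deriv w₁ z - deriv w₂ z) - z ^ 2 * (deriv w₂ z - deriv w₂ (φ z)) +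
        (z / φ z) * (φ z * deriv w₂ (φ z)) * (z * (φ' z - 1)) * (φ' z + 1))) atTop
        (𝓝 (1 * (0 - 1 ^ 2 * 1 ^ 2 * 0 - 0 - 0 + 1 * 0 * 0 * (1 + 1)))) :=
      l₂i.mul ((((g₁.sub (((hquot.pow 2).mul (r1.pow 2)).mul g₂φ)).sub h1).sub p1).add
        (((hquot.mul v₂φ).mul q1).mul (r1.add_const 1)))
    rw [show (1 : ℝ) * (0 - 1 ^ 2 * 1 ^ 2 * 0 - 0 - 0 + 1 * 0 * 0 * (1 + 1)) = 0 by norm_num] at h2
    refine h2.congr' ?_
    filter_upwards [hφtop.eventually_gt_atTop 0, eventually_ge_atTop R'] with z hz hz2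
    have h3 : 0 < deriv Ψ₂ (φ z) := by
      have := hd₂ (φ z) (mem_Ioi.2 (by linarith [(hφ1 z hz2).1]))
      linarith
    rw [hφ']
    have hz' := hz.ne'
    have h3' := h3.ne'
    simp only
    field_simp
    ring
  refine ⟨φ, ?_, ?_, hφ0, ?_, ?_⟩
  · filter_upwards [eventually_gt_atTop R'] with z hz
    exact Dφ.contDiffAt isOpen_Ioi hz
  · have hgφ : ∀ᶠ z in atTop, φ z ≤ g (φ z) := hφtop.eventually (ab3_large hw₂ hg)
    filter_upwards [hgφ, ab3_large hw₁ hf, eventually_ge_atTop R', eventually_gt_atTop R] with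
      z h2 h3 h4 h5
    obtain ⟨h6, h7⟩ := hφ1 z h4
    obtain ⟨h8, h9⟩ := hφ1 (f z) (h4.trans h3)
    have h10 := (e₁ z (lt_of_le_of_lt hRR₁ h5)).2
    have h11 := (e₂ (φ z) (by linarith)).2
    have h12 : Ψ₂ (φ (f z)) = Ψ₂ (g (φ z)) := by
      rw [h9, h11, h10, h7]
      ring
    have h13 := ab3_lower' D₂ hd₂ (show R < g (φ z) by linarith) (show R < φ (f z) by linarith)
    rw [h12, sub_self, abs_zero, mul_zero] at h13
    have h14 := abs_nonpos_iff.1 h13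
    linarith
  · refine q1.congr' ?_
    filter_upwards [eventually_gt_atTop R'] with z hz
    rw [Dφ.deriv_eq hz, hφ']
  · refine q2.congr' ?_
    filter_upwards [eventually_gt_atTop R'] with z hz
    rw [Dφ.deriv_eq2 isOpen_Ioi hz]

end GD31
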