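import Pool.Agent.LibGD31.EX2

/-! # EX3: the class Cl -/

open Filter Topology Set

namespace GD31

/-- The class `Cl c d`: permutations `z + c + d w + ρ`, `ρ ∈ Ob 5 (3/2)`, increasing. -/
structure Cl (w : ℝ → ℝ) (c d : ℝ) (F : Pm) : Prop where
  pos : ∀ x, 0 < deriv F x
  ob : Ob 5 (3 / 2) (fun z => F z - z - c - d * w z)

private theorem ex3_zero : Ob 5 (3 / 2) (fun _ => (0 : ℝ)) :=
  Ob.of_compact 5 (3 / 2) contDiff_const HasCompactSupport.zero

/-- the displacement of a permutation of the class -/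
private theorem ex3_disp {w : ℝ → ℝ} (hw : Prof w) {c d : ℝ} {F : Pm} (hF : Cl w c d F) :
    Ob 5 0 (fun z => F z - z) := by
  have h1 : Ob 5 0 (fun z => F z - z - c - d * w z) := hF.ob.mono le_rfl (by norm_num)
  have h2 : Ob 5 0 (fun z => d * w z) :=
    (hw.ob.const_mul d).mono (by norm_num) (by norm_num)
  have h3 := (h1.add h2).add (Ob.const 5 c)
  have h4 : (fun z => F z - z) = fun z => F z - z - c - d * w z + d * w z + c := by
    funext z; ring
  rw [h4]
  exact h3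

theorem Cl.one {w : ℝ → ℝ} : Cl w 0 0 (1 : Pm) := by
  refine ⟨fun x => ?_, ?_⟩
  · have h1 : ((1 : Pm) : ℝ → ℝ) = fun z => z := by
      funext z; rfl
    rw [h1, deriv_id'']
    exact one_pos
  · have h1 : (fun z : ℝ => (1 : Pm) z - z - 0 - 0 * w z) = fun _ => (0 : ℝ) := by
      funext z
      rw [Equiv.Perm.one_apply]
      ring
    rw [h1]
    exact ex3_zero

theorem Cl.mul {w : ℝ → ℝ} (hw : Prof w) {c d c' d' : ℝ} {F G : Pm} (hF : Cl w c d F)
    (hG : Cl w c' d' G) : Cl w (c + c') (d + d') (F * G) := by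
  have hg : Ob 5 0 (fun z => G z - z) := ex3_disp hw hG
  refine ⟨fun x => ?_, ?_⟩
  · have h1 : HasDerivAt G (deriv G x) x :=
      (differentiableAt_of_deriv_ne_zero (hG.pos x).ne').hasDerivAt
    have h2 : HasDerivAt F (deriv F (G x)) (G x) :=
      (differentiableAt_of_deriv_ne_zero (hF.pos (G x)).ne').hasDerivAt
    have h3 := (h2.comp x h1).deriv
    have h4 : ((F * G : Pm) : ℝ → ℝ) = F ∘ G := by
      funext z; rfl
    rw [h4, h3]
    exact mul_pos (hF.pos _) (hG.pos _)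
  · have h1 : Ob 5 (3 / 2) (fun z => w (z + (G z - z)) - w z) :=
      (Ob.diff (k := 5) (hw.ob.mono (by norm_num) le_rfl) hg le_rfl).mono le_rfl (by norm_num)
    have h2 : Ob 5 (3 / 2) (fun z => F (z + (G z - z)) - (z + (G z - z)) - c -
        d * w (z + (G z - z))) := hF.ob.comp_id_add hg
    have h3 := (hG.ob.add (h1.const_mul d)).add h2
    have h4 : (fun z => (F * G) z - z - (c + c') - (d + d') * w z) = fun z =>
        G z - z - c' - d' * w z + d * (w (z + (G z - z)) - w z) +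
          (F (z + (G z - z)) - (z + (G z - z)) - c - d * w (z + (G z - z))) := by
      funext z
      rw [Equiv.Perm.mul_apply, add_sub_cancel]
      ring
    rw [h4]
    exact h3

theorem Cl.pow {w : ℝ → ℝ} (hw : Prof w) {c d : ℝ} {F : Pm} (hF : Cl w c d F) (n : ℕ) :
    Cl w (n * c) (n * d) (F ^ n) := by
  induction n with
  | zero =>
    rw [Nat.cast_zero, zero_mul, zero_mul, pow_zero]
    exact Cl.one
  | succ n ih =>
    have h1 := ih.mul hw hF
    rw [pow_succ, Nat.cast_succ, add_mul, add_mul, one_mul, one_mul]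
    exact h1

theorem Cl.inv {w : ℝ → ℝ} (hw : Prof w) {c d : ℝ} {F : Pm} (hF : Cl w c d F) :
    Cl w (-c) (-d) F⁻¹ := by
  have hg : Ob 5 0 (fun z => F⁻¹ z - z) := Ob.inv (ex3_disp hw hF) hF.pos
  have hd : Differentiable ℝ (F⁻¹ : Pm) := by
    have h1 : Differentiable ℝ (fun z => F⁻¹ z - z) := hg.smooth.differentiable (by norm_num)
    have h2 : ((F⁻¹ : Pm) : ℝ → ℝ) = fun z => F⁻¹ z - z + z := by
      funext z; ring
    rw [h2]
    exact h1.add differentiable_id
  refine ⟨fun x => ?_, ?_⟩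
  · have h1 : HasDerivAt (F⁻¹ : Pm) (deriv (F⁻¹ : Pm) x) x := (hd x).hasDerivAt
    have h2 : HasDerivAt F (deriv F (F⁻¹ x)) (F⁻¹ x) :=
      (differentiableAt_of_deriv_ne_zero (hF.pos _).ne').hasDerivAt
    have h3 := (h2.comp x h1).deriv
    have h4 : (F ∘ (F⁻¹ : Pm) : ℝ → ℝ) = fun z => z := by
      funext z
      exact F.apply_symm_apply z
    rw [h4, deriv_id''] at h3
    have h5 := hF.pos (F⁻¹ x)
    by_contra h6
    push Not at h6
    have h7 := mul_nonpos_of_nonneg_of_nonpos h5.le h6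
    rw [← h3] at h7
    linarith
  · have h1 : Ob 5 (3 / 2) (fun z => w (z + (F⁻¹ z - z)) - w z) :=
      (Ob.diff (k := 5) (hw.ob.mono (by norm_num) le_rfl) hg le_rfl).mono le_rfl (by norm_num)
    have h2 : Ob 5 (3 / 2) (fun z => F (z + (F⁻¹ z - z)) - (z + (F⁻¹ z - z)) - c -
        d * w (z + (F⁻¹ z - z))) := hF.ob.comp_id_add hg
    have h3 := (h1.const_mul (-d)).sub h2
    have h4 : (fun z => F⁻¹ z - z - -c - -d * w z) = fun z =>
        -d * (w (z + (F⁻¹ z - z)) - w z) -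
          (F (z + (F⁻¹ z - z)) - (z + (F⁻¹ z - z)) - c - d * w (z + (F⁻¹ z - z))) := by
      funext z
      have e : F (F⁻¹ z) = z := F.apply_symm_apply z
      rw [add_sub_cancel, e]
      ring
    rw [h4]
    exact h3

private theorem ex3_outer {w : ℝ → ℝ} (hw : Prof w) :
    Ob 7 (15 / 8) (fun z => Pf (-(deriv w z)) - 1) := by
  have h1 : Ob 7 (15 / 8) (fun z => -1 * deriv w z) := by
    have h2 := (Ob.derivative (k := 7) hw.ob).const_mul (-1)
    have h3 : (7 / 8 + 1 : ℝ) = 15 / 8 := by norm_num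
    rwa [h3] at h2
  have h2 := Ob.outer Pf_smooth h1 (by norm_num)
  have h3 : Pf 0 = 1 := by simp [Pf]
  rw [h3] at h2
  simpa only [neg_mul, one_mul] using h2

/-- `Pf (-w') - 1 ∈ Ob 7 (15/8)` by `Ob.outer` and `Ob.derivative` -/
theorem Cl.B {w : ℝ → ℝ} (hw : Prof w) : Cl w 1 0 (Bp w) := by
  refine ⟨Bp_deriv_pos hw, ?_⟩
  have h1 := (ex3_outer hw).mono (k' := 5) (p' := 3 / 2) (by norm_num) (by norm_num)
  have h2 : (fun z => Bp w z - z - 1 - 0 * w z) = fun z => Pf (-(deriv w z)) - 1 := by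
    funext z
    rw [Bp_apply hw]
    ring
  rw [h2]
  exact h1

theorem Cl.F {w : ℝ → ℝ} (hw : Prof w) : Cl w 0 1 (Fp w) := by
  refine ⟨Fp_deriv_pos hw, ?_⟩
  have h1 := ((hw.ob.mono (k' := 7) (by norm_num) le_rfl).mul (ex3_outer hw)).mono
    (k' := 5) (p' := 3 / 2) (by norm_num) (by norm_num)
  have h2 : (fun z => Fp w z - z - 0 - 1 * w z) = fun z => w z * (Pf (-(deriv w z)) - 1) := by
    funext z
    rw [Fp_apply hw]
    ring
  rw [h2]
  exact h1

end GD31
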