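import Pool.Agent.LibGD31.Defs
import Pool.Agent.LibGermDist46.Defs

/-! # GI1: from germs at infinity to germs at `0` -/

open Filter Topology Set

namespace GD31

open GermDist46

/-- `F` is a `C²` germ at infinity: `F z = l z + c + o(1)`, `z (F' - l) → 0`, `z² F'' → 0`,
`l ≠ 0`, `C²` near infinity. -/
structure GInf (l c : ℝ) (F : ℝ → ℝ) : Prop where
  ne : l ≠ 0
  contDiff : ∀ᶠ z in cocompact ℝ, ContDiffAt ℝ 2 F z
  f0 : Tendsto (fun z => F z - l * z - c) (cocompact ℝ) (𝓝 0)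
  f1 : Tendsto (fun z => z * (deriv F z - l)) (cocompact ℝ) (𝓝 0)
  f2 : Tendsto (fun z => z ^ 2 * deriv (deriv F) z) (cocompact ℝ) (𝓝 0)

/-- the change of variable `x = 1/z` -/
noncomputable def cv (F : ℝ → ℝ) (x : ℝ) : ℝ := if x = 0 then 0 else (F x⁻¹)⁻¹

private theorem gi1_hasDerivAt {f : ℝ → ℝ} {m r : ℝ} (hr : 0 < r)
    (h1 : ∀ x, x ≠ 0 → |x| < r → DifferentiableAt ℝ f x) (h2 : ContinuousAt f 0)
    (h3 : Tendsto (deriv f) (𝓝[≠] 0) (𝓝 m)) : HasDerivAt f m 0 := by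
  have hR : HasDerivWithinAt f m (Ici 0) 0 := by
    apply hasDerivWithinAt_Ici_of_tendsto_deriv (s := Ioo 0 r)
    · intro x hx
      exact (h1 x hx.1.ne' (by rw [abs_of_pos hx.1]; exact hx.2)).differentiableWithinAt
    · exact h2.continuousWithinAt
    · exact Ioo_mem_nhdsGT hr
    · exact h3.mono_left (nhdsWithin_mono _ (fun x hx => ne_of_gt hx))
  have hL : HasDerivWithinAt f m (Iic 0) 0 := by
    apply hasDerivWithinAt_Iic_of_tendsto_deriv (s := Ioo (-r) 0)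
    · intro x hx
      exact (h1 x hx.2.ne (by rw [abs_of_neg hx.2]; linarith [hx.1])).differentiableWithinAt
    · exact h2.continuousWithinAt
    · exact Ioo_mem_nhdsLT (by linarith)
    · exact h3.mono_left (nhdsWithin_mono _ (fun x hx => ne_of_lt hx))
  have := hL.union hR
  rwa [Iic_union_Ici, hasDerivWithinAt_univ] at this

private theorem gi1_deriv_contDiffAt {f : ℝ → ℝ} {x : ℝ} (h : ContDiffAt ℝ 2 f x) :
    ContDiffAt ℝ 1 (deriv f) x := by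
  have h1 : ContDiffAt ℝ 1 (fderiv ℝ f) x := h.fderiv_right (by norm_num)
  exact h1.clm_apply contDiffAt_const

private theorem gi1_deriv2_continuousAt {f : ℝ → ℝ} {x : ℝ} (h : ContDiffAt ℝ 2 f x) :
    ContinuousAt (deriv (deriv f)) x := by
  have h1 : ContDiffAt ℝ 0 (fderiv ℝ (deriv f)) x :=
    (gi1_deriv_contDiffAt h).fderiv_right (by norm_num)
  have h2 : ContDiffAt ℝ 0 (deriv (deriv f)) x := h1.clm_apply contDiffAt_const
  exact h2.continuousAt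

private theorem gi1_contDiffAt {f : ℝ → ℝ} {m m' r : ℝ} (hr : 0 < r)
    (h1 : ∀ x, x ≠ 0 → |x| < r → ContDiffAt ℝ 2 f x) (h2 : ContinuousAt f 0)
    (h3 : Tendsto (deriv f) (𝓝[≠] 0) (𝓝 m))
    (h4 : Tendsto (deriv (deriv f)) (𝓝[≠] 0) (𝓝 m')) :
    ContDiffAt ℝ 2 f 0 ∧ HasDerivAt f m 0 := by
  have hf : HasDerivAt f m 0 := gi1_hasDerivAt hr
    (fun x hx hxr => (h1 x hx hxr).differentiableAt (by norm_num)) h2 h3
  refine ⟨?_, hf⟩
  have hg0 : ContinuousAt (deriv f) 0 := by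
    rw [continuousAt_iff_punctured_nhds, hf.deriv]
    exact h3
  have hg : HasDerivAt (deriv f) m' 0 := gi1_hasDerivAt hr
    (fun x hx hxr => (gi1_deriv_contDiffAt (h1 x hx hxr)).differentiableAt (by norm_num)) hg0 h4
  have hh0 : ContinuousAt (deriv (deriv f)) 0 := by
    rw [continuousAt_iff_punctured_nhds, hg.deriv]
    exact h4
  have hU : IsOpen (Ioo (-r) r) := isOpen_Ioo
  have hc : ContDiffOn ℝ 2 f (Ioo (-r) r) := by
    have e2 : (2 : WithTop ℕ∞) = 1 + 1 := by norm_num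
    have e1 : (1 : WithTop ℕ∞) = 0 + 1 := by norm_num
    rw [e2, contDiffOn_succ_iff_deriv_of_isOpen hU]
    refine ⟨?_, by simp, ?_⟩
    · intro x hx
      rcases eq_or_ne x 0 with rfl | hx0
      · exact hf.differentiableAt.differentiableWithinAt
      · exact ((h1 x hx0 (abs_lt.mpr hx)).differentiableAt (by norm_num)).differentiableWithinAt
    · rw [e1, contDiffOn_succ_iff_deriv_of_isOpen hU]
      refine ⟨?_, by simp, ?_⟩
      · intro x hx
        rcases eq_or_ne x 0 with rfl | hx0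
        · exact hg.differentiableAt.differentiableWithinAt
        · exact ((gi1_deriv_contDiffAt (h1 x hx0 (abs_lt.mpr hx))).differentiableAt
            (by norm_num)).differentiableWithinAt
      · rw [contDiffOn_zero]
        intro x hx
        rcases eq_or_ne x 0 with rfl | hx0
        · exact hh0.continuousWithinAt
        · exact (gi1_deriv2_continuousAt (h1 x hx0 (abs_lt.mpr hx))).continuousWithinAt
  exact hc.contDiffAt (Ioo_mem_nhds (by linarith) hr)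

/-- `f = cv F`, `f x = x / (l + c x + x ρ(1/x))`: for `x ≠ 0` near `0`
`f' = F'(z) / (x² F(z)²)` with `z = 1/x`, and `f''` by the chain rule; `f → 0`, `f' → 1/l`,
`f'' → -2 c / l²` as `x → 0`, `x ≠ 0` (write `F z = z (l + c/z + ρ/z)`); then `f` is `C²` at `0` by
the limit theorem for derivatives (`hasDerivAt_of_tendsto_deriv`-type lemmas), twice. -/
theorem GInf.cv_contDiffAt {l c : ℝ} {F : ℝ → ℝ} (h : GInf l c F) :
    ContDiffAt ℝ 2 (cv F) 0 ∧ HasDerivAt (cv F) l⁻¹ 0 := by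
  have hl := h.ne
  have hinv : Tendsto (fun x : ℝ => x⁻¹) (𝓝[≠] 0) (cocompact ℝ) := by
    rw [← Metric.cobounded_eq_cocompact]
    exact tendsto_inv₀_nhdsNE_zero
  have hid : Tendsto (fun x : ℝ => x) (𝓝[≠] 0) (𝓝 0) := tendsto_id.mono_left nhdsWithin_le_nhds
  have hne : ∀ᶠ x : ℝ in 𝓝[≠] 0, x ≠ 0 := self_mem_nhdsWithin
  have g0 := h.f0.comp hinv
  have g1 := h.f1.comp hinv
  have g2 := h.f2.comp hinv
  -- `x F(1/x) → l`
  have k0 : Tendsto (fun x : ℝ => x * F x⁻¹) (𝓝[≠] 0) (𝓝 l) := by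
    have : Tendsto (fun x : ℝ => l + c * x + x * (F x⁻¹ - l * x⁻¹ - c)) (𝓝[≠] 0)
        (𝓝 (l + c * 0 + 0 * 0)) :=
      (tendsto_const_nhds.add (hid.const_mul c)).add (hid.mul g0)
    have e : l + c * 0 + 0 * 0 = l := by ring
    rw [e] at this
    refine this.congr' ?_
    filter_upwards [hne] with x hx
    field_simp
    ring
  -- `F'(1/x) → l`
  have k1 : Tendsto (fun x : ℝ => deriv F x⁻¹) (𝓝[≠] 0) (𝓝 l) := by
    have : Tendsto (fun x : ℝ => l + x * (x⁻¹ * (deriv F x⁻¹ - l))) (𝓝[≠] 0)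
        (𝓝 (l + 0 * 0)) := tendsto_const_nhds.add (hid.mul g1)
    have e : l + 0 * 0 = l := by ring
    rw [e] at this
    refine this.congr' ?_
    filter_upwards [hne] with x hx
    field_simp
    ring
  -- `F - z F' → c`
  have k2 : Tendsto (fun x : ℝ => F x⁻¹ - x⁻¹ * deriv F x⁻¹) (𝓝[≠] 0) (𝓝 c) := by
    have : Tendsto (fun x : ℝ => (F x⁻¹ - l * x⁻¹ - c) + c - x⁻¹ * (deriv F x⁻¹ - l)) (𝓝[≠] 0)
        (𝓝 (0 + c - 0)) := (g0.add_const c).sub g1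
    have e : 0 + c - 0 = c := by ring
    rw [e] at this
    refine this.congr' ?_
    filter_upwards [hne] with x hx
    ring
  -- a good punctured neighbourhood
  obtain ⟨r, hr, hP⟩ : ∃ r > 0, ∀ x : ℝ, x ≠ 0 → |x| < r → ContDiffAt ℝ 2 F x⁻¹ ∧ F x⁻¹ ≠ 0 := by
    have e1 : ∀ᶠ x : ℝ in 𝓝[≠] 0, ContDiffAt ℝ 2 F x⁻¹ ∧ F x⁻¹ ≠ 0 := by
      filter_upwards [hinv.eventually h.contDiff, k0.eventually_ne hl] with x hx1 hx2
      exact ⟨hx1, fun h0 => hx2 (by rw [h0, mul_zero])⟩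
    rw [eventually_nhdsWithin_iff, Metric.eventually_nhds_iff] at e1
    obtain ⟨r, hr, hr'⟩ := e1
    exact ⟨r, hr, fun x hx hxr => hr' (by rwa [Real.dist_eq, sub_zero]) hx⟩
  have hev : ∀ x : ℝ, x ≠ 0 → cv F =ᶠ[𝓝 x] fun t => (F t⁻¹)⁻¹ := by
    intro x hx
    filter_upwards [isOpen_ne.mem_nhds hx] with t ht
    simp only [cv, if_neg ht]
  have hdF : ∀ x : ℝ, x ≠ 0 → |x| < r → HasDerivAt (fun t => F t⁻¹)
      (deriv F x⁻¹ * (-(x ^ 2)⁻¹)) x := by
    intro x hx hxr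
    have d1 : HasDerivAt F (deriv F x⁻¹) x⁻¹ :=
      ((hP x hx hxr).1.differentiableAt (by norm_num)).hasDerivAt
    exact d1.comp x (hasDerivAt_inv hx)
  have hdcv : ∀ x : ℝ, x ≠ 0 → |x| < r →
      deriv (cv F) x = deriv F x⁻¹ / (x * F x⁻¹) ^ 2 := by
    intro x hx hxr
    rw [(hev x hx).deriv_eq]
    have d2 := (hdF x hx hxr).inv (hP x hx hxr).2
    have d3 : deriv (fun t => (F t⁻¹)⁻¹) x = -(deriv F x⁻¹ * (-(x ^ 2)⁻¹)) / (F x⁻¹) ^ 2 := d2.deriv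
    rw [d3]
    have := (hP x hx hxr).2
    field_simp
  have hdcv2 : ∀ x : ℝ, x ≠ 0 → |x| < r →
      deriv (deriv (cv F)) x = -((x⁻¹) ^ 2 * deriv (deriv F) x⁻¹ / (x * F x⁻¹) ^ 2 +
        2 * deriv F x⁻¹ / (x * F x⁻¹) ^ 3 * (F x⁻¹ - x⁻¹ * deriv F x⁻¹)) := by
    intro x hx hxr
    have he : deriv (cv F) =ᶠ[𝓝 x] fun t => deriv F t⁻¹ / (t * F t⁻¹) ^ 2 := by
      have hopen : IsOpen {t : ℝ | t ≠ 0 ∧ |t| < r} :=
        isOpen_ne.inter (isOpen_lt continuous_abs continuous_const)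
      filter_upwards [hopen.mem_nhds ⟨hx, hxr⟩] with t ht
      exact hdcv t ht.1 ht.2
    rw [he.deriv_eq]
    have hF0 := (hP x hx hxr).2
    have hddF : HasDerivAt (fun t => deriv F t⁻¹) (deriv (deriv F) x⁻¹ * (-(x ^ 2)⁻¹)) x := by
      have d1 : HasDerivAt (deriv F) (deriv (deriv F) x⁻¹) x⁻¹ :=
        ((gi1_deriv_contDiffAt (hP x hx hxr).1).differentiableAt (by norm_num)).hasDerivAt
      exact d1.comp x (hasDerivAt_inv hx)
    have d4 : HasDerivAt (fun t : ℝ => t * F t⁻¹)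
        (1 * F x⁻¹ + x * (deriv F x⁻¹ * (-(x ^ 2)⁻¹))) x := (hasDerivAt_id x).mul (hdF x hx hxr)
    have d5 : HasDerivAt (fun t : ℝ => (t * F t⁻¹) ^ 2)
        (2 * (x * F x⁻¹) * (F x⁻¹ + x * (deriv F x⁻¹ * (-(x ^ 2)⁻¹)))) x := by
      refine HasDerivAt.congr_deriv (d4.pow 2) ?_
      norm_num
    have hne2 : (x * F x⁻¹) ^ 2 ≠ 0 := pow_ne_zero _ (mul_ne_zero hx hF0)
    have d6 := hddF.div d5 hne2
    have d7 : deriv (fun t => deriv F t⁻¹ / (t * F t⁻¹) ^ 2) x =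
        (deriv (deriv F) x⁻¹ * (-(x ^ 2)⁻¹) * (x * F x⁻¹) ^ 2 - deriv F x⁻¹ *
        (2 * (x * F x⁻¹) * (F x⁻¹ + x * (deriv F x⁻¹ * (-(x ^ 2)⁻¹))))) /
        ((x * F x⁻¹) ^ 2) ^ 2 := d6.deriv
    rw [d7]
    clear d6 d7 d5 d4 hddF hdcv he hdF hev g0 g1 g2 k0 k1 k2 hinv hP
    generalize F x⁻¹ = A at *
    generalize deriv F x⁻¹ = B at *
    generalize deriv (deriv F) x⁻¹ = C at *
    field_simp
    ring
  have hcd : ∀ x : ℝ, x ≠ 0 → |x| < r → ContDiffAt ℝ 2 (cv F) x := by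
    intro x hx hxr
    refine ContDiffAt.congr_of_eventuallyEq ?_ (hev x hx)
    exact ((hP x hx hxr).1.comp x (contDiffAt_inv ℝ hx)).inv (hP x hx hxr).2
  have hrn : ∀ᶠ x : ℝ in 𝓝[≠] 0, x ≠ 0 ∧ |x| < r := by
    refine hne.and ?_
    have : ∀ᶠ x : ℝ in 𝓝 0, |x| < r :=
      (isOpen_lt continuous_abs continuous_const).mem_nhds (by simpa using hr)
    exact nhdsWithin_le_nhds this
  have hcont : ContinuousAt (cv F) 0 := by
    rw [continuousAt_iff_punctured_nhds]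
    have e0 : cv F 0 = 0 := by simp [cv]
    rw [e0]
    have : Tendsto (fun x : ℝ => x / (x * F x⁻¹)) (𝓝[≠] 0) (𝓝 (0 / l)) := hid.div k0 hl
    rw [zero_div] at this
    refine this.congr' ?_
    filter_upwards [hrn] with x hx
    have := (hP x hx.1 hx.2).2
    have hx0 := hx.1
    simp only [cv, if_neg hx.1]
    field_simp
  have hlim1 : Tendsto (deriv (cv F)) (𝓝[≠] 0) (𝓝 l⁻¹) := by
    have : Tendsto (fun x : ℝ => deriv F x⁻¹ / (x * F x⁻¹) ^ 2) (𝓝[≠] 0) (𝓝 (l / l ^ 2)) :=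
      k1.div (k0.pow 2) (pow_ne_zero _ hl)
    have e : l / l ^ 2 = l⁻¹ := by field_simp
    rw [e] at this
    refine this.congr' ?_
    filter_upwards [hrn] with x hx
    exact (hdcv x hx.1 hx.2).symm
  have hlim2 : Tendsto (deriv (deriv (cv F))) (𝓝[≠] 0)
      (𝓝 (-(0 / l ^ 2 + 2 * l / l ^ 3 * c))) := by
    have : Tendsto (fun x : ℝ => -((x⁻¹) ^ 2 * deriv (deriv F) x⁻¹ / (x * F x⁻¹) ^ 2 +
        2 * deriv F x⁻¹ / (x * F x⁻¹) ^ 3 * (F x⁻¹ - x⁻¹ * deriv F x⁻¹))) (𝓝[≠] 0)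
        (𝓝 (-(0 / l ^ 2 + 2 * l / l ^ 3 * c))) :=
      ((g2.div (k0.pow 2) (pow_ne_zero _ hl)).add
        (((k1.const_mul 2).div (k0.pow 3) (pow_ne_zero _ hl)).mul k2)).neg
    refine this.congr' ?_
    filter_upwards [hrn] with x hx
    exact (hdcv2 x hx.1 hx.2).symm
  exact gi1_contDiffAt hr hcd hcont hlim1 hlim2

theorem Flat.gInf {F : ℝ → ℝ} (h : Flat F) : GInf 1 0 F where
  ne := one_ne_zero
  contDiff := Eventually.of_forall fun z => h.contDiff.contDiffAt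
  f0 := by simpa using h.f0
  f1 := h.f1
  f2 := h.f2

end GD31
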