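import Pool.Agent.LibGD31.AB3
import Pool.Agent.LibGD31.GI1
import Pool.Agent.LibGD31.EX3

/-! # AB4: conjugacy at both ends -/

open Filter Topology Set

namespace GD31

private theorem ab4_id2 (w : ℝ → ℝ) : iteratedDeriv 2 w = deriv (deriv w) := by
  rw [iteratedDeriv_succ, iteratedDeriv_one]

private theorem ab4_wb {w : ℝ → ℝ} (hs : Sm w) (ho : Ob 8 (7 / 8) w) : Wb w := by
  have hs3 : ContDiff ℝ 3 w := by exact_mod_cast contDiff_infty.1 hs 3
  refine ⟨fun z _ => hs3.contDiffAt, ?_⟩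
  obtain ⟨C, R, hC, hR, hb⟩ := ho.bound
  have hcont : ∀ i : ℕ, Continuous (iteratedDeriv i w) :=
    fun i => hs.continuous_iteratedDeriv i (by exact_mod_cast le_top)
  have hM : ∀ i : ℕ, ∃ M : ℝ, 0 ≤ M ∧ ∀ z ∈ Icc 1 R, |iteratedDeriv i w z| ≤ M := by
    intro i
    obtain ⟨M, hM⟩ := (isCompact_Icc (a := (1 : ℝ)) (b := R)).exists_bound_of_continuousOn
      (hcont i).continuousOn
    exact ⟨max M 0, le_max_right _ _, fun z hz => (hM z hz).trans (le_max_left _ _)⟩
  choose M hM0 hM1 using hM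
  have hMs : ∀ i ≤ 3, M i ≤ M 0 + M 1 + M 2 + M 3 := by
    intro i hi
    have a0 := hM0 0
    have a1 := hM0 1
    have a2 := hM0 2
    have a3 := hM0 3
    interval_cases i <;> linarith
  have hR0 : 0 < R := by linarith
  have hS : 0 ≤ M 0 + M 1 + M 2 + M 3 := (hM0 0).trans (hMs 0 (by norm_num))
  have key : ∀ i ≤ 3, ∀ z : ℝ, 1 ≤ z → |iteratedDeriv i w z| ≤
      (C + (M 0 + M 1 + M 2 + M 3) * R ^ (31 / 8 : ℝ)) * z ^ (-(7 / 8 + (i : ℝ))) := by
    intro i hi z hz
    have hz0 : 0 < z := by linarith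
    have hp : 0 < z ^ (-(7 / 8 + (i : ℝ))) := Real.rpow_pos_of_pos hz0 _
    have hRp : 0 < R ^ (31 / 8 : ℝ) := Real.rpow_pos_of_pos hR0 _
    rcases le_total R z with h | h
    · have h1 := hb i (by omega) z (by rwa [abs_of_pos hz0])
      rw [abs_of_pos hz0] at h1
      have h2 : 0 ≤ (M 0 + M 1 + M 2 + M 3) * R ^ (31 / 8 : ℝ) * z ^ (-(7 / 8 + (i : ℝ))) := by
        positivity
      rw [add_mul]
      linarith
    · have h1 := (hM1 i z ⟨hz, h⟩).trans (hMs i hi)
      have h2 : 1 ≤ R ^ (31 / 8 : ℝ) * z ^ (-(7 / 8 + (i : ℝ))) := by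
        rw [Real.rpow_neg hz0.le, ← div_eq_mul_inv, one_le_div (Real.rpow_pos_of_pos hz0 _)]
        calc z ^ (7 / 8 + (i : ℝ)) ≤ z ^ (31 / 8 : ℝ) := by
              apply Real.rpow_le_rpow_of_exponent_le hz
              have h3 : (i : ℝ) ≤ 3 := by exact_mod_cast hi
              linarith
          _ ≤ R ^ (31 / 8 : ℝ) := Real.rpow_le_rpow hz0.le h (by norm_num)
      have h3 : 0 ≤ C * z ^ (-(7 / 8 + (i : ℝ))) := by positivity
      calc |iteratedDeriv i w z| ≤ (M 0 + M 1 + M 2 + M 3) * 1 := by rw [mul_one]; exact h1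
        _ ≤ (M 0 + M 1 + M 2 + M 3) * (R ^ (31 / 8 : ℝ) * z ^ (-(7 / 8 + (i : ℝ)))) :=
            mul_le_mul_of_nonneg_left h2 hS
        _ ≤ C * z ^ (-(7 / 8 + (i : ℝ))) +
            (M 0 + M 1 + M 2 + M 3) * (R ^ (31 / 8 : ℝ) * z ^ (-(7 / 8 + (i : ℝ)))) := by
            linarith
        _ = _ := by ring
  refine ⟨C + (M 0 + M 1 + M 2 + M 3) * R ^ (31 / 8 : ℝ), by positivity, fun z hz => ?_⟩
  have k0 := key 0 (by norm_num) z hz
  have k1 := key 1 (by norm_num) z hz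
  have k2 := key 2 (by norm_num) z hz
  have k3 := key 3 (by norm_num) z hz
  have e0 : -(7 / 8 + ((0 : ℕ) : ℝ)) = -(7 / 8) := by norm_num
  have e1 : -(7 / 8 + ((1 : ℕ) : ℝ)) = -(15 / 8) := by norm_num
  have e2 : -(7 / 8 + ((2 : ℕ) : ℝ)) = -(23 / 8) := by norm_num
  have e3 : -(7 / 8 + ((3 : ℕ) : ℝ)) = -(31 / 8) := by norm_num
  rw [e0, iteratedDeriv_zero] at k0
  rw [e1, iteratedDeriv_one] at k1
  rw [e2, ab4_id2] at k2
  rw [e3] at k3
  exact ⟨k0, k1, k2, k3⟩

private theorem ab4_iter (a : ℝ) (n : ℕ) (z : ℝ) : iteratedDeriv n (fun z : ℝ => a / z) z =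
    a * ((∏ i ∈ Finset.range n, ((-1 : ℝ) - i)) * z ^ (-1 - (n : ℤ))) := by
  have h1 : (fun z : ℝ => a / z) = fun z : ℝ => a * z ^ (-1 : ℤ) := by
    funext z
    rw [zpow_neg_one, div_eq_mul_inv]
  rw [h1, iteratedDeriv_const_mul_field, iteratedDeriv_eq_iterate, iter_deriv_zpow]
  push_cast
  rfl

private theorem ab4_wba (a : ℝ) : Wb (fun z : ℝ => a / z) := by
  refine ⟨fun z hz => contDiffAt_const.div contDiffAt_id (by linarith), 6 * |a|, by positivity,
    fun z hz => ?_⟩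
  have hz0 : 0 < z := by linarith
  have key : ∀ (n : ℕ) (c s : ℝ), (∏ i ∈ Finset.range n, ((-1 : ℝ) - i)) = c → |c| ≤ 6 →
      -(1 + (n : ℝ)) ≤ s → |iteratedDeriv n (fun z : ℝ => a / z) z| ≤ 6 * |a| * z ^ s := by
    intro n c s hc hc6 hs
    rw [ab4_iter, hc, abs_mul, abs_mul, abs_of_pos (zpow_pos hz0 _)]
    have h1 : z ^ (-1 - (n : ℤ)) = z ^ (-(1 + (n : ℝ))) := by
      rw [← Real.rpow_intCast]
      congr 1
      push_cast
      ring
    rw [h1]
    have h2 : z ^ (-(1 + (n : ℝ))) ≤ z ^ s := Real.rpow_le_rpow_of_exponent_le hz hs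
    have h3 : 0 < z ^ (-(1 + (n : ℝ))) := Real.rpow_pos_of_pos hz0 _
    calc |a| * (|c| * z ^ (-(1 + (n : ℝ)))) ≤ |a| * (6 * z ^ s) := by
          apply mul_le_mul_of_nonneg_left _ (abs_nonneg a)
          exact mul_le_mul hc6 h2 h3.le (by norm_num)
      _ = 6 * |a| * z ^ s := by ring
  have k0 := key 0 1 (-(7 / 8)) (by simp) (by norm_num) (by norm_num)
  have k1 := key 1 (-1) (-(15 / 8)) (by simp) (by norm_num) (by norm_num)
  have k2 := key 2 2 (-(23 / 8)) (by norm_num [Finset.prod_range_succ]) (by norm_num)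
    (by norm_num)
  have k3 := key 3 (-6) (-(31 / 8)) (by norm_num [Finset.prod_range_succ]) (by norm_num)
    (by norm_num)
  rw [iteratedDeriv_zero] at k0
  rw [iteratedDeriv_one] at k1
  rw [ab4_id2] at k2
  exact ⟨k0, k1, k2, k3⟩

private theorem ab4_abH {w ρ f : ℝ → ℝ} (hs : Sm w) (hρ : Ob 5 (3 / 2) ρ)
    (hf : ∀ z, f z = z + 1 + w z + ρ z) : AbH w f := by
  obtain ⟨C, R, hC, hR, hb⟩ := hρ.bound
  have hfe : f = fun z => z + 1 + w z + ρ z := funext hf
  have hsd : Sm (deriv w) := (contDiff_infty_iff_deriv.1 hs).2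
  have hρd : Sm (deriv ρ) := (contDiff_infty_iff_deriv.1 hρ.smooth).2
  have hw1 := (contDiff_infty_iff_deriv.1 hs).1
  have hρ1 := (contDiff_infty_iff_deriv.1 hρ.smooth).1
  have hw2 := (contDiff_infty_iff_deriv.1 hsd).1
  have hρ2 := (contDiff_infty_iff_deriv.1 hρd).1
  have hfs : Sm f := by
    rw [hfe]
    exact ((contDiff_id.add contDiff_const).add hs).add hρ.smooth
  have hd : deriv f = fun z => 1 + deriv w z + deriv ρ z := by
    funext z
    rw [hfe]
    exact ((((hasDerivAt_id z).add_const (1 : ℝ)).add (hw1 z).hasDerivAt).add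
      (hρ1 z).hasDerivAt).deriv
  have hdd : ∀ z, deriv (deriv f) z = deriv (deriv w) z + deriv (deriv ρ) z := by
    intro z
    rw [hd]
    have h1 := (((hasDerivAt_const z (1 : ℝ)).add (hw2 z).hasDerivAt).add
      (hρ2 z).hasDerivAt).deriv
    rw [zero_add] at h1
    exact h1
  refine ⟨C, R, hC, hR, fun z hz => ?_⟩
  have hz0 : 0 < z := by linarith
  have hza : R ≤ |z| := by rwa [abs_of_pos hz0]
  have k0 := hb 0 (by norm_num) z hza
  have k1 := hb 1 (by norm_num) z hza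
  have k2 := hb 2 (by norm_num) z hza
  have e0 : -(3 / 2 + ((0 : ℕ) : ℝ)) = -(3 / 2) := by norm_num
  have e1 : -(3 / 2 + ((1 : ℕ) : ℝ)) = -(5 / 2) := by norm_num
  have e2 : -(3 / 2 + ((2 : ℕ) : ℝ)) = -(7 / 2) := by norm_num
  rw [e0, iteratedDeriv_zero, abs_of_pos hz0] at k0
  rw [e1, iteratedDeriv_one, abs_of_pos hz0] at k1
  rw [e2, ab4_id2, abs_of_pos hz0] at k2
  have hfs2 : ContDiff ℝ 2 f := by exact_mod_cast contDiff_infty.1 hfs 2
  refine ⟨hfs2.contDiffAt, ?_, ?_, ?_⟩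
  · have h1 : f z - z - 1 - w z = ρ z := by rw [hf]; ring
    rw [h1]
    exact k0
  · have h1 : deriv f z - 1 - deriv w z = deriv ρ z := by rw [hd]; ring
    rw [h1]
    exact k1
  · have h1 : deriv (deriv f) z - deriv (deriv w) z = deriv (deriv ρ) z := by rw [hdd]; ring
    rw [h1]
    exact k2

private theorem ab4_lim {f : ℝ → ℝ} (hf : HasDerivAt f 1 0) (h0 : f 0 = 0) :
    Tendsto (fun y : ℝ => (f y⁻¹)⁻¹) atTop atTop := by
  have h1 : Tendsto f (𝓝[>] 0) (𝓝[>] 0) := by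
    rw [tendsto_nhdsWithin_iff]
    constructor
    · have h2 := hf.continuousAt.tendsto
      rw [h0] at h2
      exact h2.mono_left nhdsWithin_le_nhds
    · have h2 := hasDerivAt_iff_tendsto_slope.1 hf
      have h3 : ∀ᶠ x in 𝓝[≠] (0 : ℝ), 0 < slope f 0 x :=
        (tendsto_order.1 h2).1 0 one_pos
      have h4 : ∀ᶠ x in 𝓝[>] (0 : ℝ), 0 < slope f 0 x :=
        h3.filter_mono (nhdsWithin_mono 0 fun x (hx : 0 < x) => ne_of_gt hx)
      filter_upwards [h4, self_mem_nhdsWithin] with x hx hx0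
      have hx0' : 0 < x := hx0
      rw [slope_def_field, h0, sub_zero, sub_zero] at hx
      exact (div_pos_iff_of_pos_right hx0').1 hx
  exact tendsto_inv_nhdsGT_zero.comp (h1.comp tendsto_inv_atTop_nhdsGT_zero)

private theorem ab4_lim' {f : ℝ → ℝ} (hf : HasDerivAt f 1 0) (h0 : f 0 = 0) :
    Tendsto (fun y : ℝ => -(f (-y⁻¹))⁻¹) atTop atTop := by
  have h1 : HasDerivAt (fun x => -f (-x)) 1 0 := by
    have h2 : HasDerivAt f 1 (-(0 : ℝ)) := by rwa [neg_zero]
    have h3 := (h2.comp (0 : ℝ) (hasDerivAt_neg (0 : ℝ))).neg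
    have h4 : -(1 * -1 : ℝ) = 1 := by norm_num
    rw [h4] at h3
    exact h3
  have h2 := ab4_lim h1 (by rw [neg_zero, h0, neg_zero])
  refine h2.congr fun y => ?_
  rw [inv_neg]

/-- At `+∞`: `conj_at_top` for `G z = (f z⁻¹)⁻¹` (`germ_expansion`, `w₁ = a/z`) and `T̂ = Tp w`
(`w₂ = w`; `Tp w ∈ Cl 1 1` by `Cl.mul`). At `-∞`: `conj_at_top` for `G₁ y = (f₁ y⁻¹)⁻¹`
(`reflected_inverse`; `w₁ = -a/y`; `-G₁(-·)` is the inverse of `G`) and
`g₁ y = -(Tp w)⁻¹ (-y)` (`w₂ = -w` because `w` is odd, `Cl.inv`), giving `φ₁`; put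
`φ z = - φ₁ (-z)` for `z < 0`. -/
theorem conj_two_sided {f w : ℝ → ℝ} {a : ℝ} (hf : ContDiffAt ℝ 4 f 0) (h0 : f 0 = 0)
    (h1 : deriv f 0 = 1) (h2 : iteratedDeriv 2 f 0 = -2) (ha : a = 1 - iteratedDeriv 3 f 0 / 6)
    (hw : Prof w) (hodd : ∀ z, w (-z) = - w z)
    (hl0 : Tendsto (fun z => z * w z) (cocompact ℝ) (𝓝 a))
    (hl1 : Tendsto (fun z => z ^ 2 * deriv w z) (cocompact ℝ) (𝓝 (-a)))
    (hI : ∃ L, Tendsto (fun Z => ∫ t in (1 : ℝ)..Z, (w t - a / t)) atTop (𝓝 L)) :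
    ∃ φ : ℝ → ℝ, GInf 1 0 φ ∧ ∀ᶠ z in cocompact ℝ, φ ((f z⁻¹)⁻¹) = Tp w (φ z) := by
  have hfd : HasDerivAt f 1 0 := by
    have h3 := (hf.differentiableAt (by norm_num)).hasDerivAt
    rwa [h1] at h3
  have hcc : cocompact ℝ = atBot ⊔ atTop := cocompact_eq_atBot_atTop
  have hl0t : Tendsto (fun z => z * w z) atTop (𝓝 a) := hl0.mono_left (by rw [hcc]; exact le_sup_right)
  have hl1t : Tendsto (fun z => z ^ 2 * deriv w z) atTop (𝓝 (-a)) :=
    hl1.mono_left (by rw [hcc]; exact le_sup_right)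
  obtain ⟨L, hL⟩ := hI
  -- the class of `Tp w`
  have hT : Cl w 1 1 (Tp w) := by
    have h3 := Cl.mul hw (Cl.B hw) (Cl.F hw)
    rw [add_zero, zero_add] at h3
    exact h3
  have hTi : Cl w (-1) (-1) (Tp w)⁻¹ := Cl.inv hw hT
  have hda : ∀ c z : ℝ, z ≠ 0 → z ^ 2 * deriv (fun z : ℝ => c / z) z = -c := by
    intro c z hz
    have h3 := ab4_iter c 1 z
    rw [iteratedDeriv_one] at h3
    rw [h3]
    norm_num
    field_simp
  -- at `+∞`
  have hG := germ_expansion hf h0 h1 h2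
  rw [← ha] at hG
  have hg : AbH w (Tp w) := by
    apply ab4_abH hw.smooth hT.ob
    intro z
    ring
  obtain ⟨φp, p1, p2, p3, p4, p5⟩ := conj_at_top (ab4_wba a) (ab4_wb hw.smooth hw.ob) hG hg
    (by
      have h3 : Tendsto (fun z => a - z * w z) atTop (𝓝 (a - a)) := tendsto_const_nhds.sub hl0t
      rw [sub_self] at h3
      refine h3.congr' ?_
      filter_upwards [eventually_gt_atTop 0] with z hz
      field_simp)
    (by
      have h3 : Tendsto (fun z => -a - z ^ 2 * deriv w z) atTop (𝓝 (-a - -a)) :=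
        tendsto_const_nhds.sub hl1t
      rw [sub_self] at h3
      refine h3.congr' ?_
      filter_upwards [eventually_gt_atTop 0] with z hz
      rw [mul_sub, hda a z hz.ne'])
    (by
      refine ⟨-L, hL.neg.congr fun Z => ?_⟩
      rw [← intervalIntegral.integral_neg]
      congr 1
      funext t
      ring)
  -- at `-∞`
  obtain ⟨f₁, q1, q2, q3, q4, q5, q6, q7⟩ := reflected_inverse hf h0 h1 h2
  have hG₁ := germ_expansion q1 q2 q3 q4
  have ha₁ : 1 - iteratedDeriv 3 f₁ 0 / 6 = -a := by rw [q5, ha]; ring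
  rw [ha₁] at hG₁
  have hg₁ : AbH (fun z => -1 * w z) (fun y => -((Tp w)⁻¹ : Pm) (-y)) := by
    apply ab4_abH (contDiff_const.mul hw.smooth) ((hTi.ob.scale (by norm_num : (-1 : ℝ) ≠ 0)).const_mul (-1))
    intro y
    have h3 : (-1 : ℝ) * y = -y := by ring
    simp only [h3, hodd]
    ring
  obtain ⟨φm, m1, m2, m3, m4, m5⟩ := conj_at_top (ab4_wba (-a))
    (ab4_wb (contDiff_const.mul hw.smooth) (hw.ob.const_mul (-1))) hG₁ hg₁
    (by
      have h3 : Tendsto (fun z => -a + z * w z) atTop (𝓝 (-a + a)) := tendsto_const_nhds.add hl0t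
      rw [neg_add_cancel] at h3
      refine h3.congr' ?_
      filter_upwards [eventually_gt_atTop 0] with z hz
      field_simp
      ring)
    (by
      have h3 : Tendsto (fun z => a + z ^ 2 * deriv w z) atTop (𝓝 (a + -a)) :=
        tendsto_const_nhds.add hl1t
      rw [add_neg_cancel] at h3
      refine h3.congr' ?_
      filter_upwards [eventually_gt_atTop 0] with z hz
      have h4 : deriv (fun z => -1 * w z) z = -1 * deriv w z :=
        deriv_const_mul_field' (v := w) (-1) ▸ rfl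
      rw [mul_sub, hda (-a) z hz.ne', h4]
      ring)
    (by
      refine ⟨L, hL.congr fun Z => ?_⟩
      congr 1
      funext t
      ring)
  let φ : ℝ → ℝ := fun z => if 0 < z then φp z else -φm (-z)
  have hφp : ∀ z, 0 < z → φ =ᶠ[𝓝 z] φp := by
    intro z hz
    filter_upwards [lt_mem_nhds hz] with y hy
    exact if_pos hy
  have hφm : ∀ z, z < 0 → φ =ᶠ[𝓝 z] fun z => -φm (-z) := by
    intro z hz
    filter_upwards [gt_mem_nhds hz] with y hy
    exact if_neg (not_lt.2 (le_of_lt hy))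
  have hdm : deriv (fun z => -φm (-z)) = fun z => deriv φm (-z) := by
    funext z
    rw [deriv.fun_neg, deriv_comp_neg, neg_neg]
  have hddm : ∀ z, deriv (deriv (fun z => -φm (-z))) z = -deriv (deriv φm) (-z) := by
    intro z
    rw [hdm, deriv_comp_neg]
  have hneg : Tendsto (fun z : ℝ => -z) atBot atTop := tendsto_neg_atBot_atTop
  refine ⟨φ, ⟨one_ne_zero, ?_, ?_, ?_, ?_⟩, ?_⟩
  · rw [hcc, eventually_sup]
    constructor
    · filter_upwards [hneg.eventually m1, eventually_lt_atBot 0] with z hz hz0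
      refine ContDiffAt.congr_of_eventuallyEq ?_ (hφm z hz0)
      exact (hz.comp z contDiff_neg.contDiffAt).neg
    · filter_upwards [p1, eventually_gt_atTop 0] with z hz hz0
      exact hz.congr_of_eventuallyEq (hφp z hz0)
  · rw [hcc, tendsto_sup]
    constructor
    · have h3 := (m3.comp hneg).neg
      rw [neg_zero] at h3
      refine h3.congr' ?_
      filter_upwards [eventually_lt_atBot 0] with z hz
      rw [(hφm z hz).eq_of_nhds]
      simp only [Function.comp_apply]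
      ring
    · refine p3.congr' ?_
      filter_upwards [eventually_gt_atTop 0] with z hz
      rw [(hφp z hz).eq_of_nhds]
      ring
  · rw [hcc, tendsto_sup]
    constructor
    · have h3 := (m4.comp hneg).neg
      rw [neg_zero] at h3
      refine h3.congr' ?_
      filter_upwards [eventually_lt_atBot 0] with z hz
      rw [(hφm z hz).deriv_eq, hdm]
      simp only [Function.comp_apply]
      ring
    · refine p4.congr' ?_
      filter_upwards [eventually_gt_atTop 0] with z hz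
      rw [(hφp z hz).deriv_eq]
  · rw [hcc, tendsto_sup]
    constructor
    · have h3 := (m5.comp hneg).neg
      rw [neg_zero] at h3
      refine h3.congr' ?_
      filter_upwards [eventually_lt_atBot 0] with z hz
      rw [(hφm z hz).deriv.deriv_eq, hddm]
      simp only [Function.comp_apply]
      ring
    · refine p5.congr' ?_
      filter_upwards [eventually_gt_atTop 0] with z hz
      rw [(hφp z hz).deriv.deriv_eq]
  · rw [hcc, eventually_sup]
    constructor
    · -- `z = -y`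
      have hy' := ab4_lim' hfd h0
      have k1 : ∀ᶠ y : ℝ in atTop, φm ((f₁ (-(f (-y⁻¹))⁻¹)⁻¹)⁻¹) =
          -((Tp w)⁻¹ : Pm) (-(φm (-(f (-y⁻¹))⁻¹))) := hy'.eventually m2
      have k2 : ∀ᶠ y : ℝ in atTop, f₁ (-(f (-y⁻¹))) = y⁻¹ := by
        have h3 : Tendsto (fun y : ℝ => -y⁻¹) atTop (𝓝 0) := by
          have h4 := (tendsto_inv_atTop_zero (𝕜 := ℝ)).neg
          rwa [neg_zero] at h4
        filter_upwards [h3.eventually q7] with y hy
        rw [hy, neg_neg]
      have k3 : ∀ᶠ y : ℝ in atTop, 0 < -(f (-y⁻¹))⁻¹ := hy'.eventually (eventually_gt_atTop 0)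
      filter_upwards [hneg.eventually k1, hneg.eventually k2, hneg.eventually k3,
        eventually_lt_atBot 0] with z j1 j2 j3 hz
      have e1 : -(-z)⁻¹ = z⁻¹ := by rw [inv_neg, neg_neg]
      rw [e1] at j1 j2 j3
      have e2 : (-(f z⁻¹)⁻¹)⁻¹ = -(f z⁻¹) := by rw [inv_neg, inv_inv]
      rw [e2, j2, inv_inv] at j1
      -- j1 : φm (-z) = -(Tp w)⁻¹ (-(φm (-(f z⁻¹)⁻¹)))
      have e3 : φ ((f z⁻¹)⁻¹) = -φm (-(f z⁻¹)⁻¹) := if_neg (by linarith)
      have e4 : φ z = -φm (-z) := if_neg (by linarith)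
      rw [e3, e4, j1, neg_neg]
      exact ((Tp w).apply_symm_apply _).symm
    · have hy := ab4_lim hfd h0
      filter_upwards [p2, hy.eventually (eventually_gt_atTop 0), eventually_gt_atTop 0]
        with z j1 j2 hz
      have e3 : φ ((f z⁻¹)⁻¹) = φp ((f z⁻¹)⁻¹) := if_pos j2
      have e4 : φ z = φp z := if_pos hz
      rw [e3, e4, j1]

end GD31
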