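import Pool.Agent.LibGD31.Defs

/-! # CH1: gluing permutations with disjoint supports -/

open Filter Topology Set

namespace GD31

/-- `H` is `F i` on `V i` and the identity elsewhere. -/
structure IsGlue {ι : Type*} (V : ι → Set ℝ) (F : ι → Pm) (H : Pm) : Prop where
  on : ∀ i, ∀ x ∈ V i, H x = F i x
  off : ∀ x, (∀ i, x ∉ V i) → H x = x

/-! Helpers. -/

theorem ch1_maps {V : Set ℝ} {F : Pm} (hF : Supp F V) {x : ℝ} (hx : x ∈ V) : F x ∈ V := by
  by_contra h
  have h1 := hF (F x) h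
  have h2 := F.injective h1
  rw [h2] at h
  exact h hx

theorem ch1_supp_inv {V : Set ℝ} {F : Pm} (hF : Supp F V) : Supp F⁻¹ V := by
  intro x hx
  rw [Equiv.Perm.inv_eq_iff_eq]
  exact (hF x hx).symm

theorem ch1_supp_mul {V : Set ℝ} {F G : Pm} (hF : Supp F V) (hG : Supp G V) :
    Supp (F * G) V := by
  intro x hx
  rw [Equiv.Perm.mul_apply, hG x hx, hF x hx]

open Classical in
/-- the glued map -/
noncomputable def ch1_gl {ι : Type*} (V : ι → Set ℝ) (F : ι → Pm) (x : ℝ) : ℝ :=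
  if h : ∃ i, x ∈ V i then F h.choose x else x

theorem ch1_gl_on {ι : Type*} {V : ι → Set ℝ} (F : ι → Pm)
    (hd : Pairwise (fun i j => Disjoint (V i) (V j))) {i : ι} {x : ℝ} (hx : x ∈ V i) :
    ch1_gl V F x = F i x := by
  have h : ∃ i, x ∈ V i := ⟨i, hx⟩
  have hi : h.choose = i := by
    by_contra hne
    exact Set.disjoint_left.mp (hd hne) h.choose_spec hx
  rw [ch1_gl, dif_pos h, hi]

theorem ch1_gl_off {ι : Type*} {V : ι → Set ℝ} (F : ι → Pm) {x : ℝ} (hx : ∀ i, x ∉ V i) :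
    ch1_gl V F x = x := by
  rw [ch1_gl, dif_neg]
  rintro ⟨i, hi⟩
  exact hx i hi

theorem ch1_gl_inv {ι : Type*} {V : ι → Set ℝ} {F G : ι → Pm}
    (hd : Pairwise (fun i j => Disjoint (V i) (V j)))
    (hF : ∀ i, Supp (F i) (V i)) (hGF : ∀ i x, G i (F i x) = x) (x : ℝ) :
    ch1_gl V G (ch1_gl V F x) = x := by
  by_cases h : ∃ i, x ∈ V i
  · obtain ⟨i, hi⟩ := h
    rw [ch1_gl_on F hd hi, ch1_gl_on G hd (ch1_maps (hF i) hi), hGF]
  · push Not at h
    rw [ch1_gl_off F h, ch1_gl_off G h]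

/-- There is a glued permutation. -/
theorem exists_glue {ι : Type*} (V : ι → Set ℝ) (F : ι → Pm) (hd : Pairwise (fun i j => Disjoint (V i) (V j)))
    (hs : ∀ i, Supp (F i) (V i)) : ∃ H : Pm, IsGlue V F H := by
  let H : Pm :=
    { toFun := ch1_gl V F
      invFun := ch1_gl V (fun i => (F i)⁻¹)
      left_inv := ch1_gl_inv hd hs (fun i x => by simp)
      right_inv := ch1_gl_inv hd (fun i => ch1_supp_inv (hs i)) (fun i x => by simp) }
  exact ⟨H, ⟨fun i x hx => ch1_gl_on F hd hx, fun x hx => ch1_gl_off F hx⟩⟩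

theorem IsGlue.unique {ι : Type*} {V : ι → Set ℝ} {F : ι → Pm} {H H' : Pm} (h : IsGlue V F H)
    (h' : IsGlue V F H') : H = H' := by
  ext x
  by_cases hx : ∃ i, x ∈ V i
  · obtain ⟨i, hi⟩ := hx
    rw [h.on i x hi, h'.on i x hi]
  · push Not at hx
    rw [h.off x hx, h'.off x hx]

theorem IsGlue.mul {ι : Type*} {V : ι → Set ℝ} {F G : ι → Pm} {H H' : Pm}
    (hd : Pairwise (fun i j => Disjoint (V i) (V j)))
    (hF : ∀ i, Supp (F i) (V i)) (hG : ∀ i, Supp (G i) (V i)) (h : IsGlue V F H)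
    (h' : IsGlue V G H') : IsGlue V (fun i => F i * G i) (H * H') := by
  have _ := hd
  have _ := hF
  constructor
  · intro i x hx
    rw [Equiv.Perm.mul_apply, h'.on i x hx, h.on i _ (ch1_maps (hG i) hx), Equiv.Perm.mul_apply]
  · intro x hx
    rw [Equiv.Perm.mul_apply, h'.off x hx, h.off x hx]

theorem IsGlue.inv {ι : Type*} {V : ι → Set ℝ} {F : ι → Pm} {H : Pm}
    (hd : Pairwise (fun i j => Disjoint (V i) (V j)))
    (hF : ∀ i, Supp (F i) (V i)) (h : IsGlue V F H) : IsGlue V (fun i => (F i)⁻¹) H⁻¹ := by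
  have _ := hd
  constructor
  · intro i x hx
    rw [Equiv.Perm.inv_eq_iff_eq, h.on i _ (ch1_maps (ch1_supp_inv (hF i)) hx)]
    simp
  · intro x hx
    rw [Equiv.Perm.inv_eq_iff_eq]
    exact (h.off x hx).symm

theorem IsGlue.cm {ι : Type*} {V : ι → Set ℝ} {F G : ι → Pm} {H H' : Pm}
    (hd : Pairwise (fun i j => Disjoint (V i) (V j)))
    (hF : ∀ i, Supp (F i) (V i)) (hG : ∀ i, Supp (G i) (V i)) (h : IsGlue V F H)
    (h' : IsGlue V G H') : IsGlue V (fun i => GD31.cm (F i) (G i)) (GD31.cm H H') := by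
  have h1 := h.mul hd hF hG h'
  have h2 := h1.mul hd (fun i => ch1_supp_mul (hF i) (hG i)) (fun i => ch1_supp_inv (hF i))
    (h.inv hd hF)
  exact h2.mul hd (fun i => ch1_supp_mul (ch1_supp_mul (hF i) (hG i)) (ch1_supp_inv (hF i)))
    (fun i => ch1_supp_inv (hG i)) (h'.inv hd hG)

theorem ch1_deriv {F : Pm} (hF : ContDiff ℝ 2 (disp F)) :
    ContDiff ℝ 2 F ∧ (∀ x, deriv F x - 1 = deriv (disp F) x) ∧
      ∀ x, deriv (deriv F) x = deriv (deriv (disp F)) x := by
  have e : (F : ℝ → ℝ) = fun x => x + disp F x := by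
    funext x
    simp [disp]
  have hd : Differentiable ℝ (disp F) := hF.differentiable (by norm_num)
  have e1 : deriv F = fun x => 1 + deriv (disp F) x := by
    funext x
    rw [e, deriv_fun_add differentiableAt_fun_id (hd x), deriv_id'']
  refine ⟨?_, ?_, ?_⟩
  · rw [e]
    exact contDiff_id.add hF
  · intro x
    rw [e1]
    ring
  · intro x
    rw [e1, deriv_const_add']

theorem ch1_disp {s : ℝ} {F : Pm} (hF : Sz s F) : ContDiff ℝ 2 (disp F) ∧
    ∀ k ≤ 2, ∀ x, |iteratedDeriv k (disp F) x| ≤ s := by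
  have hc : ContDiff ℝ 2 (disp F) := hF.contDiff.sub contDiff_id
  obtain ⟨-, h1, h2⟩ := ch1_deriv hc
  refine ⟨hc, ?_⟩
  intro k hk x
  interval_cases k
  · rw [iteratedDeriv_zero]
    exact hF.d0 x
  · rw [iteratedDeriv_one, ← h1]
    exact hF.d1 x
  · rw [iteratedDeriv_succ, iteratedDeriv_one, ← h2]
    exact hF.d2 x

/-- `C²` size of a glued permutation (`contDiff_tsum` applied to the displacements). -/
theorem IsGlue.sz {V : ℕ → Set ℝ} {F : ℕ → Pm} {H : Pm}
    (hd : Pairwise (fun i j => Disjoint (V i) (V j))) (hF : ∀ i, Supp (F i) (V i))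
    (h : IsGlue V F H) (s : ℕ → ℝ) (hs : ∀ i, Sz (s i) (F i)) (hsum : Summable s) :
    Sz (∑' i, s i) H := by
  have e : disp H = fun x => ∑' i, disp (F i) x := by
    funext x
    by_cases hx : ∃ i, x ∈ V i
    · obtain ⟨i, hi⟩ := hx
      rw [tsum_eq_single i]
      · rw [disp, disp, h.on i x hi]
      · intro j hj
        rw [disp, hF j x (fun hc => Set.disjoint_left.mp (hd hj) hc hi), sub_self]
    · push Not at hx
      rw [disp, h.off x hx, sub_self]
      symm
      have h0 : ∀ i, disp (F i) x = 0 := fun i => by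
        rw [disp, hF i x (hx i), sub_self]
      simp only [h0, tsum_zero]
  have hf : ∀ i, ContDiff ℝ ((2 : ℕ∞) : WithTop ℕ∞) (disp (F i)) := fun i => (ch1_disp (hs i)).1
  have hb : ∀ (k : ℕ) (i : ℕ) (x : ℝ), (k : ℕ∞) ≤ 2 →
      ‖iteratedFDeriv ℝ k (disp (F i)) x‖ ≤ s i := by
    intro k i x hk
    rw [norm_iteratedFDeriv_eq_norm_iteratedDeriv]
    exact (ch1_disp (hs i)).2 k (by exact_mod_cast hk) x
  have hc : ContDiff ℝ 2 (disp H) := by
    rw [e]
    exact contDiff_tsum (v := fun _ => s) hf (fun _ _ => hsum) hb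
  have hbd : ∀ k : ℕ, k ≤ 2 → ∀ x, |iteratedDeriv k (disp H) x| ≤ ∑' i, s i := by
    intro k hk x
    rw [← Real.norm_eq_abs, ← norm_iteratedFDeriv_eq_norm_iteratedDeriv, e,
      iteratedFDeriv_tsum_apply (v := fun _ => s) hf (fun _ _ => hsum) hb (by exact_mod_cast hk)]
    exact tsum_of_norm_bounded hsum.hasSum (fun i => hb k i x (by exact_mod_cast hk))
  obtain ⟨h1, h2, h3⟩ := ch1_deriv hc
  refine ⟨h1, ?_, ?_, ?_⟩
  · intro x
    have := hbd 0 (by norm_num) x
    rw [iteratedDeriv_zero] at this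
    exact this
  · intro x
    have := hbd 1 (by norm_num) x
    rw [iteratedDeriv_one] at this
    rw [h2]
    exact this
  · intro x
    have := hbd 2 le_rfl x
    rw [iteratedDeriv_succ, iteratedDeriv_one] at this
    rw [h3]
    exact this

end GD31
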