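import Pool.Agent.LibGD31.CH1

/-! # CH2: the infinite product -/

open Filter Topology Set

namespace GD31

/-- left products `f 0 * f 1 * ⋯ * f (n - 1)` -/
noncomputable def ch2_L (f : ℕ → Pm) : ℕ → Pm
  | 0 => 1
  | n + 1 => ch2_L f n * f n

/-- right products `f (n - 1) * ⋯ * f 1 * f 0` -/
noncomputable def ch2_R (f : ℕ → Pm) : ℕ → Pm
  | 0 => 1
  | n + 1 => f n * ch2_R f n

theorem ch2_L_off {f : ℕ → Pm} {W : ℕ → Set ℝ} (hf : ∀ j, Supp (f j) (W j)) (n : ℕ) (x : ℝ)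
    (hx : ∀ i < n, x ∉ W i) : ch2_L f n x = x := by
  induction n with
  | zero => rfl
  | succ n ih =>
    rw [ch2_L, Equiv.Perm.mul_apply, hf n x (hx n (Nat.lt_succ_self n)),
      ih (fun i hi => hx i (by omega))]

theorem ch2_L_on {f : ℕ → Pm} {W : ℕ → Set ℝ} (hf : ∀ j, Supp (f j) (W j))
    (hd : Pairwise (fun i j => Disjoint (W i) (W j))) (n : ℕ) (x : ℝ)
    (i : ℕ) (hi : i < n) (hx : x ∈ W i) : ch2_L f n x = f i x := by
  induction n with
  | zero => omega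
  | succ n ih =>
    rw [ch2_L, Equiv.Perm.mul_apply]
    rcases Nat.lt_or_ge i n with h | h
    · rw [hf n x (fun hc => Set.disjoint_left.mp (hd (by omega : i ≠ n)) hx hc), ih h]
    · have e : i = n := by omega
      subst e
      refine ch2_L_off hf i _ ?_
      intro j hj hc
      exact Set.disjoint_left.mp (hd (by omega : j ≠ i)) hc (ch1_maps (hf i) hx)

theorem ch2_R_off {f : ℕ → Pm} {W : ℕ → Set ℝ} (hf : ∀ j, Supp (f j) (W j)) (n : ℕ) (x : ℝ)
    (hx : ∀ i < n, x ∉ W i) : ch2_R f n x = x := by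
  induction n with
  | zero => rfl
  | succ n ih =>
    rw [ch2_R, Equiv.Perm.mul_apply, ih (fun i hi => hx i (by omega)),
      hf n x (hx n (Nat.lt_succ_self n))]

theorem ch2_R_on {f : ℕ → Pm} {W : ℕ → Set ℝ} (hf : ∀ j, Supp (f j) (W j))
    (hd : Pairwise (fun i j => Disjoint (W i) (W j))) (n : ℕ) (x : ℝ)
    (i : ℕ) (hi : i < n) (hx : x ∈ W i) : ch2_R f n x = f i x := by
  induction n with
  | zero => omega
  | succ n ih =>
    rw [ch2_R, Equiv.Perm.mul_apply]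
    rcases Nat.lt_or_ge i n with h | h
    · rw [ih h, hf n _ (fun hc => Set.disjoint_left.mp (hd (by omega : i ≠ n))
        (ch1_maps (hf i) hx) hc)]
    · have e : i = n := by omega
      subst e
      rw [ch2_R_off hf i x]
      intro j hj hc
      exact Set.disjoint_left.mp (hd (by omega : j ≠ i)) hc hx

theorem ch2_lim {f : ℕ → Pm} {W : ℕ → Set ℝ} {F : Pm} (hf : ∀ j, Supp (f j) (W j))
    (hd : Pairwise (fun i j => Disjoint (W i) (W j))) (hF : IsGlue W f F) (x : ℝ) :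
    ∃ N, ∀ n ≥ N, ch2_L f n x = F x ∧ ch2_R f n x = F x := by
  by_cases hx : ∃ i, x ∈ W i
  · obtain ⟨i, hi⟩ := hx
    refine ⟨i + 1, fun n hn => ?_⟩
    rw [hF.on i x hi, ch2_L_on hf hd n x i (by omega) hi, ch2_R_on hf hd n x i (by omega) hi]
    exact ⟨rfl, rfl⟩
  · push Not at hx
    refine ⟨0, fun n _ => ?_⟩
    rw [hF.off x hx, ch2_L_off hf n x (fun i _ => hx i), ch2_R_off hf n x (fun i _ => hx i)]
    exact ⟨rfl, rfl⟩

/-- Pointwise: `G₀ = (c₀k₀c₂k₂⋯c₂ₙk₂ₙ) G₂ₙ₊₂ (k₂ₙ₊₁c₂ₙ₊₁⋯k₁c₁)` for each `n`; at a given point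
the two finite products stabilise (same parity supports are disjoint) and `G₂ₙ₊₂` is the identity
at a given point for large `n` (the `X j` are pairwise disjoint). -/
theorem infinite_product (V X : ℕ → Set ℝ) (c k G : ℕ → Pm)
    (hV : ∀ i j, i ≠ j → i % 2 = j % 2 → Disjoint (V i) (V j))
    (hX : Pairwise (fun i j => Disjoint (X i) (X j)))
    (hc : ∀ j, Supp (c j) (V j)) (hk : ∀ j, Supp (k j) (V j)) (hG : ∀ j, Supp (G j) (X j))
    (heven : ∀ j, G (2 * j) = c (2 * j) * k (2 * j) * G (2 * j + 1))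
    (hodd : ∀ j, G (2 * j + 1) = G (2 * j + 2) * k (2 * j + 1) * c (2 * j + 1))
    (Ce Ke Ko Co : Pm)
    (hCe : IsGlue (fun i => V (2 * i)) (fun i => c (2 * i)) Ce)
    (hKe : IsGlue (fun i => V (2 * i)) (fun i => k (2 * i)) Ke)
    (hKo : IsGlue (fun i => V (2 * i + 1)) (fun i => k (2 * i + 1)) Ko)
    (hCo : IsGlue (fun i => V (2 * i + 1)) (fun i => c (2 * i + 1)) Co) :
    G 0 = Ce * Ke * Ko * Co := by
  have hd0 : Pairwise (fun i j => Disjoint (V (2 * i)) (V (2 * j))) :=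
    fun i j hij => hV _ _ (by omega) (by omega)
  have hd1 : Pairwise (fun i j => Disjoint (V (2 * i + 1)) (V (2 * j + 1))) :=
    fun i j hij => hV _ _ (by omega) (by omega)
  have hE := hCe.mul hd0 (fun i => hc _) (fun i => hk _) hKe
  have hO := hKo.mul hd1 (fun i => hk _) (fun i => hc _) hCo
  have hsE : ∀ i, Supp (c (2 * i) * k (2 * i)) (V (2 * i)) :=
    fun i => ch1_supp_mul (hc _) (hk _)
  have hsO : ∀ i, Supp (k (2 * i + 1) * c (2 * i + 1)) (V (2 * i + 1)) :=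
    fun i => ch1_supp_mul (hk _) (hc _)
  have hfin : ∀ n, G 0 = ch2_L (fun i => c (2 * i) * k (2 * i)) n * G (2 * n) *
      ch2_R (fun i => k (2 * i + 1) * c (2 * i + 1)) n := by
    intro n
    induction n with
    | zero => simp [ch2_L, ch2_R]
    | succ n ih =>
      rw [ih, heven, hodd, ch2_L, ch2_R]
      simp only [mul_assoc]
      rfl
  ext x
  obtain ⟨N₁, h1⟩ := ch2_lim hsO hd1 hO x
  obtain ⟨N₂, h2⟩ := ch2_lim hsE hd0 hE ((Ko * Co) x)
  have h3 : ∃ N₃, ∀ n ≥ N₃, G (2 * n) ((Ko * Co) x) = (Ko * Co) x := by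
    by_cases hx : ∃ i, (Ko * Co) x ∈ X (2 * i)
    · obtain ⟨i, hi⟩ := hx
      refine ⟨i + 1, fun n hn => hG _ _ fun hc' => ?_⟩
      exact Set.disjoint_left.mp (hX (by omega : 2 * i ≠ 2 * n)) hi hc'
    · push Not at hx
      exact ⟨0, fun n _ => hG _ _ (hx n)⟩
  obtain ⟨N₃, h3⟩ := h3
  have e := hfin (max N₁ (max N₂ N₃))
  rw [e, Equiv.Perm.mul_apply, (h1 _ (le_max_left _ _)).2, Equiv.Perm.mul_apply,
    h3 _ ((le_max_right _ _).trans (le_max_right _ _)),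
    (h2 _ ((le_max_left _ _).trans (le_max_right _ _))).1]
  rfl

end GD31
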