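import Pool.Agent.LibGD31.CK1

/-! # CK2: composition with a map close to the identity -/

open Filter Topology Set

namespace GD31

private theorem ck2_smooth {γ ψ : ℝ → ℝ} (hγ : Sm γ) (hψ : Sm ψ) : Sm (fun x => γ (x + ψ x)) :=
  hγ.comp (contDiff_id.add hψ)

private theorem ck2_one (k : ℕ) {l : ℝ} (hl : 0 < l) : Nl k 1 l (fun _ => (1 : ℝ)) := by
  refine ⟨contDiff_const, ?_⟩
  intro i _ x
  rw [iteratedDeriv_const]
  split_ifs with h
  · rw [h]; simp
  · simp only [abs_zero]; positivity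

private theorem ck2_diff {f : ℝ → ℝ} (hf : Sm f) : Differentiable ℝ f :=
  hf.differentiable (by simp)

private theorem ck2_deriv {γ ψ : ℝ → ℝ} (hγ : Sm γ) (hψ : Sm ψ) :
    deriv (fun x => γ (x + ψ x)) = fun x => deriv γ (x + ψ x) * (1 + deriv ψ x) := by
  funext x
  have h1 : HasDerivAt (fun x => x + ψ x) (1 + deriv ψ x) x :=
    (hasDerivAt_id x).add ((ck2_diff hψ) x).hasDerivAt
  have h2 : HasDerivAt γ (deriv γ (x + ψ x)) (x + ψ x) := ((ck2_diff hγ) _).hasDerivAt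
  exact (h2.comp x h1).deriv

/-- By scaling (`comp_affine`) take `l = 1`; induction on `k` with
`(γ ∘ (id + ψ))' = (γ' ∘ (id + ψ)) (1 + ψ')` and `Nl.of_deriv`, `Nl.mul`. -/
theorem Nl.comp_id_add (k : ℕ) : ∃ C : ℝ, 1 ≤ C ∧ ∀ (A l : ℝ) (γ ψ : ℝ → ℝ), 0 < l → 0 ≤ A →
    Nl k A l γ → Nl k l l ψ → Nl k (C * A) l (fun x => γ (x + ψ x)) := by
  induction k with
  | zero =>
    refine ⟨1, le_rfl, ?_⟩
    intro A l γ ψ hl hA hγ hψ
    refine ⟨ck2_smooth hγ.smooth hψ.smooth, ?_⟩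
    intro i hi x
    obtain rfl : i = 0 := by omega
    have h := hγ.bound 0 le_rfl (x + ψ x)
    rw [iteratedDeriv_zero] at h ⊢
    rw [one_mul]
    exact h
  | succ k ih =>
    obtain ⟨C, hC, ih⟩ := ih
    have h2k : (1 : ℝ) ≤ 2 ^ k := one_le_pow₀ (by norm_num)
    have hC' : (1 : ℝ) ≤ 2 ^ k * C * 2 := by nlinarith
    refine ⟨2 ^ k * C * 2, hC', ?_⟩
    intro A l γ ψ hl hA hγ hψ
    have hγ' := hγ.derivative hl
    have hψ' := hψ.derivative hl
    rw [div_self hl.ne'] at hψ'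
    have hψk : Nl k l l ψ := hψ.mono (Nat.le_succ k) hl.le le_rfl hl le_rfl
    have h1 := ih (A / l) l (deriv γ) ψ hl (div_nonneg hA hl.le) hγ' hψk
    have h2 : Nl k (1 + 1) l (fun x => 1 + deriv ψ x) := (ck2_one k hl).add hψ'
    have h3 := h1.mul h2 hl (mul_nonneg (by linarith) (div_nonneg hA hl.le)) (by norm_num)
    apply Nl.of_deriv (ck2_smooth hγ.smooth hψ.smooth) hl
    · intro x
      have h := hγ.bound 0 (Nat.zero_le _) (x + ψ x)
      rw [iteratedDeriv_zero, pow_zero, div_one] at h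
      nlinarith
    · rw [ck2_deriv hγ.smooth hψ.smooth]
      have e : 2 ^ k * C * 2 * A / l = 2 ^ k * (C * (A / l)) * (1 + 1) := by ring
      rw [e]
      exact h3

end GD31
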