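import Pool.Agent.LibGD31.CK2

/-! # CK3: difference -/

open Filter Topology Set

namespace GD31

private theorem ck3_diff {f : ℝ → ℝ} (hf : Sm f) : Differentiable ℝ f :=
  hf.differentiable (by simp)

private theorem ck3_smooth {γ ψ : ℝ → ℝ} (hγ : Sm γ) (hψ : Sm ψ) :
    Sm (fun x => γ (x + ψ x) - γ x) :=
  (hγ.comp (contDiff_id.add hψ)).sub hγ

private theorem ck3_deriv {γ ψ : ℝ → ℝ} (hγ : Sm γ) (hψ : Sm ψ) :
    deriv (fun x => γ (x + ψ x) - γ x) = fun x => (deriv γ (x + ψ x) - deriv γ x)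
      + deriv γ (x + ψ x) * deriv ψ x := by
  funext x
  have h1 : HasDerivAt (fun x => x + ψ x) (1 + deriv ψ x) x :=
    (hasDerivAt_id x).add ((ck3_diff hψ) x).hasDerivAt
  have h2 : HasDerivAt γ (deriv γ (x + ψ x)) (x + ψ x) := ((ck3_diff hγ) _).hasDerivAt
  have h3 : HasDerivAt (fun x => γ (x + ψ x)) (deriv γ (x + ψ x) * (1 + deriv ψ x)) x :=
    h2.comp x h1
  have h4 : HasDerivAt (fun x => γ (x + ψ x) - γ x)
      (deriv γ (x + ψ x) * (1 + deriv ψ x) - deriv γ x) x := h3.sub ((ck3_diff hγ) x).hasDerivAt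
  rw [h4.deriv]
  ring

private theorem ck3_mvt {A B l : ℝ} {γ ψ : ℝ → ℝ} (hl : 0 < l) (hA : 0 ≤ A) {k : ℕ}
    (hγ : Nl (k + 1) A l γ) {j : ℕ} (hψ : Nl j B l ψ) (x : ℝ) :
    |γ (x + ψ x) - γ x| ≤ A * B / l := by
  have h1 : ∀ y ∈ (Set.univ : Set ℝ), ‖deriv γ y‖ ≤ A / l := by
    intro y _
    have h := hγ.bound 1 (by omega) y
    rw [iteratedDeriv_one, pow_one] at h
    exact h
  have h2 := convex_univ.norm_image_sub_le_of_norm_deriv_le
    (fun y _ => (ck3_diff hγ.smooth) y) h1 (Set.mem_univ x) (Set.mem_univ (x + ψ x))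
  rw [add_sub_cancel_left, Real.norm_eq_abs, Real.norm_eq_abs] at h2
  have h3 := hψ.bound 0 (Nat.zero_le _) x
  rw [iteratedDeriv_zero, pow_zero, div_one] at h3
  calc |γ (x + ψ x) - γ x| ≤ A / l * |ψ x| := h2
    _ ≤ A / l * B := mul_le_mul_of_nonneg_left h3 (div_nonneg hA hl.le)
    _ = A * B / l := by ring

/-- Induction on `k`: with `D_γ = γ ∘ (id + ψ) - γ` we have
`(D_γ)' = D_{γ'} + (γ' ∘ (id + ψ)) ψ'`; case `k = 0` by the mean value inequality. -/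
theorem Nl.diff (k : ℕ) : ∃ C : ℝ, 1 ≤ C ∧ ∀ (A B l : ℝ) (γ ψ : ℝ → ℝ), 0 < l → 0 ≤ A → 0 ≤ B →
    B ≤ l → Nl (k + 1) A l γ → Nl k B l ψ →
    Nl k (C * A * B / l) l (fun x => γ (x + ψ x) - γ x) := by
  induction k with
  | zero =>
    refine ⟨1, le_rfl, ?_⟩
    intro A B l γ ψ hl hA hB hBl hγ hψ
    refine ⟨ck3_smooth hγ.smooth hψ.smooth, ?_⟩
    intro i hi x
    obtain rfl : i = 0 := by omega
    rw [iteratedDeriv_zero, pow_zero, div_one, one_mul]
    exact ck3_mvt hl hA hγ hψ x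
  | succ k ih =>
    obtain ⟨C, hC, ih⟩ := ih
    obtain ⟨C', hC', hcomp⟩ := Nl.comp_id_add k
    have h2k : (1 : ℝ) ≤ 2 ^ k := one_le_pow₀ (by norm_num)
    have hCC : (1 : ℝ) ≤ C + 2 ^ k * C' := by nlinarith
    refine ⟨C + 2 ^ k * C', hCC, ?_⟩
    intro A B l γ ψ hl hA hB hBl hγ hψ
    have hγ' := hγ.derivative hl
    have hψ' := hψ.derivative hl
    have hψk : Nl k B l ψ := hψ.mono (Nat.le_succ k) hB le_rfl hl le_rfl
    have hψl : Nl k l l ψ := hψ.mono (Nat.le_succ k) hB hBl hl le_rfl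
    have hAl : 0 ≤ A / l := div_nonneg hA hl.le
    have h1 := ih (A / l) B l (deriv γ) ψ hl hAl hB hBl hγ' hψk
    have hγ'' : Nl k (A / l) l (deriv γ) := hγ'.mono (Nat.le_succ k) hAl le_rfl hl le_rfl
    have h2 := hcomp (A / l) l (deriv γ) ψ hl hAl hγ'' hψl
    have h3 := h2.mul hψ' hl (mul_nonneg (by linarith) hAl) (div_nonneg hB hl.le)
    have h4 := h1.add h3
    apply Nl.of_deriv (ck3_smooth hγ.smooth hψ.smooth) hl
    · intro x
      have h := ck3_mvt hl hA hγ hψ x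
      have h5 : 0 ≤ A * B / l := by positivity
      calc |γ (x + ψ x) - γ x| ≤ 1 * (A * B / l) := by rw [one_mul]; exact h
        _ ≤ (C + 2 ^ k * C') * (A * B / l) := mul_le_mul_of_nonneg_right hCC h5
        _ = _ := by ring
    · rw [ck3_deriv hγ.smooth hψ.smooth]
      have e : (C + 2 ^ k * C') * A * B / l / l
          = C * (A / l) * B / l + 2 ^ k * (C' * (A / l)) * (B / l) := by ring
      rw [e]
      exact h4

end GD31
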