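import Pool.Agent.LibGD31.CK2

/-! # CK5: iteration -/

open Filter Topology Set

namespace GD31

/-- `it α γ n` is the displacement of `(G τ)ⁿ τ⁻ⁿ`, where `G = id + γ` and `τ` is the translation
by `α`. -/
noncomputable def it (α : ℝ) (γ : ℝ → ℝ) : ℕ → ℝ → ℝ
  | 0 => fun _ => 0
  | n + 1 => fun x => it α γ n (x - α) + γ (x + it α γ n (x - α))

/-- induction on `n` with CK2: `size(n+1) ≤ size(n) + C A` -/
theorem it_bound (k : ℕ) : ∃ C : ℝ, 1 ≤ C ∧ ∀ (A l α : ℝ) (γ : ℝ → ℝ) (n : ℕ), 0 < l → 0 ≤ A →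
    C * n * A ≤ l → Nl k A l γ → Nl k (C * n * A) l (it α γ n) := by
  obtain ⟨C, hC1, hC⟩ := Nl.comp_id_add k
  have hC0 : 0 ≤ C := le_trans zero_le_one hC1
  refine ⟨C, hC1, ?_⟩
  intro A l α γ n hl hA
  induction n with
  | zero =>
    intro _ _
    refine ⟨contDiff_const, ?_⟩
    intro i _ x
    have h0 : iteratedDeriv i (it α γ 0) x = 0 := by
      have : it α γ 0 = fun _ => (0 : ℝ) := rfl
      rw [this, iteratedDeriv_const]
      split_ifs <;> rfl
    rw [h0]
    simp
  | succ n ih =>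
    intro hn hγ
    push_cast at hn ⊢
    have hCA : 0 ≤ C * A := mul_nonneg hC0 hA
    have hn0 : (0 : ℝ) ≤ C * n * A := by positivity
    have hn1 : C * n * A ≤ l := by
      have : C * (n + 1) * A = C * n * A + C * A := by ring
      linarith
    have h1 := ih hn1 hγ
    have h2 := h1.comp_affine (r := 1) one_pos (-α)
    have h3 : (fun x => it α γ n (1 * x + -α)) = fun x => it α γ n (x - α) := by
      funext x
      rw [one_mul, ← sub_eq_add_neg]
    rw [h3, div_one] at h2
    have h4 := h2.mono (le_refl k) hn0 hn1 hl (le_refl l)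
    have h5 := h2.add (hC A l γ _ hl hA hγ h4)
    have h6 : C * (n + 1) * A = C * n * A + C * A := by ring
    rw [h6]
    exact h5

end GD31
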