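import Pool.Agent.LibGD31.Defs

/-! # CK6: functions which are periodic on an interval -/

open Filter Topology Set

namespace GD31

private theorem ck6_per {f : ℝ → ℝ} {α p q : ℝ} (hpq : p < q)
    (hs : Sm f) (hper : ∀ y ∈ Icc p q, f (y + α) = f y) (i : ℕ) :
    ∀ y ∈ Icc p q, iteratedDeriv i f (y + α) = iteratedDeriv i f y := by
  have hc : Continuous (iteratedDeriv i f) :=
    hs.continuous_iteratedDeriv i (by exact_mod_cast le_top)
  have h1 : ∀ y ∈ Ioo p q, iteratedDeriv i f (y + α) = iteratedDeriv i f y := by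
    intro y hy
    have h2 : (fun z => f (z + α)) =ᶠ[𝓝 y] f := by
      filter_upwards [Ioo_mem_nhds hy.1 hy.2] with z hz
      exact hper z (Ioo_subset_Icc_self hz)
    have h3 := h2.iteratedDeriv_eq i
    rw [← h3, iteratedDeriv_comp_add_const]
  have hcl : IsClosed {y : ℝ | iteratedDeriv i f (y + α) = iteratedDeriv i f y} :=
    isClosed_eq (hc.comp (continuous_id.add continuous_const)) hc
  intro y hy
  have h4 : closure (Ioo p q) ⊆ {y : ℝ | iteratedDeriv i f (y + α) = iteratedDeriv i f y} :=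
    closure_minimal h1 hcl
  rw [closure_Ioo hpq.ne] at h4
  exact h4 hy

private theorem ck6_up {f : ℝ → ℝ} {α p q x₀ : ℝ} (hα : 0 < α)
    (hper : ∀ y ∈ Icc p q, f (y + α) = f y) (hx₀ : x₀ ∈ Icc p (q + α))
    (h0 : f x₀ = 0) (m : ℕ) : x₀ + m * α ≤ q + α → f (x₀ + m * α) = 0 := by
  induction m with
  | zero =>
    intro _
    simpa using h0
  | succ m ih =>
    intro h
    push_cast at h ⊢
    have hm : 0 ≤ (m : ℝ) * α := by positivity
    have h1 : x₀ + (m + 1) * α = x₀ + m * α + α := by ring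
    rw [h1] at h ⊢
    rw [hper _ ⟨by linarith [hx₀.1], by linarith⟩]
    exact ih (by linarith)

private theorem ck6_down {f : ℝ → ℝ} {α p q x₀ : ℝ} (hα : 0 < α)
    (hper : ∀ y ∈ Icc p q, f (y + α) = f y) (hx₀ : x₀ ∈ Icc p (q + α))
    (h0 : f x₀ = 0) (m : ℕ) : p ≤ x₀ - m * α → f (x₀ - m * α) = 0 := by
  induction m with
  | zero =>
    intro _
    simpa using h0
  | succ m ih =>
    intro h
    push_cast at h ⊢
    have hm : 0 ≤ (m : ℝ) * α := by positivity
    have h1 : x₀ - (m + 1) * α + α = x₀ - m * α := by ring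
    rw [← hper _ ⟨h, by nlinarith [hx₀.2]⟩, h1]
    exact ih (by nlinarith)

private theorem ck6_zero {f : ℝ → ℝ} {α p q x₀ : ℝ} (hα : 0 < α) (hpq : p + α ≤ q)
    (hs : Sm f) (hper : ∀ y ∈ Icc p q, f (y + α) = f y) (hx₀ : x₀ ∈ Icc p (q + α))
    (h0 : f x₀ = 0) (i : ℕ) : ∀ y ∈ Icc p (q + α),
      ∃ ξ ∈ Icc p (q + α), iteratedDeriv i f ξ = 0 ∧ |y - ξ| ≤ α := by
  have hpq' : p < q := by linarith
  intro y hy
  cases i with
  | zero =>
    rcases le_total x₀ y with h | h
    · have h1 : 0 ≤ (y - x₀) / α := div_nonneg (by linarith) hα.le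
      have h2 := Nat.floor_le h1
      have h3 := Nat.lt_floor_add_one ((y - x₀) / α)
      rw [le_div_iff₀ hα] at h2
      rw [div_lt_iff₀ hα] at h3
      set m : ℕ := ⌊(y - x₀) / α⌋₊ with hm
      have h5 : 0 ≤ (m : ℝ) * α := by positivity
      refine ⟨x₀ + m * α, ⟨by linarith [hx₀.1], by linarith [hy.2]⟩, ?_, ?_⟩
      · rw [iteratedDeriv_zero]
        exact ck6_up hα hper hx₀ h0 m (by linarith [hy.2])
      · rw [abs_le]
        constructor <;> nlinarith
    · have h1 : 0 ≤ (x₀ - y) / α := div_nonneg (by linarith) hα.le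
      have h2 := Nat.floor_le h1
      have h3 := Nat.lt_floor_add_one ((x₀ - y) / α)
      rw [le_div_iff₀ hα] at h2
      rw [div_lt_iff₀ hα] at h3
      set m : ℕ := ⌊(x₀ - y) / α⌋₊ with hm
      have h5 : 0 ≤ (m : ℝ) * α := by positivity
      refine ⟨x₀ - m * α, ⟨by linarith [hy.1], by linarith [hx₀.2]⟩, ?_, ?_⟩
      · rw [iteratedDeriv_zero]
        exact ck6_down hα hper hx₀ h0 m (by linarith [hy.1])
      · rw [abs_le]
        constructor <;> nlinarith
  | succ i =>
    have hc : Continuous (iteratedDeriv i f) :=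
      hs.continuous_iteratedDeriv i (by exact_mod_cast le_top)
    rw [iteratedDeriv_succ]
    rcases le_or_gt y q with h | h
    · obtain ⟨ξ, hξ, hd⟩ := exists_deriv_eq_zero (f := iteratedDeriv i f)
        (show y < y + α by linarith) hc.continuousOn
        (ck6_per hpq' hs hper i y ⟨hy.1, h⟩).symm
      refine ⟨ξ, ⟨by linarith [hξ.1, hy.1], by linarith [hξ.2]⟩, hd, ?_⟩
      rw [abs_le]
      constructor <;> linarith [hξ.1, hξ.2]
    · have h7 := (ck6_per hpq' hs hper i (y - α) ⟨by linarith, by linarith [hy.2]⟩).symm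
      rw [sub_add_cancel] at h7
      obtain ⟨ξ, hξ, hd⟩ := exists_deriv_eq_zero (f := iteratedDeriv i f)
        (show y - α < y by linarith) hc.continuousOn h7
      refine ⟨ξ, ⟨by linarith [hξ.1], by linarith [hξ.2, hy.2]⟩, hd, ?_⟩
      rw [abs_le]
      constructor <;> linarith [hξ.1, hξ.2]

/-- `f` has period `α` on `[p, q + α]` (that is `f (y + α) = f y` for `y ∈ [p, q]`), `α ≤ q - p`,
and a zero there: then the derivatives of order `i ≤ k` are at most `M α^(k-i)`, where `M` bounds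
the `k`-th one. Rolle: `f⁽ⁱ⁾`, `i ≥ 1`, has a zero within distance `α` of every point. -/
theorem periodic_bound {k : ℕ} {f : ℝ → ℝ} {α p q x₀ M : ℝ} (hα : 0 < α) (hpq : p + α ≤ q)
    (hs : Sm f) (hper : ∀ y ∈ Icc p q, f (y + α) = f y) (hx₀ : x₀ ∈ Icc p (q + α))
    (h0 : f x₀ = 0) (hM : ∀ y ∈ Icc p (q + α), |iteratedDeriv k f y| ≤ M) :
    ∀ i ≤ k, ∀ y ∈ Icc p (q + α), |iteratedDeriv i f y| ≤ M * α ^ (k - i) := by
  have hM0 : 0 ≤ M := le_trans (abs_nonneg _) (hM x₀ hx₀)
  have key : ∀ j : ℕ, j ≤ k → ∀ y ∈ Icc p (q + α), |iteratedDeriv (k - j) f y| ≤ M * α ^ j := by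
    intro j
    induction j with
    | zero =>
      intro _ y hy
      simpa using hM y hy
    | succ j ih =>
      intro hj y hy
      have h1 : k - j = (k - (j + 1)) + 1 := by omega
      have h2 := ih (by omega)
      rw [h1] at h2
      obtain ⟨ξ, hξ, hz, hd⟩ := ck6_zero hα hpq hs hper hx₀ h0 (k - (j + 1)) y hy
      have hdiff : Differentiable ℝ (iteratedDeriv (k - (j + 1)) f) :=
        hs.differentiable_iteratedDeriv _ (WithTop.coe_lt_coe.2 (ENat.natCast_lt_top _))
      have h3 := (convex_Icc p (q + α)).norm_image_sub_le_of_norm_deriv_le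
        (f := iteratedDeriv (k - (j + 1)) f) (C := M * α ^ j)
        (fun x _ => hdiff x) (fun x hx => by
          rw [← iteratedDeriv_succ, Real.norm_eq_abs]
          exact h2 x hx) hξ hy
      rw [hz, sub_zero, Real.norm_eq_abs, Real.norm_eq_abs] at h3
      refine h3.trans ?_
      rw [pow_succ, ← mul_assoc]
      exact mul_le_mul_of_nonneg_left hd (by positivity)
  intro i hi y hy
  have h := key (k - i) (by omega) y hy
  rwa [Nat.sub_sub_self hi] at h

end GD31
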