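import Pool.Agent.LibGD31.CK1
import Pool.Agent.LibGD31.CK2
import Pool.Agent.LibGD31.CK3
import Pool.Agent.LibGD31.CK4
import Pool.Agent.LibGD31.CK5
import Pool.Agent.LibGD31.CK6
import Pool.Agent.LibGD31.CK7
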