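import Pool.Agent.LibGD31.Defs

/-! # CK1: algebra of the seminorms Nl -/

open Filter Topology Set

namespace GD31

variable {k : ℕ} {A B l : ℝ} {f g : ℝ → ℝ}

private theorem ck1_at (hf : Sm f) (i : ℕ) (x : ℝ) : ContDiffAt ℝ i f x := by
  have h : (i : WithTop ℕ∞) ≤ ((⊤ : ℕ∞) : WithTop ℕ∞) := by exact_mod_cast le_top
  exact (hf.of_le h).contDiffAt

theorem Nl.mono (h : Nl k A l f) {k' : ℕ} {A' l' : ℝ} (hk : k' ≤ k) (hA0 : 0 ≤ A) (hA : A ≤ A')
    (hl' : 0 < l') (hl : l' ≤ l) : Nl k' A' l' f := by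
  refine ⟨h.smooth, fun i hi x => (h.bound i (hi.trans hk) x).trans ?_⟩
  exact div_le_div₀ (hA0.trans hA) hA (pow_pos hl' i) (pow_le_pow_left₀ hl'.le hl i)

theorem Nl.add (h : Nl k A l f) (h' : Nl k B l g) : Nl k (A + B) l (fun x => f x + g x) := by
  refine ⟨h.smooth.add h'.smooth, fun i hi x => ?_⟩
  rw [iteratedDeriv_fun_add (ck1_at h.smooth i x) (ck1_at h'.smooth i x), add_div]
  exact (abs_add_le _ _).trans (add_le_add (h.bound i hi x) (h'.bound i hi x))

theorem Nl.sub (h : Nl k A l f) (h' : Nl k B l g) : Nl k (A + B) l (fun x => f x - g x) := by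
  refine ⟨h.smooth.sub h'.smooth, fun i hi x => ?_⟩
  rw [iteratedDeriv_fun_sub (ck1_at h.smooth i x) (ck1_at h'.smooth i x), add_div]
  exact (abs_sub _ _).trans (add_le_add (h.bound i hi x) (h'.bound i hi x))

theorem Nl.const_mul (h : Nl k A l f) (c : ℝ) : Nl k (|c| * A) l (fun x => c * f x) := by
  refine ⟨contDiff_const.mul h.smooth, fun i hi x => ?_⟩
  rw [iteratedDeriv_const_mul_field, abs_mul, mul_div_assoc]
  exact mul_le_mul_of_nonneg_left (h.bound i hi x) (abs_nonneg c)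

theorem Nl.mul (h : Nl k A l f) (h' : Nl k B l g) (hl : 0 < l) (hA : 0 ≤ A) (hB : 0 ≤ B) :
    Nl k (2 ^ k * A * B) l (fun x => f x * g x) := by
  refine ⟨h.smooth.mul h'.smooth, fun i hi x => ?_⟩
  rw [iteratedDeriv_fun_mul (ck1_at h.smooth i x) (ck1_at h'.smooth i x)]
  have h1 : ∀ j ∈ Finset.range (i + 1),
      |(i.choose j : ℝ) * iteratedDeriv j f x * iteratedDeriv (i - j) g x| ≤
        (i.choose j : ℝ) * (A * B / l ^ i) := by
    intro j hj
    have hji : j ≤ i := Nat.lt_succ_iff.1 (Finset.mem_range.1 hj)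
    rw [abs_mul, abs_mul, Nat.abs_cast, mul_assoc]
    refine mul_le_mul_of_nonneg_left ?_ (Nat.cast_nonneg _)
    have h2 := h.bound j (hji.trans hi) x
    have h3 := h'.bound (i - j) ((Nat.sub_le i j).trans hi) x
    have h4 : A / l ^ j * (B / l ^ (i - j)) = A * B / l ^ i := by
      rw [div_mul_div_comm, ← pow_add, Nat.add_sub_cancel' hji]
    rw [← h4]
    exact mul_le_mul h2 h3 (abs_nonneg _) (div_nonneg hA (pow_pos hl j).le)
  refine (Finset.abs_sum_le_sum_abs _ _).trans ((Finset.sum_le_sum h1).trans ?_)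
  rw [← Finset.sum_mul]
  have h5 : (∑ j ∈ Finset.range (i + 1), (i.choose j : ℝ)) = 2 ^ i := by
    exact_mod_cast Nat.sum_range_choose i
  rw [h5, mul_assoc, mul_div_assoc (2 ^ k : ℝ)]
  refine mul_le_mul_of_nonneg_right (pow_le_pow_right₀ one_le_two hi) ?_
  exact div_nonneg (mul_nonneg hA hB) (pow_pos hl i).le

/-- precomposition with `x ↦ r x + c` -/
theorem Nl.comp_affine (h : Nl k A l f) {r : ℝ} (hr : 0 < r) (c : ℝ) :
    Nl k A (l / r) (fun x => f (r * x + c)) := by
  have hs : Sm (fun y => f (y + c)) := h.smooth.comp (contDiff_id.add contDiff_const)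
  refine ⟨h.smooth.comp ((contDiff_const.mul contDiff_id).add contDiff_const), fun i hi x => ?_⟩
  have hle : (i : WithTop ℕ∞) ≤ ((⊤ : ℕ∞) : WithTop ℕ∞) := by exact_mod_cast le_top
  have h1 : iteratedDeriv i (fun x => f (r * x + c)) x = r ^ i * iteratedDeriv i f (r * x + c) := by
    have h2 := congrFun (iteratedDeriv_comp_const_mul (f := fun y => f (y + c)) (hs.of_le hle) r) x
    rw [iteratedDeriv_comp_add_const] at h2
    exact h2
  rw [h1, abs_mul, abs_of_pos (pow_pos hr i), div_pow, div_div_eq_mul_div, mul_comm A, mul_div_assoc]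
  exact mul_le_mul_of_nonneg_left (h.bound i hi _) (pow_pos hr i).le

theorem Nl.of_deriv (hs : Sm f) (hl : 0 < l) (h0 : ∀ x, |f x| ≤ A)
    (h : Nl k (A / l) l (deriv f)) : Nl (k + 1) A l f := by
  refine ⟨hs, fun i hi x => ?_⟩
  rcases i with _ | i
  · rw [iteratedDeriv_zero, pow_zero, div_one]
    exact h0 x
  · rw [iteratedDeriv_succ', pow_succ', ← div_div]
    exact h.bound i (by omega) x

theorem Nl.derivative (h : Nl (k + 1) A l f) (hl : 0 < l) : Nl k (A / l) l (deriv f) := by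
  refine ⟨(contDiff_infty_iff_deriv.1 h.smooth).2, fun i hi x => ?_⟩
  rw [← iteratedDeriv_succ', div_div, ← pow_succ']
  exact h.bound (i + 1) (by omega) x

private theorem ck1_compact (hc : HasCompactSupport f) (i : ℕ) :
    HasCompactSupport (iteratedDeriv i f) := by
  induction i with
  | zero => rwa [iteratedDeriv_zero]
  | succ i ih =>
    rw [iteratedDeriv_succ]
    exact ih.deriv

/-- a smooth function with compact support has finite norms -/
theorem exists_Nl_of_compact (k : ℕ) (hs : Sm f) (hc : HasCompactSupport f) :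
    ∃ C : ℝ, 1 ≤ C ∧ Nl k C 1 f := by
  have h : ∀ i : ℕ, ∃ C : ℝ, ∀ x, ‖iteratedDeriv i f x‖ ≤ C := fun i => by
    have hle : (i : WithTop ℕ∞) ≤ ((⊤ : ℕ∞) : WithTop ℕ∞) := by exact_mod_cast le_top
    exact (ck1_compact hc i).exists_bound_of_continuous (hs.continuous_iteratedDeriv i hle)
  choose C hC using h
  refine ⟨1 + ∑ i ∈ Finset.range (k + 1), |C i|, ?_, hs, fun i hi x => ?_⟩
  · have : 0 ≤ ∑ i ∈ Finset.range (k + 1), |C i| := Finset.sum_nonneg fun _ _ => abs_nonneg _
    linarith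
  · rw [one_pow, div_one]
    have h1 : |C i| ≤ ∑ i ∈ Finset.range (k + 1), |C i| :=
      Finset.single_le_sum (f := fun i => |C i|) (fun _ _ => abs_nonneg _)
        (Finset.mem_range.2 (by omega))
    have h2 := hC i x
    rw [Real.norm_eq_abs] at h2
    linarith [le_abs_self (C i)]

end GD31
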