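import Mathlib

/-!
# Distortion elements in `G²` (MP_b44c39_an): definitions shared by all files

Everything lives in the coordinate `z = 1/x`: germs at `z = ±∞` of diffeomorphisms of the line.
-/

open Filter Topology Set

namespace GD31

/-- Permutations of the line. -/
abbrev Pm : Type := Equiv.Perm ℝ

/-- Smooth (`C^∞`) real functions. -/
abbrev Sm (f : ℝ → ℝ) : Prop := ContDiff ℝ ((⊤ : ℕ∞) : WithTop ℕ∞) f

/-- `Nl k A l f`: `f` is smooth and `|f⁽ⁱ⁾| ≤ A / lⁱ` everywhere for `i ≤ k`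
(amplitude `A`, length scale `l`). -/
structure Nl (k : ℕ) (A l : ℝ) (f : ℝ → ℝ) : Prop where
  smooth : Sm f
  bound : ∀ i ≤ k, ∀ x, |iteratedDeriv i f x| ≤ A / l ^ i

/-- Displacement of a permutation. -/
def disp (F : Pm) : ℝ → ℝ := fun x => F x - x

/-- `F` is the identity off the set `I`. -/
def Supp (F : Pm) (I : Set ℝ) : Prop := ∀ x, x ∉ I → F x = x

/-- Commutator `a b a⁻¹ b⁻¹`. -/
def cm {G : Type*} [Group G] (a b : G) : G := a * b * a⁻¹ * b⁻¹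

/-- The translation by `α`. -/
def tr (α : ℝ) : Pm := Equiv.addRight α

@[simp] theorem tr_apply (α x : ℝ) : tr α x = x + α := rfl

/-- `C²` size: `F` is `C²` and `F - id`, `F' - 1`, `F''` are at most `s` in absolute value. -/
structure Sz (s : ℝ) (F : ℝ → ℝ) : Prop where
  contDiff : ContDiff ℝ 2 F
  d0 : ∀ x, |F x - x| ≤ s
  d1 : ∀ x, |deriv F x - 1| ≤ s
  d2 : ∀ x, |deriv (deriv F) x| ≤ s

/-- `Ob k p f`: `f` is smooth and `|f⁽ⁱ⁾(z)| ≤ C |z|^(-p-i)` for `|z| ≥ R`, `i ≤ k`. -/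
structure Ob (k : ℕ) (p : ℝ) (f : ℝ → ℝ) : Prop where
  smooth : Sm f
  bound : ∃ C R : ℝ, 0 ≤ C ∧ 1 ≤ R ∧ ∀ i ≤ k, ∀ z, R ≤ |z| →
    |iteratedDeriv i f z| ≤ C * |z| ^ (-(p + i))

/-- The flat class at infinity: `F` is `C²`, `F - id → 0`, `z (F' - 1) → 0`, `z² F'' → 0`
as `|z| → ∞`. -/
structure Flat (F : ℝ → ℝ) : Prop where
  contDiff : ContDiff ℝ 2 F
  f0 : Tendsto (fun z => F z - z) (cocompact ℝ) (𝓝 0)
  f1 : Tendsto (fun z => z * (deriv F z - 1)) (cocompact ℝ) (𝓝 0)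
  f2 : Tendsto (fun z => z ^ 2 * deriv (deriv F) z) (cocompact ℝ) (𝓝 0)

/-- The affine map `x ↦ y + l x`, `l ≠ 0`. -/
noncomputable def af (y l : ℝ) (hl : l ≠ 0) : Pm where
  toFun x := y + l * x
  invFun z := (z - y) / l
  left_inv x := by field_simp; ring
  right_inv z := by field_simp; ring

@[simp] theorem af_apply (y l : ℝ) (hl : l ≠ 0) (x : ℝ) : af y l hl x = y + l * x := rfl

end GD31
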