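import Pool.Agent.LibGD31.OB1

/-! # OB2: composition and difference -/

open Filter Topology Set

namespace GD31

variable {k : ℕ} {p q : ℝ} {f g : ℝ → ℝ}

private theorem ob2_diff (h : Sm f) : Differentiable ℝ f := (contDiff_infty_iff_deriv.1 h).1

private theorem ob2_sderiv (h : Sm f) : Sm (deriv f) := (contDiff_infty_iff_deriv.1 h).2

/-- comparison of the powers at comparable points -/
private theorem ob2_rpow (s : ℝ) {t z : ℝ} (hz : 0 < z) (h1 : z / 2 ≤ t) (h2 : t ≤ 2 * z) :
    t ^ (-s) ≤ 2 ^ |s| * z ^ (-s) := by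
  have ht : 0 < t := by linarith
  rcases le_total s 0 with hs | hs
  · have h3 : t ^ (-s) ≤ (2 * z) ^ (-s) := Real.rpow_le_rpow ht.le h2 (by linarith)
    rw [Real.mul_rpow (by norm_num) hz.le] at h3
    rw [abs_of_nonpos hs]
    exact h3
  · have h3 : t ^ (-s) ≤ (z / 2) ^ (-s) :=
      Real.rpow_le_rpow_of_nonpos (by linarith) h1 (by linarith)
    have h4 : (z / 2) ^ (-s) = 2 ^ s * z ^ (-s) := by
      rw [Real.div_rpow hz.le (by norm_num), Real.rpow_neg (by norm_num : (0 : ℝ) ≤ 2), div_inv_eq_mul,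
        mul_comm]
    rw [h4] at h3
    rw [abs_of_nonneg hs]
    exact h3

/-- `g` is small with respect to `z` -/
private theorem ob2_small (hg : Ob k 0 g) : ∃ R : ℝ, 1 ≤ R ∧ ∀ z, R ≤ |z| → |g z| ≤ |z| / 2 := by
  obtain ⟨C, R, hC, hR, hb⟩ := hg.bound
  refine ⟨max R (2 * C), hR.trans (le_max_left _ _), fun z hz => ?_⟩
  have h1 := hb 0 (Nat.zero_le _) z ((le_max_left _ _).trans hz)
  rw [iteratedDeriv_zero] at h1
  have h2 := (le_max_right _ _).trans hz
  have h3 : -((0 : ℝ) + ((0 : ℕ) : ℝ)) = 0 := by simp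
  rw [h3, Real.rpow_zero, mul_one] at h1
  linarith

private theorem ob2_comp0 (h : Ob 0 p f) (hg : Ob 0 0 g) : Ob 0 p (fun z => f (z + g z)) := by
  obtain ⟨C, R, hC, hR, hb⟩ := h.bound
  obtain ⟨R', hR', hs⟩ := ob2_small hg
  refine ⟨h.smooth.comp (contDiff_id.add hg.smooth), C * 2 ^ |p|, max (2 * R) R',
    by positivity, hR'.trans (le_max_right _ _), fun i hi z hz => ?_⟩
  obtain rfl : i = 0 := by omega
  have hz1 : 2 * R ≤ |z| := (le_max_left _ _).trans hz
  have hz0 : 0 < |z| := by linarith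
  have h1 := hs z ((le_max_right _ _).trans hz)
  have h2 : |z| / 2 ≤ |z + g z| := by
    have h5 := abs_sub_abs_le_abs_sub z (-g z)
    rw [abs_neg, sub_neg_eq_add] at h5
    linarith
  have h3 : |z + g z| ≤ 2 * |z| := by
    have h5 := abs_add_le z (g z)
    linarith
  have h4 := hb 0 le_rfl (z + g z) (by linarith)
  rw [iteratedDeriv_zero] at h4 ⊢
  have h6 : -(p + ((0 : ℕ) : ℝ)) = -p := by simp
  rw [h6] at h4 ⊢
  calc |f (z + g z)| ≤ C * |z + g z| ^ (-p) := h4
    _ ≤ C * (2 ^ |p| * |z| ^ (-p)) := mul_le_mul_of_nonneg_left (ob2_rpow p hz0 h2 h3) hC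
    _ = C * 2 ^ |p| * |z| ^ (-p) := by ring

/-- `f ∘ (id + g)` for `g` bounded with its derivatives of order `i` at most `C |z|^(-i)`. -/
theorem Ob.comp_id_add (h : Ob k p f) (hg : Ob k 0 g) : Ob k p (fun z => f (z + g z)) := by
  induction k generalizing f p with
  | zero => exact ob2_comp0 h hg
  | succ k ih =>
    have hfd := ob2_diff h.smooth
    have hgd := ob2_diff hg.smooth
    have hgk : Ob k 0 g := hg.mono (Nat.le_succ k) le_rfl
    refine Ob.of_deriv (h.smooth.comp (contDiff_id.add hg.smooth))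
      (ob2_comp0 (h.mono (Nat.zero_le _) le_rfl) (hg.mono (Nat.zero_le _) le_rfl)) ?_
    have h1 : deriv (fun z => f (z + g z)) = fun z => deriv f (z + g z) * (1 + deriv g z) := by
      funext z
      have h2 : HasDerivAt (fun z => z + g z) (1 + deriv g z) z :=
        (hasDerivAt_id z).add (hgd z).hasDerivAt
      exact ((hfd (z + g z)).hasDerivAt.comp z h2).deriv
    rw [h1]
    have h3 := (ih h.derivative hgk).mul
      ((Ob.const k 1).add (hg.derivative.mono le_rfl (by norm_num : (0 : ℝ) ≤ 0 + 1)))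
    rw [add_zero] at h3
    exact h3

private theorem ob2_diff0 (h : Ob 1 p f) (hg : Ob 0 q g) (hq : 0 ≤ q) :
    Ob 0 (p + 1 + q) (fun z => f (z + g z) - f z) := by
  obtain ⟨C, R, hC, hR, hb⟩ := h.bound
  obtain ⟨C', R', hC', hR', hb'⟩ := hg.bound
  obtain ⟨R'', hR'', hs⟩ := ob2_small (hg.mono le_rfl hq)
  refine ⟨(h.smooth.comp (contDiff_id.add hg.smooth)).sub h.smooth, C * 2 ^ |p + 1| * C',
    max (max (2 * R) R') R'', by positivity, hR''.trans (le_max_right _ _), fun i hi z hz => ?_⟩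
  obtain rfl : i = 0 := by omega
  have hz1 : 2 * R ≤ |z| := ((le_max_left _ _).trans (le_max_left _ _)).trans hz
  have hz2 : R' ≤ |z| := ((le_max_right _ _).trans (le_max_left _ _)).trans hz
  have hz0 : 0 < |z| := by linarith
  have h1 := hs z ((le_max_right _ _).trans hz)
  have h2 := hb' 0 le_rfl z hz2
  rw [iteratedDeriv_zero] at h2 ⊢
  have h6 : -(q + ((0 : ℕ) : ℝ)) = -q := by simp
  have h7 : -(p + 1 + q + ((0 : ℕ) : ℝ)) = -(p + 1) + -q := by simp; ring
  rw [h6] at h2
  rw [h7, Real.rpow_add hz0]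
  have h8 : ∀ w ∈ Metric.closedBall z |g z|, ‖deriv f w‖ ≤ C * (2 ^ |p + 1| * |z| ^ (-(p + 1))) := by
    intro w hw
    rw [Metric.mem_closedBall, Real.dist_eq] at hw
    have h9 : |z| / 2 ≤ |w| := by
      have h5 := abs_sub_abs_le_abs_sub z w
      rw [abs_sub_comm] at h5
      linarith
    have h10 : |w| ≤ 2 * |z| := by
      have h5 := abs_sub_abs_le_abs_sub w z
      linarith
    have h11 := hb 1 le_rfl w (by linarith)
    rw [iteratedDeriv_one, Nat.cast_one] at h11
    exact h11.trans (mul_le_mul_of_nonneg_left (ob2_rpow (p + 1) hz0 h9 h10) hC)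
  have h12 := Convex.norm_image_sub_le_of_norm_deriv_le (f := f)
    (fun w _ => (ob2_diff h.smooth w)) h8 (convex_closedBall z |g z|)
    (Metric.mem_closedBall_self (abs_nonneg _))
    (show z + g z ∈ Metric.closedBall z |g z| by
      rw [Metric.mem_closedBall, Real.dist_eq, add_sub_cancel_left])
  rw [Real.norm_eq_abs, Real.norm_eq_abs, add_sub_cancel_left] at h12
  calc |f (z + g z) - f z| ≤ C * (2 ^ |p + 1| * |z| ^ (-(p + 1))) * |g z| := h12
    _ ≤ C * (2 ^ |p + 1| * |z| ^ (-(p + 1))) * (C' * |z| ^ (-q)) :=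
        mul_le_mul_of_nonneg_left h2 (by positivity)
    _ = C * 2 ^ |p + 1| * C' * (|z| ^ (-(p + 1)) * |z| ^ (-q)) := by ring

/-- `f ∘ (id + g) - f` gains one order (times the order `q` of `g`). -/
theorem Ob.diff (h : Ob (k + 1) p f) (hg : Ob k q g) (hq : 0 ≤ q) :
    Ob k (p + 1 + q) (fun z => f (z + g z) - f z) := by
  induction k generalizing f p with
  | zero => exact ob2_diff0 h hg hq
  | succ k ih =>
    have hfd := ob2_diff h.smooth
    have hgd := ob2_diff hg.smooth
    have hgk : Ob k q g := hg.mono (Nat.le_succ k) le_rfl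
    refine Ob.of_deriv ((h.smooth.comp (contDiff_id.add hg.smooth)).sub h.smooth)
      (ob2_diff0 (h.mono (by omega) le_rfl) (hg.mono (Nat.zero_le _) le_rfl) hq) ?_
    have h1 : deriv (fun z => f (z + g z) - f z) = fun z =>
        (deriv f (z + g z) - deriv f z) + deriv f (z + g z) * deriv g z := by
      funext z
      have h2 : HasDerivAt (fun z => z + g z) (1 + deriv g z) z :=
        (hasDerivAt_id z).add (hgd z).hasDerivAt
      have h3 := ((hfd (z + g z)).hasDerivAt.comp z h2).sub (hfd z).hasDerivAt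
      rw [show (fun z => f (z + g z) - f z) = (f ∘ fun z => z + g z) - f from rfl, h3.deriv]
      ring
    rw [h1]
    have h4 := ih h.derivative hgk
    have h5 := ((h.derivative.mono (Nat.le_succ k) le_rfl).comp_id_add
      (hgk.mono le_rfl hq)).mul hg.derivative
    have h6 : p + 1 + q + 1 = p + 1 + 1 + q := by ring
    have h7 : p + 1 + q + 1 = p + 1 + (q + 1) := by ring
    refine Ob.add ?_ ?_
    · rw [h6]
      exact h4
    · rw [h7]
      exact h5

end GD31
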