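import Pool.Agent.LibGD31.OB2
import Pool.Agent.LibGD31.CK4

/-! # OB3: inverse -/

open Filter Topology Set

namespace GD31

variable {k : ℕ} {p q : ℝ} {f g : ℝ → ℝ}

/-- a continuous function which is bounded near infinity is bounded -/
private theorem ob3_bdd {g : ℝ → ℝ} (h : Ob k 0 g) : ∃ M : ℝ, 0 ≤ M ∧ ∀ z, |g z| ≤ M := by
  obtain ⟨C, R, hC, hR, hb⟩ := h.bound
  obtain ⟨L, hL⟩ := (isCompact_Icc (a := -R) (b := R)).exists_bound_of_continuousOn
    (f := g) h.smooth.continuous.continuousOn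
  refine ⟨max C L, le_max_of_le_left hC, ?_⟩
  intro z
  rcases le_total R |z| with hz | hz
  · have h1 := hb 0 (Nat.zero_le k) z hz
    rw [iteratedDeriv_zero] at h1
    have hz1 : 1 ≤ |z| := hR.trans hz
    have h2 : |z| ^ (-((0 : ℝ) + ((0 : ℕ) : ℝ))) ≤ 1 :=
      Real.rpow_le_one_of_one_le_of_nonpos hz1 (by push_cast; linarith)
    exact (h1.trans (mul_le_of_le_one_right hC h2)).trans (le_max_left _ _)
  · exact (hL z (abs_le.1 hz)).trans (le_max_right _ _)

/-- a bounded smooth function is in `Ob 0 0` -/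
private theorem ob3_of_bdd {g : ℝ → ℝ} (hs : Sm g) {M : ℝ} (hM : 0 ≤ M) (h : ∀ z, |g z| ≤ M) :
    Ob 0 0 g := by
  refine ⟨hs, M, 1, hM, le_rfl, ?_⟩
  intro i hi z _
  have hi0 : i = 0 := by omega
  subst hi0
  rw [iteratedDeriv_zero]
  have : |z| ^ (-((0 : ℝ) + ((0 : ℕ) : ℝ))) = 1 := by
    rw [Nat.cast_zero, add_zero, neg_zero, Real.rpow_zero]
  rw [this, mul_one]
  exact h z

/-- `1 / (1 + g')` is in `Ob (k - 1) 0` -/
private theorem ob3_iota {g : ℝ → ℝ} (hd : ∀ x, 0 < 1 + deriv g x) (k : ℕ) (h : Ob (k + 1) 0 g) :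
    Ob k 0 (fun x => (1 + deriv g x)⁻¹) := by
  have hs := h.smooth
  have hs1 : Sm (deriv g) := (contDiff_infty_iff_deriv.1 hs).2
  have hs2 : Sm (fun x => (1 + deriv g x)⁻¹) :=
    (contDiff_const.add hs1).inv fun x => (hd x).ne'
  have base : Ob 0 0 (fun x => (1 + deriv g x)⁻¹) := by
    obtain ⟨C, R, hC, hR, hb⟩ := h.bound
    refine ⟨hs2, 2, max R (2 * C), by norm_num, le_max_of_le_left hR, ?_⟩
    intro i hi z hz
    have hi0 : i = 0 := by omega
    subst hi0
    rw [iteratedDeriv_zero, Nat.cast_zero, add_zero, neg_zero, Real.rpow_zero, mul_one]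
    have hz1 : R ≤ |z| := (le_max_left _ _).trans hz
    have hz2 : 2 * C ≤ |z| := (le_max_right _ _).trans hz
    have h0 : 0 < |z| := by linarith
    have h1 := hb 1 (by omega) z hz1
    rw [iteratedDeriv_one, Nat.cast_one, zero_add, Real.rpow_neg_one] at h1
    have h2 : C * |z|⁻¹ ≤ 1 / 2 := by
      rw [← div_eq_mul_inv, div_le_iff₀ h0]
      linarith
    have h3 := (abs_le.1 (h1.trans h2)).1
    rw [abs_of_pos (inv_pos.2 (hd z))]
    rw [inv_le_comm₀ (hd z) (by norm_num)]
    linarith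
  induction k with
  | zero => exact base
  | succ k ih =>
    have h1 := ih (h.mono (Nat.le_succ _) le_rfl)
    have h2 := h.derivative.derivative
    have h3 := ((h2.mul (h1.mul h1)).const_mul (-1)).mono (k' := k) (p' := 0 + 1) le_rfl
      (by norm_num)
    refine Ob.of_deriv hs2 base ?_
    have e : deriv (fun x => (1 + deriv g x)⁻¹) =
        fun x => -1 * (deriv (deriv g) x * ((1 + deriv g x)⁻¹ * (1 + deriv g x)⁻¹)) := by
      funext x
      have h4 : HasDerivAt (fun x => (1 + deriv g x)⁻¹) (-(deriv (deriv g) x) /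
          (1 + deriv g x) ^ 2) x :=
        (((contDiff_infty_iff_deriv.1 hs1).1 x).hasDerivAt.const_add 1).fun_inv (hd x).ne'
      rw [h4.deriv]
      have h5 := (hd x).ne'
      field_simp
    rw [e]
    exact h3

/-- inverse of a permutation `id + g`, `g ∈ Ob k 0`: `id + g'`, `g' ∈ Ob k 0`.
(`g' = - g ∘ (id + g')`; first boundedness, then derivatives by induction on `k`.) -/
theorem Ob.inv {F : Pm} (h : Ob k 0 (disp F)) (hd : ∀ x, 0 < deriv F x) :
    Ob k 0 (disp F⁻¹) := by
  have hs := h.smooth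
  have hsi : Sm (disp F⁻¹) := disp_smooth_inv hs hd
  have hF : ∀ x, HasDerivAt F (1 + deriv (disp F) x) x := by
    intro x
    have h1 : HasDerivAt (fun y => y + disp F y) (1 + deriv (disp F) x) x :=
      (hasDerivAt_id x).add ((contDiff_infty_iff_deriv.1 hs).1 x).hasDerivAt
    have h2 : (fun y => y + disp F y) = F := by
      funext y
      unfold disp
      ring
    rwa [h2] at h1
  have hd' : ∀ x, 0 < 1 + deriv (disp F) x := by
    intro x
    rw [← (hF x).deriv]
    exact hd x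
  have hFi : ∀ w, F⁻¹ w = w + disp F⁻¹ w := by
    intro w
    unfold disp
    ring
  have hFic : Continuous (⇑(F⁻¹ : Pm)) := by
    have h2 : (fun w => w + disp F⁻¹ w) = ⇑(F⁻¹ : Pm) := by
      funext w
      exact (hFi w).symm
    rw [← h2]
    exact continuous_id.add hsi.continuous
  obtain ⟨M, hM0, hM⟩ := ob3_bdd h
  have hbase : Ob 0 0 (disp F⁻¹) := by
    refine ob3_of_bdd hsi hM0 ?_
    intro w
    have h1 : disp F⁻¹ w = -disp F (F⁻¹ w) := by
      have h2 : F (F⁻¹ w) = w := Equiv.apply_symm_apply F w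
      unfold disp
      rw [h2]
      ring
    rw [h1, abs_neg]
    exact hM _
  have hder : deriv (disp F⁻¹) =
      fun w => (fun x => -1 * (deriv (disp F) x * (1 + deriv (disp F) x)⁻¹)) (w + disp F⁻¹ w) := by
    funext w
    have h1 : HasDerivAt (⇑(F⁻¹ : Pm)) (1 + deriv (disp F) (F⁻¹ w))⁻¹ w :=
      HasDerivAt.of_local_left_inverse hFic.continuousAt (hF (F⁻¹ w)) (hd' _).ne'
        (Filter.Eventually.of_forall fun y => Equiv.apply_symm_apply F y)
    have h2 : HasDerivAt (disp F⁻¹) ((1 + deriv (disp F) (F⁻¹ w))⁻¹ - 1) w :=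
      h1.sub (hasDerivAt_id w)
    rw [h2.deriv]
    show _ = -1 * (deriv (disp F) (w + disp F⁻¹ w) * (1 + deriv (disp F) (w + disp F⁻¹ w))⁻¹)
    rw [← hFi]
    have h3 := (hd' (F⁻¹ w)).ne'
    field_simp
    ring
  have key : ∀ j ≤ k, Ob j 0 (disp F⁻¹) := by
    intro j
    induction j with
    | zero => exact fun _ => hbase
    | succ j ih =>
      intro hj
      have h1 := ih (by omega)
      have h2 : Ob (j + 1) 0 (disp F) := h.mono hj le_rfl
      have h3 := ob3_iota hd' j h2
      have h4 := ((h2.derivative.mul h3).const_mul (-1)).mono (k' := j) (p' := 0 + 1) le_rfl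
        (by norm_num)
      have h5 := h4.comp_id_add h1
      refine Ob.of_deriv hsi hbase ?_
      rw [hder]
      exact h5
  exact key k le_rfl

end GD31
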