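import Pool.Agent.LibGD31.OB1

/-! # OB4: outer functions -/

open Filter Topology Set

namespace GD31

variable {k : ℕ} {p q : ℝ} {f g : ℝ → ℝ}

private theorem ob4_base {k : ℕ} {p : ℝ} {Φ v : ℝ → ℝ} (hΦ : Sm Φ) (hv : Ob k p v) (hp : 0 < p) :
    Ob 0 p (fun z => Φ (v z) - Φ 0) := by
  refine ⟨(hΦ.comp hv.smooth).sub contDiff_const, ?_⟩
  obtain ⟨C, R, hC, hR, hb⟩ := hv.bound
  obtain ⟨L, hL⟩ := (isCompact_Icc (a := -C) (b := C)).exists_bound_of_continuousOn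
    (f := deriv Φ) ((contDiff_infty_iff_deriv.1 hΦ).2.continuous.continuousOn)
  have hL0 : 0 ≤ L := (norm_nonneg _).trans (hL 0 ⟨by linarith, hC⟩)
  refine ⟨L * C, R, by positivity, hR, ?_⟩
  intro i hi z hz
  have hi0 : i = 0 := by omega
  subst hi0
  rw [iteratedDeriv_zero]
  have h1 := hb 0 (Nat.zero_le k) z hz
  rw [iteratedDeriv_zero] at h1
  have hz1 : 1 ≤ |z| := hR.trans hz
  have h2 : |z| ^ (-(p + ((0 : ℕ) : ℝ))) ≤ 1 :=
    Real.rpow_le_one_of_one_le_of_nonpos hz1 (by push_cast; linarith)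
  have h3 : |v z| ≤ C := h1.trans (mul_le_of_le_one_right hC h2)
  have h4 := (convex_Icc (-C) C).norm_image_sub_le_of_norm_deriv_le (f := Φ) (C := L)
    (fun x _ => (contDiff_infty_iff_deriv.1 hΦ).1 x) (fun x hx => hL x hx)
    (show (0 : ℝ) ∈ Icc (-C) C from ⟨by linarith, hC⟩)
    (show v z ∈ Icc (-C) C from abs_le.1 h3)
  rw [sub_zero, Real.norm_eq_abs, Real.norm_eq_abs] at h4
  calc |Φ (v z) - Φ 0| ≤ L * |v z| := h4
    _ ≤ L * (C * |z| ^ (-(p + ((0 : ℕ) : ℝ)))) := mul_le_mul_of_nonneg_left h1 hL0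
    _ = L * C * |z| ^ (-(p + ((0 : ℕ) : ℝ))) := by ring

/-- `Φ ∘ v - Φ 0` for a smooth `Φ` and `v ∈ Ob k p`, `p > 0`. -/
theorem Ob.outer {Φ v : ℝ → ℝ} (hΦ : Sm Φ) (hv : Ob k p v) (hp : 0 < p) :
    Ob k p (fun z => Φ (v z) - Φ 0) := by
  induction k generalizing Φ with
  | zero => exact ob4_base hΦ hv hp
  | succ k ih =>
    have hv' : Ob k p v := hv.mono (Nat.le_succ k) le_rfl
    have h1 := ih (contDiff_infty_iff_deriv.1 hΦ).2 hv'
    have h2 := hv.derivative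
    have h3 := (h1.mul h2).mono (k' := k) (p' := p + 1) le_rfl (by linarith)
    have h5 := h3.add (h2.const_mul (deriv Φ 0))
    refine Ob.of_deriv ((hΦ.comp hv.smooth).sub contDiff_const) (ob4_base hΦ hv hp) ?_
    have e : deriv (fun z => Φ (v z) - Φ 0) =
        fun z => (deriv Φ (v z) - deriv Φ 0) * deriv v z + deriv Φ 0 * deriv v z := by
      funext z
      have h6 : HasDerivAt (fun z => Φ (v z) - Φ 0) (deriv Φ (v z) * deriv v z) z :=
        (((contDiff_infty_iff_deriv.1 hΦ).1 (v z)).hasDerivAt.comp z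
          ((contDiff_infty_iff_deriv.1 hv.smooth).1 z).hasDerivAt).sub_const _
      rw [h6.deriv]
      ring
    rw [e]
    exact h5

end GD31
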