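import Pool.Agent.LibGD31.EX1
import Pool.Agent.LibGD31.OB

/-! # EX2: the permutations B, F, T, W_j, E_j -/

open Filter Topology Set

namespace GD31

/-- A profile: smooth, small, `Ob 8 (7/8)`. -/
structure Prof (w : ℝ → ℝ) : Prop where
  smooth : Sm w
  s0 : ∀ z, |w z| ≤ 1 / 100
  s1 : ∀ z, |deriv w z| ≤ 1 / 100
  s2 : ∀ z, |deriv (deriv w) z| ≤ 1 / 100
  ob : Ob 8 (7 / 8) w

/-- the functions `B`, `F` -/
noncomputable def Bf (w : ℝ → ℝ) (z : ℝ) : ℝ := z + Pf (-(deriv w z))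

noncomputable def Ff (w : ℝ → ℝ) (z : ℝ) : ℝ := z + w z * Pf (-(deriv w z))

/-- the permutations (junk value `1` if the function is not bijective) -/
noncomputable def Bp (w : ℝ → ℝ) : Pm := by
  classical
  exact if h : Function.Bijective (Bf w) then Equiv.ofBijective _ h else 1

noncomputable def Fp (w : ℝ → ℝ) : Pm := by
  classical
  exact if h : Function.Bijective (Ff w) then Equiv.ofBijective _ h else 1

private theorem ex2_bij {g : ℝ → ℝ} (hd : Differentiable ℝ g) (hpos : ∀ z, 0 < deriv g z)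
    (hb : ∀ z, |g z - z| ≤ 2) : Function.Bijective g := by
  refine ⟨(strictMono_of_deriv_pos hpos).injective, ?_⟩
  refine hd.continuous.surjective ?_ ?_
  · refine tendsto_atTop_mono (f := fun z : ℝ => z + (-2)) (fun z => ?_)
      (tendsto_atTop_add_const_right _ _ tendsto_id)
    have := (abs_le.1 (hb z)).1
    linarith
  · refine tendsto_atBot_mono (g := g) (f := fun z : ℝ => z + 2) (fun z => ?_)
      (tendsto_atBot_add_const_right _ _ tendsto_id)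
    have := (abs_le.1 (hb z)).2
    linarith

private theorem ex2_abs {w : ℝ → ℝ} (hw : Prof w) (z : ℝ) : |-(deriv w z)| ≤ 1 / 100 := by
  rw [abs_neg]; exact hw.s1 z

private theorem ex2_P {w : ℝ → ℝ} (hw : Prof w) (z : ℝ) :
    |Pf (-(deriv w z)) - 1| ≤ 1 / 100 :=
  ((Pf_bounds ((ex2_abs hw z).trans (by norm_num))).1).trans (ex2_abs hw z)

private theorem ex2_hasDeriv {w : ℝ → ℝ} (hw : Prof w) (z : ℝ) :
    HasDerivAt (fun z => Pf (-(deriv w z)))
      (deriv Pf (-(deriv w z)) * (-(deriv (deriv w) z))) z := by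
  have h1 : HasDerivAt Pf (deriv Pf (-(deriv w z))) (-(deriv w z)) :=
    (Pf_smooth.differentiable (by simp) _).hasDerivAt
  have h0 : ContDiff ℝ 1 (deriv w) := by
    have h2 : ContDiff ℝ 2 w := contDiff_infty.1 hw.smooth 2
    have : ContDiff ℝ (1 + 1) w := by
      have h3 : (1 + 1 : WithTop ℕ∞) = 2 := one_add_one_eq_two
      rw [h3]; exact h2
    exact (contDiff_succ_iff_deriv.1 this).2.2
  have h2 : HasDerivAt (fun z => -(deriv w z)) (-(deriv (deriv w) z)) z :=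
    ((h0.differentiable (by norm_num)) z).hasDerivAt.neg
  exact HasDerivAt.comp z h1 h2

private theorem ex2_P' {w : ℝ → ℝ} (hw : Prof w) (z : ℝ) :
    |deriv Pf (-(deriv w z)) * (-(deriv (deriv w) z))| ≤ 1 / 100 := by
  rw [abs_mul, abs_neg]
  have h1 := (Pf_bounds ((ex2_abs hw z).trans (by norm_num))).2
  have h2 := hw.s2 z
  calc _ ≤ 1 * (1 / 100 : ℝ) := mul_le_mul h1 h2 (abs_nonneg _) (by norm_num)
    _ = _ := by norm_num

private theorem ex2_Bd {w : ℝ → ℝ} (hw : Prof w) (z : ℝ) :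
    HasDerivAt (Bf w) (1 + deriv Pf (-(deriv w z)) * (-(deriv (deriv w) z))) z :=
  (hasDerivAt_id z).add (ex2_hasDeriv hw z)

private theorem ex2_Fd {w : ℝ → ℝ} (hw : Prof w) (z : ℝ) :
    HasDerivAt (Ff w) (1 + (deriv w z * Pf (-(deriv w z)) +
      w z * (deriv Pf (-(deriv w z)) * (-(deriv (deriv w) z))))) z := by
  have h1 : HasDerivAt w (deriv w z) z := (hw.smooth.differentiable (by simp) z).hasDerivAt
  exact (hasDerivAt_id z).add (h1.mul (ex2_hasDeriv hw z))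

private theorem ex2_Bpos {w : ℝ → ℝ} (hw : Prof w) (z : ℝ) : 0 < deriv (Bf w) z := by
  rw [(ex2_Bd hw z).deriv]
  have := (abs_le.1 (ex2_P' hw z)).1
  linarith

private theorem ex2_P2 {w : ℝ → ℝ} (hw : Prof w) (z : ℝ) : |Pf (-(deriv w z))| ≤ 2 := by
  have := abs_le.1 (ex2_P hw z)
  rw [abs_le]; constructor <;> linarith [this.1, this.2]

private theorem ex2_Fpos {w : ℝ → ℝ} (hw : Prof w) (z : ℝ) : 0 < deriv (Ff w) z := by
  rw [(ex2_Fd hw z).deriv]
  have h1 : |deriv w z * Pf (-(deriv w z))| ≤ 1 / 50 := by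
    rw [abs_mul]
    calc _ ≤ (1 / 100 : ℝ) * 2 := mul_le_mul (hw.s1 z) (ex2_P2 hw z) (abs_nonneg _) (by norm_num)
      _ = _ := by norm_num
  have h2 : |w z * (deriv Pf (-(deriv w z)) * (-(deriv (deriv w) z)))| ≤ 1 / 50 := by
    rw [abs_mul]
    calc _ ≤ (1 / 100 : ℝ) * (1 / 100) :=
          mul_le_mul (hw.s0 z) (ex2_P' hw z) (abs_nonneg _) (by norm_num)
      _ ≤ _ := by norm_num
  have h3 := (abs_le.1 h1).1
  have h4 := (abs_le.1 h2).1
  linarith

private theorem ex2_Bbij {w : ℝ → ℝ} (hw : Prof w) : Function.Bijective (Bf w) := by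
  refine ex2_bij (fun z => (ex2_Bd hw z).differentiableAt) (ex2_Bpos hw) (fun z => ?_)
  have : Bf w z - z = Pf (-(deriv w z)) := by simp [Bf]
  rw [this]; exact ex2_P2 hw z

private theorem ex2_Fbij {w : ℝ → ℝ} (hw : Prof w) : Function.Bijective (Ff w) := by
  refine ex2_bij (fun z => (ex2_Fd hw z).differentiableAt) (ex2_Fpos hw) (fun z => ?_)
  have : Ff w z - z = w z * Pf (-(deriv w z)) := by simp [Ff]
  rw [this, abs_mul]
  calc _ ≤ (1 / 100 : ℝ) * 2 := mul_le_mul (hw.s0 z) (ex2_P2 hw z) (abs_nonneg _) (by norm_num)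
    _ ≤ _ := by norm_num

private theorem ex2_Bcoe {w : ℝ → ℝ} (hw : Prof w) : (Bp w : ℝ → ℝ) = Bf w := by
  funext z
  rw [Bp, dif_pos (ex2_Bbij hw)]
  rfl

private theorem ex2_Fcoe {w : ℝ → ℝ} (hw : Prof w) : (Fp w : ℝ → ℝ) = Ff w := by
  funext z
  rw [Fp, dif_pos (ex2_Fbij hw)]
  rfl

theorem Bp_apply {w : ℝ → ℝ} (hw : Prof w) (z : ℝ) : Bp w z = z + Pf (-(deriv w z)) := by
  rw [ex2_Bcoe hw]; rfl

theorem Fp_apply {w : ℝ → ℝ} (hw : Prof w) (z : ℝ) : Fp w z = z + w z * Pf (-(deriv w z)) := by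
  rw [ex2_Fcoe hw]; rfl

theorem Bp_deriv_pos {w : ℝ → ℝ} (hw : Prof w) (z : ℝ) : 0 < deriv (Bp w) z := by
  rw [ex2_Bcoe hw]; exact ex2_Bpos hw z

theorem Fp_deriv_pos {w : ℝ → ℝ} (hw : Prof w) (z : ℝ) : 0 < deriv (Fp w) z := by
  rw [ex2_Fcoe hw]; exact ex2_Fpos hw z

/-- `T̂ = B F` -/
noncomputable def Tp (w : ℝ → ℝ) : Pm := Bp w * Fp w

/-- the homothety of ratio `r` (`1` if `r = 0`) -/
noncomputable def hom (r : ℝ) : Pm := if h : r = 0 then 1 else af 0 r h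

theorem hom_apply {r : ℝ} (hr : r ≠ 0) (z : ℝ) : hom r z = r * z := by
  simp [hom, hr]

/-- the word `W_j = h^j B^(2^j) F h^-j`, `h = hom 2` -/
noncomputable def Wp (w : ℝ → ℝ) (j : ℕ) : Pm :=
  hom 2 ^ j * Bp w ^ (2 ^ j) * Fp w * (hom 2 ^ j)⁻¹

/-- the error `E_j = T̂^(4^j) W_j⁻¹` -/
noncomputable def Ep (w : ℝ → ℝ) (j : ℕ) : Pm := Tp w ^ (4 ^ j) * (Wp w j)⁻¹

/-- the defect of homogeneity `τ_j z = 4^j w z - 2^j w (2^-j z)` -/
noncomputable def tau (w : ℝ → ℝ) (j : ℕ) (z : ℝ) : ℝ :=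
  4 ^ j * w z - 2 ^ j * w ((2 ^ j)⁻¹ * z)

end GD31
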