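import Pool.Agent.LibGD31.EX3

/-! # EX4: expansion of the error -/

open Filter Topology Set

namespace GD31

theorem ex4_hom (j : ℕ) (z : ℝ) : (hom 2 ^ j) z = 2 ^ j * z := by
  induction j with
  | zero => rw [pow_zero, pow_zero, one_mul]; rfl
  | succ j ih =>
    rw [pow_succ', Equiv.Perm.mul_apply, ih, hom_apply two_ne_zero, pow_succ]
    ring

theorem ex4_hom_inv (j : ℕ) (z : ℝ) : (hom 2 ^ j)⁻¹ z = (2 ^ j)⁻¹ * z := by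
  rw [Equiv.Perm.inv_eq_iff_eq, ex4_hom, ← mul_assoc, mul_inv_cancel₀ (by positivity), one_mul]

theorem ex4_ai (f : Pm) (x : ℝ) : f (f⁻¹ x) = x := f.apply_symm_apply x

/-- `B^(2^j) F` -/
noncomputable def ex4_G (w : ℝ → ℝ) (j : ℕ) : Pm := Bp w ^ (2 ^ j) * Fp w

theorem ex4_G_cl {w : ℝ → ℝ} (hw : Prof w) (j : ℕ) : Cl w (2 ^ j) 1 (ex4_G w j) := by
  have h := Cl.mul hw (Cl.pow hw (Cl.B hw) (2 ^ j)) (Cl.F hw)
  have h1 : (((2 ^ j : ℕ) : ℝ) * 1 + 0) = 2 ^ j := by push_cast; ring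
  have h2 : (((2 ^ j : ℕ) : ℝ) * 0 + 1) = 1 := by ring
  rw [h1, h2] at h
  exact h

theorem ex4_T_cl {w : ℝ → ℝ} (hw : Prof w) (j : ℕ) : Cl w (4 ^ j) (4 ^ j) (Tp w ^ (4 ^ j)) := by
  have h := Cl.pow hw (Cl.mul hw (Cl.B hw) (Cl.F hw)) (4 ^ j)
  have h1 : (((4 ^ j : ℕ) : ℝ) * (1 + 0)) = 4 ^ j := by push_cast; ring
  have h2 : (((4 ^ j : ℕ) : ℝ) * (0 + 1)) = 4 ^ j := by push_cast; ring
  rw [h1, h2] at h
  exact h

theorem ex4_W_apply (w : ℝ → ℝ) (j : ℕ) (z : ℝ) :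
    Wp w j z = 2 ^ j * ex4_G w j ((2 ^ j)⁻¹ * z) := by
  show (hom 2 ^ j) ((Bp w ^ (2 ^ j)) (Fp w ((hom 2 ^ j)⁻¹ z))) = _
  rw [ex4_hom, ex4_hom_inv]
  rfl

theorem ex4_W_inv_apply (w : ℝ → ℝ) (j : ℕ) (z : ℝ) :
    (Wp w j)⁻¹ z = 2 ^ j * (ex4_G w j)⁻¹ ((2 ^ j)⁻¹ * z) := by
  have h2 : (2 : ℝ) ^ j ≠ 0 := by positivity
  rw [Equiv.Perm.inv_eq_iff_eq, ex4_W_apply, ← mul_assoc, inv_mul_cancel₀ h2, one_mul,
    ex4_ai, ← mul_assoc, mul_inv_cancel₀ h2, one_mul]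

theorem ex4_tau {w : ℝ → ℝ} (hw : Prof w) (j : ℕ) : Ob 8 (7 / 8) (tau w j) := by
  have h2 : ((2 : ℝ) ^ j)⁻¹ ≠ 0 := by positivity
  exact (hw.ob.const_mul (4 ^ j)).sub ((hw.ob.scale h2).const_mul (2 ^ j))

theorem ex4_W_ob {w : ℝ → ℝ} (hw : Prof w) (j : ℕ) :
    Ob 5 (3 / 2) (fun z => Wp w j z - z - 4 ^ j - 4 ^ j * w z + tau w j z) := by
  have h2 : ((2 : ℝ) ^ j)⁻¹ ≠ 0 := by positivity
  have h3 : (2 : ℝ) ^ j ≠ 0 := by positivity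
  have h := ((ex4_G_cl hw j).ob.scale h2).const_mul (2 ^ j)
  have he : (fun z => Wp w j z - z - 4 ^ j - 4 ^ j * w z + tau w j z) =
      fun z => (2 : ℝ) ^ j * (ex4_G w j ((2 ^ j)⁻¹ * z) - (2 ^ j)⁻¹ * z - 2 ^ j -
        1 * w ((2 ^ j)⁻¹ * z)) := by
    funext z
    have h4 : (4 : ℝ) ^ j = 2 ^ j * 2 ^ j := by rw [← mul_pow]; norm_num
    have h5 : (2 : ℝ) ^ j * ((2 ^ j)⁻¹ * z) = z := by
      rw [← mul_assoc, mul_inv_cancel₀ h3, one_mul]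
    rw [ex4_W_apply, tau, mul_sub, mul_sub, mul_sub, h5, h4]
    ring
  rw [he]
  exact h

theorem ex4_W_disp {w : ℝ → ℝ} (hw : Prof w) (j : ℕ) : Ob 5 0 (disp (Wp w j)) := by
  have h1 : Ob 5 0 (fun z => Wp w j z - z - 4 ^ j - 4 ^ j * w z + tau w j z) :=
    (ex4_W_ob hw j).mono le_rfl (by norm_num)
  have h2 : Ob 5 0 (fun _ : ℝ => (4 : ℝ) ^ j) := Ob.const 5 _
  have h3 : Ob 5 0 (fun z => (4 : ℝ) ^ j * w z) :=
    (hw.ob.const_mul (4 ^ j)).mono (by norm_num) (by norm_num)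
  have h4 : Ob 5 0 (fun z => tau w j z) := (ex4_tau hw j).mono (by norm_num) (by norm_num)
  have h5 := ((h1.add h2).add h3).sub h4
  have he : disp (Wp w j) = fun z => Wp w j z - z - 4 ^ j - 4 ^ j * w z + tau w j z + 4 ^ j +
      4 ^ j * w z - tau w j z := by
    funext z
    rw [disp]
    ring
  rw [he]
  exact h5

theorem ex4_cl_smooth {w : ℝ → ℝ} (hw : Prof w) {c d : ℝ} {F : Pm} (hF : Cl w c d F) :
    Sm (F : ℝ → ℝ) := by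
  have h1 : (F : ℝ → ℝ) = fun z => (F z - z - c - d * w z) + z + c + d * w z := by
    funext z
    ring
  rw [h1]
  exact ((hF.ob.smooth.add contDiff_id).add contDiff_const).add (contDiff_const.mul hw.smooth)

theorem ex4_scale_deriv {F : ℝ → ℝ} (hF : Sm F) (j : ℕ) (z : ℝ) :
    HasDerivAt (fun z => (2 : ℝ) ^ j * F ((2 ^ j)⁻¹ * z)) (deriv F ((2 ^ j)⁻¹ * z)) z := by
  have h3 : (2 : ℝ) ^ j ≠ 0 := by positivity
  have hd : DifferentiableAt ℝ F ((2 ^ j)⁻¹ * z) := (hF.differentiable (by simp)) _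
  have h1 : HasDerivAt (fun z : ℝ => ((2 : ℝ) ^ j)⁻¹ * z) (((2 : ℝ) ^ j)⁻¹ * 1) z :=
    (hasDerivAt_id z).const_mul _
  have h2 := (hd.hasDerivAt.comp z h1).const_mul ((2 : ℝ) ^ j)
  have h4 : (2 : ℝ) ^ j * (deriv F ((2 ^ j)⁻¹ * z) * (((2 : ℝ) ^ j)⁻¹ * 1)) =
      deriv F ((2 ^ j)⁻¹ * z) := by
    rw [mul_one, mul_left_comm, mul_inv_cancel₀ h3, mul_one]
  rw [h4] at h2
  exact h2

theorem ex4_W_deriv_pos {w : ℝ → ℝ} (hw : Prof w) (j : ℕ) (z : ℝ) : 0 < deriv (Wp w j) z := by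
  have h1 : (Wp w j : ℝ → ℝ) = fun z => 2 ^ j * ex4_G w j ((2 ^ j)⁻¹ * z) :=
    funext (ex4_W_apply w j)
  rw [h1, (ex4_scale_deriv (ex4_cl_smooth hw (ex4_G_cl hw j)) j z).deriv]
  exact (ex4_G_cl hw j).pos _

theorem ex4_W_inv_deriv {w : ℝ → ℝ} (hw : Prof w) (j : ℕ) (z : ℝ) :
    ∃ D, 0 < D ∧ HasDerivAt ((Wp w j)⁻¹ : Pm) D z := by
  have hG := Cl.inv hw (ex4_G_cl hw j)
  have h1 : (((Wp w j)⁻¹ : Pm) : ℝ → ℝ) = fun z => 2 ^ j * ((ex4_G w j)⁻¹ : Pm) ((2 ^ j)⁻¹ * z) :=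
    funext (ex4_W_inv_apply w j)
  rw [h1]
  exact ⟨_, hG.pos _, ex4_scale_deriv (ex4_cl_smooth hw hG) j z⟩

/-- `W_j = z + 4^j + 4^j w - τ_j + Ob 5 (3/2)` (conjugation of `B^(2^j) F ∈ Cl (2^j) 1` by
`h^j`), `T̂^(4^j) ∈ Cl (4^j) (4^j)`, and `τ_j ∘ (W_j)⁻¹ - τ_j ∈ Ob 5 (15/8)` (`Ob.diff`). -/
theorem Ep_expansion {w : ℝ → ℝ} (hw : Prof w) (j : ℕ) :
    Ob 5 (3 / 2) (fun z => Ep w j z - z - tau w j z) := by
  have hT := (ex4_T_cl hw j).ob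
  have hW := ex4_W_ob hw j
  -- `ρ = T̂^(4^j) - W_j - τ_j`
  have hρ : Ob 5 (3 / 2) (fun z => (Tp w ^ (4 ^ j)) z - Wp w j z - tau w j z) := by
    have h := hT.sub hW
    have he : (fun z => (Tp w ^ (4 ^ j)) z - Wp w j z - tau w j z) = fun z =>
        ((Tp w ^ (4 ^ j)) z - z - 4 ^ j - 4 ^ j * w z) -
          (Wp w j z - z - 4 ^ j - 4 ^ j * w z + tau w j z) := by
      funext z
      ring
    rw [he]
    exact h
  have hg : Ob 5 0 (disp (Wp w j)⁻¹) := (ex4_W_disp hw j).inv (ex4_W_deriv_pos hw j)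
  have h1 := hρ.comp_id_add hg
  have h2 : Ob 5 (3 / 2) (fun z => tau w j (z + disp (Wp w j)⁻¹ z) - tau w j z) := by
    have h3 : Ob (5 + 1) (7 / 8) (tau w j) := (ex4_tau hw j).mono (by norm_num) le_rfl
    exact (h3.diff hg le_rfl).mono le_rfl (by norm_num)
  have h4 := h1.add h2
  have he : (fun z => Ep w j z - z - tau w j z) = fun z =>
      ((Tp w ^ (4 ^ j)) (z + disp (Wp w j)⁻¹ z) - Wp w j (z + disp (Wp w j)⁻¹ z) -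
        tau w j (z + disp (Wp w j)⁻¹ z)) +
      (tau w j (z + disp (Wp w j)⁻¹ z) - tau w j z) := by
    funext z
    have h5 : z + disp (Wp w j)⁻¹ z = (Wp w j)⁻¹ z := by
      rw [disp]
      ring
    rw [h5, ex4_ai]
    show (Tp w ^ (4 ^ j)) ((Wp w j)⁻¹ z) - z - tau w j z = _
    ring
  rw [he]
  exact h4

theorem Ep_smooth {w : ℝ → ℝ} (hw : Prof w) (j : ℕ) :
    Sm (disp (Ep w j)) ∧ Sm (disp (Ep w j)⁻¹) ∧ ∀ z, 0 < deriv (Ep w j) z := by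
  have hE := Ep_expansion hw j
  have hτ := ex4_tau hw j
  have hpos : ∀ z, 0 < deriv (Ep w j) z := by
    intro z
    obtain ⟨D, hD, hd⟩ := ex4_W_inv_deriv hw j z
    have hTs : Sm ((Tp w ^ (4 ^ j) : Pm) : ℝ → ℝ) := ex4_cl_smooth hw (ex4_T_cl hw j)
    have hTd : HasDerivAt ((Tp w ^ (4 ^ j) : Pm) : ℝ → ℝ)
        (deriv ((Tp w ^ (4 ^ j) : Pm) : ℝ → ℝ) ((Wp w j)⁻¹ z)) ((Wp w j)⁻¹ z) :=
      ((hTs.differentiable (by simp)) _).hasDerivAt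
    have h1 := hTd.comp z hd
    have h2 : (Ep w j : ℝ → ℝ) = ((Tp w ^ (4 ^ j) : Pm) : ℝ → ℝ) ∘ ((Wp w j)⁻¹ : Pm) := rfl
    rw [h2, h1.deriv]
    exact mul_pos ((ex4_T_cl hw j).pos _) hD
  have hdisp : Ob 5 0 (disp (Ep w j)) := by
    have h1 : Ob 5 0 (fun z => Ep w j z - z - tau w j z) := hE.mono le_rfl (by norm_num)
    have h2 : Ob 5 0 (fun z => tau w j z) := hτ.mono (by norm_num) (by norm_num)
    have h3 := h1.add h2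
    have he : disp (Ep w j) = fun z => Ep w j z - z - tau w j z + tau w j z := by
      funext z
      rw [disp]
      ring
    rw [he]
    exact h3
  exact ⟨hdisp.smooth, (hdisp.inv hpos).smooth, hpos⟩

end GD31
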