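import Pool.Agent.LibGD31.EX2

/-! # EX5: block identity -/

open Filter Topology Set

namespace GD31

private theorem ex5_const {f : ℝ → ℝ} {a b : ℝ} (hf : Differentiable ℝ f)
    (h : ∀ z ∈ Icc a b, deriv f z = 0) {x z : ℝ} (hx : x ∈ Icc a b) (hz : z ∈ Icc a b) :
    f x = f z := by
  have := Convex.norm_image_sub_le_of_norm_deriv_le (f := f) (C := 0) (s := Icc a b)
    (fun x _ => hf x) (fun x hx => by rw [h x hx]; simp) (convex_Icc a b) hz hx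
  rw [zero_mul] at this
  exact sub_eq_zero.mp (norm_le_zero_iff.mp this)

private theorem ex5_affine {w : ℝ → ℝ} (hw : Sm w) {a b y : ℝ} (hy : y ∈ Icc a b)
    (h : ∀ z ∈ Icc a b, deriv (deriv w) z = 0) :
    ∀ z ∈ Icc a b, deriv w z = deriv w y ∧ w z = w y + deriv w y * (z - y) := by
  have hd : Differentiable ℝ w := hw.differentiable (by simp)
  have hd' : Differentiable ℝ (deriv w) := by
    have : ContDiff ℝ ((⊤ : ℕ∞) : WithTop ℕ∞) (deriv w) := (contDiff_infty_iff_deriv.mp hw).2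
    exact this.differentiable (by simp)
  have h1 : ∀ z ∈ Icc a b, deriv w z = deriv w y := fun z hz => ex5_const hd' h hz hy
  intro z hz
  refine ⟨h1 z hz, ?_⟩
  have h2 : ∀ x ∈ Icc a b, deriv (fun t => w t - deriv w y * t) x = 0 := by
    intro x hx
    have h3 : HasDerivAt (fun t => w t - deriv w y * t) (deriv w x - deriv w y * 1) x :=
      (hd x).hasDerivAt.sub ((hasDerivAt_id x).const_mul _)
    rw [h3.deriv, h1 x hx]
    ring
  have h4 := ex5_const (f := fun t => w t - deriv w y * t)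
    (hd.sub (differentiable_id.const_mul _)) h2 hz hy
  linarith

private theorem ex5_Pf {κ : ℝ} (h : |κ| ≤ 1 / 100) : 99 / 100 ≤ Pf κ ∧ Pf κ ≤ 101 / 100 := by
  have h1 := abs_le.mp (Pf_bounds (κ := κ) (h.trans (by norm_num))).1
  constructor <;> linarith [h1.1, h1.2]

private theorem ex5_rec (κ : ℝ) (k : ℕ) :
    ((k + 1 : ℕ) : ℝ) * Pf (((k + 1 : ℕ) : ℝ) * κ) =
      Real.exp (-κ) * (k * Pf (k * κ)) + Pf κ := by
  rcases eq_or_ne κ 0 with rfl | hκ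
  · simp [Pf]
  · apply mul_left_cancel₀ hκ
    have e1 := Pf_mul (((k + 1 : ℕ) : ℝ) * κ)
    have e2 := Pf_mul ((k : ℝ) * κ)
    have e3 := Pf_mul κ
    have e4 : Real.exp (-(((k + 1 : ℕ) : ℝ) * κ)) = Real.exp (-κ) * Real.exp (-((k : ℝ) * κ)) := by
      rw [← Real.exp_add]; congr 1; push_cast; ring
    rw [e4] at e1
    calc κ * (((k + 1 : ℕ) : ℝ) * Pf (((k + 1 : ℕ) : ℝ) * κ))
        = ((k + 1 : ℕ) : ℝ) * κ * Pf (((k + 1 : ℕ) : ℝ) * κ) := by ring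
      _ = 1 - Real.exp (-κ) * Real.exp (-((k : ℝ) * κ)) := e1
      _ = Real.exp (-κ) * (1 - Real.exp (-((k : ℝ) * κ))) + (1 - Real.exp (-κ)) := by ring
      _ = Real.exp (-κ) * ((k : ℝ) * κ * Pf ((k : ℝ) * κ)) + κ * Pf κ := by rw [e2, e3]
      _ = κ * (Real.exp (-κ) * (k * Pf (k * κ)) + Pf κ) := by ring

private theorem ex5_hom_pow (j : ℕ) (z : ℝ) : (hom 2 ^ j) z = 2 ^ j * z := by
  induction j generalizing z with
  | zero => simp
  | succ n ih =>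
    rw [pow_succ, Equiv.Perm.mul_apply, ih, hom_apply (by norm_num)]
    ring

/-- **Block identity.** If `w'' = 0` and `τ_j = 0` on `[y - C, y + C]`, `C = 20 * 4^j`, then
`E_j y = y`. On the block `w z = β - κ z`; for `z` in the block `F z = z + w z Pf κ`,
`B z = z + Pf κ`, `(B F)^n z = e^(-nκ) z + …`; on the block divided by `2^j` the slope is
`4^j κ`. If `κ = 0` all maps are translations. Stay inside the block: every factor moves points by
at most `2` (scaled: `2^j * 2`). -/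
theorem block_identity {w : ℝ → ℝ} (hw : Prof w) (j : ℕ) (y : ℝ)
    (h1 : ∀ z ∈ Icc (y - 20 * 4 ^ j) (y + 20 * 4 ^ j), deriv (deriv w) z = 0)
    (h2 : ∀ z ∈ Icc (y - 20 * 4 ^ j) (y + 20 * 4 ^ j), tau w j z = 0) : Ep w j y = y := by
  have hN1 : (1 : ℝ) ≤ 4 ^ j := one_le_pow₀ (by norm_num)
  have hM1 : (1 : ℝ) ≤ 2 ^ j := one_le_pow₀ (by norm_num)
  have hNM : (4 : ℝ) ^ j = 2 ^ j * 2 ^ j := by
    rw [← mul_pow]; norm_num
  have hy : y ∈ Icc (y - 20 * 4 ^ j) (y + 20 * 4 ^ j) := ⟨by linarith, by linarith⟩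
  obtain ⟨κ, hκ⟩ : ∃ κ, κ = - deriv w y := ⟨_, rfl⟩
  obtain ⟨β, hβ⟩ : ∃ β, β = w y + κ * y := ⟨_, rfl⟩
  have haff := ex5_affine hw.smooth hy h1
  have hwd : ∀ z ∈ Icc (y - 20 * 4 ^ j) (y + 20 * 4 ^ j), -(deriv w z) = κ := by
    intro z hz
    rw [(haff z hz).1, hκ]
  have hwz : ∀ z ∈ Icc (y - 20 * 4 ^ j) (y + 20 * 4 ^ j), w z = β - κ * z := by
    intro z hz
    rw [(haff z hz).2, hβ, hκ]; ring
  -- the small block
  have hws : ∀ z ∈ Icc ((2 ^ j)⁻¹ * y - 20 * 2 ^ j) ((2 ^ j)⁻¹ * y + 20 * 2 ^ j),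
      w z = 2 ^ j * β - 4 ^ j * κ * z := by
    intro z hz
    have hz' : 2 ^ j * z ∈ Icc (y - 20 * 4 ^ j) (y + 20 * 4 ^ j) := by
      have e : (2 : ℝ) ^ j * ((2 ^ j)⁻¹ * y) = y := by
        rw [← mul_assoc, mul_inv_cancel₀ (by positivity), one_mul]
      constructor
      · have := mul_le_mul_of_nonneg_left hz.1 (show (0 : ℝ) ≤ 2 ^ j by positivity)
        rw [hNM]; nlinarith
      · have := mul_le_mul_of_nonneg_left hz.2 (show (0 : ℝ) ≤ 2 ^ j by positivity)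
        rw [hNM]; nlinarith
    have h3 := h2 _ hz'
    unfold tau at h3
    have e5 : (2 ^ j)⁻¹ * (2 ^ j * z) = z := by
      rw [← mul_assoc, inv_mul_cancel₀ (by positivity), one_mul]
    rw [hwz _ hz', e5] at h3
    have h4 : (2 : ℝ) ^ j * w z = 2 ^ j * (2 ^ j * β - 4 ^ j * κ * z) := by
      rw [hNM] at h3 ⊢
      linarith
    exact mul_left_cancel₀ (by positivity) h4
  have hds : ∀ z ∈ Icc ((2 ^ j)⁻¹ * y - 19 * 2 ^ j) ((2 ^ j)⁻¹ * y + 19 * 2 ^ j),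
      -(deriv w z) = 4 ^ j * κ := by
    intro z hz
    have he : w =ᶠ[𝓝 z] fun t => 2 ^ j * β - 4 ^ j * κ * t := by
      have : Icc ((2 ^ j)⁻¹ * y - 20 * 2 ^ j) ((2 ^ j)⁻¹ * y + 20 * 2 ^ j) ∈ 𝓝 z :=
        Icc_mem_nhds (by linarith [hz.1]) (by linarith [hz.2])
      filter_upwards [this] with t ht using hws t ht
    rw [he.deriv_eq]
    have h3 : HasDerivAt (fun t : ℝ => 2 ^ j * β - 4 ^ j * κ * t) (0 - 4 ^ j * κ * 1) z :=
      (hasDerivAt_const z _).sub ((hasDerivAt_id z).const_mul _)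
    rw [h3.deriv]; ring
  have hNκ : |(4 : ℝ) ^ j * κ| ≤ 1 / 100 := by
    have := hds ((2 ^ j)⁻¹ * y) ⟨by linarith, by linarith⟩
    rw [← this, abs_neg]
    exact hw.s1 _
  have hκs : |κ| ≤ 1 / 100 := by
    rw [hκ, abs_neg]; exact hw.s1 _
  obtain ⟨pa, pb⟩ := ex5_Pf hκs
  obtain ⟨qa, qb⟩ := ex5_Pf hNκ
  have hs0 : ∀ z, -(1 / 100) ≤ w z ∧ w z ≤ 1 / 100 := fun z => abs_le.mp (hw.s0 z)
  -- one step of `T`
  have hT : ∀ z ∈ Icc (y - 19 * 4 ^ j) (y + 19 * 4 ^ j),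
      Tp w z = Real.exp (-κ) * z + (β + 1) * Pf κ ∧ z - 2 ≤ Tp w z ∧ Tp w z ≤ z + 2 := by
    intro z hz
    have hzI : z ∈ Icc (y - 20 * 4 ^ j) (y + 20 * 4 ^ j) := ⟨by linarith [hz.1], by linarith [hz.2]⟩
    have hF : Fp w z = z + w z * Pf κ := by
      rw [Fp_apply hw, hwd z hzI]
    have hb1 : w z * Pf κ ≤ 101 / 10000 := by
      nlinarith [hs0 z]
    have hb2 : -(101 / 10000) ≤ w z * Pf κ := by
      nlinarith [hs0 z]
    have hFI : Fp w z ∈ Icc (y - 20 * 4 ^ j) (y + 20 * 4 ^ j) := by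
      rw [hF]; exact ⟨by linarith [hz.1], by linarith [hz.2]⟩
    have hTz : Tp w z = z + w z * Pf κ + Pf κ := by
      unfold Tp
      rw [Equiv.Perm.mul_apply, Bp_apply hw, hwd _ hFI, hF]
    refine ⟨?_, by rw [hTz]; linarith, by rw [hTz]; linarith⟩
    rw [hTz, hwz z hzI]
    have := Pf_mul κ
    linear_combination (-z) * this
  -- powers of `T`
  have hTn : ∀ x ∈ Icc (y - 2 * 4 ^ j) (y + 2 * 4 ^ j), ∀ k : ℕ, k ≤ 4 ^ j →
      (Tp w ^ k) x = Real.exp (-(k * κ)) * x + (β + 1) * (k * Pf (k * κ)) ∧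
      x - 2 * k ≤ (Tp w ^ k) x ∧ (Tp w ^ k) x ≤ x + 2 * k := by
    intro x hx k
    induction k with
    | zero => intro _; simp
    | succ k ih =>
      intro hk
      obtain ⟨i1, i2, i3⟩ := ih (by omega)
      have hk' : (k : ℝ) + 1 ≤ 4 ^ j := by exact_mod_cast hk
      obtain ⟨t1, t2, t3⟩ := hT ((Tp w ^ k) x)
        ⟨by linarith [hx.1], by linarith [hx.2]⟩
      rw [pow_succ', Equiv.Perm.mul_apply]
      refine ⟨?_, by rw [Nat.cast_succ]; linarith, by rw [Nat.cast_succ]; linarith⟩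
      rw [t1, i1, ex5_rec κ k]
      have e4 : Real.exp (-(((k + 1 : ℕ) : ℝ) * κ)) =
          Real.exp (-κ) * Real.exp (-((k : ℝ) * κ)) := by
        rw [← Real.exp_add]; congr 1; push_cast; ring
      rw [e4]; ring
  -- powers of `B` in the small block
  have hBn : ∀ z ∈ Icc ((2 ^ j)⁻¹ * y - 3 * 2 ^ j) ((2 ^ j)⁻¹ * y + 3 * 2 ^ j), ∀ i : ℕ,
      i ≤ 2 ^ j → (Bp w ^ i) z = z + i * Pf (4 ^ j * κ) := by
    intro z hz i
    induction i with
    | zero => intro _; simp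
    | succ i ih =>
      intro hi
      have hi' : (i : ℝ) + 1 ≤ 2 ^ j := by exact_mod_cast hi
      have i1 := ih (by omega)
      rw [pow_succ', Equiv.Perm.mul_apply, Bp_apply hw]
      have hi0 : (0 : ℝ) ≤ i := by positivity
      have b1 : (i : ℝ) * Pf (4 ^ j * κ) ≤ 2 * 2 ^ j := by nlinarith
      have b2 : 0 ≤ (i : ℝ) * Pf (4 ^ j * κ) := by positivity
      rw [hds _ (by rw [i1]; exact ⟨by linarith [hz.1], by linarith [hz.2]⟩), i1]
      push_cast; ring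
  -- `W`
  have hW : ∀ x ∈ Icc (y - 2 * 4 ^ j) (y + 2 * 4 ^ j),
      Wp w j x = Real.exp (-(4 ^ j * κ)) * x + (β + 1) * (4 ^ j * Pf (4 ^ j * κ)) := by
    intro x hx
    have hinv : (hom 2 ^ j)⁻¹ x = (2 ^ j)⁻¹ * x := by
      rw [Equiv.Perm.inv_eq_iff_eq, ex5_hom_pow, ← mul_assoc, mul_inv_cancel₀ (by positivity),
        one_mul]
    have hz0 : (2 ^ j)⁻¹ * x ∈ Icc ((2 ^ j)⁻¹ * y - 2 * 2 ^ j) ((2 ^ j)⁻¹ * y + 2 * 2 ^ j) := by
      have e2 : (2 : ℝ) * 2 ^ j = (2 ^ j)⁻¹ * (2 * 4 ^ j) := by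
        rw [hNM]; field_simp
      rw [e2, ← mul_sub, ← mul_add]
      have hp : (0 : ℝ) ≤ (2 ^ j)⁻¹ := by positivity
      exact ⟨mul_le_mul_of_nonneg_left hx.1 hp, mul_le_mul_of_nonneg_left hx.2 hp⟩
    obtain ⟨z, hz⟩ : ∃ z, z = (2 ^ j)⁻¹ * x := ⟨_, rfl⟩
    rw [← hz] at hz0
    have hxz : x = 2 ^ j * z := by
      rw [hz, ← mul_assoc, mul_inv_cancel₀ (by positivity), one_mul]
    have hF : Fp w z = z + w z * Pf (4 ^ j * κ) := by
      rw [Fp_apply hw, hds z ⟨by linarith [hz0.1], by linarith [hz0.2]⟩]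
    have hb1 : w z * Pf (4 ^ j * κ) ≤ 101 / 10000 := by
      nlinarith [hs0 z]
    have hb2 : -(101 / 10000) ≤ w z * Pf (4 ^ j * κ) := by
      nlinarith [hs0 z]
    have hFI : Fp w z ∈ Icc ((2 ^ j)⁻¹ * y - 3 * 2 ^ j) ((2 ^ j)⁻¹ * y + 3 * 2 ^ j) := by
      rw [hF]; exact ⟨by linarith [hz0.1], by linarith [hz0.2]⟩
    unfold Wp
    rw [Equiv.Perm.mul_apply, Equiv.Perm.mul_apply, Equiv.Perm.mul_apply, hinv, ← hz,
      hBn _ hFI (2 ^ j) le_rfl, ex5_hom_pow, hF,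
      hws z ⟨by linarith [hz0.1], by linarith [hz0.2]⟩, hxz]
    have := Pf_mul (4 ^ j * κ)
    push_cast
    rw [hNM] at this ⊢
    linear_combination (-(2 ^ j * z)) * this
  -- the preimage of `y`
  obtain ⟨x, hx⟩ : ∃ x, Real.exp (-(4 ^ j * κ)) * x + (β + 1) * (4 ^ j * Pf (4 ^ j * κ)) = y := by
    refine ⟨(y - (β + 1) * (4 ^ j * Pf (4 ^ j * κ))) / Real.exp (-(4 ^ j * κ)), ?_⟩
    have : Real.exp (-(4 ^ j * κ)) ≠ 0 := (Real.exp_pos _).ne'
    field_simp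
    ring
  have hA : ∀ t ∈ Icc (y - 20 * 4 ^ j) (y + 20 * 4 ^ j),
      Real.exp (-(4 ^ j * κ)) * t + (β + 1) * (4 ^ j * Pf (4 ^ j * κ)) =
        t + 4 ^ j * (Pf (4 ^ j * κ) * (w t + 1)) := by
    intro t ht
    rw [hwz t ht]
    have := Pf_mul (4 ^ j * κ)
    linear_combination t * this
  have hP : ∀ t, 9 / 10 ≤ Pf (4 ^ j * κ) * (w t + 1) ∧ Pf (4 ^ j * κ) * (w t + 1) ≤ 11 / 10 := by
    intro t
    obtain ⟨c1, c2⟩ := hs0 t
    constructor <;> nlinarith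
  have hex : 0 < Real.exp (-(4 ^ j * κ)) := Real.exp_pos _
  have hxI : x ∈ Icc (y - 2 * 4 ^ j) (y + 2 * 4 ^ j) := by
    constructor
    · by_contra hcon
      push Not at hcon
      have e1 := hA (y - 2 * 4 ^ j) ⟨by linarith, by linarith⟩
      have e2 := (hP (y - 2 * 4 ^ j)).2
      have e3 := mul_lt_mul_of_pos_left hcon hex
      nlinarith
    · by_contra hcon
      push Not at hcon
      have e1 := hA (y + 2 * 4 ^ j) ⟨by linarith, by linarith⟩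
      have e2 := (hP (y + 2 * 4 ^ j)).1
      have e3 := mul_lt_mul_of_pos_left hcon hex
      nlinarith
  have hWx : Wp w j x = y := by rw [hW x hxI, hx]
  have hinv : (Wp w j)⁻¹ y = x := by
    rw [Equiv.Perm.inv_eq_iff_eq, hWx]
  unfold Ep
  rw [Equiv.Perm.mul_apply, hinv]
  have h5 := (hTn x hxI (4 ^ j) le_rfl).1
  have e6 : ((4 ^ j : ℕ) : ℝ) = 4 ^ j := by push_cast; ring
  rw [e6] at h5
  rw [h5, hx]

end GD31
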