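import Pool.Agent.LibGD31.Defs

/-! # EX1: the function Pf -/

open Filter Topology Set

namespace GD31

/-- `Pf κ = (1 - e^{-κ}) / κ`, `Pf 0 = 1` -/
noncomputable def Pf (κ : ℝ) : ℝ := if κ = 0 then 1 else (1 - Real.exp (-κ)) / κ

private theorem ex1_eq_dslope : Pf = dslope (fun x : ℝ => 1 - Real.exp (-x)) 0 := by
  funext κ
  by_cases h : κ = 0
  · subst h
    have hd : HasDerivAt (fun x : ℝ => 1 - Real.exp (-x)) 1 0 := by
      have h1 : HasDerivAt (fun x : ℝ => Real.exp (-x)) (Real.exp (-0) * (-1)) 0 :=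
        (hasDerivAt_neg (0 : ℝ)).exp
      simpa using h1.const_sub 1
    rw [dslope_same, hd.deriv]
    simp [Pf]
  · rw [dslope_of_ne _ h, slope_def_field]
    simp [Pf, h]

/-- e.g. `Pf κ = ∫ t in 0..1, exp (-κ t)`, or `dslope` -/
theorem Pf_smooth : Sm Pf := by
  rw [Sm, contDiff_iff_contDiffAt]
  intro x
  have hf : AnalyticAt ℝ (fun x : ℝ => 1 - Real.exp (-x)) 0 := by fun_prop
  by_cases hx : x = 0
  · subst hx
    rw [ex1_eq_dslope]
    obtain ⟨p, hp⟩ := hf
    exact (hp.has_fpower_series_dslope_fslope.analyticAt).contDiffAt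
  · have h1 : ContDiffAt ℝ ((⊤ : ℕ∞) : WithTop ℕ∞) (fun κ : ℝ => (1 - Real.exp (-κ)) / κ) x := by
      apply ContDiffAt.div
      · fun_prop
      · fun_prop
      · exact hx
    apply h1.congr_of_eventuallyEq
    filter_upwards [isOpen_ne.mem_nhds hx] with y hy
    simp only [Pf, if_neg hy]

theorem Pf_mul (κ : ℝ) : κ * Pf κ = 1 - Real.exp (-κ) := by
  by_cases h : κ = 0
  · subst h; simp
  · rw [Pf, if_neg h]
    field_simp

private theorem ex1_deriv {κ : ℝ} (h : κ ≠ 0) :
    deriv Pf κ = (Real.exp (-κ) * (1 + κ) - 1) / κ ^ 2 := by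
  have h1 : HasDerivAt (fun κ : ℝ => (1 - Real.exp (-κ)) / κ)
      ((-(Real.exp (-κ) * (-1)) * κ - (1 - Real.exp (-κ)) * 1) / κ ^ 2) κ := by
    have h2 : HasDerivAt (fun x : ℝ => Real.exp (-x)) (Real.exp (-κ) * (-1)) κ :=
      (hasDerivAt_neg κ).exp
    exact (h2.const_sub 1).div (hasDerivAt_id κ) h
  have h3 : Pf =ᶠ[𝓝 κ] fun κ : ℝ => (1 - Real.exp (-κ)) / κ := by
    filter_upwards [isOpen_ne.mem_nhds h] with y hy
    simp only [Pf, if_neg hy]
  rw [h3.deriv_eq, h1.deriv]
  congr 1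
  ring

theorem Pf_bounds {κ : ℝ} (h : |κ| ≤ 1 / 10) :
    |Pf κ - 1| ≤ |κ| ∧ |deriv Pf κ| ≤ 1 := by
  have key : ∀ x : ℝ, |x| ≤ 1 / 10 → |Real.exp x - 1 - x| ≤ x ^ 2 * (3 / 4) := by
    intro x hx
    have h1 := Real.exp_bound (x := x) (hx.trans (by norm_num)) (n := 2) (by norm_num)
    have h2 : ∑ m ∈ Finset.range 2, x ^ m / (m.factorial : ℝ) = 1 + x := by
      simp [Finset.sum_range_succ]
    rw [h2, sq_abs] at h1
    have h3 : Real.exp x - 1 - x = Real.exp x - (1 + x) := by ring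
    rw [h3]
    refine h1.trans (le_of_eq ?_)
    norm_num [Nat.factorial]
  have hd : ∀ x : ℝ, |x| ≤ 1 / 10 → x ≠ 0 → |deriv Pf x| ≤ 1 := by
    intro x hx h0
    have hx2 : 0 < x ^ 2 := by positivity
    rw [ex1_deriv h0, abs_div, abs_of_pos hx2, div_le_one hx2]
    have h1 := key x hx
    have h2 : Real.exp (-x) * (1 + x) - 1 = -(Real.exp (-x) * (Real.exp x - 1 - x)) := by
      have : Real.exp (-x) * Real.exp x = 1 := by rw [← Real.exp_add]; simp
      linear_combination this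
    rw [h2, abs_neg, abs_mul, abs_of_pos (Real.exp_pos _)]
    have h4 : Real.exp (-x) ≤ 6 / 5 := by
      have h5 := key (-x) (by rwa [abs_neg])
      have h6 := (abs_le.1 h5).2
      have h7 := (abs_le.1 hx)
      nlinarith [h7.1, h7.2]
    calc Real.exp (-x) * |Real.exp x - 1 - x| ≤ 6 / 5 * (x ^ 2 * (3 / 4)) := by
          apply mul_le_mul h4 h1 (abs_nonneg _) (by norm_num)
      _ ≤ x ^ 2 := by nlinarith
  constructor
  · by_cases h0 : κ = 0
    · subst h0; simp [Pf]
    · have hk : 0 < |κ| := abs_pos.2 h0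
      rw [Pf, if_neg h0]
      have h1 : (1 - Real.exp (-κ)) / κ - 1 = -(Real.exp (-κ) - 1 - (-κ)) / κ := by
        field_simp
        ring
      rw [h1, abs_div, abs_neg, div_le_iff₀ hk]
      have h2 := key (-κ) (by rwa [abs_neg])
      refine h2.trans ?_
      have h3 : |κ| * |κ| = κ ^ 2 := by rw [← sq, sq_abs]
      rw [h3]
      nlinarith [sq_nonneg κ]
  · by_cases h0 : κ = 0
    · subst h0
      have hcont : Continuous (deriv Pf) := Pf_smooth.continuous_deriv (by exact_mod_cast le_top)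
      have hlim : Tendsto (fun n : ℕ => |deriv Pf (1 / ((n : ℝ) + 1))|) atTop (𝓝 |deriv Pf 0|) := by
        have := (hcont.abs.tendsto 0).comp (tendsto_one_div_add_atTop_nhds_zero_nat (𝕜 := ℝ))
        exact this
      refine le_of_tendsto hlim ?_
      filter_upwards [eventually_ge_atTop 9] with n hn
      apply hd
      · have h9 : (9 : ℝ) ≤ n := by exact_mod_cast hn
        rw [abs_of_pos (by positivity)]
        apply one_div_le_one_div_of_le (by norm_num)
        linarith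
      · positivity
    · exact hd κ h h0

end GD31
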