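import Mathlib

/-! # ST3: activation (pure combinatorics) -/

open Filter Topology Set

namespace GD31

/-- `Act m` is the set of `q` with `good m q` which take part in no bad pair of a triple
`(k, i, i')` with `max k i i' = m`, as first entry if `i = m` and as second entry if `i' = m`. -/
theorem activation {Q : Type*} (bad : ℕ → ℕ → ℕ → Q → Q → Prop) (good : ℕ → Q → Prop)
    (hgood : ∀ k, ∀ᶠ q in cofinite, good k q)
    (hbad : ∀ k i i', ¬ (i = k ∧ i' = k) → {t : Q × Q | bad k i i' t.1 t.2}.Finite) :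
    ∃ Act : ℕ → Set Q, (∀ k, (Act k)ᶜ.Finite) ∧ (∀ k, ∀ q ∈ Act k, good k q) ∧
      ∀ k i i', ¬ (i = k ∧ i' = k) → k ≤ max i i' → ∀ q ∈ Act i, ∀ q' ∈ Act i',
        ¬ bad k i i' q q' := by
  have h1 : ∀ m, ∀ᶠ q in cofinite, good m q ∧
      (∀ k ∈ Iic m, ∀ i ∈ Iic m, ¬ (m = k ∧ i = k) → ∀ q', ¬ bad k m i q q') ∧
      (∀ k ∈ Iic m, ∀ i ∈ Iic m, ¬ (i = k ∧ m = k) → ∀ q', ¬ bad k i m q' q) := by
    intro m
    refine (hgood m).and (Filter.Eventually.and ?_ ?_)
    · rw [eventually_all_finite (finite_Iic m)]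
      intro k _
      rw [eventually_all_finite (finite_Iic m)]
      intro i _
      by_cases h : m = k ∧ i = k
      · exact Eventually.of_forall fun q hq => absurd h hq
      · rw [eventually_cofinite]
        refine ((hbad k m i h).image Prod.fst).subset fun q hq => ?_
        have hq' : ¬ (¬ (m = k ∧ i = k) → ∀ q', ¬ bad k m i q q') := hq
        push Not at hq'
        obtain ⟨_, q', hb⟩ := hq'
        exact ⟨(q, q'), hb, rfl⟩
    · rw [eventually_all_finite (finite_Iic m)]
      intro k _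
      rw [eventually_all_finite (finite_Iic m)]
      intro i _
      by_cases h : i = k ∧ m = k
      · exact Eventually.of_forall fun q hq => absurd h hq
      · rw [eventually_cofinite]
        refine ((hbad k i m h).image Prod.snd).subset fun q hq => ?_
        have hq' : ¬ (¬ (i = k ∧ m = k) → ∀ q', ¬ bad k i m q' q) := hq
        push Not at hq'
        obtain ⟨_, q', hb⟩ := hq'
        exact ⟨(q', q), hb, rfl⟩
  refine ⟨fun m => {q | good m q ∧
      (∀ k ∈ Iic m, ∀ i ∈ Iic m, ¬ (m = k ∧ i = k) → ∀ q', ¬ bad k m i q q') ∧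
      (∀ k ∈ Iic m, ∀ i ∈ Iic m, ¬ (i = k ∧ m = k) → ∀ q', ¬ bad k i m q' q)}, fun m => h1 m,
    fun m q hq => hq.1, fun k i i' hki hk q hq q' hq' hb => ?_⟩
  rcases le_total i i' with h | h
  · rw [max_eq_right h] at hk
    exact hq'.2.2 k hk i h hki q hb
  · rw [max_eq_left h] at hk
    exact hq.2.1 k hk i' h hki q' hb

end GD31
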