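import Pool.Agent.LibGD31.CH1

/-! # ST4: commutator of two glued permutations -/

open Filter Topology Set

namespace GD31

private theorem st4_mem {F : Pm} {U : Set ℝ} (h : Supp F U) {x : ℝ} (hx : x ∈ U) : F x ∈ U := by
  by_contra hn
  have h1 := h _ hn
  exact hn (by rw [F.injective h1]; exact hx)

private theorem st4_inv {F : Pm} {U : Set ℝ} (h : Supp F U) : Supp F⁻¹ U := by
  intro x hx
  have h1 := h x hx
  calc F⁻¹ x = F⁻¹ (F x) := by rw [h1]
    _ = x := F.symm_apply_apply x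

private theorem st4_cm (H K : Pm) (z : ℝ) : cm H K z = H (K (H⁻¹ (K⁻¹ z))) := rfl

/-- `H` and `K` are glued from `F i` on `U i`, `G i` on `V i`. The set `J` of indices is the set
where `U i = V i`; at the point `z` every `U i ∋ z` with `i ∉ J` is disjoint from all `V j` and
conversely. Then the commutator is that of `F i, G i` on `U i`, `i ∈ J`, and the identity
elsewhere (at such `z`). -/
theorem cm_glue {ι : Type*} {U V : ι → Set ℝ} {F G : ι → Pm} {H K : Pm} (J : Set ι)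
    (hU : Pairwise fun i j => Disjoint (U i) (U j)) (hV : Pairwise fun i j => Disjoint (V i) (V j))
    (hF : ∀ i, Supp (F i) (U i)) (hG : ∀ i, Supp (G i) (V i)) (hH : IsGlue U F H)
    (hK : IsGlue V G K) (hJ : ∀ i ∈ J, U i = V i) (z : ℝ)
    (h1 : ∀ i, z ∈ U i → i ∈ J ∨ ∀ j, Disjoint (U i) (V j))
    (h2 : ∀ j, z ∈ V j → j ∈ J ∨ ∀ i, Disjoint (U i) (V j)) :
    (∀ i ∈ J, z ∈ U i → cm H K z = cm (F i) (G i) z ∧ cm H K z ∈ U i) ∧
      ((∀ i ∈ J, z ∉ U i) → cm H K z = z) := by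
  have hH' := hH.inv hU hF
  have hK' := hK.inv hV hG
  constructor
  · intro i hi hz
    have e := hJ i hi
    have a1 : K⁻¹ z = (G i)⁻¹ z := hK'.on i z (e ▸ hz)
    have m1 : (G i)⁻¹ z ∈ U i := by
      rw [e]
      exact st4_mem (st4_inv (hG i)) (e ▸ hz)
    have a2 : H⁻¹ ((G i)⁻¹ z) = (F i)⁻¹ ((G i)⁻¹ z) := hH'.on i _ m1
    have m2 : (F i)⁻¹ ((G i)⁻¹ z) ∈ U i := st4_mem (st4_inv (hF i)) m1
    have a3 : K ((F i)⁻¹ ((G i)⁻¹ z)) = G i ((F i)⁻¹ ((G i)⁻¹ z)) := hK.on i _ (e ▸ m2)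
    have m3 : G i ((F i)⁻¹ ((G i)⁻¹ z)) ∈ U i := by
      rw [e]
      exact st4_mem (hG i) (e ▸ m2)
    have a4 : H (G i ((F i)⁻¹ ((G i)⁻¹ z))) = F i (G i ((F i)⁻¹ ((G i)⁻¹ z))) := hH.on i _ m3
    have key : cm H K z = F i (G i ((F i)⁻¹ ((G i)⁻¹ z))) := by
      rw [st4_cm, a1, a2, a3, a4]
    refine ⟨by rw [key, st4_cm], ?_⟩
    rw [key]
    exact st4_mem (hF i) m3
  · intro hz
    rw [st4_cm]
    by_cases hv : ∃ j, z ∈ V j
    · obtain ⟨j, hj⟩ := hv
      have hdis : ∀ i, Disjoint (U i) (V j) := by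
        rcases h2 j hj with h | h
        · exact absurd (by rw [hJ j h]; exact hj) (hz j h)
        · exact h
      have a1 : K⁻¹ z = (G j)⁻¹ z := hK'.on j z hj
      have m1 : K⁻¹ z ∈ V j := by
        rw [a1]
        exact st4_mem (st4_inv (hG j)) hj
      have a2 : H⁻¹ (K⁻¹ z) = K⁻¹ z :=
        hH'.off _ fun i hi => (Set.disjoint_left.mp (hdis i)) hi m1
      have a3 : K (K⁻¹ z) = z := K.apply_symm_apply z
      rw [a2, a3]
      exact hH.off _ fun i hi => (Set.disjoint_left.mp (hdis i)) hi hj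
    · push Not at hv
      have a1 : K⁻¹ z = z := hK'.off z hv
      rw [a1]
      by_cases hu : ∃ i, z ∈ U i
      · obtain ⟨i, hi⟩ := hu
        have hdis : ∀ j, Disjoint (U i) (V j) := by
          rcases h1 i hi with h | h
          · exact absurd hi (hz i h)
          · exact h
        have a2 : H⁻¹ z = (F i)⁻¹ z := hH'.on i z hi
        have m2 : H⁻¹ z ∈ U i := by
          rw [a2]
          exact st4_mem (st4_inv (hF i)) hi
        rw [hK.off _ fun j hj => (Set.disjoint_left.mp (hdis j)) m2 hj]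
        exact H.apply_symm_apply z
      · push Not at hu
        rw [hH'.off z hu, hK.off z hv, hH.off z hu]

end GD31
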