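import Pool.Agent.LibGD31.ST1

/-! # ST5: finiteness of bad pairs -/

open Filter Topology Set

namespace GD31

/-- If for all but finitely many `q` the cell `r • cell q` meets no `r' • cell' q'`, then only
finitely many pairs meet: the remaining finitely many `cell q` are bounded and `cell' q'` tends to
infinity (`cell_abs`). -/
theorem bad_finite {Q : Type*} {r r' : ℝ} (hr : 0 < r) (hr' : 0 < r') {y l y' l' : Q → ℝ}
    {μ μ' : ℝ} (hμ' : 0 < μ') (hsign' : ∀ q, 0 < l' q * y' q)
    (hmar' : ∀ q, 2 * μ' * |l' q| ≤ |y' q|)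
    (htend' : Tendsto (fun q => |y' q|) cofinite atTop)
    (h : ∀ᶠ q in cofinite, ∀ q', Disjoint ((fun z => r * z) '' cell (y q) (l q) μ)
      ((fun z => r' * z) '' cell (y' q') (l' q') μ')) :
    {t : Q × Q | ¬ Disjoint ((fun z => r * z) '' cell (y t.1) (l t.1) μ)
      ((fun z => r' * z) '' cell (y' t.2) (l' t.2) μ')}.Finite := by
  classical
  have _ := hr
  have hbad : {q | ¬ ∀ q', Disjoint ((fun z => r * z) '' cell (y q) (l q) μ)
      ((fun z => r' * z) '' cell (y' q') (l' q') μ')}.Finite := h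
  have hbd : ∀ q, ∃ R : ℝ, ∀ z ∈ cell (y q) (l q) μ, |r * z| ≤ R := by
    intro q
    obtain ⟨R, hR⟩ := ((isCompact_cell (y q) (l q) μ).image
      (continuous_const.mul continuous_id : Continuous fun z : ℝ => r * z)).isBounded.exists_norm_le
    exact ⟨R, fun z hz => hR _ ⟨z, hz, rfl⟩⟩
  choose R hR using hbd
  have hfin : ∀ q, {q' | |y' q'| ≤ 2 * R q / r'}.Finite := by
    intro q
    have h1 := htend'.eventually_gt_atTop (2 * R q / r')
    have h2 : {q' | ¬ 2 * R q / r' < |y' q'|}.Finite := h1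
    refine h2.subset fun q' hq' => ?_
    exact not_lt.mpr hq'
  refine (hbad.biUnion fun q _ => (Set.finite_singleton q).prod (hfin q)).subset ?_
  rintro ⟨q, q'⟩ ht
  have hnd : ¬ Disjoint ((fun z => r * z) '' cell (y q) (l q) μ)
      ((fun z => r' * z) '' cell (y' q') (l' q') μ') := ht
  rw [Set.mem_iUnion₂]
  refine ⟨q, fun hall => hnd (hall q'), rfl, ?_⟩
  obtain ⟨w, ⟨z, hz, rfl⟩, ⟨z', hz', hzz⟩⟩ := Set.not_disjoint_iff.mp hnd
  have hzz' : r' * z' = r * z := hzz
  have hl : |l' q'| ≤ 1 / (2 * μ') * |y' q'| := by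
    rw [one_div, inv_mul_eq_div, le_div_iff₀ (by positivity)]
    linarith [hmar' q']
  have h1 := (cell_abs hμ' (hsign' q') (hmar' q') hl hz').1
  have h2 := hR q z hz
  rw [← hzz', abs_mul, abs_of_pos hr'] at h2
  show |y' q'| ≤ 2 * R q / r'
  rw [le_div_iff₀ hr']
  nlinarith

end GD31
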