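import Pool.Agent.LibGD31.CH1

/-! # ST2: a locally finite glued permutation is flat at infinity -/

open Filter Topology Set

namespace GD31

theorem st2_loc {ι : Type*} {V : ι → Set ℝ} {F : ι → Pm} {H : Pm}
    (hd : Pairwise fun i j => Disjoint (V i) (V j)) (hcl : ∀ i, IsCompact (V i))
    (hF : ∀ i, Supp (F i) (V i)) (h : IsGlue V F H) (R : ι → ℝ)
    (hR : Tendsto R cofinite atTop) (hV : ∀ i, ∀ z ∈ V i, R i ≤ |z|) (z₀ : ℝ) :
    (∃ i, z₀ ∈ V i ∧ (H : ℝ → ℝ) =ᶠ[𝓝 z₀] (F i : ℝ → ℝ)) ∨ (H : ℝ → ℝ) =ᶠ[𝓝 z₀] id := by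
  classical
  have hfin : {i | ¬ (|z₀| + 1 < R i)}.Finite :=
    Filter.eventually_cofinite.1 (hR.eventually (eventually_gt_atTop (|z₀| + 1)))
  have key : ∀ S : Set ι, (∀ i ∈ S, z₀ ∉ V i) → ∀ᶠ z in 𝓝 z₀, ∀ i ∈ S, z ∉ V i := by
    intro S hS
    have h1 : IsClosed (⋃ i ∈ S ∩ {i | ¬ (|z₀| + 1 < R i)}, V i) :=
      (hfin.subset Set.inter_subset_right).isClosed_biUnion (fun i _ => (hcl i).isClosed)
    have h2 : ∀ᶠ z in 𝓝 z₀, z ∉ ⋃ i ∈ S ∩ {i | ¬ (|z₀| + 1 < R i)}, V i := by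
      refine h1.isOpen_compl.mem_nhds ?_
      intro hz
      rw [Set.mem_iUnion₂] at hz
      obtain ⟨i, hi, hzi⟩ := hz
      exact hS i hi.1 hzi
    have h3 : ∀ᶠ z in 𝓝 z₀, |z| < |z₀| + 1 :=
      (continuous_abs.tendsto z₀).eventually_lt_const (by linarith)
    filter_upwards [h2, h3] with z hz1 hz2 i hi hzi
    by_cases hR' : |z₀| + 1 < R i
    · have := hV i z hzi
      linarith
    · exact hz1 (Set.mem_biUnion (⟨hi, hR'⟩ : i ∈ S ∩ {i | ¬ (|z₀| + 1 < R i)}) hzi)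
  by_cases hz : ∃ i, z₀ ∈ V i
  · obtain ⟨i, hi⟩ := hz
    left
    refine ⟨i, hi, ?_⟩
    have h4 := key {j | j ≠ i} (fun j hj hzj => (Set.disjoint_left.1 (hd hj) hzj) hi)
    filter_upwards [h4] with z hz
    by_cases hzi : z ∈ V i
    · exact h.on i z hzi
    · rw [h.off z ?_, hF i z hzi]
      intro j
      by_cases hj : j = i
      · rw [hj]
        exact hzi
      · exact hz j hj
  · right
    have h4 := key Set.univ (fun i _ hi => hz ⟨i, hi⟩)
    filter_upwards [h4] with z hz'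
    exact h.off z (fun i => hz' i trivial)

theorem st2_tend {ι : Type*} {V : ι → Set ℝ} (hcl : ∀ i, IsCompact (V i)) (σ : ι → ℝ)
    (hσ : Tendsto σ cofinite (𝓝 0)) (g : ℝ → ℝ)
    (hg : ∀ z, (∃ i, z ∈ V i ∧ |g z| ≤ σ i) ∨ g z = 0) : Tendsto g (cocompact ℝ) (𝓝 0) := by
  rw [Metric.tendsto_nhds]
  intro ε hε
  have hfin : {i | ¬ (σ i < ε)}.Finite :=
    Filter.eventually_cofinite.1 (hσ.eventually_lt_const hε)
  have hK : IsCompact (⋃ i ∈ {i | ¬ (σ i < ε)}, V i) := hfin.isCompact_biUnion (fun i _ => hcl i)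
  filter_upwards [hK.compl_mem_cocompact] with z hz
  rw [Real.dist_eq, sub_zero]
  rcases hg z with ⟨i, hi, hgi⟩ | h0
  · by_cases hσi : σ i < ε
    · exact lt_of_le_of_lt hgi hσi
    · exact absurd (Set.mem_biUnion (show i ∈ {i | ¬ (σ i < ε)} from hσi) hi) hz
  · rw [h0, abs_zero]
    exact hε

/-- Near every `z` the glued permutation `H` coincides with the identity or with one `F i`
(the `V i` are closed, disjoint, and only finitely many of them meet a bounded set); the bounds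
are then those of `F i` at `z`, and `i → ∞` when `|z| → ∞` (a given `V i` may be unbounded: use
that `F i` itself satisfies the three bounds with `σ i` for all `z`, and for the finitely many
`i` with `σ i ≥ η` that `V i` is compact). -/
theorem IsGlue.flat {ι : Type*} {V : ι → Set ℝ} {F : ι → Pm} {H : Pm}
    (hd : Pairwise fun i j => Disjoint (V i) (V j)) (hcl : ∀ i, IsCompact (V i))
    (hF : ∀ i, Supp (F i) (V i)) (h : IsGlue V F H) (R σ : ι → ℝ)
    (hR : Tendsto R cofinite atTop) (hV : ∀ i, ∀ z ∈ V i, R i ≤ |z|)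
    (hC : ∀ i, ContDiff ℝ 2 (F i)) (hσ : Tendsto σ cofinite (𝓝 0))
    (h0 : ∀ i, ∀ z ∈ V i, |F i z - z| ≤ σ i)
    (h1 : ∀ i, ∀ z ∈ V i, |z * (deriv (F i) z - 1)| ≤ σ i)
    (h2 : ∀ i, ∀ z ∈ V i, |z ^ 2 * deriv (deriv (F i)) z| ≤ σ i) : Flat H := by
  have hloc := st2_loc hd hcl hF h R hR hV
  refine ⟨?_, ?_, ?_, ?_⟩
  · rw [contDiff_iff_contDiffAt]
    intro z
    rcases hloc z with ⟨i, _, he⟩ | he
    · exact (hC i).contDiffAt.congr_of_eventuallyEq he
    · exact contDiff_id.contDiffAt.congr_of_eventuallyEq he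
  · refine st2_tend hcl σ hσ _ fun z => ?_
    rcases hloc z with ⟨i, hi, he⟩ | he
    · left
      refine ⟨i, hi, ?_⟩
      rw [he.self_of_nhds]
      exact h0 i z hi
    · right
      rw [he.self_of_nhds, id, sub_self]
  · refine st2_tend hcl σ hσ _ fun z => ?_
    rcases hloc z with ⟨i, hi, he⟩ | he
    · left
      refine ⟨i, hi, ?_⟩
      rw [he.deriv_eq]
      exact h1 i z hi
    · right
      rw [he.deriv_eq, deriv_id, sub_self, mul_zero]
  · refine st2_tend hcl σ hσ _ fun z => ?_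
    rcases hloc z with ⟨i, hi, he⟩ | he
    · left
      refine ⟨i, hi, ?_⟩
      rw [he.deriv.deriv_eq]
      exact h2 i z hi
    · right
      rw [he.deriv.deriv_eq]
      have h3 : deriv (id : ℝ → ℝ) = fun _ => 1 := by
        funext x
        exact deriv_id x
      rw [h3, deriv_const, mul_zero]

end GD31
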