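import Pool.Agent.LibGD31.ST1
import Pool.Agent.LibGD31.ST2

/-! # ST6: one half (`A` or `B`) of the storage: existence and flatness of the glued permutation -/

open Filter Topology Set

namespace GD31

/-- The contents `a n` (unit coordinate, `C²` size `s n`, support in `(-μ n, 5)`) placed in
pairwise disjoint cells `cell (Y n) (L n) (μ n)` going to infinity glue to a permutation which is
flat if `(1 + 5 Λ n)^2 (1 + Λ n)^2 (Y n)^2 s n / |L n| → 0` (and `|Y n| ≥ 1`). Use `IsGlue.flat`,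
`place_size`, `cell_abs`, `exists_glue`: `σ n` = that quantity; `|L| s ≤ Λ |Y| s`,
`|z| s ≤ (1 + 5Λ) |Y| s`, `|Y| s ≤ Λ Y² s / |L|`. -/
theorem glue_placed {ι : Type*} (Y L μ Λ s : ι → ℝ) (a : ι → Pm) (hL : ∀ n, L n ≠ 0)
    (hμ : ∀ n, 0 < μ n) (hsign : ∀ n, 0 < L n * Y n) (hmar : ∀ n, 2 * μ n * |L n| ≤ |Y n|)
    (hΛ : ∀ n, |L n| ≤ Λ n * |Y n|) (hY : ∀ n, 1 ≤ |Y n|)
    (htend : Tendsto (fun n => |Y n|) cofinite atTop)
    (hdisj : Pairwise fun n n' => Disjoint (cell (Y n) (L n) (μ n)) (cell (Y n') (L n') (μ n')))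
    (hs0 : ∀ n, 0 ≤ s n) (hs : ∀ n, Sz (s n) (a n)) (hsupp : ∀ n, Supp (a n) (Ioo (-μ n) 5))
    (hlim : Tendsto (fun n => (1 + 5 * Λ n) ^ 2 * (1 + Λ n) ^ 2 * ((Y n) ^ 2 / |L n|) * s n)
      cofinite (𝓝 0)) :
    ∃ H : Pm, Flat H ∧ IsGlue (fun n => cell (Y n) (L n) (μ n))
      (fun n => place (Y n) (L n) (hL n) (a n)) H := by
  have hF : ∀ n, Supp (place (Y n) (L n) (hL n) (a n)) (cell (Y n) (L n) (μ n)) := fun n =>
    place_supp (hL n) fun x hx => hsupp n x fun hx' => hx ⟨hx'.1.le, hx'.2.le⟩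
  obtain ⟨H, hH⟩ := exists_glue _ _ hdisj hF
  refine ⟨H, ?_, hH⟩
  have key : ∀ n, 0 < Λ n ∧ 0 ≤ (Y n) ^ 2 / |L n| * s n ∧
      |Y n| * s n ≤ Λ n * ((Y n) ^ 2 / |L n| * s n) := by
    intro n
    have hLn : 0 < |L n| := abs_pos.2 (hL n)
    have hYn : 0 < |Y n| := lt_of_lt_of_le one_pos (hY n)
    have hΛn : 0 < Λ n := by
      by_contra hcon
      have h1 : Λ n * |Y n| ≤ 0 := mul_nonpos_of_nonpos_of_nonneg (not_lt.1 hcon) hYn.le
      exact absurd (hΛ n) (not_le.2 (lt_of_le_of_lt h1 hLn))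
    refine ⟨hΛn, mul_nonneg (by positivity) (hs0 n), ?_⟩
    rw [← mul_assoc]
    refine mul_le_mul_of_nonneg_right ?_ (hs0 n)
    rw [← mul_div_assoc, le_div_iff₀ hLn, ← sq_abs (Y n)]
    have h2 := mul_le_mul_of_nonneg_left (hΛ n) hYn.le
    nlinarith [h2]
  refine hH.flat hdisj (fun n => isCompact_cell _ _ _) hF (fun n => |Y n| / 2)
    (fun n => (1 + 5 * Λ n) ^ 2 * (1 + Λ n) ^ 2 * ((Y n) ^ 2 / |L n|) * s n)
    (htend.atTop_div_const two_pos)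
    (fun n z hz => (cell_abs (hμ n) (hsign n) (hmar n) (hΛ n) hz).1)
    (fun n => (place_size (hL n) (hs n)).1) hlim ?_ ?_ ?_
  · intro n z _
    obtain ⟨h1, h2, h3⟩ := key n
    refine ((place_size (hL n) (hs n)).2.1 z).trans ?_
    have h4 : |L n| * s n ≤ Λ n * (Λ n * ((Y n) ^ 2 / |L n| * s n)) :=
      calc |L n| * s n ≤ Λ n * |Y n| * s n := mul_le_mul_of_nonneg_right (hΛ n) (hs0 n)
        _ = Λ n * (|Y n| * s n) := by ring
        _ ≤ _ := mul_le_mul_of_nonneg_left h3 h1.le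
    have h5 : Λ n * Λ n ≤ (1 + 5 * Λ n) ^ 2 * (1 + Λ n) ^ 2 := by
      have h6 : Λ n * Λ n ≤ (1 + Λ n) ^ 2 := by nlinarith
      have h7 : (1 : ℝ) ≤ (1 + 5 * Λ n) ^ 2 := by nlinarith
      calc Λ n * Λ n ≤ 1 * (1 + Λ n) ^ 2 := by rw [one_mul]; exact h6
        _ ≤ _ := mul_le_mul_of_nonneg_right h7 (sq_nonneg _)
    calc |L n| * s n ≤ Λ n * (Λ n * ((Y n) ^ 2 / |L n| * s n)) := h4
      _ = (Λ n * Λ n) * ((Y n) ^ 2 / |L n| * s n) := by ring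
      _ ≤ ((1 + 5 * Λ n) ^ 2 * (1 + Λ n) ^ 2) * ((Y n) ^ 2 / |L n| * s n) :=
        mul_le_mul_of_nonneg_right h5 h2
      _ = _ := by ring
  · intro n z hz
    obtain ⟨h1, h2, h3⟩ := key n
    have hz2 := (cell_abs (hμ n) (hsign n) (hmar n) (hΛ n) hz).2
    have hd := (place_size (y := Y n) (hL n) (hs n)).2.2.1 z
    rw [abs_mul]
    have h5 : (1 + 5 * Λ n) * Λ n ≤ (1 + 5 * Λ n) ^ 2 * (1 + Λ n) ^ 2 := by
      have h6 : Λ n ≤ (1 + Λ n) ^ 2 := by nlinarith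
      have h7 : (1 + 5 * Λ n) ≤ (1 + 5 * Λ n) ^ 2 := by nlinarith
      exact mul_le_mul h7 h6 h1.le (sq_nonneg _)
    calc |z| * |deriv (place (Y n) (L n) (hL n) (a n)) z - 1|
        ≤ (1 + 5 * Λ n) * |Y n| * s n := mul_le_mul hz2 hd (abs_nonneg _) (by positivity)
      _ = (1 + 5 * Λ n) * (|Y n| * s n) := by ring
      _ ≤ (1 + 5 * Λ n) * (Λ n * ((Y n) ^ 2 / |L n| * s n)) :=
        mul_le_mul_of_nonneg_left h3 (by positivity)
      _ = ((1 + 5 * Λ n) * Λ n) * ((Y n) ^ 2 / |L n| * s n) := by ring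
      _ ≤ ((1 + 5 * Λ n) ^ 2 * (1 + Λ n) ^ 2) * ((Y n) ^ 2 / |L n| * s n) :=
        mul_le_mul_of_nonneg_right h5 h2
      _ = _ := by ring
  · intro n z hz
    obtain ⟨h1, h2, h3⟩ := key n
    have hz2 := (cell_abs (hμ n) (hsign n) (hmar n) (hΛ n) hz).2
    have hd := (place_size (y := Y n) (hL n) (hs n)).2.2.2 z
    rw [abs_mul, abs_pow]
    have h5 : (1 + 5 * Λ n) ^ 2 ≤ (1 + 5 * Λ n) ^ 2 * (1 + Λ n) ^ 2 := by
      have h6 : (1 : ℝ) ≤ (1 + Λ n) ^ 2 := by nlinarith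
      exact le_mul_of_one_le_right (sq_nonneg _) h6
    calc |z| ^ 2 * |deriv (deriv (place (Y n) (L n) (hL n) (a n))) z|
        ≤ ((1 + 5 * Λ n) * |Y n|) ^ 2 * (s n / |L n|) :=
          mul_le_mul (pow_le_pow_left₀ (abs_nonneg _) hz2 2) hd (abs_nonneg _) (by positivity)
      _ = (1 + 5 * Λ n) ^ 2 * ((Y n) ^ 2 / |L n| * s n) := by
        rw [mul_pow, sq_abs]
        ring
      _ ≤ ((1 + 5 * Λ n) ^ 2 * (1 + Λ n) ^ 2) * ((Y n) ^ 2 / |L n| * s n) :=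
        mul_le_mul_of_nonneg_right h5 h2
      _ = _ := by ring

end GD31
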