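import Pool.Agent.LibGD31.CH4
import Pool.Agent.LibGD31.EX2
import Pool.Agent.LibGD31.ST3
import Pool.Agent.LibGD31.ST4
import Pool.Agent.LibGD31.ST5
import Pool.Agent.LibGD31.ST6

/-! # ST: the storage lemma -/

open Filter Topology Set

namespace GD31

/-- product of four permutations -/
def prod4 (f : Fin 4 → Pm) : Pm := f 0 * f 1 * f 2 * f 3

/-! ### Auxiliary facts -/

theorem st_hom_zpow {u : ℝ} (hu : 0 < u) (m : ℤ) (z : ℝ) : (hom u ^ m) z = u ^ m * z := by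
  have hn : ∀ n : ℕ, ∀ z, (hom u ^ n) z = u ^ n * z := by
    intro n
    induction n with
    | zero => intro z; simp
    | succ n ih =>
      intro z
      rw [pow_succ, Equiv.Perm.mul_apply, hom_apply hu.ne', ih, pow_succ]
      ring
  rcases m with n | n
  · simp only [Int.ofNat_eq_natCast, zpow_natCast]
    exact hn n z
  · rw [zpow_negSucc, zpow_negSucc, Equiv.Perm.inv_eq_iff_eq, hn]
    field_simp

theorem st_cell_mem {y l μ x : ℝ} (hx : x ∈ Icc (-μ) 5) : y + l * x ∈ cell y l μ := ⟨x, hx, rfl⟩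

/-- conjugation of a glued permutation by a homothety -/
theorem st_conj {ι : Type*} {Y L μ : ι → ℝ} {hL : ∀ n, L n ≠ 0} {a : ι → Pm} {H g : Pm} {r : ℝ}
    (hr : r ≠ 0) (hg : ∀ z, g z = r * z)
    (h : IsGlue (fun n => cell (Y n) (L n) (μ n)) (fun n => place (Y n) (L n) (hL n) (a n)) H) :
    IsGlue (fun n => cell (r * Y n) (r * L n) (μ n))
      (fun n => place (r * Y n) (r * L n) (mul_ne_zero hr (hL n)) (a n)) (g * H * g⁻¹) := by
  constructor
  · rintro n _ ⟨x, hx, rfl⟩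
    show (g * H * g⁻¹) (r * Y n + r * L n * x) = _
    have h1 : g⁻¹ (r * Y n + r * L n * x) = Y n + L n * x := by
      rw [Equiv.Perm.inv_eq_iff_eq, hg]
      ring
    have h2 := h.on n _ (st_cell_mem (y := Y n) (l := L n) hx)
    rw [Equiv.Perm.mul_apply, Equiv.Perm.mul_apply, h1, h2]
    simp only [place_apply]
    rw [hg]
    ring
  · intro z hz
    have h3 : ∀ n, g⁻¹ z ∉ cell (Y n) (L n) (μ n) := by
      rintro n ⟨x, hx, hxz⟩
      apply hz n
      refine ⟨x, hx, ?_⟩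
      have h4 : g (g⁻¹ z) = z := g.apply_symm_apply z
      rw [← hxz, hg] at h4
      rw [← h4]
      show r * Y n + r * L n * x = r * (Y n + L n * x)
      ring
    rw [Equiv.Perm.mul_apply, Equiv.Perm.mul_apply, h.off _ h3, show g (g⁻¹ z) = z from g.apply_symm_apply z]

theorem st_place_congr {y y' l l' : ℝ} (hl : l ≠ 0) (hl' : l' ≠ 0) (a : Pm) (h1 : y = y')
    (h2 : l = l') : place y l hl a = place y' l' hl' a := by
  subst h1 h2
  rfl

theorem st_zpow {u : ℝ} (hu : u ≠ 0) (m m' : ℤ) (t : ℝ) :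
    u ^ m * (u ^ (-m') * t) = u ^ (m - m') * t := by
  rw [← mul_assoc, ← zpow_add₀ hu, sub_eq_add_neg]

theorem st_zpow_self {u : ℝ} (hu : u ≠ 0) (m : ℤ) (t : ℝ) : u ^ m * (u ^ (-m) * t) = t := by
  rw [st_zpow hu, sub_self, zpow_zero, one_mul]

/-- families over the active indices which tend to `0` -/
theorem st_tend0 {Q : Type} (Act : ℕ → Set Q) (f : ℕ → Q → ℝ) (g : ℕ → ℝ)
    (hg : Tendsto g atTop (𝓝 0)) (h0 : ∀ k q, 0 ≤ f k q) (hle : ∀ k, ∀ q ∈ Act k, f k q ≤ g k)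
    (hf : ∀ k, Tendsto (f k) cofinite (𝓝 0)) :
    Tendsto (fun n : {n : ℕ × Q // n.2 ∈ Act n.1} => f n.1.1 n.1.2) cofinite (𝓝 0) := by
  rw [tendsto_order]
  refine ⟨fun a ha => Eventually.of_forall fun n => ha.trans_le (h0 _ _), fun a ha => ?_⟩
  obtain ⟨K, hK⟩ := eventually_atTop.1 (hg.eventually_lt_const ha)
  have hfin : (⋃ k ∈ Set.Iio K, ({k} : Set ℕ) ×ˢ {q : Q | ¬ f k q < a}).Finite :=
    (Set.finite_Iio K).biUnion fun k _ =>
      (Set.finite_singleton k).prod ((hf k).eventually_lt_const ha)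
  refine (hfin.preimage (Subtype.val_injective.injOn
    (s := Subtype.val ⁻¹' (⋃ k ∈ Set.Iio K, ({k} : Set ℕ) ×ˢ {q : Q | ¬ f k q < a})))).subset ?_
  intro n hn
  have hn' : ¬ f n.1.1 n.1.2 < a := hn
  rw [Set.mem_preimage, Set.mem_iUnion₂]
  refine ⟨n.1.1, ?_, rfl, hn'⟩
  by_contra hcon
  rw [Set.mem_Iio, not_lt] at hcon
  exact hn' ((hle _ _ n.2).trans_lt (hK _ hcon))

/-- families over the active indices which tend to infinity -/
theorem st_tendTop {Q : Type} (Act : ℕ → Set Q) (f : ℕ → Q → ℝ)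
    (hle : ∀ k, ∀ q ∈ Act k, (k : ℝ) + 1 ≤ f k q) (hf : ∀ k, Tendsto (f k) cofinite atTop) :
    Tendsto (fun n : {n : ℕ × Q // n.2 ∈ Act n.1} => f n.1.1 n.1.2) cofinite atTop := by
  rw [tendsto_atTop]
  intro R
  obtain ⟨K, hK⟩ := exists_nat_ge R
  have hfin : (⋃ k ∈ Set.Iio K, ({k} : Set ℕ) ×ˢ {q : Q | ¬ R ≤ f k q}).Finite :=
    (Set.finite_Iio K).biUnion fun k _ =>
      (Set.finite_singleton k).prod ((hf k).eventually_ge_atTop R)
  refine (hfin.preimage (Subtype.val_injective.injOn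
    (s := Subtype.val ⁻¹' (⋃ k ∈ Set.Iio K, ({k} : Set ℕ) ×ˢ {q : Q | ¬ R ≤ f k q})))).subset ?_
  intro n hn
  have hn' : ¬ R ≤ f n.1.1 n.1.2 := hn
  rw [Set.mem_preimage, Set.mem_iUnion₂]
  refine ⟨n.1.1, ?_, rfl, hn'⟩
  by_contra hcon
  rw [Set.mem_Iio, not_lt] at hcon
  apply hn'
  have h1 := hle _ _ n.2
  have h2 : (K : ℝ) ≤ n.1.1 := by exact_mod_cast hcon
  linarith

/-- the quantity which controls the size of the placed contents -/
noncomputable def st_val {Q : Type} (u : ℝ) (c : ℕ → ℤ) (y l : ℕ → Q → ℝ) (Λ C : ℕ → ℝ)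
    (ε : ℕ → Q → ℝ) (k : ℕ) (q : Q) : ℝ :=
  (1 + 5 * Λ k) ^ 2 * (1 + Λ k) ^ 2 * ((u ^ (-c k) * y k q) ^ 2 / |u ^ (-c k) * l k q|) *
    (C k * Real.sqrt (ε k q))

theorem st_val_nonneg {Q : Type} {u : ℝ} {c : ℕ → ℤ} {y l : ℕ → Q → ℝ} {Λ C : ℕ → ℝ}
    {ε : ℕ → Q → ℝ} (hC : ∀ k, 1 ≤ C k) (k : ℕ) (q : Q) : 0 ≤ st_val u c y l Λ C ε k q := by
  unfold st_val
  have h1 : 0 ≤ C k := zero_le_one.trans (hC k)
  positivity

theorem st_val_tend {Q : Type} {u : ℝ} (hu : 1 < u) {c : ℕ → ℤ} {y l : ℕ → Q → ℝ} {Λ C : ℕ → ℝ}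
    {ε : ℕ → Q → ℝ} (hl : ∀ k q, l k q ≠ 0) (hε : ∀ k q, 0 < ε k q)
    (hlim : ∀ k, Tendsto (fun q => (y k q) ^ 4 * ε k q / (l k q) ^ 2) cofinite (𝓝 0)) (k : ℕ) :
    Tendsto (st_val u c y l Λ C ε k) cofinite (𝓝 0) := by
  have hu0 : 0 < u := by linarith
  have h1 : ∀ q, st_val u c y l Λ C ε k q = ((1 + 5 * Λ k) ^ 2 * (1 + Λ k) ^ 2 * u ^ (-c k) * C k) *
      Real.sqrt ((y k q) ^ 4 * ε k q / (l k q) ^ 2) := by
    intro q
    have h2 : Real.sqrt ((y k q) ^ 4 * ε k q / (l k q) ^ 2) =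
        (y k q) ^ 2 * Real.sqrt (ε k q) / |l k q| := by
      have h3 : (y k q) ^ 4 * ε k q / (l k q) ^ 2 =
          ((y k q) ^ 2 * Real.sqrt (ε k q) / |l k q|) ^ 2 := by
        rw [div_pow, mul_pow, Real.sq_sqrt (hε k q).le, sq_abs]
        ring
      rw [h3, Real.sqrt_sq (by positivity)]
    have hz : 0 < u ^ (-c k) := zpow_pos hu0 _
    have hll : 0 < |l k q| := abs_pos.2 (hl k q)
    rw [h2, st_val, abs_mul, abs_of_pos hz]
    field_simp
  have h4 : Tendsto (fun q => ((1 + 5 * Λ k) ^ 2 * (1 + Λ k) ^ 2 * u ^ (-c k) * C k) *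
      Real.sqrt ((y k q) ^ 4 * ε k q / (l k q) ^ 2)) cofinite (𝓝 0) := by
    have h5 := ((Real.continuous_sqrt.tendsto 0).comp (hlim k)).const_mul
      ((1 + 5 * Λ k) ^ 2 * (1 + Λ k) ^ 2 * u ^ (-c k) * C k)
    rw [Real.sqrt_zero, mul_zero] at h5
    exact h5
  exact (tendsto_congr h1).2 h4

/-- one half of the storage -/
theorem st_half {Q : Type} (u : ℝ) (hu : 1 < u) (c : ℕ → ℤ) (y l : ℕ → Q → ℝ)
    (μ Λ C : ℕ → ℝ) (ε : ℕ → Q → ℝ) (hC : ∀ k, 1 ≤ C k) (hl : ∀ k q, l k q ≠ 0)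
    (hμ : ∀ k, 0 < μ k) (hsign : ∀ k q, 0 < l k q * y k q)
    (hmar : ∀ k q, 2 * μ k * |l k q| ≤ |y k q|) (hΛ : ∀ k q, |l k q| ≤ Λ k * |y k q|)
    (htend : ∀ k, Tendsto (fun q => |y k q|) cofinite atTop)
    (hε : ∀ k q, 0 < ε k q)
    (hlim : ∀ k, Tendsto (fun q => (y k q) ^ 4 * ε k q / (l k q) ^ 2) cofinite (𝓝 0))
    (Act : ℕ → Set Q) (hY : ∀ k, ∀ q ∈ Act k, (k : ℝ) + 1 ≤ u ^ (-c k) * |y k q|)
    (hv : ∀ k, ∀ q ∈ Act k, st_val u c y l Λ C ε k q ≤ (1 / 2 : ℝ) ^ k)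
    (hdisj : Pairwise fun n n' : {n : ℕ × Q // n.2 ∈ Act n.1} =>
      Disjoint (cell (u ^ (-c n.1.1) * y n.1.1 n.1.2) (u ^ (-c n.1.1) * l n.1.1 n.1.2) (μ n.1.1))
        (cell (u ^ (-c n'.1.1) * y n'.1.1 n'.1.2) (u ^ (-c n'.1.1) * l n'.1.1 n'.1.2) (μ n'.1.1)))
    (a : {n : ℕ × Q // n.2 ∈ Act n.1} → Pm)
    (hs : ∀ n, Sz (C n.1.1 * Real.sqrt (ε n.1.1 n.1.2)) (a n))
    (hsupp : ∀ n, Supp (a n) (Ioo (-μ n.1.1) 5)) :
    ∃ H : Pm, Flat H ∧ IsGlue
      (fun n : {n : ℕ × Q // n.2 ∈ Act n.1} =>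
        cell (u ^ (-c n.1.1) * y n.1.1 n.1.2) (u ^ (-c n.1.1) * l n.1.1 n.1.2) (μ n.1.1))
      (fun n => place (u ^ (-c n.1.1) * y n.1.1 n.1.2) (u ^ (-c n.1.1) * l n.1.1 n.1.2)
        (mul_ne_zero (zpow_ne_zero _ (by linarith)) (hl _ _)) (a n)) H := by
  have hu0 : 0 < u := by linarith
  have hz : ∀ m : ℤ, 0 < u ^ m := fun m => zpow_pos hu0 m
  have habs : ∀ (m : ℤ) (t : ℝ), |u ^ m * t| = u ^ m * |t| := fun m t => by
    rw [abs_mul, abs_of_pos (hz m)]
  refine glue_placed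
    (fun n : {n : ℕ × Q // n.2 ∈ Act n.1} => u ^ (-c n.1.1) * y n.1.1 n.1.2)
    (fun n => u ^ (-c n.1.1) * l n.1.1 n.1.2) (fun n => μ n.1.1) (fun n => Λ n.1.1)
    (fun n => C n.1.1 * Real.sqrt (ε n.1.1 n.1.2)) a _ (fun n => hμ _) ?_ ?_ ?_ ?_ ?_ hdisj ?_
    hs hsupp ?_
  · intro n
    have h1 := mul_pos (mul_pos (hz (-c n.1.1)) (hz (-c n.1.1))) (hsign n.1.1 n.1.2)
    have h2 : u ^ (-c n.1.1) * l n.1.1 n.1.2 * (u ^ (-c n.1.1) * y n.1.1 n.1.2) =
        u ^ (-c n.1.1) * u ^ (-c n.1.1) * (l n.1.1 n.1.2 * y n.1.1 n.1.2) := by ring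
    rw [h2]
    exact h1
  · intro n
    rw [habs, habs]
    have h1 := mul_le_mul_of_nonneg_left (hmar n.1.1 n.1.2) (hz (-c n.1.1)).le
    linarith
  · intro n
    rw [habs, habs]
    have h1 := mul_le_mul_of_nonneg_left (hΛ n.1.1 n.1.2) (hz (-c n.1.1)).le
    linarith
  · intro n
    rw [habs]
    have h1 := hY _ _ n.2
    have h2 : (0 : ℝ) ≤ n.1.1 := Nat.cast_nonneg _
    linarith
  · simp only [habs]
    refine st_tendTop Act (fun k q => u ^ (-c k) * |y k q|) hY fun k => ?_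
    exact (htend k).const_mul_atTop (hz _)
  · intro n
    have h1 : 0 ≤ C n.1.1 := zero_le_one.trans (hC _)
    positivity
  · refine st_tend0 Act (st_val u c y l Λ C ε) (fun k => (1 / 2 : ℝ) ^ k)
      (tendsto_pow_atTop_nhds_zero_of_lt_one (by norm_num) (by norm_num))
      (st_val_nonneg hC) hv (st_val_tend hu hl hε hlim)

/-- The four commutators at a point. -/
theorem st_four (F : Fin 4 → Pm) (p : Fin 4 → Pm) (S : Set ℝ)
    (h : ∀ i, ∀ z ∈ S, F i z = p i z ∧ F i z ∈ S) {z : ℝ} (hz : z ∈ S) :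
    prod4 F z = prod4 p z := by
  have h3 := h 3 z hz
  have h2 := h 2 _ h3.2
  have h1 := h 1 _ h2.2
  have h0 := h 0 _ h1.2
  simp only [prod4, Equiv.Perm.mul_apply]
  rw [h0.1, h1.1, h2.1, h3.1]

/-- **Storage lemma.** Plan. `C k`, `c₀ k` from `chain_lemma (μ k)`. Apply `activation` with
`bad k i i' q q'` := the two sets of `hiso` meet (`bad_finite`), and `good k q` := `ε k q ≤ c₀ k`,
`u^(-c k) |y| ≥ k + 1`, `u^(-d k) |y| ≥ k + 1`,
`(1 + 5 Λ)² (1 + Λ)² u^(-c k) C k √(y⁴ε/l²) ≤ 2^(-k)` and the same with `d k`. Index type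
`ι = {n : ℕ × Q // n.2 ∈ Act n.1}`; contents `a, b` of `chain_lemma` for `n ∈ ι`, placed at
`Y = u^(-c k) y`, `L = u^(-c k) l` for `A`, with `d k` for `B`; `glue_placed` gives `A i`, `B i`
(disjointness: `bad` with `i' = k` resp. `i = k` [multiply by `u^(c k)`, `image_cell`], and
`hdisj` for equal first entries). For the conclusion at `k`: conjugation by `hom u ^ c k` gives
the glued permutation of the same contents in the cells `u^(c k - c i) • cell`; near infinity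
apply `cm_glue` with `J = {n | n.1 = k}`: the bad pairs for `i, i' < k` are finite in number, hence
bounded. The four commutators preserve each `cell (y k q) (l k q) (μ k)`; inactive `q` are finite
in number. -/
theorem storage {Q : Type} (u : ℝ) (hu : 1 < u) (c d : ℕ → ℤ) (y l : ℕ → Q → ℝ)
    (μ Λ : ℕ → ℝ) (G : ℕ → Q → Pm) (ε : ℕ → Q → ℝ)
    (hμ : ∀ k, 0 < μ k) (hμ1 : ∀ k, μ k ≤ 1) (hsign : ∀ k q, 0 < l k q * y k q)
    (hmar : ∀ k q, 2 * μ k * |l k q| ≤ |y k q|) (hΛ : ∀ k q, |l k q| ≤ Λ k * |y k q|)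
    (htend : ∀ k, Tendsto (fun q => |y k q|) cofinite atTop)
    (hdisj : ∀ k, Pairwise fun q q' =>
      Disjoint (cell (y k q) (l k q) (μ k)) (cell (y k q') (l k q') (μ k)))
    (hiso : ∀ k i i' : ℕ, ¬ (i = k ∧ i' = k) → ∀ᶠ q in cofinite, ∀ q',
      Disjoint ((fun z => u ^ (c k - c i) * z) '' cell (y i q) (l i q) (μ i))
        ((fun z => u ^ (d k - d i') * z) '' cell (y i' q') (l i' q') (μ i')))
    (hsm : ∀ k q, Nl 5 (ε k q) 1 (disp (G k q))) (hsupp : ∀ k q, Supp (G k q) (Icc 0 1))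
    (hε : ∀ k q, 0 < ε k q)
    (hlim : ∀ k, Tendsto (fun q => (y k q) ^ 4 * ε k q / (l k q) ^ 2) cofinite (𝓝 0)) :
    ∃ A B : Fin 4 → Pm, (∀ i, Flat (A i)) ∧ (∀ i, Flat (B i)) ∧
      ∀ k, ∀ᶠ z in cocompact ℝ,
        (∀ q x, x ∈ Icc (-μ k) 5 → z = y k q + l k q * x →
          prod4 (fun i => cm (hom u ^ c k * A i * (hom u ^ c k)⁻¹)
            (hom u ^ d k * B i * (hom u ^ d k)⁻¹)) z = y k q + l k q * G k q x) ∧
        ((∀ q, z ∉ cell (y k q) (l k q) (μ k)) →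
          prod4 (fun i => cm (hom u ^ c k * A i * (hom u ^ c k)⁻¹)
            (hom u ^ d k * B i * (hom u ^ d k)⁻¹)) z = z) := by
  have hu0 : 0 < u := by linarith
  have hune : u ≠ 0 := hu0.ne'
  have hl : ∀ k q, l k q ≠ 0 := fun k q h => by
    have := hsign k q
    rw [h, zero_mul] at this
    exact lt_irrefl _ this
  choose C c₀ hC1 hc0 hchain using fun k => chain_lemma (μ k) (hμ k) (hμ1 k)
  -- activation
  obtain ⟨Act, hAct, hgood, hbad⟩ := activation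
    (fun k i i' q q' => ¬ Disjoint ((fun z => u ^ (c k - c i) * z) '' cell (y i q) (l i q) (μ i))
        ((fun z => u ^ (d k - d i') * z) '' cell (y i' q') (l i' q') (μ i')))
    (fun k q => ε k q ≤ c₀ k ∧ (k : ℝ) + 1 ≤ u ^ (-c k) * |y k q| ∧
      (k : ℝ) + 1 ≤ u ^ (-d k) * |y k q| ∧ st_val u c y l Λ C ε k q ≤ (1 / 2 : ℝ) ^ k ∧
      st_val u d y l Λ C ε k q ≤ (1 / 2 : ℝ) ^ k)
    (by
      intro k
      have e1 : ∀ᶠ q in cofinite, ε k q ≤ c₀ k := by
        have h1 : ∀ᶠ q in cofinite, (y k q) ^ 4 * ε k q / (l k q) ^ 2 < c₀ k / (Λ k ^ 2 + 1) :=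
          (hlim k).eventually_lt_const (by
            have := hc0 k
            positivity)
        filter_upwards [h1, (htend k).eventually_ge_atTop 1] with q hq hq1
        have hl2 : 0 < (l k q) ^ 2 := by
          have := hl k q
          positivity
        have hy2 : 1 ≤ (y k q) ^ 2 := by
          rw [← sq_abs]
          nlinarith
        have h2 : (l k q) ^ 2 ≤ Λ k ^ 2 * (y k q) ^ 2 := by
          rw [← sq_abs (l k q), ← sq_abs (y k q), ← mul_pow]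
          exact pow_le_pow_left₀ (abs_nonneg _) (hΛ k q) 2
        rw [div_lt_div_iff₀ hl2 (by positivity)] at hq
        have h3 : (y k q) ^ 4 * ε k q * (Λ k ^ 2 + 1) ≤ c₀ k * (Λ k ^ 2 * (y k q) ^ 2) :=
          hq.le.trans (mul_le_mul_of_nonneg_left h2 (hc0 k).le)
        have h4 : (y k q) ^ 2 * ε k q * (Λ k ^ 2 + 1) ≤ c₀ k * Λ k ^ 2 := by
          have h5 : (y k q) ^ 2 * ((y k q) ^ 2 * ε k q * (Λ k ^ 2 + 1)) ≤
              (y k q) ^ 2 * (c₀ k * Λ k ^ 2) := by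
            calc (y k q) ^ 2 * ((y k q) ^ 2 * ε k q * (Λ k ^ 2 + 1))
                = (y k q) ^ 4 * ε k q * (Λ k ^ 2 + 1) := by ring
              _ ≤ c₀ k * (Λ k ^ 2 * (y k q) ^ 2) := h3
              _ = (y k q) ^ 2 * (c₀ k * Λ k ^ 2) := by ring
          exact le_of_mul_le_mul_left h5 (by linarith)
        have h6 : ε k q * (Λ k ^ 2 + 1) ≤ c₀ k * (Λ k ^ 2 + 1) := by
          have h7 : ε k q * (Λ k ^ 2 + 1) ≤ (y k q) ^ 2 * ε k q * (Λ k ^ 2 + 1) := by
            have h8 : 0 < ε k q * (Λ k ^ 2 + 1) := by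
              have := hε k q
              positivity
            calc ε k q * (Λ k ^ 2 + 1) = 1 * (ε k q * (Λ k ^ 2 + 1)) := by ring
              _ ≤ (y k q) ^ 2 * (ε k q * (Λ k ^ 2 + 1)) :=
                  mul_le_mul_of_nonneg_right hy2 h8.le
              _ = _ := by ring
          have h9 : 0 < c₀ k := hc0 k
          nlinarith
        exact le_of_mul_le_mul_right h6 (by positivity)
      have e2 : ∀ m : ℤ, ∀ᶠ q in cofinite, (k : ℝ) + 1 ≤ u ^ (-m) * |y k q| := fun m =>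
        ((htend k).const_mul_atTop (zpow_pos hu0 (-m))).eventually_ge_atTop _
      have hpk : (0 : ℝ) < (1 / 2) ^ k := by positivity
      have e4 : ∀ᶠ q in cofinite, st_val u c y l Λ C ε k q ≤ (1 / 2 : ℝ) ^ k :=
        (st_val_tend hu hl hε hlim k).eventually_le_const hpk
      have e5 : ∀ᶠ q in cofinite, st_val u d y l Λ C ε k q ≤ (1 / 2 : ℝ) ^ k :=
        (st_val_tend hu hl hε hlim k).eventually_le_const hpk
      filter_upwards [e1, e2 (c k), e2 (d k), e4, e5] with q h1 h2 h3 h4 h5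
      exact ⟨h1, h2, h3, h4, h5⟩)
    (by
      intro k i i' hne
      exact bad_finite (zpow_pos hu0 _) (zpow_pos hu0 _) (hμ i') (hsign i') (hmar i') (htend i')
        (hiso k i i' hne))
  -- contents
  have hcont : ∀ n : {n : ℕ × Q // n.2 ∈ Act n.1}, ∃ a b : Fin 4 → Pm,
      (∀ i, Sz (C n.1.1 * Real.sqrt (ε n.1.1 n.1.2)) (a i)) ∧
      (∀ i, Sz (C n.1.1 * Real.sqrt (ε n.1.1 n.1.2)) (b i)) ∧
      (∀ i, Supp (a i) (Ioo (-μ n.1.1) 5)) ∧ (∀ i, Supp (b i) (Ioo (-μ n.1.1) 5)) ∧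
      G n.1.1 n.1.2 = cm (a 0) (b 0) * cm (a 1) (b 1) * cm (a 2) (b 2) * cm (a 3) (b 3) :=
    fun n => hchain n.1.1 (ε n.1.1 n.1.2) (G n.1.1 n.1.2) (hε _ _) (hgood _ _ n.2).1
      (hsm _ _) (hsupp _ _)
  choose a b hsa hsb hpa hpb hG using hcont
  -- disjointness of the placed cells
  have himg : ∀ (m : ℤ) (k : ℕ) (q : Q), cell (u ^ m * y k q) (u ^ m * l k q) (μ k) =
      (fun z => u ^ m * z) '' cell (y k q) (l k q) (μ k) := fun m k q => (image_cell _ _ _ _).symm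
  have hscale : ∀ (m m' : ℤ) (S S' : Set ℝ), Disjoint ((fun z => u ^ m * z) '' S)
      ((fun z => u ^ m' * z) '' S') → ∀ t : ℤ, Disjoint ((fun z => u ^ (m + t) * z) '' S)
      ((fun z => u ^ (m' + t) * z) '' S') := by
    intro m m' S S' h t
    rw [Set.disjoint_left] at h ⊢
    rintro _ ⟨x, hx, rfl⟩ ⟨x', hx', hxx⟩
    refine h ⟨x, hx, rfl⟩ ⟨x', hx', ?_⟩
    have h1 : u ^ t * (u ^ m' * x') = u ^ t * (u ^ m * x) := by
      simp only [zpow_add₀ hune] at hxx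
      linarith [hxx]
    exact mul_left_cancel₀ (zpow_ne_zero t hune) h1
  have hdA : Pairwise fun n n' : {n : ℕ × Q // n.2 ∈ Act n.1} =>
      Disjoint (cell (u ^ (-c n.1.1) * y n.1.1 n.1.2) (u ^ (-c n.1.1) * l n.1.1 n.1.2) (μ n.1.1))
        (cell (u ^ (-c n'.1.1) * y n'.1.1 n'.1.2) (u ^ (-c n'.1.1) * l n'.1.1 n'.1.2)
          (μ n'.1.1)) := by
    rintro ⟨⟨i, q⟩, hq⟩ ⟨⟨i', q'⟩, hq'⟩ hne
    simp only [himg]
    by_cases hii : i = i'
    · subst hii
      have hqq : q ≠ q' := by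
        rintro rfl
        exact hne rfl
      have h1 : Disjoint (cell (y i q) (l i q) (μ i)) (cell (y i q') (l i q') (μ i)) :=
        hdisj i hqq
      rw [Set.disjoint_left] at h1 ⊢
      rintro _ ⟨x, hx, rfl⟩ ⟨x', hx', hxx⟩
      exact h1 hx (by rwa [← mul_left_cancel₀ (zpow_ne_zero _ hune) hxx])
    · have h1 := hbad i' i i' (fun h => hii h.1) (le_max_right _ _) q hq q' hq'
      rw [not_not] at h1
      have h2 := hscale _ _ _ _ h1 (-c i')
      rw [show c i' - c i + -c i' = -c i by ring, show d i' - d i' + -c i' = -c i' by ring] at h2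
      exact h2
  have hdB : Pairwise fun n n' : {n : ℕ × Q // n.2 ∈ Act n.1} =>
      Disjoint (cell (u ^ (-d n.1.1) * y n.1.1 n.1.2) (u ^ (-d n.1.1) * l n.1.1 n.1.2) (μ n.1.1))
        (cell (u ^ (-d n'.1.1) * y n'.1.1 n'.1.2) (u ^ (-d n'.1.1) * l n'.1.1 n'.1.2)
          (μ n'.1.1)) := by
    rintro ⟨⟨i, q⟩, hq⟩ ⟨⟨i', q'⟩, hq'⟩ hne
    simp only [himg]
    by_cases hii : i = i'
    · subst hii
      have hqq : q ≠ q' := by
        rintro rfl
        exact hne rfl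
      have h1 : Disjoint (cell (y i q) (l i q) (μ i)) (cell (y i q') (l i q') (μ i)) :=
        hdisj i hqq
      rw [Set.disjoint_left] at h1 ⊢
      rintro _ ⟨x, hx, rfl⟩ ⟨x', hx', hxx⟩
      exact h1 hx (by rwa [← mul_left_cancel₀ (zpow_ne_zero _ hune) hxx])
    · have h1 := hbad i i i' (fun h => hii h.2.symm) (le_max_left _ _) q hq q' hq'
      rw [not_not] at h1
      have h2 := hscale _ _ _ _ h1 (-d i)
      rw [show c i - c i + -d i = -d i by ring, show d i - d i' + -d i = -d i' by ring] at h2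
      exact h2
  -- the permutations
  have hA : ∀ i : Fin 4, ∃ H : Pm, Flat H ∧ IsGlue
      (fun n : {n : ℕ × Q // n.2 ∈ Act n.1} =>
        cell (u ^ (-c n.1.1) * y n.1.1 n.1.2) (u ^ (-c n.1.1) * l n.1.1 n.1.2) (μ n.1.1))
      (fun n => place (u ^ (-c n.1.1) * y n.1.1 n.1.2) (u ^ (-c n.1.1) * l n.1.1 n.1.2)
        (mul_ne_zero (zpow_ne_zero _ hune) (hl _ _)) (a n i)) H := fun i =>
    st_half u hu c y l μ Λ C ε hC1 hl hμ hsign hmar hΛ htend hε hlim Act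
      (fun k q hq => (hgood k q hq).2.1) (fun k q hq => (hgood k q hq).2.2.2.1) hdA
      (fun n => a n i) (fun n => hsa n i) (fun n => hpa n i)
  have hB : ∀ i : Fin 4, ∃ H : Pm, Flat H ∧ IsGlue
      (fun n : {n : ℕ × Q // n.2 ∈ Act n.1} =>
        cell (u ^ (-d n.1.1) * y n.1.1 n.1.2) (u ^ (-d n.1.1) * l n.1.1 n.1.2) (μ n.1.1))
      (fun n => place (u ^ (-d n.1.1) * y n.1.1 n.1.2) (u ^ (-d n.1.1) * l n.1.1 n.1.2)
        (mul_ne_zero (zpow_ne_zero _ hune) (hl _ _)) (b n i)) H := fun i =>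
    st_half u hu d y l μ Λ C ε hC1 hl hμ hsign hmar hΛ htend hε hlim Act
      (fun k q hq => (hgood k q hq).2.2.1) (fun k q hq => (hgood k q hq).2.2.2.2) hdB
      (fun n => b n i) (fun n => hsb n i) (fun n => hpb n i)
  choose A hAf hAg using hA
  choose B hBf hBg using hB
  refine ⟨A, B, hAf, hBf, fun k => ?_⟩
  -- the conjugated glued permutations
  have hAk := fun i => st_conj (zpow_ne_zero (c k) hune) (st_hom_zpow hu0 (c k)) (hAg i)
  have hBk := fun i => st_conj (zpow_ne_zero (d k) hune) (st_hom_zpow hu0 (d k)) (hBg i)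
  -- the cells seen from `k`
  have hUk : ∀ n : {n : ℕ × Q // n.2 ∈ Act n.1},
      cell (u ^ c k * (u ^ (-c n.1.1) * y n.1.1 n.1.2)) (u ^ c k * (u ^ (-c n.1.1) * l n.1.1 n.1.2))
        (μ n.1.1) = (fun z => u ^ (c k - c n.1.1) * z) '' cell (y n.1.1 n.1.2) (l n.1.1 n.1.2)
          (μ n.1.1) := fun n => by
    rw [st_zpow hune, st_zpow hune, himg]
  have hVk : ∀ n : {n : ℕ × Q // n.2 ∈ Act n.1},
      cell (u ^ d k * (u ^ (-d n.1.1) * y n.1.1 n.1.2)) (u ^ d k * (u ^ (-d n.1.1) * l n.1.1 n.1.2))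
        (μ n.1.1) = (fun z => u ^ (d k - d n.1.1) * z) '' cell (y n.1.1 n.1.2) (l n.1.1 n.1.2)
          (μ n.1.1) := fun n => by
    rw [st_zpow hune, st_zpow hune, himg]
  -- the finite exceptional part
  have hbadfin : ∀ i i', ¬ (i = k ∧ i' = k) → {t : Q × Q | ¬ Disjoint
      ((fun z => u ^ (c k - c i) * z) '' cell (y i t.1) (l i t.1) (μ i))
      ((fun z => u ^ (d k - d i') * z) '' cell (y i' t.2) (l i' t.2) (μ i'))}.Finite :=
    fun i i' hne => bad_finite (zpow_pos hu0 _) (zpow_pos hu0 _) (hμ i') (hsign i') (hmar i')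
      (htend i') (hiso k i i' hne)
  obtain ⟨K1, hK1, hK1U, hK1V⟩ : ∃ K1 : Set ℝ, IsCompact K1 ∧
      (∀ i < k, ∀ i' < k, ∀ q q', ¬ Disjoint
        ((fun z => u ^ (c k - c i) * z) '' cell (y i q) (l i q) (μ i))
        ((fun z => u ^ (d k - d i') * z) '' cell (y i' q') (l i' q') (μ i')) →
        (fun z => u ^ (c k - c i) * z) '' cell (y i q) (l i q) (μ i) ⊆ K1) ∧
      (∀ i < k, ∀ i' < k, ∀ q q', ¬ Disjoint
        ((fun z => u ^ (c k - c i) * z) '' cell (y i q) (l i q) (μ i))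
        ((fun z => u ^ (d k - d i') * z) '' cell (y i' q') (l i' q') (μ i')) →
        (fun z => u ^ (d k - d i') * z) '' cell (y i' q') (l i' q') (μ i') ⊆ K1) := by
    refine ⟨⋃ i ∈ Set.Iio k, ⋃ i' ∈ Set.Iio k, ⋃ t ∈ {t : Q × Q | ¬ Disjoint
      ((fun z => u ^ (c k - c i) * z) '' cell (y i t.1) (l i t.1) (μ i))
      ((fun z => u ^ (d k - d i') * z) '' cell (y i' t.2) (l i' t.2) (μ i'))},
      (((fun z => u ^ (c k - c i) * z) '' cell (y i t.1) (l i t.1) (μ i)) ∪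
        ((fun z => u ^ (d k - d i') * z) '' cell (y i' t.2) (l i' t.2) (μ i'))), ?_, ?_, ?_⟩
    · refine (Set.finite_Iio k).isCompact_biUnion fun i hi =>
        (Set.finite_Iio k).isCompact_biUnion fun i' _ =>
          (hbadfin i i' fun h => (Set.mem_Iio.1 hi).ne h.1).isCompact_biUnion fun t _ => ?_
      rw [image_cell, image_cell]
      exact (isCompact_cell _ _ _).union (isCompact_cell _ _ _)
    · intro i hi i' hi' q q' hb z hz
      simp only [Set.mem_iUnion]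
      exact ⟨i, hi, i', hi', (q, q'), hb, Or.inl hz⟩
    · intro i hi i' hi' q q' hb z hz
      simp only [Set.mem_iUnion]
      exact ⟨i, hi, i', hi', (q, q'), hb, Or.inr hz⟩
  obtain ⟨R, hR⟩ := hK1.isBounded.exists_norm_le
  have hfin2 : {q : Q | ¬ 2 * R < |y k q|}.Finite := (htend k).eventually_gt_atTop (2 * R)
  have hK2 : IsCompact (⋃ q ∈ {q : Q | ¬ 2 * R < |y k q|}, cell (y k q) (l k q) (μ k)) :=
    hfin2.isCompact_biUnion fun q _ => isCompact_cell _ _ _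
  have hK3 : IsCompact (⋃ q ∈ (Act k)ᶜ, cell (y k q) (l k q) (μ k)) :=
    (hAct k).isCompact_biUnion fun q _ => isCompact_cell _ _ _
  -- the commutators outside of `K1`
  have hcm : ∀ i : Fin 4, ∀ z ∉ K1,
      (∀ q ∈ Act k, z ∈ cell (y k q) (l k q) (μ k) → ∀ hq : q ∈ Act k,
        cm (hom u ^ c k * A i * (hom u ^ c k)⁻¹) (hom u ^ d k * B i * (hom u ^ d k)⁻¹) z =
          place (y k q) (l k q) (hl k q) (cm (a ⟨(k, q), hq⟩ i) (b ⟨(k, q), hq⟩ i)) z ∧
        cm (hom u ^ c k * A i * (hom u ^ c k)⁻¹) (hom u ^ d k * B i * (hom u ^ d k)⁻¹) z ∈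
          cell (y k q) (l k q) (μ k)) ∧
      ((∀ q, z ∉ cell (y k q) (l k q) (μ k)) →
        cm (hom u ^ c k * A i * (hom u ^ c k)⁻¹) (hom u ^ d k * B i * (hom u ^ d k)⁻¹) z = z) := by
    intro i z hz
    have hdisjU : Pairwise fun n n' : {n : ℕ × Q // n.2 ∈ Act n.1} =>
        Disjoint (cell (u ^ c k * (u ^ (-c n.1.1) * y n.1.1 n.1.2))
            (u ^ c k * (u ^ (-c n.1.1) * l n.1.1 n.1.2)) (μ n.1.1))
          (cell (u ^ c k * (u ^ (-c n'.1.1) * y n'.1.1 n'.1.2))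
            (u ^ c k * (u ^ (-c n'.1.1) * l n'.1.1 n'.1.2)) (μ n'.1.1)) := by
      intro n n' hne
      have h1 := hdA hne
      simp only [himg] at h1
      have h2 := hscale _ _ _ _ h1 (c k)
      rw [hUk, hUk]
      rw [show -c n.1.1 + c k = c k - c n.1.1 by ring,
        show -c n'.1.1 + c k = c k - c n'.1.1 by ring] at h2
      exact h2
    have hdisjV : Pairwise fun n n' : {n : ℕ × Q // n.2 ∈ Act n.1} =>
        Disjoint (cell (u ^ d k * (u ^ (-d n.1.1) * y n.1.1 n.1.2))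
            (u ^ d k * (u ^ (-d n.1.1) * l n.1.1 n.1.2)) (μ n.1.1))
          (cell (u ^ d k * (u ^ (-d n'.1.1) * y n'.1.1 n'.1.2))
            (u ^ d k * (u ^ (-d n'.1.1) * l n'.1.1 n'.1.2)) (μ n'.1.1)) := by
      intro n n' hne
      have h1 := hdB hne
      simp only [himg] at h1
      have h2 := hscale _ _ _ _ h1 (d k)
      rw [hVk, hVk]
      rw [show -d n.1.1 + d k = d k - d n.1.1 by ring,
        show -d n'.1.1 + d k = d k - d n'.1.1 by ring] at h2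
      exact h2
    have hcell : ∀ n : {n : ℕ × Q // n.2 ∈ Act n.1}, n.1.1 = k →
        cell (u ^ c k * (u ^ (-c n.1.1) * y n.1.1 n.1.2))
          (u ^ c k * (u ^ (-c n.1.1) * l n.1.1 n.1.2)) (μ n.1.1) =
          cell (y n.1.1 n.1.2) (l n.1.1 n.1.2) (μ n.1.1) := by
      intro n hn
      rw [hn, st_zpow_self hune, st_zpow_self hune]
    have hcell' : ∀ n : {n : ℕ × Q // n.2 ∈ Act n.1}, n.1.1 = k →
        cell (u ^ d k * (u ^ (-d n.1.1) * y n.1.1 n.1.2))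
          (u ^ d k * (u ^ (-d n.1.1) * l n.1.1 n.1.2)) (μ n.1.1) =
          cell (y n.1.1 n.1.2) (l n.1.1 n.1.2) (μ n.1.1) := by
      intro n hn
      rw [hn, st_zpow_self hune, st_zpow_self hune]
    have hmain := cm_glue {n : {n : ℕ × Q // n.2 ∈ Act n.1} | n.1.1 = k} hdisjU hdisjV
      (fun n => place_supp _ fun x hx => hpa n i x fun h => hx ⟨h.1.le, h.2.le⟩)
      (fun n => place_supp _ fun x hx => hpb n i x fun h => hx ⟨h.1.le, h.2.le⟩)
      (hAk i) (hBk i) (fun n hn => by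
        rw [hcell n hn, hcell' n hn]) z
      (by
        intro n hn
        by_cases hnk : n.1.1 = k
        · exact Or.inl hnk
        right
        intro n'
        by_contra hcon
        rw [hUk, hVk] at hcon
        rw [hUk] at hn
        by_cases hmax : k ≤ max n.1.1 n'.1.1
        · exact hbad k n.1.1 n'.1.1 (fun h => hnk h.1) hmax _ n.2 _ n'.2 hcon
        · rw [not_le, max_lt_iff] at hmax
          exact hz (hK1U _ hmax.1 _ hmax.2 _ _ hcon hn))
      (by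
        intro n' hn'
        by_cases hnk : n'.1.1 = k
        · exact Or.inl hnk
        right
        intro n
        by_contra hcon
        rw [hUk, hVk] at hcon
        rw [hVk] at hn'
        by_cases hmax : k ≤ max n.1.1 n'.1.1
        · exact hbad k n.1.1 n'.1.1 (fun h => hnk h.2) hmax _ n.2 _ n'.2 hcon
        · rw [not_le, max_lt_iff] at hmax
          exact hz (hK1V _ hmax.1 _ hmax.2 _ _ hcon hn'))
    constructor
    · intro q _ hzq hq
      have h1 := hmain.1 ⟨(k, q), hq⟩ rfl (by rw [hcell _ rfl]; exact hzq)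
      rw [hcell _ rfl] at h1
      refine ⟨?_, h1.2⟩
      rw [h1.1, place_cm,
        st_place_congr _ (hl k q) _ (st_zpow_self hune (c k) (y k q))
          (st_zpow_self hune (c k) (l k q)),
        st_place_congr _ (hl k q) _ (st_zpow_self hune (d k) (y k q))
          (st_zpow_self hune (d k) (l k q))]
    · intro hzq
      refine hmain.2 fun n hn => ?_
      rw [hcell n hn]
      have hn' : n.1.1 = k := hn
      rw [hn']
      exact hzq _
  filter_upwards [hK1.compl_mem_cocompact, hK2.compl_mem_cocompact, hK3.compl_mem_cocompact]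
    with z hz1 hz2 hz3
  constructor
  · intro q x hx hzx
    have hzc : z ∈ cell (y k q) (l k q) (μ k) := ⟨x, hx, hzx.symm⟩
    have hqA : q ∈ Act k := by
      by_contra hcon
      exact hz3 (Set.mem_iUnion₂.2 ⟨q, hcon, hzc⟩)
    have hqR : 2 * R < |y k q| := by
      by_contra hcon
      exact hz2 (Set.mem_iUnion₂.2 ⟨q, hcon, hzc⟩)
    have hout : ∀ w ∈ cell (y k q) (l k q) (μ k), w ∉ K1 := by
      intro w hw hwK
      have h1 := (cell_abs (hμ k) (hsign k q) (hmar k q) (hΛ k q) hw).1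
      have h2 := hR w hwK
      rw [Real.norm_eq_abs] at h2
      linarith
    have h4 := st_four (fun i => cm (hom u ^ c k * A i * (hom u ^ c k)⁻¹)
      (hom u ^ d k * B i * (hom u ^ d k)⁻¹))
      (fun i => place (y k q) (l k q) (hl k q) (cm (a ⟨(k, q), hqA⟩ i) (b ⟨(k, q), hqA⟩ i)))
      (cell (y k q) (l k q) (μ k)) (fun i w hw => (hcm i w (hout w hw)).1 q hqA hw hqA) hzc
    rw [h4]
    have h5 : prod4 (fun i => place (y k q) (l k q) (hl k q)
        (cm (a ⟨(k, q), hqA⟩ i) (b ⟨(k, q), hqA⟩ i))) =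
        place (y k q) (l k q) (hl k q) (G k q) := by
      have h6 := hG ⟨(k, q), hqA⟩
      simp only at h6
      rw [h6, place_mul, place_mul, place_mul]
      rfl
    rw [h5, hzx, place_apply]
  · intro hzq
    have h1 : ∀ i, (fun i => cm (hom u ^ c k * A i * (hom u ^ c k)⁻¹)
        (hom u ^ d k * B i * (hom u ^ d k)⁻¹)) i z = z := fun i => (hcm i z hz1).2 hzq
    simp only [prod4, Equiv.Perm.mul_apply]
    have h10 := h1 0
    have h11 := h1 1
    have h12 := h1 2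
    have h13 := h1 3
    simp only at h10 h11 h12 h13
    rw [h13, h12, h11, h10]

end GD31
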