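import Pool.Agent.LibGD31.PD
import Pool.Agent.LibGD31.ST

/-! # FN0: parameters of the storage of the errors `E_j` -/

open Filter Topology Set

namespace GD31

/-- the level of item `k` -/
def jk (k : ℕ) : ℕ := 2 * k + 5

/-- exponents of item `k` -/
def ck (k : ℕ) : ℤ := 20 * 4 ^ k

def dk (k : ℕ) : ℤ := -(40 * 4 ^ k)

/-- sign -/
def sg (b : Bool) : ℝ := if b then 1 else -1

/-- thin cells: index `(sign, corner)` -/
noncomputable def yT {Q : Type} (p δ : Q → ℝ) (n : Bool × Q) : ℝ := sg n.1 * (p n.2 * (1 - δ n.2))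

noncomputable def lT {Q : Type} (p δ : Q → ℝ) (n : Bool × Q) : ℝ := sg n.1 * (2 * δ n.2 * p n.2)

/-- transition cells: index `(sign, s)`, the stage is `s + s₀`; `dl m` is the relative width of
the corner `2 ^ m` -/
noncomputable def yR (M : ℕ → ℕ) (dl : ℕ → ℝ) (s₀ : ℕ) (n : Bool × ℕ) : ℝ :=
  sg n.1 * (2 ^ M (n.2 + s₀) * (1 - 2 * dl (M (n.2 + s₀))))

noncomputable def lR (M : ℕ → ℕ) (dl : ℕ → ℝ) (s₀ j : ℕ) (n : Bool × ℕ) : ℝ :=
  sg n.1 * (2 ^ (M (n.2 + s₀) + j + 1) * (1 + 2 * dl (M (n.2 + s₀) + j + 1)) -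
    2 ^ M (n.2 + s₀) * (1 - 2 * dl (M (n.2 + s₀))))

/-- the left margin of the transition cells of level `j` -/
noncomputable def mR (j : ℕ) : ℝ := 1 / 2 ^ (j + 4)

/-- `dl m` is the relative width of the corner `2 ^ m`, for `m ≥ m₀` -/
structure DL {Q : Type} (p δ : Q → ℝ) (dl : ℕ → ℝ) (m₀ : ℕ) : Prop where
  pos : ∀ m, 0 < dl m
  le : ∀ m, dl m ≤ 1 / 1000
  ex : ∀ m, m₀ ≤ m → ∃ q, p q = 2 ^ m ∧ δ q = dl m

/-- corner `q` lies in a transition interval of level `j` -/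
def inTr {Q : Type} (M : ℕ → ℕ) (p : Q → ℝ) (j : ℕ) (q : Q) : Prop :=
  ∃ s, (2 : ℝ) ^ M s ≤ p q ∧ p q ≤ 2 ^ (M s + j + 1)

theorem exists_DL {a : ℝ} {w : ℝ → ℝ} {M : ℕ → ℕ} {Q : Type} {p δ : Q → ℝ}
    (h : PD a w M p δ) : ∃ (dl : ℕ → ℝ) (m₀ : ℕ), DL p δ dl m₀ := by
  classical
  obtain ⟨m₀, hm₀⟩ := eventually_atTop.1 h.pow_two
  have hex : ∀ m : ℕ, ∃ r : ℝ, 0 < r ∧ r ≤ 1 / 1000 ∧ (m₀ ≤ m → ∃ q, p q = 2 ^ m ∧ δ q = r) := by
    intro m
    by_cases hm : m₀ ≤ m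
    · obtain ⟨q, hq⟩ := hm₀ m hm
      exact ⟨δ q, h.δ_pos q, h.δ_le q, fun _ => ⟨q, hq, rfl⟩⟩
    · exact ⟨1 / 1000, by norm_num, le_rfl, fun h' => absurd h' hm⟩
  choose dl h1 h2 h3 using hex
  exact ⟨dl, m₀, h1, h2, h3⟩

/-- `3·4^k - 4^i - 2·4^i' ≠ 0`, in fact at least `4^(max - 1)` in absolute value. -/
theorem exponent_gap {k i i' : ℕ} (h : ¬ (i = k ∧ i' = k)) :
    20 * 4 ^ (max k (max i i') - 1) ≤ |(ck k - ck i) - (dk k - dk i')| := by
  have hx : (ck k - ck i) - (dk k - dk i') = 20 * (3 * 4 ^ k - 4 ^ i - 2 * 4 ^ i') := by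
    unfold ck dk
    ring
  rw [hx]
  obtain ⟨N, hN⟩ : ∃ N, max k (max i i') = N := ⟨_, rfl⟩
  have hk : k ≤ N := by omega
  have hi : i ≤ N := by omega
  have hi' : i' ≤ N := by omega
  rcases N with _ | n
  · exact absurd ⟨by omega, by omega⟩ h
  rw [hN, Nat.add_sub_cancel]
  have hlow : ∀ e : ℕ, e ≤ n → (4 : ℤ) ^ e ≤ 4 ^ n := fun e he =>
    pow_le_pow_right₀ (by norm_num) he
  have hpos : ∀ e : ℕ, (0 : ℤ) < 4 ^ e := fun e => by positivity
  have htop : ∀ e : ℕ, e = n + 1 → (4 : ℤ) ^ e = 4 * 4 ^ n := fun e he => by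
    rw [he, pow_succ]
    ring
  have hn := hpos n
  have h1 := hpos k
  have h2 := hpos i
  have h3 := hpos i'
  by_cases hk1 : k = n + 1
  · have e1 := htop k hk1
    refine le_trans ?_ (le_abs_self _)
    by_cases hi1 : i = n + 1
    · have e2 := htop i hi1
      have e3 := hlow i' (by
        by_contra hcon
        exact h ⟨by omega, by omega⟩)
      linarith
    · have e2 := hlow i (by omega)
      by_cases hi2 : i' = n + 1
      · have e3 := htop i' hi2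
        linarith
      · have e3 := hlow i' (by omega)
        linarith
  · have e1 := hlow k (by omega)
    refine le_trans ?_ (neg_le_abs _)
    by_cases hi1 : i = n + 1
    · have e2 := htop i hi1
      linarith
    · have e3 := htop i' (by omega)
      linarith

end GD31
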