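import Pool.Agent.LibGD31.ST1

/-! # FN1: restriction of a diffeomorphism to a zone -/

open Filter Topology Set

namespace GD31

/-- an increasing permutation fixing `0` and `1` preserves `[0,1]` -/
theorem fn1_mem {e : Pm} (he : StrictMono e) (h0 : e 0 = 0) (h1 : e 1 = 1) (x : ℝ) :
    e x ∈ Icc (0 : ℝ) 1 ↔ x ∈ Icc (0 : ℝ) 1 := by
  constructor
  · rintro ⟨h2, h3⟩
    exact ⟨he.le_iff_le.1 (by rw [h0]; exact h2), he.le_iff_le.1 (by rw [h1]; exact h3)⟩
  · rintro ⟨h2, h3⟩
    exact ⟨by rw [← h0]; exact he.monotone h2, by rw [← h1]; exact he.monotone h3⟩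

theorem fn1_iter {E : Pm} {y l : ℝ} (hE : Sm (disp E)) (i : ℕ) (x : ℝ) :
    iteratedDeriv i (fun x => l⁻¹ * disp E (y + l * x)) x =
      l⁻¹ * (l ^ i * iteratedDeriv i (disp E) (y + l * x)) := by
  have hk : Sm (fun z => disp E (y + z)) := hE.comp (contDiff_const.add contDiff_id)
  have hk2 : ContDiff ℝ i (fun z => disp E (y + z)) := hk.of_le (by exact_mod_cast le_top)
  have h1 := congrFun (iteratedDeriv_comp_const_mul hk2 l) x
  have h2 := congrFun (iteratedDeriv_comp_const_add (n := i) (f := disp E) (s := y)) (l * x)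
  rw [h2] at h1
  have h3 := iteratedDeriv_const_mul_field (n := i) (x := x) l⁻¹
    (fun x => (fun z => disp E (y + z)) (l * x))
  rw [h1] at h3
  exact h3

/-- `E` is the identity near both ends of the zone `{y + l x : x ∈ [0,1]}`: in the unit
coordinate it defines a diffeomorphism `G` supported in `[0,1]`. -/
theorem exists_restrict {E : Pm} {y l ε η : ℝ} (hl : l ≠ 0) (hη : 0 < η) (hε : 0 ≤ ε)
    (hE : Sm (disp E)) (hd : ∀ z, 0 < deriv E z)
    (h0 : ∀ z, |z - y| ≤ η → E z = z) (h1 : ∀ z, |z - (y + l)| ≤ η → E z = z)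
    (hb : ∀ i ≤ 5, ∀ x ∈ Icc (0 : ℝ) 1,
      |l| ^ i * |iteratedDeriv i (disp E) (y + l * x)| ≤ |l| * ε) :
    ∃ G : Pm, Nl 5 ε 1 (disp G) ∧ Supp G (Icc 0 1) ∧
      ∀ x ∈ Icc (0 : ℝ) 1, E (y + l * x) = y + l * G x := by
  classical
  have hla : 0 < |l| := abs_pos.2 hl
  set e : Pm := (af y l hl)⁻¹ * E * af y l hl with he
  have heap : ∀ x, e x = (E (y + l * x) - y) / l := fun x => rfl
  have heE : ∀ x, E (y + l * x) = y + l * e x := by
    intro x
    rw [heap, mul_div_cancel₀ _ hl]
    ring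
  have hEm : StrictMono E := strictMono_of_deriv_pos hd
  have hem : StrictMono e := by
    intro x x' hxx
    rcases lt_or_gt_of_ne hl with hneg | hpos
    · have h2 : y + l * x' < y + l * x := by nlinarith
      have h3 := hEm h2
      rw [heE, heE] at h3
      nlinarith
    · have h2 : y + l * x < y + l * x' := by nlinarith
      have h3 := hEm h2
      rw [heE, heE] at h3
      nlinarith
  set η' : ℝ := η / |l| with hη'
  have hη'0 : 0 < η' := div_pos hη hla
  have hfix0 : ∀ x, |x| ≤ η' → e x = x := by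
    intro x hx
    have h2 : E (y + l * x) = y + l * x := by
      apply h0
      rw [add_sub_cancel_left, abs_mul]
      calc |l| * |x| ≤ |l| * η' := mul_le_mul_of_nonneg_left hx hla.le
        _ = η := by rw [hη']; field_simp
    rw [heap, h2, add_sub_cancel_left, mul_div_cancel_left₀ _ hl]
  have hfix1 : ∀ x, |x - 1| ≤ η' → e x = x := by
    intro x hx
    have h2 : E (y + l * x) = y + l * x := by
      apply h1
      have h3 : y + l * x - (y + l) = l * (x - 1) := by ring
      rw [h3, abs_mul]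
      calc |l| * |x - 1| ≤ |l| * η' := mul_le_mul_of_nonneg_left hx hla.le
        _ = η := by rw [hη']; field_simp
    rw [heap, h2, add_sub_cancel_left, mul_div_cancel_left₀ _ hl]
  have he0 : e 0 = 0 := hfix0 0 (by rw [abs_zero]; exact hη'0.le)
  have he1 : e 1 = 1 := hfix1 1 (by rw [sub_self, abs_zero]; exact hη'0.le)
  set G : Pm := Equiv.Perm.ofSubtype (e.subtypePerm (p := fun x => x ∈ Icc (0 : ℝ) 1)
    (fn1_mem hem he0 he1)) with hG
  have hGin : ∀ x, x ∈ Icc (0 : ℝ) 1 → G x = e x := by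
    intro x hx
    rw [hG, Equiv.Perm.ofSubtype_apply_of_mem (p := fun x => x ∈ Icc (0 : ℝ) 1) _ hx]
    rfl
  have hGout : ∀ x, x ∉ Icc (0 : ℝ) 1 → G x = x := by
    intro x hx
    rw [hG, Equiv.Perm.ofSubtype_apply_of_not_mem (p := fun x => x ∈ Icc (0 : ℝ) 1) _ hx]
  set f : ℝ → ℝ := fun x => l⁻¹ * disp E (y + l * x) with hf
  have hfe : ∀ x, f x = e x - x := by
    intro x
    show l⁻¹ * (E (y + l * x) - (y + l * x)) = e x - x
    rw [heE]
    field_simp
    ring
  have hfs : Sm f := contDiff_const.mul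
    (hE.comp (contDiff_const.add (contDiff_const.mul contDiff_id)))
  -- local description of the displacement of `G`
  have hloc : ∀ x : ℝ, (x ∈ Icc (0 : ℝ) 1 ∧ disp G =ᶠ[𝓝 x] f) ∨
      (disp G =ᶠ[𝓝 x] fun _ => (0 : ℝ)) := by
    intro x
    by_cases hx : x ∈ Ioo (0 : ℝ) 1
    · left
      refine ⟨⟨hx.1.le, hx.2.le⟩, ?_⟩
      filter_upwards [isOpen_Ioo.mem_nhds hx] with z hz
      rw [hfe, disp, hGin z ⟨hz.1.le, hz.2.le⟩]
    · right
      by_cases hx0 : x < 0
      · filter_upwards [isOpen_Iio.mem_nhds hx0] with z hz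
        rw [disp, hGout z (fun h => absurd h.1 (not_le.2 hz)), sub_self]
      · by_cases hx1 : 1 < x
        · filter_upwards [isOpen_Ioi.mem_nhds hx1] with z hz
          rw [disp, hGout z (fun h => absurd h.2 (not_le.2 hz)), sub_self]
        · have hx2 : x = 0 ∨ x = 1 := by
            by_contra hcon
            push Not at hcon
            push Not at hx0 hx1
            exact hx ⟨lt_of_le_of_ne hx0 (Ne.symm hcon.1), lt_of_le_of_ne hx1 hcon.2⟩
          rcases hx2 with rfl | rfl
          · have hn : Ioo (-η') η' ∈ 𝓝 (0 : ℝ) := Ioo_mem_nhds (by linarith) hη'0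
            filter_upwards [hn] with z hz
            rw [disp]
            by_cases hz2 : z ∈ Icc (0 : ℝ) 1
            · rw [hGin z hz2, hfix0 z (abs_le.2 ⟨hz.1.le, hz.2.le⟩), sub_self]
            · rw [hGout z hz2, sub_self]
          · have hn : Ioo (1 - η') (1 + η') ∈ 𝓝 (1 : ℝ) :=
              Ioo_mem_nhds (by linarith) (by linarith)
            filter_upwards [hn] with z hz
            rw [disp]
            by_cases hz2 : z ∈ Icc (0 : ℝ) 1
            · rw [hGin z hz2, hfix1 z (abs_le.2 ⟨by linarith [hz.1], by linarith [hz.2]⟩),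
                sub_self]
            · rw [hGout z hz2, sub_self]
  refine ⟨G, ⟨?_, ?_⟩, fun x hx => hGout x hx, fun x hx => ?_⟩
  · refine contDiff_iff_contDiffAt.2 ?_
    intro x
    rcases hloc x with ⟨_, h⟩ | h
    · exact hfs.contDiffAt.congr_of_eventuallyEq h
    · exact contDiffAt_const.congr_of_eventuallyEq h
  · intro i hi x
    rw [one_pow, div_one]
    rcases hloc x with ⟨hx, h⟩ | h
    · rw [h.iteratedDeriv_eq i, hf, fn1_iter hE, abs_mul, abs_mul, abs_pow, abs_inv]
      have h3 := hb i hi x hx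
      calc |l|⁻¹ * (|l| ^ i * |iteratedDeriv i (disp E) (y + l * x)|)
          ≤ |l|⁻¹ * (|l| * ε) := mul_le_mul_of_nonneg_left h3 (inv_nonneg.2 hla.le)
        _ = ε := by rw [← mul_assoc, inv_mul_cancel₀ hla.ne', one_mul]
    · rw [h.iteratedDeriv_eq i, iteratedDeriv_fun_const_zero, abs_zero]
      exact hε
  · rw [hGin x hx, heE]

end GD31
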