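import Pool.Agent.LibGD31.FN0
import Pool.Agent.LibGD31.EX4
import Pool.Agent.LibGD31.EX5

/-! # FN2: the errors `E_j` are the identity off the zones -/

open Filter Topology Set

namespace GD31

private theorem fn2_ev {P : ℝ → Prop} (h : ∀ᶠ z in cocompact ℝ, P z) :
    ∃ R : ℝ, ∀ z, R ≤ |z| → P z := by
  rw [← Metric.cobounded_eq_cocompact, hasBasis_cobounded_norm.eventually_iff] at h
  obtain ⟨R, -, hR⟩ := h
  exact ⟨R, fun z hz => hR hz⟩

private theorem fn2_of {P : ℝ → Prop} (R : ℝ) (h : ∀ z, R ≤ |z| → P z) :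
    ∀ᶠ z in cocompact ℝ, P z := by
  rw [← Metric.cobounded_eq_cocompact, hasBasis_cobounded_norm.eventually_iff]
  exact ⟨R, trivial, fun z hz => h z hz⟩

private theorem fn2_sqrt {a : ℝ} {w : ℝ → ℝ} {M : ℕ → ℕ} {Q : Type} {p δ : Q → ℝ}
    (h : PD a w M p δ) (q : Q) : Real.sqrt (p q) ≤ p q * δ q := by
  have h1 : 1 ≤ p q := h.one_le_p q
  have h0 : 0 < p q := by linarith
  have h2 : p q * p q ^ (-(1 / 40 : ℝ)) ≤ p q * δ q :=
    mul_le_mul_of_nonneg_left (h.δ_low q) h0.le
  refine le_trans ?_ h2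
  have h3 : p q * p q ^ (-(1 / 40 : ℝ)) = p q ^ (39 / 40 : ℝ) := by
    conv_lhs => rw [← Real.rpow_one (p q), ← Real.rpow_mul h0.le]
    rw [← Real.rpow_add h0]
    norm_num
  rw [h3, Real.sqrt_eq_rpow]
  exact Real.rpow_le_rpow_of_exponent_le h1 (by norm_num)

private theorem fn2_low {a : ℝ} {w : ℝ → ℝ} {M : ℕ → ℕ} {Q : Type} {p δ : Q → ℝ}
    (h : PD a w M p δ) {q q₀ : Q} (hq : p q₀ ≤ p q) {y : ℝ}
    (hy : p q * (1 - 3 / 4 * δ q) ≤ y) : p q₀ * (1 - δ q₀) ≤ y := by
  have h0 : 0 < p q := by linarith [h.one_le_p q]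
  have h0' : 0 < p q₀ := by linarith [h.one_le_p q₀]
  have hd := h.δ_pos q
  have hd' := h.δ_pos q₀
  have hm : 0 < p q * δ q := mul_pos h0 hd
  have hm' : 0 < p q₀ * δ q₀ := mul_pos h0' hd'
  by_cases he : q = q₀
  · subst he; nlinarith
  · have h1 := Set.disjoint_left.1 (h.disj (Ne.symm he))
      (show p q₀ ∈ bigI (p q₀) (δ q₀) from ⟨by nlinarith, by nlinarith⟩)
    have h2 : p q₀ < p q * (1 - 20 * δ q) := by
      by_contra h3
      exact h1 ⟨not_lt.1 h3, by nlinarith⟩
    nlinarith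

private theorem fn2_upp {a : ℝ} {w : ℝ → ℝ} {M : ℕ → ℕ} {Q : Type} {p δ : Q → ℝ}
    (h : PD a w M p δ) {q q₁ : Q} (hq : p q ≤ p q₁) {y : ℝ}
    (hy : y ≤ p q * (1 + 3 / 4 * δ q)) : y ≤ p q₁ * (1 + δ q₁) := by
  have h0 : 0 < p q := by linarith [h.one_le_p q]
  have h0' : 0 < p q₁ := by linarith [h.one_le_p q₁]
  have hd := h.δ_pos q
  have hd' := h.δ_pos q₁
  have hm : 0 < p q * δ q := mul_pos h0 hd
  have hm' : 0 < p q₁ * δ q₁ := mul_pos h0' hd'
  by_cases he : q = q₁
  · subst he; nlinarith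
  · have h1 := Set.disjoint_left.1 (h.disj (Ne.symm he))
      (show p q₁ ∈ bigI (p q₁) (δ q₁) from ⟨by nlinarith, by nlinarith⟩)
    have h2 : p q * (1 + 20 * δ q) < p q₁ := by
      by_contra h3
      exact h1 ⟨by nlinarith, not_lt.1 h3⟩
    nlinarith

/-- For `|z|` large and off the inner thin zones (relative half width `3/4 δ`) of the corners
which are in no transition interval, and off the inner transition zones, `E_j z = z`
(`block_identity`; `sec_zero` gives relative half width `δ/2` and `δ p / 4 ≥ 20 · 4^j` for large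
`p` by `δ_low`; a corner `p` in a transition interval has its neighbourhood inside the inner
transition zone since the `bigI` are disjoint and `2^(M s)`, `2^(M s + j + 1)` are corners;
`tau_zero` for `τ_j`). -/
theorem Ep_eq_self {a : ℝ} {w : ℝ → ℝ} {M : ℕ → ℕ} {Q : Type} {p δ : Q → ℝ}
    (h : PD a w M p δ) {dl : ℕ → ℝ} {m₀ : ℕ} (hdl : DL p δ dl m₀) (j : ℕ) :
    ∀ᶠ z in cocompact ℝ,
      (∀ q, ¬ inTr M p j q → ¬ (p q * (1 - 3 / 4 * δ q) ≤ |z| ∧ |z| ≤ p q * (1 + 3 / 4 * δ q))) →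
      (∀ s, ¬ ((2 : ℝ) ^ M s * (1 - dl (M s)) ≤ |z| ∧
        |z| ≤ 2 ^ (M s + j + 1) * (1 + dl (M s + j + 1)))) →
      Ep w j z = z := by
  obtain ⟨R1, hR1⟩ := fn2_ev (h.tau_zero j)
  obtain ⟨R2, hR2⟩ := fn2_ev h.sec_zero
  set C : ℝ := 20 * 4 ^ j with hC
  have hC0 : 0 < C := by positivity
  set L : ℝ := 2 ^ (j + 2) * ((4 * C) ^ 2 + 2 ^ m₀) with hL
  have hL0 : 0 < L := by positivity
  refine fn2_of (C + L + |R1| + |R2|) ?_
  intro y hy hthin htr
  -- size of a power of two which is not much smaller than `L`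
  have hpow : ∀ s : ℕ, L ≤ 2 * 2 ^ (M s + j + 1) →
      m₀ ≤ M s ∧ (4 * C) ^ 2 ≤ (2 : ℝ) ^ M s := by
    intro s hs
    have h1 : (2 : ℝ) * 2 ^ (M s + j + 1) = 2 ^ (j + 2) * 2 ^ M s := by
      rw [← pow_succ', ← pow_add]; congr 1; omega
    rw [h1, hL] at hs
    have h2 : (4 * C) ^ 2 + 2 ^ m₀ ≤ (2 : ℝ) ^ M s := le_of_mul_le_mul_left hs (by positivity)
    refine ⟨?_, ?_⟩
    · have h3 : (2 : ℝ) ^ m₀ ≤ 2 ^ M s := by nlinarith [sq_nonneg (4 * C)]
      exact (pow_le_pow_iff_right₀ (by norm_num : (1 : ℝ) < 2)).1 h3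
    · have : (0 : ℝ) < 2 ^ m₀ := by positivity
      linarith
  -- corners
  have hsq : ∀ q, (4 * C) ^ 2 ≤ p q → 4 * C ≤ p q * δ q := by
    intro q hq
    refine le_trans ?_ (fn2_sqrt h q)
    exact Real.le_sqrt_of_sq_le hq
  -- case A
  have hA : ∀ z ∈ Icc (y - C) (y + C), ∀ s : ℕ, (2 : ℝ) ^ M s ≤ |z| → |z| ≤ 2 ^ (M s + j + 1) →
      False := by
    intro z hz s h1 h2
    have hzy : |z - y| ≤ C := by rw [abs_le]; constructor <;> linarith [hz.1, hz.2]
    have h3 : |z| ≤ |y| + C := by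
      have := abs_add_le y (z - y)
      rw [add_sub_cancel] at this
      linarith
    have h4 : |y| ≤ |z| + C := by
      have := abs_add_le z (y - z)
      rw [add_sub_cancel, abs_sub_comm] at this
      linarith
    have h5 : L ≤ 2 ^ (M s + j + 1) := by
      have := abs_nonneg R1
      have := abs_nonneg R2
      linarith
    obtain ⟨h6, h7⟩ := hpow s (by linarith [pow_pos (by norm_num : (0 : ℝ) < 2) (M s + j + 1)])
    obtain ⟨q₀, hp0, hd0⟩ := hdl.ex (M s) h6
    obtain ⟨q₁, hp1, hd1⟩ := hdl.ex (M s + j + 1) (by omega)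
    have h8 := hsq q₀ (by rw [hp0]; exact h7)
    have h9 := hsq q₁ (by
      rw [hp1]
      refine h7.trans (pow_le_pow_right₀ (by norm_num) (by omega)))
    rw [hp0, hd0] at h8
    rw [hp1, hd1] at h9
    exact htr s ⟨by linarith, by linarith⟩
  apply block_identity h.prof j y
  · intro z hz
    by_contra hne
    have hzy : |z - y| ≤ C := by rw [abs_le]; constructor <;> linarith [hz.1, hz.2]
    have h3 : |z| ≤ |y| + C := by
      have := abs_add_le y (z - y)
      rw [add_sub_cancel] at this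
      linarith
    have h4 : |y| ≤ |z| + C := by
      have := abs_add_le z (y - z)
      rw [add_sub_cancel, abs_sub_comm] at this
      linarith
    have hzL : L + |R1| + |R2| ≤ |z| := by linarith
    rcases hR2 z (by
      have := le_abs_self R2
      have := abs_nonneg R1
      linarith) hne with ⟨s, h5, h6⟩ | ⟨q, h5, h6⟩
    · exact hA z hz s h5 (h6.trans (pow_le_pow_right₀ (by norm_num) (by omega)))
    · have h0 : 0 < p q := by linarith [h.one_le_p q]
      have hd := h.δ_pos q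
      have hd2 := h.δ_le q
      have h7 : |z| ≤ 2 * p q := by nlinarith
      have h8 : L ≤ 2 * p q := by
        have := abs_nonneg R1
        have := abs_nonneg R2
        linarith
      have h9 : (4 * C) ^ 2 ≤ p q := by
        have h10 : 2 * ((4 * C) ^ 2 + 2 ^ m₀) ≤ L := by
          rw [hL]
          apply mul_le_mul_of_nonneg_right _ (by positivity)
          calc (2 : ℝ) = 2 ^ 1 := by norm_num
            _ ≤ 2 ^ (j + 2) := pow_le_pow_right₀ (by norm_num) (by omega)
        have : (0 : ℝ) < 2 ^ m₀ := by positivity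
        linarith
      have h10 := hsq q h9
      have h11 : p q * (1 - 3 / 4 * δ q) ≤ |y| := by linarith
      have h12 : |y| ≤ p q * (1 + 3 / 4 * δ q) := by linarith
      by_cases hin : inTr M p j q
      · obtain ⟨s, h13, h14⟩ := hin
        obtain ⟨h15, h16⟩ := hpow s (by linarith)
        obtain ⟨q₀, hp0, hd0⟩ := hdl.ex (M s) h15
        obtain ⟨q₁, hp1, hd1⟩ := hdl.ex (M s + j + 1) (by omega)
        have h17 := fn2_low h (q := q) (q₀ := q₀) (by rw [hp0]; exact h13) h11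
        have h18 := fn2_upp h (q := q) (q₁ := q₁) (by rw [hp1]; exact h14) h12
        rw [hp0, hd0] at h17
        rw [hp1, hd1] at h18
        exact htr s ⟨h17, h18⟩
      · exact hthin q hin ⟨h11, h12⟩
  · intro z hz
    by_contra hne
    have hzy : |z - y| ≤ C := by rw [abs_le]; constructor <;> linarith [hz.1, hz.2]
    have h4 : |y| ≤ |z| + C := by
      have := abs_add_le z (y - z)
      rw [add_sub_cancel, abs_sub_comm] at this
      linarith
    obtain ⟨s, h5, h6⟩ := hR1 z (by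
      have := le_abs_self R1
      have := abs_nonneg R2
      linarith) hne
    exact hA z hz s h5 h6

end GD31
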