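import Pool.Agent.LibGD31.FN1
import Pool.Agent.LibGD31.FN2

/-! # FN3: contents of the thin zones -/

open Filter Topology Set

namespace GD31

private theorem fn3_coc {P : ℝ → Prop} (h : ∀ᶠ z in cocompact ℝ, P z) :
    ∃ R : ℝ, ∀ z, R ≤ |z| → P z := by
  rw [cocompact_eq_atBot_atTop, eventually_sup, eventually_atBot, eventually_atTop] at h
  obtain ⟨⟨a, ha⟩, b, hb⟩ := h
  refine ⟨max (-a) b, fun z hz => ?_⟩
  rcases abs_cases z with ⟨h1, _⟩ | ⟨h1, _⟩
  · exact hb z (by rw [← h1]; exact (le_max_right _ _).trans hz)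
  · refine ha z ?_
    have h2 : -a ≤ |z| := (le_max_left _ _).trans hz
    rw [h1] at h2
    linarith

private theorem fn3_snd {Q : Type} : Tendsto (Prod.snd : Bool × Q → Q) cofinite cofinite := by
  intro s hs
  rw [Filter.mem_cofinite] at hs
  rw [Filter.mem_map, Filter.mem_cofinite]
  refine ((Set.finite_univ (α := Bool)).prod hs).subset ?_
  intro n hn
  exact ⟨Set.mem_univ _, hn⟩

private theorem fn3_zone {a : ℝ} {w : ℝ → ℝ} {M : ℕ → ℕ} {Q : Type} {p δ : Q → ℝ}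
    (h : PD a w M p δ) {dl : ℕ → ℝ} {m₀ : ℕ} (hdl : DL p δ dl m₀) (j : ℕ) (z : ℝ)
    (hz : (2 : ℝ) ^ (m₀ + j + 2) ≤ |z|) (q : Q) (hq : ¬ inTr M p j q)
    (hzq : |z| ∈ bigI (p q) (δ q)) (s : ℕ) :
    ¬ ((2 : ℝ) ^ M s * (1 - dl (M s)) ≤ |z| ∧
      |z| ≤ 2 ^ (M s + j + 1) * (1 + dl (M s + j + 1))) := by
  rintro ⟨h1, h2⟩
  have hM : m₀ ≤ M s := by
    by_contra hcon
    push Not at hcon
    have h3 : (2 : ℝ) ^ (M s + j + 1) ≤ 2 ^ (m₀ + j + 1) :=
      pow_le_pow_right₀ (by norm_num) (by omega)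
    have h4 := hdl.le (M s + j + 1)
    have h5 : (2 : ℝ) ^ (m₀ + j + 2) = 2 ^ (m₀ + j + 1) * 2 := pow_succ _ _
    have h6 : (0 : ℝ) < 2 ^ (m₀ + j + 1) := by positivity
    have h7 : (2 : ℝ) ^ (M s + j + 1) * (1 + dl (M s + j + 1)) ≤
        2 ^ (m₀ + j + 1) * (1 + 1 / 1000) :=
      mul_le_mul h3 (by linarith) (by linarith [hdl.pos (M s + j + 1)]) h6.le
    have h8 : (2 : ℝ) ^ (m₀ + j + 1) * (1 + 1 / 1000) < 2 ^ (m₀ + j + 1) * 2 :=
      mul_lt_mul_of_pos_left (by norm_num) h6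
    linarith
  obtain ⟨q1, hp1, hd1⟩ := hdl.ex (M s) hM
  obtain ⟨q2, hp2, hd2⟩ := hdl.ex (M s + j + 1) (by omega)
  have hp : 0 < p q := lt_of_lt_of_le one_pos (h.one_le_p q)
  have hδ := h.δ_pos q
  have hpd : 0 < p q * (20 * δ q) := mul_pos hp (by linarith)
  have e1 : p q * (1 - 20 * δ q) = p q - p q * (20 * δ q) := by ring
  have e2 : p q * (1 + 20 * δ q) = p q + p q * (20 * δ q) := by ring
  obtain ⟨hz1, hz2⟩ := hzq
  rw [e1] at hz1
  rw [e2] at hz2
  have hdisj : ∀ q', q' ≠ q → ∀ t, t ∈ bigI (p q) (δ q) → t ∉ bigI (p q') (δ q') := by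
    intro q' hq' t ht ht'
    exact Set.disjoint_left.1 (h.disj (Ne.symm hq')) ht ht'
  have hself : ∀ q', p q' ∈ bigI (p q') (δ q') := by
    intro q'
    have h3 : 0 < p q' := lt_of_lt_of_le one_pos (h.one_le_p q')
    have h4 : 0 < p q' * (20 * δ q') := mul_pos h3 (by linarith [h.δ_pos q'])
    exact ⟨by linarith, by linarith⟩
  by_cases hlt : p q < 2 ^ M s
  · have hne : q1 ≠ q := by
      rintro rfl
      rw [hp1] at hlt
      exact lt_irrefl _ hlt
    have h5 : 0 < p q1 := lt_of_lt_of_le one_pos (h.one_le_p q1)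
    have h6 : 0 < p q1 * δ q1 := mul_pos h5 (h.δ_pos q1)
    rw [← hp1, ← hd1] at h1
    rw [← hp1] at hlt
    by_cases hle : |z| ≤ p q1
    · refine hdisj q1 hne |z| ⟨by linarith, by linarith⟩ ⟨?_, ?_⟩
      · nlinarith
      · nlinarith
    · push Not at hle
      exact hdisj q1 hne (p q1) ⟨by linarith, by linarith⟩ (hself q1)
  · by_cases hgt : (2 : ℝ) ^ (M s + j + 1) < p q
    · have hne : q2 ≠ q := by
        rintro rfl
        rw [hp2] at hgt
        exact lt_irrefl _ hgt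
      have h5 : 0 < p q2 := lt_of_lt_of_le one_pos (h.one_le_p q2)
      have h6 : 0 < p q2 * δ q2 := mul_pos h5 (h.δ_pos q2)
      rw [← hp2, ← hd2] at h2
      rw [← hp2] at hgt
      by_cases hle : p q2 ≤ |z|
      · refine hdisj q2 hne |z| ⟨by linarith, by linarith⟩ ⟨?_, ?_⟩
        · nlinarith
        · nlinarith
      · push Not at hle
        exact hdisj q2 hne (p q2) ⟨by linarith, by linarith⟩ (hself q2)
    · push Not at hlt hgt
      exact hq ⟨s, hlt, hgt⟩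

private theorem fn3_tau {a : ℝ} {w : ℝ → ℝ} {M : ℕ → ℕ} {Q : Type} {p δ : Q → ℝ}
    (h : PD a w M p δ) {dl : ℕ → ℝ} {m₀ : ℕ} (hdl : DL p δ dl m₀) (j : ℕ) :
    ∃ R : ℝ, ∀ z, R ≤ |z| → ∀ q, ¬ inTr M p j q → |z| ∈ bigI (p q) (δ q) → tau w j z = 0 := by
  obtain ⟨R, hR⟩ := fn3_coc (h.tau_zero j)
  refine ⟨max R (2 ^ (m₀ + j + 2)), fun z hz q hq hzq => ?_⟩
  by_contra hne
  obtain ⟨s, hs1, hs2⟩ := hR z ((le_max_left _ _).trans hz) hne
  refine fn3_zone h hdl j z ((le_max_right _ _).trans hz) q hq hzq s ⟨?_, ?_⟩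
  · have h1 : (0 : ℝ) < 2 ^ M s := by positivity
    have h2 := hdl.pos (M s)
    nlinarith
  · have h1 : (0 : ℝ) < 2 ^ (M s + j + 1) := by positivity
    have h2 := hdl.pos (M s + j + 1)
    nlinarith

private theorem fn3_sg (b : Bool) : |sg b| = 1 := by
  cases b <;> simp [sg]

private theorem fn3_yabs {Q : Type} {p δ : Q → ℝ} (n : Bool × Q) (hp : 0 < p n.2)
    (hδ : δ n.2 ≤ 1 / 1000) : |yT p δ n| = p n.2 * (1 - δ n.2) := by
  rw [yT, abs_mul, fn3_sg, one_mul, abs_of_pos (mul_pos hp (by linarith))]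

private theorem fn3_labs {Q : Type} {p δ : Q → ℝ} (n : Bool × Q) (hp : 0 < p n.2)
    (hδ : 0 < δ n.2) : |lT p δ n| = 2 * δ n.2 * p n.2 := by
  rw [lT, abs_mul, fn3_sg, one_mul, abs_of_pos (mul_pos (by linarith) hp)]

private theorem fn3_pt {Q : Type} {p δ : Q → ℝ} (n : Bool × Q) (hp : 0 < p n.2)
    (hδ : 0 < δ n.2) (hδ' : δ n.2 ≤ 1 / 1000) {x : ℝ} (hx : x ∈ Icc (0 : ℝ) 1) :
    |yT p δ n + lT p δ n * x| = p n.2 * (1 - δ n.2) + 2 * δ n.2 * p n.2 * x := by
  have h1 : yT p δ n + lT p δ n * x =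
      sg n.1 * (p n.2 * (1 - δ n.2) + 2 * δ n.2 * p n.2 * x) := by
    rw [yT, lT]
    ring
  have h2 : 0 < p n.2 * (1 - δ n.2) := mul_pos hp (by linarith)
  have h3 : 0 ≤ 2 * δ n.2 * p n.2 * x := mul_nonneg (mul_nonneg (by linarith) hp.le) hx.1
  rw [h1, abs_mul, fn3_sg, one_mul, abs_of_pos (by linarith)]

/-- `G n := exists_restrict` for `E = Ep w j`, `y = yT n`, `l = lT n` if `n.2` is in no transition
interval and `n` is not in the finite exceptional set, and `G n := 1` otherwise. Near a thin zone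
`τ_j = 0` (`tau_zero` and disjointness from the transition intervals: `2^(M s)`,
`2^(M s + j + 1)` are corners), so by `Ep_expansion` the size is
`ε ≤ C p^(-5/2) / δ` and `y⁴ ε / l² ≤ C p^(-1/2) / δ³ → 0` by `δ_low`. `Ep w j` is the identity near
the two ends by `Ep_eq_self` (the end `p (1 ± δ)` is off all inner zones). -/
theorem thin_contents {a : ℝ} {w : ℝ → ℝ} {M : ℕ → ℕ} {Q : Type} {p δ : Q → ℝ}
    (h : PD a w M p δ) {dl : ℕ → ℝ} {m₀ : ℕ} (hdl : DL p δ dl m₀) (j : ℕ) :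
    ∃ (G : Bool × Q → Pm) (ε : Bool × Q → ℝ), (∀ n, 0 < ε n) ∧
      (∀ n, Nl 5 (ε n) 1 (disp (G n))) ∧ (∀ n, Supp (G n) (Icc 0 1)) ∧
      Tendsto (fun n => (yT p δ n) ^ 4 * ε n / (lT p δ n) ^ 2) cofinite (𝓝 0) ∧
      (∀ n, inTr M p j n.2 → G n = 1) ∧
      ∀ᶠ n in cofinite, ¬ inTr M p j n.2 → ∀ x ∈ Icc (0 : ℝ) 1,
        Ep w j (yT p δ n + lT p δ n * x) = yT p δ n + lT p δ n * G n x := by
  classical
  obtain ⟨hsm, -, hder⟩ := Ep_smooth h.prof j
  obtain ⟨C, R0, hC, hR0, hρ⟩ := (Ep_expansion h.prof j).bound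
  obtain ⟨R1, hR1⟩ := fn3_tau h hdl j
  obtain ⟨R2, hR2⟩ := fn3_coc (Ep_eq_self h hdl j)
  obtain ⟨C', hC'⟩ : ∃ C' : ℝ, C' = 2 * C + 1 := ⟨_, rfl⟩
  have hC'0 : 0 < C' := by linarith
  obtain ⟨ε, hε⟩ : ∃ ε : Bool × Q → ℝ, ε = fun n => C' * p n.2 ^ (-(5 / 2 : ℝ)) / δ n.2 :=
    ⟨_, rfl⟩
  have hp : ∀ q, 0 < p q := fun q => lt_of_lt_of_le one_pos (h.one_le_p q)
  have hεpos : ∀ n, 0 < ε n := by
    intro n
    rw [hε]
    exact div_pos (mul_pos hC'0 (Real.rpow_pos_of_pos (hp _) _)) (h.δ_pos _)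
  obtain ⟨Pr, hPr⟩ : ∃ Pr : Bool × Q → Pm → Prop, Pr = fun n G =>
      Nl 5 (ε n) 1 (disp G) ∧ Supp G (Icc 0 1) ∧ ∀ x ∈ Icc (0 : ℝ) 1,
        Ep w j (yT p δ n + lT p δ n * x) = yT p δ n + lT p δ n * G x := ⟨_, rfl⟩
  have hPr' : ∀ n G, Pr n G → Nl 5 (ε n) 1 (disp G) ∧ Supp G (Icc 0 1) ∧ ∀ x ∈ Icc (0 : ℝ) 1,
      Ep w j (yT p δ n + lT p δ n * x) = yT p δ n + lT p δ n * G x := by
    intro n G hG
    rw [hPr] at hG
    exact hG
  have hlarge : ∀ᶠ n : Bool × Q in cofinite,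
      2 * max (max R0 R1) (max R2 (2 ^ (m₀ + j + 2))) ≤ p n.2 :=
    (h.p_tend.comp fn3_snd).eventually_ge_atTop _
  have hmain : ∀ᶠ n : Bool × Q in cofinite, ¬ inTr M p j n.2 → ∃ G, Pr n G := by
    filter_upwards [hlarge] with n hn hq
    have hpn := hp n.2
    have hδ := h.δ_pos n.2
    have hδ' := h.δ_le n.2
    have hpd : 0 < p n.2 * δ n.2 := mul_pos hpn hδ
    have hpd' : p n.2 * δ n.2 ≤ p n.2 * (1 / 1000) := mul_le_mul_of_nonneg_left hδ' hpn.le
    have hmax : max (max R0 R1) (max R2 (2 ^ (m₀ + j + 2))) ≤ p n.2 / 2 := by linarith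
    have hR0p : R0 ≤ p n.2 / 2 := ((le_max_left _ _).trans (le_max_left _ _)).trans hmax
    have hR1p : R1 ≤ p n.2 / 2 := ((le_max_right _ _).trans (le_max_left _ _)).trans hmax
    have hR2p : R2 ≤ p n.2 / 2 := ((le_max_left _ _).trans (le_max_right _ _)).trans hmax
    have hR3p : (2 : ℝ) ^ (m₀ + j + 2) ≤ p n.2 / 2 :=
      ((le_max_right _ _).trans (le_max_right _ _)).trans hmax
    have hl : lT p δ n ≠ 0 := by
      rw [← abs_pos, fn3_labs n hpn hδ]
      exact mul_pos (by linarith) hpn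
    -- near the two ends
    have hend : ∀ z : ℝ, (|z| ≤ p n.2 * (1 - 7 / 8 * δ n.2) ∧ p n.2 * (1 - 9 / 8 * δ n.2) ≤ |z|) ∨
        (p n.2 * (1 + 7 / 8 * δ n.2) ≤ |z| ∧ |z| ≤ p n.2 * (1 + 9 / 8 * δ n.2)) →
        Ep w j z = z := by
      intro z hz
      have hz1 : p n.2 * (1 - 9 / 8 * δ n.2) ≤ |z| := by
        rcases hz with hz | hz
        · exact hz.2
        · nlinarith [hz.1]
      have hz2 : |z| ≤ p n.2 * (1 + 9 / 8 * δ n.2) := by
        rcases hz with hz | hz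
        · nlinarith [hz.1]
        · exact hz.2
      have hzb : |z| ∈ bigI (p n.2) (δ n.2) := ⟨by nlinarith, by nlinarith⟩
      have hzl : p n.2 / 2 ≤ |z| := by nlinarith
      refine hR2 z (hR2p.trans hzl) ?_ ?_
      · intro q' _ hq'
        by_cases hqq : q' = n.2
        · rw [hqq] at hq'
          rcases hz with hz | hz
          · nlinarith [hz.1, hq'.1]
          · nlinarith [hz.1, hq'.2]
        · refine Set.disjoint_left.1 (h.disj (fun e => hqq e.symm)) hzb ⟨?_, ?_⟩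
          · have h5 := mul_pos (hp q') (h.δ_pos q')
            nlinarith [hq'.1]
          · have h5 := mul_pos (hp q') (h.δ_pos q')
            nlinarith [hq'.2]
      · intro s
        exact fn3_zone h hdl j z (hR3p.trans hzl) n.2 hq hzb s
    have hη : 0 < p n.2 * δ n.2 / 8 := by linarith
    obtain ⟨G, hG⟩ := exists_restrict (E := Ep w j) (y := yT p δ n) (l := lT p δ n)
      (ε := ε n) (η := p n.2 * δ n.2 / 8) hl hη (hεpos n).le hsm hder
      (by
        intro z hz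
        have h1 := (abs_abs_sub_abs_le_abs_sub z (yT p δ n)).trans hz
        rw [fn3_yabs n hpn hδ', abs_le] at h1
        refine hend z (Or.inl ⟨?_, ?_⟩)
        · nlinarith [h1.2]
        · nlinarith [h1.1])
      (by
        intro z hz
        have h1 := (abs_abs_sub_abs_le_abs_sub z (yT p δ n + lT p δ n)).trans hz
        have h2 := fn3_pt n hpn hδ hδ' (x := 1) ⟨zero_le_one, le_rfl⟩
        rw [mul_one, mul_one] at h2
        rw [h2, abs_le] at h1
        refine hend z (Or.inr ⟨?_, ?_⟩)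
        · nlinarith [h1.1]
        · nlinarith [h1.2])
      (by
        intro i hi x hx
        have hzabs := fn3_pt n hpn hδ hδ' hx
        obtain ⟨z, hz⟩ : ∃ z, z = yT p δ n + lT p δ n * x := ⟨_, rfl⟩
        rw [← hz] at hzabs ⊢
        have h3 : 0 ≤ 2 * δ n.2 * p n.2 * x := mul_nonneg (mul_nonneg (by linarith) hpn.le) hx.1
        have h4 : 2 * δ n.2 * p n.2 * x ≤ 2 * δ n.2 * p n.2 * 1 :=
          mul_le_mul_of_nonneg_left hx.2 (mul_nonneg (by linarith) hpn.le)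
        have hz1 : p n.2 * (1 - δ n.2) ≤ |z| := by linarith
        have hz2 : |z| ≤ p n.2 * (1 + δ n.2) := by nlinarith
        have hzl : p n.2 / 2 ≤ |z| := by nlinarith
        have hev : disp (Ep w j) =ᶠ[𝓝 z] fun z => Ep w j z - z - tau w j z := by
          have hopen : Metric.ball z (p n.2 * δ n.2) ∈ 𝓝 z := Metric.ball_mem_nhds z hpd
          filter_upwards [hopen] with t ht
          rw [Metric.mem_ball, Real.dist_eq] at ht
          have h5 := (abs_abs_sub_abs_le_abs_sub t z).trans ht.le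
          rw [abs_le] at h5
          have h6 : tau w j t = 0 := by
            refine hR1 t (hR1p.trans ?_) n.2 hq ⟨?_, ?_⟩
            · nlinarith [h5.1]
            · nlinarith [h5.1]
            · nlinarith [h5.2]
          rw [disp, h6, sub_zero]
        rw [hev.iteratedDeriv_eq i]
        have h7 := hρ i hi z (hR0p.trans hzl)
        have hzpos : 0 < |z| := by linarith
        rw [fn3_labs n hpn hδ]
        -- the estimate
        have h8 : |z| ^ (-(3 / 2 + (i : ℝ))) ≤ (p n.2 / 2) ^ (-(3 / 2 + (i : ℝ))) := by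
          apply Real.rpow_le_rpow_of_nonpos (by linarith) hzl
          have : (0 : ℝ) ≤ (i : ℝ) := Nat.cast_nonneg i
          linarith
        have h9 : (p n.2 / 2) ^ (-(3 / 2 + (i : ℝ))) =
            (p n.2 / 2) ^ (-(3 / 2 : ℝ)) * ((p n.2 / 2) ^ i)⁻¹ := by
          rw [neg_add, Real.rpow_add (by linarith), Real.rpow_neg (by linarith) (i : ℝ),
            Real.rpow_natCast]
        have h10 : (p n.2 / 2) ^ (-(3 / 2 : ℝ)) = (2 : ℝ) ^ (3 / 2 : ℝ) * p n.2 ^ (-(3 / 2 : ℝ)) := by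
          rw [Real.div_rpow hpn.le (by norm_num), Real.rpow_neg (by norm_num : (0 : ℝ) ≤ 2)]
          field_simp
        have h11 : (2 : ℝ) ^ (3 / 2 : ℝ) ≤ 4 := by
          have : (2 : ℝ) ^ (3 / 2 : ℝ) ≤ 2 ^ (2 : ℝ) :=
            Real.rpow_le_rpow_of_exponent_le (by norm_num) (by norm_num)
          norm_num at this ⊢
          exact this
        have hA : 0 < p n.2 ^ (-(3 / 2 : ℝ)) := Real.rpow_pos_of_pos hpn _
        have h12 : (2 * δ n.2 * p n.2) ^ i * ((p n.2 / 2) ^ i)⁻¹ ≤ 1 := by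
          rw [← inv_pow, ← mul_pow]
          have h13 : 2 * δ n.2 * p n.2 * (p n.2 / 2)⁻¹ = 4 * δ n.2 := by
            field_simp
            ring
          rw [h13]
          exact pow_le_one₀ (by linarith) (by linarith)
        have h14 : 2 * δ n.2 * p n.2 * ε n = 2 * C' * p n.2 ^ (-(3 / 2 : ℝ)) := by
          rw [hε]
          change 2 * δ n.2 * p n.2 * (C' * p n.2 ^ (-(5 / 2 : ℝ)) / δ n.2) = _
          have h15 : p n.2 ^ (-(3 / 2 : ℝ)) = p n.2 * p n.2 ^ (-(5 / 2 : ℝ)) := by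
            have h16 := Real.rpow_add hpn 1 (-(5 / 2 : ℝ))
            rw [Real.rpow_one] at h16
            rw [← h16]
            norm_num
          rw [h15]
          field_simp
        rw [h14]
        have hB : 0 ≤ (2 * δ n.2 * p n.2) ^ i := pow_nonneg (mul_nonneg (by linarith) hpn.le) _
        calc (2 * δ n.2 * p n.2) ^ i * |iteratedDeriv i (fun z => Ep w j z - z - tau w j z) z|
            ≤ (2 * δ n.2 * p n.2) ^ i * (C * (p n.2 / 2) ^ (-(3 / 2 + (i : ℝ)))) :=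
              mul_le_mul_of_nonneg_left (h7.trans (mul_le_mul_of_nonneg_left h8 hC)) hB
          _ = C * ((p n.2 / 2) ^ (-(3 / 2 : ℝ)) *
                ((2 * δ n.2 * p n.2) ^ i * ((p n.2 / 2) ^ i)⁻¹)) := by
              rw [h9]
              ring
          _ ≤ C * ((4 * p n.2 ^ (-(3 / 2 : ℝ))) * 1) := by
              refine mul_le_mul_of_nonneg_left ?_ hC
              refine mul_le_mul ?_ h12 ?_ (by positivity)
              · rw [h10]
                exact mul_le_mul_of_nonneg_right h11 hA.le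
              · exact mul_nonneg hB (inv_nonneg.2 (pow_nonneg (by linarith) _))
          _ ≤ 2 * C' * p n.2 ^ (-(3 / 2 : ℝ)) := by
              rw [hC']
              nlinarith)
    exact ⟨G, by rw [hPr]; exact hG⟩
  refine ⟨fun n => if hn : ¬ inTr M p j n.2 ∧ ∃ G, Pr n G then hn.2.choose else 1, ε, hεpos,
    ?_, ?_, ?_, ?_, ?_⟩
  · intro n
    by_cases hn : ¬ inTr M p j n.2 ∧ ∃ G, Pr n G
    · simp only [dif_pos hn]
      exact (hPr' n _ hn.2.choose_spec).1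
    · simp only [dif_neg hn]
      have h1 : disp (1 : Pm) = fun _ => 0 := by
        funext x
        simp [disp]
      rw [h1]
      refine ⟨contDiff_const, fun i _ x => ?_⟩
      have h2 : iteratedDeriv i (fun _ : ℝ => (0 : ℝ)) x = 0 := by
        rw [iteratedDeriv_const]
        split_ifs <;> rfl
      rw [h2, abs_zero]
      exact div_nonneg (hεpos n).le (by positivity)
  · intro n
    by_cases hn : ¬ inTr M p j n.2 ∧ ∃ G, Pr n G
    · simp only [dif_pos hn]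
      exact (hPr' n _ hn.2.choose_spec).2.1
    · simp only [dif_neg hn]
      intro x _
      rfl
  · -- the limit
    have hlim : Tendsto (fun n : Bool × Q => C' / 4 * p n.2 ^ (-(17 / 40 : ℝ))) cofinite (𝓝 0) := by
      have h1 := (tendsto_rpow_neg_atTop (y := (17 / 40 : ℝ)) (by norm_num)).comp
        (h.p_tend.comp (fn3_snd (Q := Q)))
      have h2 := h1.const_mul (C' / 4)
      rw [mul_zero] at h2
      exact h2
    refine squeeze_zero (fun n => ?_) (fun n => ?_) hlim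
    · exact div_nonneg (mul_nonneg (by positivity) (hεpos n).le) (by positivity)
    · have hpn := hp n.2
      have hδ := h.δ_pos n.2
      have hδ' := h.δ_le n.2
      have h1 : yT p δ n ^ 4 ≤ p n.2 ^ 4 := by
        have h2 : yT p δ n ^ 4 = |yT p δ n| ^ 4 := by
          rw [show (4 : ℕ) = 2 * 2 by norm_num, pow_mul, pow_mul, sq_abs]
        rw [h2, fn3_yabs n hpn hδ']
        refine pow_le_pow_left₀ (mul_nonneg hpn.le (by linarith)) ?_ 4
        nlinarith
      have h3 : lT p δ n ^ 2 = 4 * δ n.2 ^ 2 * p n.2 ^ 2 := by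
        rw [← sq_abs, fn3_labs n hpn hδ]
        ring
      have h4 : yT p δ n ^ 4 * ε n / lT p δ n ^ 2 ≤
          p n.2 ^ 4 * ε n / (4 * δ n.2 ^ 2 * p n.2 ^ 2) := by
        rw [h3]
        exact div_le_div_of_nonneg_right (mul_le_mul_of_nonneg_right h1 (hεpos n).le)
          (by positivity)
      have h5 : p n.2 ^ 4 * ε n / (4 * δ n.2 ^ 2 * p n.2 ^ 2) =
          C' / 4 * (p n.2 ^ 2 * p n.2 ^ (-(5 / 2 : ℝ))) * (δ n.2 ^ 3)⁻¹ := by
        rw [hε]
        change p n.2 ^ 4 * (C' * p n.2 ^ (-(5 / 2 : ℝ)) / δ n.2) / (4 * δ n.2 ^ 2 * p n.2 ^ 2) = _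
        field_simp
      have h6 : (p n.2 ^ 2 * p n.2 ^ (-(5 / 2 : ℝ))) = p n.2 ^ (-(1 / 2 : ℝ)) := by
        rw [← Real.rpow_natCast, ← Real.rpow_add hpn]
        norm_num
      have h7 : (δ n.2 ^ 3)⁻¹ ≤ p n.2 ^ (3 / 40 : ℝ) := by
        have h8 := h.δ_low n.2
        have h9 : 0 < p n.2 ^ (-(1 / 40 : ℝ)) := Real.rpow_pos_of_pos hpn _
        have h10 : (p n.2 ^ (-(1 / 40 : ℝ))) ^ 3 ≤ δ n.2 ^ 3 := pow_le_pow_left₀ h9.le h8 3
        have h11 : (p n.2 ^ (-(1 / 40 : ℝ))) ^ 3 = p n.2 ^ (-(3 / 40 : ℝ)) := by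
          rw [← Real.rpow_natCast, ← Real.rpow_mul hpn.le]
          norm_num
        rw [h11] at h10
        have h12 : (δ n.2 ^ 3)⁻¹ ≤ (p n.2 ^ (-(3 / 40 : ℝ)))⁻¹ :=
          inv_anti₀ (Real.rpow_pos_of_pos hpn _) h10
        rwa [← Real.rpow_neg hpn.le, neg_neg] at h12
      rw [h5, h6] at h4
      refine h4.trans ?_
      have h13 : p n.2 ^ (-(17 / 40 : ℝ)) = p n.2 ^ (-(1 / 2 : ℝ)) * p n.2 ^ (3 / 40 : ℝ) := by
        rw [← Real.rpow_add hpn]
        norm_num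
      rw [h13, mul_assoc]
      refine mul_le_mul_of_nonneg_left ?_ (by positivity)
      exact mul_le_mul_of_nonneg_left h7 (Real.rpow_pos_of_pos hpn _).le
  · intro n hn
    have h1 : ¬ (¬ inTr M p j n.2 ∧ ∃ G, Pr n G) := fun h2 => h2.1 hn
    simp only [dif_neg h1]
  · filter_upwards [hmain] with n hn hq x hx
    have h1 : ¬ inTr M p j n.2 ∧ ∃ G, Pr n G := ⟨hq, hn hq⟩
    simp only [dif_pos h1]
    exact (hPr' n _ h1.2.choose_spec).2.2 x hx

end GD31
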