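import Pool.Agent.LibGD31.FN1
import Pool.Agent.LibGD31.FN2

/-! # FN4: contents of the transition zones -/

open Filter Topology Set

namespace GD31

theorem fn4_sg (b : Bool) : |sg b| = 1 := by cases b <;> simp [sg]

theorem fn4_snd : Tendsto (fun n : Bool × ℕ => n.2) cofinite atTop := by
  rw [tendsto_atTop]
  intro N
  rw [eventually_cofinite]
  refine (Set.finite_univ.prod (Set.finite_Iio N)).subset ?_
  rintro ⟨b, s⟩ hs
  exact ⟨mem_univ _, by simpa using hs⟩

theorem fn4_tend {M : ℕ → ℕ} (hM : StrictMono M) {dl : ℕ → ℝ} (hle : ∀ m, dl m ≤ 1 / 1000)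
    (s₀ : ℕ) : Tendsto (fun n : Bool × ℕ =>
      (2 : ℝ) ^ M (n.2 + s₀) * (1 - 2 * dl (M (n.2 + s₀)))) cofinite atTop := by
  have h1 : Tendsto (fun n : Bool × ℕ => ((n.2 : ℕ) : ℝ) / 2) cofinite atTop :=
    (tendsto_natCast_atTop_atTop.comp fn4_snd).atTop_div_const two_pos
  refine tendsto_atTop_mono (fun n => ?_) h1
  have h2 : n.2 ≤ M (n.2 + s₀) := (Nat.le_add_right _ _).trans (hM.id_le _)
  have h3 : ((n.2 : ℕ) : ℝ) ≤ (2 : ℝ) ^ M (n.2 + s₀) := by
    have h4 : M (n.2 + s₀) < 2 ^ M (n.2 + s₀) := Nat.lt_two_pow_self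
    exact_mod_cast h2.trans h4.le
  have h4 := hle (M (n.2 + s₀))
  have h5 : (0 : ℝ) < (2 : ℝ) ^ M (n.2 + s₀) := by positivity
  nlinarith

/-- uniform version of a limit at infinity -/
theorem fn4_sup {D : ℝ → ℝ} (hc : Continuous D) (h0 : ∀ z, 0 ≤ D z)
    (hD : Tendsto D (cocompact ℝ) (𝓝 0)) :
    ∃ θ : ℝ → ℝ, (∀ r, 0 ≤ θ r) ∧ (∀ r z, r ≤ |z| → D z ≤ θ r) ∧ Tendsto θ atTop (𝓝 0) := by
  have key : ∀ ε : ℝ, 0 < ε → ∃ R : ℝ, ∀ z, R ≤ |z| → D z ≤ ε := by
    intro ε hε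
    have h1 : ∀ᶠ z in cocompact ℝ, D z < ε := hD.eventually (gt_mem_nhds hε)
    rw [← Metric.cobounded_eq_cocompact, ← comap_norm_atTop, eventually_comap,
      eventually_atTop] at h1
    obtain ⟨R, hR⟩ := h1
    exact ⟨R, fun z hz => (hR |z| hz z rfl).le⟩
  obtain ⟨R₁, hR₁⟩ := key 1 one_pos
  obtain ⟨C, hC⟩ := (isCompact_closedBall (0 : ℝ) R₁).exists_bound_of_continuousOn hc.continuousOn
  have hbd : ∀ z, D z ≤ max 1 C := by
    intro z
    rcases le_total R₁ |z| with hz | hz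
    · exact (hR₁ z hz).trans (le_max_left _ _)
    · have h1 := hC z (by simpa using hz)
      exact ((le_abs_self _).trans h1).trans (le_max_right _ _)
  have hbdd : ∀ r, BddAbove (D '' {z | r ≤ |z|}) := by
    intro r
    refine ⟨max 1 C, ?_⟩
    rintro _ ⟨z, -, rfl⟩
    exact hbd z
  have hle : ∀ r z, r ≤ |z| → D z ≤ sSup (D '' {z | r ≤ |z|}) := fun r z hz =>
    le_csSup (hbdd r) ⟨z, hz, rfl⟩
  have hpos : ∀ r, 0 ≤ sSup (D '' {z | r ≤ |z|}) := fun r =>
    (h0 |r|).trans (hle r |r| (by rw [abs_abs]; exact le_abs_self r))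
  refine ⟨fun r => sSup (D '' {z | r ≤ |z|}), hpos, hle, ?_⟩
  rw [Metric.tendsto_atTop]
  intro ε hε
  obtain ⟨R, hR⟩ := key (ε / 2) (half_pos hε)
  refine ⟨R, fun r hr => ?_⟩
  rw [Real.dist_eq, sub_zero, abs_of_nonneg (hpos r)]
  refine lt_of_le_of_lt (csSup_le ⟨D |r|, |r|, ?_, rfl⟩ ?_) (half_lt_self hε)
  · show r ≤ |(|r|)|
    rw [abs_abs]
    exact le_abs_self r
  · rintro _ ⟨z, hz, rfl⟩
    exact hR z (hr.trans hz)

/-- the error in `C⁵` -/
theorem fn4_disp {a : ℝ} {w : ℝ → ℝ} {M : ℕ → ℕ} {Q : Type} {p δ : Q → ℝ}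
    (h : PD a w M p δ) (j i : ℕ) (hi : i ≤ 5) :
    Tendsto (fun z => z ^ (1 + i) * iteratedDeriv i (disp (Ep w j)) z) (cocompact ℝ) (𝓝 0) := by
  have hob := Ep_expansion h.prof j
  set ρ : ℝ → ℝ := fun z => Ep w j z - z - tau w j z with hρ
  have hsE := (Ep_smooth h.prof j).1
  have hsρ : Sm ρ := hob.smooth
  have htau : tau w j = fun z => disp (Ep w j) z - ρ z := by
    funext z
    simp only [hρ, disp]
    ring
  have hst : Sm (tau w j) := by
    rw [htau]
    exact hsE.sub hsρ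
  have hsum : disp (Ep w j) = tau w j + ρ := by
    funext z
    simp only [hρ, disp, Pi.add_apply]
    ring
  have h1 : ∀ z, iteratedDeriv i (disp (Ep w j)) z =
      iteratedDeriv i (tau w j) z + iteratedDeriv i ρ z := by
    intro z
    rw [hsum]
    exact iteratedDeriv_add (hst.contDiffAt.of_le (by exact_mod_cast le_top))
      (hsρ.contDiffAt.of_le (by exact_mod_cast le_top))
  have h2 : Tendsto (fun z => z ^ (1 + i) * iteratedDeriv i ρ z) (cocompact ℝ) (𝓝 0) := by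
    obtain ⟨C, R, hC, hR, hb⟩ := hob.bound
    have h3 : Tendsto (fun z : ℝ => C * |z| ^ (-(1 / 2) : ℝ)) (cocompact ℝ) (𝓝 0) := by
      have h4 : Tendsto (fun z : ℝ => |z| ^ (-(1 / 2) : ℝ)) (cocompact ℝ) (𝓝 0) :=
        (tendsto_rpow_neg_atTop (by norm_num : (0 : ℝ) < 1 / 2)).comp tendsto_norm_cocompact_atTop
      simpa using h4.const_mul C
    refine squeeze_zero_norm' ?_ h3
    have h5 : ∀ᶠ z : ℝ in cocompact ℝ, R ≤ ‖z‖ := tendsto_norm_cocompact_atTop.eventually_ge_atTop R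
    filter_upwards [h5] with z hz
    have hz' : R ≤ |z| := hz
    have hz0 : 0 < |z| := lt_of_lt_of_le (lt_of_lt_of_le one_pos hR) hz'
    rw [Real.norm_eq_abs, abs_mul, abs_pow]
    calc |z| ^ (1 + i) * |iteratedDeriv i ρ z|
        ≤ |z| ^ (1 + i) * (C * |z| ^ (-(3 / 2 + (i : ℝ)))) :=
          mul_le_mul_of_nonneg_left (hb i hi z hz') (by positivity)
      _ = C * |z| ^ (-(1 / 2) : ℝ) := by
        have h6 : |z| ^ (1 + i) = |z| ^ ((1 : ℝ) + i) := by
          rw [← Real.rpow_natCast]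
          push_cast
          rfl
        rw [h6, mul_left_comm, ← Real.rpow_add hz0]
        congr 2
        ring
  have h7 := (h.tau_small j i hi).add h2
  rw [add_zero] at h7
  refine h7.congr fun z => ?_
  rw [h1 z]
  ring

theorem fn4_ar1 {A u r R : ℝ} (hA : 0 < A) (h0 : 0 < A * u) (h1 : A * u ≤ A * (1 / 1000))
    (h2 : -(A * u / 2) ≤ r - A * (1 - 2 * u)) (h3 : r - A * (1 - 2 * u) ≤ A * u / 2)
    (hR : 2 * |R| ≤ A * (1 - 2 * u)) :
    R ≤ r ∧ A * (1 - 20 * u) ≤ r ∧ r ≤ A * (1 + 20 * u) ∧ ¬ (A * (1 - u) ≤ r) ∧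
      A * (99 / 100) ≤ r ∧ r ≤ A := by
  have h4 := le_abs_self R
  refine ⟨by linarith, by linarith, by linarith, ?_, by linarith, by linarith⟩
  intro h5
  linarith

theorem fn4_ar2 {A B u v r R : ℝ} (hA : 0 < A) (hAB : A * 2 ≤ B) (h0 : 0 < A * u)
    (h0' : 0 < B * v) (h1 : B * v ≤ B * (1 / 1000))
    (h2 : -(B * v / 2) ≤ r - B * (1 + 2 * v)) (h3 : r - B * (1 + 2 * v) ≤ B * v / 2)
    (hR : 2 * |R| ≤ A * (1 - 2 * u)) :
    R ≤ r ∧ B * (1 - 20 * v) ≤ r ∧ r ≤ B * (1 + 20 * v) ∧ ¬ (r ≤ B * (1 + v)) ∧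
      B ≤ r ∧ r ≤ B * (101 / 100) := by
  have h4 := le_abs_self R
  refine ⟨by linarith, by linarith, by linarith, ?_, by linarith, by linarith⟩
  intro h5
  linarith

/-- off the thin zones -/
theorem fn4_thin {a : ℝ} {w : ℝ → ℝ} {M : ℕ → ℕ} {Q : Type} {p δ : Q → ℝ}
    (h : PD a w M p δ) {dl : ℕ → ℝ} {m₀ : ℕ} (hdl : DL p δ dl m₀) (j m s : ℕ) (hm : m₀ ≤ m)
    (h1 : M s ≤ m) (h2 : m ≤ M s + j + 1) (r : ℝ) (h3 : (2 : ℝ) ^ m * (1 - 20 * dl m) ≤ r)
    (h4 : r ≤ 2 ^ m * (1 + 20 * dl m)) (q : Q) (hq : ¬ inTr M p j q) :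
    ¬ (p q * (1 - 3 / 4 * δ q) ≤ r ∧ r ≤ p q * (1 + 3 / 4 * δ q)) := by
  rintro ⟨h5, h6⟩
  obtain ⟨q₀, hq₀, hq₀'⟩ := hdl.ex m hm
  have hin : inTr M p j q₀ := by
    refine ⟨s, ?_, ?_⟩
    · rw [hq₀]
      exact pow_le_pow_right₀ (by norm_num) h1
    · rw [hq₀]
      exact pow_le_pow_right₀ (by norm_num) h2
  have hne : q₀ ≠ q := by
    rintro rfl
    exact hq hin
  have hd := h.disj hne
  have hp := h.one_le_p q
  have hδ := h.δ_pos q
  have hpd : 0 < p q * δ q := mul_pos (by linarith) hδ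
  have h7 : r ∈ bigI (p q₀) (δ q₀) := by
    rw [hq₀, hq₀']
    exact ⟨h3, h4⟩
  have h8 : r ∈ bigI (p q) (δ q) := ⟨by nlinarith, by nlinarith⟩
  exact Set.disjoint_left.1 hd h7 h8

/-- As `thin_contents`, with `|disp E_j⁽ⁱ⁾| ≤ |τ_j⁽ⁱ⁾| + C |z|^(-3/2-i) = o(1) |z|^(-1-i)`
(`tau_small`, `Ep_expansion`) and `l ≤ 2^(j+3) y`: `ε = o(1) / y²`. -/
theorem transition_contents {a : ℝ} {w : ℝ → ℝ} {M : ℕ → ℕ} {Q : Type} {p δ : Q → ℝ}
    (h : PD a w M p δ) {dl : ℕ → ℝ} {m₀ : ℕ} (hdl : DL p δ dl m₀) (j s₀ : ℕ)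
    (hs₀ : ∀ s, s₀ ≤ s → m₀ ≤ M s ∧ M s + j + 7 ≤ M (s + 1)) :
    ∃ (G : Bool × ℕ → Pm) (ε : Bool × ℕ → ℝ), (∀ n, 0 < ε n) ∧
      (∀ n, Nl 5 (ε n) 1 (disp (G n))) ∧ (∀ n, Supp (G n) (Icc 0 1)) ∧
      Tendsto (fun n => (yR M dl s₀ n) ^ 4 * ε n / (lR M dl s₀ j n) ^ 2) cofinite (𝓝 0) ∧
      ∀ᶠ n in cofinite, ∀ x ∈ Icc (0 : ℝ) 1,
        Ep w j (yR M dl s₀ n + lR M dl s₀ j n * x) =
          yR M dl s₀ n + lR M dl s₀ j n * G n x := by
  -- the sizes
  set Y : Bool × ℕ → ℝ := fun n => 2 ^ M (n.2 + s₀) * (1 - 2 * dl (M (n.2 + s₀))) with hY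
  set Z : Bool × ℕ → ℝ := fun n =>
    2 ^ (M (n.2 + s₀) + j + 1) * (1 + 2 * dl (M (n.2 + s₀) + j + 1)) with hZ
  have hyR : ∀ n, yR M dl s₀ n = sg n.1 * Y n := fun n => rfl
  have hlR : ∀ n, lR M dl s₀ j n = sg n.1 * (Z n - Y n) := fun n => rfl
  have hYt : Tendsto Y cofinite atTop := fn4_tend h.Mmono hdl.le s₀
  have hA : ∀ n : Bool × ℕ, (0 : ℝ) < 2 ^ M (n.2 + s₀) := fun n => by positivity
  have hB : ∀ n : Bool × ℕ, (2 : ℝ) ^ (M (n.2 + s₀) + j + 1) = 2 ^ M (n.2 + s₀) * 2 ^ (j + 1) := by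
    intro n
    rw [add_assoc, pow_add]
  have hj1 : (2 : ℝ) ≤ 2 ^ (j + 1) := by
    have := pow_le_pow_right₀ (one_le_two : (1 : ℝ) ≤ 2) (Nat.le_add_left 1 j)
    rwa [pow_one] at this
  have hY0 : ∀ n, 0 < Y n := by
    intro n
    have h1 := hdl.le (M (n.2 + s₀))
    have h2 := hA n
    exact mul_pos h2 (by linarith)
  have hYA : ∀ n, Y n ≤ 2 ^ M (n.2 + s₀) := by
    intro n
    have h1 := hdl.pos (M (n.2 + s₀))
    have h2 := hA n
    simp only [hY]
    nlinarith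
  have hYA' : ∀ n, (2 : ℝ) ^ M (n.2 + s₀) * (998 / 1000) ≤ Y n := by
    intro n
    have h1 := hdl.le (M (n.2 + s₀))
    have h2 := hA n
    simp only [hY]
    nlinarith
  have hLY : ∀ n, Y n ≤ Z n - Y n := by
    intro n
    have h1 := hdl.pos (M (n.2 + s₀) + j + 1)
    have h2 := hA n
    have h3 := hYA n
    have h4 : (2 : ℝ) ^ M (n.2 + s₀) * 2 ≤ Z n := by
      simp only [hZ]
      rw [hB]
      have h5 : (2 : ℝ) ^ M (n.2 + s₀) * 2 ≤ 2 ^ M (n.2 + s₀) * 2 ^ (j + 1) :=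
        mul_le_mul_of_nonneg_left hj1 h2.le
      have h6 : (0 : ℝ) < 2 ^ M (n.2 + s₀) * 2 ^ (j + 1) := by positivity
      nlinarith
    linarith
  have hL0 : ∀ n, 0 < Z n - Y n := fun n => lt_of_lt_of_le (hY0 n) (hLY n)
  have hLY' : ∀ n, Z n - Y n ≤ 2 ^ (j + 3) * Y n := by
    intro n
    have h1 := hdl.le (M (n.2 + s₀) + j + 1)
    have h2 := hA n
    have h3 := hYA' n
    have h4 : Z n ≤ 2 ^ M (n.2 + s₀) * 2 ^ (j + 1) * (1002 / 1000) := by
      simp only [hZ]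
      rw [hB]
      have h6 : (0 : ℝ) < 2 ^ M (n.2 + s₀) * 2 ^ (j + 1) := by positivity
      nlinarith
    have h5 : (2 : ℝ) ^ (j + 3) = 4 * 2 ^ (j + 1) := by ring
    have h7 : (2 : ℝ) ^ (j + 3) * (2 ^ M (n.2 + s₀) * (998 / 1000)) ≤ 2 ^ (j + 3) * Y n :=
      mul_le_mul_of_nonneg_left h3 (by positivity)
    have h8 : (0 : ℝ) < 2 ^ M (n.2 + s₀) * 2 ^ (j + 1) := by positivity
    rw [h5] at h7 ⊢
    nlinarith [hY0 n]
  have hl0 : ∀ n, lR M dl s₀ j n ≠ 0 := by
    intro n hn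
    have h1 : |lR M dl s₀ j n| = Z n - Y n := by
      rw [hlR, abs_mul, fn4_sg, one_mul, abs_of_pos (hL0 n)]
    rw [hn, abs_zero] at h1
    exact (hL0 n).ne h1
  have habsl : ∀ n, |lR M dl s₀ j n| = Z n - Y n := by
    intro n
    rw [hlR, abs_mul, fn4_sg, one_mul, abs_of_pos (hL0 n)]
  -- the error function
  have hsE := (Ep_smooth h.prof j).1
  set D : ℝ → ℝ := fun z => ∑ i ∈ Finset.range 6,
    |z ^ (1 + i) * iteratedDeriv i (disp (Ep w j)) z| with hD
  have hDc : Continuous D := by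
    refine continuous_finsetSum _ fun i _ => Continuous.abs ?_
    refine (continuous_pow _).mul ?_
    exact hsE.continuous_iteratedDeriv i (by exact_mod_cast le_top)
  have hD0 : ∀ z, 0 ≤ D z := fun z => Finset.sum_nonneg fun i _ => abs_nonneg _
  have hDt : Tendsto D (cocompact ℝ) (𝓝 0) := by
    have h1 : Tendsto D (cocompact ℝ) (𝓝 (∑ i ∈ Finset.range 6, |(0 : ℝ)|)) := by
      refine tendsto_finsetSum _ fun i hi => ?_
      exact (fn4_disp h j i (by have := Finset.mem_range.1 hi; omega)).abs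
    simpa using h1
  obtain ⟨θ, hθ0, hθ, hθt⟩ := fn4_sup hDc hD0 hDt
  set C : ℝ := (2 ^ (j + 3)) ^ 4 with hC
  have hC1 : 1 ≤ C := by
    rw [hC]
    exact one_le_pow₀ (one_le_pow₀ (by norm_num))
  have hC0 : 0 < C := lt_of_lt_of_le one_pos hC1
  set ε : Bool × ℕ → ℝ := fun n => C * (θ (Y n) + 1 / Y n) / (Y n) ^ 2 with hε
  have hε0 : ∀ n, 0 < ε n := by
    intro n
    have h1 := hθ0 (Y n)
    have h2 := hY0 n
    simp only [hε]
    positivity
  have hbound : ∀ n, ∀ i ≤ 5, ∀ x ∈ Icc (0 : ℝ) 1,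
      |lR M dl s₀ j n| ^ i * |iteratedDeriv i (disp (Ep w j))
        (yR M dl s₀ n + lR M dl s₀ j n * x)| ≤ |lR M dl s₀ j n| * ε n := by
    intro n i hi x hx
    rw [habsl]
    set z := yR M dl s₀ n + lR M dl s₀ j n * x with hz
    have hzY : Y n ≤ |z| := by
      have h1 : z = sg n.1 * (Y n + (Z n - Y n) * x) := by
        rw [hz, hyR, hlR]
        ring
      rw [h1, abs_mul, fn4_sg, one_mul]
      refine le_trans ?_ (le_abs_self _)
      have := mul_nonneg (hL0 n).le hx.1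
      linarith
    have h1 : |z ^ (1 + i) * iteratedDeriv i (disp (Ep w j)) z| ≤ θ (Y n) := by
      refine le_trans ?_ (hθ (Y n) z hzY)
      exact Finset.single_le_sum (f := fun i => |z ^ (1 + i) * iteratedDeriv i (disp (Ep w j)) z|)
        (fun i _ => abs_nonneg _) (Finset.mem_range.2 (by omega))
    rw [abs_mul, abs_pow] at h1
    have hYp := hY0 n
    have hLp := hL0 n
    have h2 : Y n ^ (1 + i) * |iteratedDeriv i (disp (Ep w j)) z| ≤ θ (Y n) + 1 / Y n := by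
      refine le_trans (mul_le_mul_of_nonneg_right (pow_le_pow_left₀ hYp.le hzY _)
        (abs_nonneg _)) (h1.trans ?_)
      have : 0 < 1 / Y n := by positivity
      linarith
    have h3 : (Z n - Y n) ^ i * Y n ^ 2 ≤ (Z n - Y n) * C * Y n ^ (1 + i) := by
      rcases Nat.eq_zero_or_pos i with h0 | h0
      · subst h0
        rw [pow_zero, one_mul, add_zero, pow_one]
        have h4 : Y n * Y n ≤ (Z n - Y n) * C * Y n := by
          refine mul_le_mul_of_nonneg_right ?_ hYp.le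
          calc Y n ≤ Z n - Y n := hLY n
            _ = (Z n - Y n) * 1 := (mul_one _).symm
            _ ≤ _ := mul_le_mul_of_nonneg_left hC1 hLp.le
        calc Y n ^ 2 = Y n * Y n := by ring
          _ ≤ _ := h4
      · obtain ⟨i', rfl⟩ := Nat.exists_eq_add_of_le' h0
        have h4 : (Z n - Y n) ^ i' ≤ C * Y n ^ i' := by
          calc (Z n - Y n) ^ i' ≤ (2 ^ (j + 3) * Y n) ^ i' := pow_le_pow_left₀ hLp.le (hLY' n) _
            _ = (2 ^ (j + 3)) ^ i' * Y n ^ i' := mul_pow _ _ _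
            _ ≤ C * Y n ^ i' := by
              refine mul_le_mul_of_nonneg_right ?_ (by positivity)
              exact pow_le_pow_right₀ (one_le_pow₀ (by norm_num)) (by omega)
        calc (Z n - Y n) ^ (i' + 1) * Y n ^ 2 = (Z n - Y n) ^ i' * ((Z n - Y n) * Y n ^ 2) := by ring
          _ ≤ C * Y n ^ i' * ((Z n - Y n) * Y n ^ 2) :=
            mul_le_mul_of_nonneg_right h4 (by positivity)
          _ = _ := by ring
    have hε' : (Z n - Y n) * ε n = (Z n - Y n) * C * (θ (Y n) + 1 / Y n) / Y n ^ 2 := by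
      simp only [hε]
      ring
    rw [hε', le_div_iff₀ (by positivity)]
    have h5 : 0 < Y n ^ (1 + i) := by positivity
    refine le_of_mul_le_mul_right ?_ h5
    calc (Z n - Y n) ^ i * |iteratedDeriv i (disp (Ep w j)) z| * Y n ^ 2 * Y n ^ (1 + i)
        = ((Z n - Y n) ^ i * Y n ^ 2) * (Y n ^ (1 + i) * |iteratedDeriv i (disp (Ep w j)) z|) := by
          ring
      _ ≤ ((Z n - Y n) * C * Y n ^ (1 + i)) * (θ (Y n) + 1 / Y n) :=
          mul_le_mul h3 h2 (by positivity) (by positivity)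
      _ = _ := by ring
  -- existence of the contents
  have hex : ∀ n, ∃ G : Pm, Nl 5 (ε n) 1 (disp G) ∧ Supp G (Icc 0 1) ∧
      ((∃ η : ℝ, 0 < η ∧ (∀ z, |z - yR M dl s₀ n| ≤ η → Ep w j z = z) ∧
        (∀ z, |z - (yR M dl s₀ n + lR M dl s₀ j n)| ≤ η → Ep w j z = z)) →
      ∀ x ∈ Icc (0 : ℝ) 1, Ep w j (yR M dl s₀ n + lR M dl s₀ j n * x) =
          yR M dl s₀ n + lR M dl s₀ j n * G x) := by
    intro n
    by_cases hP : ∃ η : ℝ, 0 < η ∧ (∀ z, |z - yR M dl s₀ n| ≤ η → Ep w j z = z) ∧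
        (∀ z, |z - (yR M dl s₀ n + lR M dl s₀ j n)| ≤ η → Ep w j z = z)
    · obtain ⟨η, h1, h2, h3⟩ := hP
      obtain ⟨G, h4, h5, h6⟩ := exists_restrict (hl0 n) h1 (hε0 n).le hsE
        (Ep_smooth h.prof j).2.2 h2 h3 (hbound n)
      exact ⟨G, h4, h5, fun _ => h6⟩
    · refine ⟨1, ⟨?_, ?_⟩, fun x _ => rfl, fun h1 => absurd h1 hP⟩
      · have e1 : disp (1 : Pm) = fun _ => 0 := by
          funext x
          simp [disp]
        rw [e1]
        exact contDiff_const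
      · intro i _ x
        have e1 : disp (1 : Pm) = fun _ => 0 := by
          funext x
          simp [disp]
        rw [e1, iteratedDeriv_fun_const_zero, one_pow, div_one]
        simpa using (hε0 n).le
  choose G hG1 hG2 hG3 using hex
  refine ⟨G, ε, hε0, hG1, hG2, ?_, ?_⟩
  · have h1 : Tendsto (fun n => C * (θ (Y n) + 1 / Y n)) cofinite (𝓝 0) := by
      have h2 : Tendsto (fun n => θ (Y n)) cofinite (𝓝 0) := hθt.comp hYt
      have h3 : Tendsto (fun n => 1 / Y n) cofinite (𝓝 0) := by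
        simp only [one_div]
        exact tendsto_inv_atTop_zero.comp hYt
      simpa using (h2.add h3).const_mul C
    refine squeeze_zero (fun n => ?_) (fun n => ?_) h1
    · have := (hε0 n).le
      positivity
    · have hYp := hY0 n
      have hLp := hL0 n
      have hθn := hθ0 (Y n)
      have e1 : (yR M dl s₀ n) ^ 4 = Y n ^ 4 := by
        have e2 : |yR M dl s₀ n| = Y n := by
          rw [hyR, abs_mul, fn4_sg, one_mul, abs_of_pos hYp]
        rw [← e2]
        exact ((Even.pow_abs (by decide : Even 4) _)).symm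
      have e2 : (lR M dl s₀ j n) ^ 2 = (Z n - Y n) ^ 2 := by
        rw [← habsl n, sq_abs]
      rw [e1, e2]
      have e3 : Y n ^ 4 * ε n = Y n ^ 2 * (C * (θ (Y n) + 1 / Y n)) := by
        simp only [hε]
        field_simp
      rw [e3, div_le_iff₀ (by positivity), mul_comm]
      refine mul_le_mul_of_nonneg_left (pow_le_pow_left₀ hYp.le (hLY n) 2) (by positivity)
  · -- eventually the map is the identity near the two ends
    have hev := Ep_eq_self h hdl j
    rw [← Metric.cobounded_eq_cocompact, ← comap_norm_atTop, eventually_comap,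
      eventually_atTop] at hev
    obtain ⟨R, hR⟩ := hev
    filter_upwards [hYt.eventually_ge_atTop (2 * |R|), fn4_snd.eventually_ge_atTop 1] with n hn1 hn2
    refine hG3 n ?_
    set S := n.2 + s₀ with hS
    have hMS := hs₀ S (by omega)
    have hu0 := hdl.pos (M S)
    have hu1 := hdl.le (M S)
    have hv0 := hdl.pos (M S + j + 1)
    have hv1 := hdl.le (M S + j + 1)
    have hAp := hA n
    set A : ℝ := 2 ^ M S with hAdef
    set B : ℝ := 2 ^ (M S + j + 1) with hBdef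
    have hAB : A * 2 ≤ B := by
      have h1 := hB n
      rw [← hS] at h1
      rw [hBdef, h1]
      exact mul_le_mul_of_nonneg_left hj1 hAp.le
    set u := dl (M S) with hu
    set v := dl (M S + j + 1) with hv
    have hYn : Y n = A * (1 - 2 * u) := rfl
    have hZn : Z n = B * (1 + 2 * v) := rfl
    have hBp : 0 < B := by rw [hBdef]; positivity
    have hlow : ∀ s', s' < S → (2 : ℝ) ^ (M s' + j + 1) * 64 ≤ A := by
      intro s' hs'
      have h1 : M s' + j + 7 ≤ M S := by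
        rcases le_or_gt s₀ s' with h2 | h2
        · exact (hs₀ s' h2).2.trans (h.Mmono.monotone (by omega))
        · have h3 : M s' ≤ M s₀ := h.Mmono.monotone h2.le
          have h4 := (hs₀ s₀ le_rfl).2
          have h5 : M (s₀ + 1) ≤ M S := h.Mmono.monotone (by omega)
          omega
      have h2 : (2 : ℝ) ^ (M s' + j + 1) * 64 = 2 ^ (M s' + j + 7) := by ring
      rw [h2]
      exact pow_le_pow_right₀ (by norm_num) h1
    have hhigh : ∀ s', S < s' → B * 64 ≤ (2 : ℝ) ^ M s' := by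
      intro s' hs'
      have h1 : M S + j + 7 ≤ M s' := hMS.2.trans (h.Mmono.monotone (by omega))
      have h2 : B * 64 = 2 ^ (M S + j + 7) := by
        rw [hBdef]
        ring
      rw [h2]
      exact pow_le_pow_right₀ (by norm_num) h1
    have hAu : 0 < A * u := mul_pos hAp hu0
    have hBv : 0 < B * v := mul_pos hBp hv0
    have hAu1 : A * u ≤ A * (1 / 1000) := mul_le_mul_of_nonneg_left hu1 hAp.le
    have hBv1 : B * v ≤ B * (1 / 1000) := mul_le_mul_of_nonneg_left hv1 hBp.le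
    refine ⟨min (A * u / 2) (B * v / 2), lt_min (by positivity) (by positivity), ?_, ?_⟩
    · intro z hz
      have hz1 : |(|z| - Y n)| ≤ A * u / 2 := by
        have h1 := abs_abs_sub_abs_le z (yR M dl s₀ n)
        have h2 : |yR M dl s₀ n| = Y n := by
          rw [hyR, abs_mul, fn4_sg, one_mul, abs_of_pos (hY0 n)]
        rw [h2] at h1
        exact (h1.trans hz).trans (min_le_left _ _)
      rw [abs_le] at hz1
      obtain ⟨hz2, hz3⟩ := hz1
      rw [hYn] at hz2 hz3 hn1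
      obtain ⟨k1, k2, k3, k4, k5, k6⟩ := fn4_ar1 hAp hAu hAu1 hz2 hz3 hn1
      refine hR |z| k1 z rfl ?_ ?_
      · intro q hq
        exact fn4_thin h hdl j (M S) S hMS.1 le_rfl (by omega) |z| k2 k3 q hq
      · rintro s' ⟨h1, h2⟩
        rcases lt_trichotomy s' S with h3 | h3 | h3
        · have h4 := hlow s' h3
          have h6 : (0 : ℝ) < 2 ^ (M s' + j + 1) := by positivity
          have h7 := mul_le_mul_of_nonneg_left (hdl.le (M s' + j + 1)) h6.le
          linarith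
        · subst h3
          exact k4 h1
        · have h4 := hhigh s' h3
          have h6 : (0 : ℝ) < 2 ^ (M s') := by positivity
          have h7 := mul_le_mul_of_nonneg_left (hdl.le (M s')) h6.le
          linarith
    · intro z hz
      have hz1 : |(|z| - Z n)| ≤ B * v / 2 := by
        have h1 := abs_abs_sub_abs_le z (yR M dl s₀ n + lR M dl s₀ j n)
        have h2 : |yR M dl s₀ n + lR M dl s₀ j n| = Z n := by
          have h3 : yR M dl s₀ n + lR M dl s₀ j n = sg n.1 * Z n := by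
            rw [hyR, hlR]
            ring
          rw [h3, abs_mul, fn4_sg, one_mul, abs_of_pos]
          have := hL0 n
          have := hY0 n
          linarith
        rw [h2] at h1
        exact (h1.trans hz).trans (min_le_right _ _)
      rw [abs_le] at hz1
      obtain ⟨hz2, hz3⟩ := hz1
      rw [hYn] at hn1
      rw [hZn] at hz2 hz3
      obtain ⟨k1, k2, k3, k4, k5, k6⟩ := fn4_ar2 hAp hAB hAu hBv hBv1 hz2 hz3 hn1
      refine hR |z| k1 z rfl ?_ ?_
      · intro q hq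
        exact fn4_thin h hdl j (M S + j + 1) S (by omega) (by omega) le_rfl |z| k2 k3 q hq
      · rintro s' ⟨h1, h2⟩
        rcases lt_trichotomy s' S with h3 | h3 | h3
        · have h4 := hlow s' h3
          have h6 : (0 : ℝ) < 2 ^ (M s' + j + 1) := by positivity
          have h7 := mul_le_mul_of_nonneg_left (hdl.le (M s' + j + 1)) h6.le
          linarith
        · subst h3
          exact k4 h2
        · have h4 := hhigh s' h3
          have h6 : (0 : ℝ) < 2 ^ (M s') := by positivity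
          have h7 := mul_le_mul_of_nonneg_left (hdl.le (M s')) h6.le
          linarith

end GD31
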