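import Pool.Agent.LibGD31.FN0

/-! # FN5: geometry and isolation of the thin cells -/

open Filter Topology Set

namespace GD31

variable {a : ℝ} {w : ℝ → ℝ} {M : ℕ → ℕ} {Q : Type} {p δ : Q → ℝ}

private theorem fn5_sg (b : Bool) : sg b * sg b = 1 := by
  cases b <;> simp [sg]

private theorem fn5_abs (b : Bool) (x : ℝ) : |sg b * x| = |x| := by
  cases b <;> simp [sg]

private theorem fn5_mem (h : PD a w M p δ) {n : Bool × Q} {z : ℝ}
    (hz : z ∈ cell (yT p δ n) (lT p δ n) 1) : 0 < sg n.1 * z ∧ |z| ∈ bigI (p n.2) (δ n.2) := by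
  obtain ⟨x, hx, rfl⟩ := hz
  have hp := h.one_le_p n.2
  have hd := h.δ_pos n.2
  have hd' := h.δ_le n.2
  have e1 : sg n.1 * (yT p δ n + lT p δ n * x) = p n.2 * (1 - δ n.2 + 2 * δ n.2 * x) := by
    rw [yT, lT]
    linear_combination (p n.2 * (1 - δ n.2) + 2 * δ n.2 * p n.2 * x) * fn5_sg n.1
  have hx1 : -1 ≤ x := hx.1
  have hx2 : x ≤ 5 := hx.2
  have h1 : -δ n.2 ≤ δ n.2 * x := by nlinarith
  have h2 : δ n.2 * x ≤ 5 * δ n.2 := by nlinarith
  have h3 : 0 < 1 - δ n.2 + 2 * δ n.2 * x := by nlinarith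
  have hpos : 0 < sg n.1 * (yT p δ n + lT p δ n * x) := by
    rw [e1]
    positivity
  refine ⟨hpos, ?_⟩
  have e2 : |yT p δ n + lT p δ n * x| = p n.2 * (1 - δ n.2 + 2 * δ n.2 * x) := by
    rw [← fn5_abs n.1, e1, abs_of_pos (by positivity)]
  show |yT p δ n + lT p δ n * x| ∈ bigI (p n.2) (δ n.2)
  rw [e2, bigI, Set.mem_Icc]
  constructor
  · exact mul_le_mul_of_nonneg_left (by nlinarith) (by linarith)
  · exact mul_le_mul_of_nonneg_left (by nlinarith) (by linarith)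

private theorem fn5_absl (h : PD a w M p δ) (n : Bool × Q) :
    |lT p δ n| = 2 * δ n.2 * p n.2 := by
  have hp := h.one_le_p n.2
  have hd := h.δ_pos n.2
  rw [lT, fn5_abs, abs_of_pos (by positivity)]

private theorem fn5_absy (h : PD a w M p δ) (n : Bool × Q) :
    |yT p δ n| = p n.2 * (1 - δ n.2) := by
  have hp := h.one_le_p n.2
  have hd' := h.δ_le n.2
  have h1 : 0 < 1 - δ n.2 := by linarith
  rw [yT, fn5_abs, abs_of_pos (by positivity)]

private theorem fn5_cof {P : Q → Prop} (hP : ∀ᶠ q in cofinite, P q) :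
    ∀ᶠ n : Bool × Q in cofinite, P n.2 := by
  have h1 : {q | ¬ P q}.Finite := hP
  have h2 : {n : Bool × Q | ¬ P n.2}.Finite :=
    ((Set.finite_univ (α := Bool)).prod h1).subset fun n hn => ⟨Set.mem_univ _, hn⟩
  exact h2

theorem thin_geometry (h : PD a w M p δ) :
    (∀ n, 0 < lT p δ n * yT p δ n) ∧ (∀ n, 2 * 1 * |lT p δ n| ≤ |yT p δ n|) ∧
    (∀ n, |lT p δ n| ≤ 1 * |yT p δ n|) ∧
    Tendsto (fun n => |yT p δ n|) cofinite atTop ∧
    (Pairwise fun n n' => Disjoint (cell (yT p δ n) (lT p δ n) 1)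
      (cell (yT p δ n') (lT p δ n') 1)) := by
  refine ⟨?_, ?_, ?_, ?_, ?_⟩
  · intro n
    have hp := h.one_le_p n.2
    have hd := h.δ_pos n.2
    have hd' := h.δ_le n.2
    have h1 : 0 < 1 - δ n.2 := by linarith
    have e : lT p δ n * yT p δ n = (2 * δ n.2 * p n.2) * (p n.2 * (1 - δ n.2)) := by
      rw [lT, yT]
      linear_combination ((2 * δ n.2 * p n.2) * (p n.2 * (1 - δ n.2))) * fn5_sg n.1
    rw [e]
    positivity
  · intro n
    have hp := h.one_le_p n.2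
    have hd := h.δ_pos n.2
    have hd' := h.δ_le n.2
    rw [fn5_absl h, fn5_absy h]
    nlinarith
  · intro n
    have hp := h.one_le_p n.2
    have hd := h.δ_pos n.2
    have hd' := h.δ_le n.2
    rw [fn5_absl h, fn5_absy h]
    nlinarith
  · rw [tendsto_atTop]
    intro C
    refine (fn5_cof (h.p_tend.eventually_ge_atTop (2 * C))).mono fun n hn => ?_
    have hp := h.one_le_p n.2
    have hd' := h.δ_le n.2
    rw [fn5_absy h]
    nlinarith
  · rintro ⟨b, q⟩ ⟨b', q'⟩ hne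
    rw [Set.disjoint_left]
    intro z hz hz'
    obtain ⟨h1, h2⟩ := fn5_mem h hz
    obtain ⟨h1', h2'⟩ := fn5_mem h hz'
    by_cases hq : q = q'
    · subst hq
      have hb : b ≠ b' := fun e => hne (by rw [e])
      cases b <;> cases b' <;> simp [sg] at h1 h1' hb <;> linarith
    · exact Set.disjoint_left.mp (h.disj hq) h2 h2'

/-- `cell n ⊆ ± bigI`, and `PD.iso` for `e = (c_k - c_i) - (d_k - d_i') ≠ 0` (`exponent_gap`),
multiplied by `uu ^ (dk k - dk i')`. -/
theorem thin_iso (h : PD a w M p δ) (k i i' : ℕ) (hi : ¬ (i = k ∧ i' = k)) :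
    ∀ᶠ n in cofinite, ∀ n',
      Disjoint ((fun z => uu ^ (ck k - ck i) * z) '' cell (yT p δ n) (lT p δ n) 1)
        ((fun z => uu ^ (dk k - dk i') * z) '' cell (yT p δ n') (lT p δ n') 1) := by
  have hu : 0 < uu := by
    unfold uu
    positivity
  have hgap := exponent_gap hi
  have he : (ck k - ck i) - (dk k - dk i') ≠ 0 := by
    intro h0
    rw [h0, abs_zero] at hgap
    have : (0 : ℤ) < 20 * 4 ^ (max k (max i i') - 1) := by positivity
    omega
  refine (fn5_cof (h.iso _ he)).mono fun n hn n' => ?_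
  rw [Set.disjoint_left]
  rintro _ ⟨z, hz, rfl⟩ ⟨z', hz', hzz⟩
  have hzz' : uu ^ (dk k - dk i') * z' = uu ^ (ck k - ck i) * z := hzz
  have e1 : z' = uu ^ ((ck k - ck i) - (dk k - dk i')) * z := by
    rw [zpow_sub₀ hu.ne', div_mul_eq_mul_div, ← hzz', mul_div_cancel_left₀ _ (zpow_pos hu _).ne']
  have h2 := (fn5_mem h hz).2
  have h2' := (fn5_mem h hz').2
  refine Set.disjoint_left.mp (hn n'.2) ⟨|z|, h2, rfl⟩ ?_
  have e2 : |z'| = uu ^ ((ck k - ck i) - (dk k - dk i')) * |z| := by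
    rw [e1, abs_mul, abs_of_pos (zpow_pos hu _)]
  show uu ^ ((ck k - ck i) - (dk k - dk i')) * |z| ∈ bigI (p n'.2) (δ n'.2)
  rw [← e2]
  exact h2'

end GD31
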