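import Pool.Agent.LibGD31.FN0

/-! # FN6: geometry and isolation of the transition cells -/

open Filter Topology Set

namespace GD31

variable {M : ℕ → ℕ} {dl : ℕ → ℝ}

private theorem fn6_sg (b : Bool) : sg b = 1 ∨ sg b = -1 := by
  cases b <;> simp [sg]

private theorem fn6_yR (M : ℕ → ℕ) (dl : ℕ → ℝ) (s₀ : ℕ) (n : Bool × ℕ) :
    yR M dl s₀ n = sg n.1 * (2 ^ M (n.2 + s₀) * (1 - 2 * dl (M (n.2 + s₀)))) := rfl

private theorem fn6_lR (M : ℕ → ℕ) (dl : ℕ → ℝ) (s₀ j : ℕ) (n : Bool × ℕ) :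
    lR M dl s₀ j n = sg n.1 * (2 ^ M (n.2 + s₀) *
      (2 ^ (j + 1) * (1 + 2 * dl (M (n.2 + s₀) + j + 1)) - (1 - 2 * dl (M (n.2 + s₀))))) := by
  unfold lR
  rw [show M (n.2 + s₀) + j + 1 = M (n.2 + s₀) + (j + 1) by ring, pow_add]
  ring

private theorem fn6_core {J d d' : ℝ} (hJ : 2 ≤ J) (hd : 0 < d) (hd1 : d ≤ 1 / 1000)
    (hd' : 0 < d') (hd1' : d' ≤ 1 / 1000) :
    0 < 1 - 2 * d ∧ 0 < J * (1 + 2 * d') - (1 - 2 * d) ∧
    2 * (1 / (8 * J)) * (J * (1 + 2 * d') - (1 - 2 * d)) ≤ 1 - 2 * d ∧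
    J * (1 + 2 * d') - (1 - 2 * d) ≤ 4 * J * (1 - 2 * d) ∧ 1 ≤ 2 * (1 - 2 * d) ∧
    ∀ x : ℝ, -(1 / (8 * J)) ≤ x → x ≤ 5 →
      1 ≤ 2 * ((1 - 2 * d) + (J * (1 + 2 * d') - (1 - 2 * d)) * x) ∧
      (1 - 2 * d) + (J * (1 + 2 * d') - (1 - 2 * d)) * x ≤ 16 * J := by
  have hJ0 : 0 < J := by linarith
  have h1 : 0 < J * (1 + 2 * d') - (1 - 2 * d) := by nlinarith
  have h2 : J * (1 + 2 * d') - (1 - 2 * d) ≤ 1002 / 1000 * J - 998 / 1000 := by nlinarith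
  have h3 : (1 / (8 * J)) * (J * (1 + 2 * d') - (1 - 2 * d)) ≤ 126 / 1000 := by
    rw [one_div_mul_eq_div, div_le_iff₀ (by positivity)]
    linarith
  refine ⟨by linarith, h1, by nlinarith, by nlinarith, by linarith, ?_⟩
  intro x hx hx5
  constructor
  · have h4 : -(1 / (8 * J)) * (J * (1 + 2 * d') - (1 - 2 * d)) ≤
        (J * (1 + 2 * d') - (1 - 2 * d)) * x := by
      rw [mul_comm (J * (1 + 2 * d') - (1 - 2 * d)) x]
      exact mul_le_mul_of_nonneg_right hx h1.le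
    linarith
  · have h4 : (J * (1 + 2 * d') - (1 - 2 * d)) * x ≤
        (J * (1 + 2 * d') - (1 - 2 * d)) * 5 := mul_le_mul_of_nonneg_left hx5 h1.le
    linarith

private theorem fn6_facts (hpos : ∀ m, 0 < dl m) (hle : ∀ m, dl m ≤ 1 / 1000) (s₀ j : ℕ)
    (n : Bool × ℕ) :
    0 < lR M dl s₀ j n * yR M dl s₀ n ∧
    2 * mR j * |lR M dl s₀ j n| ≤ |yR M dl s₀ n| ∧
    |lR M dl s₀ j n| ≤ 2 ^ (j + 3) * |yR M dl s₀ n| ∧
    (2 : ℝ) ^ M (n.2 + s₀) ≤ 2 * |yR M dl s₀ n| ∧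
    ∀ z ∈ cell (yR M dl s₀ n) (lR M dl s₀ j n) (mR j), 0 < sg n.1 * z ∧
      (2 : ℝ) ^ M (n.2 + s₀) ≤ 2 * |z| ∧ |z| ≤ 2 ^ (M (n.2 + s₀) + j + 5) := by
  have hP : (0 : ℝ) < 2 ^ M (n.2 + s₀) := by positivity
  have hJ : (2 : ℝ) ≤ 2 ^ (j + 1) := by
    rw [pow_succ]
    have : (1 : ℝ) ≤ 2 ^ j := one_le_pow₀ (by norm_num)
    linarith
  have hm : mR j = 1 / (8 * 2 ^ (j + 1)) := by
    unfold mR
    congr 1
    ring
  have h3 : (2 : ℝ) ^ (j + 3) = 4 * 2 ^ (j + 1) := by ring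
  have h5 : (2 : ℝ) ^ (M (n.2 + s₀) + j + 5) = 2 ^ M (n.2 + s₀) * (16 * 2 ^ (j + 1)) := by
    rw [show M (n.2 + s₀) + j + 5 = M (n.2 + s₀) + (j + 5) by ring, pow_add]
    ring
  obtain ⟨c1, c2, c3, c4, c5, c6⟩ := fn6_core hJ (hpos (M (n.2 + s₀))) (hle _)
    (hpos (M (n.2 + s₀) + j + 1)) (hle _)
  rw [fn6_yR, fn6_lR, hm, h3, h5]
  set P : ℝ := 2 ^ M (n.2 + s₀) with hPd
  set J : ℝ := 2 ^ (j + 1) with hJd
  set Y : ℝ := 1 - 2 * dl (M (n.2 + s₀)) with hYd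
  set L : ℝ := J * (1 + 2 * dl (M (n.2 + s₀) + j + 1)) - Y with hLd
  have hsq : sg n.1 * sg n.1 = 1 := by
    rcases fn6_sg n.1 with h | h <;> rw [h] <;> norm_num
  have habs : ∀ t : ℝ, 0 ≤ t → |sg n.1 * (P * t)| = P * t := by
    intro t ht
    have hPt : 0 ≤ P * t := mul_nonneg hP.le ht
    rw [abs_mul, abs_of_nonneg hPt]
    rcases fn6_sg n.1 with h | h <;> rw [h] <;> norm_num
  rw [habs Y c1.le, habs L c2.le]
  refine ⟨?_, ?_, ?_, ?_, ?_⟩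
  · have h6 : sg n.1 * (P * L) * (sg n.1 * (P * Y)) = (sg n.1 * sg n.1) * ((P * L) * (P * Y)) := by
      ring
    rw [h6, hsq, one_mul]
    positivity
  · have h6 : 2 * (1 / (8 * J)) * (P * L) = P * (2 * (1 / (8 * J)) * L) := by ring
    rw [h6]
    exact mul_le_mul_of_nonneg_left c3 hP.le
  · have h6 : 4 * J * (P * Y) = P * (4 * J * Y) := by ring
    rw [h6]
    exact mul_le_mul_of_nonneg_left c4 hP.le
  · have h6 : 2 * (P * Y) = P * (2 * Y) := by ring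
    rw [h6]
    exact le_mul_of_one_le_right hP.le c5
  · rintro z ⟨x, ⟨hx, hx5⟩, rfl⟩
    obtain ⟨c7, c8⟩ := c6 x hx hx5
    have hz : sg n.1 * (P * Y) + sg n.1 * (P * L) * x = sg n.1 * (P * (Y + L * x)) := by ring
    have hpos' : 0 < Y + L * x := by linarith
    simp only []
    rw [hz, habs _ hpos'.le]
    refine ⟨?_, ?_, ?_⟩
    · rw [← mul_assoc, hsq, one_mul]
      positivity
    · have h6 : 2 * (P * (Y + L * x)) = P * (2 * (Y + L * x)) := by ring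
      rw [h6]
      exact le_mul_of_one_le_right hP.le c7
    · exact mul_le_mul_of_nonneg_left c8 hP.le

private theorem fn6_cof (S : ℕ) : ∀ᶠ n : Bool × ℕ in cofinite, S ≤ n.2 := by
  rw [eventually_cofinite]
  refine ((Set.finite_univ (α := Bool)).prod (Set.finite_lt_nat S)).subset ?_
  rintro ⟨b, s⟩ hs
  exact ⟨Set.mem_univ _, not_le.1 hs⟩

private theorem fn6_lt {a b : ℕ} {c : ℝ} (h1 : (2 : ℝ) ^ a ≤ 2 * c) (h2 : c ≤ 2 ^ b) :
    a ≤ b + 1 := by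
  have h3 : (2 : ℝ) ^ a ≤ 2 ^ (b + 1) := by
    rw [pow_succ]
    linarith
  exact (pow_le_pow_iff_right₀ (by norm_num : (1 : ℝ) < 2)).1 h3

private theorem fn6_uu : 2 ≤ uu ∧ uu ≤ 4 := by
  unfold uu
  have h1 : (1 : ℝ) ≤ Real.sqrt 2 := by
    rw [Real.one_le_sqrt]
    norm_num
  have h2 : Real.sqrt 2 ≤ 3 := by
    rw [Real.sqrt_le_left (by norm_num)]
    norm_num
  constructor <;> linarith

private theorem fn6_scale {x y : ℝ} {E a b u v : ℕ} (hxy : y = uu ^ E * x) (hx : 0 < x)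
    (h1 : (2 : ℝ) ^ a ≤ 2 * x) (h2 : x ≤ 2 ^ (a + u + 5)) (h3 : (2 : ℝ) ^ b ≤ 2 * y)
    (h4 : y ≤ 2 ^ (b + v + 5)) : E + a ≤ b + v + 6 ∧ b ≤ 2 * E + a + u + 6 := by
  obtain ⟨u2, u4⟩ := fn6_uu
  have e1 : (2 : ℝ) ^ E ≤ uu ^ E := pow_le_pow_left₀ (by norm_num) u2 E
  have e2 : uu ^ E ≤ (2 : ℝ) ^ (2 * E) := by
    rw [pow_mul]
    refine pow_le_pow_left₀ (by linarith) ?_ E
    norm_num
    exact u4
  constructor
  · have h5 : (2 : ℝ) ^ (E + a) ≤ 2 * y := by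
      rw [pow_add, hxy]
      have h6 : (2 : ℝ) ^ E * 2 ^ a ≤ uu ^ E * (2 * x) :=
        mul_le_mul e1 h1 (by positivity) (by positivity)
      linarith
    exact fn6_lt h5 h4
  · have h5 : y ≤ 2 ^ (2 * E + a + u + 5) := by
      rw [show 2 * E + a + u + 5 = 2 * E + (a + u + 5) by ring, pow_add, hxy]
      exact mul_le_mul e2 h2 hx.le (by positivity)
    exact fn6_lt h3 h5

/-- the cell of `(sign, s)` lies in `± [2^(M - 1), 2^(M + j + 5)]`, `M = M (s + s₀)` -/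
theorem transition_geometry (hpos : ∀ m, 0 < dl m) (hle : ∀ m, dl m ≤ 1 / 1000)
    (hM : StrictMono M) (j s₀ : ℕ) (hs₀ : ∀ s, s₀ ≤ s → M s + j + 7 ≤ M (s + 1)) :
    (∀ n, 0 < lR M dl s₀ j n * yR M dl s₀ n) ∧
    (∀ n, 2 * mR j * |lR M dl s₀ j n| ≤ |yR M dl s₀ n|) ∧
    (∀ n, |lR M dl s₀ j n| ≤ 2 ^ (j + 3) * |yR M dl s₀ n|) ∧
    Tendsto (fun n => |yR M dl s₀ n|) cofinite atTop ∧
    (Pairwise fun n n' => Disjoint (cell (yR M dl s₀ n) (lR M dl s₀ j n) (mR j))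
      (cell (yR M dl s₀ n') (lR M dl s₀ j n') (mR j))) ∧
    (∀ n, ∀ z ∈ cell (yR M dl s₀ n) (lR M dl s₀ j n) (mR j), 0 < sg n.1 * z ∧
      (2 : ℝ) ^ M (n.2 + s₀) ≤ 2 * |z| ∧ |z| ≤ 2 ^ (M (n.2 + s₀) + j + 5)) := by
  have F := fn6_facts (M := M) hpos hle s₀ j
  have hsep : ∀ n n' : Bool × ℕ, n.2 < n'.2 → Disjoint
      (cell (yR M dl s₀ n) (lR M dl s₀ j n) (mR j))
      (cell (yR M dl s₀ n') (lR M dl s₀ j n') (mR j)) := by
    intro n n' hlt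
    rw [Set.disjoint_left]
    intro z hz hz'
    obtain ⟨-, -, f1⟩ := (F n).2.2.2.2 z hz
    obtain ⟨-, f2, -⟩ := (F n').2.2.2.2 z hz'
    have h1 := fn6_lt f2 f1
    have h2 := hs₀ (n.2 + s₀) (Nat.le_add_left _ _)
    have h3 : M (n.2 + s₀ + 1) ≤ M (n'.2 + s₀) := hM.monotone (by omega)
    omega
  refine ⟨fun n => (F n).1, fun n => (F n).2.1, fun n => (F n).2.2.1, ?_, ?_,
    fun n => (F n).2.2.2.2⟩
  · rw [tendsto_atTop]
    intro b
    filter_upwards [fn6_cof ⌈2 * b⌉₊] with n hn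
    have h1 := (F n).2.2.2.1
    have h2 : n.2 ≤ M (n.2 + s₀) := by
      have h3 : n.2 + s₀ ≤ M (n.2 + s₀) := hM.le_apply
      omega
    have h3 : (2 : ℝ) ^ n.2 ≤ 2 ^ M (n.2 + s₀) := pow_le_pow_right₀ (by norm_num) h2
    have h4 : (n.2 : ℝ) ≤ 2 ^ n.2 := by
      exact_mod_cast (Nat.lt_two_pow_self (n := n.2)).le
    have h5 : 2 * b ≤ n.2 := (Nat.le_ceil _).trans (by exact_mod_cast hn)
    linarith
  · intro n n' hne
    rcases lt_trichotomy n.2 n'.2 with h | h | h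
    · exact hsep n n' h
    · have hb : n.1 ≠ n'.1 := fun hb => hne (Prod.ext hb h)
      rw [Set.disjoint_left]
      intro z hz hz'
      obtain ⟨f1, -, -⟩ := (F n).2.2.2.2 z hz
      obtain ⟨f2, -, -⟩ := (F n').2.2.2.2 z hz'
      have hs : sg n'.1 = - sg n.1 := by
        revert hb
        cases n.1 <;> cases n'.1 <;> simp [sg]
      rw [hs] at f2
      linarith
    · exact (hsep n' n h).symm

/-- Same stage: `|e| ≥ 20 · 4^(m-1)` with `m = max k i i' ≥ 1` (`exponent_gap`), and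
`uu ^ e ≥ 2 ^ e` for `e ≥ 0`, the cells have length at most `2 m + 11` octaves. Different stages:
`M (s+1) - M s → ∞`. -/
theorem transition_iso (hpos : ∀ m, 0 < dl m) (hle : ∀ m, dl m ≤ 1 / 1000)
    (hM : StrictMono M) (hgap : Tendsto (fun s => M (s + 1) - M s) atTop atTop) (s₀ : ℕ → ℕ)
    (hs₀ : ∀ k s, s₀ k ≤ s → M s + jk k + 7 ≤ M (s + 1)) (k i i' : ℕ)
    (hi : ¬ (i = k ∧ i' = k)) :
    ∀ᶠ n in cofinite, ∀ n',
      Disjoint ((fun z => uu ^ (ck k - ck i) * z) ''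
          cell (yR M dl (s₀ i) n) (lR M dl (s₀ i) (jk i) n) (mR (jk i)))
        ((fun z => uu ^ (dk k - dk i') * z) ''
          cell (yR M dl (s₀ i') n') (lR M dl (s₀ i') (jk i') n') (mR (jk i'))) := by
  have he := exponent_gap hi
  set m : ℕ := max k (max i i') with hm
  set e : ℤ := (ck k - ck i) - (dk k - dk i') with hedef
  have hik : k ≤ m := le_max_left _ _
  have hii : i ≤ m := (le_max_left i i').trans (le_max_right _ _)
  have hii' : i' ≤ m := (le_max_right i i').trans (le_max_right _ _)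
  have hm1 : 1 ≤ m := by
    by_contra h
    exact hi ⟨by omega, by omega⟩
  have hE : 2 * m + 12 ≤ e.natAbs := by
    have h1 : m - 1 < 4 ^ (m - 1) := Nat.lt_pow_self (by norm_num)
    rw [Int.abs_eq_natAbs] at he
    have h2 : 20 * 4 ^ (m - 1) ≤ e.natAbs := by exact_mod_cast he
    omega
  set E : ℕ := e.natAbs with hEd
  have hj : jk i ≤ 2 * m + 5 := by unfold jk; omega
  have hj' : jk i' ≤ 2 * m + 5 := by unfold jk; omega
  obtain ⟨S, hS⟩ := eventually_atTop.1 (hgap.eventually_ge_atTop (2 * E + 2 * m + 20))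
  filter_upwards [fn6_cof (S + 1)] with n hn
  intro n'
  rw [Set.disjoint_left]
  rintro v ⟨z, hz, rfl⟩ ⟨z', hz', hv⟩
  obtain ⟨f0, f1, f2⟩ := (fn6_facts (M := M) hpos hle (s₀ i) (jk i) n).2.2.2.2 z hz
  obtain ⟨f0', f1', f2'⟩ := (fn6_facts (M := M) hpos hle (s₀ i') (jk i') n').2.2.2.2 z' hz'
  have hz0 : 0 < |z| := by
    rw [abs_pos]
    rintro rfl
    rw [mul_zero] at f0
    exact lt_irrefl _ f0
  have hz0' : 0 < |z'| := by
    rw [abs_pos]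
    rintro rfl
    rw [mul_zero] at f0'
    exact lt_irrefl _ f0'
  have huu : 0 < uu := by
    obtain ⟨u2, -⟩ := fn6_uu
    linarith
  have hab : |z'| = uu ^ e * |z| := by
    have h1 : uu ^ (dk k - dk i') * |z'| = uu ^ (ck k - ck i) * |z| := by
      have h2 := congrArg abs hv
      simp only [abs_mul, abs_of_pos (zpow_pos huu _)] at h2
      exact h2
    have h3 : uu ^ e = uu ^ (ck k - ck i) / uu ^ (dk k - dk i') := by
      rw [hedef, zpow_sub₀ huu.ne']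
    rw [h3, div_mul_eq_mul_div, ← h1, mul_comm, mul_div_assoc,
      div_self (zpow_pos huu _).ne', mul_one]
  have hor : |z'| = uu ^ E * |z| ∨ |z| = uu ^ E * |z'| := by
    rcases Int.natAbs_eq e with h | h
    · left
      rw [hab, h, ← hEd, zpow_natCast]
    · right
      rw [hab, h, ← hEd, zpow_neg, zpow_natCast, ← mul_assoc, mul_inv_cancel₀ (by positivity),
        one_mul]
  have hgap' : ∀ s t : ℕ, S ≤ s → s < t → M s + (2 * E + 2 * m + 20) ≤ M t := by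
    intro s t hs hst
    have h1 := hS s hs
    have h2 : M (s + 1) ≤ M t := hM.monotone hst
    have h3 : M s ≤ M (s + 1) := hM.monotone (Nat.le_succ s)
    omega
  have htri : M (n.2 + s₀ i) = M (n'.2 + s₀ i') ∨
      M (n.2 + s₀ i) + (2 * E + 2 * m + 20) ≤ M (n'.2 + s₀ i') ∨
      M (n'.2 + s₀ i') + (2 * E + 2 * m + 20) ≤ M (n.2 + s₀ i) := by
    rcases lt_trichotomy (n.2 + s₀ i) (n'.2 + s₀ i') with h | h | h
    · right; left
      exact hgap' _ _ (by omega) h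
    · left
      rw [h]
    · right; right
      have h1 := hgap' (n.2 + s₀ i - 1) (n.2 + s₀ i) (by omega) (by omega)
      have h2 : M (n'.2 + s₀ i') ≤ M (n.2 + s₀ i - 1) := hM.monotone (by omega)
      omega
  rcases hor with h | h
  · obtain ⟨g1, g2⟩ := fn6_scale h hz0 f1 f2 f1' f2'
    omega
  · obtain ⟨g1, g2⟩ := fn6_scale h hz0' f1' f2' f1 f2
    omega

end GD31
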