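import Pool.Agent.LibGD31.FN3
import Pool.Agent.LibGD31.FN4
import Pool.Agent.LibGD31.FN5
import Pool.Agent.LibGD31.FN6

/-! # FN7: the powers of `T̂` -/

open Filter Topology Set

namespace GD31

/-- the stored diffeomorphism of item `k` -/
noncomputable def Th (A B : Fin 4 → Pm) (k : ℕ) : Pm :=
  prod4 (fun i => cm (hom uu ^ ck k * A i * (hom uu ^ ck k)⁻¹)
    (hom uu ^ dk k * B i * (hom uu ^ dk k)⁻¹))

private theorem fn7_tend_mul {F G : Pm} (hF : Tendsto F (cocompact ℝ) (cocompact ℝ))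
    (hG : Tendsto G (cocompact ℝ) (cocompact ℝ)) :
    Tendsto (F * G : Pm) (cocompact ℝ) (cocompact ℝ) := hF.comp hG

private theorem fn7_tend_pow {F : Pm} (hF : Tendsto F (cocompact ℝ) (cocompact ℝ)) (n : ℕ) :
    Tendsto (F ^ n : Pm) (cocompact ℝ) (cocompact ℝ) := by
  induction n with
  | zero =>
    rw [pow_zero]
    exact tendsto_id
  | succ n ih =>
    rw [pow_succ]
    exact fn7_tend_mul ih hF

private theorem fn7_tend_abs {F : ℝ → ℝ} {c C : ℝ} (hc : 0 < c)
    (h : ∀ z, c * |z| - C ≤ |F z|) : Tendsto F (cocompact ℝ) (cocompact ℝ) := by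
  rw [← Metric.cobounded_eq_cocompact, ← tendsto_norm_atTop_iff_cobounded]
  have h1 : Tendsto (fun z : ℝ => c * ‖z‖ + -C) (Bornology.cobounded ℝ) atTop :=
    tendsto_atTop_add_const_right _ (-C) (tendsto_norm_cobounded_atTop.const_mul_atTop hc)
  refine tendsto_atTop_mono (fun z => ?_) h1
  have h2 := h z
  rw [Real.norm_eq_abs, Real.norm_eq_abs]
  linarith

private theorem fn7_tend_bdd {F : Pm} {C : ℝ} (h : ∀ z, |F z - z| ≤ C) :
    Tendsto F (cocompact ℝ) (cocompact ℝ) := by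
  refine fn7_tend_abs (c := 1) (C := C) one_pos fun z => ?_
  have h1 := h z
  have h2 := abs_sub_abs_le_abs_sub z (F z)
  rw [abs_sub_comm] at h2
  linarith

theorem Wp_tendsto {w : ℝ → ℝ} (hw : Prof w) (j : ℕ) :
    Tendsto (Wp w j) (cocompact ℝ) (cocompact ℝ) := by
  have h2 : (2 : ℝ) ≠ 0 := two_ne_zero
  have hh : Tendsto (hom 2) (cocompact ℝ) (cocompact ℝ) := by
    refine fn7_tend_abs (c := 2) (C := 0) two_pos fun z => ?_
    rw [hom_apply h2, abs_mul, abs_two]
    linarith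
  have hh' : Tendsto ((hom 2)⁻¹ : Pm) (cocompact ℝ) (cocompact ℝ) := by
    refine fn7_tend_abs (c := 1 / 2) (C := 0) (by norm_num) fun z => ?_
    have h3 : (hom 2)⁻¹ z = z / 2 := by
      rw [Equiv.Perm.inv_eq_iff_eq, hom_apply h2]
      ring
    rw [h3, abs_div, abs_two]
    linarith
  have hPf : ∀ z, |Pf (-(deriv w z)) - 1| ≤ 1 / 100 := by
    intro z
    have h3 := hw.s1 z
    have h4 := (Pf_bounds (κ := -(deriv w z)) (by rw [abs_neg]; linarith)).1
    rw [abs_neg] at h4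
    exact h4.trans h3
  have hB : Tendsto (Bp w) (cocompact ℝ) (cocompact ℝ) := by
    refine fn7_tend_bdd (C := 2) fun z => ?_
    rw [Bp_apply hw, add_sub_cancel_left]
    have h3 := hPf z
    rw [abs_le] at h3 ⊢
    constructor <;> linarith
  have hF : Tendsto (Fp w) (cocompact ℝ) (cocompact ℝ) := by
    refine fn7_tend_bdd (C := 2) fun z => ?_
    rw [Fp_apply hw, add_sub_cancel_left, abs_mul]
    have h3 := hPf z
    have h4 : |Pf (-(deriv w z))| ≤ 2 := by
      rw [abs_le] at h3 ⊢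
      constructor <;> linarith
    have h5 := hw.s0 z
    have h6 := mul_le_mul h5 h4 (abs_nonneg _) (by norm_num)
    linarith
  unfold Wp
  refine fn7_tend_mul (fn7_tend_mul (fn7_tend_mul (fn7_tend_pow hh j) (fn7_tend_pow hB _)) hF) ?_
  rw [← inv_pow]
  exact fn7_tend_pow hh' j

private theorem fn7_coc {P : ℝ → Prop} (h : ∀ᶠ z in cocompact ℝ, P z) :
    ∃ R : ℝ, ∀ z, R ≤ |z| → P z := by
  rw [cocompact_eq_atBot_atTop, eventually_sup, eventually_atBot, eventually_atTop] at h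
  obtain ⟨⟨a, ha⟩, b, hb⟩ := h
  refine ⟨max (-a) b, fun z hz => ?_⟩
  rcases abs_cases z with ⟨h1, _⟩ | ⟨h1, _⟩
  · exact hb z (by rw [← h1]; exact (le_max_right _ _).trans hz)
  · refine ha z ?_
    have h2 : -a ≤ |z| := (le_max_left _ _).trans hz
    rw [h1] at h2
    linarith

private theorem fn7_coc' {P : ℝ → Prop} {R : ℝ} (h : ∀ z, R ≤ |z| → P z) :
    ∀ᶠ z in cocompact ℝ, P z := by
  have h1 : ∀ᶠ z : ℝ in cocompact ℝ, R ≤ ‖z‖ := by
    rw [← Metric.cobounded_eq_cocompact]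
    exact tendsto_norm_cobounded_atTop.eventually_ge_atTop R
  filter_upwards [h1] with z hz
  exact h z hz

private theorem fn7_far {ι : Type} {P : ι → Prop} (hP : ∀ᶠ n in cofinite, P n) (f : ι → ℝ) :
    ∃ R : ℝ, ∀ n, R < f n → P n := by
  rw [Filter.eventually_cofinite] at hP
  obtain ⟨R, hR⟩ := (hP.image f).bddAbove
  refine ⟨R, fun n hn => ?_⟩
  by_contra hcon
  exact absurd (hR (Set.mem_image_of_mem f hcon)) (not_le.2 hn)

private theorem fn7_zone {a : ℝ} {w : ℝ → ℝ} {M : ℕ → ℕ} {Q : Type} {p δ : Q → ℝ}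
    (h : PD a w M p δ) {dl : ℕ → ℝ} {m₀ : ℕ} (hdl : DL p δ dl m₀) (j : ℕ) (z : ℝ)
    (hz : (2 : ℝ) ^ (m₀ + j + 2) ≤ |z|) (q : Q) (hq : ¬ inTr M p j q)
    (hzq : |z| ∈ bigI (p q) (δ q)) (s : ℕ) :
    ¬ ((2 : ℝ) ^ M s * (1 - 20 * dl (M s)) ≤ |z| ∧
      |z| ≤ 2 ^ (M s + j + 1) * (1 + 20 * dl (M s + j + 1))) := by
  rintro ⟨h1, h2⟩
  have hM : m₀ ≤ M s := by
    by_contra hcon
    push Not at hcon
    have h3 : (2 : ℝ) ^ (M s + j + 1) ≤ 2 ^ (m₀ + j + 1) :=
      pow_le_pow_right₀ (by norm_num) (by omega)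
    have h4 := hdl.le (M s + j + 1)
    have h5 : (2 : ℝ) ^ (m₀ + j + 2) = 2 ^ (m₀ + j + 1) * 2 := pow_succ _ _
    have h6 : (0 : ℝ) < 2 ^ (m₀ + j + 1) := by positivity
    have h7 : (2 : ℝ) ^ (M s + j + 1) * (1 + 20 * dl (M s + j + 1)) ≤
        2 ^ (m₀ + j + 1) * (1 + 20 / 1000) :=
      mul_le_mul h3 (by linarith) (by linarith [hdl.pos (M s + j + 1)]) h6.le
    have h8 : (2 : ℝ) ^ (m₀ + j + 1) * (1 + 20 / 1000) < 2 ^ (m₀ + j + 1) * 2 :=
      mul_lt_mul_of_pos_left (by norm_num) h6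
    linarith
  obtain ⟨q1, hp1, hd1⟩ := hdl.ex (M s) hM
  obtain ⟨q2, hp2, hd2⟩ := hdl.ex (M s + j + 1) (by omega)
  have hp : 0 < p q := lt_of_lt_of_le one_pos (h.one_le_p q)
  have hδ := h.δ_pos q
  have hpd : 0 < p q * (20 * δ q) := mul_pos hp (by linarith)
  have e1 : p q * (1 - 20 * δ q) = p q - p q * (20 * δ q) := by ring
  have e2 : p q * (1 + 20 * δ q) = p q + p q * (20 * δ q) := by ring
  obtain ⟨hz1, hz2⟩ := hzq
  rw [e1] at hz1
  rw [e2] at hz2
  have hdisj : ∀ q', q' ≠ q → ∀ t, t ∈ bigI (p q) (δ q) → t ∉ bigI (p q') (δ q') := by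
    intro q' hq' t ht ht'
    exact Set.disjoint_left.1 (h.disj (Ne.symm hq')) ht ht'
  have hself : ∀ q', p q' ∈ bigI (p q') (δ q') := by
    intro q'
    have h3 : 0 < p q' := lt_of_lt_of_le one_pos (h.one_le_p q')
    have h4 : 0 < p q' * (20 * δ q') := mul_pos h3 (by linarith [h.δ_pos q'])
    exact ⟨by linarith, by linarith⟩
  by_cases hlt : p q < 2 ^ M s
  · have hne : q1 ≠ q := by
      rintro rfl
      rw [hp1] at hlt
      exact lt_irrefl _ hlt
    have h5 : 0 < p q1 := lt_of_lt_of_le one_pos (h.one_le_p q1)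
    have h6 : 0 < p q1 * δ q1 := mul_pos h5 (h.δ_pos q1)
    rw [← hp1, ← hd1] at h1
    rw [← hp1] at hlt
    by_cases hle : |z| ≤ p q1
    · refine hdisj q1 hne |z| ⟨by linarith, by linarith⟩ ⟨?_, ?_⟩
      · nlinarith
      · nlinarith
    · push Not at hle
      exact hdisj q1 hne (p q1) ⟨by linarith, by linarith⟩ (hself q1)
  · by_cases hgt : (2 : ℝ) ^ (M s + j + 1) < p q
    · have hne : q2 ≠ q := by
        rintro rfl
        rw [hp2] at hgt
        exact lt_irrefl _ hgt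
      have h5 : 0 < p q2 := lt_of_lt_of_le one_pos (h.one_le_p q2)
      have h6 : 0 < p q2 * δ q2 := mul_pos h5 (h.δ_pos q2)
      rw [← hp2, ← hd2] at h2
      rw [← hp2] at hgt
      by_cases hle : p q2 ≤ |z|
      · refine hdisj q2 hne |z| ⟨by linarith, by linarith⟩ ⟨?_, ?_⟩
        · nlinarith
        · nlinarith
      · push Not at hle
        exact hdisj q2 hne (p q2) ⟨by linarith, by linarith⟩ (hself q2)
    · push Not at hlt hgt
      exact hq ⟨s, hlt, hgt⟩

private theorem fn7_sg (b : Bool) : |sg b| = 1 := by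
  cases b <;> simp [sg]

private theorem fn7_sign (z : ℝ) : ∃ b, z = sg b * |z| := by
  rcases abs_cases z with ⟨h1, _⟩ | ⟨h1, _⟩
  · refine ⟨true, ?_⟩
    rw [h1, sg, if_pos rfl, one_mul]
  · refine ⟨false, ?_⟩
    rw [h1, sg, if_neg (by simp)]
    ring

private theorem fn7_abs {y l x : ℝ} (h : 0 < l * y) (hx : 0 ≤ x) :
    |y + l * x| = |y| + |l| * x := by
  rcases lt_trichotomy l 0 with hl | hl | hl
  · have hy : y < 0 := by
      by_contra hcon
      push Not at hcon
      nlinarith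
    have h1 : l * x ≤ 0 := mul_nonpos_of_nonpos_of_nonneg hl.le hx
    rw [abs_of_neg hy, abs_of_neg hl, abs_of_neg (by linarith)]
    ring
  · rw [hl, zero_mul] at h
    exact absurd h (lt_irrefl _)
  · have hy : 0 < y := by
      by_contra hcon
      push Not at hcon
      nlinarith
    have h1 : 0 ≤ l * x := mul_nonneg hl.le hx
    rw [abs_of_pos hy, abs_of_pos hl, abs_of_pos (by linarith)]

/-- a diffeomorphism supported in `[0,1]` preserves `[0,1]` -/
private theorem fn7_mem {G : Pm} (hG : Supp G (Icc 0 1)) {x : ℝ} (hx : x ∈ Icc (0 : ℝ) 1) :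
    G x ∈ Icc (0 : ℝ) 1 := by
  by_contra hcon
  have h1 := hG (G x) hcon
  have h2 := G.injective h1
  rw [h2] at hcon
  exact hcon hx

/-- `storage` for the thin family and for the transition family; `E_{j_k} = Θ_thin Θ_tr` near
infinity (`Ep_eq_self` off the zones, the contents on the zones; thin zones of corners in no
transition interval are disjoint from the transition zones); `T̂^(4^j) = E_j W_j`. -/
theorem power_words {a : ℝ} {w : ℝ → ℝ} {M : ℕ → ℕ} {Q : Type} {p δ : Q → ℝ}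
    (h : PD a w M p δ) :
    ∃ A B A' B' : Fin 4 → Pm, (∀ i, Flat (A i)) ∧ (∀ i, Flat (B i)) ∧ (∀ i, Flat (A' i)) ∧
      (∀ i, Flat (B' i)) ∧ ∀ k, ∀ᶠ z in cocompact ℝ,
        (Tp w ^ (4 ^ jk k)) z = (Th A B k * Th A' B' k * Wp w (jk k)) z := by
  obtain ⟨dl, m₀, hdl⟩ := exists_DL h
  have huu : 1 < uu := by
    have h1 : 0 < Real.sqrt 2 := Real.sqrt_pos.2 two_pos
    unfold uu
    linarith
  -- the thin family
  obtain ⟨g1, g2, g3, g4, g5⟩ := thin_geometry h
  choose Gt εt ht1 ht2 ht3 ht4 ht5 ht6 using fun k => thin_contents h hdl (jk k)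
  obtain ⟨A, B, hA, hB, hAB⟩ := storage uu huu ck dk (fun _ => yT p δ) (fun _ => lT p δ)
    (fun _ => 1) (fun _ => 1) Gt εt (fun _ => one_pos) (fun _ => le_rfl) (fun _ => g1)
    (fun _ => g2) (fun _ => g3) (fun _ => g4) (fun _ => g5)
    (fun k i i' hi => thin_iso h k i i' hi) ht2 ht3 ht1 ht4
  -- the transition family
  have hex : ∀ k, ∃ s₀, ∀ s, s₀ ≤ s → m₀ ≤ M s ∧ M s + jk k + 7 ≤ M (s + 1) := by
    intro k
    have h1 : ∀ᶠ s in atTop, m₀ ≤ M s := h.Mmono.tendsto_atTop.eventually_ge_atTop m₀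
    have h2 : ∀ᶠ s in atTop, jk k + 7 ≤ M (s + 1) - M s := h.Mgap.eventually_ge_atTop (jk k + 7)
    obtain ⟨s₀, hs₀⟩ := eventually_atTop.1 (h1.and h2)
    exact ⟨s₀, fun s hs => ⟨(hs₀ s hs).1, by have := (hs₀ s hs).2; omega⟩⟩
  choose s₀ hs₀ using hex
  choose Gr εr hr1 hr2 hr3 hr4 hr5 using fun k => transition_contents h hdl (jk k) (s₀ k) (hs₀ k)
  have hgeo := fun k => transition_geometry hdl.pos hdl.le h.Mmono (jk k) (s₀ k)
    (fun s hs => (hs₀ k s hs).2)
  obtain ⟨A', B', hA', hB', hAB'⟩ := storage uu huu ck dk (fun k => yR M dl (s₀ k))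
    (fun k => lR M dl (s₀ k) (jk k)) (fun k => mR (jk k)) (fun k => 2 ^ (jk k + 3)) Gr εr
    (fun k => by unfold mR; positivity)
    (fun k => by
      unfold mR
      rw [div_le_one (by positivity)]
      exact one_le_pow₀ (by norm_num))
    (fun k => (hgeo k).1) (fun k => (hgeo k).2.1) (fun k => (hgeo k).2.2.1)
    (fun k => (hgeo k).2.2.2.1) (fun k => (hgeo k).2.2.2.2.1)
    (fun k i i' hi => transition_iso hdl.pos hdl.le h.Mmono h.Mgap s₀
      (fun k s hs => (hs₀ k s hs).2) k i i' hi) hr2 hr3 hr1 hr4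
  refine ⟨A, B, A', B', hA, hB, hA', hB', fun k => ?_⟩
  -- reduction to the errors
  have hred : ∀ᶠ z in cocompact ℝ, Ep w (jk k) z = Th A B k (Th A' B' k z) := by
    obtain ⟨R1, hR1⟩ := fn7_coc (hAB k)
    obtain ⟨R2, hR2⟩ := fn7_coc (hAB' k)
    obtain ⟨R3, hR3⟩ := fn7_coc (Ep_eq_self h hdl (jk k))
    obtain ⟨R4, hR4⟩ := fn7_far (ht6 k) (fun n => |yT p δ n| + |lT p δ n|)
    obtain ⟨R5, hR5⟩ := fn7_far (hr5 k)
      (fun n => |yR M dl (s₀ k) n| + |lR M dl (s₀ k) (jk k) n|)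
    obtain ⟨gk1, -, gk3, -, -, -⟩ := hgeo k
    obtain ⟨Λ, hΛ⟩ : ∃ Λ : ℝ, Λ = 2 ^ (jk k + 3) := ⟨_, rfl⟩
    have hΛ0 : 0 < Λ := by
      rw [hΛ]
      positivity
    rw [← hΛ] at gk3
    obtain ⟨j, hj⟩ : ∃ j, j = jk k := ⟨_, rfl⟩
    obtain ⟨R6, hR6⟩ : ∃ R6 : ℝ, R6 = 2 ^ (m₀ + j + 2) := ⟨_, rfl⟩
    obtain ⟨R7, hR7⟩ : ∃ R7 : ℝ, R7 = 2 ^ (M (s₀ k) + j + 2) := ⟨_, rfl⟩
    rw [← hj] at hR2 hR3 hR4 hR5 gk1 gk3
    obtain ⟨R, hR⟩ : ∃ R : ℝ, R = |R1| + |R2| + |R3| + |R4| + |R5| + |R6| + |R7| + 1 := ⟨_, rfl⟩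
    have a1 := le_abs_self R1
    have a2 := le_abs_self R2
    have a3 := le_abs_self R3
    have a4 := le_abs_self R4
    have a5 := le_abs_self R5
    have a6 := le_abs_self R6
    have a7 := le_abs_self R7
    have b1 := abs_nonneg R1
    have b2 := abs_nonneg R2
    have b3 := abs_nonneg R3
    have b4 := abs_nonneg R4
    have b5 := abs_nonneg R5
    have b6 := abs_nonneg R6
    have b7 := abs_nonneg R7
    -- thin: identity away from the contents of the corners in no transition interval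
    have hthin : ∀ z, R ≤ |z| →
        (∀ n, ¬ inTr M p j n.2 → ∀ x ∈ Icc (0 : ℝ) 1, z ≠ yT p δ n + lT p δ n * x) →
        Th A B k z = z := by
      intro z hz hno
      obtain ⟨c1, c2⟩ := hR1 z (by linarith)
      by_cases hcell : ∀ n, z ∉ cell (yT p δ n) (lT p δ n) 1
      · exact c2 hcell
      · push Not at hcell
        obtain ⟨n, x, hx, hzx⟩ := hcell
        have hzx' : z = yT p δ n + lT p δ n * x := hzx.symm
        have c3 := c1 n x hx hzx'
        have c4 : Gt k n x = x := by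
          by_cases hn : inTr M p (jk k) n.2
          · rw [ht5 k n hn]
            rfl
          · refine ht3 k n x fun hx1 => ?_
            exact hno n (by rw [hj]; exact hn) x hx1 hzx'
        rw [c4, ← hzx'] at c3
        exact c3
    refine fn7_coc' (R := (1 + Λ) * R) fun z hz => ?_
    have hR0 : 1 ≤ R := by linarith
    have hzR : R ≤ |z| := by nlinarith
    have hz0 : 0 < |z| := by linarith
    obtain ⟨d1, d2⟩ := hR2 z (by linarith)
    rw [← hj]
    by_cases hcase : ∃ n, ∃ x ∈ Icc (0 : ℝ) 1,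
        z = yR M dl (s₀ k) n + lR M dl (s₀ k) j n * x
    · -- in a transition content
      obtain ⟨n, x, hx, hzx⟩ := hcase
      have e1 := fn7_abs (gk1 n) hx.1
      rw [← hzx] at e1
      have e2 : |lR M dl (s₀ k) j n| * x ≤ |lR M dl (s₀ k) j n| := by
        have := abs_nonneg (lR M dl (s₀ k) j n)
        nlinarith [hx.2]
      have e3 := hR5 n (by linarith) x hx
      have e4 := d1 n x ⟨by
        have : 0 < mR j := by unfold mR; positivity
        linarith [hx.1], by linarith [hx.2]⟩ hzx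
      have e5 : Th A' B' k z = Ep w j z := by
        rw [← hzx] at e3
        rw [e3]
        exact e4
      rw [e5]
      have hx' := fn7_mem (hr3 k n) hx
      obtain ⟨x', hx'e⟩ : ∃ x', x' = Gr k n x := ⟨_, rfl⟩
      rw [← hx'e] at hx' e3
      have e6 : Ep w j z = yR M dl (s₀ k) n + lR M dl (s₀ k) j n * x' := by
        rw [← hzx] at e3
        exact e3
      have e7 := fn7_abs (gk1 n) hx'.1
      rw [← e6] at e7
      have e8 : 0 ≤ |lR M dl (s₀ k) j n| * x' := mul_nonneg (abs_nonneg _) hx'.1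
      have e9 := gk3 n
      have e10 : |z| ≤ (1 + Λ) * |yR M dl (s₀ k) n| := by linarith
      have e11 : R ≤ |Ep w j z| := by
        have e12 : (1 + Λ) * R ≤ (1 + Λ) * |yR M dl (s₀ k) n| := hz.trans e10
        have e13 : R ≤ |yR M dl (s₀ k) n| := le_of_mul_le_mul_left e12 (by linarith)
        linarith
      refine (hthin _ e11 ?_).symm
      intro n' hn' t ht he
      have hp' : 0 < p n'.2 := lt_of_lt_of_le one_pos (h.one_le_p _)
      have hδ' := h.δ_pos n'.2
      have hδl := h.δ_le n'.2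
      have hpd : 0 < p n'.2 * δ n'.2 := mul_pos hp' hδ'
      have f1 := fn7_abs (g1 n') ht.1
      rw [← he] at f1
      have f2 : |yT p δ n'| = p n'.2 * (1 - δ n'.2) := by
        rw [yT, abs_mul, fn7_sg, one_mul, abs_of_pos (mul_pos hp' (by linarith))]
      have f3 : |lT p δ n'| = 2 * δ n'.2 * p n'.2 := by
        rw [lT, abs_mul, fn7_sg, one_mul, abs_of_pos (mul_pos (by linarith) hp')]
      rw [f2, f3] at f1
      have f4 : 0 ≤ 2 * δ n'.2 * p n'.2 * t := mul_nonneg (mul_nonneg (by linarith) hp'.le) ht.1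
      have f5 : 2 * δ n'.2 * p n'.2 * t ≤ 2 * δ n'.2 * p n'.2 * 1 :=
        mul_le_mul_of_nonneg_left ht.2 (mul_nonneg (by linarith) hp'.le)
      refine fn7_zone h hdl j (Ep w j z) (by rw [← hR6]; linarith) n'.2 hn'
        ⟨by nlinarith, by nlinarith⟩ (n.2 + s₀ k) ⟨?_, ?_⟩
      · have k1 : |yR M dl (s₀ k) n| = 2 ^ M (n.2 + s₀ k) * (1 - 2 * dl (M (n.2 + s₀ k))) := by
          have k2 := hdl.le (M (n.2 + s₀ k))
          rw [yR, abs_mul, fn7_sg, one_mul, abs_of_pos (mul_pos (by positivity) (by linarith))]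
        have k3 : (0 : ℝ) < 2 ^ M (n.2 + s₀ k) * dl (M (n.2 + s₀ k)) :=
          mul_pos (by positivity) (hdl.pos _)
        rw [e7, k1]
        nlinarith
      · have k1 : Ep w j z = sg n.1 * (2 ^ M (n.2 + s₀ k) * (1 - 2 * dl (M (n.2 + s₀ k))) *
            (1 - x') + 2 ^ (M (n.2 + s₀ k) + j + 1) *
              (1 + 2 * dl (M (n.2 + s₀ k) + j + 1)) * x') := by
          rw [e6, yR, lR]
          ring
        have k2 := hdl.le (M (n.2 + s₀ k))
        have k3 := hdl.pos (M (n.2 + s₀ k))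
        have k4 := hdl.pos (M (n.2 + s₀ k) + j + 1)
        have k5 : (2 : ℝ) ^ M (n.2 + s₀ k) ≤ 2 ^ (M (n.2 + s₀ k) + j + 1) :=
          pow_le_pow_right₀ (by norm_num) (by omega)
        have k6 : (0 : ℝ) < 2 ^ M (n.2 + s₀ k) := by positivity
        have k7 : (2 : ℝ) ^ M (n.2 + s₀ k) * (1 - 2 * dl (M (n.2 + s₀ k))) ≤
            2 ^ (M (n.2 + s₀ k) + j + 1) * (1 + 2 * dl (M (n.2 + s₀ k) + j + 1)) :=
          mul_le_mul k5 (by linarith) (by linarith) (by positivity)
        have k8 : (0 : ℝ) ≤ 2 ^ M (n.2 + s₀ k) * (1 - 2 * dl (M (n.2 + s₀ k))) :=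
          mul_nonneg k6.le (by linarith)
        have k9 : 0 ≤ 1 - x' := by linarith [hx'.2]
        have k10 : (0 : ℝ) ≤ 2 ^ (M (n.2 + s₀ k) + j + 1) *
            (1 + 2 * dl (M (n.2 + s₀ k) + j + 1)) := k8.trans k7
        rw [k1, abs_mul, fn7_sg, one_mul, abs_of_nonneg (add_nonneg (mul_nonneg k8 k9)
          (mul_nonneg k10 hx'.1))]
        have k11 := mul_le_mul_of_nonneg_right k7 k9
        have k12 : (0 : ℝ) < 2 ^ (M (n.2 + s₀ k) + j + 1) * dl (M (n.2 + s₀ k) + j + 1) :=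
          mul_pos (by positivity) k4
        nlinarith
    · -- in no transition content
      push Not at hcase
      have e1 : Th A' B' k z = z := by
        by_cases hcell : ∀ n, z ∉ cell (yR M dl (s₀ k) n) (lR M dl (s₀ k) (jk k) n) (mR (jk k))
        · rw [← hj] at hcell
          exact d2 hcell
        · push Not at hcell
          obtain ⟨n, x, hx, hzx⟩ := hcell
          rw [← hj] at hx hzx
          have hzx' : z = yR M dl (s₀ k) n + lR M dl (s₀ k) j n * x := hzx.symm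
          have c3 := d1 n x hx hzx'
          have c4 : Gr k n x = x := hr3 k n x fun hx1 => hcase n x hx1 hzx'
          rw [c4, ← hzx'] at c3
          exact c3
      rw [e1]
      by_cases hcase2 : ∃ n, ¬ inTr M p j n.2 ∧ ∃ x ∈ Icc (0 : ℝ) 1,
          z = yT p δ n + lT p δ n * x
      · obtain ⟨n, hn, x, hx, hzx⟩ := hcase2
        have f1 := fn7_abs (g1 n) hx.1
        rw [← hzx] at f1
        have f2 : |lT p δ n| * x ≤ |lT p δ n| := by
          have := abs_nonneg (lT p δ n)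
          nlinarith [hx.2]
        have f3 := hR4 n (by linarith) hn x hx
        obtain ⟨c1, -⟩ := hR1 z (by linarith)
        have f4 := c1 n x ⟨by linarith [hx.1], by linarith [hx.2]⟩ hzx
        rw [← hzx] at f3
        rw [f3]
        exact f4.symm
      · push Not at hcase2
        rw [hthin z hzR (fun n hn x hx => hcase2 n hn x hx)]
        refine hR3 z (by linarith) ?_ ?_
        · rintro q hq ⟨hq1, hq2⟩
          obtain ⟨b, hb⟩ := fn7_sign z
          have hp' : 0 < p q := lt_of_lt_of_le one_pos (h.one_le_p _)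
          have hδ' := h.δ_pos q
          have hpd : 0 < p q * δ q := mul_pos hp' hδ'
          have hpd2 : 0 < 2 * δ q * p q := mul_pos (by linarith) hp'
          refine hcase2 (b, q) hq ((|z| - p q * (1 - δ q)) / (2 * δ q * p q)) ⟨?_, ?_⟩ ?_
          · exact div_nonneg (by nlinarith) hpd2.le
          · rw [div_le_one hpd2]
            nlinarith
          · rw [yT, lT]
            change z = sg b * (p q * (1 - δ q)) + sg b * (2 * δ q * p q) *
              ((|z| - p q * (1 - δ q)) / (2 * δ q * p q))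
            rw [mul_assoc (sg b) (2 * δ q * p q), mul_div_cancel₀ _ hpd2.ne', ← mul_add]
            conv_lhs => rw [hb]
            congr 1
            ring
        · rintro s ⟨hs1, hs2⟩
          by_cases hss : s < s₀ k
          · have k1 : M s ≤ M (s₀ k) := h.Mmono.monotone hss.le
            have k2 : (2 : ℝ) ^ (M s + j + 1) ≤ 2 ^ (M (s₀ k) + j + 1) :=
              pow_le_pow_right₀ (by norm_num) (by omega)
            have k3 := hdl.le (M s + j + 1)
            have k4 := hdl.pos (M s + j + 1)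
            have k5 : (2 : ℝ) ^ (M (s₀ k) + j + 2) = 2 ^ (M (s₀ k) + j + 1) * 2 := pow_succ _ _
            have k6 : (2 : ℝ) ^ (M s + j + 1) * (1 + dl (M s + j + 1)) ≤
                2 ^ (M (s₀ k) + j + 1) * 2 :=
              mul_le_mul k2 (by linarith) (by linarith) (by positivity)
            rw [← k5, ← hR7] at k6
            linarith
          · push Not at hss
            obtain ⟨s', rfl⟩ : ∃ s', s = s' + s₀ k := ⟨s - s₀ k, by omega⟩
            obtain ⟨b, hb⟩ := fn7_sign z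
            have k1 := hdl.le (M (s' + s₀ k))
            have k2 := hdl.pos (M (s' + s₀ k))
            have k3 := hdl.pos (M (s' + s₀ k) + j + 1)
            have k4 : (2 : ℝ) ^ M (s' + s₀ k) ≤ 2 ^ (M (s' + s₀ k) + j + 1) :=
              pow_le_pow_right₀ (by norm_num) (by omega)
            have k5 : (0 : ℝ) < 2 ^ M (s' + s₀ k) := by positivity
            have k6 : (0 : ℝ) < 2 ^ M (s' + s₀ k) * dl (M (s' + s₀ k)) := mul_pos k5 k2
            have k7 : (0 : ℝ) < 2 ^ (M (s' + s₀ k) + j + 1) * dl (M (s' + s₀ k) + j + 1) :=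
              mul_pos (by positivity) k3
            obtain ⟨L, hL⟩ : ∃ L : ℝ, L = 2 ^ (M (s' + s₀ k) + j + 1) *
                (1 + 2 * dl (M (s' + s₀ k) + j + 1)) -
                2 ^ M (s' + s₀ k) * (1 - 2 * dl (M (s' + s₀ k))) := ⟨_, rfl⟩
            have hL0 : 0 < L := by
              rw [hL]
              nlinarith
            refine hcase (b, s')
              ((|z| - 2 ^ M (s' + s₀ k) * (1 - 2 * dl (M (s' + s₀ k)))) / L) ⟨?_, ?_⟩ ?_
            · exact div_nonneg (by nlinarith) hL0.le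
            · rw [div_le_one hL0, hL]
              nlinarith
            · rw [yR, lR]
              change z = sg b * (2 ^ M (s' + s₀ k) * (1 - 2 * dl (M (s' + s₀ k)))) +
                sg b * (2 ^ (M (s' + s₀ k) + j + 1) *
                (1 + 2 * dl (M (s' + s₀ k) + j + 1)) -
                2 ^ M (s' + s₀ k) * (1 - 2 * dl (M (s' + s₀ k)))) *
                ((|z| - 2 ^ M (s' + s₀ k) * (1 - 2 * dl (M (s' + s₀ k)))) / L)
              rw [← hL, mul_assoc (sg b) L, mul_div_cancel₀ _ hL0.ne', ← mul_add]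
              conv_lhs => rw [hb]
              congr 1
              ring
  filter_upwards [(Wp_tendsto h.prof (jk k)).eventually hred] with z hz
  have h1 : (Tp w ^ (4 ^ jk k)) z = Ep w (jk k) (Wp w (jk k) z) := by
    obtain ⟨X, hX⟩ : ∃ X : Pm, X = Tp w ^ (4 ^ jk k) := ⟨_, rfl⟩
    obtain ⟨Y, hY⟩ : ∃ Y : Pm, Y = Wp w (jk k) := ⟨_, rfl⟩
    rw [Ep, ← hX, ← hY]
    have h2 : (X * Y⁻¹) (Y z) = X (Y.symm (Y z)) := rfl
    rw [h2, Equiv.symm_apply_apply]
  rw [h1, hz, Equiv.Perm.mul_apply, Equiv.Perm.mul_apply]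

end GD31
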