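import Pool.Agent.LibGC45.F2

/-! # FN8: distortion from short words, in terms of the word length -/

open Filter Topology Set

namespace GD31

open GermDist46

/-- Same proof as `GC45.distortion_of_words` (`LibGC45/F2.lean`). -/
theorem distortion_of_wordLength {G : Type*} [Group G] (S : Finset G) (g : G) (n : ℕ → ℕ)
    (hn : ∀ k, (k + 1) ^ 2 ≤ n k) (hmem : ∀ k, g ^ n k ∈ Subgroup.closure (S : Set G))
    (hw : ∀ k, (k + 1) * wordLength (S : Set G) (g ^ n k) ≤ 60 * n k) :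
    IsDistortionElement g := by
  classical
  rw [GC45.f2_iff]
  refine ⟨insert g S, Subgroup.subset_closure (by simp), ?_⟩
  set T : Set G := ((insert g S : Finset G) : Set G) with hT
  have hgT : g ∈ T := by simp [hT]
  have hST : (S : Set G) ⊆ T := by
    intro x hx
    simp only [hT, Finset.coe_insert]
    exact Set.mem_insert_of_mem _ hx
  have hgc : g ∈ Subgroup.closure T := Subgroup.subset_closure hgT
  set wd : ℕ → ℕ := fun k => wordLength (S : Set G) (g ^ n k) with hwd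
  have hb : ∀ k N : ℕ, wordLength T (g ^ N) ≤ (N / n k) * wd k + n k := by
    intro k N
    have hnk : 0 < n k := lt_of_lt_of_le (by positivity) (hn k)
    have h1 : g ^ N = (g ^ (n k)) ^ (N / n k) * g ^ (N % n k) := by
      rw [← pow_mul, ← pow_add, Nat.div_add_mod]
    rw [h1]
    calc _ ≤ wordLength T ((g ^ (n k)) ^ (N / n k)) + wordLength T (g ^ (N % n k)) :=
          GC45.f2_wl_mul T _ _ (pow_mem (pow_mem hgc _) _) (pow_mem hgc _)
      _ ≤ (N / n k) * wordLength T (g ^ (n k)) + (N % n k) * wordLength T g :=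
          add_le_add (GC45.f2_wl_pow T _ (pow_mem hgc _) _) (GC45.f2_wl_pow T _ hgc _)
      _ ≤ (N / n k) * wd k + n k := by
          refine add_le_add (Nat.mul_le_mul_left _ (GC45.f2_wl_mono _ _ hST _ (hmem k))) ?_
          calc (N % n k) * wordLength T g ≤ (N % n k) * 1 :=
                Nat.mul_le_mul_left _ (GC45.f2_wl_gen T g hgT)
            _ ≤ n k := by rw [mul_one]; exact (Nat.mod_lt _ hnk).le
  rw [Metric.tendsto_atTop]
  intro ε hε
  obtain ⟨k, hk⟩ := exists_nat_gt (120 / ε)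
  obtain ⟨N₀, hN₀⟩ := exists_nat_gt (2 * (n k : ℝ) / ε)
  refine ⟨N₀ + 1, fun N hN => ?_⟩
  have hnk : 0 < n k := lt_of_lt_of_le (by positivity) (hn k)
  have hnkR : (0 : ℝ) < n k := by exact_mod_cast hnk
  have hNpos : (0 : ℝ) < N := by
    have : 0 < N := by omega
    exact_mod_cast this
  have hNN : (N₀ : ℝ) < N := by
    have : N₀ < N := by omega
    exact_mod_cast this
  rw [Real.dist_eq, sub_zero, abs_of_nonneg (by positivity), div_lt_iff₀ hNpos]
  have h1 : (wordLength T (g ^ N) : ℝ) ≤ (N / n k : ℕ) * (wd k : ℕ) + n k := by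
    exact_mod_cast hb k N
  have h2 : ((N / n k : ℕ) : ℝ) ≤ N / n k := Nat.cast_div_le
  have h3 : ((k : ℝ) + 1) * (wd k : ℕ) ≤ 60 * n k := by exact_mod_cast hw k
  have hk1 : (0 : ℝ) < k + 1 := by positivity
  have h4 : ((wd k : ℕ) : ℝ) ≤ 60 * n k / (k + 1) := by
    rw [le_div_iff₀ hk1]; linarith
  have h5 : 120 < ε * (k + 1) := by
    rw [div_lt_iff₀ hε] at hk
    nlinarith
  have h6 : 2 * (n k : ℝ) < ε * N := by
    rw [div_lt_iff₀ hε] at hN₀
    nlinarith
  have h7 : (60 : ℝ) / (k + 1) < ε / 2 := by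
    rw [div_lt_iff₀ hk1]; linarith
  have h8 : ((N / n k : ℕ) : ℝ) * (wd k : ℕ) ≤ (N / n k) * (60 * n k / (k + 1)) := by
    gcongr
  have h9 : ((N : ℝ) / n k) * (60 * n k / (k + 1)) = N * (60 / (k + 1)) := by
    field_simp
  have h10 : (N : ℝ) * (60 / (k + 1)) < N * (ε / 2) := by gcongr
  linarith

private theorem fn8_inv {G : Type*} [Group G] (S : Set G) (a : G)
    (ha : a ∈ Subgroup.closure S) : wordLength S a⁻¹ ≤ wordLength S a := by
  obtain ⟨L, h1, h2, h3⟩ := GC45.f2_wl_exists S a ha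
  have := GC45.f2_wl_le S (L.map fun x => x⁻¹).reverse (by
    intro x hx
    rw [List.mem_reverse, List.mem_map] at hx
    obtain ⟨y, hy, rfl⟩ := hx
    rcases h2 y hy with h | h
    · right
      rw [inv_inv]
      exact h
    · left
      exact h)
  rw [← List.prod_inv_reverse, h3, List.length_reverse, List.length_map, h1] at this
  exact this

private theorem fn8_zpow {G : Type*} [Group G] (S : Set G) (u : G) (hu : u ∈ S) (c : ℤ) :
    wordLength S (u ^ c) ≤ c.natAbs := by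
  have huc : u ∈ Subgroup.closure S := Subgroup.subset_closure hu
  have h0 : ∀ m : ℕ, wordLength S (u ^ m) ≤ m := by
    intro m
    calc _ ≤ m * wordLength S u := GC45.f2_wl_pow S u huc m
      _ ≤ m * 1 := Nat.mul_le_mul_left _ (GC45.f2_wl_gen S u hu)
      _ = m := mul_one m
  rcases Int.natAbs_eq c with h | h
  · rw [h, zpow_natCast, Int.natAbs_natCast]
    exact h0 _
  · rw [h, zpow_neg, zpow_natCast, Int.natAbs_neg, Int.natAbs_natCast]
    exact (fn8_inv S _ (pow_mem huc _)).trans (h0 _)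

private theorem fn8_conj {G : Type*} [Group G] (S : Set G) (u a : G) (hu : u ∈ S) (ha : a ∈ S)
    (c : ℤ) : u ^ c * a * (u ^ c)⁻¹ ∈ Subgroup.closure S ∧
      wordLength S (u ^ c * a * (u ^ c)⁻¹) ≤ 2 * c.natAbs + 1 := by
  have h1 : u ^ c ∈ Subgroup.closure S := zpow_mem (Subgroup.subset_closure hu) c
  have h2 : a ∈ Subgroup.closure S := Subgroup.subset_closure ha
  refine ⟨mul_mem (mul_mem h1 h2) (inv_mem h1), ?_⟩
  have k1 := GC45.f2_wl_mul S (u ^ c * a) (u ^ c)⁻¹ (mul_mem h1 h2) (inv_mem h1)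
  have k2 := GC45.f2_wl_mul S (u ^ c) a h1 h2
  have k3 := fn8_zpow S u hu c
  have k4 := fn8_inv S (u ^ c) h1
  have k5 := GC45.f2_wl_gen S a ha
  omega

/-- length of the conjugate of `a` by `u ^ c` and of the commutator of two such conjugates -/
theorem wordLength_cm {G : Type*} [Group G] (S : Finset G) (u a b : G) (hu : u ∈ S) (ha : a ∈ S)
    (hb : b ∈ S) (c d : ℤ) :
    (u ^ c * a * (u ^ c)⁻¹) * (u ^ d * b * (u ^ d)⁻¹) * (u ^ c * a * (u ^ c)⁻¹)⁻¹ *
        (u ^ d * b * (u ^ d)⁻¹)⁻¹ ∈ Subgroup.closure (S : Set G) ∧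
      wordLength (S : Set G) ((u ^ c * a * (u ^ c)⁻¹) * (u ^ d * b * (u ^ d)⁻¹) *
        (u ^ c * a * (u ^ c)⁻¹)⁻¹ * (u ^ d * b * (u ^ d)⁻¹)⁻¹) ≤
        4 * c.natAbs + 4 * d.natAbs + 4 := by
  obtain ⟨m1, l1⟩ := fn8_conj (S : Set G) u a hu ha c
  obtain ⟨m2, l2⟩ := fn8_conj (S : Set G) u b hu hb d
  refine ⟨mul_mem (mul_mem (mul_mem m1 m2) (inv_mem m1)) (inv_mem m2), ?_⟩
  have k1 := GC45.f2_wl_mul (S : Set G) _ _ (mul_mem (mul_mem m1 m2) (inv_mem m1)) (inv_mem m2)
  have k2 := GC45.f2_wl_mul (S : Set G) _ _ (mul_mem m1 m2) (inv_mem m1)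
  have k3 := GC45.f2_wl_mul (S : Set G) _ _ m1 m2
  have k4 := fn8_inv (S : Set G) _ m1
  have k5 := fn8_inv (S : Set G) _ m2
  omega

end GD31
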