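import Pool.Agent.LibGD31.GI1

/-! # GI2: the group `Z2` of permutations which are `C²` at infinity -/

open Filter Topology Set

namespace GD31

open GermDist46

private theorem gi2_zero (F : ℝ → ℝ) : cv F 0 = 0 := by
  simp [cv]

private theorem gi2_one (x : ℝ) : cv (1 : Pm) x = x := by
  unfold cv
  split_ifs with h
  · exact h.symm
  · simp

private theorem gi2_comp (F G : Pm) :
    cv ((F * G : Pm) : ℝ → ℝ) =ᶠ[𝓝 0] (cv F) ∘ (cv G) := by
  have hcont : ContinuousAt (fun x : ℝ => x * G⁻¹ 0) 0 := by fun_prop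
  have hne : ∀ᶠ x in 𝓝 (0 : ℝ), x * G⁻¹ 0 ≠ 1 := by
    apply hcont.eventually_ne
    simp
  filter_upwards [hne] with x hx
  rw [Function.comp_apply]
  by_cases h0 : x = 0
  · subst h0
    rw [gi2_zero, gi2_zero, gi2_zero]
  · have hG : G x⁻¹ ≠ 0 := by
      intro h
      apply hx
      have h2 : G⁻¹ 0 = x⁻¹ := by
        rw [Equiv.Perm.inv_eq_iff_eq]; exact h.symm
      rw [h2, mul_inv_cancel₀ h0]
    have h1 : cv G x = (G x⁻¹)⁻¹ := by
      rw [cv, if_neg h0]
    have h2 : cv G x ≠ 0 := by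
      rw [h1]; exact inv_ne_zero hG
    have h3 : cv F (cv G x) = (F (cv G x)⁻¹)⁻¹ := by
      rw [cv, if_neg h2]
    rw [h3, h1, inv_inv, cv, if_neg h0, Equiv.Perm.mul_apply]

/-- Permutations of the line which are `C²` diffeomorphisms at infinity. -/
def Z2 : Subgroup Pm where
  carrier := {F | ContDiffAt ℝ 2 (cv F) 0 ∧ ContDiffAt ℝ 2 (cv (F⁻¹ : Pm)) 0}
  mul_mem' := by
    -- `cv (F * G) = cv F ∘ cv G` near `0` (`G z = 0` for one `z` only)
    rintro F G ⟨hF, hF'⟩ ⟨hG, hG'⟩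
    refine ⟨?_, ?_⟩
    · refine ContDiffAt.congr_of_eventuallyEq ?_ (gi2_comp F G)
      refine ContDiffAt.comp 0 ?_ hG
      rw [gi2_zero]; exact hF
    · rw [mul_inv_rev]
      refine ContDiffAt.congr_of_eventuallyEq ?_ (gi2_comp G⁻¹ F⁻¹)
      refine ContDiffAt.comp 0 ?_ hF'
      rw [gi2_zero]; exact hG'
  one_mem' := by
    -- `cv 1 = id`
    have h1 : cv ((1 : Pm) : ℝ → ℝ) = id := funext gi2_one
    refine ⟨?_, ?_⟩
    · rw [h1]; exact contDiffAt_id
    · rw [inv_one, h1]; exact contDiffAt_id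
  inv_mem' := by
    rintro F ⟨hF, hF'⟩
    refine ⟨hF', ?_⟩
    rw [inv_inv]; exact hF

/-- A `C²` germ at infinity which is a permutation belongs to `Z2`: `cv F` is `C²` at `0` with
nonzero derivative, so it has a `C²` local inverse (`ContDiffAt.to_localInverse`), which coincides
with `cv F⁻¹` near `0` (for small `y ≠ 0` take `x = loc y`, `F x⁻¹ = y⁻¹`). -/
theorem GInf.mem_Z2 {l c : ℝ} {F : Pm} (h : GInf l c F) : F ∈ Z2 := by
  obtain ⟨hc, hd⟩ := h.cv_contDiffAt
  refine ⟨hc, ?_⟩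
  have hl : l⁻¹ ≠ 0 := inv_ne_zero h.ne
  let f' : ℝ ≃L[ℝ] ℝ := ContinuousLinearEquiv.unitsEquivAut ℝ (Units.mk0 l⁻¹ hl)
  have hf' : HasFDerivAt (cv F) (f' : ℝ →L[ℝ] ℝ) 0 := by
    have he : (f' : ℝ →L[ℝ] ℝ) = ContinuousLinearMap.toSpanSingleton ℝ l⁻¹ := by
      ext
      simp [f']
    rw [he]
    exact hd.hasFDerivAt
  have hn : (2 : WithTop ℕ∞) ≠ 0 := by norm_num
  have hloc := hc.to_localInverse hf' hn
  rw [gi2_zero] at hloc
  have hs := hc.hasStrictFDerivAt' hf' hn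
  have hr := hs.eventually_right_inverse
  have h0 := hs.localInverse_apply_image
  rw [gi2_zero] at hr h0
  refine ContDiffAt.congr_of_eventuallyEq hloc ?_
  filter_upwards [hr] with y hy
  show cv (F⁻¹ : Pm) y = hs.localInverse (cv F) f' 0 y
  by_cases hy0 : y = 0
  · subst hy0
    rw [gi2_zero, h0]
  · set x := hs.localInverse (cv F) f' 0 y with hx
    have hx0 : x ≠ 0 := by
      intro hx0
      rw [hx0, gi2_zero] at hy
      exact hy0 hy.symm
    have h1 : (F x⁻¹)⁻¹ = y := by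
      rw [cv, if_neg hx0] at hy
      exact hy
    have h2 : F x⁻¹ = y⁻¹ := by rw [← h1, inv_inv]
    have h3 : F⁻¹ y⁻¹ = x⁻¹ := by
      rw [Equiv.Perm.inv_eq_iff_eq]; exact h2.symm
    rw [cv, if_neg hy0, h3, inv_inv]

/-- the function of an element of `Z2` -/
private noncomputable def gi2_cr (F : Z2) : CrFun 2 :=
  ⟨cv (F : Pm), gi2_zero _, by exact_mod_cast F.2.1⟩

private noncomputable def gi2_hom : Z2 →* GermMonoid 2 where
  toFun F := ((gi2_cr F : CrFun 2) : GermMonoid 2)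
  map_one' := by
    refine (germCon 2).eq.2 ?_
    show cv ((1 : Pm) : ℝ → ℝ) =ᶠ[𝓝 0] id
    exact Eventually.of_forall fun x => gi2_one x
  map_mul' F G := by
    refine (germCon 2).eq.2 ?_
    exact gi2_comp (F : Pm) (G : Pm)

/-- the germ at `0` of `cv F` -/
theorem exists_toGerm : ∃ T : Z2 →* GermGroup 2, (∀ F : Z2, Represents (T F) (cv (F : Pm))) ∧
    (∀ F G : Z2, T F = T G ↔ ∀ᶠ z in cocompact ℝ, (F : Pm) z = (G : Pm) z) := by
  refine ⟨gi2_hom.toHomUnits, fun F => ⟨gi2_cr F, rfl, ?_⟩, fun F G => ?_⟩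
  · rw [MonoidHom.coe_toHomUnits]; rfl
  · rw [Units.ext_iff, MonoidHom.coe_toHomUnits, MonoidHom.coe_toHomUnits]
    refine (germCon 2).eq.trans ?_
    show (cv (F : Pm) =ᶠ[𝓝 0] cv (G : Pm)) ↔ _
    rw [← Metric.cobounded_eq_cocompact]
    constructor
    · intro h
      have h1 : ∀ᶠ x in 𝓝[≠] (0 : ℝ), (F : Pm) x⁻¹ = (G : Pm) x⁻¹ := by
        have h2 : ∀ᶠ x in 𝓝[≠] (0 : ℝ), cv (F : Pm) x = cv (G : Pm) x :=
          h.filter_mono nhdsWithin_le_nhds
        filter_upwards [h2, self_mem_nhdsWithin] with x hx hx0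
        have hx0' : x ≠ 0 := hx0
        rw [cv, cv, if_neg hx0', if_neg hx0'] at hx
        exact inv_injective hx
      have h3 := (tendsto_inv₀_cobounded' (α := ℝ)).eventually h1
      simpa using h3
    · intro h
      have h1 := (tendsto_inv₀_nhdsNE_zero (α := ℝ)).eventually h
      rw [eventually_nhdsWithin_iff] at h1
      filter_upwards [h1] with x hx
      by_cases hx0 : x = 0
      · subst hx0
        rw [gi2_zero, gi2_zero]
      · have h4 := hx hx0
        rw [cv, cv, if_neg hx0, if_neg hx0]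
        rw [h4]

end GD31
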