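import Pool.Agent.LibGD31.GI1
import Pool.Agent.LibGD31.EX3

/-! # GI4: the generators are `C²` germs at infinity -/

open Filter Topology Set

namespace GD31

theorem gInf_hom {r : ℝ} (hr : r ≠ 0) : GInf r 0 (hom r) := by
  have h0 : (⇑(hom r) : ℝ → ℝ) = fun z => r * z := funext fun z => hom_apply hr z
  have h1 : deriv (⇑(hom r) : ℝ → ℝ) = fun _ => r := by
    rw [h0]
    funext z
    simp
  have h2 : deriv (deriv (⇑(hom r) : ℝ → ℝ)) = fun _ => 0 := by
    rw [h1]
    funext z
    exact deriv_const z r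
  refine ⟨hr, ?_, ?_, ?_, ?_⟩
  · refine Filter.Eventually.of_forall fun z => ?_
    rw [h0]
    exact contDiffAt_const.mul contDiffAt_id
  · rw [h0]
    simp
  · rw [h1]
    simp
  · rw [h2]
    simp

private theorem gi4_tendsto {k : ℕ} {p : ℝ} {f : ℝ → ℝ} (h : Ob k p f) (hp : 0 < p) {i : ℕ}
    (hi : i ≤ k) : Tendsto (fun z => z ^ i * iteratedDeriv i f z) (cocompact ℝ) (𝓝 0) := by
  obtain ⟨C, R, hC, hR, hb⟩ := h.bound
  have hn : Tendsto (fun z : ℝ => |z|) (cocompact ℝ) atTop := by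
    have h4 : Tendsto (fun z : ℝ => ‖z‖) (cocompact ℝ) atTop := tendsto_norm_cocompact_atTop
    exact h4
  have h1 : Tendsto (fun z : ℝ => C * |z| ^ (-p)) (cocompact ℝ) (𝓝 0) := by
    have h2 := ((tendsto_rpow_neg_atTop hp).comp hn).const_mul C
    rw [mul_zero] at h2
    exact h2
  refine squeeze_zero_norm' ?_ h1
  filter_upwards [hn.eventually_ge_atTop R] with z hz
  have h0 : 0 < |z| := by linarith
  rw [norm_mul, norm_pow, Real.norm_eq_abs, Real.norm_eq_abs]
  have h3 : |z| ^ (-(p + i)) = |z| ^ (-p) * (|z| ^ i)⁻¹ := by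
    rw [neg_add, Real.rpow_add h0, Real.rpow_neg h0.le (i : ℝ), Real.rpow_natCast]
  have h4 := hb i hi z hz
  rw [h3] at h4
  have h5 : (0 : ℝ) < |z| ^ i := by positivity
  calc |z| ^ i * |iteratedDeriv i f z| ≤ |z| ^ i * (C * (|z| ^ (-p) * (|z| ^ i)⁻¹)) :=
        mul_le_mul_of_nonneg_left h4 h5.le
    _ = C * |z| ^ (-p) := by field_simp

/-- `w → 0`, `z w' → 0`, `z² w'' → 0` because `w ∈ Ob 8 (7/8)` -/
theorem gInf_of_Cl {w : ℝ → ℝ} (hw : Prof w) {c d : ℝ} {F : Pm} (hF : Cl w c d F) :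
    GInf 1 c F := by
  have h1 : Ob 2 (7 / 8) (fun z => F z - z - c - d * w z) := hF.ob.mono (by norm_num) (by norm_num)
  have h2 : Ob 2 (7 / 8) (fun z => d * w z) := (hw.ob.mono (by norm_num) le_rfl).const_mul d
  have h3 : Ob 2 (7 / 8) (fun z => F z - z - c) := by
    have h4 := h1.add h2
    have h5 : (fun z => F z - z - c - d * w z + d * w z) = fun z => F z - z - c := by
      funext z
      ring
    rwa [h5] at h4
  set g : ℝ → ℝ := fun z => F z - z - c with hg
  have hFg : (⇑F : ℝ → ℝ) = fun z => z + c + g z := by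
    funext z
    rw [hg]
    ring
  have hs := h3.smooth
  have hd1 : deriv (⇑F : ℝ → ℝ) = fun z => 1 + deriv g z := by
    rw [hFg]
    funext z
    exact (((hasDerivAt_id z).add_const c).add
      ((contDiff_infty_iff_deriv.1 hs).1 z).hasDerivAt).deriv
  have hs1 := (contDiff_infty_iff_deriv.1 hs).2
  have hd2 : deriv (deriv (⇑F : ℝ → ℝ)) = fun z => deriv (deriv g) z := by
    rw [hd1]
    funext z
    exact (((contDiff_infty_iff_deriv.1 hs1).1 z).hasDerivAt.const_add 1).deriv
  refine ⟨one_ne_zero, ?_, ?_, ?_, ?_⟩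
  · refine Filter.Eventually.of_forall fun z => ?_
    rw [hFg]
    have h8 : ContDiff ℝ 2 g := by exact_mod_cast contDiff_infty.1 hs 2
    have h6 : ContDiff ℝ 2 (fun z => z + c + g z) := (contDiff_id.add contDiff_const).add h8
    exact h6.contDiffAt
  · have h7 := gi4_tendsto h3 (by norm_num) (Nat.zero_le 2)
    simp only [pow_zero, one_mul, iteratedDeriv_zero] at h7
    simp only [one_mul]
    exact h7
  · have h7 := gi4_tendsto h3 (by norm_num) (show 1 ≤ 2 by norm_num)
    simp only [pow_one, iteratedDeriv_one] at h7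
    rw [hd1]
    simpa using h7
  · have h7 := gi4_tendsto h3 (by norm_num) (show 2 ≤ 2 from le_rfl)
    rw [hd2]
    simpa [iteratedDeriv_succ, iteratedDeriv_zero] using h7

end GD31
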