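import Pool.Agent.LibGD31.FN7
import Pool.Agent.LibGD31.FN8
import Pool.Agent.LibGD31.GI2
import Pool.Agent.LibGD31.GI3
import Pool.Agent.LibGD31.GI4

/-! # FN9: the germ of `T̂` is distorted -/

open Filter Topology Set

namespace GD31

open GermDist46

/-- the stored element in a general group -/
def fn9_th {G : Type*} [Group G] (u : G) (a b : Fin 4 → G) (k : ℕ) (i : Fin 4) : G :=
  cm (u ^ ck k * a i * (u ^ ck k)⁻¹) (u ^ dk k * b i * (u ^ dk k)⁻¹)

theorem fn9_len {G : Type*} [Group G] (S : Finset G) (u : G) (a b : Fin 4 → G) (hu : u ∈ S)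
    (ha : ∀ i, a i ∈ S) (hb : ∀ i, b i ∈ S) (k : ℕ) :
    fn9_th u a b k 0 * fn9_th u a b k 1 * fn9_th u a b k 2 * fn9_th u a b k 3 ∈
      Subgroup.closure (S : Set G) ∧
    wordLength (S : Set G)
      (fn9_th u a b k 0 * fn9_th u a b k 1 * fn9_th u a b k 2 * fn9_th u a b k 3) ≤
      960 * 4 ^ k + 16 := by
  have h1 : ∀ i, fn9_th u a b k i ∈ Subgroup.closure (S : Set G) ∧
      wordLength (S : Set G) (fn9_th u a b k i) ≤ 240 * 4 ^ k + 4 := by
    intro i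
    obtain ⟨h2, h3⟩ := wordLength_cm S u (a i) (b i) hu (ha i) (hb i) (ck k) (dk k)
    refine ⟨h2, h3.trans ?_⟩
    have e1 : (ck k).natAbs = 20 * 4 ^ k := by
      unfold ck
      rw [Int.natAbs_mul, Int.natAbs_pow]
      rfl
    have e2 : (dk k).natAbs = 40 * 4 ^ k := by
      unfold dk
      rw [Int.natAbs_neg, Int.natAbs_mul, Int.natAbs_pow]
      rfl
    rw [e1, e2]
    omega
  have h01 := mul_mem (h1 0).1 (h1 1).1
  have h012 := mul_mem h01 (h1 2).1
  refine ⟨mul_mem h012 (h1 3).1, ?_⟩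
  have k1 := GC45.f2_wl_mul (S : Set G) _ _ (h1 0).1 (h1 1).1
  have k2 := GC45.f2_wl_mul (S : Set G) _ _ h01 (h1 2).1
  have k3 := GC45.f2_wl_mul (S : Set G) _ _ h012 (h1 3).1
  have l0 := (h1 0).2
  have l1 := (h1 1).2
  have l2 := (h1 2).2
  have l3 := (h1 3).2
  omega

theorem fn9_word {G : Type*} [Group G] (S : Finset G) (x y z : G) (hx : x ∈ S) (hy : y ∈ S)
    (hz : z ∈ S) (j : ℕ) :
    x ^ j * y ^ (2 ^ j) * z * (x ^ j)⁻¹ ∈ Subgroup.closure (S : Set G) ∧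
    wordLength (S : Set G) (x ^ j * y ^ (2 ^ j) * z * (x ^ j)⁻¹) ≤ 2 * j + 2 ^ j + 1 := by
  have cx : x ∈ Subgroup.closure (S : Set G) := Subgroup.subset_closure hx
  have cy : y ∈ Subgroup.closure (S : Set G) := Subgroup.subset_closure hy
  have cz : z ∈ Subgroup.closure (S : Set G) := Subgroup.subset_closure hz
  have hinv : wordLength (S : Set G) (x⁻¹ ^ j) ≤ j := by
    have h1 := GC45.f2_wl_le (S : Set G) (List.replicate j x⁻¹) (by
      intro y hy
      rw [List.eq_of_mem_replicate hy]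
      right
      rw [inv_inv]
      exact hx)
    rwa [List.prod_replicate, List.length_replicate] at h1
  have m1 := mul_mem (pow_mem cx j) (pow_mem cy (2 ^ j))
  have m2 := mul_mem m1 cz
  have m3 := mul_mem m2 (pow_mem (inv_mem cx) j)
  rw [← inv_pow]
  refine ⟨m3, ?_⟩
  have k1 := GC45.f2_wl_mul (S : Set G) _ _ (pow_mem cx j) (pow_mem cy (2 ^ j))
  have k2 := GC45.f2_wl_mul (S : Set G) _ _ m1 cz
  have k3 := GC45.f2_wl_mul (S : Set G) _ _ m2 (pow_mem (inv_mem cx) j)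
  have l1 : wordLength (S : Set G) (x ^ j) ≤ j := by
    refine (GC45.f2_wl_pow (S : Set G) x cx j).trans ?_
    exact (Nat.mul_le_mul_left _ (GC45.f2_wl_gen (S : Set G) x hx)).trans (by rw [mul_one])
  have l2 : wordLength (S : Set G) (y ^ (2 ^ j)) ≤ 2 ^ j := by
    refine (GC45.f2_wl_pow (S : Set G) y cy (2 ^ j)).trans ?_
    exact (Nat.mul_le_mul_left _ (GC45.f2_wl_gen (S : Set G) y hy)).trans (by rw [mul_one])
  have l3 := GC45.f2_wl_gen (S : Set G) z hz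
  omega

/-- Generators: the germs (`exists_toGerm`) of `hom 2`, `hom uu`, `Bp w`, `Fp w`, `A i`, `B i`,
`A' i`, `B' i` (all in `Z2` by `GInf.mem_Z2`, `gInf_hom`, `gInf_of_Cl`, `Flat.gInf`);
`n k = 4 ^ jk k`; `distortion_of_wordLength`, lengths by `wordLength_cm` and
`GC45.f2_wl_mul`, `f2_wl_pow`, `f2_wl_gen`:
`‖·‖ ≤ 2 · 4 · (4·20·4^k + 4·40·4^k + 4) + 2^(jk k) + 2 jk k + 1`. -/
theorem Tp_distorted {a : ℝ} {w : ℝ → ℝ} {M : ℕ → ℕ} {Q : Type} {p δ : Q → ℝ}
    (h : PD a w M p δ) {g : GermGroup 2} (hg : Represents g (cv (Tp w))) :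
    IsDistortionElement g := by
  classical
  obtain ⟨A, B, A', B', hA, hB, hA', hB', hpow⟩ := power_words h
  obtain ⟨T, hT, hTeq⟩ := exists_toGerm
  have hw := h.prof
  have huu : uu ≠ 0 := by
    unfold uu
    positivity
  set h2 : Z2 := ⟨hom 2, (gInf_hom two_ne_zero).mem_Z2⟩ with hh2
  set u0 : Z2 := ⟨hom uu, (gInf_hom huu).mem_Z2⟩ with hu0
  set b0 : Z2 := ⟨Bp w, (gInf_of_Cl hw (Cl.B hw)).mem_Z2⟩ with hb0
  set f0 : Z2 := ⟨Fp w, (gInf_of_Cl hw (Cl.F hw)).mem_Z2⟩ with hf0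
  set A0 : Fin 4 → Z2 := fun i => ⟨A i, (hA i).gInf.mem_Z2⟩ with hA0
  set B0 : Fin 4 → Z2 := fun i => ⟨B i, (hB i).gInf.mem_Z2⟩ with hB0
  set A1 : Fin 4 → Z2 := fun i => ⟨A' i, (hA' i).gInf.mem_Z2⟩ with hA1
  set B1 : Fin 4 → Z2 := fun i => ⟨B' i, (hB' i).gInf.mem_Z2⟩ with hB1
  set S : Finset (GermGroup 2) := {T h2, T u0, T b0, T f0} ∪
    ((Finset.univ.image fun i => T (A0 i)) ∪ (Finset.univ.image fun i => T (B0 i)) ∪
    ((Finset.univ.image fun i => T (A1 i)) ∪ (Finset.univ.image fun i => T (B1 i)))) with hS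
  have sh : T h2 ∈ S := by simp [hS]
  have su : T u0 ∈ S := by simp [hS]
  have sb : T b0 ∈ S := by simp [hS]
  have sf : T f0 ∈ S := by simp [hS]
  have sA : ∀ i, T (A0 i) ∈ S := fun i => by
    refine Finset.mem_union_right _ (Finset.mem_union_left _ (Finset.mem_union_left _ ?_))
    exact Finset.mem_image_of_mem _ (Finset.mem_univ i)
  have sB : ∀ i, T (B0 i) ∈ S := fun i => by
    refine Finset.mem_union_right _ (Finset.mem_union_left _ (Finset.mem_union_right _ ?_))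
    exact Finset.mem_image_of_mem _ (Finset.mem_univ i)
  have sA1 : ∀ i, T (A1 i) ∈ S := fun i => by
    refine Finset.mem_union_right _ (Finset.mem_union_right _ (Finset.mem_union_left _ ?_))
    exact Finset.mem_image_of_mem _ (Finset.mem_univ i)
  have sB1 : ∀ i, T (B1 i) ∈ S := fun i => by
    refine Finset.mem_union_right _ (Finset.mem_union_right _ (Finset.mem_union_right _ ?_))
    exact Finset.mem_image_of_mem _ (Finset.mem_univ i)
  have hgT : g = T (b0 * f0) :=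
    represents_unique' hg (hT (b0 * f0)) (Eventually.of_forall fun x => rfl)
  -- the word
  have hword : ∀ k, g ^ (4 ^ jk k) =
      (fn9_th (T u0) (fun i => T (A0 i)) (fun i => T (B0 i)) k 0 *
        fn9_th (T u0) (fun i => T (A0 i)) (fun i => T (B0 i)) k 1 *
        fn9_th (T u0) (fun i => T (A0 i)) (fun i => T (B0 i)) k 2 *
        fn9_th (T u0) (fun i => T (A0 i)) (fun i => T (B0 i)) k 3) *
      (fn9_th (T u0) (fun i => T (A1 i)) (fun i => T (B1 i)) k 0 *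
        fn9_th (T u0) (fun i => T (A1 i)) (fun i => T (B1 i)) k 1 *
        fn9_th (T u0) (fun i => T (A1 i)) (fun i => T (B1 i)) k 2 *
        fn9_th (T u0) (fun i => T (A1 i)) (fun i => T (B1 i)) k 3) *
      (T h2 ^ jk k * T b0 ^ (2 ^ jk k) * T f0 * (T h2 ^ jk k)⁻¹) := by
    intro k
    have h1 : T ((b0 * f0) ^ (4 ^ jk k)) = T (
        (fn9_th u0 A0 B0 k 0 * fn9_th u0 A0 B0 k 1 * fn9_th u0 A0 B0 k 2 * fn9_th u0 A0 B0 k 3) *
        (fn9_th u0 A1 B1 k 0 * fn9_th u0 A1 B1 k 1 * fn9_th u0 A1 B1 k 2 * fn9_th u0 A1 B1 k 3) *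
        (h2 ^ jk k * b0 ^ (2 ^ jk k) * f0 * (h2 ^ jk k)⁻¹)) := by
      rw [hTeq]
      have e1 : (((b0 * f0) ^ (4 ^ jk k) : Z2) : Pm) = Tp w ^ (4 ^ jk k) := by
        rw [SubmonoidClass.coe_pow]
        rfl
      have e2 : ((
        (fn9_th u0 A0 B0 k 0 * fn9_th u0 A0 B0 k 1 * fn9_th u0 A0 B0 k 2 * fn9_th u0 A0 B0 k 3) *
        (fn9_th u0 A1 B1 k 0 * fn9_th u0 A1 B1 k 1 * fn9_th u0 A1 B1 k 2 * fn9_th u0 A1 B1 k 3) *
        (h2 ^ jk k * b0 ^ (2 ^ jk k) * f0 * (h2 ^ jk k)⁻¹) : Z2) : Pm) =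
          Th A B k * Th A' B' k * Wp w (jk k) := by
        unfold Th prod4 Wp fn9_th cm
        simp only [Subgroup.coe_mul, Subgroup.coe_inv, SubgroupClass.coe_zpow,
          SubmonoidClass.coe_pow, hh2, hu0, hb0, hf0, hA0, hB0, hA1, hB1]
      rw [e1, e2]
      exact hpow k
    rw [hgT, ← map_pow, h1]
    simp only [fn9_th, cm, map_mul, map_inv, map_pow, map_zpow]
  refine distortion_of_wordLength S g (fun k => 4 ^ jk k) ?_ ?_ ?_
  · intro k
    have h1 : k + 1 ≤ 2 ^ (2 * k + 5) := by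
      have h2 : k < 2 ^ k := Nat.lt_two_pow_self
      have h3 : 2 ^ k ≤ 2 ^ (2 * k + 5) := Nat.pow_le_pow_right (by norm_num) (by omega)
      omega
    calc (k + 1) ^ 2 ≤ (2 ^ (2 * k + 5)) ^ 2 := Nat.pow_le_pow_left h1 2
      _ = 4 ^ jk k := by
        unfold jk
        rw [← pow_mul, mul_comm, pow_mul]
        norm_num
  · intro k
    rw [hword k]
    exact mul_mem (mul_mem (fn9_len S _ _ _ su sA sB k).1 (fn9_len S _ _ _ su sA1 sB1 k).1)
      (fn9_word S _ _ _ sh sb sf (jk k)).1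
  · intro k
    rw [hword k]
    obtain ⟨c1, l1⟩ := fn9_len S _ _ _ su sA sB k
    obtain ⟨c2, l2⟩ := fn9_len S _ _ _ su sA1 sB1 k
    obtain ⟨c3, l3⟩ := fn9_word S _ _ _ sh sb sf (jk k)
    have k1 := GC45.f2_wl_mul (S : Set (GermGroup 2)) _ _ c1 c2
    have k2 := GC45.f2_wl_mul (S : Set (GermGroup 2)) _ _ (mul_mem c1 c2) c3
    have e1 : 2 ^ jk k = 32 * 4 ^ k := by
      unfold jk
      rw [pow_add, pow_mul]
      norm_num
      ring
    have e2 : 4 ^ jk k = 1024 * (4 ^ k * 4 ^ k) := by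
      unfold jk
      rw [pow_add, pow_mul, ← mul_pow]
      norm_num
      ring
    have e3 : jk k = 2 * k + 5 := rfl
    have hk : k + 1 ≤ 4 ^ k := by
      have h2 : k < 4 ^ k := Nat.lt_pow_self (by norm_num)
      omega
    have hle : wordLength (S : Set (GermGroup 2))
        ((fn9_th (T u0) (fun i => T (A0 i)) (fun i => T (B0 i)) k 0 *
        fn9_th (T u0) (fun i => T (A0 i)) (fun i => T (B0 i)) k 1 *
        fn9_th (T u0) (fun i => T (A0 i)) (fun i => T (B0 i)) k 2 *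
        fn9_th (T u0) (fun i => T (A0 i)) (fun i => T (B0 i)) k 3) *
      (fn9_th (T u0) (fun i => T (A1 i)) (fun i => T (B1 i)) k 0 *
        fn9_th (T u0) (fun i => T (A1 i)) (fun i => T (B1 i)) k 1 *
        fn9_th (T u0) (fun i => T (A1 i)) (fun i => T (B1 i)) k 2 *
        fn9_th (T u0) (fun i => T (A1 i)) (fun i => T (B1 i)) k 3) *
      (T h2 ^ jk k * T b0 ^ (2 ^ jk k) * T f0 * (T h2 ^ jk k)⁻¹)) ≤ 2000 * 4 ^ k := by
      omega
    calc (k + 1) * _ ≤ 4 ^ k * (2000 * 4 ^ k) := Nat.mul_le_mul hk hle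
      _ ≤ 60 * 4 ^ jk k := by
        rw [e2]
        have : 0 < 4 ^ k * 4 ^ k := by positivity
        nlinarith

end GD31
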