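import Pool.Agent.LibGD31.Defs

/-! # GX1: a `C⁴` germ `x - x² + …` in the coordinate `z = 1/x` -/

open Filter Topology Set

namespace GD31

/-- `f = z + 1 + w + ρ` on `[R, ∞)` with `ρ` of order `-3/2` (two derivatives). -/
structure AbH (w f : ℝ → ℝ) : Prop where
  ex : ∃ C R : ℝ, 0 ≤ C ∧ 1 ≤ R ∧ ∀ z, R ≤ z → ContDiffAt ℝ 2 f z ∧
    |f z - z - 1 - w z| ≤ C * z ^ (-(3 / 2 : ℝ)) ∧
    |deriv f z - 1 - deriv w z| ≤ C * z ^ (-(5 / 2 : ℝ)) ∧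
    |deriv (deriv f) z - deriv (deriv w) z| ≤ C * z ^ (-(7 / 2 : ℝ))

private theorem gx1_deriv {n : ℕ} {g : ℝ → ℝ} {x : ℝ} (h : ContDiffAt ℝ ((n + 1 : ℕ)) g x) :
    ContDiffAt ℝ (n : ℕ) (deriv g) x :=
  (h.fderiv_right (m := (n : ℕ)) (by norm_cast)).clm_apply (contDiffAt_const (c := (1 : ℝ)))

private theorem gx1_step {h h' : ℝ → ℝ} {k : ℕ} {K δ : ℝ} (hK : 0 ≤ K) (h0 : h 0 = 0)
    (hd : ∀ x, |x| ≤ δ → HasDerivAt h (h' x) x) (hb : ∀ x, |x| ≤ δ → |h' x| ≤ K * |x| ^ k) :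
    ∀ x, |x| ≤ δ → |h x| ≤ K * |x| ^ (k + 1) := by
  intro x hx
  have h1 := (convex_Icc (-|x|) |x|).norm_image_sub_le_of_norm_hasDerivWithin_le
    (f := h) (f' := h') (C := K * |x| ^ k) (x := 0) (y := x)
    (fun t ht => (hd t ((abs_le.2 ht).trans hx)).hasDerivWithinAt)
    (fun t ht => by
      rw [Real.norm_eq_abs]
      refine (hb t ((abs_le.2 ht).trans hx)).trans ?_
      have := abs_le.2 ht
      gcongr)
    ⟨by simp, by simp⟩ ⟨neg_abs_le x, le_abs_self x⟩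
  rw [h0, sub_zero, sub_zero, Real.norm_eq_abs, Real.norm_eq_abs] at h1
  rw [pow_succ, ← mul_assoc]
  exact h1

private theorem gx1_taylor {f : ℝ → ℝ} (hf : ContDiffAt ℝ 4 f 0) (h0 : f 0 = 0)
    (h1 : deriv f 0 = 1) (h2 : iteratedDeriv 2 f 0 = -2) {b : ℝ}
    (hb : iteratedDeriv 3 f 0 = 6 * b) :
    ∃ K δ : ℝ, 0 ≤ K ∧ 0 < δ ∧ δ ≤ 1 ∧ ∀ x, |x| ≤ δ → ContDiffAt ℝ 4 f x ∧
      HasDerivAt f (deriv f x) x ∧ HasDerivAt (deriv f) (deriv (deriv f) x) x ∧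
      |f x - (x - x ^ 2 + b * x ^ 3)| ≤ K * |x| ^ 4 ∧
      |deriv f x - (1 - 2 * x + 3 * b * x ^ 2)| ≤ K * |x| ^ 3 ∧
      |deriv (deriv f) x - (-2 + 6 * b * x)| ≤ K * |x| ^ 2 := by
  have h2' : deriv (deriv f) 0 = -2 := by
    rw [← h2, iteratedDeriv_succ, iteratedDeriv_one]
  have hb' : deriv (deriv (deriv f)) 0 = 6 * b := by
    rw [← hb, iteratedDeriv_succ, iteratedDeriv_succ, iteratedDeriv_one]
  have e4 : ∀ {x : ℝ}, ContDiffAt ℝ 4 f x → ContDiffAt ℝ ((3 : ℕ)) (deriv f) x ∧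
      ContDiffAt ℝ ((2 : ℕ)) (deriv (deriv f)) x ∧
      ContDiffAt ℝ ((1 : ℕ)) (deriv (deriv (deriv f))) x ∧
      ContDiffAt ℝ ((0 : ℕ)) (deriv (deriv (deriv (deriv f)))) x := by
    intro x hx
    have a4 : ContDiffAt ℝ ((3 + 1 : ℕ)) f x := by exact_mod_cast hx
    have a3 := gx1_deriv a4
    have a2 := gx1_deriv (n := 2) a3
    have a1 := gx1_deriv (n := 1) a2
    have a0 := gx1_deriv (n := 0) a1
    exact ⟨a3, a2, a1, a0⟩
  have hev : ∀ᶠ x in 𝓝 (0 : ℝ), ContDiffAt ℝ 4 f x := hf.eventually (by decide)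
  have hc : ContinuousAt (deriv (deriv (deriv (deriv f)))) 0 := (e4 hf).2.2.2.continuousAt
  set f4 : ℝ → ℝ := deriv (deriv (deriv (deriv f))) with hf4
  have hbd : ∀ᶠ x in 𝓝 (0 : ℝ), |f4 x| ≤ |f4 0| + 1 := by
    have := (Metric.continuousAt_iff'.1 hc) 1 one_pos
    filter_upwards [this] with x hx
    rw [Real.dist_eq] at hx
    have h5 := abs_sub_abs_le_abs_sub (f4 x) (f4 0)
    linarith
  obtain ⟨δ, hδ, hball⟩ := Metric.eventually_nhds_iff_ball.1 (hev.and hbd)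
  have hK : 0 ≤ |f4 0| + 1 := by positivity
  set δ' : ℝ := min (δ / 2) 1 with hδ'
  have hδ1 : 0 < δ' := lt_min (by linarith) one_pos
  have hin : ∀ x, |x| ≤ δ' → ContDiffAt ℝ 4 f x ∧ |f4 x| ≤ |f4 0| + 1 := by
    intro x hx
    refine hball x ?_
    rw [Metric.mem_ball, Real.dist_eq, sub_zero]
    have := min_le_left (δ / 2) 1
    linarith
  have d0 : ∀ x, |x| ≤ δ' → HasDerivAt f (deriv f x) x := fun x hx =>
    ((hin x hx).1.differentiableAt (by norm_num)).hasDerivAt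
  have d1 : ∀ x, |x| ≤ δ' → HasDerivAt (deriv f) (deriv (deriv f) x) x := fun x hx =>
    ((e4 (hin x hx).1).1.differentiableAt (by norm_num)).hasDerivAt
  have d2 : ∀ x, |x| ≤ δ' → HasDerivAt (deriv (deriv f)) (deriv (deriv (deriv f)) x) x :=
    fun x hx => ((e4 (hin x hx).1).2.1.differentiableAt (by norm_num)).hasDerivAt
  have d3 : ∀ x, |x| ≤ δ' → HasDerivAt (deriv (deriv (deriv f))) (f4 x) x :=
    fun x hx => ((e4 (hin x hx).1).2.2.1.differentiableAt (by norm_num)).hasDerivAt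
  have s3 := gx1_step (h := fun x => deriv (deriv (deriv f)) x - 6 * b) (h' := f4) (k := 0) hK
    (by simp only [hb', sub_self]) (fun x hx => (d3 x hx).sub_const _)
    (fun x hx => by rw [pow_zero, mul_one]; exact (hin x hx).2)
  have s2 := gx1_step (h := fun x => deriv (deriv f) x - (-2 + 6 * b * x))
    (h' := fun x => deriv (deriv (deriv f)) x - 6 * b) hK
    (by simp only [h2']; ring)
    (fun x hx => by
      have := (d2 x hx).sub (((hasDerivAt_id x).const_mul (6 * b)).const_add (-2))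
      convert! this using 1
      simp) s3
  have s1 := gx1_step (h := fun x => deriv f x - (1 - 2 * x + 3 * b * x ^ 2))
    (h' := fun x => deriv (deriv f) x - (-2 + 6 * b * x)) hK
    (by simp only [h1]; ring)
    (fun x hx => by
      have := (d1 x hx).sub ((((hasDerivAt_id x).const_mul 2).const_sub 1).add
        (((hasDerivAt_pow 2 x).const_mul (3 * b))))
      convert! this using 1
      simp
      ring) s2
  have s0 := gx1_step (h := fun x => f x - (x - x ^ 2 + b * x ^ 3))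
    (h' := fun x => deriv f x - (1 - 2 * x + 3 * b * x ^ 2)) hK
    (by simp only [h0]; ring)
    (fun x hx => by
      have := (d0 x hx).sub (((hasDerivAt_id x).sub (hasDerivAt_pow 2 x)).add
        (((hasDerivAt_pow 3 x).const_mul b)))
      convert! this using 1
      simp
      ring) s1
  exact ⟨|f4 0| + 1, δ', hK, hδ1, min_le_right _ _, fun x hx =>
    ⟨(hin x hx).1, d0 x hx, d1 x hx, s0 x hx, s1 x hx, s2 x hx⟩⟩

private theorem gx1_bdd (K : ℝ) (P : ℝ × ℝ × ℝ × ℝ → ℝ) (hP : Continuous P) :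
    ∃ C : ℝ, 0 ≤ C ∧ ∀ x a c d, |x| ≤ 1 → |a| ≤ K → |c| ≤ K → |d| ≤ K → |P (x, a, c, d)| ≤ C := by
  obtain ⟨C, hC⟩ := ((isCompact_Icc (a := (-1 : ℝ)) (b := 1)).prod
    ((isCompact_Icc (a := -K) (b := K)).prod
    ((isCompact_Icc (a := -K) (b := K)).prod
    (isCompact_Icc (a := -K) (b := K))))).exists_bound_of_continuousOn hP.continuousOn
  refine ⟨max C 0, le_max_right _ _, ?_⟩
  intro x a c d hx ha hc hd
  refine le_trans ?_ (le_max_left _ _)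
  have := hC (x, a, c, d) ⟨abs_le.1 hx, abs_le.1 ha, abs_le.1 hc, abs_le.1 hd⟩
  rwa [Real.norm_eq_abs] at this

private theorem gx1_core (b K : ℝ) : ∃ C : ℝ, 0 ≤ C ∧ ∀ x a c d : ℝ, 0 < x → x ≤ 1 → |a| ≤ K →
    |c| ≤ K → |d| ≤ K → ∀ m f1 f2 : ℝ, m = 1 - x + b * x ^ 2 + x ^ 3 * a →
    f1 = 1 - 2 * x + 3 * b * x ^ 2 + x ^ 3 * c → f2 = -2 + 6 * b * x + x ^ 2 * d → 1 / 2 ≤ m →
    |(x * m)⁻¹ - x⁻¹ - 1 - (1 - b) * x| ≤ C * x ^ 2 ∧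
    |f1 / m ^ 2 - 1 + (1 - b) * x ^ 2| ≤ C * x ^ 3 ∧
    |-x * (2 * f1 * m + x * f2 * m - 2 * f1 ^ 2) / m ^ 3 - 2 * (1 - b) * x ^ 3| ≤ C * x ^ 4 := by
  let P1 : ℝ × ℝ × ℝ × ℝ → ℝ := fun p => 1 + -1*p.2.1 + -2*b + -1*p.1*p.2.1 + -1*p.1*b +
    1*p.1*b^2 + -1*p.1^2*p.2.1 + 1*p.1^2*b*p.2.1
  let P2 : ℝ × ℝ × ℝ × ℝ → ℝ := fun p => -2 + 1*p.2.2.1 + -2*p.2.1 + 4*b + 1*p.1 + 2*p.1*p.2.1 +
    1*p.1*b + -3*p.1*b^2 + 2*p.1^2*p.2.1 + -2*p.1^2*b + -4*p.1^2*b*p.2.1 + 2*p.1^2*b^2 +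
    -2*p.1^3*p.2.1 + -1*p.1^3*p.2.1^2 + 2*p.1^3*b*p.2.1 + 1*p.1^3*b^2 + -1*p.1^3*b^3 +
    2*p.1^4*b*p.2.1 + -2*p.1^4*b^2*p.2.1 + 1*p.1^5*p.2.1^2 + -1*p.1^5*b*p.2.1^2
  let P3 : ℝ × ℝ × ℝ × ℝ → ℝ := fun p => -6 + 1*p.2.2.2 + -2*p.2.2.1 + 2*p.2.1 + 12*b + 6*p.1 +
    -1*p.1*p.2.2.2 + 6*p.1*p.2.2.1 + -6*p.1*p.2.1 + -12*p.1*b^2 + -2*p.1^2 + 6*p.1^2*p.2.1 +
    -10*p.1^2*b + 1*p.1^2*b*p.2.2.2 + -10*p.1^2*b*p.2.2.1 + 6*p.1^2*b*p.2.1 + 12*p.1^2*b^2 +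
    -2*p.1^3*p.2.2.1^2 + -12*p.1^3*p.2.1 + 1*p.1^3*p.2.1*p.2.2.2 + 2*p.1^3*p.2.1*p.2.2.1 +
    6*p.1^3*b + 12*p.1^3*b*p.2.1 + -6*p.1^3*b^3 + 6*p.1^4*p.2.1 + 6*p.1^4*b*p.2.1 +
    -6*p.1^4*b^2 + -12*p.1^4*b^2*p.2.1 + 6*p.1^4*b^3 + 6*p.1^5*p.2.1^2 + -12*p.1^5*b*p.2.1 +
    -6*p.1^5*b*p.2.1^2 + 12*p.1^5*b^2*p.2.1 + 2*p.1^5*b^3 + -2*p.1^5*b^4 + -6*p.1^6*p.2.1^2 +
    6*p.1^6*b*p.2.1^2 + 6*p.1^6*b^2*p.2.1 + -6*p.1^6*b^3*p.2.1 + 6*p.1^7*b*p.2.1^2 +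
    -6*p.1^7*b^2*p.2.1^2 + 2*p.1^8*p.2.1^3 + -2*p.1^8*b*p.2.1^3
  obtain ⟨C1, hC1, hb1⟩ := gx1_bdd K P1 (by simp only [P1]; fun_prop)
  obtain ⟨C2, hC2, hb2⟩ := gx1_bdd K P2 (by simp only [P2]; fun_prop)
  obtain ⟨C3, hC3, hb3⟩ := gx1_bdd K P3 (by simp only [P3]; fun_prop)
  refine ⟨2 * C1 + 4 * C2 + 8 * C3, by positivity, ?_⟩
  intro x a c d hx hx1 ha hc hd m f1 f2 hm hf1 hf2 hm2
  have hax : |x| ≤ 1 := by rwa [abs_of_pos hx]
  have k1 := hb1 x a c d hax ha hc hd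
  have k2 := hb2 x a c d hax ha hc hd
  have k3 := hb3 x a c d hax ha hc hd
  set p1 := P1 (x, a, c, d) with hp1
  set p2 := P2 (x, a, c, d) with hp2
  set p3 := P3 (x, a, c, d) with hp3
  have hm0 : 0 < m := by linarith
  have hmi : m⁻¹ ≤ 2 := by
    rw [inv_le_comm₀ hm0 (by norm_num)]
    linarith
  have hmi0 : 0 < m⁻¹ := inv_pos.2 hm0
  have e1 : 1 - m * (1 + x + (1 - b) * x ^ 2) = x ^ 3 * p1 := by
    rw [hp1, hm]
    simp only [P1]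
    ring
  have e2 : f1 - m ^ 2 * (1 - (1 - b) * x ^ 2) = x ^ 3 * p2 := by
    rw [hp2, hm, hf1]
    simp only [P2]
    ring
  have e3 : 2 * f1 * m + x * f2 * m - 2 * f1 ^ 2 + 2 * (1 - b) * x ^ 2 * m ^ 3 = x ^ 3 * p3 := by
    rw [hp3, hm, hf1, hf2]
    simp only [P3]
    ring
  refine ⟨?_, ?_, ?_⟩
  · have h1 : (x * m)⁻¹ - x⁻¹ - 1 - (1 - b) * x = x ^ 2 * (p1 * m⁻¹) := by
      have h2 : (x * m)⁻¹ - x⁻¹ - 1 - (1 - b) * x =
          (1 - m * (1 + x + (1 - b) * x ^ 2)) / (x * m) := by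
        field_simp
        ring
      rw [h2, e1]
      field_simp
    rw [h1, abs_mul, abs_mul, abs_of_pos hmi0, abs_of_pos (by positivity : 0 < x ^ 2), mul_comm]
    have h3 : |p1| * m⁻¹ ≤ C1 * 2 := mul_le_mul k1 hmi hmi0.le hC1
    refine mul_le_mul_of_nonneg_right (h3.trans ?_) (by positivity)
    linarith
  · have h1 : f1 / m ^ 2 - 1 + (1 - b) * x ^ 2 = x ^ 3 * (p2 * (m⁻¹) ^ 2) := by
      have h2 : f1 / m ^ 2 - 1 + (1 - b) * x ^ 2 =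
          (f1 - m ^ 2 * (1 - (1 - b) * x ^ 2)) / m ^ 2 := by
        field_simp
        ring
      rw [h2, e2]
      field_simp
    rw [h1, abs_mul, abs_mul, abs_of_pos (by positivity : 0 < (m⁻¹) ^ 2),
      abs_of_pos (by positivity : 0 < x ^ 3), mul_comm]
    have h4 : (m⁻¹) ^ 2 ≤ 4 := by nlinarith
    have h3 : |p2| * (m⁻¹) ^ 2 ≤ C2 * 4 := mul_le_mul k2 h4 (by positivity) hC2
    refine mul_le_mul_of_nonneg_right (h3.trans ?_) (by positivity)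
    linarith
  · have h1 : -x * (2 * f1 * m + x * f2 * m - 2 * f1 ^ 2) / m ^ 3 - 2 * (1 - b) * x ^ 3 =
        -(x ^ 4 * (p3 * (m⁻¹) ^ 3)) := by
      have h2 : -x * (2 * f1 * m + x * f2 * m - 2 * f1 ^ 2) / m ^ 3 - 2 * (1 - b) * x ^ 3 =
          -x * (2 * f1 * m + x * f2 * m - 2 * f1 ^ 2 + 2 * (1 - b) * x ^ 2 * m ^ 3) / m ^ 3 := by
        field_simp
        ring
      rw [h2, e3]
      field_simp
    rw [h1, abs_neg, abs_mul, abs_mul, abs_of_pos (by positivity : 0 < (m⁻¹) ^ 3),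
      abs_of_pos (by positivity : 0 < x ^ 4), mul_comm]
    have h4 : (m⁻¹) ^ 3 ≤ 8 := by
      calc (m⁻¹) ^ 3 ≤ 2 ^ 3 := pow_le_pow_left₀ hmi0.le hmi 3
        _ = 8 := by norm_num
    have h3 : |p3| * (m⁻¹) ^ 3 ≤ C3 * 8 := mul_le_mul k3 h4 (by positivity) hC3
    refine mul_le_mul_of_nonneg_right (h3.trans ?_) (by positivity)
    linarith

private theorem gx1_data {f : ℝ → ℝ} {b K x : ℝ} (hx : 0 < x) (hx1 : x ≤ 1)
    (hs : x * (1 + |b| + K) ≤ 1 / 2)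
    (t0 : |f x - (x - x ^ 2 + b * x ^ 3)| ≤ K * |x| ^ 4)
    (t1 : |deriv f x - (1 - 2 * x + 3 * b * x ^ 2)| ≤ K * |x| ^ 3)
    (t2 : |deriv (deriv f) x - (-2 + 6 * b * x)| ≤ K * |x| ^ 2) :
    ∃ m a c d : ℝ, |a| ≤ K ∧ |c| ≤ K ∧ |d| ≤ K ∧ f x = x * m ∧
      m = 1 - x + b * x ^ 2 + x ^ 3 * a ∧ deriv f x = 1 - 2 * x + 3 * b * x ^ 2 + x ^ 3 * c ∧
      deriv (deriv f) x = -2 + 6 * b * x + x ^ 2 * d ∧ 1 / 2 ≤ m := by
  rw [abs_of_pos hx] at t0 t1 t2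
  have ha : |(f x - (x - x ^ 2 + b * x ^ 3)) / x ^ 4| ≤ K := by
    rw [abs_div, abs_of_pos (by positivity : 0 < x ^ 4), div_le_iff₀ (by positivity)]
    exact t0
  refine ⟨1 - x + b * x ^ 2 + x ^ 3 * ((f x - (x - x ^ 2 + b * x ^ 3)) / x ^ 4),
    (f x - (x - x ^ 2 + b * x ^ 3)) / x ^ 4,
    (deriv f x - (1 - 2 * x + 3 * b * x ^ 2)) / x ^ 3,
    (deriv (deriv f) x - (-2 + 6 * b * x)) / x ^ 2, ha, ?_, ?_, ?_, rfl, ?_, ?_, ?_⟩
  · rw [abs_div, abs_of_pos (by positivity : 0 < x ^ 3), div_le_iff₀ (by positivity)]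
    exact t1
  · rw [abs_div, abs_of_pos (by positivity : 0 < x ^ 2), div_le_iff₀ (by positivity)]
    exact t2
  · field_simp
    ring
  · field_simp
    ring
  · field_simp
    ring
  · set a : ℝ := (f x - (x - x ^ 2 + b * x ^ 3)) / x ^ 4
    have hK : 0 ≤ K := (abs_nonneg _).trans ha
    have h2 : x ^ 2 ≤ x := by nlinarith
    have h3 : x ^ 3 ≤ x := by
      have : x ^ 3 = x ^ 2 * x := by ring
      nlinarith
    have h4 : -(|b| * x) ≤ b * x ^ 2 := by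
      have h5 : |b * x ^ 2| ≤ |b| * x := by
        rw [abs_mul, abs_of_pos (by positivity : 0 < x ^ 2)]
        exact mul_le_mul_of_nonneg_left h2 (abs_nonneg b)
      exact (abs_le.1 h5).1
    have h6 : -(K * x) ≤ x ^ 3 * a := by
      have h5 : |x ^ 3 * a| ≤ K * x := by
        rw [abs_mul, abs_of_pos (by positivity : 0 < x ^ 3), mul_comm]
        exact mul_le_mul ha h3 (by positivity) hK
      exact (abs_le.1 h5).1
    nlinarith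

private theorem gx1_rpow {z : ℝ} (hz : 1 ≤ z) (n : ℕ) {e : ℝ} (he : -(n : ℝ) ≤ e) :
    (z⁻¹) ^ n ≤ z ^ e := by
  have h0 : 0 ≤ z := by linarith
  have h1 : (z⁻¹) ^ n = z ^ (-(n : ℝ)) := by
    rw [Real.rpow_neg h0, Real.rpow_natCast, inv_pow]
  rw [h1]
  exact Real.rpow_le_rpow_of_exponent_le hz he

/-- For `f = x - x² + b x³ + O(x⁴)` of class `C⁴`, the function `G z = (f z⁻¹)⁻¹` is
`z + 1 + (1-b)/z + O(z⁻²)` near `+∞`, with two derivatives: `f = x m(x)`, `m ∈ C³`,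
`1/f = (1/x)(1 + x + (1-b) x² + O(x³))`. -/
theorem germ_expansion {f : ℝ → ℝ} (hf : ContDiffAt ℝ 4 f 0) (h0 : f 0 = 0)
    (h1 : deriv f 0 = 1) (h2 : iteratedDeriv 2 f 0 = -2) :
    AbH (fun z => (1 - iteratedDeriv 3 f 0 / 6) / z) (fun z => (f z⁻¹)⁻¹) := by
  set b : ℝ := iteratedDeriv 3 f 0 / 6 with hb
  obtain ⟨K, δ, hK, hδ, hδ1, hT⟩ := gx1_taylor hf h0 h1 h2 (b := b) (by rw [hb]; ring)
  obtain ⟨C, hC, hcore⟩ := gx1_core b K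
  have hs0 : 0 < 1 + |b| + K := by positivity
  set R : ℝ := 1 / δ + 2 * (1 + |b| + K) + 1 with hR
  have hRδ : 0 < 1 / δ := by positivity
  have hR1 : 1 ≤ R := by
    rw [hR]
    linarith
  have basic : ∀ y, R < y → 0 < y⁻¹ ∧ y⁻¹ ≤ 1 ∧ |y⁻¹| ≤ δ ∧ y⁻¹ * (1 + |b| + K) ≤ 1 / 2 := by
    intro y hy
    have hy0 : 0 < y := by linarith
    have hi : 0 < y⁻¹ := inv_pos.2 hy0
    refine ⟨hi, ?_, ?_, ?_⟩
    · rw [inv_le_comm₀ hy0 one_pos, inv_one]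
      linarith
    · rw [abs_of_pos hi, inv_le_comm₀ hy0 hδ, ← one_div]
      linarith
    · rw [inv_mul_le_iff₀ hy0]
      linarith
  have data : ∀ y, R < y → ∃ m a c d : ℝ, |a| ≤ K ∧ |c| ≤ K ∧ |d| ≤ K ∧ f y⁻¹ = y⁻¹ * m ∧
      m = 1 - y⁻¹ + b * (y⁻¹) ^ 2 + (y⁻¹) ^ 3 * a ∧
      deriv f y⁻¹ = 1 - 2 * y⁻¹ + 3 * b * (y⁻¹) ^ 2 + (y⁻¹) ^ 3 * c ∧
      deriv (deriv f) y⁻¹ = -2 + 6 * b * y⁻¹ + (y⁻¹) ^ 2 * d ∧ 1 / 2 ≤ m := by
    intro y hy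
    obtain ⟨b1, b2, b3, b4⟩ := basic y hy
    obtain ⟨_, _, _, t0, t1, t2⟩ := hT _ b3
    exact gx1_data b1 b2 b4 t0 t1 t2
  have hne : ∀ y, R < y → f y⁻¹ ≠ 0 := by
    intro y hy
    obtain ⟨m, _, _, _, _, _, _, h3, _, _, _, h4⟩ := data y hy
    rw [h3]
    have := (basic y hy).1
    have h5 : 0 < m := by linarith
    positivity
  have dinv : ∀ y, R < y → HasDerivAt (fun z : ℝ => z⁻¹) (-(y⁻¹) ^ 2) y := by
    intro y hy
    have := hasDerivAt_inv (show y ≠ 0 by linarith)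
    rwa [← inv_pow] at this
  have dG : ∀ y, R < y → HasDerivAt (fun z => (f z⁻¹)⁻¹)
      (deriv f y⁻¹ * (y⁻¹) ^ 2 / (f y⁻¹) ^ 2) y := by
    intro y hy
    obtain ⟨_, hd, _⟩ := hT _ (basic y hy).2.2.1
    have h3 := (hd.comp y (dinv y hy)).fun_inv (hne y hy)
    convert! h3 using 1
    simp only [Function.comp_apply]
    ring
  have d2G : ∀ y, R < y → HasDerivAt (fun z => deriv f z⁻¹ * (z⁻¹) ^ 2 / (f z⁻¹) ^ 2)
      (((deriv (deriv f) y⁻¹ * (-(y⁻¹) ^ 2) * (y⁻¹) ^ 2 +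
        deriv f y⁻¹ * (2 * y⁻¹ * (-(y⁻¹) ^ 2))) * (f y⁻¹) ^ 2 -
        deriv f y⁻¹ * (y⁻¹) ^ 2 * (2 * f y⁻¹ * (deriv f y⁻¹ * (-(y⁻¹) ^ 2)))) /
        ((f y⁻¹) ^ 2) ^ 2) y := by
    intro y hy
    obtain ⟨_, hd, hd2, _⟩ := hT _ (basic y hy).2.2.1
    have i1 : HasDerivAt (fun z => deriv f z⁻¹) (deriv (deriv f) y⁻¹ * (-(y⁻¹) ^ 2)) y :=
      hd2.comp y (dinv y hy)
    have i2 : HasDerivAt (fun z : ℝ => (z⁻¹) ^ 2) (2 * y⁻¹ * (-(y⁻¹) ^ 2)) y := by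
      have := (dinv y hy).fun_pow 2
      convert! this using 1
      ring
    have i3 : HasDerivAt (fun z => (f z⁻¹) ^ 2) (2 * f y⁻¹ * (deriv f y⁻¹ * (-(y⁻¹) ^ 2))) y := by
      have := (hd.comp y (dinv y hy)).fun_pow 2
      convert! this using 1
      simp only [Function.comp_apply]
      ring
    exact (i1.mul i2).div i3 (pow_ne_zero 2 (hne y hy))
  have dw : ∀ y : ℝ, 0 < y → HasDerivAt (fun z => (1 - b) / z) (-(1 - b) * (y⁻¹) ^ 2) y := by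
    intro y hy
    have := (hasDerivAt_inv hy.ne').const_mul (1 - b)
    convert! this using 1
    rw [← inv_pow]
    ring
  have dw2 : ∀ y : ℝ, 0 < y → HasDerivAt (fun z : ℝ => -(1 - b) * (z⁻¹) ^ 2)
      (2 * (1 - b) * (y⁻¹) ^ 3) y := by
    intro y hy
    have := ((hasDerivAt_inv hy.ne').fun_pow 2).const_mul (-(1 - b))
    convert! this using 1
    rw [← inv_pow]
    ring
  refine ⟨⟨C, R + 1, hC, by linarith, ?_⟩⟩
  intro z hz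
  have hzR : R < z := by linarith
  have hz0 : 0 < z := by linarith
  have hz1 : 1 ≤ z := by linarith
  obtain ⟨b1, b2, b3, b4⟩ := basic z hzR
  obtain ⟨hcd, hd, hd2, _, _, _⟩ := hT _ b3
  obtain ⟨m, a, c, d, ha, hc, hd', hfm, hm, hf1, hf2, hm2⟩ := data z hzR
  obtain ⟨c1, c2, c3⟩ := hcore z⁻¹ a c d b1 b2 ha hc hd' m _ _ hm hf1 hf2 hm2
  have hm0 : 0 < m := by linarith
  have hG' : deriv (fun z => (f z⁻¹)⁻¹) z = deriv f z⁻¹ / m ^ 2 := by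
    rw [(dG z hzR).deriv, hfm]
    have := b1.ne'
    field_simp
  have hw' : deriv (fun z => (1 - b) / z) z = -(1 - b) * (z⁻¹) ^ 2 := (dw z hz0).deriv
  have hG'' : deriv (deriv fun z => (f z⁻¹)⁻¹) z =
      -z⁻¹ * (2 * deriv f z⁻¹ * m + z⁻¹ * deriv (deriv f) z⁻¹ * m - 2 * deriv f z⁻¹ ^ 2) / m ^ 3 := by
    have h3 : deriv (fun z => (f z⁻¹)⁻¹) =ᶠ[𝓝 z]
        fun z => deriv f z⁻¹ * (z⁻¹) ^ 2 / (f z⁻¹) ^ 2 := by
      filter_upwards [Ioi_mem_nhds hzR] with y hy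
      exact (dG y hy).deriv
    rw [h3.deriv_eq, (d2G z hzR).deriv, hfm]
    have := b1.ne'
    generalize z⁻¹ = x at this
    field_simp
    ring
  have hw'' : deriv (deriv fun z => (1 - b) / z) z = 2 * (1 - b) * (z⁻¹) ^ 3 := by
    have h3 : deriv (fun z => (1 - b) / z) =ᶠ[𝓝 z] fun z => -(1 - b) * (z⁻¹) ^ 2 := by
      filter_upwards [Ioi_mem_nhds hz0] with y hy
      exact (dw y hy).deriv
    rw [h3.deriv_eq, (dw2 z hz0).deriv]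
  refine ⟨?_, ?_, ?_, ?_⟩
  · have h3 : ContDiffAt ℝ 2 f z⁻¹ := hcd.of_le (by norm_num)
    exact (h3.comp z (contDiffAt_inv ℝ hz0.ne')).inv (hne z hzR)
  · have h3 : (f z⁻¹)⁻¹ - z - 1 - (1 - b) / z =
        (z⁻¹ * m)⁻¹ - (z⁻¹)⁻¹ - 1 - (1 - b) * z⁻¹ := by
      rw [hfm, inv_inv]
      rfl
    rw [h3]
    exact c1.trans (mul_le_mul_of_nonneg_left (gx1_rpow hz1 2 (by norm_num)) hC)
  · rw [hG', hw']
    have h3 : deriv f z⁻¹ / m ^ 2 - 1 - -(1 - b) * z⁻¹ ^ 2 =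
        deriv f z⁻¹ / m ^ 2 - 1 + (1 - b) * z⁻¹ ^ 2 := by ring
    rw [h3]
    exact c2.trans (mul_le_mul_of_nonneg_left (gx1_rpow hz1 3 (by norm_num)) hC)
  · rw [hG'', hw'']
    exact c3.trans (mul_le_mul_of_nonneg_left (gx1_rpow hz1 4 (by norm_num)) hC)

private theorem gx1_local {f : ℝ → ℝ} (hf : ContDiffAt ℝ 4 f 0) (h0 : f 0 = 0)
    (h1 : deriv f 0 ≠ 0) : ∃ k : ℝ → ℝ, ContDiffAt ℝ 4 k 0 ∧ k 0 = 0 ∧
      (∀ᶠ x in 𝓝 (0 : ℝ), k (f x) = x) ∧ (∀ᶠ x in 𝓝 (0 : ℝ), f (k x) = x) := by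
  have hr0 : (4 : WithTop ℕ∞) ≠ 0 := by norm_num
  have hd : HasDerivAt f (deriv f 0) 0 := (hf.differentiableAt hr0).hasDerivAt
  set e : ℝ ≃L[ℝ] ℝ := ContinuousLinearEquiv.unitsEquivAut ℝ (Units.mk0 (deriv f 0) h1) with he
  have hfd : HasFDerivAt f (e : ℝ →L[ℝ] ℝ) 0 := by
    have h1 := hd.hasFDerivAt
    have h2 : (e : ℝ →L[ℝ] ℝ) = ContinuousLinearMap.toSpanSingleton ℝ (deriv f 0) := by
      ext; simp [he]
    rw [h2]
    exact h1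
  have hs := hf.hasStrictFDerivAt' hfd hr0
  refine ⟨hf.localInverse hfd hr0, ?_, ?_, hs.eventually_left_inverse, ?_⟩
  · have := hf.to_localInverse hfd hr0
    rwa [h0] at this
  · have := hf.localInverse_apply_image hfd hr0
    rwa [h0] at this
  · have := hs.eventually_right_inverse
    rwa [h0] at this

private theorem gx1_invder {f k : ℝ → ℝ} (hf : ContDiffAt ℝ 4 f 0) (h1 : deriv f 0 = 1)
    (hk : ContDiffAt ℝ 4 k 0) (k0 : k 0 = 0) (hfk : ∀ᶠ x in 𝓝 (0 : ℝ), f (k x) = x) :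
    deriv k 0 = 1 ∧ deriv (deriv k) 0 = -deriv (deriv f) 0 ∧
    deriv (deriv (deriv k)) 0 = 3 * (deriv (deriv f) 0) ^ 2 - deriv (deriv (deriv f)) 0 := by
  have a4 : ∀ {g : ℝ → ℝ} {x : ℝ}, ContDiffAt ℝ 4 g x → DifferentiableAt ℝ g x ∧
      DifferentiableAt ℝ (deriv g) x ∧ DifferentiableAt ℝ (deriv (deriv g)) x := by
    intro g x hx
    have b4 : ContDiffAt ℝ ((3 + 1 : ℕ)) g x := by exact_mod_cast hx
    have b3 := gx1_deriv b4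
    have b2 := gx1_deriv (n := 2) b3
    exact ⟨b4.differentiableAt (by norm_num), b3.differentiableAt (by norm_num),
      b2.differentiableAt (by norm_num)⟩
  have hkc : Tendsto k (𝓝 0) (𝓝 0) := by
    have := hk.continuousAt.tendsto
    rwa [k0] at this
  have ev1 : ∀ᶠ y in 𝓝 (0 : ℝ), ContDiffAt ℝ 4 k y := hk.eventually (by decide)
  have ev2 : ∀ᶠ y in 𝓝 (0 : ℝ), ContDiffAt ℝ 4 f (k y) :=
    hkc.eventually (hf.eventually (by decide))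
  have ev3 : ∀ᶠ y in 𝓝 (0 : ℝ), ∀ᶠ u in 𝓝 y, f (k u) = u := eventually_eventually_nhds.2 hfk
  have e1 : ∀ᶠ y in 𝓝 (0 : ℝ), deriv f (k y) * deriv k y = 1 := by
    filter_upwards [ev1, ev2, ev3] with y y1 y2 y3
    have c1 : HasDerivAt (fun u => f (k u)) (deriv f (k y) * deriv k y) y :=
      (a4 y2).1.hasDerivAt.comp y (a4 y1).1.hasDerivAt
    have c2 : HasDerivAt (fun u => f (k u)) 1 y :=
      (hasDerivAt_id y).congr_of_eventuallyEq y3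
    exact c1.unique c2
  have e1' : deriv k =ᶠ[𝓝 0] fun y => (deriv f (k y))⁻¹ := by
    filter_upwards [e1] with y hy
    exact (eq_inv_of_mul_eq_one_right hy)
  have e2 : deriv (deriv k) =ᶠ[𝓝 0]
      fun y => -(deriv (deriv f) (k y) * (deriv f (k y))⁻¹) / (deriv f (k y)) ^ 2 := by
    refine e1'.deriv.trans ?_
    filter_upwards [ev1, ev2, e1, e1'] with y y1 y2 y3 y4
    have hne : deriv f (k y) ≠ 0 := left_ne_zero_of_mul_eq_one y3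
    have c1 : HasDerivAt (fun u => deriv f (k u)) (deriv (deriv f) (k y) * deriv k y) y :=
      (a4 y2).2.1.hasDerivAt.comp y (a4 y1).1.hasDerivAt
    rw [(c1.fun_inv hne).deriv, y4]
  have v1 : deriv k 0 = 1 := by
    rw [e1'.eq_of_nhds, k0, h1, inv_one]
  have v2 : deriv (deriv k) 0 = -deriv (deriv f) 0 := by
    rw [e2.eq_of_nhds, k0, h1]
    norm_num
  refine ⟨v1, v2, ?_⟩
  rw [e2.deriv_eq]
  have hkd : HasDerivAt k 1 0 := by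
    rw [← v1]
    exact (a4 hk).1.hasDerivAt
  have hf' : ContDiffAt ℝ 4 f (k 0) := by rwa [k0]
  have c1 : HasDerivAt (fun u => deriv f (k u)) (deriv (deriv f) (k 0) * 1) 0 :=
    (a4 hf').2.1.hasDerivAt.comp 0 hkd
  have c2 : HasDerivAt (fun u => deriv (deriv f) (k u)) (deriv (deriv (deriv f)) (k 0) * 1) 0 :=
    (a4 hf').2.2.hasDerivAt.comp 0 hkd
  have hne : deriv f (k 0) ≠ 0 := by
    rw [k0, h1]
    exact one_ne_zero
  have c3 := ((c2.fun_mul (c1.fun_inv hne)).fun_neg).fun_div (c1.fun_pow 2) (pow_ne_zero 2 hne)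
  have c4 := c3.deriv
  refine Eq.trans c4 ?_
  rw [k0, h1]
  norm_num
  ring

/-- The reflected inverse germ `f₁ x = - f⁻¹(-x)`: it is again of the form
`x - x² + b₁ x³ + …` with `b₁ = 2 - b`. -/
theorem reflected_inverse {f : ℝ → ℝ} (hf : ContDiffAt ℝ 4 f 0) (h0 : f 0 = 0)
    (h1 : deriv f 0 = 1) (h2 : iteratedDeriv 2 f 0 = -2) :
    ∃ f₁ : ℝ → ℝ, ContDiffAt ℝ 4 f₁ 0 ∧ f₁ 0 = 0 ∧ deriv f₁ 0 = 1 ∧
      iteratedDeriv 2 f₁ 0 = -2 ∧ iteratedDeriv 3 f₁ 0 / 6 = 2 - iteratedDeriv 3 f 0 / 6 ∧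
      (∀ᶠ x in 𝓝 0, f (-(f₁ x)) = -x) ∧ (∀ᶠ x in 𝓝 0, f₁ (-(f x)) = -x) := by
  obtain ⟨k, hk, k0, hkf, hfk⟩ := gx1_local hf h0 (by rw [h1]; exact one_ne_zero)
  obtain ⟨v1, v2, v3⟩ := gx1_invder hf h1 hk k0 hfk
  have h2' : deriv (deriv f) 0 = -2 := by
    rw [← h2, iteratedDeriv_succ, iteratedDeriv_one]
  have d1 : deriv (fun x => -k (-x)) = fun x => deriv k (-x) := by
    funext x
    rw [deriv.fun_neg, deriv_comp_neg, neg_neg]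
  have d2 : deriv (deriv (fun x => -k (-x))) = fun x => -deriv (deriv k) (-x) := by
    rw [d1]
    funext x
    rw [deriv_comp_neg]
  have d3 : deriv (deriv (deriv (fun x => -k (-x)))) = fun x => deriv (deriv (deriv k)) (-x) := by
    rw [d2]
    funext x
    rw [deriv.fun_neg, deriv_comp_neg, neg_neg]
  refine ⟨fun x => -k (-x), ?_, ?_, ?_, ?_, ?_, ?_, ?_⟩
  · have h3 : ContDiffAt ℝ 4 k (-(0 : ℝ)) := by rwa [neg_zero]
    exact (h3.comp (0 : ℝ) contDiffAt_id.neg).neg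
  · simp only [neg_zero, k0]
  · rw [d1]
    simp only [neg_zero, v1]
  · rw [iteratedDeriv_succ, iteratedDeriv_one, d2]
    simp only [neg_zero, v2, h2', neg_neg]
  · have h4 : iteratedDeriv 3 f 0 = deriv (deriv (deriv f)) 0 := by
      rw [iteratedDeriv_succ, iteratedDeriv_succ, iteratedDeriv_one]
    rw [h4, iteratedDeriv_succ, iteratedDeriv_succ, iteratedDeriv_one, d3]
    simp only [neg_zero, v3, h2']
    ring
  · have h5 : Tendsto (fun x : ℝ => -x) (𝓝 0) (𝓝 0) := by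
      have := (continuous_neg (G := ℝ)).tendsto 0
      rwa [neg_zero] at this
    filter_upwards [h5.eventually hfk] with x hx
    rw [neg_neg]
    exact hx
  · filter_upwards [hkf] with x hx
    rw [neg_neg, hx]

end GD31
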