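import Pool.Agent.LibGD31.PF8

/-! # PF10: the defect of homogeneity of the glued profile -/

open Filter Topology Set

namespace GD31

private theorem pf10_stage {M : ℕ → ℕ} (h : Lev M) {z : ℝ} (hz : (2 : ℝ) ^ M 0 ≤ z) :
    ∃ s, (2 : ℝ) ^ M s ≤ z ∧ z < 2 ^ M (s + 1) := by
  classical
  have hex : ∃ s, z < (2 : ℝ) ^ M s := by
    obtain ⟨n, hn⟩ := pow_unbounded_of_one_lt z (one_lt_two : (1 : ℝ) < 2)
    exact ⟨n, hn.trans_le (pow_le_pow_right₀ one_le_two (h.strictMono.id_le n))⟩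
  have h1 := Nat.find_spec hex
  have h2 : Nat.find hex ≠ 0 := by
    intro h0
    rw [h0] at h1
    exact absurd hz (not_le.2 h1)
  obtain ⟨s, hs⟩ := Nat.exists_eq_succ_of_ne_zero h2
  refine ⟨s, ?_, ?_⟩
  · exact not_lt.1 (Nat.find_min hex (show s < Nat.find hex by omega))
  · rw [hs] at h1
    exact h1

private theorem pf10_hom {g : ℝ → ℝ} (hh : ∀ x, 0 < x → g (2 * x) = g x / 2) (j : ℕ) {x : ℝ}
    (hx : 0 < x) : g (2 ^ j * x) = g x / 2 ^ j := by
  induction j with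
  | zero => simp
  | succ j ih =>
    rw [show (2 : ℝ) ^ (j + 1) * x = 2 * (2 ^ j * x) by ring, hh _ (by positivity), ih, pow_succ]
    field_simp

private theorem pf10_hom' {g : ℝ → ℝ} (hh : ∀ x, 0 < x → g (2 * x) = g x / 2) (j : ℕ) {z : ℝ}
    (hz : 0 < z) : g ((2 ^ j)⁻¹ * z) = 2 ^ j * g z := by
  have h1 := pf10_hom hh j (x := (2 ^ j)⁻¹ * z) (by positivity)
  rw [mul_inv_cancel_left₀ (by positivity)] at h1
  rw [h1]
  field_simp

/-- If `z` and `2^(-j) z` are in the same stage then `τ_j z = 0`; for large `z` the other `z` are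
in `[2^(M s), 2^(M s + j + 1)]`, where (`wp_eq`, homogeneity)
`τ_j z = 4^j g z - 2^j g (2^-j z)`, `g = X (Ω s - Ω (s-1))`. -/
theorem wp_tau_zero {Ω : ℕ → ℝ → ℝ} {lv : ℕ → ℕ} {δ : ℕ → ℝ} (hΩ : Sq Ω lv δ) {M : ℕ → ℕ}
    (h : Lev M) (j : ℕ) : ∀ᶠ z in atTop, tau (wp Ω M) j z ≠ 0 →
      ∃ s, (2 : ℝ) ^ M s ≤ z ∧ z ≤ 2 ^ (M s + j + 1) := by
  filter_upwards [eventually_ge_atTop ((2 : ℝ) ^ M 0)] with z hz hne
  obtain ⟨s, hs1, hs2⟩ := pf10_stage h hz
  refine ⟨s, hs1, ?_⟩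
  by_contra hcon
  push Not at hcon
  apply hne
  have hz0 : 0 < z := lt_of_lt_of_le (by positivity) hz
  have h1 : (2 : ℝ) ^ (M s + 1) ≤ (2 ^ j)⁻¹ * z := by
    rw [le_inv_mul_iff₀ (by positivity), ← pow_add]
    refine le_trans (le_of_eq ?_) hcon.le
    congr 1
    omega
  have h2 : (2 ^ j)⁻¹ * z ≤ z := by
    rw [inv_mul_le_iff₀ (by positivity)]
    exact le_mul_of_one_le_left hz0.le (one_le_pow₀ one_le_two)
  rw [tau, wp_stage h s (h1.trans h2) hs2.le, wp_stage h s h1 (h2.trans hs2.le),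
    pf10_hom' (hΩ.hom s) j hz0, show (4 : ℝ) = 2 * 2 by norm_num, mul_pow]
  ring

/-- the cut off in the coordinate `y = z / L` -/
private theorem pf10_cut (i : ℕ) : ∃ C : ℝ, 0 ≤ C ∧ ∀ y : ℝ, 0 < y →
    y ^ i * |iteratedDeriv i (fun y : ℝ => Real.smoothTransition (y - 1)) y| ≤ C := by
  have hY : ContDiff ℝ ((i : ℕ∞) : WithTop ℕ∞) (fun y : ℝ => Real.smoothTransition (y - 1)) :=
    Real.smoothTransition.contDiff.comp (contDiff_id.sub contDiff_const)
  rcases Nat.eq_zero_or_pos i with rfl | hi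
  · refine ⟨1, zero_le_one, fun y hy => ?_⟩
    rw [pow_zero, one_mul, iteratedDeriv_zero, abs_of_nonneg (Real.smoothTransition.nonneg _)]
    exact Real.smoothTransition.le_one _
  · have hc : Continuous fun y : ℝ =>
        y ^ i * |iteratedDeriv i (fun y : ℝ => Real.smoothTransition (y - 1)) y| :=
      (continuous_pow i).mul (hY.continuous_iteratedDeriv i le_rfl).abs
    obtain ⟨C, hC⟩ := (isCompact_Icc (a := (0 : ℝ)) (b := 3)).bddAbove_image hc.continuousOn
    refine ⟨max C 0, le_max_right _ _, fun y hy => ?_⟩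
    rcases le_or_gt y 3 with h3 | h3
    · exact (hC ⟨y, ⟨hy.le, h3⟩, rfl⟩).trans (le_max_left _ _)
    · have h4 : (fun y : ℝ => Real.smoothTransition (y - 1)) =ᶠ[𝓝 y] fun _ => (1 : ℝ) := by
        filter_upwards [eventually_gt_nhds h3] with t ht
        exact Real.smoothTransition.one_of_one_le (by linarith)
      rw [h4.iteratedDeriv_eq, iteratedDeriv_const, if_neg (by omega), abs_zero, mul_zero]
      exact le_max_right _ _

private theorem pf10_cutL (i : ℕ) : ∃ C : ℝ, 0 ≤ C ∧ ∀ L : ℝ, 0 < L → ∀ z : ℝ, 0 < z →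
    z ^ i * |iteratedDeriv i (fun z : ℝ => Real.smoothTransition (z / L - 1)) z| ≤ C := by
  obtain ⟨C, hC0, hC⟩ := pf10_cut i
  refine ⟨C, hC0, fun L hL z hz => ?_⟩
  have hY : ContDiff ℝ ((i : ℕ∞) : WithTop ℕ∞) (fun y : ℝ => Real.smoothTransition (y - 1)) :=
    Real.smoothTransition.contDiff.comp (contDiff_id.sub contDiff_const)
  have h1 : (fun z : ℝ => Real.smoothTransition (z / L - 1)) =
      fun z => (fun y : ℝ => Real.smoothTransition (y - 1)) (L⁻¹ * z) := by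
    funext z
    rw [inv_mul_eq_div]
  have h2 := congrFun (iteratedDeriv_comp_const_mul (n := i) (by exact_mod_cast hY) L⁻¹) z
  rw [h1, h2, abs_mul, abs_of_nonneg (by positivity : (0 : ℝ) ≤ L⁻¹ ^ i), ← mul_assoc, ← mul_pow,
    mul_comm z]
  exact hC (L⁻¹ * z) (by positivity)

/-- the bound for a product with a homogeneous function -/
private theorem pf10_prod (i : ℕ) : ∃ K : ℝ, 0 ≤ K ∧ ∀ (L : ℝ) (g : ℝ → ℝ) (B : ℝ), 0 < L →
    ContDiffOn ℝ ((⊤ : ℕ∞) : WithTop ℕ∞) g (Ioi 0) → (∀ x, 0 < x → g (2 * x) = g x / 2) →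
    (∀ k ≤ i, ∀ x ∈ Icc (1 : ℝ) 2, |iteratedDeriv k g x| ≤ B) → ∀ z : ℝ, 0 < z →
    z ^ (1 + i) * |iteratedDeriv i (fun z : ℝ => Real.smoothTransition (z / L - 1) * g z) z| ≤
      K * B := by
  have hex : ∀ k : ℕ, ∃ C : ℝ, 0 ≤ C ∧ ∀ L : ℝ, 0 < L → ∀ z : ℝ, 0 < z →
    z ^ k * |iteratedDeriv k (fun z : ℝ => Real.smoothTransition (z / L - 1)) z| ≤ C :=
    fun k => pf10_cutL k
  choose C hC0 hC using hex
  refine ⟨∑ k ∈ Finset.range (i + 1), (i.choose k : ℝ) * (C k * 2 ^ (1 + (i - k))),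
    Finset.sum_nonneg fun k _ => by have := hC0 k; positivity, ?_⟩
  intro L g B hL hg hh hB z hz
  have hX : ContDiffAt ℝ (i : WithTop ℕ∞) (fun z : ℝ => Real.smoothTransition (z / L - 1)) z := by
    have : ContDiff ℝ ((i : ℕ∞) : WithTop ℕ∞)
        (fun z : ℝ => Real.smoothTransition (z / L - 1)) :=
      Real.smoothTransition.contDiff.comp ((contDiff_id.div_const L).sub contDiff_const)
    exact_mod_cast this.contDiffAt
  have hg' : ContDiffAt ℝ (i : WithTop ℕ∞) g z := by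
    refine (hg.contDiffAt (Ioi_mem_nhds hz)).of_le ?_
    exact_mod_cast le_top
  have h1 := iteratedDeriv_mul hX hg'
  have h2 : (fun z : ℝ => Real.smoothTransition (z / L - 1) * g z) =
      (fun z : ℝ => Real.smoothTransition (z / L - 1)) * g := rfl
  rw [h2, h1]
  have h3 : z ^ (1 + i) * |∑ k ∈ Finset.range (i + 1), (i.choose k : ℝ) *
      iteratedDeriv k (fun z : ℝ => Real.smoothTransition (z / L - 1)) z *
        iteratedDeriv (i - k) g z| ≤ z ^ (1 + i) * ∑ k ∈ Finset.range (i + 1),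
      |(i.choose k : ℝ) * iteratedDeriv k (fun z : ℝ => Real.smoothTransition (z / L - 1)) z *
        iteratedDeriv (i - k) g z| :=
    mul_le_mul_of_nonneg_left (Finset.abs_sum_le_sum_abs _ _) (by positivity)
  refine h3.trans ?_
  rw [Finset.mul_sum, Finset.sum_mul]
  refine Finset.sum_le_sum fun k hk => ?_
  have hki : k ≤ i := by rw [Finset.mem_range] at hk; omega
  have h4 := hC k L hL z hz
  have h5 := hom_bound hg hh (hB (i - k) (by omega)) hz
  have h6 : z ^ (1 + i) = z ^ k * z ^ (1 + (i - k)) := by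
    rw [← pow_add]
    congr 1
    omega
  rw [abs_mul, abs_mul, abs_of_nonneg (by positivity : (0 : ℝ) ≤ (i.choose k : ℝ)), h6]
  have h7 : z ^ k * z ^ (1 + (i - k)) * ((i.choose k : ℝ) *
      |iteratedDeriv k (fun z : ℝ => Real.smoothTransition (z / L - 1)) z| *
        |iteratedDeriv (i - k) g z|) = (i.choose k : ℝ) * ((z ^ k *
      |iteratedDeriv k (fun z : ℝ => Real.smoothTransition (z / L - 1)) z|) *
        (|iteratedDeriv (i - k) g z| * z ^ (1 + (i - k)))) := by ring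
  rw [h7]
  have h8 : (i.choose k : ℝ) * (C k * 2 ^ (1 + (i - k))) * B =
      (i.choose k : ℝ) * (C k * (2 ^ (1 + (i - k)) * B)) := by ring
  rw [h8]
  refine mul_le_mul_of_nonneg_left ?_ (by positivity)
  exact mul_le_mul h4 h5 (by positivity) (hC0 k)

theorem wp_tau_small {Ω : ℕ → ℝ → ℝ} {lv : ℕ → ℕ} {δ : ℕ → ℝ} (hΩ : Sq Ω lv δ) {M : ℕ → ℕ}
    (h : Lev M) (j i : ℕ) (hi : i ≤ 5) :
    Tendsto (fun z => z ^ (1 + i) * iteratedDeriv i (tau (wp Ω M) j) z) atTop (𝓝 0) := by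
  obtain ⟨K, hK0, hK⟩ := pf10_prod i
  obtain ⟨β, hβ, hstep⟩ := hΩ.step
  -- the bound in the stage `t + 1`
  have key : ∀ t : ℕ, j ≤ t → ∀ z : ℝ, (2 : ℝ) ^ M (t + 1) ≤ z → z < 2 ^ M (t + 2) →
      |z ^ (1 + i) * iteratedDeriv i (tau (wp Ω M) j) z| ≤ 2 * 4 ^ j * K * β t := by
    intro t ht z hz1 hz2
    have hz0 : 0 < z := lt_of_lt_of_le (by positivity) hz1
    set L : ℝ := 2 ^ M (t + 1) with hL
    have hL0 : 0 < L := by positivity
    set D : ℝ → ℝ := fun x => Ω (t + 1) x - Ω t x with hD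
    have hDs : ContDiffOn ℝ ((⊤ : ℕ∞) : WithTop ℕ∞) D (Ioi 0) :=
      (hΩ.smooth (t + 1)).sub (hΩ.smooth t)
    have hDh : ∀ x, 0 < x → D (2 * x) = D x / 2 := by
      intro x hx
      simp only [hD, hΩ.hom _ x hx]
      ring
    have hDb : ∀ k ≤ i, ∀ x ∈ Icc (1 : ℝ) 2, |iteratedDeriv k D x| ≤ β t := fun k hk x hx =>
      hstep t k (by omega) x hx
    have hB1 := hK L D (β t) hL0 hDs hDh hDb z hz0
    have hB2 := hK (2 ^ j * L) D (β t) (by positivity) hDs hDh hDb z hz0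
    -- the formula
    have hlow : (2 : ℝ) ^ (M t + 1 + j) < z := by
      refine lt_of_lt_of_le (pow_lt_pow_right₀ one_lt_two ?_) hz1
      have := h.gap t
      omega
    have hev : tau (wp Ω M) j =ᶠ[𝓝 z] fun x => 4 ^ j *
        (Real.smoothTransition (x / L - 1) * D x -
          Real.smoothTransition (x / (2 ^ j * L) - 1) * D x) := by
      filter_upwards [eventually_gt_nhds hlow, eventually_lt_nhds hz2] with x hx1 hx2
      have hx0 : 0 < x := lt_trans (by positivity) hx1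
      have h1 : (2 : ℝ) ^ (M t + 1) ≤ (2 ^ j)⁻¹ * x := by
        rw [le_inv_mul_iff₀ (by positivity), ← pow_add]
        refine le_trans (le_of_eq ?_) hx1.le
        congr 1
        omega
      have h2 : (2 ^ j)⁻¹ * x ≤ x := by
        rw [inv_mul_le_iff₀ (by positivity)]
        exact le_mul_of_one_le_left hx0.le (one_le_pow₀ one_le_two)
      have e1 := wp_eq (Ω := Ω) h (t + 1) (z := x) (Or.inr (h1.trans h2)) hx2.le
      have e2 := wp_eq (Ω := Ω) h (t + 1) (z := (2 ^ j)⁻¹ * x) (Or.inr h1) (h2.trans hx2.le)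
      have e3 : (2 ^ j)⁻¹ * x / 2 ^ M (t + 1) - 1 = x / (2 ^ j * L) - 1 := by
        rw [hL]
        field_simp
      rw [tau, e1, e2, e3]
      simp only [om]
      rw [pf10_hom' (hΩ.hom t) j hx0, pf10_hom' (hΩ.hom (t + 1)) j hx0,
        show (4 : ℝ) = 2 * 2 by norm_num, mul_pow]
      simp only [hD, hL]
      ring
    have hc1 : ContDiffAt ℝ (i : WithTop ℕ∞) (fun x : ℝ =>
        Real.smoothTransition (x / L - 1) * D x) z := by
      have h1 : ContDiff ℝ ((i : ℕ∞) : WithTop ℕ∞)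
          (fun z : ℝ => Real.smoothTransition (z / L - 1)) :=
        Real.smoothTransition.contDiff.comp ((contDiff_id.div_const L).sub contDiff_const)
      have h2 : ContDiffAt ℝ (i : WithTop ℕ∞) D z := by
        refine (hDs.contDiffAt (Ioi_mem_nhds hz0)).of_le ?_
        exact_mod_cast le_top
      exact ContDiffAt.mul (by exact_mod_cast h1.contDiffAt) h2
    have hc2 : ContDiffAt ℝ (i : WithTop ℕ∞) (fun x : ℝ =>
        Real.smoothTransition (x / (2 ^ j * L) - 1) * D x) z := by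
      have h1 : ContDiff ℝ ((i : ℕ∞) : WithTop ℕ∞)
          (fun z : ℝ => Real.smoothTransition (z / (2 ^ j * L) - 1)) :=
        Real.smoothTransition.contDiff.comp ((contDiff_id.div_const _).sub contDiff_const)
      have h2 : ContDiffAt ℝ (i : WithTop ℕ∞) D z := by
        refine (hDs.contDiffAt (Ioi_mem_nhds hz0)).of_le ?_
        exact_mod_cast le_top
      exact ContDiffAt.mul (by exact_mod_cast h1.contDiffAt) h2
    rw [hev.iteratedDeriv_eq, iteratedDeriv_const_mul_field, iteratedDeriv_fun_sub hc1 hc2,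
      abs_mul, abs_mul, abs_of_nonneg (by positivity : (0 : ℝ) ≤ z ^ (1 + i)),
      abs_of_nonneg (by positivity : (0 : ℝ) ≤ (4 : ℝ) ^ j)]
    have h9 := abs_sub (iteratedDeriv i (fun x : ℝ => Real.smoothTransition (x / L - 1) * D x) z)
      (iteratedDeriv i (fun x : ℝ => Real.smoothTransition (x / (2 ^ j * L) - 1) * D x) z)
    calc _ ≤ z ^ (1 + i) * (4 ^ j *
        (|iteratedDeriv i (fun x : ℝ => Real.smoothTransition (x / L - 1) * D x) z| +
        |iteratedDeriv i (fun x : ℝ => Real.smoothTransition (x / (2 ^ j * L) - 1) * D x) z|)) := by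
          gcongr
      _ = 4 ^ j * (z ^ (1 + i) *
        |iteratedDeriv i (fun x : ℝ => Real.smoothTransition (x / L - 1) * D x) z| + z ^ (1 + i) *
        |iteratedDeriv i (fun x : ℝ => Real.smoothTransition (x / (2 ^ j * L) - 1) * D x) z|) := by
          ring
      _ ≤ 4 ^ j * (K * β t + K * β t) := by gcongr
      _ = _ := by ring
  rw [Metric.tendsto_atTop]
  intro ε hε
  have hβ' : Tendsto (fun t => 2 * 4 ^ j * K * β t) atTop (𝓝 0) := by
    simpa using hβ.const_mul (2 * 4 ^ j * K)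
  obtain ⟨t₀, ht₀⟩ := (hβ'.eventually (gt_mem_nhds hε)).exists_forall_of_atTop
  refine ⟨2 ^ M (max t₀ j + 1), fun z hz => ?_⟩
  obtain ⟨s, hs1, hs2⟩ := pf10_stage h
    ((pow_le_pow_right₀ one_le_two (h.strictMono.monotone (Nat.zero_le _))).trans hz)
  have hs3 : max t₀ j + 1 ≤ s := by
    by_contra hcon
    push Not at hcon
    have h1 : (2 : ℝ) ^ M (s + 1) ≤ 2 ^ M (max t₀ j + 1) :=
      pow_le_pow_right₀ one_le_two (h.strictMono.monotone (by omega))
    linarith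
  obtain ⟨t, rfl⟩ : ∃ t, s = t + 1 := ⟨s - 1, by omega⟩
  have h2 : t₀ ≤ t := by have := le_max_left t₀ j; omega
  have h3 : j ≤ t := by have := le_max_right t₀ j; omega
  rw [Real.dist_eq, sub_zero]
  exact (key t h3 z hs1 hs2).trans_lt (ht₀ t h2)

end GD31
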