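import Pool.Agent.LibGD31.PF11

/-! # PF12: disjointness and isolation of the corner intervals -/

open Filter Topology Set

namespace GD31

/-- hypothesis on the widths (conclusion of `exists_widths`) -/
def WSep (δ : ℕ → ℝ) : Prop :=
  ∀ (i : ℕ) (n n' e : ℤ) (d d' : ℝ), e.natAbs ≤ i → (e ≠ 0 ∨ n ≠ n') → 0 < d → d ≤ δ i →
    0 < d' → d' ≤ δ i →
    Disjoint ((fun z => uu ^ e * z) '' bigI (cor (i + 2) n) d) (bigI (cor (i + 2) n') d')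

private theorem pf12_mono {Ω : ℕ → ℝ → ℝ} {lv : ℕ → ℕ} {δ : ℕ → ℝ} (hΩ : Sq Ω lv δ) :
    Monotone lv :=
  monotone_nat_of_le_succ fun s => by rcases hΩ.lv_step s with h | h <;> omega

private theorem pf12_succ {Ω : ℕ → ℝ → ℝ} {lv : ℕ → ℕ} {δ : ℕ → ℝ} (hΩ : Sq Ω lv δ) {a b : ℕ}
    (h : a ≤ b + 1) : lv a ≤ lv b + 1 := by
  have h1 := pf12_mono hΩ h
  rcases hΩ.lv_step b with h2 | h2 <;> omega

private theorem pf12_core {Ω : ℕ → ℝ → ℝ} {lv : ℕ → ℕ} {δ : ℕ → ℝ} (hΩ : Sq Ω lv δ)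
    (hδ : Antitone δ) (hpos : ∀ i, 0 < δ i) {M : ℕ → ℕ} (h : Lev M) (m₀ : ℕ) (q : QQ lv M)
    (h1 : m₀ ≤ (q.1 : ℕ) - 1) (h2 : stg M q.1 ≤ stg M m₀ + 1) :
    pp lv M q = cor (lv (stg M m₀) + 2)
      ((((q.1 : ℕ) : ℤ) * 2 ^ (lv (stg M q.1) + 1) + ((q.2 : ℕ) : ℤ)) *
        2 ^ (lv (stg M m₀) + 2 - (lv (stg M q.1) + 1))) ∧
    lv (stg M q.1) + 1 ≤ lv (stg M m₀) + 2 ∧ 0 < dd lv M δ q ∧
    dd lv M δ q ≤ δ (lv (stg M m₀)) := by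
  have h3 : lv (stg M q.1) + 1 ≤ lv (stg M m₀) + 2 := by
    have := pf12_succ hΩ h2
    omega
  refine ⟨?_, h3, hpos _, hδ (pf12_mono hΩ (stg_mono h h1))⟩
  exact cor_level h3 _

private theorem pf12_bigI {p d x : ℝ} (hp : 0 < p) (hd : d ≤ 1 / 1000) (hx : x ∈ bigI p d) :
    p * (98 / 100) ≤ x ∧ x ≤ p * (102 / 100) := by
  obtain ⟨h1, h2⟩ := hx
  constructor
  · refine le_trans ?_ h1
    exact mul_le_mul_of_nonneg_left (by linarith) hp.le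
  · refine h2.trans ?_
    exact mul_le_mul_of_nonneg_left (by linarith) hp.le

private theorem pf12_close {m m' E : ℕ} {p p' x y t : ℝ} (hp0 : 0 < p) (hp : p < 2 ^ (m + 1))
    (hp' : 2 ^ m' ≤ p') (hx : x ≤ p * (102 / 100)) (hy : p' * (98 / 100) ≤ y) (ht : y = t * x)
    (ht0 : 0 < t) (ht1 : t ≤ 4 ^ E) : m' ≤ m + (2 * E + 1) := by
  by_contra hc
  have h1 : m + 1 + 2 * E + 1 ≤ m' := by omega
  have h2 : (2 : ℝ) ^ (m + 1 + 2 * E + 1) ≤ 2 ^ m' := pow_le_pow_right₀ (by norm_num) h1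
  have h3 : (2 : ℝ) ^ (m + 1 + 2 * E + 1) = 2 ^ (m + 1) * 4 ^ E * 2 := by
    rw [pow_succ, pow_add _ (m + 1), pow_mul]
    norm_num
  rw [h3] at h2
  have h4 : y ≤ 4 ^ E * (2 ^ (m + 1) * (102 / 100)) := by
    rw [ht]
    calc t * x ≤ t * (p * (102 / 100)) := mul_le_mul_of_nonneg_left hx ht0.le
      _ ≤ 4 ^ E * (p * (102 / 100)) := mul_le_mul_of_nonneg_right ht1 (by positivity)
      _ ≤ 4 ^ E * (2 ^ (m + 1) * (102 / 100)) := by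
        have : p * (102 / 100) ≤ 2 ^ (m + 1) * (102 / 100) := by linarith
        exact mul_le_mul_of_nonneg_left this (by positivity)
  have h5 : (0 : ℝ) < 2 ^ (m + 1) * 4 ^ E := by positivity
  nlinarith

private theorem pf12_uu (e : ℤ) : 0 < uu ^ e ∧ uu ^ e ≤ 4 ^ e.natAbs := by
  have h1 : 1 ≤ uu := by
    unfold uu
    have := Real.sqrt_nonneg 2
    linarith
  have h2 : uu ≤ 4 := by
    unfold uu
    have : Real.sqrt 2 ≤ 3 := by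
      rw [Real.sqrt_le_left (by norm_num)]
      norm_num
    linarith
  have h0 : 0 < uu := by linarith
  refine ⟨zpow_pos h0 e, ?_⟩
  have h3 : uu ^ e ≤ uu ^ (e.natAbs : ℤ) := zpow_le_zpow_right₀ h1 Int.le_natAbs
  refine h3.trans ?_
  rw [zpow_natCast]
  exact pow_le_pow_left₀ h0.le h2 _

private theorem pf12_pos {lv M : ℕ → ℕ} (q : QQ lv M) : 0 < pp lv M q :=
  lt_of_lt_of_le (by positivity) (pp_mem lv M q).1

private theorem pf12_range {m L K : ℕ} (l : Fin (2 ^ L)) (hL : L ≤ K) :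
    (m : ℤ) * 2 ^ K ≤ ((m : ℤ) * 2 ^ L + ((l : ℕ) : ℤ)) * 2 ^ (K - L) ∧
    ((m : ℤ) * 2 ^ L + ((l : ℕ) : ℤ)) * 2 ^ (K - L) < ((m : ℤ) + 1) * 2 ^ K := by
  have h1 : (2 : ℤ) ^ K = 2 ^ L * 2 ^ (K - L) := by
    rw [← pow_add]
    congr 1
    omega
  have h2 : (0 : ℤ) < 2 ^ (K - L) := by positivity
  have h3 : ((l : ℕ) : ℤ) < 2 ^ L := by exact_mod_cast l.2
  have h4 : (0 : ℤ) ≤ ((l : ℕ) : ℤ) := by positivity
  rw [h1]
  constructor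
  · nlinarith
  · have : ((m : ℤ) + 1) * (2 ^ L * 2 ^ (K - L)) - ((m : ℤ) * 2 ^ L + ((l : ℕ) : ℤ)) * 2 ^ (K - L) =
        (2 ^ L - ((l : ℕ) : ℤ)) * 2 ^ (K - L) := by ring
    have h5 : 0 < (2 ^ L - ((l : ℕ) : ℤ)) * 2 ^ (K - L) := mul_pos (by linarith) h2
    linarith

private theorem pf12_inj {lv M : ℕ → ℕ} {K : ℕ} (q q' : QQ lv M)
    (h1 : lv (stg M q.1) + 1 ≤ K) (h2 : lv (stg M q'.1) + 1 ≤ K)
    (he : ((((q.1 : ℕ) : ℤ) * 2 ^ (lv (stg M q.1) + 1) + ((q.2 : ℕ) : ℤ)) *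
        2 ^ (K - (lv (stg M q.1) + 1))) =
      ((((q'.1 : ℕ) : ℤ) * 2 ^ (lv (stg M q'.1) + 1) + ((q'.2 : ℕ) : ℤ)) *
        2 ^ (K - (lv (stg M q'.1) + 1)))) : q = q' := by
  obtain ⟨⟨m, hm⟩, l⟩ := q
  obtain ⟨⟨m', hm'⟩, l'⟩ := q'
  simp only at h1 h2 he l l'
  obtain ⟨r1, r2⟩ := pf12_range (m := m) l h1
  obtain ⟨r3, r4⟩ := pf12_range (m := m') l' h2
  have hK : (0 : ℤ) < 2 ^ K := by positivity
  have e1 : m = m' := by
    have a1 : (m : ℤ) * 2 ^ K < ((m' : ℤ) + 1) * 2 ^ K := by linarith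
    have a2 : (m' : ℤ) * 2 ^ K < ((m : ℤ) + 1) * 2 ^ K := by linarith
    have a3 := lt_of_mul_lt_mul_right a1 hK.le
    have a4 := lt_of_mul_lt_mul_right a2 hK.le
    omega
  subst e1
  have h3 : (0 : ℤ) < 2 ^ (K - (lv (stg M m) + 1)) := by positivity
  have h4 := mul_right_cancel₀ h3.ne' he
  have h5 : (l : ℕ) = (l' : ℕ) := by
    have : ((l : ℕ) : ℤ) = ((l' : ℕ) : ℤ) := by linarith
    exact_mod_cast this
  have h6 : l = l' := Fin.ext h5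
  rw [h6]

private theorem pf12_disj {Ω : ℕ → ℝ → ℝ} {lv : ℕ → ℕ} {δ : ℕ → ℝ} (hΩ : Sq Ω lv δ)
    (hδ : Antitone δ) (hpos : ∀ i, 0 < δ i) (hle : ∀ i, δ i ≤ 1 / 1000) (hsep : WSep δ)
    {M : ℕ → ℕ} (h : Lev M) (q q' : QQ lv M) (hne : q ≠ q') (hm : (q.1 : ℕ) ≤ q'.1) :
    Disjoint (bigI (pp lv M q) (dd lv M δ q)) (bigI (pp lv M q') (dd lv M δ q')) := by
  rcases le_or_gt ((q.1 : ℕ) + 2) q'.1 with hc | hc
  · rw [Set.disjoint_left]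
    intro x hx hx'
    obtain ⟨_, h2⟩ := pf12_bigI (pf12_pos q) (hle _) hx
    obtain ⟨h3, _⟩ := pf12_bigI (pf12_pos q') (hle _) hx'
    have h4 := pf12_close (E := 0) (t := 1) (pf12_pos q) (pp_mem lv M q).2 (pp_mem lv M q').1 h2 h3
      (one_mul x).symm one_pos (by norm_num)
    omega
  · set m₀ : ℕ := (q.1 : ℕ) - 1 with hm₀
    have s1 : stg M q.1 ≤ stg M m₀ + 1 :=
      (stg_mono h (by omega)).trans (stg_add_le h m₀)
    have s2 : stg M q'.1 ≤ stg M m₀ + 1 :=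
      (stg_mono h (by omega)).trans (stg_add_le h m₀)
    obtain ⟨c1, c2, c3, c4⟩ := pf12_core hΩ hδ hpos h m₀ q (by omega) s1
    obtain ⟨d1, d2, d3, d4⟩ := pf12_core hΩ hδ hpos h m₀ q' (by omega) s2
    rw [c1, d1]
    have key := hsep (lv (stg M m₀)) _ _ 0 _ _ (by simp)
      (Or.inr fun he => hne (pf12_inj q q' c2 d2 he)) c3 c4 d3 d4
    have himg : ∀ S : Set ℝ, (fun z => uu ^ (0 : ℤ) * z) '' S = S := by
      intro S
      simp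
    rwa [himg] at key

/-- Octaves `m < m'` with `m' ≥ m + 2`: ratio of the corners at least `2`... (`> 1.02/0.98`).
Otherwise `i = lv (stg (min m m' - 1))`: both corners are of level `≤ i + 2` (`stg_add_le`,
`lv_step`, `cor_level`) and both widths are `≤ δ i`. -/
theorem pp_disj {Ω : ℕ → ℝ → ℝ} {lv : ℕ → ℕ} {δ : ℕ → ℝ} (hΩ : Sq Ω lv δ) (hδ : Antitone δ)
    (hpos : ∀ i, 0 < δ i) (hle : ∀ i, δ i ≤ 1 / 1000) (hsep : WSep δ) {M : ℕ → ℕ} (h : Lev M) :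
    Pairwise fun q q' : QQ lv M => Disjoint (bigI (pp lv M q) (dd lv M δ q))
      (bigI (pp lv M q') (dd lv M δ q')) := by
  intro q q' hne
  rcases le_total (q.1 : ℕ) q'.1 with hm | hm
  · exact pf12_disj hΩ hδ hpos hle hsep h q q' hne hm
  · exact (pf12_disj hΩ hδ hpos hle hsep h q' q hne.symm hm).symm

/-- If the two intervals meet then the octaves differ by at most `D = 2 |e| + 2`; for large `m`
use `stg_add_le_eventually` and `WSep` with `i = lv (stg (min m m' - 1)) ≥ |e|`. -/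
theorem pp_iso {Ω : ℕ → ℝ → ℝ} {lv : ℕ → ℕ} {δ : ℕ → ℝ} (hΩ : Sq Ω lv δ) (hδ : Antitone δ)
    (hpos : ∀ i, 0 < δ i) (hle : ∀ i, δ i ≤ 1 / 1000) (hsep : WSep δ) {M : ℕ → ℕ} (h : Lev M)
    (e : ℤ) (he : e ≠ 0) : ∀ᶠ q in cofinite, ∀ q' : QQ lv M,
      Disjoint ((fun z => uu ^ e * z) '' bigI (pp lv M q) (dd lv M δ q))
        (bigI (pp lv M q') (dd lv M δ q')) := by
  set D : ℕ := 2 * e.natAbs + 1 with hD
  have ev1 := stg_add_le_eventually h (D + 1)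
  have ev2 : ∀ᶠ m in atTop, e.natAbs ≤ lv (stg M m) :=
    (hΩ.lv_tend.comp (stg_tendsto h)).eventually_ge_atTop _
  obtain ⟨N, hN⟩ := eventually_atTop.1 (ev1.and ev2)
  filter_upwards [(pp_tendsto lv M).eventually_ge_atTop (2 ^ (N + D + 2))] with q hq q'
  have hm : N + D + 1 ≤ (q.1 : ℕ) := by
    have h1 : (2 : ℝ) ^ (N + D + 2) < 2 ^ ((q.1 : ℕ) + 1) := lt_of_le_of_lt hq (pp_mem lv M q).2
    have h2 := (pow_lt_pow_iff_right₀ (by norm_num : (1 : ℝ) < 2)).1 h1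
    omega
  rw [Set.disjoint_left]
  rintro y ⟨x, hx, hxy⟩ hy
  have hxy' : uu ^ e * x = y := hxy
  obtain ⟨x1, x2⟩ := pf12_bigI (pf12_pos q) (hle _) hx
  obtain ⟨y1, y2⟩ := pf12_bigI (pf12_pos q') (hle _) hy
  obtain ⟨u1, u2⟩ := pf12_uu e
  obtain ⟨v1, v2⟩ := pf12_uu (-e)
  rw [Int.natAbs_neg] at v2
  have c1 : (q'.1 : ℕ) ≤ q.1 + (2 * e.natAbs + 1) :=
    pf12_close (pf12_pos q) (pp_mem lv M q).2 (pp_mem lv M q').1 x2 y1 hxy'.symm u1 u2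
  have c2 : (q.1 : ℕ) ≤ q'.1 + (2 * e.natAbs + 1) := by
    refine pf12_close (pf12_pos q') (pp_mem lv M q').2 (pp_mem lv M q).1 y2 x1 ?_ v1 v2
    rw [← hxy', zpow_neg, inv_mul_cancel_left₀ u1.ne']
  set m₀ : ℕ := min (q.1 : ℕ) q'.1 - 1 with hm₀
  obtain ⟨n1, n2⟩ := hN m₀ (by omega)
  have s1 : stg M q.1 ≤ stg M m₀ + 1 := (stg_mono h (by omega)).trans n1
  have s2 : stg M q'.1 ≤ stg M m₀ + 1 := (stg_mono h (by omega)).trans n1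
  obtain ⟨c1, c2, c3, c4⟩ := pf12_core hΩ hδ hpos h m₀ q (by omega) s1
  obtain ⟨d1, d2, d3, d4⟩ := pf12_core hΩ hδ hpos h m₀ q' (by omega) s2
  rw [c1] at hx
  rw [d1] at hy
  exact Set.disjoint_left.1 (hsep (lv (stg M m₀)) _ _ e _ _ n2 (Or.inl he) c3 c4 d3 d4)
    ⟨x, hx, hxy⟩ hy

end GD31
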