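import Pool.Agent.LibGD31.PF9
import Pool.Agent.LibGD31.PF10
import Pool.Agent.LibGD31.PF12

/-! # PF: existence of the profile -/

open Filter Topology Set

namespace GD31

/-- the odd extension -/
def pf_odd (a : ℝ) (g : ℝ → ℝ) : ℝ → ℝ := fun z => a * (g z - g (-z))

theorem pf_sm {a : ℝ} {g : ℝ → ℝ} (hg : Sm g) : Sm (pf_odd a g) :=
  contDiff_const.mul (hg.sub (hg.comp contDiff_neg))

theorem pf_at {g : ℝ → ℝ} (hg : Sm g) (i : ℕ) (z : ℝ) : ContDiffAt ℝ i g z :=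
  (hg.of_le (by exact_mod_cast le_top)).contDiffAt

theorem pf_iter {a : ℝ} {g : ℝ → ℝ} (hg : Sm g) (i : ℕ) (z : ℝ) :
    iteratedDeriv i (pf_odd a g) z =
      a * (iteratedDeriv i g z - (-1) ^ i * iteratedDeriv i g (-z)) := by
  have h1 : pf_odd a g = fun z => a * (fun z => g z - g (-z)) z := rfl
  have h2 : Sm (fun z => g (-z)) := hg.comp contDiff_neg
  rw [h1, iteratedDeriv_const_mul_field, iteratedDeriv_fun_sub (pf_at hg i z) (pf_at h2 i z),
    iteratedDeriv_comp_neg, smul_eq_mul]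

theorem pf_zero {g : ℝ → ℝ} (h0 : ∀ z ≤ 1, g z = 0) (i : ℕ) {z : ℝ} (hz : z < 1) :
    iteratedDeriv i g z = 0 := by
  have h1 : g =ᶠ[𝓝 z] fun _ => 0 :=
    Filter.eventually_of_mem (Iio_mem_nhds hz) fun x hx => h0 x (le_of_lt hx)
  rw [h1.iteratedDeriv_eq i, iteratedDeriv_const]
  split_ifs <;> rfl

theorem pf_pos {a : ℝ} {g : ℝ → ℝ} (hg : Sm g) (h0 : ∀ z ≤ 1, g z = 0) (i : ℕ) {z : ℝ}
    (hz : -1 < z) : iteratedDeriv i (pf_odd a g) z = a * iteratedDeriv i g z := by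
  rw [pf_iter hg, pf_zero h0 i (by linarith : -z < 1)]
  ring

theorem pf_neg {a : ℝ} {g : ℝ → ℝ} (hg : Sm g) (h0 : ∀ z ≤ 1, g z = 0) (i : ℕ) {z : ℝ}
    (hz : z < 1) :
    iteratedDeriv i (pf_odd a g) z = a * (-(-1) ^ i * iteratedDeriv i g (-z)) := by
  rw [pf_iter hg, pf_zero h0 i hz]
  ring

theorem pf_abs {a : ℝ} {g : ℝ → ℝ} (hg : Sm g) (h0 : ∀ z ≤ 1, g z = 0) (i : ℕ) (z : ℝ) :
    |iteratedDeriv i (pf_odd a g) z| = |a| * |iteratedDeriv i g (|z|)| := by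
  rcases le_total 0 z with hz | hz
  · rw [pf_pos hg h0 i (by linarith), abs_of_nonneg hz, abs_mul]
  · rw [pf_neg hg h0 i (by linarith), abs_of_nonpos hz, abs_mul, abs_mul, abs_neg, abs_pow,
      abs_neg, abs_one, one_pow, one_mul]

theorem pf_ne {a : ℝ} {g : ℝ → ℝ} (hg : Sm g) (h0 : ∀ z ≤ 1, g z = 0) (i : ℕ) {z : ℝ}
    (h : iteratedDeriv i (pf_odd a g) z ≠ 0) : iteratedDeriv i g (|z|) ≠ 0 := by
  intro h1
  apply h
  rw [← abs_eq_zero, pf_abs hg h0, h1, abs_zero, mul_zero]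

theorem pf_tendsto {a c : ℝ} {g : ℝ → ℝ} (hg : Sm g) (h0 : ∀ z ≤ 1, g z = 0) (i : ℕ)
    (h : Tendsto (fun z => z ^ (1 + i) * iteratedDeriv i g z) atTop (𝓝 c)) :
    Tendsto (fun z => z ^ (1 + i) * iteratedDeriv i (pf_odd a g) z) (cocompact ℝ)
      (𝓝 (a * c)) := by
  rw [cocompact_eq_atBot_atTop, tendsto_sup]
  constructor
  · have h1 : Tendsto (fun z : ℝ => a * ((-z) ^ (1 + i) * iteratedDeriv i g (-z))) atBot
        (𝓝 (a * c)) := (h.comp tendsto_neg_atBot_atTop).const_mul a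
    refine h1.congr' ?_
    filter_upwards [eventually_lt_atBot (1 : ℝ)] with z hz
    rw [pf_neg hg h0 i hz, neg_pow z]
    ring
  · refine (h.const_mul a).congr' ?_
    filter_upwards [eventually_gt_atTop (-1 : ℝ)] with z hz
    rw [pf_pos hg h0 i hz]
    ring

theorem pf_tau (a : ℝ) (g : ℝ → ℝ) (j : ℕ) : tau (pf_odd a g) j = pf_odd a (tau g j) := by
  funext z
  simp only [tau, pf_odd, mul_neg]
  ring

theorem pf_tau_sm {g : ℝ → ℝ} (hg : Sm g) (j : ℕ) : Sm (tau g j) := by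
  unfold tau
  exact (contDiff_const.mul hg).sub
    (contDiff_const.mul (hg.comp (contDiff_const.mul contDiff_id)))

theorem pf_tau_zero {g : ℝ → ℝ} (h0 : ∀ z ≤ 1, g z = 0) (j : ℕ) : ∀ z ≤ 1, tau g j z = 0 := by
  intro z hz
  have h1 : ((2 : ℝ) ^ j)⁻¹ * z ≤ 1 := by
    have h2 : (1 : ℝ) ≤ 2 ^ j := one_le_pow₀ (by norm_num)
    rw [inv_mul_le_iff₀ (by positivity)]
    linarith
  unfold tau
  rw [h0 z hz, h0 _ h1]
  ring

theorem pf_ev {P : ℝ → Prop} (h : ∀ᶠ z in atTop, P z) : ∀ᶠ z in cocompact ℝ, P (|z|) :=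
  (tendsto_norm_cocompact_atTop (E := ℝ)).eventually h

theorem pf_le {g : ℝ → ℝ} (h0 : ∀ z ≤ 1, g z = 0) {ε : ℝ} (hε : 0 ≤ ε) (i : ℕ)
    (h : ∀ z, 0 < z → |iteratedDeriv i g z| ≤ ε * z ^ (-((7 / 8 : ℝ) + i))) (z : ℝ) :
    |iteratedDeriv i g z| ≤ ε := by
  rcases lt_or_ge z 1 with hz | hz
  · rw [pf_zero h0 i hz, abs_zero]
    exact hε
  · have h1 : z ^ (-((7 / 8 : ℝ) + i)) ≤ 1 :=
      Real.rpow_le_one_of_one_le_of_nonpos hz (by
        have : (0 : ℝ) ≤ i := Nat.cast_nonneg i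
        linarith)
    calc |iteratedDeriv i g z| ≤ ε * z ^ (-((7 / 8 : ℝ) + i)) := h z (by linarith)
      _ ≤ ε * 1 := mul_le_mul_of_nonneg_left h1 hε
      _ = ε := mul_one ε

/-- `w z = a * (wp z - wp (-z))` with `δ` from `exists_widths`, `Ω, lv` from `exists_Sq`, and
`M` from `exists_Lev` for the maximum of the lower bounds of `wp_bound` (with
`ε = 1 / (100 (|a| + 1))`) and `dd_low`; `Q = QQ lv M`, `p = pp`, `δ = dd`. -/
theorem exists_profile (a : ℝ) : ∃ (w : ℝ → ℝ) (M : ℕ → ℕ) (Q : Type) (p δ : Q → ℝ),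
    Countable Q ∧ PD a w M p δ := by
  obtain ⟨δ, hanti, hpos, hle, hsmall, hsep⟩ := exists_widths
  obtain ⟨Ω, lv, hΩ⟩ := exists_Sq hanti hpos hsmall
  obtain ⟨ε, hε⟩ : ∃ ε : ℝ, ε = 1 / (100 * (|a| + 1)) := ⟨_, rfl⟩
  have ha1 : 0 < |a| + 1 := by positivity
  have hε0 : 0 < ε := by
    rw [hε]
    positivity
  have haε : |a| * ε ≤ 1 / 100 := by
    rw [hε, mul_one_div, div_le_div_iff₀ (by positivity) (by norm_num)]
    linarith
  obtain ⟨m1, hm1⟩ := wp_bound hΩ hε0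
  obtain ⟨m2, hm2⟩ := dd_low hΩ hanti hpos
  obtain ⟨M, hM, hmM⟩ := exists_Lev fun s => max (m1 s) (m2 s)
  have hM1 : ∀ s, m1 s ≤ M s := fun s => (le_max_left _ _).trans (hmM s)
  have hM2 : ∀ s, m2 s ≤ M s := fun s => (le_max_right _ _).trans (hmM s)
  have hb := hm1 M hM hM1
  have hs : Sm (wp Ω M) := wp_smooth hΩ hM
  have h0 : ∀ z ≤ 1, wp Ω M z = 0 := fun z hz =>
    wp_zero hM (hz.trans (one_le_pow₀ (by norm_num)))
  have hbd : ∀ i ≤ 8, ∀ z, |iteratedDeriv i (pf_odd a (wp Ω M)) z| ≤ 1 / 100 := fun i hi z => by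
    rw [pf_abs hs h0]
    exact (mul_le_mul_of_nonneg_left (pf_le h0 hε0.le i (hb i hi) _) (abs_nonneg a)).trans haε
  refine ⟨pf_odd a (wp Ω M), M, QQ lv M, pp lv M, dd lv M δ, countable_QQ lv M, ?_⟩
  constructor
  · constructor
    · exact pf_sm hs
    · intro z
      have := hbd 0 (by norm_num) z
      rwa [iteratedDeriv_zero] at this
    · intro z
      have := hbd 1 (by norm_num) z
      rwa [iteratedDeriv_one] at this
    · intro z
      have := hbd 2 (by norm_num) z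
      rwa [iteratedDeriv_succ, iteratedDeriv_one] at this
    · refine ⟨pf_sm hs, |a| * ε, 1, by positivity, le_rfl, fun i hi z hz => ?_⟩
      rw [pf_abs hs h0, mul_assoc]
      exact mul_le_mul_of_nonneg_left (hb i hi _ (by linarith)) (abs_nonneg a)
  · intro z
    unfold pf_odd
    rw [neg_neg]
    ring
  · have h1 : Tendsto (fun z => z ^ (1 + 0) * iteratedDeriv 0 (wp Ω M) z) atTop (𝓝 1) := by
      simpa using (wp_asymp hΩ hM).1
    have h2 := pf_tendsto (a := a) hs h0 0 h1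
    simpa using h2
  · have h1 : Tendsto (fun z => z ^ (1 + 1) * iteratedDeriv 1 (wp Ω M) z) atTop (𝓝 (-1)) := by
      simpa using (wp_asymp hΩ hM).2
    have h2 := pf_tendsto (a := a) hs h0 1 h1
    simpa using h2
  · obtain ⟨L, hL⟩ := wp_integral hΩ hM
    refine ⟨a * L, (hL.const_mul a).congr' ?_⟩
    filter_upwards [eventually_ge_atTop (1 : ℝ)] with Z hZ
    rw [← intervalIntegral.integral_const_mul]
    refine intervalIntegral.integral_congr fun t ht => ?_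
    rw [uIcc_of_le hZ] at ht
    have h1 : wp Ω M (-t) = 0 := h0 _ (by linarith [ht.1])
    simp only [pf_odd]
    rw [h1]
    ring
  · exact hM.strictMono
  · exact hM.tendsto
  · intro j i hi
    rw [pf_tau]
    have h1 := pf_tendsto (a := a) (pf_tau_sm hs j) (pf_tau_zero h0 j) i
      (wp_tau_small hΩ hM j i hi)
    rwa [mul_zero] at h1
  · intro j
    filter_upwards [pf_ev (wp_tau_zero hΩ hM j)] with z hz hne
    apply hz
    rw [pf_tau] at hne
    have h1 := pf_ne (a := a) (pf_tau_sm hs j) (pf_tau_zero h0 j) 0 (z := z)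
      (by rwa [iteratedDeriv_zero])
    rwa [iteratedDeriv_zero] at h1
  · intro q
    exact (one_le_pow₀ (by norm_num)).trans (pp_mem lv M q).1
  · exact pp_tendsto lv M
  · exact fun q => hpos _
  · exact fun q => hle _
  · exact hm2 M hM hM2
  · filter_upwards [pf_ev (wp_sec hΩ hanti hpos hle hM)] with z hz hne
    apply hz
    have h1 := pf_ne (a := a) hs h0 2 (z := z)
      (by rwa [iteratedDeriv_succ, iteratedDeriv_one])
    rwa [iteratedDeriv_succ, iteratedDeriv_one] at h1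
  · filter_upwards [eventually_ge_atTop (M 0)] with m hm
    exact pp_pow_two lv M m hm
  · exact pp_disj hΩ hanti hpos hle hsep hM
  · exact pp_iso hΩ hanti hpos hle hsep hM

end GD31
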