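import Pool.Agent.LibGD31.FN9
import Pool.Agent.LibGD31.PF
import Pool.Agent.LibGD31.AB4
import Pool.Agent.LibGD31.GI3
import Pool.Agent.LibGC45.F2

/-! # Main: parabolic `C⁴` germs with nonzero second derivative are distortion elements of `G²` -/

open Filter Topology Set

namespace GD31

open GermDist46

theorem main_gInf_Tp {w : ℝ → ℝ} (hw : Prof w) : GInf 1 1 (Tp w) := by
  have h := Cl.mul hw (Cl.B hw) (Cl.F hw)
  rw [add_zero] at h
  exact gInf_of_Cl hw h

theorem main_tendsto_abs {F : ℝ → ℝ} (h : GInf 1 1 F) :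
    Tendsto (fun z => |F z|) (cocompact ℝ) atTop := by
  have h1 : ∀ᶠ z in cocompact ℝ, |F z - 1 * z - 1| < 1 := by
    have := (Metric.tendsto_nhds.1 h.f0) 1 one_pos
    filter_upwards [this] with z hz
    rwa [Real.dist_eq, sub_zero] at hz
  have h2 : Tendsto (fun z : ℝ => |z| - 2) (cocompact ℝ) atTop := by
    have h5 : Tendsto (fun z : ℝ => |z|) (cocompact ℝ) atTop := tendsto_norm_cocompact_atTop (E := ℝ)
    exact tendsto_atTop_add_const_right _ (-2) h5
  refine tendsto_atTop_mono' _ ?_ h2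
  filter_upwards [h1] with z hz
  have h3 := abs_lt.1 hz
  have h4 : |z| ≤ |F z| + 2 := by
    have e : z = F z - (F z - 1 * z - 1) - 1 := by ring
    calc |z| = |F z - (F z - 1 * z - 1) - 1| := by rw [← e]
      _ ≤ |F z - (F z - 1 * z - 1)| + |(1:ℝ)| := abs_sub _ _
      _ ≤ |F z| + |F z - 1 * z - 1| + |(1:ℝ)| := by gcongr; exact abs_sub _ _
      _ ≤ |F z| + 2 := by rw [abs_one]; linarith
  linarith

/-- normalised case: `f = x - x² + …` -/
theorem distorted_of_normal {f : ℝ → ℝ} (hf : ContDiffAt ℝ 4 f 0) (h0 : f 0 = 0)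
    (h1 : deriv f 0 = 1) (h2 : iteratedDeriv 2 f 0 = -2) {g : GermGroup 2}
    (hg : Represents g f) : IsDistortionElement g := by
  obtain ⟨w, M, Q, p, δ, hQ, hPD⟩ := exists_profile (1 - iteratedDeriv 3 f 0 / 6)
  obtain ⟨φ, hφ, hconj⟩ := conj_two_sided hf h0 h1 h2 rfl hPD.prof hPD.odd hPD.lim0 hPD.lim1
    hPD.int
  have hT := main_gInf_Tp hPD.prof
  obtain ⟨hcd, hder⟩ := hT.cv_contDiffAt
  obtain ⟨h, hh⟩ := exists_germ (f := cv (Tp w)) hcd (by simp [cv]) (by
    rw [hder.deriv]; norm_num)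
  obtain ⟨c, hc⟩ := conj_of_eventually hg hh hφ (main_tendsto_abs hT) hconj
  rw [hc]
  have h3 := GC45.distortion_conj c⁻¹ h (Tp_distorted hPD hh)
  simpa using h3

theorem main_linear (t : ℝ) (ht : t ≠ 0) : ∃ d : GermGroup 2, Represents d (fun x => t * x) := by
  refine exists_germ (contDiffAt_const.mul contDiffAt_id) (by simp) ?_
  have : HasDerivAt (fun x : ℝ => t * x) t 0 := by
    simpa using (hasDerivAt_id (0:ℝ)).const_mul t
  rw [this.deriv]
  exact ht

/-- **Theorem A.** Reduction: `f₀ x = t⁻¹ f (t x)`, `t = -2 / f''(0)`. -/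
theorem distorted_of_parabolic {f : ℝ → ℝ} (hf : ContDiffAt ℝ 4 f 0) (h0 : f 0 = 0)
    (h1 : deriv f 0 = 1) (h2 : iteratedDeriv 2 f 0 ≠ 0) {g : GermGroup 2}
    (hg : Represents g f) : IsDistortionElement g := by
  obtain ⟨t, ht⟩ : ∃ t, t = -2 / iteratedDeriv 2 f 0 := ⟨_, rfl⟩
  have ht0 : t ≠ 0 := by rw [ht]; exact div_ne_zero (by norm_num) h2
  obtain ⟨d, hd⟩ := main_linear t ht0
  obtain ⟨d', hd'⟩ := main_linear t⁻¹ (inv_ne_zero ht0)
  have hone : ∀ x : ℝ, ((fun x => t * x) ∘ (fun x => t⁻¹ * x)) x = x := by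
    intro x; simp only [Function.comp_apply]; field_simp
  -- `d * d' = 1`
  have hdd : d * d' = 1 := by
    have h3 : Represents (1 : GermGroup 2) (fun x => x) := ⟨1, rfl, rfl⟩
    exact represents_unique' (represents_mul hd hd') h3 (Eventually.of_forall hone)
  have hd'eq : d' = d⁻¹ := (inv_eq_of_mul_eq_one_right hdd).symm
  -- the conjugated germ
  have hrep : Represents (d' * g * d) (fun x => t⁻¹ * f (t * x)) := by
    have h3 : Represents (d' * g) ((fun x => t⁻¹ * x) ∘ f) := represents_mul hd' hg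
    have h4 : Represents (d' * g * d) (((fun x => t⁻¹ * x) ∘ f) ∘ (fun x => t * x)) :=
      represents_mul (f := (fun x => t⁻¹ * x) ∘ f) h3 hd
    exact h4
  have hderiv : ∀ x, deriv (fun x => t⁻¹ * f (t * x)) x = deriv f (t * x) := by
    intro x
    rw [deriv_const_mul_field, deriv_comp_mul_left, smul_eq_mul, ← mul_assoc, inv_mul_cancel₀ ht0,
      one_mul]
  have hd1 : deriv (fun x => t⁻¹ * f (t * x)) 0 = 1 := by
    rw [hderiv, mul_zero, h1]
  have hd2 : iteratedDeriv 2 (fun x => t⁻¹ * f (t * x)) 0 = -2 := by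
    have e1 : iteratedDeriv 2 f 0 = deriv (deriv f) 0 := by
      rw [iteratedDeriv_succ, iteratedDeriv_one]
    rw [iteratedDeriv_succ, iteratedDeriv_one, funext hderiv, deriv_comp_mul_left, mul_zero,
      smul_eq_mul, ← e1, ht]
    field_simp
  have hcont : ContDiffAt ℝ 4 (fun x => t⁻¹ * f (t * x)) 0 := by
    refine contDiffAt_const.mul ?_
    have h4 : ContDiffAt ℝ 4 (fun x : ℝ => t * x) 0 := contDiffAt_const.mul contDiffAt_id
    have h5 : ContDiffAt ℝ 4 f (t * 0) := by rw [mul_zero]; exact hf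
    exact h5.comp (0:ℝ) h4
  have h6 := distorted_of_normal hcont (by simp [h0]) hd1 hd2 hrep
  have h7 := GC45.distortion_conj d _ h6
  rw [hd'eq] at h7
  have e2 : d * (d⁻¹ * g * d) * d⁻¹ = g := by group
  rwa [e2] at h7

end GD31
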