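import Pool.Agent.LibGD31.Defs

/-! # OB1: algebra of the classes Ob -/

open Filter Topology Set

namespace GD31

variable {k : ℕ} {p q : ℝ} {f g : ℝ → ℝ}

private theorem ob1_cd (h : Sm f) (i : ℕ) (z : ℝ) : ContDiffAt ℝ i f z :=
  (h.of_le (by exact_mod_cast le_top)).contDiffAt

private theorem ob1_deriv (h : Sm f) : Sm (deriv f) := (contDiff_infty_iff_deriv.1 h).2

/-- common constants -/
private theorem ob1_raise {C C' R R' : ℝ} (hC : C ≤ C') (hR : R ≤ R')
    (h : ∀ i ≤ k, ∀ z, R ≤ |z| → |iteratedDeriv i f z| ≤ C * |z| ^ (-(p + i))) :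
    ∀ i ≤ k, ∀ z, R' ≤ |z| → |iteratedDeriv i f z| ≤ C' * |z| ^ (-(p + i)) := by
  intro i hi z hz
  have h1 : 0 ≤ |z| ^ (-(p + i)) := Real.rpow_nonneg (abs_nonneg z) _
  exact (h i hi z (hR.trans hz)).trans (mul_le_mul_of_nonneg_right hC h1)

theorem Ob.mono (h : Ob k p f) {k' : ℕ} {p' : ℝ} (hk : k' ≤ k) (hp : p' ≤ p) : Ob k' p' f := by
  obtain ⟨C, R, hC, hR, hb⟩ := h.bound
  refine ⟨h.smooth, C, R, hC, hR, fun i hi z hz => ?_⟩
  refine (hb i (hi.trans hk) z hz).trans (mul_le_mul_of_nonneg_left ?_ hC)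
  exact Real.rpow_le_rpow_of_exponent_le (hR.trans hz) (by linarith)

theorem Ob.add (h : Ob k p f) (h' : Ob k p g) : Ob k p (fun z => f z + g z) := by
  obtain ⟨C, R, hC, hR, hb⟩ := h.bound
  obtain ⟨C', R', hC', hR', hb'⟩ := h'.bound
  refine ⟨h.smooth.add h'.smooth, C + C', max R R', by positivity, hR.trans (le_max_left _ _),
    fun i hi z hz => ?_⟩
  rw [iteratedDeriv_fun_add (ob1_cd h.smooth i z) (ob1_cd h'.smooth i z)]
  have h1 := hb i hi z ((le_max_left _ _).trans hz)
  have h2 := hb' i hi z ((le_max_right _ _).trans hz)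
  have h3 := abs_add_le (iteratedDeriv i f z) (iteratedDeriv i g z)
  rw [add_mul]
  linarith

theorem Ob.const_mul (h : Ob k p f) (c : ℝ) : Ob k p (fun z => c * f z) := by
  obtain ⟨C, R, hC, hR, hb⟩ := h.bound
  refine ⟨contDiff_const.mul h.smooth, |c| * C, R, by positivity, hR, fun i hi z hz => ?_⟩
  rw [iteratedDeriv_const_mul_field, abs_mul, mul_assoc]
  exact mul_le_mul_of_nonneg_left (hb i hi z hz) (abs_nonneg c)

theorem Ob.sub (h : Ob k p f) (h' : Ob k p g) : Ob k p (fun z => f z - g z) := by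
  have h1 := h.add (h'.const_mul (-1))
  have h2 : (fun z => f z - g z) = fun z => f z + -1 * g z := by
    funext z
    ring
  rw [h2]
  exact h1

theorem Ob.mul (h : Ob k p f) (h' : Ob k q g) : Ob k (p + q) (fun z => f z * g z) := by
  obtain ⟨C, R, hC, hR, hb⟩ := h.bound
  obtain ⟨C', R', hC', hR', hb'⟩ := h'.bound
  refine ⟨h.smooth.mul h'.smooth, 2 ^ k * (C * C'), max R R', by positivity,
    hR.trans (le_max_left _ _), fun i hi z hz => ?_⟩
  rw [iteratedDeriv_fun_mul (ob1_cd h.smooth i z) (ob1_cd h'.smooth i z)]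
  have hz1 : 1 ≤ |z| := (hR.trans (le_max_left _ _)).trans hz
  have hz0 : 0 < |z| := by linarith
  calc |∑ j ∈ Finset.range (i + 1), (i.choose j : ℝ) * iteratedDeriv j f z *
        iteratedDeriv (i - j) g z|
      ≤ ∑ j ∈ Finset.range (i + 1), |(i.choose j : ℝ) * iteratedDeriv j f z *
        iteratedDeriv (i - j) g z| := Finset.abs_sum_le_sum_abs _ _
    _ ≤ ∑ j ∈ Finset.range (i + 1), (i.choose j : ℝ) * (C * C' * |z| ^ (-(p + q + i))) := by
        refine Finset.sum_le_sum fun j hj => ?_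
        have hj' : j ≤ i := by simpa [Nat.lt_succ_iff] using hj
        rw [abs_mul, abs_mul, Nat.abs_cast, mul_assoc]
        refine mul_le_mul_of_nonneg_left ?_ (Nat.cast_nonneg _)
        have h1 := hb j (hj'.trans hi) z ((le_max_left _ _).trans hz)
        have h2 := hb' (i - j) ((Nat.sub_le _ _).trans hi) z ((le_max_right _ _).trans hz)
        calc |iteratedDeriv j f z| * |iteratedDeriv (i - j) g z|
            ≤ (C * |z| ^ (-(p + j))) * (C' * |z| ^ (-(q + ((i - j : ℕ) : ℝ)))) :=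
              mul_le_mul h1 h2 (abs_nonneg _)
                (mul_nonneg hC (Real.rpow_nonneg (abs_nonneg z) _))
          _ = C * C' * (|z| ^ (-(p + j)) * |z| ^ (-(q + ((i - j : ℕ) : ℝ)))) := by ring
          _ = C * C' * |z| ^ (-(p + q + i)) := by
              rw [← Real.rpow_add hz0]
              congr 2
              rw [Nat.cast_sub hj']
              ring
    _ = 2 ^ i * (C * C' * |z| ^ (-(p + q + i))) := by
        rw [← Finset.sum_mul]
        congr 1
        exact_mod_cast Nat.sum_range_choose i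
    _ ≤ 2 ^ k * (C * C' * |z| ^ (-(p + q + i))) := by
        refine mul_le_mul_of_nonneg_right (pow_le_pow_right₀ (by norm_num) hi) ?_
        exact mul_nonneg (mul_nonneg hC hC') (Real.rpow_nonneg (abs_nonneg z) _)
    _ = 2 ^ k * (C * C') * |z| ^ (-(p + q + i)) := by ring

theorem Ob.const (k : ℕ) (c : ℝ) : Ob k 0 (fun _ => c) := by
  refine ⟨contDiff_const, |c|, 1, abs_nonneg c, le_rfl, fun i _ z _ => ?_⟩
  rw [iteratedDeriv_const]
  split_ifs with h
  · subst h
    simp
  · rw [abs_zero]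
    exact mul_nonneg (abs_nonneg c) (Real.rpow_nonneg (abs_nonneg z) _)

theorem Ob.derivative (h : Ob (k + 1) p f) : Ob k (p + 1) (deriv f) := by
  obtain ⟨C, R, hC, hR, hb⟩ := h.bound
  refine ⟨ob1_deriv h.smooth, C, R, hC, hR, fun i hi z hz => ?_⟩
  have h1 := hb (i + 1) (by omega) z hz
  rw [iteratedDeriv_succ'] at h1
  have h2 : -(p + 1 + (i : ℝ)) = -(p + ((i + 1 : ℕ) : ℝ)) := by
    push_cast
    ring
  rw [h2]
  exact h1

theorem Ob.of_deriv (hs : Sm f) (h0 : Ob 0 p f) (h : Ob k (p + 1) (deriv f)) : Ob (k + 1) p f := by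
  obtain ⟨C, R, hC, hR, hb⟩ := h0.bound
  obtain ⟨C', R', hC', hR', hb'⟩ := h.bound
  have hb2 := ob1_raise (le_add_of_nonneg_right hC' : C ≤ C + C') (le_max_left R R') hb
  have hb3 := ob1_raise (le_add_of_nonneg_left hC : C' ≤ C + C') (le_max_right R R') hb'
  refine ⟨hs, C + C', max R R', by positivity, hR.trans (le_max_left _ _), fun i hi z hz => ?_⟩
  rcases Nat.eq_zero_or_pos i with rfl | h1
  · exact hb2 0 le_rfl z hz
  · obtain ⟨j, rfl⟩ : ∃ j, i = j + 1 := ⟨i - 1, by omega⟩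
    have h2 := hb3 j (by omega) z hz
    rw [iteratedDeriv_succ']
    have h3 : -(p + ((j + 1 : ℕ) : ℝ)) = -(p + 1 + (j : ℝ)) := by
      push_cast
      ring
    rw [h3]
    exact h2

/-- `z ↦ f (r z)`, `r ≠ 0` -/
theorem Ob.scale (h : Ob k p f) {r : ℝ} (hr : r ≠ 0) : Ob k p (fun z => f (r * z)) := by
  obtain ⟨C, R, hC, hR, hb⟩ := h.bound
  have hr0 : 0 < |r| := abs_pos.2 hr
  refine ⟨h.smooth.comp (contDiff_const.mul contDiff_id), C * |r| ^ (-p), max 1 (R / |r|),
    by positivity, le_max_left _ _, fun i hi z hz => ?_⟩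
  have hz1 : 1 ≤ |z| := (le_max_left _ _).trans hz
  have hz0 : 0 < |z| := by linarith
  have h1 : R ≤ |r * z| := by
    rw [abs_mul, mul_comm]
    exact (div_le_iff₀ hr0).1 ((le_max_right _ _).trans hz)
  have h2 := hb i hi (r * z) h1
  have h3 : iteratedDeriv i (fun z => f (r * z)) z = r ^ i * iteratedDeriv i f (r * z) := by
    rw [iteratedDeriv_comp_const_mul (h.smooth.of_le (by exact_mod_cast le_top))]
  rw [h3, abs_mul, abs_pow]
  calc |r| ^ i * |iteratedDeriv i f (r * z)|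
      ≤ |r| ^ i * (C * |r * z| ^ (-(p + i))) :=
        mul_le_mul_of_nonneg_left h2 (by positivity)
    _ = C * (|r| ^ (i : ℝ) * |r| ^ (-(p + i))) * |z| ^ (-(p + i)) := by
        rw [abs_mul, Real.mul_rpow hr0.le hz0.le, Real.rpow_natCast]
        ring
    _ = C * |r| ^ (-p) * |z| ^ (-(p + i)) := by
        rw [← Real.rpow_add hr0]
        congr 3
        ring

/-- a smooth function vanishing outside a bounded set belongs to all classes -/
theorem Ob.of_compact (k : ℕ) (p : ℝ) (hs : Sm f) (hc : HasCompactSupport f) : Ob k p f := by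
  obtain ⟨R, hR⟩ := hc.isCompact.isBounded.subset_closedBall 0
  refine ⟨hs, 0, max 1 (R + 1), le_rfl, le_max_left _ _, fun i _ z hz => ?_⟩
  have h1 : z ∉ tsupport f := by
    intro h
    have h2 := hR h
    rw [Metric.mem_closedBall, Real.dist_0_eq_abs] at h2
    have h3 := (le_max_right _ _).trans hz
    linarith
  have h2 : f =ᶠ[𝓝 z] 0 := notMem_tsupport_iff_eventuallyEq.1 h1
  rw [h2.iteratedDeriv_eq i]
  have h3 : iteratedDeriv i (0 : ℝ → ℝ) z = 0 := iteratedDeriv_const_zero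
  rw [h3]
  simp

end GD31
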