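import Pool.Agent.LibGD31.CK

/-! # OS1: the kick [D, S_s]

Geometry (`x` base point, `w` window length): content `X = [x, x+w]`, kick window
`K = [x+w, x+2w]`, free room `[x+2w, x+3w]`, next window `X' = [x+3w, x+3w+w/4]`. -/

open Filter Topology Set

namespace GD31

/-- the bump of the small displacement -/
noncomputable def os1_sig (t : ℝ) : ℝ := Real.smoothTransition ((1 / 16 - t ^ 2) * (64 / 3))

/-- the cut-off function -/
noncomputable def os1_chi (t : ℝ) : ℝ := Real.smoothTransition ((49 / 256 - t ^ 2) * (256 / 13))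

/-- the linear bump -/
noncomputable def os1_th (t : ℝ) : ℝ := t * os1_chi t

theorem os1_sig_smooth : Sm os1_sig := by
  refine Real.smoothTransition.contDiff.comp ?_
  exact (contDiff_const.sub (contDiff_id.pow 2)).mul contDiff_const

theorem os1_th_smooth : Sm os1_th := by
  refine contDiff_id.mul (Real.smoothTransition.contDiff.comp ?_)
  exact (contDiff_const.sub (contDiff_id.pow 2)).mul contDiff_const

theorem os1_sq_le {t r : ℝ} (h : |t| ≤ r) : t ^ 2 ≤ r ^ 2 := by
  have h0 := abs_nonneg t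
  rw [← sq_abs t]
  exact pow_le_pow_left₀ h0 h 2

theorem os1_le_sq {t r : ℝ} (hr : 0 ≤ r) (h : r ≤ |t|) : r ^ 2 ≤ t ^ 2 := by
  rw [← sq_abs t]
  exact pow_le_pow_left₀ hr h 2

theorem os1_sig_one {t : ℝ} (h : |t| ≤ 1 / 8) : os1_sig t = 1 := by
  refine Real.smoothTransition.one_of_one_le ?_
  have := os1_sq_le h
  linarith

theorem os1_sig_zero {t : ℝ} (h : 1 / 4 ≤ |t|) : os1_sig t = 0 := by
  refine Real.smoothTransition.zero_of_nonpos ?_
  have := os1_le_sq (by norm_num) h
  linarith

theorem os1_sig_nonneg (t : ℝ) : 0 ≤ os1_sig t := Real.smoothTransition.nonneg _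

theorem os1_sig_le_one (t : ℝ) : os1_sig t ≤ 1 := Real.smoothTransition.le_one _

theorem os1_sig_anti {a b : ℝ} (h : |a| ≤ |b|) : os1_sig b ≤ os1_sig a := by
  refine Real.smoothTransition.monotone ?_
  have : a ^ 2 ≤ b ^ 2 := sq_le_sq.2 h
  linarith

theorem os1_chi_nonneg (t : ℝ) : 0 ≤ os1_chi t := Real.smoothTransition.nonneg _

theorem os1_th_id {t : ℝ} (h : |t| ≤ 3 / 8) : os1_th t = t := by
  have h1 : os1_chi t = 1 := by
    refine Real.smoothTransition.one_of_one_le ?_
    have := os1_sq_le h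
    linarith
  rw [os1_th, h1, mul_one]

theorem os1_th_zero {t : ℝ} (h : 7 / 16 ≤ |t|) : os1_th t = 0 := by
  have h1 : os1_chi t = 0 := by
    refine Real.smoothTransition.zero_of_nonpos ?_
    have := os1_le_sq (by norm_num) h
    linarith
  rw [os1_th, h1, mul_zero]

theorem os1_abs_le {t d : ℝ} (hd : 0 ≤ d) : |t| ≤ |t + d * os1_th t| := by
  have h1 : t + d * os1_th t = t * (1 + d * os1_chi t) := by
    rw [os1_th]
    ring
  have h2 : 1 ≤ 1 + d * os1_chi t := by
    have := mul_nonneg hd (os1_chi_nonneg t)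
    linarith
  rw [h1, abs_mul, abs_of_nonneg (zero_le_one.trans h2)]
  exact le_mul_of_one_le_right (abs_nonneg t) h2

theorem os1_compact {f : ℝ → ℝ} (h : ∀ t, 7 / 16 ≤ |t| → f t = 0) : HasCompactSupport f := by
  refine HasCompactSupport.intro (isCompact_Icc : IsCompact (Icc (-1 : ℝ) 1)) fun t ht => h t ?_
  by_contra hcon
  push Not at hcon
  apply ht
  have := abs_lt.1 hcon
  exact ⟨by linarith [this.1], by linarith [this.2]⟩

/-- unit scale: the order of `S D` and `D S` -/
theorem os1_order {y d s : ℝ} (hd : 0 ≤ d) (hs : |s| ≤ 1 / 16) :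
    (0 ≤ s → (y + d * os1_th y) + s * os1_sig (y + d * os1_th y) ≤
      (y + s * os1_sig y) + d * os1_th (y + s * os1_sig y)) ∧
    (s ≤ 0 → (y + s * os1_sig y) + d * os1_th (y + s * os1_sig y) ≤
      (y + d * os1_th y) + s * os1_sig (y + d * os1_th y)) := by
  have h1 := os1_abs_le (t := y) hd
  by_cases hy : 1 / 4 ≤ |y|
  · rw [os1_sig_zero hy, os1_sig_zero (hy.trans h1), mul_zero, add_zero, add_zero]
    exact ⟨fun _ => le_rfl, fun _ => le_rfl⟩
  · push Not at hy
    have h2 : os1_sig (y + d * os1_th y) ≤ os1_sig y := os1_sig_anti h1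
    have h3 : os1_th y = y := os1_th_id (hy.le.trans (by norm_num))
    have h4 : |y + s * os1_sig y| ≤ 3 / 8 := by
      have h5 : |s * os1_sig y| ≤ 1 / 16 := by
        rw [abs_mul, abs_of_nonneg (os1_sig_nonneg y)]
        calc |s| * os1_sig y ≤ |s| * 1 :=
              mul_le_mul_of_nonneg_left (os1_sig_le_one y) (abs_nonneg s)
          _ ≤ 1 / 16 := by linarith
      have := abs_add_le y (s * os1_sig y)
      linarith
    rw [os1_th_id h4]
    have h6 := os1_sig_nonneg y
    constructor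
    · intro hs0
      have h7 := mul_le_mul_of_nonneg_left h2 hs0
      rw [h3] at h7 ⊢
      have h8 : 0 ≤ d * (s * os1_sig y) := mul_nonneg hd (mul_nonneg hs0 h6)
      linarith [mul_add d y (s * os1_sig y)]
    · intro hs0
      have h7 := mul_le_mul_of_nonneg_left h2 (neg_nonneg.2 hs0)
      rw [h3] at h7 ⊢
      have h8 : 0 ≤ d * (-s * os1_sig y) := mul_nonneg hd (mul_nonneg (neg_nonneg.2 hs0) h6)
      have h9 : d * (-s * os1_sig y) = -(d * (s * os1_sig y)) := by ring
      have h10 : -s * os1_sig (y + d * y) = -(s * os1_sig (y + d * y)) := by ring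
      have h11 : -s * os1_sig y = -(s * os1_sig y) := by ring
      rw [h9] at h8
      rw [h10, h11] at h7
      linarith [mul_add d y (s * os1_sig y)]

/-- Unit scale, centre `0`: `θ` smooth, `θ t = t` for `|t| ≤ 3/8`, supported in `[-7/16, 7/16]`,
`t θ t ≥ 0`; `σ` smooth, even, `1` on `[-1/8, 1/8]`, supported in `[-1/4, 1/4]`, antitone in `|t|`.
`D t = t + d θ t`, `S_s t = t + s σ t`, `|s| ≤ 1/16`. For `s ≥ 0` and `y` with `σ y ≠ 0`:
`D (y + s σ y) = D y + (1 + d) s σ y ≥ D y + s σ (D y)` since `|D y| ≥ |y|`; hence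
`D S D⁻¹ ≥ S`, `cm D S ≥ id`; for `s ≤ 0` the reverse. On `|t| ≤ 1/16` both are affine and
`cm D S t = t + d s`. Norms: `cm_bound` (`k = 5`) and `Nl` of order `6` of `θ, σ`.
General `c, w`: conjugate by the affine map `t ↦ c + w t`. -/
theorem kick : ∃ C : ℝ, 1 ≤ C ∧ ∀ (c w d : ℝ), 0 < w → 0 < d → C * d ≤ 1 →
    ∃ (D : Pm) (S : ℝ → Pm),
      Supp D (Icc (c - w / 2) (c + w / 2)) ∧ Nl 5 (C * d * w) w (disp D) ∧
      (∀ s : ℝ, C * |s| ≤ 1 →
        Supp (S s) (Icc (c - w / 2) (c + w / 2)) ∧ Nl 5 (C * |s| * w) w (disp (S s)) ∧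
        Nl 5 (C * |s| * d * w) w (disp (cm D (S s))) ∧
        Nl 5 (C * |s| * d * w) w (disp (cm D (S s))⁻¹) ∧
        (0 ≤ s → ∀ x, x ≤ cm D (S s) x) ∧ (s ≤ 0 → ∀ x, cm D (S s) x ≤ x) ∧
        (∀ x, |x - c| ≤ w / 16 → cm D (S s) x = x + d * s * w)) ∧
      ContinuousOn (fun p : ℝ × ℝ => (cm D (S p.1))⁻¹ p.2) (Icc (-1 / C) (1 / C) ×ˢ univ) := by
  classical
  obtain ⟨C1, hC1, hN1⟩ := exists_Nl_of_compact 6 os1_th_smooth
    (os1_compact fun t ht => os1_th_zero ht)
  obtain ⟨C2, hC2, hN2⟩ := exists_Nl_of_compact 6 os1_sig_smooth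
    (os1_compact fun t ht => os1_sig_zero (le_trans (by norm_num) ht))
  obtain ⟨E1, hE1, hperm⟩ := exists_perm 6 (by norm_num)
  obtain ⟨E2, hE2, hcm⟩ := cm_bound 5 (by norm_num)
  -- the constant
  set C0 : ℝ := C1 + C2 with hC0
  have hC01 : C1 ≤ C0 := by linarith
  have hC02 : C2 ≤ C0 := by linarith
  have hC0p : 1 ≤ C0 := by linarith
  set C : ℝ := 16 * (E1 + E2) * C0 ^ 2 with hCdef
  have hE : 2 ≤ E1 + E2 := by linarith
  have hC0sq : C0 ≤ C0 ^ 2 := by nlinarith
  have hC16 : 16 ≤ C := by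
    rw [hCdef]
    nlinarith [mul_le_mul hE (hC0p.trans hC0sq) zero_le_one (by linarith)]
  have hCC0 : 2 * C0 ≤ C := by
    rw [hCdef]
    nlinarith
  have hCE1 : E1 * C0 ≤ C := by
    have h1 : E1 * C0 ≤ (E1 + E2) * C0 ^ 2 :=
      mul_le_mul (by linarith) hC0sq (by linarith) (by linarith)
    rw [hCdef]
    nlinarith [mul_nonneg (by linarith : 0 ≤ E1 + E2) (sq_nonneg C0)]
  have hCE2 : E2 * C0 ≤ C := by
    have h1 : E2 * C0 ≤ (E1 + E2) * C0 ^ 2 :=
      mul_le_mul (by linarith) hC0sq (by linarith) (by linarith)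
    rw [hCdef]
    nlinarith [mul_nonneg (by linarith : 0 ≤ E1 + E2) (sq_nonneg C0)]
  have hCE3 : E2 * C0 ^ 2 ≤ C := by
    rw [hCdef]
    nlinarith [mul_nonneg (by linarith : 0 ≤ E1) (sq_nonneg C0),
      mul_nonneg (by linarith : 0 ≤ E2) (sq_nonneg C0)]
  refine ⟨C, by linarith, fun c w d hw hd hCd => ?_⟩
  have hC0d : C0 * d * w ≤ C * d * w := by
    have : C0 ≤ C := by linarith
    exact mul_le_mul_of_nonneg_right (mul_le_mul_of_nonneg_right this hd.le) hw.le
  have hw0 : w ≠ 0 := hw.ne'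
  -- the affine change of variables
  have haff : ∀ (f : ℝ → ℝ) (K r : ℝ), 0 ≤ K → K ≤ C0 → Nl 6 K 1 f →
      Nl 6 (C0 * |r| * w) w (fun x => r * w * f ((x - c) / w)) := by
    intro f K r hK0 hK hf
    have h1 := (hf.comp_affine (inv_pos.2 hw) (-c / w)).const_mul (r * w)
    have h2 : (1 : ℝ) / w⁻¹ = w := by rw [one_div, inv_inv]
    rw [h2] at h1
    have h3 : (fun x => r * w * f (w⁻¹ * x + -c / w)) = fun x => r * w * f ((x - c) / w) := by
      funext x
      congr 2
      field_simp
      ring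
    rw [h3] at h1
    refine h1.mono le_rfl (mul_nonneg (abs_nonneg _) hK0) ?_ hw le_rfl
    rw [abs_mul, abs_of_pos hw]
    have := mul_le_mul_of_nonneg_left hK (mul_nonneg (abs_nonneg r) hw.le)
    linarith
  have hψD := haff os1_th C1 d (by linarith) hC01 hN1
  have hψS := fun s : ℝ => haff os1_sig C2 s (by linarith) hC02 hN2
  rw [abs_of_pos hd] at hψD
  obtain ⟨D, hD, hDinv⟩ := hperm (C0 * d * w) w _ hw (by positivity) (by
    have h1 : E1 * C0 * d ≤ 1 := (mul_le_mul_of_nonneg_right hCE1 hd.le).trans hCd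
    have h2 := mul_le_mul_of_nonneg_right h1 hw.le
    linarith) hψD
  have hSex : ∀ s : ℝ, ∃ F : Pm, C * |s| ≤ 1 →
      (∀ x, F x = x + s * w * os1_sig ((x - c) / w)) := by
    intro s
    by_cases hs : C * |s| ≤ 1
    · obtain ⟨F, hF, _⟩ := hperm (C0 * |s| * w) w _ hw (by positivity) (by
        have h1 : E1 * C0 * |s| ≤ 1 := (mul_le_mul_of_nonneg_right hCE1 (abs_nonneg s)).trans hs
        have h2 := mul_le_mul_of_nonneg_right h1 hw.le
        linarith) (hψS s)
      exact ⟨F, fun _ => hF⟩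
    · exact ⟨1, fun h => absurd h hs⟩
  choose S hS using hSex
  have hdD : disp D = fun x => d * w * os1_th ((x - c) / w) := by
    funext x
    unfold disp
    rw [hD x]
    ring
  have hdS : ∀ s : ℝ, C * |s| ≤ 1 → disp (S s) = fun x => s * w * os1_sig ((x - c) / w) := by
    intro s hs
    funext x
    unfold disp
    rw [hS s hs x]
    ring
  have hND : Nl 6 (C0 * d * w) w (disp D) := by
    rw [hdD]
    exact hψD
  have hNS : ∀ s : ℝ, C * |s| ≤ 1 → Nl 6 (C0 * |s| * w) w (disp (S s)) := by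
    intro s hs
    rw [hdS s hs]
    exact hψS s
  have habs : ∀ x, x ∉ Icc (c - w / 2) (c + w / 2) → 1 / 2 ≤ |(x - c) / w| := by
    intro x hx
    rw [abs_div, abs_of_pos hw, le_div_iff₀ hw]
    by_contra hcon
    push Not at hcon
    have h1 := abs_lt.1 hcon
    exact hx ⟨by linarith [h1.1], by linarith [h1.2]⟩
  -- the unit coordinate
  have hsc : ∀ x : ℝ, x = c + w * ((x - c) / w) := by
    intro x
    field_simp
    ring
  have hDu : ∀ t : ℝ, D (c + w * t) = c + w * (t + d * os1_th t) := by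
    intro t
    rw [hD]
    have : (c + w * t - c) / w = t := by
      field_simp
      ring
    rw [this]
    ring
  have hSu : ∀ s : ℝ, C * |s| ≤ 1 → ∀ t : ℝ, S s (c + w * t) = c + w * (t + s * os1_sig t) := by
    intro s hs t
    rw [hS s hs]
    have : (c + w * t - c) / w = t := by
      field_simp
      ring
    rw [this]
    ring
  have hs16 : ∀ s : ℝ, C * |s| ≤ 1 → |s| ≤ 1 / 16 := by
    intro s hs
    have := mul_le_mul_of_nonneg_right hC16 (abs_nonneg s)
    linarith
  have hcmval : ∀ (s y : ℝ), cm D (S s) (S s (D y)) = D (S s y) := by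
    intro s y
    unfold cm
    simp [Equiv.Perm.mul_apply]
  refine ⟨D, S, ?_, ?_, fun s hs => ⟨?_, ?_, ?_, ?_, ?_, ?_, ?_⟩, ?_⟩
  · intro x hx
    rw [hD, os1_th_zero (le_trans (by norm_num) (habs x hx)), mul_zero, add_zero]
  · exact hND.mono (by norm_num) (by positivity) hC0d hw le_rfl
  · intro x hx
    rw [hS s hs, os1_sig_zero (le_trans (by norm_num) (habs x hx)), mul_zero, add_zero]
  · refine (hNS s hs).mono (by norm_num) (by positivity) ?_ hw le_rfl
    have : C0 ≤ C := by linarith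
    exact mul_le_mul_of_nonneg_right (mul_le_mul_of_nonneg_right this (abs_nonneg s)) hw.le
  · have h1 := hcm (C0 * d * w) (C0 * |s| * w) w D (S s) hw (by positivity) (by positivity)
      (by
        have h1 : E2 * C0 * d ≤ 1 := (mul_le_mul_of_nonneg_right hCE2 hd.le).trans hCd
        have h2 := mul_le_mul_of_nonneg_right h1 hw.le
        linarith)
      (by
        have h1 : E2 * C0 * |s| ≤ 1 := (mul_le_mul_of_nonneg_right hCE2 (abs_nonneg s)).trans hs
        have h2 := mul_le_mul_of_nonneg_right h1 hw.le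
        linarith) hND (hNS s hs)
    refine h1.mono le_rfl (by positivity) ?_ hw le_rfl
    have h2 : E2 * (C0 * d * w) * (C0 * |s| * w) / w = E2 * C0 ^ 2 * (|s| * d * w) := by
      field_simp
    rw [h2]
    have := mul_le_mul_of_nonneg_right hCE3 (by positivity : 0 ≤ |s| * d * w)
    linarith
  · have h0 : (cm D (S s))⁻¹ = cm (S s) D := by
      unfold cm
      simp only [mul_inv_rev, inv_inv, mul_assoc]
    have h1 := hcm (C0 * |s| * w) (C0 * d * w) w (S s) D hw (by positivity) (by positivity)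
      (by
        have h1 : E2 * C0 * |s| ≤ 1 := (mul_le_mul_of_nonneg_right hCE2 (abs_nonneg s)).trans hs
        have h2 := mul_le_mul_of_nonneg_right h1 hw.le
        linarith)
      (by
        have h1 : E2 * C0 * d ≤ 1 := (mul_le_mul_of_nonneg_right hCE2 hd.le).trans hCd
        have h2 := mul_le_mul_of_nonneg_right h1 hw.le
        linarith) (hNS s hs) hND
    rw [h0]
    refine h1.mono le_rfl (by positivity) ?_ hw le_rfl
    have h2 : E2 * (C0 * |s| * w) * (C0 * d * w) / w = E2 * C0 ^ 2 * (|s| * d * w) := by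
      field_simp
    rw [h2]
    have := mul_le_mul_of_nonneg_right hCE3 (by positivity : 0 ≤ |s| * d * w)
    linarith
  · intro hs0 x
    obtain ⟨y, rfl⟩ : ∃ y, S s (D y) = x := ⟨D⁻¹ ((S s)⁻¹ x), by simp⟩
    rw [hcmval, hsc y, hDu, hSu s hs, hSu s hs, hDu]
    have := (os1_order (y := (y - c) / w) hd.le (hs16 s hs)).1 hs0
    have := mul_le_mul_of_nonneg_left this hw.le
    linarith
  · intro hs0 x
    obtain ⟨y, rfl⟩ : ∃ y, S s (D y) = x := ⟨D⁻¹ ((S s)⁻¹ x), by simp⟩
    rw [hcmval, hsc y, hDu, hSu s hs, hSu s hs, hDu]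
    have := (os1_order (y := (y - c) / w) hd.le (hs16 s hs)).2 hs0
    have := mul_le_mul_of_nonneg_left this hw.le
    linarith
  · intro x hx
    set t : ℝ := (x - c) / w with ht
    have htabs : |t| ≤ 1 / 16 := by
      rw [ht, abs_div, abs_of_pos hw, div_le_iff₀ hw]
      linarith
    have hs' := hs16 s hs
    set y : ℝ := (t - s) / (1 + d) with hy
    have h1d : 0 < 1 + d := by linarith
    have hts : |t - s| ≤ 1 / 8 := by
      have := abs_sub t s
      linarith
    have hyabs : |y| ≤ 1 / 8 := by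
      rw [hy, abs_div, abs_of_pos h1d, div_le_iff₀ h1d]
      nlinarith
    have h1 : y + d * os1_th y = t - s := by
      rw [os1_th_id (hyabs.trans (by norm_num)), hy]
      field_simp
    have h2 : S s (D (c + w * y)) = x := by
      rw [hDu, hSu s hs, h1, os1_sig_one hts, hsc x, ← ht]
      ring
    have h3 : |y + s| ≤ 3 / 8 := by
      have := abs_add_le y s
      linarith
    have h4 : D (S s (c + w * y)) = x + d * s * w := by
      rw [hSu s hs, hDu, os1_sig_one hyabs, mul_one, os1_th_id h3]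
      have h5 : (1 + d) * y = t - s := by
        rw [hy]
        field_simp
      have h6 : x = c + w * t := by
        rw [ht]
        exact hsc x
      rw [h6]
      linear_combination w * h5
    rw [← h2, hcmval, h4, h2]
  · -- continuity
    have hDc : Continuous (D : ℝ → ℝ) := by
      have : (D : ℝ → ℝ) = fun x => x + disp D x := by
        funext x
        unfold disp
        ring
      rw [this]
      exact continuous_id.add hND.smooth.continuous
    have hDic : Continuous ((D⁻¹ : Pm) : ℝ → ℝ) := by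
      have : ((D⁻¹ : Pm) : ℝ → ℝ) = fun x => x + disp D⁻¹ x := by
        funext x
        unfold disp
        ring
      rw [this]
      exact continuous_id.add hDinv.smooth.continuous
    have hdom : ∀ p ∈ Icc (-1 / C) (1 / C) ×ˢ (univ : Set ℝ), C * |p.1| ≤ 1 := by
      rintro ⟨s, x⟩ ⟨hp, _⟩
      have hCp : 0 < C := by linarith
      have h1 : |s| ≤ 1 / C := abs_le.2 ⟨by rw [← neg_div]; exact hp.1, hp.2⟩
      have h2 := mul_le_mul_of_nonneg_left h1 hCp.le
      rwa [mul_one_div_cancel hCp.ne'] at h2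
    have hSc : ContinuousOn (fun p : ℝ × ℝ => S p.1 p.2)
        (Icc (-1 / C) (1 / C) ×ˢ (univ : Set ℝ)) := by
      have h1 : Continuous (fun p : ℝ × ℝ => p.2 + p.1 * w * os1_sig ((p.2 - c) / w)) := by
        refine continuous_snd.add ((continuous_fst.mul continuous_const).mul ?_)
        exact os1_sig_smooth.continuous.comp ((continuous_snd.sub continuous_const).div_const w)
      exact h1.continuousOn.congr fun p hp => hS p.1 (hdom p hp) p.2
    -- the lower Lipschitz bound
    have hlip : ∀ a b : ℝ, |os1_sig a - os1_sig b| ≤ C2 * |a - b| := by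
      intro a b
      have h1 := Convex.norm_image_sub_le_of_norm_deriv_le (f := os1_sig) (s := univ) (C := C2)
        (fun x _ => (os1_sig_smooth.differentiable (by norm_num)).differentiableAt)
        (fun x _ => by
          have := hN2.bound 1 (by norm_num) x
          rw [iteratedDeriv_one, one_pow, div_one] at this
          rw [Real.norm_eq_abs]
          exact this) convex_univ (mem_univ b) (mem_univ a)
      rwa [Real.norm_eq_abs, Real.norm_eq_abs] at h1
    have hlow : ∀ s : ℝ, C * |s| ≤ 1 → ∀ a b : ℝ, |a - b| ≤ 2 * |S s a - S s b| := by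
      intro s hs a b
      rw [hS s hs, hS s hs]
      have h1 : a - b = (a + s * w * os1_sig ((a - c) / w) - (b + s * w * os1_sig ((b - c) / w))) -
          s * w * (os1_sig ((a - c) / w) - os1_sig ((b - c) / w)) := by ring
      have h2 : |s * w * (os1_sig ((a - c) / w) - os1_sig ((b - c) / w))| ≤ 1 / 2 * |a - b| := by
        rw [abs_mul, abs_mul, abs_of_pos hw]
        have h3 := hlip ((a - c) / w) ((b - c) / w)
        have h4 : (a - c) / w - (b - c) / w = (a - b) / w := by ring
        rw [h4, abs_div, abs_of_pos hw] at h3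
        have h5 : |s| * C0 ≤ 1 / 2 := by
          have := mul_le_mul_of_nonneg_right hCC0 (abs_nonneg s)
          linarith
        calc |s| * w * |os1_sig ((a - c) / w) - os1_sig ((b - c) / w)|
            ≤ |s| * w * (C2 * (|a - b| / w)) :=
              mul_le_mul_of_nonneg_left h3 (by positivity)
          _ = |s| * C2 * |a - b| := by field_simp
          _ ≤ 1 / 2 * |a - b| := by
              refine mul_le_mul_of_nonneg_right ?_ (abs_nonneg _)
              exact (mul_le_mul_of_nonneg_left hC02 (abs_nonneg s)).trans h5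
      have h3 := abs_sub (a + s * w * os1_sig ((a - c) / w) - (b + s * w * os1_sig ((b - c) / w)))
        (s * w * (os1_sig ((a - c) / w) - os1_sig ((b - c) / w)))
      rw [← h1] at h3
      linarith
    have hSic : ContinuousOn (fun p : ℝ × ℝ => (S p.1)⁻¹ p.2)
        (Icc (-1 / C) (1 / C) ×ˢ (univ : Set ℝ)) := by
      intro p hp
      have hp1 := hdom p hp
      set u : ℝ := (S p.1)⁻¹ p.2 with hu
      have hSu' : S p.1 u = p.2 := by
        rw [hu]
        simp
      have h1 : Tendsto (fun q : ℝ × ℝ => 2 * |q.2 - S q.1 u|)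
          (𝓝[Icc (-1 / C) (1 / C) ×ˢ (univ : Set ℝ)] p) (𝓝 0) := by
        have h2 : ContinuousWithinAt (fun q : ℝ × ℝ => S q.1 u)
            (Icc (-1 / C) (1 / C) ×ˢ (univ : Set ℝ)) p := by
          have h3 : Continuous (fun q : ℝ × ℝ => u + q.1 * w * os1_sig ((u - c) / w)) :=
            continuous_const.add ((continuous_fst.mul continuous_const).mul continuous_const)
          exact h3.continuousWithinAt.congr (fun q hq => hS q.1 (hdom q hq) u) (hS p.1 hp1 u)
        have h4 : ContinuousWithinAt (fun q : ℝ × ℝ => 2 * |q.2 - S q.1 u|)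
            (Icc (-1 / C) (1 / C) ×ˢ (univ : Set ℝ)) p :=
          continuousWithinAt_const.mul (continuous_snd.continuousWithinAt.sub h2).abs
        have h5 : Tendsto (fun q : ℝ × ℝ => 2 * |q.2 - S q.1 u|)
            (𝓝[Icc (-1 / C) (1 / C) ×ˢ (univ : Set ℝ)] p) (𝓝 (2 * |p.2 - S p.1 u|)) := h4
        rwa [hSu', sub_self, abs_zero, mul_zero] at h5
      refine tendsto_iff_dist_tendsto_zero.2 (squeeze_zero' (Eventually.of_forall fun q => dist_nonneg)
        ?_ h1)
      filter_upwards [self_mem_nhdsWithin] with q hq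
      have h6 := hlow q.1 (hdom q hq) ((S q.1)⁻¹ q.2) u
      have h7 : S q.1 ((S q.1)⁻¹ q.2) = q.2 := by simp
      rw [h7] at h6
      rw [Real.dist_eq]
      exact h6
    have h0 : (fun p : ℝ × ℝ => (cm D (S p.1))⁻¹ p.2) =
        fun p : ℝ × ℝ => S p.1 (D ((S p.1)⁻¹ ((D⁻¹ : Pm) p.2))) := by
      funext p
      unfold cm
      simp only [mul_inv_rev, inv_inv, Equiv.Perm.mul_apply]
    rw [h0]
    have h1 : ContinuousOn (fun p : ℝ × ℝ => (S p.1)⁻¹ ((D⁻¹ : Pm) p.2))
        (Icc (-1 / C) (1 / C) ×ˢ (univ : Set ℝ)) := by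
      have h2 : ContinuousOn (fun p : ℝ × ℝ => ((p.1, (D⁻¹ : Pm) p.2) : ℝ × ℝ))
          (Icc (-1 / C) (1 / C) ×ˢ (univ : Set ℝ)) :=
        (continuous_fst.prodMk (hDic.comp continuous_snd)).continuousOn
      exact hSic.comp h2 fun p hp => ⟨hp.1, mem_univ _⟩
    have h3 : ContinuousOn (fun p : ℝ × ℝ => ((p.1, D ((S p.1)⁻¹ ((D⁻¹ : Pm) p.2))) : ℝ × ℝ))
        (Icc (-1 / C) (1 / C) ×ˢ (univ : Set ℝ)) :=
      continuous_fst.continuousOn.prodMk (hDc.comp_continuousOn h1)
    exact hSc.comp h3 fun p hp => ⟨hp.1, mem_univ _⟩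

end GD31
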