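import Pool.Agent.LibGD31.OS1

/-! # OS2: holonomy with a normalised zero

Geometry (`x` base point, `w` window length): content `X = [x, x+w]`, kick window
`K = [x+w, x+2w]`, free room `[x+2w, x+3w]`, next window `X' = [x+3w, x+3w+w/4]`. -/

open Filter Topology Set

namespace GD31

/-! ## the recursion -/

theorem os2_step (α : ℝ) (H : Pm) (n : ℕ) (y : ℝ) :
    y + it α (disp H) (n + 1) y = H (y + it α (disp H) n (y - α)) := by
  change y + (it α (disp H) n (y - α) +
    (H (y + it α (disp H) n (y - α)) - (y + it α (disp H) n (y - α)))) = _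
  ring

theorem os2_zero {α x : ℝ} {γ : ℝ → ℝ} (hα : 0 ≤ α) (h : ∀ y ≤ x, γ y = 0) (n : ℕ) :
    ∀ y ≤ x, it α γ n y = 0 := by
  induction n with
  | zero =>
    intro y _
    rfl
  | succ n ih =>
    intro y hy
    change it α γ n (y - α) + γ (y + it α γ n (y - α)) = 0
    rw [ih (y - α) (by linarith), add_zero, zero_add, h y hy]

theorem os2_stab {α x : ℝ} {γ : ℝ → ℝ} (h : ∀ y ≤ x, γ y = 0) (n : ℕ) :
    ∀ y, y - n * α ≤ x → it α γ (n + 1) y = it α γ n y := by
  induction n with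
  | zero =>
    intro y hy
    change (0 : ℝ) + γ (y + 0) = 0
    rw [add_zero, zero_add]
    exact h y (by simpa using hy)
  | succ n ih =>
    intro y hy
    have h1 := ih (y - α) (by push_cast at hy; linarith)
    change it α γ (n + 1) (y - α) + γ (y + it α γ (n + 1) (y - α)) =
      it α γ n (y - α) + γ (y + it α γ n (y - α))
    rw [h1]

theorem os2_tele {α σ : ℝ} {γ W : ℝ → ℝ} (h : ∀ Y, σ * γ Y ≤ W (Y + γ Y + α) - W Y) (n : ℕ) :
    ∀ y, σ * it α γ n y ≤ W (y + it α γ n y + α) - W (y - n * α + α) := by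
  induction n with
  | zero =>
    intro y
    change σ * 0 ≤ W (y + 0 + α) - W (y - (0 : ℕ) * α + α)
    simp
  | succ n ih =>
    intro y
    have h1 := ih (y - α)
    have h2 := h (y + it α γ n (y - α))
    have e1 : y - α + it α γ n (y - α) + α = y + it α γ n (y - α) := by ring
    have e2 : y - α - n * α + α = y - ((n + 1 : ℕ) : ℝ) * α + α := by
      push_cast
      ring
    rw [e1, e2] at h1
    have e3 : y + it α γ (n + 1) y + α =
        y + it α γ n (y - α) + γ (y + it α γ n (y - α)) + α := by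
      change y + (it α γ n (y - α) + γ (y + it α γ n (y - α))) + α = _
      ring
    rw [e3]
    change σ * (it α γ n (y - α) + γ (y + it α γ n (y - α))) ≤ _
    rw [mul_add]
    linarith

/-! ## the potential -/

theorem os2_c1 {x w α A y y' : ℝ} (hα : 0 < α) (hA : 0 ≤ A) (h1 : y + α / 2 ≤ y')
    (h2 : y' ≤ y + 3 * α / 2) :
    (if y ∈ Icc x (x + w) then A else 0) ≤
      2 * A / α * (max x (min y' (x + w + 3 * α / 2)) - max x (min y (x + w + 3 * α / 2))) := by
  split_ifs with h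
  · have h3 : α / 2 ≤ max x (min y' (x + w + 3 * α / 2)) - max x (min y (x + w + 3 * α / 2)) := by
      rw [min_eq_left (by linarith [h.2] : y ≤ x + w + 3 * α / 2), max_eq_right h.1,
        min_eq_left (by linarith [h.2] : y' ≤ x + w + 3 * α / 2),
        max_eq_right (by linarith [h.1])]
      linarith
    calc A = 2 * A / α * (α / 2) := by field_simp
      _ ≤ _ := mul_le_mul_of_nonneg_left h3 (by positivity)
  · have h3 : max x (min y (x + w + 3 * α / 2)) ≤ max x (min y' (x + w + 3 * α / 2)) :=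
      max_le_max le_rfl (min_le_min (by linarith) le_rfl)
    exact mul_nonneg (by positivity) (by linarith)

theorem os2_c2 {p q α κ y y' : ℝ} (hα : 0 < α) (hκ : 0 ≤ κ) (hpq : p + 3 * α / 2 ≤ q)
    (h1 : y + α / 2 ≤ y') (h2 : y' ≤ y + 3 * α / 2) :
    2 * κ / (3 * α) * (max (p + 3 * α / 2) (min y' q) - max (p + 3 * α / 2) (min y q)) ≤
      (if y ∈ Icc p q then κ else 0) := by
  split_ifs with h
  · have h3 : max (p + 3 * α / 2) (min y' q) - max (p + 3 * α / 2) (min y q) ≤ 3 * α / 2 := by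
      rcases le_total y' q with h4 | h4
      · rw [min_eq_left h4, min_eq_left (by linarith : y ≤ q)]
        rcases le_total (p + 3 * α / 2) y' with h5 | h5
        · rw [max_eq_right h5]
          have := le_max_right (p + 3 * α / 2) y
          linarith
        · rw [max_eq_left h5]
          have := le_max_left (p + 3 * α / 2) y
          linarith
      · rw [min_eq_right h4, max_eq_right hpq, min_eq_left h.2]
        have := le_max_right (p + 3 * α / 2) y
        linarith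
    calc _ ≤ 2 * κ / (3 * α) * (3 * α / 2) := mul_le_mul_of_nonneg_left h3 (by positivity)
      _ = κ := by field_simp
  · have h3 : max (p + 3 * α / 2) (min y' q) = max (p + 3 * α / 2) (min y q) := by
      rcases lt_or_ge y p with h4 | h4
      · rw [max_eq_left ((min_le_left _ _).trans (by linarith)),
          max_eq_left ((min_le_left _ _).trans (by linarith))]
      · have h5 : q < y := by
          by_contra h6
          exact h ⟨h4, not_lt.1 h6⟩
        rw [min_eq_right (by linarith), min_eq_right (by linarith)]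
    rw [h3, sub_self, mul_zero]

/-! ## supports -/

theorem os2_fix {F : Pm} {a b : ℝ} (hc : Continuous (disp F)) (h : Supp F (Icc a b)) (z : ℝ)
    (hz : z ≤ a ∨ b ≤ z) : F z = z := by
  have hcl : IsClosed {z : ℝ | disp F z = 0} := isClosed_eq hc continuous_const
  have hz' : z ∈ {z : ℝ | disp F z = 0} := by
    rcases hz with hz | hz
    · have h1 : Iio a ⊆ {z : ℝ | disp F z = 0} := fun y hy => by
        have := h y fun h2 => absurd h2.1 (not_le.2 hy)
        simp [disp, this]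
      have h2 := closure_minimal h1 hcl
      rw [closure_Iio] at h2
      exact h2 hz
    · have h1 : Ioi b ⊆ {z : ℝ | disp F z = 0} := fun y hy => by
        have := h y fun h2 => absurd h2.2 (not_le.2 hy)
        simp [disp, this]
      have h2 := closure_minimal h1 hcl
      rw [closure_Ioi] at h2
      exact h2 hz
  have h3 : F z - z = 0 := hz'
  linarith

theorem os2_inv_apply {F : Pm} (z : ℝ) : F (F⁻¹ z) = z := Equiv.apply_symm_apply F z

theorem os2_inv_fix {F : Pm} {z : ℝ} (h : F z = z) : F⁻¹ z = z := by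
  have h1 : F.symm z = z := (Equiv.symm_apply_eq F).2 h.symm
  exact h1

theorem os2_supp_cm {D S : Pm} {I : Set ℝ} (hD : Supp D I) (hS : Supp S I) :
    Supp (cm D S) I := by
  intro z hz
  have h1 := hD z hz
  have h2 := hS z hz
  unfold cm
  rw [Equiv.Perm.mul_apply, Equiv.Perm.mul_apply, Equiv.Perm.mul_apply, os2_inv_fix h2,
    os2_inv_fix h1, h2, h1]

theorem os2_key {x w A κ q σ : ℝ} {G k : Pm} (hw : 0 < w) (hσ : |σ| ≤ 1)
    (hG : ∀ z, |disp G z| ≤ A) (hkc : Continuous (disp k))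
    (hGs : Supp G (Icc x (x + w))) (hks : Supp k (Icc (x + w) (x + 2 * w)))
    (hsign : ∀ z, 0 ≤ σ * (k z - z))
    (hplat : ∀ z, |z - (x + 3 * w / 2)| ≤ w / 16 → k z = z + q)
    (hq : |q| ≤ w / 32) (hqκ : σ * q = κ) (Y : ℝ) :
    σ * disp (G * k⁻¹) Y ≤ (if Y ∈ Icc x (x + w) then A else 0) -
      (if Y ∈ Icc (x + 3 * w / 2 - w / 32) (x + 3 * w / 2 + w / 32) then κ else 0) := by
  have hd : disp (G * k⁻¹) Y = G (k⁻¹ Y) - Y := rfl
  rcases le_or_gt Y (x + w) with hY | hY
  · have h1 : k⁻¹ Y = Y := os2_inv_fix (os2_fix hkc hks Y (Or.inl hY))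
    have h2 : Y ∉ Icc (x + 3 * w / 2 - w / 32) (x + 3 * w / 2 + w / 32) := fun h => by
      linarith [h.1]
    rw [hd, h1, if_neg h2, sub_zero]
    split_ifs with h3
    · have h4 : |σ * disp G Y| ≤ A := by
        rw [abs_mul]
        calc |σ| * |disp G Y| ≤ 1 * A := mul_le_mul hσ (hG Y) (abs_nonneg _) zero_le_one
          _ = A := one_mul A
      exact (abs_le.1 h4).2
    · have h4 := hGs Y h3
      rw [h4, sub_self, mul_zero]
  · have h1 : Y ∉ Icc x (x + w) := fun h => by linarith [h.2]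
    have h2 : x + w < k⁻¹ Y := by
      by_contra h3
      have h4 := os2_fix hkc hks (k⁻¹ Y) (Or.inl (not_lt.1 h3))
      rw [os2_inv_apply] at h4
      rw [← h4] at h3
      exact h3 hY
    have h3 : G (k⁻¹ Y) = k⁻¹ Y := hGs _ fun h => by linarith [h.2]
    rw [hd, h3, if_neg h1]
    have h5 := hsign (k⁻¹ Y)
    rw [os2_inv_apply] at h5
    split_ifs with h4
    · have h6 : |Y - q - (x + 3 * w / 2)| ≤ w / 16 := by
        rw [abs_le] at hq ⊢
        constructor
        · linarith [h4.1, hq.1, hq.2]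
        · linarith [h4.2, hq.1, hq.2]
      have h7 := hplat _ h6
      have h8 : k (Y - q) = Y := by
        rw [h7]
        ring
      have h9 : k⁻¹ Y = Y - q := by
        have h10 : k.symm Y = Y - q := (Equiv.symm_apply_eq k).2 h8.symm
        exact h10
      rw [h9, ← hqκ]
      apply le_of_eq
      ring
    · nlinarith [h5]

theorem os2_sign {x w α A κ q σ : ℝ} {G k : Pm} {N : ℕ} (hw : 0 < w) (hα : 0 < α) (hA : 0 ≤ A)
    (hσ : |σ| ≤ 1) (hαw : 96 * α ≤ w) (hN : 5 * w ≤ (N - 1) * α)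
    (hG : ∀ z, |disp G z| ≤ A) (hGc : Continuous (disp G)) (hkc : Continuous (disp k))
    (hGs : Supp G (Icc x (x + w))) (hks : Supp k (Icc (x + w) (x + 2 * w)))
    (hsign : ∀ z, 0 ≤ σ * (k z - z))
    (hplat : ∀ z, |z - (x + 3 * w / 2)| ≤ w / 16 → k z = z + q)
    (hq : |q| ≤ w / 32) (hqκ : σ * q = κ) (hκ : κ = 128 * A)
    (hγ : ∀ Y, |disp (G * k⁻¹) Y| ≤ α / 2)
    (hφ : |it α (disp (G * k⁻¹)) N (x + 2 * w + w / 8)| ≤ w / 8) :
    σ * it α (disp (G * k⁻¹)) N (x + 2 * w + w / 8) ≤ 0 := by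
  have hκ0 : 0 ≤ κ := by
    rw [hκ]
    positivity
  set p : ℝ := x + 3 * w / 2 - w / 32 with hp
  set r : ℝ := x + 3 * w / 2 + w / 32 with hr
  have hpr : p + 3 * α / 2 ≤ r := by
    rw [hp, hr]
    linarith
  let W : ℝ → ℝ := fun y => 2 * A / α * max x (min y (x + w + 3 * α / 2)) -
    2 * κ / (3 * α) * max (p + 3 * α / 2) (min y r)
  have hkey : ∀ Y, σ * disp (G * k⁻¹) Y ≤ W (Y + disp (G * k⁻¹) Y + α) - W Y := by
    intro Y
    have h1 := os2_key hw hσ hG hkc hGs hks hsign hplat hq hqκ Y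
    have h2 := abs_le.1 (hγ Y)
    have h3 := os2_c1 (x := x) (w := w) (y := Y) (y' := Y + disp (G * k⁻¹) Y + α) hα hA
      (by linarith [h2.1]) (by linarith [h2.2])
    have h4 := os2_c2 (p := p) (q := r) (y := Y) (y' := Y + disp (G * k⁻¹) Y + α) hα hκ0 hpr
      (by linarith [h2.1]) (by linarith [h2.2])
    simp only [W]
    rw [mul_sub] at h3 h4
    linarith
  have h1 := os2_tele hkey N (x + 2 * w + w / 8)
  have h2 := abs_le.1 hφ
  set φ := it α (disp (G * k⁻¹)) N (x + 2 * w + w / 8) with hφd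
  have h3 : x + 2 * w + w / 8 - N * α + α ≤ x := by nlinarith
  have h4 : W (x + 2 * w + w / 8 - N * α + α) = 2 * A / α * x - 2 * κ / (3 * α) * (p + 3 * α / 2) := by
    simp only [W]
    rw [max_eq_left ((min_le_left _ _).trans h3),
      max_eq_left ((min_le_left _ _).trans (h3.trans (by rw [hp]; linarith)))]
  have h5 : W (x + 2 * w + w / 8 + φ + α) ≤
      2 * A / α * (x + w + 3 * α / 2) - 2 * κ / (3 * α) * r := by
    simp only [W]
    have h6 : max (p + 3 * α / 2) (min (x + 2 * w + w / 8 + φ + α) r) = r := by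
      rw [min_eq_right (by rw [hr]; linarith [h2.1]), max_eq_right hpr]
    rw [h6]
    have h7 : max x (min (x + 2 * w + w / 8 + φ + α) (x + w + 3 * α / 2)) ≤
        x + w + 3 * α / 2 := max_le (by linarith) (min_le_right _ _)
    have h8 : 2 * A / α * max x (min (x + 2 * w + w / 8 + φ + α) (x + w + 3 * α / 2)) ≤
        2 * A / α * (x + w + 3 * α / 2) := mul_le_mul_of_nonneg_left h7 (by positivity)
    linarith
  rw [h4] at h1
  have h9 : 2 * A / α * (w + 3 * α / 2) - 2 * κ / (3 * α) * (w / 16 - 3 * α / 2) ≤ 0 := by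
    have e1 : 2 * A / α * (w + 3 * α / 2) - 2 * κ / (3 * α) * (w / 16 - 3 * α / 2) =
        (2 * A * (w + 3 * α / 2) - 2 * κ / 3 * (w / 16 - 3 * α / 2)) / α := by
      field_simp
    rw [e1]
    apply div_nonpos_of_nonpos_of_nonneg _ hα.le
    rw [hκ]
    nlinarith
  have h10 : 2 * A / α * (x + w + 3 * α / 2) - 2 * κ / (3 * α) * r -
      (2 * A / α * x - 2 * κ / (3 * α) * (p + 3 * α / 2)) =
      2 * A / α * (w + 3 * α / 2) - 2 * κ / (3 * α) * (w / 16 - 3 * α / 2) := by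
    rw [hp, hr]
    ring
  linarith

theorem os2_cont {α : ℝ} {G D : Pm} {S : ℝ → Pm} {J : Set ℝ} (hG : Continuous (G : ℝ → ℝ))
    (h : ContinuousOn (fun p : ℝ × ℝ => (cm D (S p.1))⁻¹ p.2) (J ×ˢ univ)) (n : ℕ) :
    ContinuousOn (fun p : ℝ × ℝ => it α (disp (G * (cm D (S p.1))⁻¹)) n p.2) (J ×ˢ univ) := by
  induction n with
  | zero => exact continuousOn_const
  | succ n ih =>
    have h1 : ContinuousOn (fun p : ℝ × ℝ => it α (disp (G * (cm D (S p.1))⁻¹)) n (p.2 - α))
        (J ×ˢ univ) := by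
      have h2 : ContinuousOn (fun p : ℝ × ℝ => (p.1, p.2 - α)) (J ×ˢ univ) := by fun_prop
      exact ih.comp h2 fun p hp => ⟨hp.1, mem_univ _⟩
    have h3 : ContinuousOn (fun p : ℝ × ℝ => (p.1, p.2 +
        it α (disp (G * (cm D (S p.1))⁻¹)) n (p.2 - α))) (J ×ˢ univ) :=
      continuousOn_fst.prodMk (continuousOn_snd.add h1)
    have h4 : ContinuousOn (fun p : ℝ × ℝ => G ((cm D (S p.1))⁻¹ (p.2 +
        it α (disp (G * (cm D (S p.1))⁻¹)) n (p.2 - α)))) (J ×ˢ univ) :=
      hG.comp_continuousOn (h.comp h3 fun p hp => ⟨hp.1, mem_univ _⟩)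
    exact (h4.sub continuousOn_snd).congr fun p _ => by
      have h5 := os2_step α (G * (cm D (S p.1))⁻¹) n p.2
      rw [Equiv.Perm.mul_apply] at h5
      change it α (disp (G * (cm D (S p.1))⁻¹)) (n + 1) p.2 = _
      simp only [Pi.sub_apply]
      linarith

theorem os2_cont1 (x₀ c e : ℝ) : ContinuousOn (fun s : ℝ => ((s, x₀) : ℝ × ℝ)) (Icc c e) :=
  (continuous_id.prodMk continuous_const).continuousOn

theorem os2_cont2 {f : ℝ × ℝ → ℝ} {a b c e : ℝ} (h : ContinuousOn f (Icc a b ×ˢ univ))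
    (hc : a ≤ c) (he : e ≤ b) (x₀ : ℝ) : ContinuousOn (fun s : ℝ => f (s, x₀)) (Icc c e) :=
  ContinuousOn.comp h (os2_cont1 x₀ c e) (fun _ hs => ⟨⟨hc.trans hs.1, hs.2.trans he⟩, mem_univ _⟩)

theorem os2_cont' {α a b c e : ℝ} {G D : Pm} {S : ℝ → Pm} (hG : Continuous (G : ℝ → ℝ))
    (h : ContinuousOn (fun p : ℝ × ℝ => (cm D (S p.1))⁻¹ p.2) (Icc a b ×ˢ univ)) (n : ℕ)
    (hc : a ≤ c) (he : e ≤ b) (x₀ : ℝ) :
    ContinuousOn (fun s : ℝ => it α (disp (G * (cm D (S s))⁻¹)) n x₀) (Icc c e) := by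
  have h1 := os2_cont2 (os2_cont (α := α) hG h n) hc he x₀
  exact h1

/-- `G` a diffeomorphism supported in `[x, x+w]` of size `(A, l)`; `α` the step; there is a kick
`k = cm D S` supported in `[x+w, x+2w]` such that for `φ = it α (disp (G k⁻¹)) N`
(`N α ≥ 5 w`, `N = ⌈5 w / α⌉₊ + 1`) we have `φ = 0` left of `x`,
`y + φ y = (G k⁻¹) (y + φ (y - α))` for `y ≤ x + 4 w`
(`it … (N+1) = it … N` there, since the orbit starts left of `x`), and `φ` vanishes at
`x₀ = x + 2 w + w/8`. The kick is found by the intermediate value theorem in the strength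
`s ∈ [-s₁, s₁]`, `s₁ = C₁ A / (d w)`: the value `φ(x₀)` is
`∑_i [g-displacement at step i] + ∑_i [kick displacement at step i]`; the first sum is at most
`(number of steps in [x, x+w]) A ≤ (2 w / α + 1) A` in absolute value; for `s = s₁` the second is
at most `- d s₁ w (number of steps in the plateau) ≤ - d s₁ w (w / (16 α) - 2)`. -/
theorem os_holonomy : ∃ C : ℝ, 1 ≤ C ∧ ∀ (x w l α A d : ℝ) (G : Pm), 0 < w → w ≤ 1 → 0 < l →
    l ≤ w → 0 < α → C * α ≤ l → 0 < d → C * d ≤ 1 → 0 ≤ A → C * w * A ≤ α * l →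
    C * A ≤ d * w →
    Nl 5 A l (disp G) → Supp G (Icc x (x + w)) →
    ∃ (D S : Pm) (φ : ℝ → ℝ),
      Supp D (Icc (x + w) (x + 2 * w)) ∧ Nl 5 (C * d * w) w (disp D) ∧
      Supp S (Icc (x + w) (x + 2 * w)) ∧ Nl 5 (C * A / d) w (disp S) ∧
      Nl 5 (C * A) l (disp (G * (cm D S)⁻¹)) ∧ Nl 5 (C * A) l (disp (G * (cm D S)⁻¹)⁻¹) ∧
      Nl 5 (C * w * A / α) l φ ∧ (∀ y ≤ x, φ y = 0) ∧
      (∀ y ≤ x + 4 * w, y + φ y = (G * (cm D S)⁻¹) (y + φ (y - α))) ∧
      φ (x + 2 * w + w / 8) = 0 := by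
  obtain ⟨Ck, hCk, hkick⟩ := kick
  obtain ⟨Cm, hCm, hmul⟩ := Nl.mul_perm 5
  obtain ⟨Cp, hCp, hperm⟩ := exists_perm 5 (by norm_num)
  obtain ⟨Cb, hCb, hit⟩ := it_bound 5
  obtain ⟨E, hE⟩ : ∃ E : ℝ, E = Cm + 128 * Ck + Cm * (128 * Ck) + Cp := ⟨_, rfl⟩
  have hCmk : 0 ≤ Cm * (128 * Ck) := by positivity
  have hE0 : 1 ≤ E := by
    rw [hE]
    linarith
  have hE1 : Cm + 128 * Ck ≤ E := by
    rw [hE]
    linarith
  have hE2 : Cm * (128 * Ck) + Cp ≤ E := by
    rw [hE]
    linarith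
  have hE3 : Cp ≤ E := by linarith
  have hCbE : 1 ≤ Cb * E := one_le_mul_of_one_le_of_one_le hCb hE0
  obtain ⟨C, hC⟩ : ∃ C : ℝ, C = 4096 + 128 * Ck + 2 * E + 56 * (Cb * E) := ⟨_, rfl⟩
  have hC1 : 4096 ≤ C := by rw [hC]; linarith
  have hC2 : 128 * Ck ≤ C := by rw [hC]; linarith
  have hC3 : 2 * E ≤ C := by rw [hC]; linarith
  have hC4 : 56 * (Cb * E) ≤ C := by rw [hC]; linarith
  refine ⟨C, by linarith, fun x w l α A d G hw hw1 hl hlw hα hCα hd hCd hA hCwA hCAd hG hGs => ?_⟩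
  have h4096 : 4096 * α ≤ C * α := mul_le_mul_of_nonneg_right hC1 hα.le
  have hαw : 96 * α ≤ w := by linarith
  have hαl : α ≤ l := by linarith
  have hαlw : α * l ≤ α * w := mul_le_mul_of_nonneg_left hlw hα.le
  have hCA : C * A ≤ α := by
    have h1 : C * A * w ≤ α * w := by
      have h2 : C * A * w = C * w * A := by ring
      linarith
    exact le_of_mul_le_mul_right h1 hw
  have hA1 : 4096 * A ≤ α := (mul_le_mul_of_nonneg_right hC1 hA).trans hCA
  have hA2 : 128 * Ck * A ≤ α := (mul_le_mul_of_nonneg_right hC2 hA).trans hCA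
  have hA3 : E * A ≤ α / 2 := by
    have h1 := (mul_le_mul_of_nonneg_right hC3 hA).trans hCA
    linarith
  have hA4 : Cp * A ≤ α := by
    have h1 := mul_le_mul_of_nonneg_right hE3 hA
    linarith
  have hA5 : 56 * (Cb * E) * (w * A) ≤ α * w := by
    have h1 := mul_le_mul_of_nonneg_right hC4 (mul_nonneg hw.le hA)
    have h2 : C * (w * A) = C * w * A := by ring
    linarith
  have hA6 : 128 * Ck * A ≤ d * w := (mul_le_mul_of_nonneg_right hC2 hA).trans hCAd
  have hCkC : Ck ≤ C := by linarith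
  have hCkd : Ck * d ≤ 1 := (mul_le_mul_of_nonneg_right hCkC hd.le).trans hCd
  obtain ⟨D, S, hDs, hDn, hS, hcont⟩ := hkick (x + 3 * w / 2) w d hw hd hCkd
  have hI : Icc (x + 3 * w / 2 - w / 2) (x + 3 * w / 2 + w / 2) = Icc (x + w) (x + 2 * w) := by
    congr 1 <;> ring
  rw [hI] at hDs
  have hdw : 0 < d * w := mul_pos hd hw
  obtain ⟨s₁, hs₁⟩ : ∃ s₁ : ℝ, s₁ = 128 * A / (d * w) := ⟨_, rfl⟩
  have hs₁0 : 0 ≤ s₁ := by
    rw [hs₁]
    positivity
  have hs₁d : d * s₁ * w = 128 * A := by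
    rw [hs₁]
    field_simp
  have hCks : Ck * s₁ ≤ 1 := by
    rw [hs₁, ← mul_div_assoc, div_le_one hdw]
    have h1 : Ck * (128 * A) = 128 * Ck * A := by ring
    linarith
  have hCks' : ∀ s : ℝ, |s| ≤ s₁ → Ck * |s| ≤ 1 := fun s hs =>
    (mul_le_mul_of_nonneg_left hs (by linarith)).trans hCks
  obtain ⟨N, hN⟩ : ∃ N : ℕ, N = ⌈5 * w / α⌉₊ + 1 := ⟨_, rfl⟩
  have hN1 : 5 * w ≤ ((N : ℝ) - 1) * α := by
    have h1 := Nat.le_ceil (5 * w / α)
    rw [div_le_iff₀ hα] at h1
    rw [hN]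
    push_cast
    rw [add_sub_cancel_right]
    exact h1
  have hN2 : (N : ℝ) ≤ 7 * w / α := by
    have h1 := (Nat.ceil_lt_add_one (by positivity : 0 ≤ 5 * w / α)).le
    have h2 : 2 ≤ 2 * w / α := by
      rw [le_div_iff₀ hα]
      linarith
    have h3 : 7 * w / α = 5 * w / α + 2 * w / α := by ring
    rw [hN, h3]
    push_cast
    linarith
  have hDG : Differentiable ℝ (disp G) := hG.smooth.differentiable (by simp)
  have hGc : Continuous (disp G) := hDG.continuous
  have hGcont : Continuous (G : ℝ → ℝ) := by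
    have h1 : (G : ℝ → ℝ) = fun z => z + disp G z := by
      funext z
      unfold disp
      ring
    rw [h1]
    exact continuous_id.add hGc
  have hG0 : ∀ z, |disp G z| ≤ A := ck4_abs hG
  have hCpA : Cp * A ≤ l := by linarith
  have hGinv : Nl 5 (Cp * A) l (disp G⁻¹) := by
    obtain ⟨F, hF, hF'⟩ := hperm A l (disp G) hl hA hCpA hG
    have h1 : F = G := by
      ext z
      rw [hF]
      unfold disp
      ring
    rwa [h1] at hF'
  -- all strengths
  have hfact : ∀ s : ℝ, |s| ≤ s₁ →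
      Supp (S s) (Icc (x + w) (x + 2 * w)) ∧ Nl 5 (C * A / d) w (disp (S s)) ∧
      Nl 5 (E * A) l (disp (G * (cm D (S s))⁻¹)) ∧
      Nl 5 (E * A) l (disp (G * (cm D (S s))⁻¹)⁻¹) ∧
      Nl 5 (7 * (Cb * E) * w * A / α) l (it α (disp (G * (cm D (S s))⁻¹)) N) ∧
      Continuous (disp (cm D (S s))) := by
    intro s hs
    have h1 : Ck * |s| ≤ 1 := hCks' s hs
    obtain ⟨hSs, hSn, hkn, hkin, -, -, -⟩ := hS s h1
    rw [hI] at hSs
    have h2 : Ck * |s| * d * w ≤ 128 * Ck * A := by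
      calc Ck * |s| * d * w = Ck * (|s| * (d * w)) := by ring
        _ ≤ Ck * (s₁ * (d * w)) := by gcongr
        _ = Ck * (d * s₁ * w) := by ring
        _ = 128 * Ck * A := by rw [hs₁d]; ring
    have h3 : 0 ≤ Ck * |s| * d * w := by positivity
    have h4 : 128 * Ck * A ≤ l := by linarith
    have hkn' : Nl 5 (128 * Ck * A) l (disp (cm D (S s))) := hkn.mono le_rfl h3 h2 hl hlw
    have hkin' : Nl 5 (128 * Ck * A) l (disp (cm D (S s))⁻¹) := hkin.mono le_rfl h3 h2 hl hlw
    have hH : Nl 5 (E * A) l (disp (G * (cm D (S s))⁻¹)) := by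
      have h5 := hmul A (128 * Ck * A) l G (cm D (S s))⁻¹ hl hA (by positivity) h4 hG hkin'
      refine h5.mono le_rfl (by positivity) ?_ hl le_rfl
      have h6 := mul_le_mul_of_nonneg_right hE1 hA
      linarith
    have hH' : Nl 5 (E * A) l (disp (G * (cm D (S s))⁻¹)⁻¹) := by
      have h5 := hmul (128 * Ck * A) (Cp * A) l (cm D (S s)) G⁻¹ hl (by positivity)
        (by positivity) hCpA hkn' hGinv
      have h6 : (G * (cm D (S s))⁻¹)⁻¹ = cm D (S s) * G⁻¹ := by
        rw [mul_inv_rev, inv_inv]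
      rw [h6]
      refine h5.mono le_rfl (by positivity) ?_ hl le_rfl
      have h7 := mul_le_mul_of_nonneg_right hE2 hA
      have h8 : Cm * (128 * Ck * A) + Cp * A = (Cm * (128 * Ck) + Cp) * A := by ring
      linarith
    have h7 : Cb * N * (E * A) ≤ 7 * (Cb * E) * w * A / α := by
      calc Cb * N * (E * A) = (Cb * E * A) * N := by ring
        _ ≤ (Cb * E * A) * (7 * w / α) := by gcongr
        _ = _ := by ring
    have h8 : 7 * (Cb * E) * w * A / α ≤ l := by
      rw [div_le_iff₀ hα]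
      have h9 : 0 ≤ (Cb * E) * (w * A) := by positivity
      have h10 := mul_le_mul_of_nonneg_right hC4 (mul_nonneg hw.le hA)
      have h11 : C * (w * A) = C * w * A := by ring
      have h12 : 7 * (Cb * E) * w * A = 7 * ((Cb * E) * (w * A)) := by ring
      have h13 : 56 * (Cb * E) * (w * A) = 56 * ((Cb * E) * (w * A)) := by ring
      have h14 : l * α = α * l := mul_comm _ _
      linarith
    have hφ := hit (E * A) l α (disp (G * (cm D (S s))⁻¹)) N hl (by positivity)
      (h7.trans h8) hH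
    refine ⟨hSs, ?_, hH, hH', hφ.mono le_rfl (by positivity) h7 hl le_rfl,
      (hkn.smooth.differentiable (by simp)).continuous⟩
    refine hSn.mono le_rfl (by positivity) ?_ hw le_rfl
    calc Ck * |s| * w ≤ Ck * s₁ * w := by gcongr
      _ = 128 * Ck * A / d := by
        rw [hs₁]
        field_simp
      _ ≤ C * A / d := by gcongr
  have hφ8 : 7 * (Cb * E) * w * A / α ≤ w / 8 := by
    rw [div_le_iff₀ hα]
    have h1 : 7 * (Cb * E) * w * A = 56 * (Cb * E) * (w * A) / 8 := by ring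
    have h2 : w / 8 * α = α * w / 8 := by ring
    linarith
  -- sign at the two ends
  have hsgn : ∀ s σ : ℝ, |s| ≤ s₁ → |σ| ≤ 1 → (∀ z, 0 ≤ σ * (cm D (S s) z - z)) →
      σ * s = s₁ → σ * it α (disp (G * (cm D (S s))⁻¹)) N (x + 2 * w + w / 8) ≤ 0 := by
    intro s σ hs hσ hsign hσs
    obtain ⟨hSs, -, hH, -, hφ, hkc⟩ := hfact s hs
    have h1 : Ck * |s| ≤ 1 := hCks' s hs
    obtain ⟨-, -, -, -, -, -, hplat⟩ := hS s h1
    refine os2_sign (κ := 128 * A) (q := d * s * w) hw hα hA hσ hαw hN1 hG0 hGc hkc hGs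
      (os2_supp_cm hDs hSs) hsign (fun z hz => ?_) ?_ ?_ rfl (fun Y => ?_) ?_
    · exact hplat z hz
    · have h2 : |d * s * w| ≤ 128 * A := by
        rw [abs_mul, abs_mul, abs_of_pos hd, abs_of_pos hw, ← hs₁d]
        gcongr
      have h3 : 128 * A ≤ w / 32 := by linarith
      exact h2.trans h3
    · rw [← hs₁d, ← hσs]
      ring
    · exact (ck4_abs hH Y).trans hA3
    · exact (ck4_abs hφ _).trans hφ8
  have hcf : ContinuousOn (fun s : ℝ => it α (disp (G * (cm D (S s))⁻¹)) N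
      (x + 2 * w + w / 8)) (Icc (-s₁) s₁) := by
    have h3 : -1 / Ck ≤ -s₁ := by
      rw [div_le_iff₀ (by linarith)]
      linarith
    have h4 : s₁ ≤ 1 / Ck := by
      rw [le_div_iff₀ (by linarith)]
      linarith
    exact os2_cont' hGcont hcont N h3 h4 (x + 2 * w + w / 8)
  have hpos : it α (disp (G * (cm D (S s₁))⁻¹)) N (x + 2 * w + w / 8) ≤ 0 := by
    have h1 : |s₁| ≤ s₁ := by rw [abs_of_nonneg hs₁0]
    obtain ⟨-, -, -, -, hge, -, -⟩ := hS s₁ (by rw [abs_of_nonneg hs₁0]; exact hCks)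
    have h2 := hsgn s₁ 1 h1 (by rw [abs_one]) (fun z => by
      have := hge hs₁0 z
      linarith) (one_mul _)
    rwa [one_mul] at h2
  have hneg : 0 ≤ it α (disp (G * (cm D (S (-s₁)))⁻¹)) N (x + 2 * w + w / 8) := by
    have h1 : |(-s₁)| ≤ s₁ := by rw [abs_neg, abs_of_nonneg hs₁0]
    obtain ⟨-, -, -, -, -, hle, -⟩ := hS (-s₁) (by rw [abs_neg, abs_of_nonneg hs₁0]; exact hCks)
    have h2 := hsgn (-s₁) (-1) h1 (by rw [abs_neg, abs_one]) (fun z => by
      have := hle (by linarith) z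
      linarith) (by ring)
    linarith
  obtain ⟨s, hsI, hs0⟩ := intermediate_value_Icc' (by linarith : -s₁ ≤ s₁) hcf ⟨hpos, hneg⟩
  have hsa : |s| ≤ s₁ := abs_le.2 hsI
  obtain ⟨hSs, hSn, hH, hH', hφ, hkc⟩ := hfact s hsa
  have hγ0 : ∀ y ≤ x, disp (G * (cm D (S s))⁻¹) y = 0 := by
    intro y hy
    have h1 : (cm D (S s))⁻¹ y = y :=
      os2_inv_fix (os2_fix hkc (os2_supp_cm hDs hSs) y (Or.inl (by linarith)))
    have h2 : G y = y := os2_fix hGc hGs y (Or.inl hy)
    unfold disp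
    rw [Equiv.Perm.mul_apply, h1, h2, sub_self]
  have hEC' : E ≤ C := by linarith
  have hEC : E * A ≤ C * A := mul_le_mul_of_nonneg_right hEC' hA
  refine ⟨D, S s, it α (disp (G * (cm D (S s))⁻¹)) N, hDs, ?_, hSs, hSn,
    hH.mono le_rfl (by positivity) hEC hl le_rfl, hH'.mono le_rfl (by positivity) hEC hl le_rfl,
    ?_, os2_zero hα.le hγ0 N, fun y hy => ?_, hs0⟩
  · exact hDn.mono le_rfl (by positivity) (by gcongr) hw le_rfl
  · refine hφ.mono le_rfl (by positivity) ?_ hl le_rfl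
    gcongr
    linarith
  · have h1 : it α (disp (G * (cm D (S s))⁻¹)) (N + 1) y =
        it α (disp (G * (cm D (S s))⁻¹)) N y := os2_stab hγ0 N y (by linarith)
    rw [← h1]
    exact os2_step α _ N y

end GD31
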