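import Pool.Agent.LibGD31.EX2

/-! # PD: the data of the profile `w` (statement of the profile theorem in `PF.lean`) -/

open Filter Topology Set

namespace GD31

/-- the homothety ratio used for storage -/
noncomputable def uu : ℝ := 1 + Real.sqrt 2

/-- the big interval around the corner `p` of relative half width `20 δ` -/
def bigI (p δ : ℝ) : Set ℝ := Icc (p * (1 - 20 * δ)) (p * (1 + 20 * δ))

/-- The data of the profile: `w ~ a/z` in `C¹`, log-periodic between sparse levels `M s`,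
piecewise affine off small neighbourhoods of the corners `p q` (relative half width `δ q / 2`)
and off the transition octaves `[2^M s, 2^(M s + 1)]`. -/
structure PD (a : ℝ) (w : ℝ → ℝ) (M : ℕ → ℕ) {Q : Type} (p δ : Q → ℝ) : Prop where
  prof : Prof w
  odd : ∀ z, w (-z) = - w z
  lim0 : Tendsto (fun z => z * w z) (cocompact ℝ) (𝓝 a)
  lim1 : Tendsto (fun z => z ^ 2 * deriv w z) (cocompact ℝ) (𝓝 (-a))
  int : ∃ L, Tendsto (fun Z => ∫ t in (1 : ℝ)..Z, (w t - a / t)) atTop (𝓝 L)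
  Mmono : StrictMono M
  Mgap : Tendsto (fun s => M (s + 1) - M s) atTop atTop
  tau_small : ∀ (j i : ℕ), i ≤ 5 →
    Tendsto (fun z => z ^ (1 + i) * iteratedDeriv i (tau w j) z) (cocompact ℝ) (𝓝 0)
  tau_zero : ∀ j : ℕ, ∀ᶠ z in cocompact ℝ, tau w j z ≠ 0 →
    ∃ s, (2 : ℝ) ^ M s ≤ |z| ∧ |z| ≤ 2 ^ (M s + j + 1)
  one_le_p : ∀ q, 1 ≤ p q
  p_tend : Tendsto p cofinite atTop
  δ_pos : ∀ q, 0 < δ q
  δ_le : ∀ q, δ q ≤ 1 / 1000
  δ_low : ∀ q, p q ^ (-(1 / 40 : ℝ)) ≤ δ q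
  sec_zero : ∀ᶠ z in cocompact ℝ, deriv (deriv w) z ≠ 0 →
    (∃ s, (2 : ℝ) ^ M s ≤ |z| ∧ |z| ≤ 2 ^ (M s + 1)) ∨
    ∃ q, p q * (1 - δ q / 2) ≤ |z| ∧ |z| ≤ p q * (1 + δ q / 2)
  pow_two : ∀ᶠ m : ℕ in atTop, ∃ q, p q = 2 ^ m
  disj : Pairwise fun q q' => Disjoint (bigI (p q) (δ q)) (bigI (p q') (δ q'))
  iso : ∀ e : ℤ, e ≠ 0 → ∀ᶠ q in cofinite, ∀ q',
    Disjoint ((fun z => uu ^ e * z) '' bigI (p q) (δ q)) (bigI (p q') (δ q'))

end GD31
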