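import Pool.Agent.LibGD31.Defs

/-! # PF1: smooth staircase -/

open Filter Topology Set

namespace GD31

/-- smooth step from `0` (left of `-η/2`) to `1` (right of `η/2`). -/
noncomputable def pf1_tau (η : ℝ) (r : ℝ) : ℝ := Real.smoothTransition ((r + η / 2) / η)

theorem pf1_tau_smooth (η : ℝ) : Sm (pf1_tau η) := by
  unfold pf1_tau
  exact Real.smoothTransition.contDiff.comp ((contDiff_id.add contDiff_const).div_const _)

theorem pf1_tau_zero {η r : ℝ} (hη : 0 < η) (hr : r ≤ -(η / 2)) : pf1_tau η r = 0 := by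
  unfold pf1_tau
  apply Real.smoothTransition.zero_of_nonpos
  apply div_nonpos_of_nonpos_of_nonneg _ hη.le
  linarith

theorem pf1_tau_one {η r : ℝ} (hη : 0 < η) (hr : η / 2 ≤ r) : pf1_tau η r = 1 := by
  unfold pf1_tau
  apply Real.smoothTransition.one_of_one_le
  rw [le_div_iff₀ hη]
  linarith

/-- the staircase. -/
noncomputable def pf1_sig (η : ℝ) (t : ℝ) : ℝ :=
  (⌊t + 1 / 2⌋ : ℤ) - 1 + pf1_tau η (t - (⌊t + 1 / 2⌋ : ℤ))

theorem pf1_local {η : ℝ} (hη : 0 < η) (hη2 : η < 1 / 2) (n : ℤ) {s : ℝ}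
    (hs : |s - n| < 1 - η / 2) : pf1_sig η s = (n : ℝ) - 1 + pf1_tau η (s - n) := by
  unfold pf1_sig
  have h1 := Int.floor_le (s + 1 / 2)
  have h2 := Int.lt_floor_add_one (s + 1 / 2)
  rw [abs_lt] at hs
  obtain ⟨hs1, hs2⟩ := hs
  set m : ℤ := ⌊s + 1 / 2⌋ with hm
  have h3 : m < n + 2 := by
    have : (m : ℝ) < n + 2 := by linarith
    exact_mod_cast this
  have h4 : n - 2 < m := by
    have : (n : ℝ) - 2 < m := by linarith
    exact_mod_cast this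
  have h5 : m = n - 1 ∨ m = n ∨ m = n + 1 := by omega
  rcases h5 with h | h | h
  · rw [h] at h1 h2 ⊢
    push_cast at h1 h2 ⊢
    rw [pf1_tau_one hη (by linarith), pf1_tau_zero hη (by linarith)]
    ring
  · rw [h]
  · rw [h] at h1 h2 ⊢
    push_cast at h1 h2 ⊢
    rw [pf1_tau_zero hη (by linarith), pf1_tau_one hη (by linarith)]
    ring

theorem pf1_near (t : ℝ) : |t - (⌊t + 1 / 2⌋ : ℤ)| ≤ 1 / 2 := by
  have h1 := Int.floor_le (t + 1 / 2)
  have h2 := Int.lt_floor_add_one (t + 1 / 2)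
  rw [abs_le]
  constructor <;> linarith

theorem pf1_eventually {η : ℝ} (hη : 0 < η) (hη2 : η < 1 / 2) (t : ℝ) :
    pf1_sig η =ᶠ[𝓝 t] fun s : ℝ => ((⌊t + 1 / 2⌋ : ℤ) : ℝ) - 1 +
      pf1_tau η (s - (⌊t + 1 / 2⌋ : ℤ)) := by
  have h1 : |t - (⌊t + 1 / 2⌋ : ℤ)| < 1 - η / 2 := lt_of_le_of_lt (pf1_near t) (by linarith)
  have h2 : ∀ᶠ s : ℝ in 𝓝 t, |s - (⌊t + 1 / 2⌋ : ℤ)| < 1 - η / 2 :=
    (continuous_abs.comp (continuous_id.sub continuous_const)).continuousAt.eventually_lt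
      continuousAt_const h1
  filter_upwards [h2] with s hs
  exact pf1_local hη hη2 _ hs

/-- E.g. `n = ⌊t + 1/2⌋`, `r = t - n`, `σ t = n - 1 + Real.smoothTransition ((r + η) / (2 η))`:
it is locally constant near the half integers. -/
theorem exists_stair {η : ℝ} (hη : 0 < η) (hη2 : η < 1 / 2) : ∃ σ : ℝ → ℝ, Sm σ ∧
    (∀ t, σ (t + 1) = σ t + 1) ∧ (∀ t, |σ t - t| ≤ 2) ∧
    ∀ t, deriv σ t ≠ 0 → ∃ n : ℤ, |t - n| < η := by
  refine ⟨pf1_sig η, ?_, ?_, ?_, ?_⟩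
  · rw [Sm, contDiff_iff_contDiffAt]
    intro t
    refine ContDiffAt.congr_of_eventuallyEq ?_ (pf1_eventually hη hη2 t)
    exact (contDiff_const.add ((pf1_tau_smooth η).comp
      (contDiff_id.sub contDiff_const))).contDiffAt
  · intro t
    unfold pf1_sig
    have h1 : ⌊t + 1 + 1 / 2⌋ = ⌊t + 1 / 2⌋ + 1 := by
      rw [← Int.floor_add_one]
      congr 1
      ring
    rw [h1]
    push_cast
    rw [show t + 1 - ((⌊t + 1 / 2⌋ : ℤ) + 1 : ℝ) = t - (⌊t + 1 / 2⌋ : ℤ) by ring]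
    ring
  · intro t
    have h1 := pf1_near t
    unfold pf1_sig
    have h2 := Real.smoothTransition.nonneg ((t - (⌊t + 1 / 2⌋ : ℤ) + η / 2) / η)
    have h3 := Real.smoothTransition.le_one ((t - (⌊t + 1 / 2⌋ : ℤ) + η / 2) / η)
    unfold pf1_tau
    rw [abs_le] at h1 ⊢
    constructor <;> linarith [h1.1, h1.2]
  · intro t ht
    refine ⟨⌊t + 1 / 2⌋, ?_⟩
    by_contra hcon
    rw [not_lt] at hcon
    apply ht
    rw [(pf1_eventually hη hη2 t).deriv_eq]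
    rcases le_abs'.1 hcon with h | h
    · have h5 : ∀ᶠ s : ℝ in 𝓝 t, s - (⌊t + 1 / 2⌋ : ℤ) < -(η / 2) :=
        (continuous_id.sub continuous_const).continuousAt.eventually_lt
          continuousAt_const (by show t - (⌊t + 1 / 2⌋ : ℤ) < -(η / 2); linarith)
      have h6 : (fun s : ℝ => ((⌊t + 1 / 2⌋ : ℤ) : ℝ) - 1 +
          pf1_tau η (s - (⌊t + 1 / 2⌋ : ℤ))) =ᶠ[𝓝 t]
          fun _ => ((⌊t + 1 / 2⌋ : ℤ) : ℝ) - 1 + 0 := by
        filter_upwards [h5] with s hs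
        rw [pf1_tau_zero hη hs.le]
      rw [h6.deriv_eq, deriv_const]
    · have h5 : ∀ᶠ s : ℝ in 𝓝 t, η / 2 < s - (⌊t + 1 / 2⌋ : ℤ) :=
        continuousAt_const.eventually_lt (continuous_id.sub continuous_const).continuousAt
          (by show η / 2 < t - (⌊t + 1 / 2⌋ : ℤ); linarith)
      have h6 : (fun s : ℝ => ((⌊t + 1 / 2⌋ : ℤ) : ℝ) - 1 +
          pf1_tau η (s - (⌊t + 1 / 2⌋ : ℤ))) =ᶠ[𝓝 t]
          fun _ => ((⌊t + 1 / 2⌋ : ℤ) : ℝ) - 1 + 1 := by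
        filter_upwards [h5] with s hs
        rw [pf1_tau_one hη hs.le]
      rw [h6.deriv_eq, deriv_const]

end GD31
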