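import Pool.Agent.LibGD31.PF7

/-! # PF11: the corners of the glued profile -/

open Filter Topology Set

namespace GD31

/-- corners: octave `m ≥ M 0`, number `l < 2 ^ (level + 1)` in the octave -/
def QQ (lv M : ℕ → ℕ) : Type :=
  (m : {m : ℕ // M 0 ≤ m}) × Fin (2 ^ (lv (stg M m) + 1))

/-- position -/
noncomputable def pp (lv M : ℕ → ℕ) (q : QQ lv M) : ℝ :=
  cor (lv (stg M q.1) + 1) (((q.1 : ℕ) : ℤ) * 2 ^ (lv (stg M q.1) + 1) + ((q.2 : ℕ) : ℤ))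

/-- relative width: the one of the stage of the previous octave -/
noncomputable def dd (lv M : ℕ → ℕ) (δ : ℕ → ℝ) (q : QQ lv M) : ℝ :=
  δ (lv (stg M ((q.1 : ℕ) - 1)))

theorem pp_mem (lv M : ℕ → ℕ) (q : QQ lv M) :
    (2 : ℝ) ^ (q.1 : ℕ) ≤ pp lv M q ∧ pp lv M q < 2 ^ ((q.1 : ℕ) + 1) := by
  have hL : (0 : ℝ) < 2 ^ (lv (stg M q.1) + 1) := by positivity
  have hlt : ((q.2 : ℕ) : ℝ) < 2 ^ (lv (stg M q.1) + 1) := by exact_mod_cast q.2.2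
  have h0 : (0 : ℝ) ≤ ((q.2 : ℕ) : ℝ) / 2 ^ (lv (stg M q.1) + 1) := by positivity
  have h1 : ((q.2 : ℕ) : ℝ) / 2 ^ (lv (stg M q.1) + 1) < 1 := by
    rw [div_lt_one hL]
    exact hlt
  have hpp : pp lv M q = (2 : ℝ) ^ ((((q.1 : ℕ) : ℝ)) +
      ((q.2 : ℕ) : ℝ) / 2 ^ (lv (stg M q.1) + 1)) := by
    unfold pp cor
    congr 1
    push_cast
    field_simp
  rw [hpp]
  constructor
  · rw [← Real.rpow_natCast]
    exact Real.rpow_le_rpow_of_exponent_le one_le_two (by linarith)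
  · rw [← Real.rpow_natCast 2 ((q.1 : ℕ) + 1)]
    refine Real.rpow_lt_rpow_of_exponent_lt one_lt_two ?_
    push_cast
    linarith

theorem pp_tendsto (lv M : ℕ → ℕ) : Tendsto (pp lv M) cofinite atTop := by
  rw [tendsto_atTop]
  intro b
  rw [eventually_cofinite]
  have hfin : {m : {m : ℕ // M 0 ≤ m} | (m : ℕ) ≤ ⌈b⌉₊}.Finite :=
    (Set.finite_Iic ⌈b⌉₊).preimage Subtype.val_injective.injOn
  have hU : (⋃ m ∈ {m : {m : ℕ // M 0 ≤ m} | (m : ℕ) ≤ ⌈b⌉₊},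
      Set.range (Sigma.mk (β := fun m : {m : ℕ // M 0 ≤ m} => Fin (2 ^ (lv (stg M m) + 1)))
        m)).Finite :=
    hfin.biUnion fun m _ => Set.finite_range _
  refine hU.subset ?_
  intro q hq
  have h1 := (pp_mem lv M q).1
  have h2 : pp lv M q < b := not_le.1 hq
  have h3 : (((q.1 : ℕ) : ℕ) : ℝ) < 2 ^ (q.1 : ℕ) := by exact_mod_cast Nat.lt_two_pow_self
  have h4 : ((q.1 : ℕ) : ℝ) ≤ (⌈b⌉₊ : ℝ) := by
    have := Nat.le_ceil b
    linarith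
  have h5 : (q.1 : ℕ) ≤ ⌈b⌉₊ := by exact_mod_cast h4
  rw [Set.mem_iUnion₂]
  exact ⟨q.1, h5, q.2, rfl⟩

theorem countable_QQ (lv M : ℕ → ℕ) : Countable (QQ lv M) := by
  unfold QQ
  infer_instance

theorem pp_pow_two (lv M : ℕ → ℕ) : ∀ m : ℕ, M 0 ≤ m → ∃ q : QQ lv M, pp lv M q = 2 ^ m := by
  intro m hm
  refine ⟨Sigma.mk (β := fun m : {m : ℕ // M 0 ≤ m} => Fin (2 ^ (lv (stg M m) + 1)))
    ⟨m, hm⟩ ⟨0, by positivity⟩, ?_⟩
  show cor (lv (stg M m) + 1) ((m : ℤ) * 2 ^ (lv (stg M m) + 1) + ((0 : ℕ) : ℤ)) = 2 ^ m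
  rw [Nat.cast_zero, add_zero, cor_int]

/-- the width is not too small if `M s` is large -/
theorem dd_low {Ω : ℕ → ℝ → ℝ} {lv : ℕ → ℕ} {δ : ℕ → ℝ} (hΩ : Sq Ω lv δ)
    (hδ : Antitone δ) (hpos : ∀ i, 0 < δ i) : ∃ m : ℕ → ℕ, ∀ M : ℕ → ℕ, Lev M →
      (∀ s, m s ≤ M s) → ∀ q : QQ lv M, pp lv M q ^ (-(1 / 40 : ℝ)) ≤ dd lv M δ q := by
  have hex : ∀ s, ∃ n : ℕ, ((2 : ℝ) ^ n) ^ (-(1 / 40 : ℝ)) ≤ δ (lv s) := by
    intro s
    have h1 : Tendsto (fun n : ℕ => ((2 : ℝ) ^ n) ^ (-(1 / 40 : ℝ))) atTop (𝓝 0) :=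
      (tendsto_rpow_neg_atTop (by norm_num)).comp (tendsto_pow_atTop_atTop_of_one_lt one_lt_two)
    exact (h1.eventually_le_const (hpos (lv s))).exists
  choose m hm using hex
  refine ⟨m, fun M hM hmM q => ?_⟩
  have h1 : M (stg M ((q.1 : ℕ) - 1)) ≤ (q.1 : ℕ) := by
    rcases le_or_gt (M 0) ((q.1 : ℕ) - 1) with h | h
    · have := (stg_le hM h).1
      omega
    · rw [stg_eq_zero hM h]
      exact q.1.2
  have h2 : (2 : ℝ) ^ m (stg M ((q.1 : ℕ) - 1)) ≤ pp lv M q :=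
    (pow_le_pow_right₀ one_le_two ((hmM _).trans h1)).trans (pp_mem lv M q).1
  refine le_trans ?_ (hm (stg M ((q.1 : ℕ) - 1)))
  exact Real.rpow_le_rpow_of_nonpos (by positivity) h2 (by norm_num)

/-- where the second derivative lives: `z` in stage `s`, octave `m` with `M s + 1 ≤ m < M (s+1)`;
the corner `c` of `Ω s` near `z` (level `lv s + 1`, `Sq.sec`) is in one of the octaves
`m' = m - 1, m, m + 1`, whose level `lv (stg M m') + 1` is at least `lv s + 1` (`stg M (m-1) ≥ s`), so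
it is some `pp q` (`cor_level`); and `dd q = δ (lv (stg M (m' - 1))) ≥ δ (lv s)`. -/
theorem wp_sec {Ω : ℕ → ℝ → ℝ} {lv : ℕ → ℕ} {δ : ℕ → ℝ} (hΩ : Sq Ω lv δ) (hδ : Antitone δ)
    (hpos : ∀ i, 0 < δ i) (hle : ∀ i, δ i ≤ 1 / 1000)
    {M : ℕ → ℕ} (h : Lev M) : ∀ᶠ z in atTop, deriv (deriv (wp Ω M)) z ≠ 0 →
      (∃ s, (2 : ℝ) ^ M s ≤ z ∧ z ≤ 2 ^ (M s + 1)) ∨
      ∃ q : QQ lv M, pp lv M q * (1 - dd lv M δ q / 2) ≤ z ∧
        z ≤ pp lv M q * (1 + dd lv M δ q / 2) := by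
  have hlvm : Monotone lv :=
    monotone_nat_of_le_succ fun s => by rcases hΩ.lv_step s with h | h <;> omega
  filter_upwards [eventually_ge_atTop ((2 : ℝ) ^ (M 0 + 2))] with z hz hne
  have hz1 : (1 : ℝ) ≤ z := (one_le_pow₀ one_le_two).trans hz
  obtain ⟨m, hm1, hm2⟩ := exists_nat_pow_near hz1 (one_lt_two : (1 : ℝ) < 2)
  have hm0 : M 0 + 2 ≤ m := by
    have h1 : (2 : ℝ) ^ (M 0 + 2) < 2 ^ (m + 1) := lt_of_le_of_lt hz hm2
    have h2 := (pow_lt_pow_iff_right₀ (one_lt_two : (1 : ℝ) < 2)).1 h1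
    omega
  obtain ⟨hs1, hs2⟩ := stg_le h (show M 0 ≤ m by omega)
  set s := stg M m with hs
  by_cases hcase : z ≤ 2 ^ (M s + 1)
  · exact Or.inl ⟨s, (pow_le_pow_right₀ one_le_two hs1).trans hm1, hcase⟩
  right
  have hcase' : (2 : ℝ) ^ (M s + 1) < z := not_le.1 hcase
  have hms : M s + 1 ≤ m := by
    have h1 : (2 : ℝ) ^ (M s + 1) < 2 ^ (m + 1) := hcase'.trans hm2
    have h2 := (pow_lt_pow_iff_right₀ (one_lt_two : (1 : ℝ) < 2)).1 h1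
    omega
  have hzs : z < 2 ^ M (s + 1) := lt_of_lt_of_le hm2 (pow_le_pow_right₀ one_le_two hs2)
  have heq : wp Ω M =ᶠ[𝓝 z] Ω s := by
    filter_upwards [Ioo_mem_nhds hcase' hzs] with x hx
    exact wp_stage h s hx.1.le hx.2.le
  have hdd : deriv (deriv (wp Ω M)) z = deriv (deriv (Ω s)) z := heq.deriv.deriv_eq
  rw [hdd] at hne
  have hz0 : 0 < z := by linarith
  obtain ⟨n, hn1, hn2⟩ := hΩ.sec s z hz0 hne
  have hd0 := hpos (lv s)
  have hd1 := hle (lv s)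
  set c := cor (lv s + 1) n with hc
  have hc0 : 0 < c := cor_pos _ _
  have hcl : (2 : ℝ) ^ (m - 1) < c := by
    have h1 : (2 : ℝ) ^ m = 2 * 2 ^ (m - 1) := by
      rw [← pow_succ']
      congr 1
      omega
    have h2 : c * (1 + δ (lv s) / 2) ≤ c * (3 / 2) :=
      mul_le_mul_of_nonneg_left (by linarith) hc0.le
    have h3 : (0 : ℝ) < 2 ^ (m - 1) := by positivity
    linarith
  have hcu : c < (2 : ℝ) ^ (m + 2) := by
    have h1 : (2 : ℝ) ^ (m + 2) = 2 * 2 ^ (m + 1) := by rw [← pow_succ']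
    have h2 : c * (1 / 2) ≤ c * (1 - δ (lv s) / 2) :=
      mul_le_mul_of_nonneg_left (by linarith) hc0.le
    linarith
  -- the integers
  have hA : (0 : ℤ) < 2 ^ (lv s + 1) := by positivity
  have hAR : (0 : ℝ) < 2 ^ (lv s + 1) := by positivity
  have hn3 : ((m - 1 : ℕ) : ℤ) * 2 ^ (lv s + 1) < n := by
    rw [hc, cor, ← Real.rpow_natCast 2 (m - 1), Real.rpow_lt_rpow_left_iff one_lt_two,
      lt_div_iff₀ hAR] at hcl
    exact_mod_cast hcl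
  have hn4 : n < ((m + 2 : ℕ) : ℤ) * 2 ^ (lv s + 1) := by
    rw [hc, cor, ← Real.rpow_natCast 2 (m + 2), Real.rpow_lt_rpow_left_iff one_lt_two,
      div_lt_iff₀ hAR] at hcu
    exact_mod_cast hcu
  have hdiv := Int.mul_ediv_add_emod n (2 ^ (lv s + 1))
  have hr0 := Int.emod_nonneg n hA.ne'
  have hr1 := Int.emod_lt_of_pos n hA
  set A : ℤ := 2 ^ (lv s + 1) with hAdef
  set k : ℤ := n / A with hk
  set r : ℤ := n % A with hr
  have hk1 : ((m - 1 : ℕ) : ℤ) ≤ k := by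
    by_contra hcon
    have h1 : k + 1 ≤ ((m - 1 : ℕ) : ℤ) := by omega
    have h2 : (k + 1) * A ≤ ((m - 1 : ℕ) : ℤ) * A := mul_le_mul_of_nonneg_right h1 hA.le
    have h3 : A * k = k * A := mul_comm _ _
    rw [add_mul, one_mul] at h2
    omega
  have hk2 : k ≤ ((m + 1 : ℕ) : ℤ) := by
    by_contra hcon
    have h1 : ((m + 2 : ℕ) : ℤ) ≤ k := by
      push_cast at hcon ⊢
      omega
    have h2 : ((m + 2 : ℕ) : ℤ) * A ≤ k * A := mul_le_mul_of_nonneg_right h1 hA.le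
    have h3 : A * k = k * A := mul_comm _ _
    omega
  obtain ⟨m', hm'⟩ := Int.eq_ofNat_of_zero_le (show (0 : ℤ) ≤ k by omega)
  have hm'1 : m - 1 ≤ m' := by omega
  have hm'2 : m' ≤ m + 1 := by omega
  have hst : s ≤ stg M m' := pf6_le_stg h (by omega)
  have hlv : lv s ≤ lv (stg M m') := hlvm hst
  obtain ⟨D, hD⟩ := Nat.exists_eq_add_of_le hlv
  have hpow : (2 : ℤ) ^ (lv (stg M m') + 1) = A * 2 ^ D := by
    rw [hAdef, ← pow_add]
    congr 1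
    omega
  obtain ⟨l, hl⟩ := Int.eq_ofNat_of_zero_le (show (0 : ℤ) ≤ r * 2 ^ D by positivity)
  have hl2 : l < 2 ^ (lv (stg M m') + 1) := by
    have h1 : (l : ℤ) < (2 : ℤ) ^ (lv (stg M m') + 1) := by
      rw [← hl, hpow]
      exact mul_lt_mul_of_pos_right hr1 (by positivity)
    exact_mod_cast h1
  have hpp : cor (lv (stg M m') + 1) ((m' : ℤ) * 2 ^ (lv (stg M m') + 1) + (l : ℤ)) = c := by
    rw [hc, cor_level (show lv s + 1 ≤ lv (stg M m') + 1 by omega)]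
    congr 1
    have h1 : lv (stg M m') + 1 - (lv s + 1) = D := by omega
    rw [h1, hpow, ← hl, ← hm', ← hdiv]
    ring
  refine ⟨Sigma.mk (β := fun m : {m : ℕ // M 0 ≤ m} => Fin (2 ^ (lv (stg M m) + 1)))
    ⟨m', by omega⟩ ⟨l, hl2⟩, ?_⟩
  have hstg2 : stg M (m' - 1) ≤ s := pf6_stg_le h (by omega)
  have hdlt : δ (lv s) ≤ δ (lv (stg M (m' - 1))) := hδ (hlvm hstg2)
  show cor (lv (stg M m') + 1) ((m' : ℤ) * 2 ^ (lv (stg M m') + 1) + (l : ℤ)) *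
      (1 - δ (lv (stg M (m' - 1))) / 2) ≤ z ∧
    z ≤ cor (lv (stg M m') + 1) ((m' : ℤ) * 2 ^ (lv (stg M m') + 1) + (l : ℤ)) *
      (1 + δ (lv (stg M (m' - 1))) / 2)
  rw [hpp]
  constructor
  · exact (mul_le_mul_of_nonneg_left (by linarith) hc0.le).trans hn1.le
  · exact hn2.le.trans (mul_le_mul_of_nonneg_left (by linarith) hc0.le)

end GD31
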