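import Pool.Agent.LibGD31.PF1

/-! # PF2: the building block `V` (homogeneous of degree `-1` under doubling, `V' = -S` with `S` a
staircase in `log x`) -/

open Filter Topology Set

namespace GD31

private theorem pf2_l_pos : 0 < Real.log 2 := Real.log_pos (by norm_num)

private theorem pf2_l_le : Real.log 2 ≤ 1 := by
  have := Real.log_le_sub_one_of_pos (show (0 : ℝ) < 2 by norm_num)
  linarith

private noncomputable def pf2_T (N : ℕ) (x : ℝ) : ℝ := N * (Real.log x / Real.log 2)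

private noncomputable def pf2_S (N : ℕ) (σ : ℝ → ℝ) (x : ℝ) : ℝ :=
  Real.exp (-(2 * Real.log 2 / N) * σ (pf2_T N x))

private theorem pf2_sigma {σ : ℝ → ℝ} (h : ∀ t, σ (t + 1) = σ t + 1) (N : ℕ) (t : ℝ) :
    σ (t + N) = σ t + N := by
  induction N with
  | zero => simp
  | succ n ih =>
    push_cast
    rw [← add_assoc, h, ih]; ring

private theorem pf2_T_two (N : ℕ) {x : ℝ} (hx : 0 < x) : pf2_T N (2 * x) = pf2_T N x + N := by
  have hl := pf2_l_pos
  unfold pf2_T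
  rw [Real.log_mul (by norm_num) hx.ne']
  field_simp
  ring

private theorem pf2_S_pos (N : ℕ) (σ : ℝ → ℝ) (x : ℝ) : 0 < pf2_S N σ x := Real.exp_pos _

private theorem pf2_exp_two : Real.exp (-(2 * Real.log 2)) = 1 / 4 := by
  rw [Real.exp_neg, two_mul, Real.exp_add, Real.exp_log (by norm_num)]
  norm_num

private theorem pf2_S_two {σ : ℝ → ℝ} (h : ∀ t, σ (t + 1) = σ t + 1) {N : ℕ} (hN : 1 ≤ N) {x : ℝ}
    (hx : 0 < x) : pf2_S N σ (2 * x) = pf2_S N σ x / 4 := by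
  have hN' : (0 : ℝ) < N := by exact_mod_cast hN
  unfold pf2_S
  rw [pf2_T_two N hx, pf2_sigma h]
  have : -(2 * Real.log 2 / N) * (σ (pf2_T N x) + N)
      = -(2 * Real.log 2 / N) * σ (pf2_T N x) + -(2 * Real.log 2) := by
    field_simp
    ring
  rw [this, Real.exp_add, pf2_exp_two]
  ring

private theorem pf2_T_smooth (N : ℕ) :
    ContDiffOn ℝ ((⊤ : ℕ∞) : WithTop ℕ∞) (pf2_T N) (Ioi 0) := by
  unfold pf2_T
  refine ContDiffOn.mul contDiffOn_const (ContDiffOn.div_const ?_ _)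
  intro x hx
  exact (Real.contDiffAt_log.2 (ne_of_gt hx)).contDiffWithinAt

private theorem pf2_S_smooth (N : ℕ) {σ : ℝ → ℝ} (hσ : Sm σ) :
    ContDiffOn ℝ ((⊤ : ℕ∞) : WithTop ℕ∞) (pf2_S N σ) (Ioi 0) := by
  unfold pf2_S
  refine ContDiffOn.exp (ContDiffOn.mul contDiffOn_const ?_)
  exact hσ.comp_contDiffOn (pf2_T_smooth N)

private theorem pf2_sq_S {N : ℕ} (hN : 1 ≤ N) (σ : ℝ → ℝ) {x : ℝ} (hx : 0 < x) :
    x ^ 2 * pf2_S N σ x = Real.exp ((2 * Real.log 2 / N) * (pf2_T N x - σ (pf2_T N x))) := by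
  have hN' : (0 : ℝ) < N := by exact_mod_cast hN
  have hl := pf2_l_pos
  have hx2 : x ^ 2 = Real.exp ((2 * Real.log 2 / N) * pf2_T N x) := by
    have : (2 * Real.log 2 / N) * pf2_T N x = Real.log x + Real.log x := by
      unfold pf2_T
      field_simp
      ring
    rw [this, Real.exp_add, Real.exp_log hx]; ring
  rw [hx2, pf2_S, ← Real.exp_add]
  congr 1
  ring

private theorem pf2_abs_y {N : ℕ} (hN : 1 ≤ N) {σ : ℝ → ℝ} (hσ : ∀ t, |σ t - t| ≤ 2) (t : ℝ) :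
    |(2 * Real.log 2 / N) * (t - σ t)| ≤ 4 * Real.log 2 / N := by
  have hN' : (0 : ℝ) < N := by exact_mod_cast hN
  have hl := pf2_l_pos
  rw [abs_mul, abs_of_pos (by positivity), abs_sub_comm]
  have := mul_le_mul_of_nonneg_left (hσ t) (show 0 ≤ 2 * Real.log 2 / N by positivity)
  calc _ ≤ _ := this
    _ = _ := by ring

private theorem pf2_exp4 : Real.exp (4 * Real.log 2) = 16 := by
  have : 4 * Real.log 2 = Real.log 2 + Real.log 2 + Real.log 2 + Real.log 2 := by ring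
  rw [this, Real.exp_add, Real.exp_add, Real.exp_add, Real.exp_log (by norm_num)]; norm_num

private theorem pf2_div_le {N : ℕ} (hN : 1 ≤ N) {a : ℝ} (ha : 0 ≤ a) : a / N ≤ a := by
  have hN' : (1 : ℝ) ≤ N := by exact_mod_cast hN
  exact div_le_self ha hN'

private theorem pf2_exp_abs (y : ℝ) : |Real.exp y - 1| ≤ |y| * Real.exp |y| := by
  rcases le_total 0 y with h | h
  · rw [abs_of_nonneg h, abs_of_nonneg (by linarith [Real.add_one_le_exp y])]
    have h1 := Real.add_one_le_exp (-y)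
    have h2 : Real.exp y * Real.exp (-y) = 1 := by rw [← Real.exp_add]; simp
    nlinarith [Real.exp_pos y]
  · rw [abs_of_nonpos h]
    have h1 := Real.add_one_le_exp y
    have h3 : Real.exp y ≤ 1 := Real.exp_le_one_iff.2 h
    rw [abs_of_nonpos (by linarith)]
    have h4 : 1 ≤ Real.exp (-y) := Real.one_le_exp (by linarith)
    nlinarith

private theorem pf2_S_bound {N : ℕ} (hN : 1 ≤ N) {σ : ℝ → ℝ} (hσ : ∀ t, |σ t - t| ≤ 2) {x : ℝ}
    (hx : 0 < x) : |x ^ 2 * pf2_S N σ x - 1| ≤ (64 : ℝ) / (N : ℝ) := by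
  have hN' : (0 : ℝ) < N := by exact_mod_cast hN
  have hl := pf2_l_pos
  rw [pf2_sq_S hN σ hx]
  set y := (2 * Real.log 2 / N) * (pf2_T N x - σ (pf2_T N x)) with hy
  have h1 := pf2_abs_y hN hσ (pf2_T N x)
  rw [← hy] at h1
  have h2 : 4 * Real.log 2 / N ≤ 4 * Real.log 2 := pf2_div_le hN (by positivity)
  have h3 : Real.exp |y| ≤ 16 := by
    rw [← pf2_exp4]; exact Real.exp_le_exp.2 (h1.trans h2)
  calc |Real.exp y - 1| ≤ |y| * Real.exp |y| := pf2_exp_abs y
    _ ≤ (4 * Real.log 2 / N) * 16 := by gcongr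
    _ ≤ (4 * 1 / N) * 16 := by gcongr; exact pf2_l_le
    _ = 64 / N := by ring

private theorem pf2_S_low {N : ℕ} (hN : 1 ≤ N) {σ : ℝ → ℝ} (hσ : ∀ t, |σ t - t| ≤ 2) {x : ℝ}
    (hx : x ∈ Icc (1 : ℝ) 2) : 1 / 64 ≤ pf2_S N σ x := by
  have hN' : (0 : ℝ) < N := by exact_mod_cast hN
  have hl := pf2_l_pos
  have hx0 : 0 < x := lt_of_lt_of_le one_pos hx.1
  have h0 := pf2_sq_S hN σ hx0
  set y := (2 * Real.log 2 / N) * (pf2_T N x - σ (pf2_T N x)) with hy
  have h1 := pf2_abs_y hN hσ (pf2_T N x)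
  rw [← hy] at h1
  have h2 : 4 * Real.log 2 / N ≤ 4 * Real.log 2 := pf2_div_le hN (by positivity)
  have h3 : (1 : ℝ) / 16 ≤ Real.exp y := by
    have : Real.exp (-(4 * Real.log 2)) = 1 / 16 := by rw [Real.exp_neg, pf2_exp4]; norm_num
    rw [← this]
    exact Real.exp_le_exp.2 (by linarith [neg_abs_le y])
  have h4 : x ^ 2 ≤ 4 := by nlinarith [hx.1, hx.2]
  have h5 := pf2_S_pos N σ x
  nlinarith

private theorem pf2_deriv_S {N : ℕ} {σ : ℝ → ℝ} (hσ : Sm σ) {x : ℝ} (hx : 0 < x)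
    (h : deriv (pf2_S N σ) x ≠ 0) : deriv σ (pf2_T N x) ≠ 0 := by
  intro h0
  apply h
  have hT : DifferentiableAt ℝ (pf2_T N) x :=
    ((pf2_T_smooth N).contDiffAt (Ioi_mem_nhds hx)).differentiableAt (by simp)
  have hs : HasDerivAt σ (deriv σ (pf2_T N x)) (pf2_T N x) :=
    (hσ.differentiable (by simp)).differentiableAt.hasDerivAt
  have h1 := hs.comp x hT.hasDerivAt
  have h2 := (h1.const_mul (-(2 * Real.log 2 / N))).exp
  have h3 : HasDerivAt (pf2_S N σ) (Real.exp (-(2 * Real.log 2 / N) * (σ ∘ pf2_T N) x) *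
    (-(2 * Real.log 2 / N) * (deriv σ (pf2_T N x) * deriv (pf2_T N) x))) x := h2
  rw [h3.deriv, h0]; ring

/-- the unnormalised building block -/
private noncomputable def pf2_V (N : ℕ) (σ : ℝ → ℝ) (x : ℝ) : ℝ :=
  2 * (∫ t in (1 : ℝ)..2, pf2_S N σ t) - ∫ t in (1 : ℝ)..x, pf2_S N σ t

private theorem pf2_V_deriv (N : ℕ) {σ : ℝ → ℝ} (hσ : Sm σ) {x : ℝ} (hx : 0 < x) :
    HasDerivAt (pf2_V N σ) (-pf2_S N σ x) x := by
  have hc : ContinuousOn (pf2_S N σ) (Ioi 0) := (pf2_S_smooth N hσ).continuousOn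
  have hsub : uIcc 1 x ⊆ Ioi (0 : ℝ) := by
    intro t ht
    rw [mem_uIcc] at ht
    rcases ht with h | h
    · exact lt_of_lt_of_le one_pos h.1
    · exact lt_of_lt_of_le hx h.1
  have h1 : HasDerivAt (fun u => ∫ t in (1 : ℝ)..u, pf2_S N σ t) (pf2_S N σ x) x := by
    apply intervalIntegral.integral_hasDerivAt_right
    · exact (hc.mono hsub).intervalIntegrable
    · exact hc.stronglyMeasurableAtFilter isOpen_Ioi x hx
    · exact hc.continuousAt (Ioi_mem_nhds hx)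
  have h2 := h1.const_sub (2 * (∫ t in (1 : ℝ)..2, pf2_S N σ t))
  exact h2

private theorem pf2_V_one (N : ℕ) (σ : ℝ → ℝ) :
    pf2_V N σ 1 = 2 * (∫ t in (1 : ℝ)..2, pf2_S N σ t) := by
  simp [pf2_V]

private theorem pf2_V_two' (N : ℕ) (σ : ℝ → ℝ) :
    pf2_V N σ 2 = ∫ t in (1 : ℝ)..2, pf2_S N σ t := by
  unfold pf2_V; ring

private theorem pf2_V_two {N : ℕ} (hN : 1 ≤ N) {σ : ℝ → ℝ} (hσ : Sm σ)
    (h : ∀ t, σ (t + 1) = σ t + 1) {x : ℝ} (hx : 0 < x) :
    pf2_V N σ (2 * x) = pf2_V N σ x / 2 := by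
  set g : ℝ → ℝ := fun x => pf2_V N σ (2 * x) - pf2_V N σ x / 2 with hg
  have hd : ∀ y ∈ Ioi (0 : ℝ), HasDerivAt g 0 y := by
    intro y hy
    have hy' : 0 < y := hy
    have h1 : HasDerivAt (fun x => pf2_V N σ (2 * x)) (-pf2_S N σ (2 * y) * 2) y := by
      have h2 : HasDerivAt (fun x : ℝ => 2 * x) 2 y := by
        simpa using (hasDerivAt_id y).const_mul (2 : ℝ)
      have := (pf2_V_deriv N hσ (show 0 < 2 * y by positivity)).comp y h2
      exact this
    have h3 := h1.sub ((pf2_V_deriv N hσ hy').div_const 2)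
    have h4 : -pf2_S N σ (2 * y) * 2 - -pf2_S N σ y / 2 = 0 := by
      rw [pf2_S_two h hN hy']; ring
    rw [h4] at h3
    exact h3
  have h1 : g x = g 1 := by
    apply IsOpen.is_const_of_deriv_eq_zero isOpen_Ioi (convex_Ioi (0 : ℝ)).isPreconnected
      (fun y hy => (hd y hy).differentiableAt.differentiableWithinAt)
      (fun y hy => (hd y hy).deriv) hx (show (1 : ℝ) ∈ Ioi 0 by simp)
  have h2 : g 1 = 0 := by
    simp only [hg, mul_one]
    rw [pf2_V_one, pf2_V_two']; ring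
  rw [h2] at h1
  simp only [hg] at h1
  linarith

/-- a function of `x > 0` invariant under doubling takes all its values on `[1, 2]` -/
private theorem pf2_reduce {P : ℝ → Prop} (h2 : ∀ x, 0 < x → (P (2 * x) ↔ P x))
    (h : ∀ x ∈ Icc (1 : ℝ) 2, P x) {x : ℝ} (hx : 0 < x) : P x := by
  obtain ⟨n, hn⟩ := exists_mem_Ico_zpow hx (show (1 : ℝ) < 2 by norm_num)
  have key : ∀ (m : ℤ) (y : ℝ), 0 < y → (P ((2 : ℝ) ^ m * y) ↔ P y) := by
    intro m
    induction m using Int.induction_on with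
    | zero => intro y _; simp
    | succ i ih =>
      intro y hy
      have : (2 : ℝ) ^ ((i : ℤ) + 1) * y = 2 * ((2 : ℝ) ^ (i : ℤ) * y) := by
        rw [zpow_add_one₀ (by norm_num)]; ring
      rw [this, h2 _ (by positivity), ih y hy]
    | pred i ih =>
      intro y hy
      have : (2 : ℝ) ^ (-(i : ℤ)) * y = 2 * ((2 : ℝ) ^ (-(i : ℤ) - 1) * y) := by
        rw [zpow_sub_one₀ (by norm_num)]; ring
      rw [← ih y hy, this, h2 _ (by positivity)]
  have hp : (0 : ℝ) < (2 : ℝ) ^ n := by positivity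
  have h3 : x = (2 : ℝ) ^ n * (x / (2 : ℝ) ^ n) := by field_simp
  rw [h3, key n _ (by positivity)]
  apply h
  constructor
  · rw [le_div_iff₀ hp]; simpa using hn.1
  · rw [div_le_iff₀ hp]
    have := hn.2
    rw [zpow_add_one₀ (by norm_num)] at this
    linarith

private theorem pf2_D {N : ℕ} (hN : 1 ≤ N) {σ : ℝ → ℝ} (hσ : Sm σ)
    (h : ∀ t, σ (t + 1) = σ t + 1) (hb : ∀ t, |σ t - t| ≤ 2) {x : ℝ} (hx : x ∈ Icc (1 : ℝ) 2) :
    |pf2_V N σ x - 1 / x| ≤ 192 / N := by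
  have hN' : (0 : ℝ) < N := by exact_mod_cast hN
  set D : ℝ → ℝ := fun x => pf2_V N σ x - x⁻¹ with hD
  have hd : ∀ y ∈ Icc (1 : ℝ) 2, HasDerivAt D (-pf2_S N σ y - -(y ^ 2)⁻¹) y := by
    intro y hy
    have hy0 : 0 < y := lt_of_lt_of_le one_pos hy.1
    exact (pf2_V_deriv N hσ hy0).sub (hasDerivAt_inv hy0.ne')
  have hd2 : ∀ y ∈ Icc (1 : ℝ) 2, ‖-pf2_S N σ y - -(y ^ 2)⁻¹‖ ≤ 64 / N := by
    intro y hy
    have hy0 : 0 < y := lt_of_lt_of_le one_pos hy.1
    have h1 := pf2_S_bound hN hb hy0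
    have h2 : -pf2_S N σ y - -(y ^ 2)⁻¹ = -(y ^ 2 * pf2_S N σ y - 1) / y ^ 2 := by
      field_simp; ring
    rw [Real.norm_eq_abs, h2, abs_div, abs_neg, abs_of_pos (show 0 < y ^ 2 by positivity)]
    refine (div_le_self (abs_nonneg _) ?_).trans h1
    nlinarith [hy.1]
  have hmvt : ∀ y ∈ Icc (1 : ℝ) 2, |D y - D 1| ≤ 64 / N := by
    intro y hy
    have h1 : ‖D y - D 1‖ ≤ 64 / N * ‖y - 1‖ :=
      (convex_Icc (1 : ℝ) 2).norm_image_sub_le_of_norm_hasDerivWithin_le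
        (fun z hz => (hd z hz).hasDerivWithinAt) hd2 (by simp) hy
    rw [Real.norm_eq_abs, Real.norm_eq_abs, abs_of_nonneg (show 0 ≤ y - 1 by linarith [hy.1])] at h1
    have h3 : (0 : ℝ) ≤ 64 / N := by positivity
    nlinarith [hy.2]
  have hD2 : D 2 = D 1 / 2 := by
    have := pf2_V_two hN hσ h (show (0 : ℝ) < 1 by norm_num)
    simp only [hD]
    rw [mul_one] at this
    rw [this]; norm_num; ring
  have h1 := hmvt 2 (by simp)
  have h2 : |D 1| ≤ 128 / N := by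
    rw [hD2] at h1
    have : D 1 / 2 - D 1 = -(D 1 / 2) := by ring
    rw [this, abs_neg, abs_div, abs_of_pos (show (0 : ℝ) < 2 by norm_num)] at h1
    have h3 : (128 : ℝ) / N = 2 * (64 / N) := by ring
    rw [h3]; linarith
  have h3 := hmvt x hx
  have h4 : |D x| ≤ |D x - D 1| + |D 1| := by
    have := abs_add_le (D x - D 1) (D 1)
    simpa using this
  have h5 : (192 : ℝ) / N = 64 / N + 128 / N := by ring
  have h6 : pf2_V N σ x - 1 / x = D x := by simp [hD]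
  rw [h6, h5]; linarith

private theorem pf2_A {N : ℕ} (hN : 1 ≤ N) {σ : ℝ → ℝ} (hσ : Sm σ)
    (hb : ∀ t, |σ t - t| ≤ 2) : 1 / 64 ≤ ∫ t in (1 : ℝ)..2, pf2_S N σ t := by
  have hc : ContinuousOn (pf2_S N σ) (Ioi 0) := (pf2_S_smooth N hσ).continuousOn
  have hsub : uIcc (1 : ℝ) 2 ⊆ Ioi (0 : ℝ) := by
    intro t ht
    rw [uIcc_of_le (by norm_num)] at ht
    exact lt_of_lt_of_le one_pos ht.1
  have h1 : ∫ t in (1 : ℝ)..2, (1 / 64 : ℝ) ≤ ∫ t in (1 : ℝ)..2, pf2_S N σ t := by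
    apply intervalIntegral.integral_mono_on (by norm_num)
    · exact intervalIntegrable_const
    · exact (hc.mono hsub).intervalIntegrable
    · intro x hx; exact pf2_S_low hN hb hx
  simp only [intervalIntegral.integral_const, smul_eq_mul] at h1
  linarith

private theorem pf2_V_low {N : ℕ} (hN : 1 ≤ N) {σ : ℝ → ℝ} (hσ : Sm σ)
    (hb : ∀ t, |σ t - t| ≤ 2) {x : ℝ} (hx : x ∈ Icc (1 : ℝ) 2) : 1 / 64 ≤ pf2_V N σ x := by
  have h1 : AntitoneOn (pf2_V N σ) (Icc 1 2) := by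
    apply antitoneOn_of_deriv_nonpos (convex_Icc 1 2)
    · intro y hy
      exact (pf2_V_deriv N hσ (lt_of_lt_of_le one_pos hy.1)).continuousAt.continuousWithinAt
    · intro y hy
      rw [interior_Icc] at hy
      exact (pf2_V_deriv N hσ (lt_trans one_pos hy.1)).differentiableAt.differentiableWithinAt
    · intro y hy
      rw [interior_Icc] at hy
      rw [(pf2_V_deriv N hσ (lt_trans one_pos hy.1)).deriv]
      linarith [pf2_S_pos N σ y]
  have h2 := h1 hx (show (2 : ℝ) ∈ Icc (1 : ℝ) 2 by simp) hx.2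
  rw [pf2_V_two'] at h2
  exact (pf2_A hN hσ hb).trans h2

private theorem pf2_V_smooth (N : ℕ) {σ : ℝ → ℝ} (hσ : Sm σ) :
    ContDiffOn ℝ ((⊤ : ℕ∞) : WithTop ℕ∞) (pf2_V N σ) (Ioi 0) := by
  have h : ((⊤ : ℕ∞) : WithTop ℕ∞) = ((⊤ : ℕ∞) : WithTop ℕ∞) + 1 := by rfl
  rw [h, contDiffOn_succ_iff_deriv_of_isOpen isOpen_Ioi]
  refine ⟨fun y hy => (pf2_V_deriv N hσ hy).differentiableAt.differentiableWithinAt, ?_, ?_⟩
  · intro h; exact absurd h (by simp)
  · refine (pf2_S_smooth N hσ).neg.congr ?_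
    intro y hy
    exact (pf2_V_deriv N hσ hy).deriv

private theorem pf2_I {N : ℕ} (hN : 1 ≤ N) {σ : ℝ → ℝ} (hσ : Sm σ)
    (h : ∀ t, σ (t + 1) = σ t + 1) (hb : ∀ t, |σ t - t| ≤ 2) :
    1 / 64 ≤ (∫ t in (1 : ℝ)..2, pf2_V N σ t) ∧
      |(∫ t in (1 : ℝ)..2, pf2_V N σ t) - Real.log 2| ≤ 192 / N := by
  have hc : ContinuousOn (pf2_V N σ) (Ioi 0) := (pf2_V_smooth N hσ).continuousOn
  have hsub : uIcc (1 : ℝ) 2 ⊆ Ioi (0 : ℝ) := by
    intro t ht
    rw [uIcc_of_le (by norm_num)] at ht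
    exact lt_of_lt_of_le one_pos ht.1
  have hi : IntervalIntegrable (pf2_V N σ) MeasureTheory.volume 1 2 :=
    (hc.mono hsub).intervalIntegrable
  constructor
  · have h1 : ∫ t in (1 : ℝ)..2, (1 / 64 : ℝ) ≤ ∫ t in (1 : ℝ)..2, pf2_V N σ t := by
      apply intervalIntegral.integral_mono_on (by norm_num) intervalIntegrable_const hi
      intro x hx; exact pf2_V_low hN hσ hb hx
    simp only [intervalIntegral.integral_const, smul_eq_mul] at h1
    linarith
  · have hlog : ∫ t in (1 : ℝ)..2, 1 / t = Real.log 2 := by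
      rw [integral_one_div_of_pos (by norm_num) (by norm_num)]; norm_num
    have hi2 : IntervalIntegrable (fun t : ℝ => 1 / t) MeasureTheory.volume 1 2 := by
      apply ContinuousOn.intervalIntegrable
      intro t ht
      have : (0 : ℝ) < t := hsub ht
      exact (continuousAt_const.div continuousAt_id this.ne').continuousWithinAt
    rw [← hlog, ← intervalIntegral.integral_sub hi hi2]
    have h1 := intervalIntegral.norm_integral_le_of_norm_le_const
      (a := 1) (b := 2) (C := 192 / N) (f := fun t => pf2_V N σ t - 1 / t) ?_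
    · rw [Real.norm_eq_abs] at h1
      norm_num at h1 ⊢
      exact h1
    · intro x hx
      rw [uIoc_of_le (by norm_num)] at hx
      exact pf2_D hN hσ h hb ⟨hx.1.le, hx.2⟩

/-- `η = N δ / 2`, `S x = 2 ^ (-2 σ (N log₂ x) / N)` (so `S (2 x) = S x / 4`,
`|x² S x - 1| ≤ C / N`, `S' = 0` unless `|N log₂ x - n| < η`, i.e.
`2^(n/N) 2^(-δ/2) < x < 2^(n/N) 2^(δ/2)`), `V₀ x = 2 ∫_1^2 S - ∫_1^x S`
(`V₀ (2 x) = V₀ x / 2`, `|x V₀ x - 1| ≤ C / N`), `V = (log 2 / ∫_1^2 V₀) V₀`. -/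
theorem exists_V : ∃ C : ℝ, 0 ≤ C ∧ ∀ (N : ℕ) (δ : ℝ), 1 ≤ N → 0 < δ → N * δ < 1 →
    ∃ V : ℝ → ℝ, ContDiffOn ℝ ((⊤ : ℕ∞) : WithTop ℕ∞) V (Ioi 0) ∧
      (∀ x, 0 < x → V (2 * x) = V x / 2) ∧ (∀ x, 0 < x → |x * V x - 1| ≤ C / N) ∧
      (∀ x, 0 < x → |x ^ 2 * deriv V x + 1| ≤ C / N) ∧
      (∫ x in (1 : ℝ)..2, V x = Real.log 2) ∧
      ∀ x, 0 < x → deriv (deriv V) x ≠ 0 → ∃ n : ℤ,
        (2 : ℝ) ^ ((n : ℝ) / N) * (1 - δ / 2) < x ∧ x < (2 : ℝ) ^ ((n : ℝ) / N) * (1 + δ / 2) := by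
  refine ⟨36864, by norm_num, ?_⟩
  intro N δ hN hδ hNδ
  have hN' : (0 : ℝ) < N := by exact_mod_cast hN
  have hN1 : (1 : ℝ) ≤ N := by exact_mod_cast hN
  have hl := pf2_l_pos
  have hl1 := pf2_l_le
  obtain ⟨σ, hσ, hp, hb, hz⟩ := exists_stair (η := N * δ / 2) (by positivity) (by linarith)
  obtain ⟨hI1, hI2⟩ := pf2_I hN hσ hp hb
  set I := ∫ t in (1 : ℝ)..2, pf2_V N σ t with hI
  have hI0 : 0 < I := by linarith
  set c := Real.log 2 / I with hc
  have hc0 : 0 < c := by positivity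
  have hc64 : c ≤ 64 := by
    rw [hc, div_le_iff₀ hI0]; linarith
  have hc1 : |c - 1| ≤ 12288 / N := by
    have h1 : c - 1 = -(I - Real.log 2) / I := by rw [hc]; field_simp; ring
    rw [h1, abs_div, abs_neg, abs_of_pos hI0, div_le_iff₀ hI0]
    refine hI2.trans ?_
    have h2 : (12288 : ℝ) / N * (1 / 64) = 192 / N := by ring
    have h3 : (12288 : ℝ) / N * (1 / 64) ≤ 12288 / N * I := by gcongr
    linarith
  have hdV : ∀ x, 0 < x → HasDerivAt (fun x => c * pf2_V N σ x) (c * -pf2_S N σ x) x :=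
    fun x hx => (pf2_V_deriv N hσ hx).const_mul c
  refine ⟨fun x => c * pf2_V N σ x, ?_, ?_, ?_, ?_, ?_, ?_⟩
  · exact contDiffOn_const.mul (pf2_V_smooth N hσ)
  · intro x hx
    simp only
    rw [pf2_V_two hN hσ hp hx]; ring
  · intro x hx
    refine pf2_reduce (P := fun x => |x * (c * pf2_V N σ x) - 1| ≤ 36864 / N) ?_ ?_ hx
    · intro y hy
      rw [pf2_V_two hN hσ hp hy]
      have : 2 * y * (c * (pf2_V N σ y / 2)) = y * (c * pf2_V N σ y) := by ring
      rw [this]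
    · intro y hy
      have hy0 : 0 < y := lt_of_lt_of_le one_pos hy.1
      have h1 := pf2_D hN hσ hp hb hy
      have h2 : y * (c * pf2_V N σ y) - 1 = c * (y * (pf2_V N σ y - 1 / y)) + (c - 1) := by
        field_simp; ring
      rw [h2]
      refine (abs_add_le _ _).trans ?_
      rw [abs_mul, abs_mul, abs_of_pos hc0, abs_of_pos hy0]
      have h3 : c * (y * |pf2_V N σ y - 1 / y|) ≤ 64 * (2 * (192 / N)) := by
        have := hy.2
        gcongr
      have h4 : (36864 : ℝ) / N = 64 * (2 * (192 / N)) + 12288 / N := by ring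
      linarith
  · intro x hx
    rw [(hdV x hx).deriv]
    have h1 := pf2_S_bound hN hb hx
    have h2 : x ^ 2 * (c * -pf2_S N σ x) + 1 = -(c * (x ^ 2 * pf2_S N σ x - 1) + (c - 1)) := by
      ring
    rw [h2, abs_neg]
    refine (abs_add_le _ _).trans ?_
    rw [abs_mul, abs_of_pos hc0]
    have h3 : c * |x ^ 2 * pf2_S N σ x - 1| ≤ 64 * (64 / N) := by gcongr
    have h4 : (36864 : ℝ) / N = 64 * (64 / N) + 12288 / N + 20480 / N := by ring
    have h5 : (0 : ℝ) ≤ 20480 / N := by positivity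
    linarith
  · rw [intervalIntegral.integral_const_mul, ← hI, hc]
    field_simp
  · intro x hx h
    have h1 : deriv (fun x => c * pf2_V N σ x) =ᶠ[𝓝 x] fun x => (-c) * pf2_S N σ x := by
      filter_upwards [Ioi_mem_nhds hx] with y hy
      rw [(hdV y hy).deriv]; ring
    rw [h1.deriv_eq] at h
    have hS : DifferentiableAt ℝ (pf2_S N σ) x :=
      ((pf2_S_smooth N hσ).contDiffAt (Ioi_mem_nhds hx)).differentiableAt (by simp)
    rw [deriv_const_mul _ hS] at h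
    have h2 : deriv (pf2_S N σ) x ≠ 0 := fun h0 => h (by rw [h0]; ring)
    obtain ⟨n, hn⟩ := hz _ (pf2_deriv_S hσ hx h2)
    refine ⟨n, ?_⟩
    set θ := Real.log x / Real.log 2 - n / N with hθ
    have h3 : pf2_T N x - n = N * θ := by
      rw [hθ, pf2_T]; field_simp
    rw [h3, abs_mul, abs_of_pos hN'] at hn
    have h4 : |θ| < δ / 2 := by
      have : (N : ℝ) * |θ| < N * (δ / 2) := by linarith
      exact lt_of_mul_lt_mul_left this hN'.le
    obtain ⟨h5, h6⟩ := abs_lt.1 h4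
    have hδ1 : δ < 1 := by nlinarith
    have hx2 : x = (2 : ℝ) ^ ((n : ℝ) / N) * (2 : ℝ) ^ θ := by
      rw [← Real.rpow_add (by norm_num), hθ]
      have : (n : ℝ) / N + (Real.log x / Real.log 2 - n / N) = Real.log x / Real.log 2 := by ring
      rw [this, Real.rpow_def_of_pos (by norm_num)]
      have : Real.log 2 * (Real.log x / Real.log 2) = Real.log x := by field_simp
      rw [this, Real.exp_log hx]
    have hpos : (0 : ℝ) < (2 : ℝ) ^ ((n : ℝ) / N) := by positivity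
    have hlow : 1 - δ / 2 < (2 : ℝ) ^ θ := by
      rw [Real.rpow_def_of_pos (by norm_num)]
      have h7 := Real.add_one_le_exp (Real.log 2 * θ)
      rcases le_total 0 θ with h8 | h8
      · have : 0 ≤ Real.log 2 * θ := by positivity
        linarith
      · have : θ ≤ Real.log 2 * θ := by nlinarith
        linarith
    have hup : (2 : ℝ) ^ θ < 1 + δ / 2 := by
      rcases le_total 0 θ with h8 | h8
      · have h9 := rpow_one_add_le_one_add_mul_self (s := (1 : ℝ)) (by norm_num) h8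
          (by linarith)
        norm_num at h9
        linarith
      · have h9 := Real.rpow_le_one_of_one_le_of_nonpos (show (1 : ℝ) ≤ 2 by norm_num) h8
        linarith
    constructor
    · calc (2 : ℝ) ^ ((n : ℝ) / N) * (1 - δ / 2) < (2 : ℝ) ^ ((n : ℝ) / N) * (2 : ℝ) ^ θ := by
            gcongr
        _ = x := hx2.symm
    · calc x = (2 : ℝ) ^ ((n : ℝ) / N) * (2 : ℝ) ^ θ := hx2
        _ < (2 : ℝ) ^ ((n : ℝ) / N) * (1 + δ / 2) := by gcongr

end GD31
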