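import Pool.Agent.LibGD31.PD

/-! # PF3: powers of `1 + √2` and of `2 ^ (1/N)` are multiplicatively independent -/

open Filter Topology Set

namespace GD31

theorem pf3_pow (n : ℕ) : ∃ a b : ℤ, 0 ≤ a ∧ 0 < b ∧ uu ^ (n + 1) = a + b * Real.sqrt 2 := by
  induction n with
  | zero => exact ⟨1, 1, by norm_num, by norm_num, by simp [uu]⟩
  | succ n ih =>
    obtain ⟨a, b, ha, hb, h⟩ := ih
    refine ⟨a + 2 * b, a + b, by omega, by omega, ?_⟩
    rw [pow_succ, h]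
    have h2 : Real.sqrt 2 * Real.sqrt 2 = 2 := Real.mul_self_sqrt (by norm_num)
    unfold uu
    push_cast
    linear_combination (b : ℝ) * h2

theorem pf3_uu_pos : 0 < uu := by
  unfold uu
  positivity

theorem pf3_one_lt_uu : 1 < uu := by
  unfold uu
  have : 0 < Real.sqrt 2 := by positivity
  linarith

theorem pf3_irr_pow {n : ℕ} (hn : 0 < n) : Irrational (uu ^ n) := by
  obtain ⟨m, rfl⟩ : ∃ m, n = m + 1 := ⟨n - 1, by omega⟩
  obtain ⟨a, b, ha, hb, h⟩ := pf3_pow m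
  rw [h]
  have h1 : Irrational ((b : ℝ) * Real.sqrt 2) := irrational_sqrt_two.intCast_mul hb.ne'
  exact h1.intCast_add a

/-- `uu ^ k = a + b √2` with integers `a, b`, `b ≠ 0`. -/
theorem irrational_uu_zpow {k : ℤ} (hk : k ≠ 0) : Irrational (uu ^ k) := by
  rcases lt_or_gt_of_ne hk with h | h
  · have h1 : 0 < (-k).toNat := by omega
    have h2 : uu ^ k = (uu ^ (-k).toNat)⁻¹ := by
      rw [← zpow_natCast, ← zpow_neg]
      congr 1
      omega
    rw [h2]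
    exact (pf3_irr_pow h1).inv
  · have h1 : 0 < k.toNat := by omega
    have h2 : uu ^ k = uu ^ k.toNat := by
      rw [← zpow_natCast]
      congr 1
      omega
    rw [h2]
    exact pf3_irr_pow h1

theorem pf3_ne (N : ℕ) (hN : 1 ≤ N) (e n : ℤ) (hen : e ≠ 0 ∨ n ≠ 0) :
    uu ^ e * (2 : ℝ) ^ ((n : ℝ) / N) ≠ 1 := by
  intro h
  have hN0 : (N : ℝ) ≠ 0 := by positivity
  have h1 : (uu ^ e * (2 : ℝ) ^ ((n : ℝ) / N)) ^ N = 1 := by rw [h, one_pow]
  rw [mul_pow, ← Real.rpow_natCast ((2 : ℝ) ^ ((n : ℝ) / N)), ← Real.rpow_mul (by norm_num),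
    div_mul_cancel₀ _ hN0, Real.rpow_intCast, ← zpow_natCast (uu ^ e), ← zpow_mul] at h1
  by_cases he : e = 0
  · have hn : n ≠ 0 := by
      rcases hen with h | h
      · exact absurd he h
      · exact h
    rw [he, zero_mul, zpow_zero, one_mul] at h1
    rcases (zpow_eq_one_iff_of_ne_zero₀ hn).1 h1 with h3 | h3
    · norm_num at h3
    · norm_num at h3
  · have h2 : e * (N : ℤ) ≠ 0 := mul_ne_zero he (by exact_mod_cast (by omega : N ≠ 0))
    have h3 := irrational_uu_zpow h2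
    apply h3
    refine ⟨(2 : ℚ) ^ (-n), ?_⟩
    push_cast
    rw [zpow_neg]
    exact (eq_inv_of_mul_eq_one_left h1).symm

theorem pf3_fin {α : Type} (f : α → ℝ) (S : Finset α) (h : ∀ i ∈ S, 0 < f i) :
    ∃ η : ℝ, 0 < η ∧ η ≤ 1 / 2 ∧ ∀ i ∈ S, η ≤ f i := by
  classical
  induction S using Finset.induction_on with
  | empty => exact ⟨1 / 2, by norm_num, le_refl _, by simp⟩
  | insert a S ha ih =>
    obtain ⟨η, h1, h2, h3⟩ := ih (fun i hi => h i (Finset.mem_insert_of_mem hi))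
    refine ⟨min η (f a), lt_min h1 (h a (Finset.mem_insert_self a S)),
      (min_le_left _ _).trans h2, ?_⟩
    intro i hi
    rcases Finset.mem_insert.1 hi with rfl | hi
    · exact min_le_right _ _
    · exact (min_le_left _ _).trans (h3 i hi)

/-- If `uu ^ e * 2 ^ (n / N) = 1` then `uu ^ (e N)` is rational. For `n / N` large compared with
`E` the difference is at least `1/2`; the remaining pairs are finite in number. -/
theorem exists_gap (N E : ℕ) (hN : 1 ≤ N) : ∃ η : ℝ, 0 < η ∧ ∀ (e n : ℤ), e.natAbs ≤ E →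
    (e ≠ 0 ∨ n ≠ 0) → η ≤ |uu ^ e * (2 : ℝ) ^ ((n : ℝ) / N) - 1| := by
  have hN0 : (0 : ℝ) < N := by positivity
  obtain ⟨T, hT⟩ := pow_unbounded_of_one_lt (2 * uu ^ E) (by norm_num : (1 : ℝ) < 2)
  obtain ⟨η, h1, h2, h3⟩ := pf3_fin
    (fun p : ℤ × ℤ => |uu ^ p.1 * (2 : ℝ) ^ ((p.2 : ℝ) / N) - 1|)
    ((Finset.Icc (-(E : ℤ)) E ×ˢ Finset.Icc (-((T * N : ℕ) : ℤ)) (T * N : ℕ)).filter
      (fun p => p.1 ≠ 0 ∨ p.2 ≠ 0)) (by
      intro p hp
      have h4 := (Finset.mem_filter.1 hp).2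
      exact abs_pos.2 (sub_ne_zero.2 (pf3_ne N hN p.1 p.2 h4)))
  refine ⟨η, h1, fun e n he hen => ?_⟩
  have hE1 : uu ^ e ≤ uu ^ E := by
    rw [← zpow_natCast]
    exact zpow_le_zpow_right₀ pf3_one_lt_uu.le (by omega)
  have hE2 : (uu ^ E)⁻¹ ≤ uu ^ e := by
    rw [← zpow_natCast, ← zpow_neg]
    exact zpow_le_zpow_right₀ pf3_one_lt_uu.le (by omega)
  have hE0 : 0 < uu ^ E := pow_pos pf3_uu_pos _
  by_cases hn : n ∈ Finset.Icc (-((T * N : ℕ) : ℤ)) (T * N : ℕ)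
  · exact h3 (e, n) (Finset.mem_filter.2 ⟨Finset.mem_product.2 ⟨Finset.mem_Icc.2
      ⟨by show -(E : ℤ) ≤ e; omega, by show e ≤ (E : ℤ); omega⟩, hn⟩, hen⟩)
  · rw [Finset.mem_Icc, not_and_or, not_le, not_le] at hn
    rcases hn with hn | hn
    · have h5 : (n : ℝ) / N ≤ -(T : ℝ) := by
        rw [div_le_iff₀ hN0]
        have : (n : ℝ) < -((T * N : ℕ) : ℝ) := by exact_mod_cast hn
        push_cast at this
        linarith
      have h6 : (2 : ℝ) ^ ((n : ℝ) / N) ≤ (2 * uu ^ E)⁻¹ := by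
        calc (2 : ℝ) ^ ((n : ℝ) / N) ≤ (2 : ℝ) ^ (-(T : ℝ)) :=
              Real.rpow_le_rpow_of_exponent_le (by norm_num) h5
          _ = ((2 : ℝ) ^ T)⁻¹ := by rw [Real.rpow_neg (by norm_num), Real.rpow_natCast]
          _ ≤ (2 * uu ^ E)⁻¹ := inv_anti₀ (by positivity) hT.le
      have h7 : uu ^ e * (2 : ℝ) ^ ((n : ℝ) / N) ≤ 1 / 2 := by
        calc uu ^ e * (2 : ℝ) ^ ((n : ℝ) / N) ≤ uu ^ E * (2 * uu ^ E)⁻¹ :=
              mul_le_mul hE1 h6 (by positivity) hE0.le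
          _ = 1 / 2 := by field_simp
      rw [abs_sub_comm]
      exact h2.trans (le_trans (by linarith) (le_abs_self _))
    · have h5 : (T : ℝ) ≤ (n : ℝ) / N := by
        rw [le_div_iff₀ hN0]
        have : ((T * N : ℕ) : ℝ) < (n : ℝ) := by exact_mod_cast hn
        push_cast at this
        linarith
      have h6 : 2 * uu ^ E ≤ (2 : ℝ) ^ ((n : ℝ) / N) := by
        calc 2 * uu ^ E ≤ (2 : ℝ) ^ T := hT.le
          _ = (2 : ℝ) ^ (T : ℝ) := (Real.rpow_natCast _ _).symm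
          _ ≤ (2 : ℝ) ^ ((n : ℝ) / N) := Real.rpow_le_rpow_of_exponent_le (by norm_num) h5
      have h7 : 2 ≤ uu ^ e * (2 : ℝ) ^ ((n : ℝ) / N) := by
        calc 2 = (uu ^ E)⁻¹ * (2 * uu ^ E) := by field_simp
          _ ≤ uu ^ e * (2 : ℝ) ^ ((n : ℝ) / N) :=
              mul_le_mul hE2 h6 (by positivity) (zpow_pos pf3_uu_pos _).le
      exact h2.trans (le_trans (by linarith) (le_abs_self _))

end GD31
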