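import Pool.Agent.LibGD31.PF3

/-! # PF4: the widths -/

open Filter Topology Set

namespace GD31

/-- corner number `n` of level `L` -/
noncomputable def cor (L : ℕ) (n : ℤ) : ℝ := (2 : ℝ) ^ ((n : ℝ) / 2 ^ L)

theorem cor_pos (L : ℕ) (n : ℤ) : 0 < cor L n :=
  Real.rpow_pos_of_pos two_pos _

theorem cor_add (L : ℕ) (n : ℤ) : cor L (n + 2 ^ L) = 2 * cor L n := by
  unfold cor
  have h1 : ((n + 2 ^ L : ℤ) : ℝ) / 2 ^ L = (n : ℝ) / 2 ^ L + 1 := by
    push_cast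
    have h2 : (2 : ℝ) ^ L ≠ 0 := by positivity
    field_simp
  rw [h1, Real.rpow_add two_pos, Real.rpow_one, mul_comm]

theorem cor_level {L L' : ℕ} (h : L ≤ L') (n : ℤ) : cor L n = cor L' (n * 2 ^ (L' - L)) := by
  unfold cor
  have h1 : ((n * 2 ^ (L' - L) : ℤ) : ℝ) / 2 ^ L' = (n : ℝ) / 2 ^ L := by
    push_cast
    have h2 : (2 : ℝ) ^ L' = 2 ^ (L' - L) * 2 ^ L := by
      rw [← pow_add, Nat.sub_add_cancel h]
    rw [h2]
    have h3 : (2 : ℝ) ^ L ≠ 0 := by positivity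
    have h4 : (2 : ℝ) ^ (L' - L) ≠ 0 := by positivity
    field_simp
  rw [h1]

theorem cor_int (L : ℕ) (m : ℕ) : cor L (m * 2 ^ L) = 2 ^ m := by
  unfold cor
  have h1 : ((m * 2 ^ L : ℤ) : ℝ) / 2 ^ L = (m : ℝ) := by
    push_cast
    have h3 : (2 : ℝ) ^ L ≠ 0 := by positivity
    field_simp
  rw [h1, Real.rpow_natCast]

theorem pf4_disj {i : ℕ} {η : ℝ} (hη : ∀ (e n : ℤ), e.natAbs ≤ i →
    (e ≠ 0 ∨ n ≠ 0) → η ≤ |uu ^ e * (2 : ℝ) ^ ((n : ℝ) / (2 ^ (i + 2) : ℕ)) - 1|) {n n' e : ℤ}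
    {D d d' : ℝ} (hD : D ≤ 1 / 1000) (hDη : 100 * D ≤ η) (he : e.natAbs ≤ i)
    (hne : e ≠ 0 ∨ n ≠ n') (hd : 0 < d) (hdD : d ≤ D) (hd' : 0 < d') (hdD' : d' ≤ D) :
    Disjoint ((fun z => uu ^ e * z) '' bigI (cor (i + 2) n) d) (bigI (cor (i + 2) n') d') := by
  rw [Set.disjoint_left]
  rintro z ⟨y, hy, rfl⟩ hz
  have hp := cor_pos (i + 2) n
  have hp' := cor_pos (i + 2) n'
  have hu : 0 < uu ^ e := zpow_pos (by unfold uu; positivity) e
  have h1 := hη e (n - n') he (hne.imp id sub_ne_zero.2)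
  have h2 : (2 : ℝ) ^ (((n - n' : ℤ) : ℝ) / (2 ^ (i + 2) : ℕ)) = cor (i + 2) n / cor (i + 2) n' := by
    unfold cor
    rw [← Real.rpow_sub two_pos]
    congr 1
    push_cast
    ring
  rw [h2] at h1
  set P := cor (i + 2) n with hP
  set P' := cor (i + 2) n' with hP'
  unfold bigI at hy hz
  obtain ⟨hy1, hy2⟩ := hy
  obtain ⟨hz1, hz2⟩ := hz
  simp only at hz1 hz2
  -- `X = uu ^ e * P / P'`
  have hX0 : 0 < uu ^ e * (P / P') := by positivity
  have e1 : uu ^ e * (P * (1 - 20 * d)) ≤ P' * (1 + 20 * d') :=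
    (mul_le_mul_of_nonneg_left hy1 hu.le).trans hz2
  have e2 : P' * (1 - 20 * d') ≤ uu ^ e * (P * (1 + 20 * d)) :=
    hz1.trans (mul_le_mul_of_nonneg_left hy2 hu.le)
  have e3 : uu ^ e * (P / P') * (1 - 20 * d) ≤ 1 + 20 * d' := by
    have h3 : uu ^ e * (P / P') * (1 - 20 * d) = uu ^ e * (P * (1 - 20 * d)) / P' := by ring
    rw [h3, div_le_iff₀ hp']
    linarith
  have e4 : 1 - 20 * d' ≤ uu ^ e * (P / P') * (1 + 20 * d) := by
    have h3 : uu ^ e * (P / P') * (1 + 20 * d) = uu ^ e * (P * (1 + 20 * d)) / P' := by ring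
    rw [h3, le_div_iff₀ hp']
    linarith
  generalize uu ^ e * (P / P') = X at *
  have h5 : X ≤ 2 := by
    by_contra h6
    push Not at h6
    nlinarith
  have h6 : |X - 1| < 100 * D := by
    rw [abs_lt]
    constructor
    · nlinarith
    · nlinarith
  linarith

/-- widths: choose `δ i ≤ η / 100` with `η` from `exists_gap (2 ^ (i + 2)) i`, and decreasing. -/
theorem exists_widths : ∃ δ : ℕ → ℝ, Antitone δ ∧ (∀ i, 0 < δ i) ∧ (∀ i, δ i ≤ 1 / 1000) ∧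
    (∀ i, 2 ^ i * δ i < 1) ∧
    ∀ (i : ℕ) (n n' e : ℤ) (d d' : ℝ), e.natAbs ≤ i → (e ≠ 0 ∨ n ≠ n') → 0 < d → d ≤ δ i →
      0 < d' → d' ≤ δ i →
      Disjoint ((fun z => uu ^ e * z) '' bigI (cor (i + 2) n) d) (bigI (cor (i + 2) n') d') := by
  have hgap : ∀ i : ℕ, ∃ η : ℝ, 0 < η ∧ ∀ (e n : ℤ), e.natAbs ≤ i →
    (e ≠ 0 ∨ n ≠ 0) → η ≤ |uu ^ e * (2 : ℝ) ^ ((n : ℝ) / (2 ^ (i + 2) : ℕ)) - 1| := fun i =>
      exists_gap (2 ^ (i + 2)) i Nat.one_le_two_pow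
  choose η hη0 hη using hgap
  let g : ℕ → ℝ := fun i => min (min (η i / 100) (1 / 1000)) (1 / 2 ^ (i + 1))
  have hg0 : ∀ i, 0 < g i := fun i =>
    lt_min (lt_min (by have := hη0 i; positivity) (by norm_num)) (by positivity)
  let δ : ℕ → ℝ := fun i => Nat.rec (g 0) (fun i d => min d (g (i + 1))) i
  have hδs : ∀ i, δ (i + 1) = min (δ i) (g (i + 1)) := fun i => rfl
  have hδ0 : δ 0 = g 0 := rfl
  have hanti : Antitone δ := antitone_nat_of_succ_le fun i => by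
    rw [hδs]
    exact min_le_left _ _
  have hδg : ∀ i, δ i ≤ g i := fun i => by
    cases i with
    | zero => exact hδ0.le
    | succ i =>
      rw [hδs]
      exact min_le_right _ _
  have hpos : ∀ i, 0 < δ i := fun i => by
    induction i with
    | zero =>
      rw [hδ0]
      exact hg0 0
    | succ i ih =>
      rw [hδs]
      exact lt_min ih (hg0 _)
  have hle : ∀ i, δ i ≤ 1 / 1000 := fun i =>
    (hδg i).trans ((min_le_left _ _).trans (min_le_right _ _))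
  refine ⟨δ, hanti, hpos, hle, fun i => ?_, fun i n n' e d d' he hne hd hdδ hd' hdδ' => ?_⟩
  · have h1 : δ i ≤ 1 / 2 ^ (i + 1) := (hδg i).trans (min_le_right _ _)
    have h2 : (0 : ℝ) < 2 ^ i := by positivity
    calc 2 ^ i * δ i ≤ 2 ^ i * (1 / 2 ^ (i + 1)) := mul_le_mul_of_nonneg_left h1 h2.le
      _ = 1 / 2 := by
        rw [pow_succ]
        field_simp
      _ < 1 := by norm_num
  · have h1 : δ i ≤ η i / 100 := (hδg i).trans ((min_le_left _ _).trans (min_le_left _ _))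
    exact pf4_disj (hη i) (hle i) (by linarith) he hne hd hdδ hd' hdδ'

end GD31
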