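import Pool.Agent.LibGD31.PF2
import Pool.Agent.LibGD31.PF4

/-! # PF5: the slow path of building blocks -/

open Filter Topology Set

namespace GD31

/-- A slow path `Ω s` of homogeneous profiles; `lv s` is the level, the corners of `Ω s` are of
level `lv s + 1` and width `δ (lv s)`. -/
structure Sq (Ω : ℕ → ℝ → ℝ) (lv : ℕ → ℕ) (δ : ℕ → ℝ) : Prop where
  smooth : ∀ s, ContDiffOn ℝ ((⊤ : ℕ∞) : WithTop ℕ∞) (Ω s) (Ioi 0)
  hom : ∀ s x, 0 < x → Ω s (2 * x) = Ω s x / 2
  near : ∃ b : ℕ → ℝ, Tendsto b atTop (𝓝 0) ∧ ∀ s x, 0 < x →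
    |x * Ω s x - 1| ≤ b s ∧ |x ^ 2 * deriv (Ω s) x + 1| ≤ b s
  int : ∀ s, ∫ x in (1 : ℝ)..2, Ω s x = Real.log 2
  step : ∃ β : ℕ → ℝ, Tendsto β atTop (𝓝 0) ∧ ∀ s, ∀ i ≤ 9, ∀ x ∈ Icc (1 : ℝ) 2,
    |iteratedDeriv i (fun t => Ω (s + 1) t - Ω s t) x| ≤ β s
  sum : ∃ γ : ℕ → ℝ, Summable γ ∧ ∀ s, ∀ x ∈ Icc (1 : ℝ) 2, |Ω (s + 1) x - Ω s x| ≤ γ s
  sec : ∀ s x, 0 < x → deriv (deriv (Ω s)) x ≠ 0 → ∃ n : ℤ,
    cor (lv s + 1) n * (1 - δ (lv s) / 2) < x ∧ x < cor (lv s + 1) n * (1 + δ (lv s) / 2)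
  lv_zero : lv 0 = 0
  lv_step : ∀ s, lv (s + 1) = lv s ∨ lv (s + 1) = lv s + 1
  lv_tend : Tendsto lv atTop atTop

/-- bound of the first nine derivatives on `[1, 2]` -/
private theorem pf5_bound {f : ℝ → ℝ} (hf : ContDiffOn ℝ ((⊤ : ℕ∞) : WithTop ℕ∞) f (Ioi 0)) :
    ∃ M : ℝ, ∀ j ≤ 9, ∀ x ∈ Icc (1 : ℝ) 2, |iteratedDeriv j f x| ≤ M := by
  have h1 : ∀ j : ℕ, ∃ M : ℝ, ∀ x ∈ Icc (1 : ℝ) 2, |iteratedDeriv j f x| ≤ M := by
    intro j
    have hc : ContinuousOn (iteratedDeriv j f) (Ioi 0) := by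
      have h2 := hf.continuousOn_iteratedDerivWithin (m := j) (by exact_mod_cast le_top)
        isOpen_Ioi.uniqueDiffOn
      exact h2.congr fun x hx => (iteratedDerivWithin_of_isOpen isOpen_Ioi hx).symm
    have hc2 : ContinuousOn (iteratedDeriv j f) (Icc 1 2) :=
      hc.mono fun x hx => lt_of_lt_of_le one_pos hx.1
    obtain ⟨M, hM⟩ := isCompact_Icc.exists_bound_of_continuousOn hc2
    exact ⟨M, fun x hx => hM x hx⟩
  choose M hM using h1
  refine ⟨∑ j ∈ Finset.range 10, |M j|, fun j hj x hx => ?_⟩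
  calc |iteratedDeriv j f x| ≤ M j := hM j x hx
    _ ≤ |M j| := le_abs_self _
    _ ≤ ∑ j ∈ Finset.range 10, |M j| :=
      Finset.single_le_sum (f := fun j => |M j|) (fun i _ => abs_nonneg _)
        (Finset.mem_range.2 (by omega))

/-- the next state -/
private def pf5_next (K : ℕ → ℕ) (p : ℕ × ℕ) : ℕ × ℕ :=
  if p.2 + 1 < K p.1 then (p.1, p.2 + 1) else (p.1 + 1, 0)

/-- the sequence of states -/
private def pf5_st (K : ℕ → ℕ) : ℕ → ℕ × ℕ
  | 0 => (0, 0)
  | s + 1 => pf5_next K (pf5_st K s)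

private theorem pf5_st_succ (K : ℕ → ℕ) (s : ℕ) : pf5_st K (s + 1) = pf5_next K (pf5_st K s) := rfl

private theorem pf5_lt {K : ℕ → ℕ} (hK : ∀ i, 1 ≤ K i) (s : ℕ) :
    (pf5_st K s).2 < K (pf5_st K s).1 := by
  induction s with
  | zero => exact hK 0
  | succ s ih =>
    rw [pf5_st_succ, pf5_next]
    split_ifs with h
    · exact h
    · exact hK _

private theorem pf5_reach {K : ℕ → ℕ} (hK : ∀ i, 1 ≤ K i) (i : ℕ) :
    ∀ t, t < K i → ∃ s, pf5_st K s = (i, t) := by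
  induction i with
  | zero =>
    intro t
    induction t with
    | zero => intro _; exact ⟨0, rfl⟩
    | succ t ih =>
      intro h
      obtain ⟨s, hs⟩ := ih (by omega)
      refine ⟨s + 1, ?_⟩
      rw [pf5_st_succ, hs, pf5_next, if_pos h]
  | succ i ih =>
    intro t
    induction t with
    | zero =>
      intro _
      obtain ⟨s, hs⟩ := ih (K i - 1) (by have := hK i; omega)
      refine ⟨s + 1, ?_⟩
      rw [pf5_st_succ, hs, pf5_next, if_neg (by have := hK i; simp only; omega)]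
    | succ t ih2 =>
      intro h
      obtain ⟨s, hs⟩ := ih2 (by omega)
      refine ⟨s + 1, ?_⟩
      rw [pf5_st_succ, hs, pf5_next, if_pos h]

private theorem pf5_step (K : ℕ → ℕ) (s : ℕ) :
    (pf5_st K (s + 1)).1 = (pf5_st K s).1 ∨ (pf5_st K (s + 1)).1 = (pf5_st K s).1 + 1 := by
  rw [pf5_st_succ, pf5_next]
  split_ifs with h
  · exact Or.inl rfl
  · exact Or.inr rfl

private theorem pf5_tend {K : ℕ → ℕ} (hK : ∀ i, 1 ≤ K i) :
    Tendsto (fun s => (pf5_st K s).1) atTop atTop := by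
  apply tendsto_atTop_atTop_of_monotone
  · apply monotone_nat_of_le_succ
    intro s
    rcases pf5_step K s with h | h <;> rw [h]
    omega
  · intro i
    obtain ⟨s, hs⟩ := pf5_reach hK i 0 (hK i)
    exact ⟨s, by rw [hs]⟩

/-- the profile at the state `p` -/
private noncomputable def pf5_O (V : ℕ → ℝ → ℝ) (K : ℕ → ℕ) (p : ℕ × ℕ) (x : ℝ) : ℝ :=
  (1 - (p.2 : ℝ) / K p.1) * V p.1 x + (p.2 : ℝ) / K p.1 * V (p.1 + 1) x

private theorem pf5_diff (V : ℕ → ℝ → ℝ) {K : ℕ → ℕ} (hK : ∀ i, 1 ≤ K i) (s : ℕ) (x : ℝ) :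
    pf5_O V K (pf5_st K (s + 1)) x - pf5_O V K (pf5_st K s) x =
      (1 / (K (pf5_st K s).1 : ℝ)) * (V ((pf5_st K s).1 + 1) x - V (pf5_st K s).1 x) := by
  have hlt := pf5_lt hK s
  rw [pf5_st_succ]
  generalize pf5_st K s = p at hlt ⊢
  obtain ⟨i, t⟩ := p
  simp only at hlt ⊢
  have hK0 : (K i : ℝ) ≠ 0 := by have := hK i; positivity
  unfold pf5_next
  split_ifs with h
  · simp only [pf5_O]
    push_cast
    field_simp
    ring
  · have ht : t + 1 = K i := by simp only at h; omega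
    have ht' : (K i : ℝ) = t + 1 := by rw [← ht]; push_cast; ring
    simp only [pf5_O]
    have hp : (t : ℝ) + 1 ≠ 0 := by positivity
    rw [ht']
    field_simp
    push_cast
    ring

/-- the potential of the total variation -/
private noncomputable def pf5_F (C : ℝ) (K : ℕ → ℕ) (p : ℕ × ℕ) : ℝ :=
  4 * C - 4 * C / 2 ^ p.1 + p.2 * (2 * C / 2 ^ p.1 / K p.1)

private theorem pf5_F_diff (C : ℝ) {K : ℕ → ℕ} (hK : ∀ i, 1 ≤ K i) (s : ℕ) :
    pf5_F C K (pf5_st K (s + 1)) - pf5_F C K (pf5_st K s) =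
      2 * C / 2 ^ (pf5_st K s).1 / K (pf5_st K s).1 := by
  have hlt := pf5_lt hK s
  rw [pf5_st_succ]
  generalize pf5_st K s = p at hlt ⊢
  obtain ⟨i, t⟩ := p
  simp only at hlt ⊢
  have hK0 : (K i : ℝ) ≠ 0 := by have := hK i; positivity
  unfold pf5_next
  split_ifs with h
  · simp only [pf5_F]
    push_cast
    ring
  · have ht : t + 1 = K i := by simp only at h; omega
    have ht' : (t : ℝ) = K i - 1 := by rw [← ht]; push_cast; ring
    simp only [pf5_F]
    rw [ht', pow_succ]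
    field_simp
    push_cast
    ring

private theorem pf5_F_le {C : ℝ} (hC : 0 ≤ C) {K : ℕ → ℕ} (hK : ∀ i, 1 ≤ K i) (s : ℕ) :
    pf5_F C K (pf5_st K s) ≤ 4 * C := by
  have hlt := pf5_lt hK s
  generalize pf5_st K s = p at hlt ⊢
  obtain ⟨i, t⟩ := p
  simp only [pf5_F] at hlt ⊢
  have hK0 : (0 : ℝ) < K i := by have := hK i; positivity
  have h1 : (t : ℝ) * (2 * C / 2 ^ i / K i) ≤ 4 * C / 2 ^ i := by
    have h2 : (t : ℝ) * (2 * C / 2 ^ i / K i) = (t / K i) * (2 * C / 2 ^ i) := by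
      field_simp
    have h3 : (t : ℝ) / K i ≤ 1 := by
      rw [div_le_one hK0]; exact_mod_cast hlt.le
    have h4 : 0 ≤ 2 * C / 2 ^ i := by positivity
    have h5 : 4 * C / 2 ^ i = 2 * (2 * C / 2 ^ i) := by ring
    rw [h2, h5]
    nlinarith
  linarith

/-- `V i` from `exists_V` with `N = 2^i`, `δ i`. Choose `K i ≥ 1` such that the `C⁹[1,2]` norm of
`V (i+1) - V i` divided by `K i` is at most `2^(-i)`; state `(i, t)`, `t < K i`, next state
`(i, t+1)` or `(i+1, 0)`; `Ω = (1 - t/K i) V i + (t/K i) V (i+1)`. Then `Ω next - Ω =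
(V (i+1) - V i) / K i`, and the sum of the `C⁰` norms is `∑ ‖V (i+1) - V i‖ ≤ ∑ C 2^(-i)`. -/
theorem exists_Sq {δ : ℕ → ℝ} (hδ : Antitone δ) (hpos : ∀ i, 0 < δ i)
    (hsmall : ∀ i, 2 ^ i * δ i < 1) : ∃ (Ω : ℕ → ℝ → ℝ) (lv : ℕ → ℕ), Sq Ω lv δ := by
  obtain ⟨C, hC, hV⟩ := exists_V
  have h0 : ∀ i : ℕ, ∃ V : ℝ → ℝ, ContDiffOn ℝ ((⊤ : ℕ∞) : WithTop ℕ∞) V (Ioi 0) ∧
      (∀ x, 0 < x → V (2 * x) = V x / 2) ∧ (∀ x, 0 < x → |x * V x - 1| ≤ C / 2 ^ i) ∧
      (∀ x, 0 < x → |x ^ 2 * deriv V x + 1| ≤ C / 2 ^ i) ∧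
      (∫ x in (1 : ℝ)..2, V x = Real.log 2) ∧
      ∀ x, 0 < x → deriv (deriv V) x ≠ 0 → ∃ n : ℤ,
        cor i n * (1 - δ i / 2) < x ∧ x < cor i n * (1 + δ i / 2) := by
    intro i
    obtain ⟨V, h1, h2, h3, h4, h5, h6⟩ := hV (2 ^ i) (δ i) Nat.one_le_two_pow (hpos i)
      (by push_cast; exact hsmall i)
    push_cast at h3 h4 h6
    exact ⟨V, h1, h2, h3, h4, h5, h6⟩
  choose V hVs hVh hV0 hV1 hVi hVc using h0
  have hM : ∀ i, ∃ M : ℝ, ∀ j ≤ 9, ∀ x ∈ Icc (1 : ℝ) 2,
      |iteratedDeriv j (fun t => V (i + 1) t - V i t) x| ≤ M :=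
    fun i => pf5_bound ((hVs (i + 1)).sub (hVs i))
  choose M hM using hM
  have hK : ∀ i, ∃ K : ℕ, 1 ≤ K ∧ M i * 2 ^ i ≤ K := by
    intro i
    obtain ⟨K, hK⟩ := exists_nat_ge (M i * 2 ^ i)
    exact ⟨K + 1, by omega, by push_cast; linarith⟩
  choose K hK1 hK2 using hK
  set st := pf5_st K with hst
  have hKp : ∀ i, (0 : ℝ) < K i := fun i => by have := hK1 i; positivity
  have ha : ∀ s, 0 ≤ ((st s).2 : ℝ) / K (st s).1 ∧ ((st s).2 : ℝ) / K (st s).1 ≤ 1 := by
    intro s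
    have := pf5_lt hK1 s
    refine ⟨by positivity, ?_⟩
    rw [div_le_one (hKp _)]
    exact_mod_cast this.le
  have hdV : ∀ i, ∀ x, 0 < x → HasDerivAt (V i) (deriv (V i) x) x := fun i x hx =>
    (((hVs i).contDiffAt (Ioi_mem_nhds hx)).differentiableAt (by simp)).hasDerivAt
  have hdO : ∀ s, ∀ x, 0 < x → HasDerivAt (pf5_O V K (st s))
      ((1 - ((st s).2 : ℝ) / K (st s).1) * deriv (V (st s).1) x +
        ((st s).2 : ℝ) / K (st s).1 * deriv (V ((st s).1 + 1)) x) x := fun s x hx =>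
    ((hdV _ x hx).const_mul _).add ((hdV _ x hx).const_mul _)
  have hp2 : ∀ i : ℕ, C / 2 ^ (i + 1) ≤ C / 2 ^ i := by
    intro i
    rw [pow_succ]
    have : (0 : ℝ) < 2 ^ i := by positivity
    apply div_le_div_of_nonneg_left hC this
    linarith
  have hconv : ∀ a A B c : ℝ, 0 ≤ a → a ≤ 1 → |A| ≤ c → |B| ≤ c →
      |(1 - a) * A + a * B| ≤ c := by
    intro a A B c h1 h2 h3 h4
    refine (abs_add_le _ _).trans ?_
    rw [abs_mul, abs_mul, abs_of_nonneg h1, abs_of_nonneg (by linarith : 0 ≤ 1 - a)]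
    nlinarith
  have htend : Tendsto (fun s => (st s).1) atTop atTop := pf5_tend hK1
  refine ⟨fun s => pf5_O V K (st s), fun s => (st s).1, ?_⟩
  constructor
  · -- smooth
    intro s
    exact (contDiffOn_const.mul (hVs _)).add (contDiffOn_const.mul (hVs _))
  · -- hom
    intro s x hx
    simp only [pf5_O]
    rw [hVh _ x hx, hVh _ x hx]; ring
  · -- near
    refine ⟨fun s => C / 2 ^ (st s).1, ?_, ?_⟩
    · have h1 : Tendsto (fun i : ℕ => C * (1 / 2 : ℝ) ^ i) atTop (𝓝 (C * 0)) :=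
        (tendsto_pow_atTop_nhds_zero_of_lt_one (by norm_num) (by norm_num)).const_mul C
      rw [mul_zero] at h1
      refine (h1.comp htend).congr ?_
      intro s
      simp only [Function.comp, inv_pow, div_eq_mul_inv, one_mul]
    · intro s x hx
      obtain ⟨ha0, ha1⟩ := ha s
      constructor
      · have : x * pf5_O V K (st s) x - 1 =
            (1 - ((st s).2 : ℝ) / K (st s).1) * (x * V (st s).1 x - 1) +
              ((st s).2 : ℝ) / K (st s).1 * (x * V ((st s).1 + 1) x - 1) := by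
          simp only [pf5_O]; ring
        rw [this]
        exact hconv _ _ _ _ ha0 ha1 (hV0 _ x hx) ((hV0 _ x hx).trans (hp2 _))
      · have : x ^ 2 * deriv (pf5_O V K (st s)) x + 1 =
            (1 - ((st s).2 : ℝ) / K (st s).1) * (x ^ 2 * deriv (V (st s).1) x + 1) +
              ((st s).2 : ℝ) / K (st s).1 * (x ^ 2 * deriv (V ((st s).1 + 1)) x + 1) := by
          rw [(hdO s x hx).deriv]; ring
        rw [this]
        exact hconv _ _ _ _ ha0 ha1 (hV1 _ x hx) ((hV1 _ x hx).trans (hp2 _))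
  · -- int
    intro s
    have hi : ∀ i, IntervalIntegrable (V i) MeasureTheory.volume 1 2 := by
      intro i
      apply ContinuousOn.intervalIntegrable
      apply (hVs i).continuousOn.mono
      intro t ht
      rw [uIcc_of_le (by norm_num)] at ht
      exact lt_of_lt_of_le one_pos ht.1
    simp only [pf5_O]
    rw [intervalIntegral.integral_add ((hi _).const_mul _) ((hi _).const_mul _),
      intervalIntegral.integral_const_mul, intervalIntegral.integral_const_mul, hVi, hVi]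
    ring
  · -- step
    refine ⟨fun s => (1 / 2 : ℝ) ^ (st s).1, ?_, ?_⟩
    · exact (tendsto_pow_atTop_nhds_zero_of_lt_one (by norm_num) (by norm_num)).comp htend
    · intro s j hj x hx
      have h1 : (fun t => pf5_O V K (st (s + 1)) t - pf5_O V K (st s) t) =
          fun t => (1 / (K (st s).1 : ℝ)) * (V ((st s).1 + 1) t - V (st s).1 t) := by
        funext t
        exact pf5_diff V hK1 s t
      rw [h1, iteratedDeriv_const_mul_field (1 / (K (st s).1 : ℝ))
        (fun t => V ((st s).1 + 1) t - V (st s).1 t), abs_mul,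
        abs_of_pos (one_div_pos.2 (hKp _))]
      have h2 := hM (st s).1 j hj x hx
      have h3 := hK2 (st s).1
      have h4 := hKp (st s).1
      have h5 : (0 : ℝ) < 2 ^ (st s).1 := by positivity
      have h6 : ((1 : ℝ) / 2) ^ (st s).1 = 1 / 2 ^ (st s).1 := by rw [one_div_pow]
      show 1 / (K (st s).1 : ℝ) * _ ≤ (1 / 2 : ℝ) ^ (st s).1
      rw [h6, one_div_mul_eq_div, div_le_div_iff₀ h4 h5]
      nlinarith
  · -- sum
    refine ⟨fun s => pf5_F C K (st (s + 1)) - pf5_F C K (st s), ?_, ?_⟩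
    · refine summable_of_sum_range_le (c := 4 * C) ?_ ?_
      · intro s
        rw [pf5_F_diff C hK1 s]
        have := hKp (st s).1
        positivity
      · intro n
        rw [Finset.sum_range_sub (fun s => pf5_F C K (st s))]
        have h1 := pf5_F_le hC hK1 n
        have h2 : pf5_F C K (st 0) = 0 := by simp [hst, pf5_st, pf5_F]
        rw [h2]
        linarith
    · intro s x hx
      have hx0 : 0 < x := lt_of_lt_of_le one_pos hx.1
      show |pf5_O V K (pf5_st K (s + 1)) x - pf5_O V K (pf5_st K s) x| ≤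
        pf5_F C K (pf5_st K (s + 1)) - pf5_F C K (pf5_st K s)
      rw [pf5_diff V hK1 s x, pf5_F_diff C hK1 s, abs_mul, abs_of_pos (one_div_pos.2 (hKp _)),
        one_div_mul_eq_div]
      have h1 := hV0 (st s).1 x hx0
      have h2 := (hV0 ((st s).1 + 1) x hx0).trans (hp2 _)
      have h3 : |x * (V ((st s).1 + 1) x - V (st s).1 x)| ≤ 2 * C / 2 ^ (st s).1 := by
        have : x * (V ((st s).1 + 1) x - V (st s).1 x) =
          (x * V ((st s).1 + 1) x - 1) - (x * V (st s).1 x - 1) := by ring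
        rw [this]
        refine (abs_sub _ _).trans ?_
        have : 2 * C / 2 ^ (st s).1 = C / 2 ^ (st s).1 + C / 2 ^ (st s).1 := by ring
        rw [this]
        exact add_le_add h2 h1
      have h4 : |V ((st s).1 + 1) x - V (st s).1 x| ≤ 2 * C / 2 ^ (st s).1 := by
        refine le_trans ?_ h3
        rw [abs_mul, abs_of_pos hx0]
        exact le_mul_of_one_le_left (abs_nonneg _) hx.1
      have h5 := hKp (st s).1
      gcongr
  · -- sec
    intro s x hx h
    have h1 : deriv (pf5_O V K (st s)) =ᶠ[𝓝 x] fun x =>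
        (1 - ((st s).2 : ℝ) / K (st s).1) * deriv (V (st s).1) x +
          ((st s).2 : ℝ) / K (st s).1 * deriv (V ((st s).1 + 1)) x := by
      filter_upwards [Ioi_mem_nhds hx] with y hy
      exact (hdO s y hy).deriv
    rw [h1.deriv_eq] at h
    have hdd : ∀ i, HasDerivAt (deriv (V i)) (deriv (deriv (V i)) x) x := by
      intro i
      have h2 : ContDiffOn ℝ 1 (deriv (V i)) (Ioi 0) :=
        (hVs i).deriv_of_isOpen isOpen_Ioi (by
          norm_cast)
      exact ((h2.contDiffAt (Ioi_mem_nhds hx)).differentiableAt (by simp)).hasDerivAt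
    have h2 := ((hdd (st s).1).const_mul (1 - ((st s).2 : ℝ) / K (st s).1)).add
      ((hdd ((st s).1 + 1)).const_mul (((st s).2 : ℝ) / K (st s).1))
    have h3 : deriv (fun x => (1 - ((st s).2 : ℝ) / K (st s).1) * deriv (V (st s).1) x +
          ((st s).2 : ℝ) / K (st s).1 * deriv (V ((st s).1 + 1)) x) x =
        (1 - ((st s).2 : ℝ) / K (st s).1) * deriv (deriv (V (st s).1)) x +
          ((st s).2 : ℝ) / K (st s).1 * deriv (deriv (V ((st s).1 + 1))) x := h2.deriv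
    rw [h3] at h
    by_cases h4 : deriv (deriv (V (st s).1)) x = 0
    · have h5 : deriv (deriv (V ((st s).1 + 1))) x ≠ 0 := by
        intro h5; apply h; rw [h4, h5]; ring
      obtain ⟨n, hn1, hn2⟩ := hVc _ x hx h5
      refine ⟨n, ?_, ?_⟩
      · refine lt_of_le_of_lt ?_ hn1
        have h6 := hδ (Nat.le_succ (st s).1)
        have h7 := cor_pos ((st s).1 + 1) n
        apply mul_le_mul_of_nonneg_left _ h7.le
        simp only [Nat.succ_eq_add_one] at h6
        linarith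
      · refine lt_of_lt_of_le hn2 ?_
        have h6 := hδ (Nat.le_succ (st s).1)
        have h7 := cor_pos ((st s).1 + 1) n
        apply mul_le_mul_of_nonneg_left _ h7.le
        simp only [Nat.succ_eq_add_one] at h6
        linarith
    · obtain ⟨n, hn1, hn2⟩ := hVc _ x hx h4
      rw [cor_level (Nat.le_succ (st s).1) n] at hn1 hn2
      exact ⟨_, hn1, hn2⟩
  · rfl
  · intro s
    exact pf5_step K s
  · exact htend

end GD31
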