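import Pool.Agent.LibGD31.PF5

/-! # PF6: the levels `M` and the stage of an octave -/

open Filter Topology Set

namespace GD31

/-- admissible levels -/
structure Lev (M : ℕ → ℕ) : Prop where
  gap : ∀ s, M s + s + 5 ≤ M (s + 1)

theorem Lev.strictMono {M : ℕ → ℕ} (h : Lev M) : StrictMono M :=
  strictMono_nat_of_lt_succ fun s => by have := h.gap s; omega

theorem Lev.tendsto {M : ℕ → ℕ} (h : Lev M) :
    Tendsto (fun s => M (s + 1) - M s) atTop atTop := by
  refine tendsto_atTop_mono (fun s => ?_) tendsto_id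
  have := h.gap s
  show s ≤ M (s + 1) - M s
  omega

/-- recursive definition of the levels -/
def pf6_M (m : ℕ → ℕ) : ℕ → ℕ
  | 0 => m 0
  | s + 1 => max (m (s + 1)) (pf6_M m s + s + 5)

theorem exists_Lev (m : ℕ → ℕ) : ∃ M : ℕ → ℕ, Lev M ∧ ∀ s, m s ≤ M s := by
  refine ⟨pf6_M m, ⟨fun s => ?_⟩, fun s => ?_⟩
  · rw [pf6_M]
    exact le_max_right _ _
  · cases s with
    | zero => rw [pf6_M]
    | succ s => rw [pf6_M]; exact le_max_left _ _

/-- the stage of the octave `[2^m, 2^(m+1)]`: the largest `s` with `M s ≤ m` (`0` if none) -/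
noncomputable def stg (M : ℕ → ℕ) (m : ℕ) : ℕ := sSup {s | M s ≤ m}

theorem pf6_bdd {M : ℕ → ℕ} (h : Lev M) (m : ℕ) : BddAbove {s | M s ≤ m} :=
  ⟨m, fun _ hs => le_trans (h.strictMono.le_apply) hs⟩

theorem pf6_le_stg {M : ℕ → ℕ} (h : Lev M) {m s : ℕ} (hs : M s ≤ m) : s ≤ stg M m :=
  le_csSup (pf6_bdd h m) hs

theorem stg_le {M : ℕ → ℕ} (h : Lev M) {m : ℕ} (hm : M 0 ≤ m) :
    M (stg M m) ≤ m ∧ m < M (stg M m + 1) := by
  refine ⟨Nat.sSup_mem ⟨0, hm⟩ (pf6_bdd h m), ?_⟩
  by_contra hcon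
  have := pf6_le_stg h (not_lt.1 hcon)
  omega

theorem stg_eq_zero {M : ℕ → ℕ} {m : ℕ} (h : Lev M) (hm : m < M 0) : stg M m = 0 := by
  have he : {s | M s ≤ m} = ∅ := by
    refine Set.eq_empty_of_forall_notMem fun s hs => ?_
    have h1 : M 0 ≤ M s := h.strictMono.monotone (Nat.zero_le s)
    have h2 : M s ≤ m := hs
    omega
  rw [stg, he, csSup_empty]
  rfl

theorem pf6_lt {M : ℕ → ℕ} (h : Lev M) (m : ℕ) : m < M (stg M m + 1) := by
  rcases le_or_gt (M 0) m with hm | hm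
  · exact (stg_le h hm).2
  · rw [stg_eq_zero h hm]
    exact lt_trans hm (h.strictMono (by omega))

theorem pf6_stg_le {M : ℕ → ℕ} (h : Lev M) {m s : ℕ} (hs : m < M (s + 1)) : stg M m ≤ s := by
  by_contra hcon
  rcases le_or_gt (M 0) m with hm | hm
  · have h1 := (stg_le h hm).1
    have h2 : M (s + 1) ≤ M (stg M m) := h.strictMono.monotone (by omega)
    omega
  · rw [stg_eq_zero h hm] at hcon
    omega

theorem stg_mono {M : ℕ → ℕ} (h : Lev M) : Monotone (stg M) := by
  intro m m' hmm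
  rcases le_or_gt (M 0) m with hm | hm
  · exact pf6_le_stg h (le_trans (stg_le h hm).1 hmm)
  · rw [stg_eq_zero h hm]
    exact Nat.zero_le _

/-- the stage increases by at most one between `m` and `m + D` if `m` is large compared with
`D`, and always for `D ≤ 4` -/
theorem stg_add_le {M : ℕ → ℕ} (h : Lev M) (m : ℕ) : stg M (m + 4) ≤ stg M m + 1 := by
  apply pf6_stg_le h
  have h1 := pf6_lt h m
  have h2 := h.gap (stg M m + 1)
  omega

theorem stg_tendsto {M : ℕ → ℕ} (h : Lev M) : Tendsto (stg M) atTop atTop := by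
  refine tendsto_atTop.2 fun b => ?_
  filter_upwards [eventually_ge_atTop (M b)] with m hm
  exact pf6_le_stg h hm

theorem stg_add_le_eventually {M : ℕ → ℕ} (h : Lev M) (D : ℕ) :
    ∀ᶠ m in atTop, stg M (m + D) ≤ stg M m + 1 := by
  filter_upwards [(stg_tendsto h).eventually_ge_atTop D] with m hm
  apply pf6_stg_le h
  have h1 := pf6_lt h m
  have h2 := h.gap (stg M m + 1)
  omega

end GD31
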