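import Pool.Agent.LibGD31.PF6

/-! # PF7: gluing the stages -/

open Filter Topology Set

namespace GD31

/-- the previous profile -/
def om (Ω : ℕ → ℝ → ℝ) : ℕ → ℝ → ℝ
  | 0 => fun _ => 0
  | s + 1 => Ω s

/-- the profile on the positive half line -/
noncomputable def wp (Ω : ℕ → ℝ → ℝ) (M : ℕ → ℕ) (z : ℝ) : ℝ :=
  ∑' s, Real.smoothTransition (z / 2 ^ M s - 1) * (Ω s z - om Ω s z)

private theorem pf7_zero (Ω : ℕ → ℝ → ℝ) {M : ℕ → ℕ} (s : ℕ) {z : ℝ} (hz : z ≤ 2 ^ M s) :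
    Real.smoothTransition (z / 2 ^ M s - 1) * (Ω s z - om Ω s z) = 0 := by
  rw [Real.smoothTransition.zero_of_nonpos, zero_mul]
  rw [sub_nonpos, div_le_one (by positivity)]
  exact hz

private theorem pf7_one (Ω : ℕ → ℝ → ℝ) {M : ℕ → ℕ} (s : ℕ) {z : ℝ} (hz : 2 ^ (M s + 1) ≤ z) :
    Real.smoothTransition (z / 2 ^ M s - 1) * (Ω s z - om Ω s z) = Ω s z - om Ω s z := by
  rw [Real.smoothTransition.one_of_one_le, one_mul]
  rw [le_sub_iff_add_le, le_div_iff₀ (by positivity)]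
  rw [pow_succ] at hz
  linarith

theorem wp_zero {Ω : ℕ → ℝ → ℝ} {M : ℕ → ℕ} (h : Lev M) {z : ℝ} (hz : z ≤ 2 ^ M 0) :
    wp Ω M z = 0 := by
  unfold wp
  have h1 : ∀ s, Real.smoothTransition (z / 2 ^ M s - 1) * (Ω s z - om Ω s z) = 0 := fun s =>
    pf7_zero Ω s (hz.trans (pow_le_pow_right₀ one_le_two (h.strictMono.monotone (Nat.zero_le s))))
  simp only [h1, tsum_zero]

/-- the formula around the transition octave number `s` -/
theorem wp_eq {Ω : ℕ → ℝ → ℝ} {M : ℕ → ℕ} (h : Lev M) (s : ℕ) {z : ℝ}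
    (h1 : s = 0 ∨ 2 ^ (M (s - 1) + 1) ≤ z) (h2 : z ≤ 2 ^ M (s + 1)) :
    wp Ω M z = om Ω s z + Real.smoothTransition (z / 2 ^ M s - 1) * (Ω s z - om Ω s z) := by
  unfold wp
  rw [tsum_eq_sum (s := Finset.range (s + 1)) (fun t ht => ?_), Finset.sum_range_succ]
  · congr 1
    have h3 : ∀ t ∈ Finset.range s, Real.smoothTransition (z / 2 ^ M t - 1) * (Ω t z - om Ω t z) =
        om Ω (t + 1) z - om Ω t z := by
      intro t ht
      rw [Finset.mem_range] at ht
      have h4 : (2 : ℝ) ^ (M t + 1) ≤ z := by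
        rcases h1 with h1 | h1
        · omega
        · refine (pow_le_pow_right₀ one_le_two ?_).trans h1
          have := h.strictMono.monotone (show t ≤ s - 1 by omega)
          omega
      rw [pf7_one Ω t h4]
      rfl
    rw [Finset.sum_congr rfl h3, Finset.sum_range_sub (fun t => om Ω t z)]
    show om Ω s z - 0 = _
    rw [sub_zero]
  · rw [Finset.mem_range] at ht
    exact pf7_zero Ω t (h2.trans (pow_le_pow_right₀ one_le_two
      (h.strictMono.monotone (show s + 1 ≤ t by omega))))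

/-- the formula inside stage `s` -/
theorem wp_stage {Ω : ℕ → ℝ → ℝ} {M : ℕ → ℕ} (h : Lev M) (s : ℕ) {z : ℝ}
    (h1 : 2 ^ (M s + 1) ≤ z) (h2 : z ≤ 2 ^ M (s + 1)) : wp Ω M z = Ω s z := by
  have h3 : s = 0 ∨ (2 : ℝ) ^ (M (s - 1) + 1) ≤ z := by
    rcases Nat.eq_zero_or_pos s with h4 | h4
    · exact Or.inl h4
    · right
      refine (pow_le_pow_right₀ one_le_two ?_).trans h1
      have := h.strictMono.monotone (show s - 1 ≤ s by omega)
      omega
  rw [wp_eq h s h3 h2, pf7_one Ω s h1]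
  ring

theorem wp_smooth {Ω : ℕ → ℝ → ℝ} {lv : ℕ → ℕ} {δ : ℕ → ℝ} (hΩ : Sq Ω lv δ) {M : ℕ → ℕ}
    (h : Lev M) : Sm (wp Ω M) := by
  have hom : ∀ s, ContDiffOn ℝ ((⊤ : ℕ∞) : WithTop ℕ∞) (om Ω s) (Ioi 0) := by
    intro s
    cases s with
    | zero => exact contDiffOn_const
    | succ s => exact hΩ.smooth s
  have hterm : ∀ s, Sm fun z => Real.smoothTransition (z / 2 ^ M s - 1) * (Ω s z - om Ω s z) := by
    intro s
    refine contDiff_iff_contDiffAt.2 fun z => ?_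
    rcases lt_or_ge z (2 ^ M s) with hz | hz
    · have h1 : (fun z => Real.smoothTransition (z / 2 ^ M s - 1) * (Ω s z - om Ω s z)) =ᶠ[𝓝 z]
          fun _ => (0 : ℝ) := by
        filter_upwards [Iio_mem_nhds hz] with w hw
        exact pf7_zero Ω s (le_of_lt hw)
      exact contDiffAt_const.congr_of_eventuallyEq h1
    · have hz0 : 0 < z := lt_of_lt_of_le (by positivity) hz
      have h1 : ContDiffAt ℝ ((⊤ : ℕ∞) : WithTop ℕ∞) (fun z => Ω s z - om Ω s z) z :=
        ((hΩ.smooth s).contDiffAt (Ioi_mem_nhds hz0)).sub ((hom s).contDiffAt (Ioi_mem_nhds hz0))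
      have h2 : ContDiffAt ℝ ((⊤ : ℕ∞) : WithTop ℕ∞)
          (fun z => Real.smoothTransition (z / 2 ^ M s - 1)) z :=
        (Real.smoothTransition.contDiff.comp ((contDiff_id.div_const _).sub
          contDiff_const)).contDiffAt
      exact h2.mul h1
  refine contDiff_iff_contDiffAt.2 fun z => ?_
  obtain ⟨s, hs⟩ : ∃ s, z < (2 : ℝ) ^ M s := by
    obtain ⟨n, hn⟩ := pow_unbounded_of_one_lt z (one_lt_two : (1 : ℝ) < 2)
    exact ⟨n, hn.trans_le (pow_le_pow_right₀ one_le_two (h.strictMono.id_le n))⟩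
  have h1 : wp Ω M =ᶠ[𝓝 z] fun z => ∑ t ∈ Finset.range s,
      Real.smoothTransition (z / 2 ^ M t - 1) * (Ω t z - om Ω t z) := by
    filter_upwards [Iio_mem_nhds hs] with w hw
    unfold wp
    refine tsum_eq_sum fun t ht => ?_
    rw [Finset.mem_range, not_lt] at ht
    exact pf7_zero Ω t ((le_of_lt hw).trans (pow_le_pow_right₀ one_le_two
      (h.strictMono.monotone ht)))
  exact (ContDiff.sum fun t _ => hterm t).contDiffAt.congr_of_eventuallyEq h1

end GD31
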