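import Pool.Agent.LibGD31.PF7

/-! # PF8: bounds for the derivatives of the glued profile -/

open Filter Topology Set

namespace GD31

private theorem pf8_double {g : ℝ → ℝ} (hh : ∀ x, 0 < x → g (2 * x) = g x / 2) (i : ℕ) :
    ∀ x, 0 < x → iteratedDeriv i g (2 * x) = iteratedDeriv i g x / 2 ^ (1 + i) := by
  induction i with
  | zero => intro x hx; simp [hh x hx]
  | succ i ih =>
    intro x hx
    have h1 : deriv (fun y => iteratedDeriv i g (2 * y)) x
        = 2 * deriv (iteratedDeriv i g) (2 * x) := by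
      have := deriv_comp_mul_left (2 : ℝ) (iteratedDeriv i g) x
      simpa using this
    have h2 : (fun y => iteratedDeriv i g (2 * y)) =ᶠ[𝓝 x]
        fun y => iteratedDeriv i g y / 2 ^ (1 + i) := by
      filter_upwards [Ioi_mem_nhds hx] with y hy
      exact ih y hy
    have h3 : deriv (fun y => iteratedDeriv i g (2 * y)) x
        = deriv (iteratedDeriv i g) x / 2 ^ (1 + i) := by
      rw [h2.deriv_eq, deriv_div_const]
    rw [iteratedDeriv_succ]
    have h4 : 2 * deriv (iteratedDeriv i g) (2 * x)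
        = deriv (iteratedDeriv i g) x / 2 ^ (1 + i) := by rw [← h1, h3]
    rw [show 1 + (i + 1) = (1 + i) + 1 by ring, pow_succ, ← div_div, ← h4]
    ring

/-- homogeneity of the derivatives: `|g⁽ⁱ⁾ x| ≤ C x^(-1-i)` for `g (2x) = g x / 2` smooth on
`(0, ∞)` with `|g⁽ⁱ⁾| ≤ B` on `[1, 2]` (`C = 2^(i+1) B`) -/
theorem hom_bound {g : ℝ → ℝ} (hg : ContDiffOn ℝ ((⊤ : ℕ∞) : WithTop ℕ∞) g (Ioi 0))
    (hh : ∀ x, 0 < x → g (2 * x) = g x / 2) {B : ℝ} {i : ℕ}
    (hB : ∀ x ∈ Icc (1 : ℝ) 2, |iteratedDeriv i g x| ≤ B) {x : ℝ} (hx : 0 < x) :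
    |iteratedDeriv i g x| * x ^ (1 + i) ≤ 2 ^ (1 + i) * B := by
  have h1 : ∀ x, 0 < x → |iteratedDeriv i g (2 * x)| * (2 * x) ^ (1 + i)
      = |iteratedDeriv i g x| * x ^ (1 + i) := by
    intro x hx
    rw [pf8_double hh i x hx, abs_div, mul_pow, abs_of_pos (by positivity : (0 : ℝ) < 2 ^ (1 + i))]
    field_simp
  have h2 : ∀ n : ℤ, ∀ x, 0 < x → |iteratedDeriv i g ((2 : ℝ) ^ n * x)| * ((2 : ℝ) ^ n * x) ^ (1 + i)
      = |iteratedDeriv i g x| * x ^ (1 + i) := by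
    intro n
    induction n using Int.induction_on with
    | zero => intro x hx; simp
    | succ n ih =>
      intro x hx
      have h3 := h1 ((2 : ℝ) ^ (n : ℤ) * x) (by positivity)
      rw [ih x hx] at h3
      have h4 : (2 : ℝ) ^ ((n : ℤ) + 1) * x = 2 * ((2 : ℝ) ^ (n : ℤ) * x) := by
        rw [zpow_add_one₀ two_ne_zero]; ring
      rw [h4, h3]
    | pred n ih =>
      intro x hx
      have h3 := h1 ((2 : ℝ) ^ (-(n : ℤ) - 1) * x) (by positivity)
      have h4 : 2 * ((2 : ℝ) ^ (-(n : ℤ) - 1) * x) = (2 : ℝ) ^ (-(n : ℤ)) * x := by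
        rw [zpow_sub_one₀ two_ne_zero]; ring
      rw [h4, ih x hx] at h3
      exact h3.symm
  obtain ⟨n, hn1, hn2⟩ := exists_mem_Ico_zpow hx one_lt_two
  set y : ℝ := x / 2 ^ n with hy
  have hpos : (0 : ℝ) < 2 ^ n := by positivity
  have hxy : x = (2 : ℝ) ^ n * y := by rw [hy]; field_simp
  have hy1 : 1 ≤ y := by rw [hy, le_div_iff₀ hpos]; linarith
  have hy2 : y ≤ 2 := by
    rw [hy, div_le_iff₀ hpos]
    rw [zpow_add_one₀ two_ne_zero] at hn2
    linarith
  have hy0 : 0 < y := by linarith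
  rw [hxy, h2 n y hy0]
  have hb := hB y ⟨hy1, hy2⟩
  have h5 : y ^ (1 + i) ≤ 2 ^ (1 + i) := by gcongr
  calc |iteratedDeriv i g y| * y ^ (1 + i) ≤ B * 2 ^ (1 + i) := by
        apply mul_le_mul hb h5 (by positivity) (le_trans (abs_nonneg _) hb)
    _ = 2 ^ (1 + i) * B := by ring

private theorem pf8_cut : ∃ K : ℝ, 1 ≤ K ∧ ∀ (m i : ℕ), i ≤ 8 → ∀ z : ℝ, 0 < z →
    |iteratedDeriv i (fun z : ℝ => Real.smoothTransition (z / 2 ^ m - 1)) z| * z ^ i ≤ K := by
  have hX : ∀ i : ℕ, ∃ C : ℝ, ∀ t ∈ Icc (-1 : ℝ) 1,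
      |iteratedDeriv i Real.smoothTransition t| ≤ C := by
    intro i
    have hc : Continuous (iteratedDeriv i Real.smoothTransition) :=
      (Real.smoothTransition.contDiff (n := (⊤ : ℕ∞))).continuous_iteratedDeriv i (by
        exact_mod_cast le_top)
    obtain ⟨C, hC⟩ := isCompact_Icc.exists_bound_of_continuousOn
      (f := iteratedDeriv i Real.smoothTransition) (s := Icc (-1 : ℝ) 1) hc.continuousOn
    exact ⟨C, fun t ht => by simpa [Real.norm_eq_abs] using hC t ht⟩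
  choose C hC using hX
  set K0 : ℝ := ∑ i ∈ Finset.range 9, |C i| with hK0
  have hK00 : 0 ≤ K0 := Finset.sum_nonneg (fun i _ => abs_nonneg _)
  refine ⟨2 ^ 8 * K0 + 1, by nlinarith, ?_⟩
  intro m i hi z hz
  have hCi : C i ≤ K0 := by
    refine (le_abs_self _).trans ?_
    exact Finset.single_le_sum (f := fun i => |C i|) (fun j _ => abs_nonneg _)
      (Finset.mem_range.2 (by omega))
  have hm : (0 : ℝ) < 2 ^ m := by positivity
  have hf : (fun z : ℝ => Real.smoothTransition (z / 2 ^ m - 1))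
      = fun z : ℝ => (fun t => Real.smoothTransition (t - 1)) (((2 : ℝ) ^ m)⁻¹ * z) := by
    funext z
    simp only []
    congr 1
    field_simp
  have hsm : ContDiff ℝ (i : ℕ∞) (fun t : ℝ => Real.smoothTransition (t - 1)) :=
    Real.smoothTransition.contDiff.comp (contDiff_id.sub contDiff_const)
  have h1 : iteratedDeriv i (fun z : ℝ => Real.smoothTransition (z / 2 ^ m - 1)) z
      = (((2 : ℝ) ^ m)⁻¹) ^ i * iteratedDeriv i Real.smoothTransition (z / 2 ^ m - 1) := by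
    have h0 := congrFun (iteratedDeriv_comp_const_mul (n := i)
      (f := fun t : ℝ => Real.smoothTransition (t - 1)) (by exact_mod_cast hsm)
      (((2 : ℝ) ^ m)⁻¹)) z
    rw [iteratedDeriv_comp_sub_const] at h0
    rw [hf]
    refine h0.trans ?_
    simp only []
    congr 2
    field_simp
  set t : ℝ := z / 2 ^ m with ht
  have ht0 : 0 < t := by positivity
  have h2 : |iteratedDeriv i (fun z : ℝ => Real.smoothTransition (z / 2 ^ m - 1)) z| * z ^ i
      = t ^ i * |iteratedDeriv i Real.smoothTransition (t - 1)| := by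
    rw [h1, abs_mul, abs_of_pos (by positivity : (0 : ℝ) < (((2 : ℝ) ^ m)⁻¹) ^ i), ht, div_pow]
    rw [inv_pow]
    field_simp
  rw [h2]
  rcases le_or_gt t 2 with h3 | h3
  · have h4 : |iteratedDeriv i Real.smoothTransition (t - 1)| ≤ K0 :=
      (hC i (t - 1) ⟨by linarith, by linarith⟩).trans hCi
    have h5 : t ^ i ≤ 2 ^ 8 := by
      calc t ^ i ≤ 2 ^ i := by gcongr
        _ ≤ 2 ^ 8 := pow_le_pow_right₀ (by norm_num) hi
    calc t ^ i * |iteratedDeriv i Real.smoothTransition (t - 1)| ≤ 2 ^ 8 * K0 := by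
          apply mul_le_mul h5 h4 (abs_nonneg _) (by positivity)
      _ ≤ _ := by linarith
  · have h6 : Real.smoothTransition =ᶠ[𝓝 (t - 1)] fun _ => (1 : ℝ) := by
      filter_upwards [Ioi_mem_nhds (show (1 : ℝ) < t - 1 by linarith)] with y hy
      exact Real.smoothTransition.one_of_one_le (le_of_lt hy)
    rw [h6.iteratedDeriv_eq i, iteratedDeriv_const]
    split_ifs with h7
    · subst h7
      simp only [pow_zero, one_mul, abs_one]
      nlinarith
    · simp only [abs_zero, mul_zero]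
      positivity

private theorem pf8_norm {g : ℝ → ℝ} (hg : ContDiffOn ℝ ((⊤ : ℕ∞) : WithTop ℕ∞) g (Ioi 0)) :
    ∃ B : ℝ, 0 ≤ B ∧ ∀ i ≤ 8, ∀ x ∈ Icc (1 : ℝ) 2, |iteratedDeriv i g x| ≤ B := by
  have hX : ∀ i : ℕ, ∃ C : ℝ, ∀ t ∈ Icc (1 : ℝ) 2, |iteratedDeriv i g t| ≤ C := by
    intro i
    have hc : ContinuousOn (iteratedDeriv i g) (Ioi 0) := by
      have h1 : ContinuousOn (iteratedDerivWithin i g (Ioi 0)) (Ioi 0) :=
        hg.continuousOn_iteratedDerivWithin (by exact_mod_cast le_top) isOpen_Ioi.uniqueDiffOn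
      exact h1.congr (fun x hx => (iteratedDerivWithin_of_isOpen isOpen_Ioi hx).symm)
    obtain ⟨C, hC⟩ := isCompact_Icc.exists_bound_of_continuousOn
      (f := iteratedDeriv i g) (s := Icc (1 : ℝ) 2)
      (hc.mono (fun x hx => lt_of_lt_of_le one_pos hx.1))
    exact ⟨C, fun t ht => by simpa [Real.norm_eq_abs] using hC t ht⟩
  choose C hC using hX
  refine ⟨∑ i ∈ Finset.range 9, |C i|, Finset.sum_nonneg (fun i _ => abs_nonneg _), ?_⟩
  intro i hi x hx
  refine (hC i x hx).trans ((le_abs_self _).trans ?_)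
  exact Finset.single_le_sum (f := fun i => |C i|) (fun j _ => abs_nonneg _)
    (Finset.mem_range.2 (by omega))

private theorem pf8_main {K : ℝ} (hK : 1 ≤ K) {χ : ℝ → ℝ} (hχ : Sm χ)
    (hχb : ∀ i ≤ 8, ∀ z : ℝ, 0 < z → |iteratedDeriv i χ z| * z ^ i ≤ K) {g₀ g₁ : ℝ → ℝ}
    (h0 : ContDiffOn ℝ ((⊤ : ℕ∞) : WithTop ℕ∞) g₀ (Ioi 0))
    (h1 : ContDiffOn ℝ ((⊤ : ℕ∞) : WithTop ℕ∞) g₁ (Ioi 0))
    (hh0 : ∀ x, 0 < x → g₀ (2 * x) = g₀ x / 2) (hh1 : ∀ x, 0 < x → g₁ (2 * x) = g₁ x / 2)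
    {B : ℝ} (hB : 0 ≤ B) (hb0 : ∀ i ≤ 8, ∀ x ∈ Icc (1 : ℝ) 2, |iteratedDeriv i g₀ x| ≤ B)
    (hb1 : ∀ i ≤ 8, ∀ x ∈ Icc (1 : ℝ) 2, |iteratedDeriv i g₁ x| ≤ B) {i : ℕ} (hi : i ≤ 8)
    {z : ℝ} (hz : 0 < z) :
    |iteratedDeriv i (fun z => g₀ z + χ z * (g₁ z - g₀ z)) z| * z ^ (1 + i)
      ≤ (2 ^ 9 + 2 ^ 18 * K) * B := by
  have c0 : ∀ j : ℕ, ContDiffAt ℝ j g₀ z := fun j =>
    (h0.contDiffAt (Ioi_mem_nhds hz)).of_le (by exact_mod_cast le_top)
  have c1 : ∀ j : ℕ, ContDiffAt ℝ j g₁ z := fun j =>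
    (h1.contDiffAt (Ioi_mem_nhds hz)).of_le (by exact_mod_cast le_top)
  have cχ : ∀ j : ℕ, ContDiffAt ℝ j χ z := fun j =>
    hχ.contDiffAt.of_le (by exact_mod_cast le_top)
  have e1 : iteratedDeriv i (fun z => g₀ z + χ z * (g₁ z - g₀ z)) z
      = iteratedDeriv i g₀ z + ∑ j ∈ Finset.range (i + 1),
        (i.choose j : ℝ) * iteratedDeriv j χ z * iteratedDeriv (i - j) (fun z => g₁ z - g₀ z) z := by
    rw [iteratedDeriv_fun_add (c0 i) ((cχ i).mul ((c1 i).sub (c0 i))),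
      iteratedDeriv_fun_mul (cχ i) ((c1 i).sub (c0 i))]
  have e2 : ∀ j ≤ 8, |iteratedDeriv j g₀ z| * z ^ (1 + j) ≤ 2 ^ 9 * B := by
    intro j hj
    refine (hom_bound h0 hh0 (hb0 j hj) hz).trans ?_
    have : (2 : ℝ) ^ (1 + j) ≤ 2 ^ 9 := pow_le_pow_right₀ (by norm_num) (by omega)
    nlinarith
  have e3 : ∀ j ≤ 8, |iteratedDeriv j g₁ z| * z ^ (1 + j) ≤ 2 ^ 9 * B := by
    intro j hj
    refine (hom_bound h1 hh1 (hb1 j hj) hz).trans ?_
    have : (2 : ℝ) ^ (1 + j) ≤ 2 ^ 9 := pow_le_pow_right₀ (by norm_num) (by omega)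
    nlinarith
  have e4 : ∀ j ≤ 8, |iteratedDeriv j (fun z => g₁ z - g₀ z) z| * z ^ (1 + j) ≤ 2 ^ 10 * B := by
    intro j hj
    rw [iteratedDeriv_fun_sub (c1 j) (c0 j)]
    have := e2 j hj
    have := e3 j hj
    calc |iteratedDeriv j g₁ z - iteratedDeriv j g₀ z| * z ^ (1 + j)
        ≤ (|iteratedDeriv j g₁ z| + |iteratedDeriv j g₀ z|) * z ^ (1 + j) := by
          gcongr
          exact abs_sub _ _
      _ ≤ _ := by linarith
  rw [e1]
  have e5 : |∑ j ∈ Finset.range (i + 1), (i.choose j : ℝ) * iteratedDeriv j χ z *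
      iteratedDeriv (i - j) (fun z => g₁ z - g₀ z) z| * z ^ (1 + i)
      ≤ ∑ j ∈ Finset.range (i + 1), (i.choose j : ℝ) * (K * (2 ^ 10 * B)) := by
    calc |∑ j ∈ Finset.range (i + 1), (i.choose j : ℝ) * iteratedDeriv j χ z *
          iteratedDeriv (i - j) (fun z => g₁ z - g₀ z) z| * z ^ (1 + i)
        ≤ (∑ j ∈ Finset.range (i + 1), |(i.choose j : ℝ) * iteratedDeriv j χ z *
          iteratedDeriv (i - j) (fun z => g₁ z - g₀ z) z|) * z ^ (1 + i) := by
          gcongr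
          exact Finset.abs_sum_le_sum_abs _ _
      _ = ∑ j ∈ Finset.range (i + 1), |(i.choose j : ℝ) * iteratedDeriv j χ z *
          iteratedDeriv (i - j) (fun z => g₁ z - g₀ z) z| * z ^ (1 + i) := by
          rw [Finset.sum_mul]
      _ ≤ _ := by
          apply Finset.sum_le_sum
          intro j hj
          have hj' : j ≤ i := by simpa [Nat.lt_succ_iff] using hj
          rw [abs_mul, abs_mul, Nat.abs_cast]
          have f1 := hχb j (by omega) z hz
          have f2 := e4 (i - j) (by omega)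
          have f3 : z ^ (1 + i) = z ^ j * z ^ (1 + (i - j)) := by
            rw [← pow_add]; congr 1; omega
          rw [f3]
          calc (i.choose j : ℝ) * |iteratedDeriv j χ z| *
                |iteratedDeriv (i - j) (fun z => g₁ z - g₀ z) z| * (z ^ j * z ^ (1 + (i - j)))
              = (i.choose j : ℝ) * ((|iteratedDeriv j χ z| * z ^ j) *
                (|iteratedDeriv (i - j) (fun z => g₁ z - g₀ z) z| * z ^ (1 + (i - j)))) := by ring
            _ ≤ (i.choose j : ℝ) * (K * (2 ^ 10 * B)) := by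
                gcongr
  have e6 : ∑ j ∈ Finset.range (i + 1), (i.choose j : ℝ) * (K * (2 ^ 10 * B))
      ≤ 2 ^ 18 * K * B := by
    rw [← Finset.sum_mul]
    have f4 : (∑ j ∈ Finset.range (i + 1), (i.choose j : ℝ)) = 2 ^ i := by
      exact_mod_cast Nat.sum_range_choose i
    rw [f4]
    have f5 : (2 : ℝ) ^ i ≤ 2 ^ 8 := pow_le_pow_right₀ (by norm_num) hi
    calc (2 : ℝ) ^ i * (K * (2 ^ 10 * B)) ≤ 2 ^ 8 * (K * (2 ^ 10 * B)) := by
          gcongr
      _ = 2 ^ 18 * K * B := by ring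
  calc |iteratedDeriv i g₀ z + ∑ j ∈ Finset.range (i + 1),
        (i.choose j : ℝ) * iteratedDeriv j χ z * iteratedDeriv (i - j) (fun z => g₁ z - g₀ z) z|
        * z ^ (1 + i)
      ≤ (|iteratedDeriv i g₀ z| + |∑ j ∈ Finset.range (i + 1),
        (i.choose j : ℝ) * iteratedDeriv j χ z *
          iteratedDeriv (i - j) (fun z => g₁ z - g₀ z) z|) * z ^ (1 + i) := by
        gcongr
        exact abs_add_le _ _
    _ ≤ 2 ^ 9 * B + 2 ^ 18 * K * B := by
        rw [add_mul]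
        exact add_le_add (e2 i hi) (e5.trans e6)
    _ = _ := by ring

/-- For `ε > 0` the derivatives of order `≤ 8` of `wp Ω M` are at most `ε z^(-7/8-i)` if `M s` is
large compared with the norms of `Ω s`, `Ω (s-1)` (`wp_eq`, `hom_bound`, Leibniz for the
transition). -/
theorem wp_bound {Ω : ℕ → ℝ → ℝ} {lv : ℕ → ℕ} {δ : ℕ → ℝ} (hΩ : Sq Ω lv δ) {ε : ℝ}
    (hε : 0 < ε) : ∃ m : ℕ → ℕ, ∀ M : ℕ → ℕ, Lev M → (∀ s, m s ≤ M s) →
      ∀ i ≤ 8, ∀ z, 0 < z → |iteratedDeriv i (wp Ω M) z| ≤ ε * z ^ (-((7 / 8 : ℝ) + i)) := by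
  obtain ⟨K, hK, hKb⟩ := pf8_cut
  have hom0 : ∀ s, ContDiffOn ℝ ((⊤ : ℕ∞) : WithTop ℕ∞) (om Ω s) (Ioi 0) := by
    intro s
    cases s with
    | zero => exact contDiffOn_const
    | succ s => exact hΩ.smooth s
  have hom1 : ∀ s x, 0 < x → om Ω s (2 * x) = om Ω s x / 2 := by
    intro s x hx
    cases s with
    | zero => simp [om]
    | succ s => exact hΩ.hom s x hx
  choose B0 hB00 hB0 using fun s => pf8_norm (hom0 s)
  choose B1 hB10 hB1 using fun s => pf8_norm (hΩ.smooth s)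
  set C0 : ℝ := 2 ^ 9 + 2 ^ 18 * K with hC0
  have hm : ∀ s, ∃ m : ℕ, (C0 * (B0 s + B1 s) / ε) ^ 8 ≤ 2 ^ m := by
    intro s
    obtain ⟨m, hm⟩ := pow_unbounded_of_one_lt ((C0 * (B0 s + B1 s) / ε) ^ 8) one_lt_two
    exact ⟨m, hm.le⟩
  choose m hm using hm
  refine ⟨m, ?_⟩
  intro M hM hmM i hi z hz
  have hMs := hM.strictMono
  rcases lt_or_ge z (2 ^ M 0) with hz0 | hz0
  · have h1 : wp Ω M =ᶠ[𝓝 z] fun _ => (0 : ℝ) := by
      filter_upwards [Iio_mem_nhds hz0] with y hy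
      exact wp_zero hM (le_of_lt hy)
    rw [h1.iteratedDeriv_eq i, iteratedDeriv_fun_const_zero, abs_zero]
    positivity
  · have hex : ∃ s, z < 2 ^ M s := by
      obtain ⟨s, hs⟩ := pow_unbounded_of_one_lt z one_lt_two
      refine ⟨s, hs.trans_le ?_⟩
      exact pow_le_pow_right₀ (by norm_num) (hMs.id_le s)
    obtain ⟨s, hs1, hs2⟩ : ∃ s, 2 ^ M s ≤ z ∧ z < 2 ^ M (s + 1) := by
      classical
      have h1 := Nat.find_spec hex
      have h2 : Nat.find hex ≠ 0 := by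
        intro h
        rw [h] at h1
        linarith
      obtain ⟨s, hs⟩ := Nat.exists_eq_succ_of_ne_zero h2
      refine ⟨s, ?_, ?_⟩
      · have := Nat.find_min hex (m := s) (by omega)
        linarith
      · rw [hs] at h1
        exact h1
    have hlow : s = 0 ∨ (2 : ℝ) ^ (M (s - 1) + 1) < z := by
      rcases Nat.eq_zero_or_pos s with h | h
      · left; exact h
      · right
        refine lt_of_lt_of_le ?_ hs1
        apply pow_lt_pow_right₀ (by norm_num)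
        have := hM.gap (s - 1)
        rw [Nat.sub_add_cancel h] at this
        omega
    have h1 : wp Ω M =ᶠ[𝓝 z] fun z => om Ω s z + Real.smoothTransition (z / 2 ^ M s - 1) *
        (Ω s z - om Ω s z) := by
      rcases hlow with h | h
      · filter_upwards [Iio_mem_nhds hs2] with y hy
        exact wp_eq hM s (Or.inl h) (le_of_lt hy)
      · filter_upwards [Iio_mem_nhds hs2, Ioi_mem_nhds h] with y hy hy2
        exact wp_eq hM s (Or.inr (le_of_lt hy2)) (le_of_lt hy)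
    rw [h1.iteratedDeriv_eq i]
    have hχ : Sm (fun z : ℝ => Real.smoothTransition (z / 2 ^ M s - 1)) :=
      Real.smoothTransition.contDiff.comp ((contDiff_id.div_const _).sub contDiff_const)
    have h2 := pf8_main hK hχ (fun i hi z hz => hKb (M s) i hi z hz) (hom0 s) (hΩ.smooth s)
      (hom1 s) (hΩ.hom s) (B := B0 s + B1 s) (add_nonneg (hB00 s) (hB10 s))
      (fun i hi x hx => (hB0 s i hi x hx).trans (by linarith [hB10 s]))
      (fun i hi x hx => (hB1 s i hi x hx).trans (by linarith [hB00 s])) hi hz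
    rw [← hC0] at h2
    set D : ℝ := |iteratedDeriv i (fun z => om Ω s z + Real.smoothTransition (z / 2 ^ M s - 1) *
        (Ω s z - om Ω s z)) z| with hD
    have hC0n : 0 ≤ C0 := by rw [hC0]; positivity
    have h3 : C0 * (B0 s + B1 s) ≤ ε * z ^ (1 / 8 : ℝ) := by
      have h4 : C0 * (B0 s + B1 s) / ε ≤ z ^ (1 / 8 : ℝ) := by
        have h5 : (0 : ℝ) ≤ C0 * (B0 s + B1 s) / ε :=
          div_nonneg (mul_nonneg hC0n (add_nonneg (hB00 s) (hB10 s))) hε.le
        have h6 : (C0 * (B0 s + B1 s) / ε) ^ 8 ≤ z := by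
          refine (hm s).trans (le_trans ?_ hs1)
          exact pow_le_pow_right₀ (by norm_num) (hmM s)
        calc C0 * (B0 s + B1 s) / ε = ((C0 * (B0 s + B1 s) / ε) ^ 8) ^ (1 / 8 : ℝ) := by
              rw [← Real.rpow_natCast, ← Real.rpow_mul h5]
              norm_num
          _ ≤ z ^ (1 / 8 : ℝ) := Real.rpow_le_rpow (by positivity) h6 (by norm_num)
      rw [div_le_iff₀ hε] at h4
      rw [mul_comm ε]
      exact h4
    have h7 : z ^ (-((7 / 8 : ℝ) + i)) * z ^ (1 + i) = z ^ (1 / 8 : ℝ) := by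
      rw [← Real.rpow_natCast, ← Real.rpow_add hz]
      congr 1
      push_cast
      ring
    have h8 : D * z ^ (1 + i) ≤ ε * z ^ (-((7 / 8 : ℝ) + i)) * z ^ (1 + i) := by
      rw [mul_assoc, h7]
      exact h2.trans h3
    exact le_of_mul_le_mul_right h8 (by positivity)

end GD31
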