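import Pool.Agent.LibGD31.PF7

/-! # PF9: first order asymptotics of the glued profile -/

open Filter Topology Set

namespace GD31

private theorem pf9_find {M : ℕ → ℕ} (h : Lev M) (S : ℕ) {z : ℝ} (hz : (2 : ℝ) ^ M S ≤ z) :
    ∃ s, S ≤ s ∧ (2 : ℝ) ^ M s ≤ z ∧ z < 2 ^ M (s + 1) := by
  classical
  have hex : ∃ t, z < (2 : ℝ) ^ M t := by
    obtain ⟨n, hn⟩ := pow_unbounded_of_one_lt z (one_lt_two : (1 : ℝ) < 2)
    exact ⟨n, hn.trans_le (pow_le_pow_right₀ one_le_two h.strictMono.le_apply)⟩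
  have ht : z < (2 : ℝ) ^ M (Nat.find hex) := Nat.find_spec hex
  have ht1 : S < Nat.find hex := by
    by_contra hle
    push Not at hle
    have h1 : (2 : ℝ) ^ M (Nat.find hex) ≤ 2 ^ M S :=
      pow_le_pow_right₀ one_le_two (h.strictMono.monotone hle)
    linarith
  refine ⟨Nat.find hex - 1, by omega, ?_, ?_⟩
  · exact not_lt.1 (Nat.find_min hex (show Nat.find hex - 1 < Nat.find hex by omega))
  · rw [Nat.sub_add_cancel (by omega)]
    exact ht

private theorem pf9_T : ∃ C : ℝ, 0 ≤ C ∧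
    ∀ y : ℝ, 1 ≤ y → |deriv Real.smoothTransition (y - 1) * y| ≤ C := by
  have hc : Continuous (deriv Real.smoothTransition) :=
    (Real.smoothTransition.contDiff (n := 1)).continuous_deriv le_rfl
  obtain ⟨C, hC⟩ := (isCompact_Icc (a := (0 : ℝ)) (b := 1)).exists_bound_of_continuousOn
    hc.continuousOn
  refine ⟨2 * |C|, by positivity, fun y hy => ?_⟩
  by_cases hy2 : y ≤ 2
  · have h1 := hC (y - 1) ⟨by linarith, by linarith⟩
    rw [abs_mul, abs_of_pos (by linarith : 0 < y)]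
    rw [Real.norm_eq_abs] at h1
    have h2 : |deriv Real.smoothTransition (y - 1)| ≤ |C| := h1.trans (le_abs_self C)
    calc |deriv Real.smoothTransition (y - 1)| * y ≤ |C| * 2 :=
          mul_le_mul h2 hy2 (by linarith) (abs_nonneg C)
      _ = 2 * |C| := by ring
  · have h1 : deriv Real.smoothTransition (y - 1) = 0 := by
      have h2 : Real.smoothTransition =ᶠ[𝓝 (y - 1)] fun _ => (1 : ℝ) := by
        filter_upwards [lt_mem_nhds (by linarith : 1 < y - 1)] with t ht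
        exact Real.smoothTransition.one_of_one_le ht.le
      rw [h2.deriv_eq, deriv_const]
    rw [h1, zero_mul, abs_zero]
    positivity

/-- the formula near a point of the range of stage `s + 1` -/
private theorem pf9_near {Ω : ℕ → ℝ → ℝ} {M : ℕ → ℕ} (h : Lev M) (s : ℕ) {z : ℝ}
    (h1 : (2 : ℝ) ^ M (s + 1) ≤ z) (h2 : z < 2 ^ M (s + 2)) : ∀ᶠ t in 𝓝 z, wp Ω M t = Ω s t +
      Real.smoothTransition (t / 2 ^ M (s + 1) - 1) * (Ω (s + 1) t - Ω s t) := by
  have h3 : (2 : ℝ) ^ (M s + 1) < z := by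
    refine lt_of_lt_of_le (pow_lt_pow_right₀ one_lt_two ?_) h1
    have := h.gap s
    omega
  filter_upwards [lt_mem_nhds h3, gt_mem_nhds h2] with t ht1 ht2
  exact wp_eq h (s + 1) (Or.inr ht1.le) ht2.le

private theorem pf9_est {Ω : ℕ → ℝ → ℝ} {lv : ℕ → ℕ} {δ : ℕ → ℝ} (hΩ : Sq Ω lv δ) {M : ℕ → ℕ}
    (h : Lev M) {b : ℕ → ℝ} (hb : ∀ s x, 0 < x →
      |x * Ω s x - 1| ≤ b s ∧ |x ^ 2 * deriv (Ω s) x + 1| ≤ b s) {C : ℝ} (hC0 : 0 ≤ C)
    (hC : ∀ y : ℝ, 1 ≤ y → |deriv Real.smoothTransition (y - 1) * y| ≤ C) (s : ℕ) {z : ℝ}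
    (h1 : (2 : ℝ) ^ M (s + 1) ≤ z) (h2 : z < 2 ^ M (s + 2)) :
    |z * wp Ω M z - 1| ≤ b s + b (s + 1) ∧
      |z ^ 2 * deriv (wp Ω M) z + 1| ≤ (1 + C) * (b s + b (s + 1)) := by
  have hp : (0 : ℝ) < 2 ^ M (s + 1) := by positivity
  have hz : 0 < z := hp.trans_le h1
  have hn := pf9_near (Ω := Ω) h s h1 h2
  have hz1 := hn.self_of_nhds
  have hT0 : 0 ≤ Real.smoothTransition (z / 2 ^ M (s + 1) - 1) :=
    Real.smoothTransition.nonneg _
  have hT1 : Real.smoothTransition (z / 2 ^ M (s + 1) - 1) ≤ 1 :=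
    Real.smoothTransition.le_one _
  obtain ⟨a1, a2⟩ := hb s z hz
  obtain ⟨c1, c2⟩ := hb (s + 1) z hz
  have hbs : 0 ≤ b s := (abs_nonneg _).trans a1
  have hbs1 : 0 ≤ b (s + 1) := (abs_nonneg _).trans c1
  set T := Real.smoothTransition (z / 2 ^ M (s + 1) - 1) with hTdef
  have hmix : ∀ u v : ℝ, |u| ≤ b s → |v| ≤ b (s + 1) →
      |(1 - T) * u + T * v| ≤ b s + b (s + 1) := by
    intro u v hu hv
    calc |(1 - T) * u + T * v| ≤ |(1 - T) * u| + |T * v| := abs_add_le _ _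
      _ = (1 - T) * |u| + T * |v| := by
          rw [abs_mul, abs_mul, abs_of_nonneg hT0, abs_of_nonneg (by linarith : 0 ≤ 1 - T)]
      _ ≤ 1 * b s + 1 * b (s + 1) := by
          refine add_le_add (mul_le_mul (by linarith) hu (abs_nonneg _) zero_le_one)
            (mul_le_mul hT1 hv (abs_nonneg _) zero_le_one)
      _ = b s + b (s + 1) := by ring
  constructor
  · have e : z * wp Ω M z - 1 = (1 - T) * (z * Ω s z - 1) + T * (z * Ω (s + 1) z - 1) := by
      rw [hz1]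
      ring
    rw [e]
    exact hmix _ _ a1 c1
  · have hd : ∀ i, HasDerivAt (Ω i) (deriv (Ω i) z) z := fun i =>
      (((hΩ.smooth i).contDiffAt (Ioi_mem_nhds hz)).differentiableAt (by simp)).hasDerivAt
    have hTd : HasDerivAt (fun t => Real.smoothTransition (t / 2 ^ M (s + 1) - 1))
        (deriv Real.smoothTransition (z / 2 ^ M (s + 1) - 1) * (1 / 2 ^ M (s + 1))) z := by
      have h3 : HasDerivAt Real.smoothTransition
          (deriv Real.smoothTransition (z / 2 ^ M (s + 1) - 1)) (z / 2 ^ M (s + 1) - 1) :=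
        (((Real.smoothTransition.contDiff (n := 1)).contDiffAt).differentiableAt
          (by simp)).hasDerivAt
      have h4 : HasDerivAt (fun t : ℝ => t / 2 ^ M (s + 1) - 1) (1 / 2 ^ M (s + 1)) z :=
        ((hasDerivAt_id z).div_const _).sub_const _
      exact h3.comp z h4
    have hall := (hd s).add (hTd.mul ((hd (s + 1)).sub (hd s)))
    have hn2 : wp Ω M =ᶠ[𝓝 z] fun t => Ω s t +
      Real.smoothTransition (t / 2 ^ M (s + 1) - 1) * (Ω (s + 1) t - Ω s t) := hn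
    have hder := hn2.deriv_eq.trans hall.deriv
    have e : z ^ 2 * deriv (wp Ω M) z + 1 =
        ((1 - T) * (z ^ 2 * deriv (Ω s) z + 1) + T * (z ^ 2 * deriv (Ω (s + 1)) z + 1)) +
          (deriv Real.smoothTransition (z / 2 ^ M (s + 1) - 1) * (z / 2 ^ M (s + 1))) *
            ((z * Ω (s + 1) z - 1) - (z * Ω s z - 1)) := by
      rw [hder]
      simp only [Pi.sub_apply]
      rw [← hTdef]
      field_simp
      ring
    rw [e]
    have hy : 1 ≤ z / 2 ^ M (s + 1) := (one_le_div hp).2 h1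
    have h5 : |(z * Ω (s + 1) z - 1) - (z * Ω s z - 1)| ≤ b s + b (s + 1) := by
      refine (abs_sub _ _).trans ?_
      linarith
    calc _ ≤ |(1 - T) * (z ^ 2 * deriv (Ω s) z + 1) + T * (z ^ 2 * deriv (Ω (s + 1)) z + 1)| +
          |(deriv Real.smoothTransition (z / 2 ^ M (s + 1) - 1) * (z / 2 ^ M (s + 1))) *
            ((z * Ω (s + 1) z - 1) - (z * Ω s z - 1))| := abs_add_le _ _
      _ ≤ (b s + b (s + 1)) + C * (b s + b (s + 1)) := by
          refine add_le_add (hmix _ _ a2 c2) ?_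
          rw [abs_mul]
          exact mul_le_mul (hC _ hy) h5 (abs_nonneg _) hC0
      _ = (1 + C) * (b s + b (s + 1)) := by ring

private theorem pf9_tail {Ω : ℕ → ℝ → ℝ} {lv : ℕ → ℕ} {δ : ℕ → ℝ} (hΩ : Sq Ω lv δ) {M : ℕ → ℕ}
    (h : Lev M) {ε : ℝ} (hε : 0 < ε) : ∃ R : ℝ, 0 < R ∧ ∀ z, R ≤ z → |z * wp Ω M z - 1| < ε ∧
      |z ^ 2 * deriv (wp Ω M) z + 1| < ε := by
  obtain ⟨b, hb0, hb⟩ := hΩ.near
  obtain ⟨C, hC0, hC⟩ := pf9_T
  have h1 : Tendsto (fun s => (1 + C) * (b s + b (s + 1))) atTop (𝓝 0) := by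
    have h2 := (hb0.add ((tendsto_add_atTop_iff_nat 1).2 hb0)).const_mul (1 + C)
    rwa [add_zero, mul_zero] at h2
  obtain ⟨S, hS⟩ := ((tendsto_order.1 h1).2 ε hε).exists_forall_of_atTop
  refine ⟨2 ^ M (S + 1), by positivity, fun z hz => ?_⟩
  obtain ⟨s, hs, h3, h4⟩ := pf9_find h (S + 1) hz
  obtain ⟨s, rfl⟩ : ∃ s', s = s' + 1 := ⟨s - 1, by omega⟩
  obtain ⟨h5, h6⟩ := pf9_est hΩ h hb hC0 hC s h3 h4
  have h7 := hS s (by omega)
  refine ⟨lt_of_le_of_lt (h5.trans ?_) h7, lt_of_le_of_lt h6 h7⟩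
  have h8 : 0 ≤ b s + b (s + 1) := (abs_nonneg _).trans h5
  nlinarith

/-- `wp` is in the transition octave a convex combination of `Ω s` and `Ω (s-1)`; the derivative
has the additional term `X' (z / 2^M) / 2^M (Ω s - Ω (s-1))` with
`z |Ω s - Ω (s-1)| ≤ b s + b (s-1)`. -/
theorem wp_asymp {Ω : ℕ → ℝ → ℝ} {lv : ℕ → ℕ} {δ : ℕ → ℝ} (hΩ : Sq Ω lv δ) {M : ℕ → ℕ}
    (h : Lev M) : Tendsto (fun z => z * wp Ω M z) atTop (𝓝 1) ∧
      Tendsto (fun z => z ^ 2 * deriv (wp Ω M) z) atTop (𝓝 (-1)) := by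
  constructor
  · rw [Metric.tendsto_atTop]
    intro ε hε
    obtain ⟨R, _, hR⟩ := pf9_tail hΩ h hε
    refine ⟨R, fun z hz => ?_⟩
    rw [Real.dist_eq]
    exact (hR z hz).1
  · rw [Metric.tendsto_atTop]
    intro ε hε
    obtain ⟨R, _, hR⟩ := pf9_tail hΩ h hε
    refine ⟨R, fun z hz => ?_⟩
    rw [Real.dist_eq, sub_neg_eq_add]
    exact (hR z hz).2

/-- homogeneity: the integral over an octave -/
private theorem pf9_oct {f : ℝ → ℝ} (hh : ∀ x, 0 < x → f (2 * x) = f x / 2) (m : ℕ) :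
    ∫ t in ((2 : ℝ) ^ m)..(2 ^ (m + 1)), f t = ∫ t in (1 : ℝ)..2, f t := by
  induction m with
  | zero => simp
  | succ m ih =>
    have h1 := intervalIntegral.integral_comp_mul_left (a := (2 : ℝ) ^ m) (b := 2 ^ (m + 1)) f
      (c := 2) (by norm_num)
    have h2 : ∫ t in ((2 : ℝ) ^ m)..(2 ^ (m + 1)), f (2 * t) =
        ∫ t in ((2 : ℝ) ^ m)..(2 ^ (m + 1)), f t / 2 := by
      refine intervalIntegral.integral_congr fun t ht => ?_
      rw [uIcc_of_le (pow_le_pow_right₀ one_le_two (Nat.le_succ m))] at ht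
      exact hh t (lt_of_lt_of_le (by positivity) ht.1)
    rw [h2, intervalIntegral.integral_div, ih, smul_eq_mul, ← pow_succ', ← pow_succ'] at h1
    linarith

private theorem pf9_pow {f : ℝ → ℝ} (hh : ∀ x, 0 < x → f (2 * x) = f x / 2) (m : ℕ) {x : ℝ}
    (hx : 0 < x) : f (2 ^ m * x) = f x / 2 ^ m := by
  induction m with
  | zero => simp
  | succ m ih =>
    rw [pow_succ', mul_assoc, hh _ (by positivity), ih]
    field_simp

private theorem pf9_cont {Ω : ℕ → ℝ → ℝ} {lv : ℕ → ℕ} {δ : ℕ → ℝ} (hΩ : Sq Ω lv δ) (s : ℕ)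
    {a b : ℝ} (ha : 0 < a) (hab : a ≤ b) : ContinuousOn (Ω s) (Icc a b) :=
  (hΩ.smooth s).continuousOn.mono fun _ ht => lt_of_lt_of_le ha ht.1

private theorem pf9_inv {a b : ℝ} (ha : 0 < a) :
    ContinuousOn (fun t : ℝ => 1 / t) (Icc a b) :=
  continuousOn_const.div continuousOn_id fun _ ht => (lt_of_lt_of_le ha ht.1).ne'

/-- the integral over an octave of a homogeneous profile -/
private theorem pf9_zero {Ω : ℕ → ℝ → ℝ} {lv : ℕ → ℕ} {δ : ℕ → ℝ} (hΩ : Sq Ω lv δ) (s m : ℕ) :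
    ∫ t in ((2 : ℝ) ^ m)..(2 ^ (m + 1)), (Ω s t - 1 / t) = 0 := by
  have h12 : (1 : ℝ) ≤ 2 := by norm_num
  rw [pf9_oct (f := fun t => Ω s t - 1 / t) (fun x hx => by
    show Ω s (2 * x) - 1 / (2 * x) = (Ω s x - 1 / x) / 2
    rw [hΩ.hom s x hx]
    field_simp) m, intervalIntegral.integral_sub, hΩ.int s, integral_one_div_of_pos one_pos two_pos]
  · simp
  · refine ContinuousOn.intervalIntegrable ?_
    rw [uIcc_of_le h12]
    exact pf9_cont hΩ s one_pos h12
  · refine ContinuousOn.intervalIntegrable ?_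
    rw [uIcc_of_le h12]
    exact pf9_inv one_pos

/-- Over an octave inside a stage the integral of `wp - 1/t` is `0` (`int`, `hom`); over the
transition octave `s` it is at most `γ (s-1)` (scale to `[1,2]`: the integral of
`X (Ω s - Ω (s-1))`, and `∫ (Ω s - Ω (s-1)) = 0`); inside an octave it tends to `0` by
`wp_asymp`. -/
theorem wp_integral {Ω : ℕ → ℝ → ℝ} {lv : ℕ → ℕ} {δ : ℕ → ℝ} (hΩ : Sq Ω lv δ) {M : ℕ → ℕ}
    (h : Lev M) : ∃ L, Tendsto (fun Z => ∫ t in (1 : ℝ)..Z, (wp Ω M t - 1 / t)) atTop (𝓝 L) := by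
  have hcont : Continuous (wp Ω M) := (wp_smooth hΩ h).continuous
  have hii : ∀ a b : ℝ, 0 < a → a ≤ b →
      IntervalIntegrable (fun t => wp Ω M t - 1 / t) MeasureTheory.volume a b := by
    intro a b ha hab
    refine ContinuousOn.intervalIntegrable ?_
    rw [uIcc_of_le hab]
    exact hcont.continuousOn.sub (pf9_inv ha)
  obtain ⟨γ, hγ, hγb⟩ := hΩ.sum
  set a : ℕ → ℝ := fun m => ∫ t in ((2 : ℝ) ^ m)..(2 ^ (m + 1)), (wp Ω M t - 1 / t) with ha
  have hle : ∀ m : ℕ, (2 : ℝ) ^ m ≤ 2 ^ (m + 1) := fun m =>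
    pow_le_pow_right₀ one_le_two (Nat.le_succ m)
  have h2p : ∀ m : ℕ, (0 : ℝ) < 2 ^ m := fun m => by positivity
  -- inside a stage
  have hstage : ∀ s m, M s + 1 ≤ m → m + 1 ≤ M (s + 1) → a m = 0 := by
    intro s m h1 h2
    rw [ha]
    show ∫ t in ((2 : ℝ) ^ m)..(2 ^ (m + 1)), (wp Ω M t - 1 / t) = 0
    rw [← pf9_zero hΩ s m]
    refine intervalIntegral.integral_congr fun t ht => ?_
    rw [uIcc_of_le (hle m)] at ht
    show wp Ω M t - 1 / t = Ω s t - 1 / t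
    rw [wp_stage h s ((pow_le_pow_right₀ one_le_two h1).trans ht.1)
      (ht.2.trans (pow_le_pow_right₀ one_le_two h2))]
  -- the transition octaves
  have htrans : ∀ s, |a (M (s + 1))| ≤ γ s := by
    intro s
    have hgap := h.gap s
    have hgap1 := h.gap (s + 1)
    have e1 : a (M (s + 1)) = ∫ t in ((2 : ℝ) ^ M (s + 1))..(2 ^ (M (s + 1) + 1)),
        ((Ω s t - 1 / t) + Real.smoothTransition (t / 2 ^ M (s + 1) - 1) *
          (Ω (s + 1) t - Ω s t)) := by
      rw [ha]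
      refine intervalIntegral.integral_congr fun t ht => ?_
      rw [uIcc_of_le (hle _)] at ht
      show wp Ω M t - 1 / t = (Ω s t - 1 / t) + Real.smoothTransition (t / 2 ^ M (s + 1) - 1) *
          (Ω (s + 1) t - Ω s t)
      rw [wp_eq h (s + 1) (Or.inr ((pow_le_pow_right₀ one_le_two (by
        show M s + 1 ≤ M (s + 1)
        omega)).trans ht.1)) (ht.2.trans (pow_le_pow_right₀ one_le_two (by omega)))]
      show Ω s t + Real.smoothTransition (t / 2 ^ M (s + 1) - 1) * (Ω (s + 1) t - Ω s t) - 1 / t = _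
      ring
    have hc1 : ContinuousOn (fun t => Ω s t - 1 / t)
        (uIcc ((2 : ℝ) ^ M (s + 1)) (2 ^ (M (s + 1) + 1))) := by
      rw [uIcc_of_le (hle _)]
      exact (pf9_cont hΩ s (h2p _) (hle _)).sub (pf9_inv (h2p _))
    have hc2 : ContinuousOn (fun t => Real.smoothTransition (t / 2 ^ M (s + 1) - 1) *
        (Ω (s + 1) t - Ω s t)) (uIcc ((2 : ℝ) ^ M (s + 1)) (2 ^ (M (s + 1) + 1))) := by
      rw [uIcc_of_le (hle _)]
      refine ContinuousOn.mul ?_ ((pf9_cont hΩ (s + 1) (h2p _) (hle _)).sub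
        (pf9_cont hΩ s (h2p _) (hle _)))
      exact (Real.smoothTransition.continuous.comp
        ((continuous_id.div_const _).sub continuous_const)).continuousOn
    rw [e1, intervalIntegral.integral_add hc1.intervalIntegrable hc2.intervalIntegrable,
      pf9_zero hΩ s, zero_add]
    have h3 := intervalIntegral.norm_integral_le_of_norm_le_const (a := (2 : ℝ) ^ M (s + 1))
      (b := 2 ^ (M (s + 1) + 1)) (C := γ s / 2 ^ M (s + 1))
      (f := fun t => Real.smoothTransition (t / 2 ^ M (s + 1) - 1) * (Ω (s + 1) t - Ω s t)) (by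
        intro t ht
        rw [uIoc_of_le (hle _)] at ht
        have ht1 : 1 ≤ t / 2 ^ M (s + 1) := (one_le_div (h2p _)).2 ht.1.le
        have ht2 : t / 2 ^ M (s + 1) ≤ 2 := by
          rw [div_le_iff₀ (h2p _), ← pow_succ']
          exact ht.2
        have h4 := pf9_pow (f := fun t => Ω (s + 1) t - Ω s t) (fun x hx => by
          show Ω (s + 1) (2 * x) - Ω s (2 * x) = (Ω (s + 1) x - Ω s x) / 2
          rw [hΩ.hom _ x hx, hΩ.hom _ x hx]
          ring) (M (s + 1)) (x := t / 2 ^ M (s + 1)) (by linarith)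
        rw [mul_div_cancel₀ _ (h2p _).ne'] at h4
        rw [Real.norm_eq_abs, abs_mul]
        have h5 : |Real.smoothTransition (t / 2 ^ M (s + 1) - 1)| ≤ 1 := by
          rw [abs_of_nonneg (Real.smoothTransition.nonneg _)]
          exact Real.smoothTransition.le_one _
        have h6 : |Ω (s + 1) t - Ω s t| ≤ γ s / 2 ^ M (s + 1) := by
          have h7 : Ω (s + 1) t - Ω s t = (Ω (s + 1) (t / 2 ^ M (s + 1)) -
            Ω s (t / 2 ^ M (s + 1))) / 2 ^ M (s + 1) := h4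
          rw [h7, abs_div, abs_of_pos (h2p _)]
          exact div_le_div_of_nonneg_right (hγb s _ ⟨ht1, ht2⟩) (h2p _).le
        calc _ ≤ 1 * (γ s / 2 ^ M (s + 1)) := mul_le_mul h5 h6 (abs_nonneg _) zero_le_one
          _ = _ := one_mul _)
    rw [Real.norm_eq_abs] at h3
    refine h3.trans (le_of_eq ?_)
    have h8 : (2 : ℝ) ^ (M (s + 1) + 1) - 2 ^ M (s + 1) = 2 ^ M (s + 1) := by
      rw [pow_succ]
      ring
    rw [h8, abs_of_pos (h2p _), div_mul_cancel₀ _ (h2p _).ne']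
  -- summability
  have hsum : Summable a := by
    rw [← summable_nat_add_iff (M 1)]
    have hinj : Function.Injective fun s : ℕ => M (s + 1) - M 1 := by
      intro s s' hss
      have h1 : M 1 ≤ M (s + 1) := h.strictMono.monotone (by omega)
      have h2 : M 1 ≤ M (s' + 1) := h.strictMono.monotone (by omega)
      have h3 : M (s + 1) = M (s' + 1) := by
        have : M (s + 1) - M 1 = M (s' + 1) - M 1 := hss
        omega
      have h4 := h.strictMono.injective h3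
      omega
    rw [← hinj.summable_iff]
    · refine Summable.of_norm_bounded hγ fun s => ?_
      have h1 : M 1 ≤ M (s + 1) := h.strictMono.monotone (by omega)
      show ‖a (M (s + 1) - M 1 + M 1)‖ ≤ γ s
      rw [Nat.sub_add_cancel h1, Real.norm_eq_abs]
      exact htrans s
    · intro n hn
      have hn1 : (2 : ℝ) ^ M 1 ≤ 2 ^ (n + M 1) := pow_le_pow_right₀ one_le_two (by omega)
      obtain ⟨s, hs, h3, h4⟩ := pf9_find h 1 hn1
      have h5 : M s ≤ n + M 1 := (pow_le_pow_iff_right₀ one_lt_two).1 h3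
      have h6 : n + M 1 < M (s + 1) := (pow_lt_pow_iff_right₀ one_lt_two).1 h4
      have h7 : M s ≠ n + M 1 := by
        intro h8
        apply hn
        refine ⟨s - 1, ?_⟩
        show M (s - 1 + 1) - M 1 = n
        rw [Nat.sub_add_cancel hs]
        omega
      exact hstage s (n + M 1) (by omega) (by omega)
  have hGsum : ∀ n, ∑ k ∈ Finset.range n, a k = ∫ t in (1 : ℝ)..2 ^ n, (wp Ω M t - 1 / t) := by
    intro n
    have h1 := intervalIntegral.sum_integral_adjacent_intervals (a := fun k : ℕ => (2 : ℝ) ^ k)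
      (n := n) (f := fun t => wp Ω M t - 1 / t) (μ := MeasureTheory.volume)
      (fun k _ => hii _ _ (h2p k) (hle k))
    simp only [pow_zero] at h1
    exact h1
  have hG : Tendsto (fun n : ℕ => ∫ t in (1 : ℝ)..2 ^ n, (wp Ω M t - 1 / t)) atTop
      (𝓝 (∑' m, a m)) := by
    simp only [← hGsum]
    exact hsum.hasSum.tendsto_sum_nat
  refine ⟨∑' m, a m, ?_⟩
  rw [Metric.tendsto_atTop]
  intro ε hε
  obtain ⟨R, hR0, hR⟩ := pf9_tail hΩ h (half_pos hε)
  obtain ⟨n0, hn0⟩ := (Metric.tendsto_atTop.1 hG) (ε / 2) (half_pos hε)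
  obtain ⟨n1, hn1⟩ := pow_unbounded_of_one_lt R (one_lt_two : (1 : ℝ) < 2)
  refine ⟨2 ^ (max n0 n1), fun Z hZ => ?_⟩
  have hZ1 : (1 : ℝ) ≤ Z := (one_le_pow₀ one_le_two).trans hZ
  have hfl : ⌊Z⌋₊ ≠ 0 := by
    rw [Ne, Nat.floor_eq_zero]
    exact not_lt.2 hZ1
  set m := Nat.log 2 ⌊Z⌋₊ with hm
  have hm1 : (2 : ℝ) ^ m ≤ Z := by
    have h1 : 2 ^ m ≤ ⌊Z⌋₊ := Nat.pow_log_le_self 2 hfl
    have h2 : ((2 ^ m : ℕ) : ℝ) ≤ Z := (Nat.cast_le.2 h1).trans (Nat.floor_le (by linarith))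
    exact_mod_cast h2
  have hm2 : Z < (2 : ℝ) ^ (m + 1) := by
    have h1 : ⌊Z⌋₊ < 2 ^ (m + 1) := Nat.lt_pow_succ_log_self one_lt_two _
    have h2 : Z < ((2 ^ (m + 1) : ℕ) : ℝ) := (Nat.floor_lt (by linarith)).1 h1
    exact_mod_cast h2
  have hm3 : max n0 n1 ≤ m := by
    have h1 : (2 : ℝ) ^ (max n0 n1) < 2 ^ (m + 1) := lt_of_le_of_lt hZ hm2
    have h2 := (pow_lt_pow_iff_right₀ (one_lt_two : (1 : ℝ) < 2)).1 h1
    omega
  have hm0 : n0 ≤ m := (le_max_left _ _).trans hm3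
  have hR2 : R ≤ 2 ^ m :=
    hn1.le.trans (pow_le_pow_right₀ one_le_two ((le_max_right _ _).trans hm3))
  have hsplit : ∫ t in (1 : ℝ)..Z, (wp Ω M t - 1 / t) =
      (∫ t in (1 : ℝ)..2 ^ m, (wp Ω M t - 1 / t)) +
        ∫ t in ((2 : ℝ) ^ m)..Z, (wp Ω M t - 1 / t) :=
    (intervalIntegral.integral_add_adjacent_intervals
      (hii _ _ one_pos (one_le_pow₀ one_le_two)) (hii _ _ (h2p m) hm1)).symm
  have hlast : |∫ t in ((2 : ℝ) ^ m)..Z, (wp Ω M t - 1 / t)| ≤ ε / 2 := by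
    have h3 := intervalIntegral.norm_integral_le_of_norm_le_const (a := (2 : ℝ) ^ m)
      (b := Z) (C := ε / 2 / 2 ^ m) (f := fun t => wp Ω M t - 1 / t) (by
        intro t ht
        rw [uIoc_of_le hm1] at ht
        have ht0 : 0 < t := (h2p m).trans ht.1
        have h4 := (hR t (hR2.trans ht.1.le)).1
        have h5 : wp Ω M t - 1 / t = (t * wp Ω M t - 1) / t := by
          field_simp
        rw [h5, Real.norm_eq_abs, abs_div, abs_of_pos ht0]
        exact div_le_div₀ (half_pos hε).le h4.le (h2p m) ht.1.le)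
    rw [Real.norm_eq_abs] at h3
    refine h3.trans ?_
    have h6 : Z - 2 ^ m ≤ 2 ^ m := by
      rw [pow_succ] at hm2
      linarith
    rw [abs_of_nonneg (by linarith : 0 ≤ Z - 2 ^ m)]
    calc ε / 2 / 2 ^ m * (Z - 2 ^ m) ≤ ε / 2 / 2 ^ m * 2 ^ m :=
          mul_le_mul_of_nonneg_left h6 (by positivity)
      _ = ε / 2 := div_mul_cancel₀ _ (h2p m).ne'
  have hfirst := hn0 m hm0
  rw [Real.dist_eq] at hfirst ⊢
  rw [hsplit]
  calc _ = |((∫ t in (1 : ℝ)..2 ^ m, (wp Ω M t - 1 / t)) - ∑' m, a m) +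
        ∫ t in ((2 : ℝ) ^ m)..Z, (wp Ω M t - 1 / t)| := by
          congr 1
          ring
    _ ≤ |(∫ t in (1 : ℝ)..2 ^ m, (wp Ω M t - 1 / t)) - ∑' m, a m| +
        |∫ t in ((2 : ℝ) ^ m)..Z, (wp Ω M t - 1 / t)| := abs_add_le _ _
    _ < ε / 2 + ε / 2 := by linarith
    _ = ε := by ring

end GD31
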