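import Pool.Agent.LibGermDist46.Taylor

/-! # PP1: Taylor expansions at `0` in `O`-form for smooth functions -/

open Filter Topology Set Asymptotics

namespace GD31

/-- `C^∞` at `0` -/
abbrev Cinf (f : ℝ → ℝ) : Prop := ContDiffAt ℝ ((⊤ : ℕ∞) : WithTop ℕ∞) f 0

open Polynomial GermDist46 in
theorem pp1_div {g : ℝ → ℝ} {m k : ℕ}
    (h : (fun x => x ^ m * g x) =O[𝓝[≠] 0] fun x => x ^ (m + k)) :
    g =O[𝓝[≠] 0] fun x => x ^ k := by
  rw [isBigO_iff] at h ⊢
  obtain ⟨c, hc⟩ := h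
  refine ⟨c, ?_⟩
  filter_upwards [hc, self_mem_nhdsWithin] with x hx hx0
  have hx0' : x ≠ 0 := hx0
  have hp : 0 < ‖x ^ m‖ := norm_pos_iff.2 (pow_ne_zero m hx0')
  rw [norm_mul, pow_add, norm_mul] at hx
  have h1 : ‖x ^ m‖ * ‖g x‖ ≤ ‖x ^ m‖ * (c * ‖x ^ k‖) := by
    calc ‖x ^ m‖ * ‖g x‖ ≤ c * (‖x ^ m‖ * ‖x ^ k‖) := hx
      _ = ‖x ^ m‖ * (c * ‖x ^ k‖) := by ring
  exact le_of_mul_le_mul_left h1 hp

open Polynomial GermDist46 in
theorem pp1_poly {m : ℕ} : ∀ P : ℝ[X], ((fun x => P.eval x) =O[𝓝 0] fun x => x ^ m) →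
    ∃ Q : ℝ[X], P = X ^ m * Q := by
  induction m with
  | zero => exact fun P _ => ⟨P, by simp⟩
  | succ m ih =>
    intro P h
    obtain ⟨Q, hQ⟩ := ih P (h.trans (isBigO_pow_pow_nhds_zero (Nat.le_succ m)))
    have h1 : (fun x : ℝ => x ^ m * Q.eval x) =O[𝓝[≠] 0] fun x => x ^ (m + 1) := by
      refine (h.mono nhdsWithin_le_nhds).congr_left fun x => ?_
      rw [hQ]
      simp
    have h2 := pp1_div h1
    have h3 : Tendsto (fun x => Q.eval x) (𝓝[≠] 0) (𝓝 0) := by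
      refine h2.trans_tendsto ?_
      have h4 : Tendsto (fun x : ℝ => x ^ 1) (𝓝 0) (𝓝 (0 ^ 1)) := (continuous_pow 1).tendsto 0
      rw [zero_pow one_ne_zero] at h4
      exact h4.mono_left nhdsWithin_le_nhds
    have h4 : Tendsto (fun x => Q.eval x) (𝓝[≠] 0) (𝓝 (Q.eval 0)) :=
      (Q.continuous.tendsto 0).mono_left nhdsWithin_le_nhds
    have h5 : Q.eval 0 = 0 := tendsto_nhds_unique h4 h3
    obtain ⟨R, hR⟩ := X_dvd_iff.2 (by rw [coeff_zero_eq_eval_zero]; exact h5 : Q.coeff 0 = 0)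
    exact ⟨R, by rw [hQ, hR]; ring⟩

open Polynomial GermDist46 in
theorem pp1_taylor {f : ℝ → ℝ} (hf : Cinf f) (m : ℕ) : ∃ P : ℝ[X],
    ((fun x => f x - P.eval x) =O[𝓝 0] fun x => x ^ (m + 1)) ∧
    ((fun x => deriv f x - (derivative P).eval x) =O[𝓝 0] fun x => x ^ m) := by
  have hm : ContDiffAt ℝ (m + 1 : ℕ) f 0 := hf.of_le (by exact_mod_cast le_top)
  obtain ⟨P, h0, -, h1⟩ := exists_taylor m f hm
  refine ⟨P, (isLittleO_of_deriv (φ' := fun x => deriv f x - (derivative P).eval x) ?_ h1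
    (by rw [h0, sub_self])).isBigO, h1.isBigO⟩
  filter_upwards [eventually_hasDerivAt hm] with x hx
  exact hx.sub (P.hasDerivAt x)

open Polynomial GermDist46 in
theorem pp1_polyO (Q : ℝ[X]) (m : ℕ) : (fun x => x ^ m * Q.eval x) =O[𝓝 0] fun x => x ^ m := by
  have h := (isBigO_refl (fun x : ℝ => x ^ m) (𝓝 0)).mul (poly_isBigO_one Q)
  simpa using h

open Polynomial GermDist46 in
theorem taylor_O {f : ℝ → ℝ} (hf : Cinf f) {m : ℕ} (h : f =O[𝓝 0] fun x => x ^ m) :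
    ∃ d : ℝ, (fun x => f x - d * x ^ m) =O[𝓝 0] fun x => x ^ (m + 1) := by
  obtain ⟨P, h1, -⟩ := pp1_taylor hf m
  have h2 : (fun x => P.eval x) =O[𝓝 0] fun x => x ^ m := by
    refine (h.sub (h1.trans (isBigO_pow_pow_nhds_zero (Nat.le_succ m)))).congr_left fun x => ?_
    ring
  obtain ⟨Q, hQ⟩ := pp1_poly P h2
  obtain ⟨R, hR⟩ := X_dvd_iff.2 (show (Q - C (Q.eval 0)).coeff 0 = 0 by
    rw [coeff_zero_eq_eval_zero]
    simp)
  refine ⟨Q.eval 0, ?_⟩
  refine (h1.add (pp1_polyO R (m + 1))).congr_left fun x => ?_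
  have h3 : Q.eval x - Q.eval 0 = x * R.eval x := by
    have := congrArg (fun p => p.eval x) hR
    simpa using this
  have h4 : P.eval x = x ^ m * Q.eval x := by
    rw [hQ]
    simp
  rw [h4]
  have h5 : x ^ (m + 1) * R.eval x = x ^ m * (Q.eval x - Q.eval 0) := by
    rw [h3]
    ring
  rw [h5]
  ring

open Polynomial GermDist46 in
theorem deriv_O {f : ℝ → ℝ} (hf : Cinf f) {m : ℕ} (h : f =O[𝓝 0] fun x => x ^ (m + 1)) :
    deriv f =O[𝓝 0] fun x => x ^ m := by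
  obtain ⟨P, h1, h2⟩ := pp1_taylor hf m
  have h3 : (fun x => P.eval x) =O[𝓝 0] fun x => x ^ (m + 1) :=
    (h.sub h1).congr_left fun x => by ring
  obtain ⟨Q, hQ⟩ := pp1_poly P h3
  have h4 : derivative P = X ^ m * (C (m + 1 : ℝ) * Q + X * derivative Q) := by
    rw [hQ, derivative_mul, derivative_X_pow]
    simp only [Nat.add_sub_cancel, Nat.cast_add, Nat.cast_one]
    ring
  refine (h2.add (pp1_polyO (C (m + 1 : ℝ) * Q + X * derivative Q) m)).congr_left fun x => ?_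
  rw [h4]
  simp

/-- division by a power, with the value `d` at `0` -/
noncomputable def pp1_dv (f : ℝ → ℝ) (m : ℕ) (d x : ℝ) : ℝ := if x = 0 then d else f x / x ^ m

theorem pp1_dv_O {f p : ℝ → ℝ} {m k : ℕ} {d : ℝ} (hp : p 0 = d)
    (h : (fun x => f x - p x * x ^ m) =O[𝓝 0] fun x => x ^ (m + k)) :
    (fun x => pp1_dv f m d x - p x) =O[𝓝 0] fun x => x ^ k := by
  obtain ⟨c, hc0, hc⟩ := h.exists_nonneg
  rw [isBigO_iff]
  refine ⟨c, ?_⟩
  filter_upwards [hc.bound] with x hx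
  by_cases hx0 : x = 0
  · subst hx0
    unfold pp1_dv
    rw [if_pos rfl, hp, sub_self, norm_zero]
    positivity
  · have hpos : 0 < ‖x ^ m‖ := norm_pos_iff.2 (pow_ne_zero m hx0)
    have h1 : x ^ m * (pp1_dv f m d x - p x) = f x - p x * x ^ m := by
      unfold pp1_dv
      rw [if_neg hx0, mul_sub, mul_div_cancel₀ _ (pow_ne_zero m hx0)]
      ring
    rw [← h1, norm_mul, pow_add, norm_mul] at hx
    have h2 : ‖x ^ m‖ * ‖pp1_dv f m d x - p x‖ ≤ ‖x ^ m‖ * (c * ‖x ^ k‖) := by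
      calc _ ≤ c * (‖x ^ m‖ * ‖x ^ k‖) := hx
        _ = ‖x ^ m‖ * (c * ‖x ^ k‖) := by ring
    exact le_of_mul_le_mul_left h2 hpos

theorem pp1_deriv_cinf {f : ℝ → ℝ} (hf : Cinf f) : Cinf (deriv f) := by
  have h1 := contDiffAt_infty.1 hf
  exact contDiffAt_infty.2 fun n => GermDist46.contDiffAt_deriv (h1 (n + 1))

theorem pp1_ev {f : ℝ → ℝ} (hf : Cinf f) : ∀ᶠ x in 𝓝 (0 : ℝ), HasDerivAt f (deriv f x) x :=
  GermDist46.eventually_hasDerivAt (m := 0) (hf.of_le (by exact_mod_cast le_top))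

theorem pp1_mono_O {d : ℝ} {m k : ℕ} (h : m ≤ k) : (fun x : ℝ => d * x ^ k) =O[𝓝 0] fun x => x ^ m :=
  (GermDist46.isBigO_pow_pow_nhds_zero h).const_mul_left d

theorem pp1_pow_cinf (d : ℝ) (k : ℕ) : Cinf (fun x : ℝ => d * x ^ k) :=
  contDiffAt_const.mul (contDiffAt_id.pow k)

/-- the second coefficient -/
theorem pp1_second {f : ℝ → ℝ} (hf : Cinf f) {m : ℕ} {d : ℝ}
    (h : (fun x => f x - d * x ^ m) =O[𝓝 0] fun x => x ^ (m + 1)) :
    ∃ e : ℝ, ((fun x => f x - (d + e * x) * x ^ m) =O[𝓝 0] fun x => x ^ (m + 2)) ∧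
      ((fun x => (x * deriv f x - m * f x) - e * x ^ (m + 1)) =O[𝓝 0] fun x => x ^ (m + 2)) := by
  have hu : Cinf (fun x => f x - d * x ^ m) := hf.sub (pp1_pow_cinf d m)
  obtain ⟨e, he⟩ := taylor_O hu h
  have hr : Cinf (fun x => f x - d * x ^ m - e * x ^ (m + 1)) := hu.sub (pp1_pow_cinf e (m + 1))
  have hd := deriv_O hr he
  refine ⟨e, he.congr_left fun x => by ring, ?_⟩
  have hx : (fun x : ℝ => x) =O[𝓝 0] fun x => x ^ 1 := by simpa using isBigO_refl _ _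
  have h1 : (fun x => x * deriv (fun x => f x - d * x ^ m - e * x ^ (m + 1)) x) =O[𝓝 0]
      fun x => x ^ (m + 2) := by
    refine (hx.mul hd).congr_right fun x => ?_
    ring
  have h2 := h1.sub (he.const_mul_left (m : ℝ))
  refine h2.congr' ?_ (EventuallyEq.refl _ _)
  filter_upwards [pp1_ev hf] with x hfx
  have h3 : HasDerivAt (fun x => f x - d * x ^ m - e * x ^ (m + 1))
      (deriv f x - d * (m * x ^ (m - 1)) - e * ((m + 1 : ℕ) * x ^ (m + 1 - 1))) x :=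
    (hfx.sub ((hasDerivAt_pow m x).const_mul d)).sub ((hasDerivAt_pow (m + 1) x).const_mul e)
  rw [h3.deriv]
  have h4 : (m : ℝ) * x ^ (m - 1) * x = m * x ^ m := by
    rcases m with _ | m
    · simp
    · rw [Nat.add_sub_cancel, pow_succ]
      ring
  rw [Nat.add_sub_cancel]
  push_cast
  have h5 : x * (deriv f x - d * (m * x ^ (m - 1)) - e * ((m + 1) * x ^ m)) =
      x * deriv f x - d * (m * x ^ (m - 1) * x) - e * (m + 1) * x ^ (m + 1) := by ring
  rw [h5, h4]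
  ring

theorem pp1_hasDerivAt {f : ℝ → ℝ} (hf : Cinf f) {m : ℕ} {d e : ℝ}
    (h : (fun x => f x - (d + e * x) * x ^ m) =O[𝓝 0] fun x => x ^ (m + 2)) :
    ∀ᶠ x in 𝓝 (0 : ℝ), HasDerivAt (pp1_dv f m d)
      (pp1_dv (fun x => x * deriv f x - m * f x) (m + 1) e x) x := by
  filter_upwards [pp1_ev hf] with x hfx
  by_cases hx0 : x = 0
  · subst hx0
    have h1 := pp1_dv_O (p := fun x => d + e * x) (d := d) (by simp) h
    have h2 : pp1_dv (fun x => x * deriv f x - m * f x) (m + 1) e 0 = e := by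
      unfold pp1_dv
      rw [if_pos rfl]
    have h3 : pp1_dv f m d 0 = d := by
      unfold pp1_dv
      rw [if_pos rfl]
    rw [h2, hasDerivAt_iff_isLittleO]
    have h4 : (fun x : ℝ => x ^ 2) =o[𝓝 0] fun x => x ^ 1 := isLittleO_pow_pow (by norm_num)
    have h5 := h1.trans_isLittleO h4
    refine h5.congr (fun x => ?_) (fun x => ?_)
    · rw [h3, smul_eq_mul]
      ring
    · ring
  · have h1 : pp1_dv f m d =ᶠ[𝓝 x] fun x => f x / x ^ m := by
      filter_upwards [isOpen_ne.mem_nhds hx0] with y hy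
      unfold pp1_dv
      rw [if_neg hy]
    have h2 : HasDerivAt (fun x => f x / x ^ m)
        ((deriv f x * x ^ m - f x * (m * x ^ (m - 1))) / (x ^ m) ^ 2) x :=
      hfx.div (hasDerivAt_pow m x) (pow_ne_zero m hx0)
    refine (h2.congr_of_eventuallyEq h1).congr_deriv ?_
    unfold pp1_dv
    rw [if_neg hx0]
    have h4 : (m : ℝ) * x ^ (m - 1) = m * x ^ m / x := by
      rcases m with _ | m
      · simp
      · rw [Nat.add_sub_cancel, pow_succ]
        field_simp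
    rw [h4]
    field_simp
    ring

theorem pp1_contDiff (n : ℕ) : ∀ (m : ℕ) (f : ℝ → ℝ) (d : ℝ), Cinf f →
    ((fun x => f x - d * x ^ m) =O[𝓝 0] fun x => x ^ (m + 1)) →
    ContDiffAt ℝ n (pp1_dv f m d) 0 := by
  induction n with
  | zero =>
    intro m f d hf h
    obtain ⟨e, he, -⟩ := pp1_second hf h
    have h1 := pp1_hasDerivAt hf he
    exact contDiffAt_zero.2 ⟨_, h1, fun x hx => (HasDerivAt.continuousAt hx).continuousWithinAt⟩
  | succ n ih =>
    intro m f d hf h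
    obtain ⟨e, he, he'⟩ := pp1_second hf h
    have h1 := pp1_hasDerivAt hf he
    have hh : Cinf (fun x => x * deriv f x - m * f x) :=
      (contDiffAt_id.mul (pp1_deriv_cinf hf)).sub (contDiffAt_const.mul hf)
    have h2 := ih (m + 1) _ e hh he'
    have h3 : ContDiffAt ℝ (n + 1) (pp1_dv f m d) 0 := by
      refine contDiffAt_succ_iff_hasFDerivAt.2 ⟨fun x => ContinuousLinearMap.toSpanSingleton ℝ
        (pp1_dv (fun x => x * deriv f x - m * f x) (m + 1) e x), ⟨_, h1, fun x hx => ?_⟩, ?_⟩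
      · exact HasDerivAt.hasFDerivAt hx
      · exact (ContinuousLinearMap.toSpanSingletonLIE ℝ ℝ).contDiff.contDiffAt.comp 0 h2
    exact_mod_cast h3

/-- division by a power: `f = x^m g` with `g` smooth at `0` (e.g. iterate
`f x = x ∫_0^1 f' (t x) dt`, or `dslope`) -/
theorem exists_div_pow {f : ℝ → ℝ} (hf : Cinf f) {m : ℕ} (h : f =O[𝓝 0] fun x => x ^ m) :
    ∃ g : ℝ → ℝ, Cinf g ∧ ∀ᶠ x in 𝓝 0, f x = x ^ m * g x := by
  obtain ⟨d, hd⟩ := taylor_O hf h
  refine ⟨pp1_dv f m d, contDiffAt_infty.2 fun n => pp1_contDiff n m f d hf hd, ?_⟩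
  have hf0 : f 0 = d * 0 ^ m := by
    obtain ⟨c, hc⟩ := hd.isBigOWith
    have h1 := hc.bound.self_of_nhds
    simp only [zero_pow (Nat.succ_ne_zero m), norm_zero, mul_zero, norm_le_zero_iff] at h1
    linarith
  refine Filter.Eventually.of_forall fun x => ?_
  unfold pp1_dv
  by_cases hx : x = 0
  · rw [if_pos hx, hx, hf0]
    ring
  · rw [if_neg hx, mul_div_cancel₀ _ (pow_ne_zero m hx)]

theorem pp1_iter : ∀ (k : ℕ) (u : ℝ → ℝ), Cinf u → (u =O[𝓝 0] fun x => x ^ (k + 1)) →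
    iteratedDeriv k u 0 = 0 := by
  intro k
  induction k with
  | zero =>
    intro u _ h
    rw [iteratedDeriv_zero]
    obtain ⟨c, hc⟩ := h.isBigOWith
    have h1 := hc.bound.self_of_nhds
    simpa using h1
  | succ k ih =>
    intro u hu h
    rw [iteratedDeriv_succ']
    exact ih _ (pp1_deriv_cinf hu) (deriv_O hu h)

theorem exists_order {f : ℝ → ℝ} (hf : Cinf f) (h0 : f 0 = 0) (h1 : deriv f 0 = 1)
    (h2 : ∃ k, 2 ≤ k ∧ iteratedDeriv k f 0 ≠ 0) : ∃ (p : ℕ) (c : ℝ), 1 ≤ p ∧ c ≠ 0 ∧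
      (fun x => f x - (x + c * x ^ (p + 1))) =O[𝓝 0] fun x => x ^ (p + 2) := by
  obtain ⟨k, hk, hk0⟩ := h2
  have hu : Cinf (fun x => f x - x) := hf.sub contDiffAt_id
  have huk : iteratedDeriv k (fun x => f x - x) 0 ≠ 0 := by
    have h3 : iteratedDeriv k (fun x : ℝ => x) 0 = 0 := by
      obtain ⟨j, rfl⟩ : ∃ j, k = j + 2 := ⟨k - 2, by omega⟩
      rw [iteratedDeriv_succ']
      have h4 : deriv (fun x : ℝ => x) = fun _ => 1 := by
        funext x
        exact deriv_id x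
      rw [h4, iteratedDeriv_const, if_neg (Nat.succ_ne_zero j)]
    have h5 : ContDiffAt ℝ k (fun x : ℝ => x) 0 := contDiffAt_id
    have h6 : ContDiffAt ℝ k f 0 := hf.of_le (by exact_mod_cast le_top)
    rw [iteratedDeriv_fun_sub h6 h5, h3, sub_zero]
    exact hk0
  -- `u = O(x^2)`
  have hO2 : (fun x => f x - x) =O[𝓝 0] fun x => x ^ 2 := by
    have e0 : (fun x => f x - x) =O[𝓝 0] fun x => x ^ 0 := by
      simpa using hu.continuousAt.norm.isBoundedUnder_le.isBigO_one ℝ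
    obtain ⟨a, ha⟩ := taylor_O hu e0
    have ha0 : a = 0 := by
      obtain ⟨c, hc⟩ := ha.isBigOWith
      have h5 := hc.bound.self_of_nhds
      simpa [h0] using h5
    rw [ha0] at ha
    have e1 : (fun x => f x - x) =O[𝓝 0] fun x => x ^ 1 := by simpa using ha
    obtain ⟨b, hb⟩ := taylor_O hu e1
    have hb0 : b = 0 := by
      have hv : Cinf (fun x => f x - x - b * x ^ 1) := hu.sub (pp1_pow_cinf b 1)
      have h6 := pp1_iter 1 _ hv hb
      have h7 : HasDerivAt f (deriv f 0) 0 := (pp1_ev hf).self_of_nhds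
      have h8 : HasDerivAt (fun x => f x - x - b * x ^ 1) (deriv f 0 - 1 - b) 0 := by
        have h9 : HasDerivAt (fun x => f x - x - b * x ^ 1)
            (deriv f 0 - 1 - b * ((1 : ℕ) * 0 ^ (1 - 1))) 0 :=
          (h7.sub (hasDerivAt_id' (0 : ℝ))).sub ((hasDerivAt_pow 1 (0 : ℝ)).const_mul b)
        refine h9.congr_deriv ?_
        simp
      rw [iteratedDeriv_one, h8.deriv, h1] at h6
      linarith
    rw [hb0] at hb
    simpa using hb
  -- the largest order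
  have hex : ∃ m, ¬ ((fun x => f x - x) =O[𝓝 0] fun x => x ^ (m + 3)) := by
    by_contra hcon
    push Not at hcon
    have h3 : (fun x => f x - x) =O[𝓝 0] fun x => x ^ (k + 1) :=
      (hcon k).trans (GermDist46.isBigO_pow_pow_nhds_zero (by omega))
    exact huk (pp1_iter k _ hu h3)
  classical
  obtain ⟨m, hm, hmin⟩ : ∃ m, ¬ ((fun x => f x - x) =O[𝓝 0] fun x => x ^ (m + 3)) ∧
      ∀ j < m, (fun x => f x - x) =O[𝓝 0] fun x => x ^ (j + 3) :=
    ⟨Nat.find hex, Nat.find_spec hex, fun j hj => not_not.1 (Nat.find_min hex hj)⟩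
  have hOm : (fun x => f x - x) =O[𝓝 0] fun x => x ^ (m + 2) := by
    rcases m with _ | m
    · exact hO2
    · exact hmin m (Nat.lt_succ_self m)
  obtain ⟨c, hc⟩ := taylor_O hu hOm
  refine ⟨m + 1, c, by omega, ?_, hc.congr_left fun x => by ring⟩
  rintro rfl
  apply hm
  simpa using hc

end GD31
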