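import Pool.Agent.LibGD31.PP1

/-! # PP2: elimination of one coefficient -/

open Filter Topology Set Asymptotics

namespace GD31

private theorem pp2_mono {a b : ℕ} (h : b ≤ a) :
    (fun x : ℝ => x ^ a) =O[𝓝 0] fun x => x ^ b := by
  obtain ⟨c, rfl⟩ := Nat.exists_eq_add_of_le h
  have h1 : (fun x : ℝ => x ^ c) =O[𝓝 0] fun _ => (1 : ℝ) :=
    ((continuous_pow c).tendsto (0 : ℝ)).isBigO_one ℝ
  have h2 := (isBigO_refl (fun x : ℝ => x ^ b) (𝓝 0)).mul h1
  simpa [pow_add] using h2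

/-- powers of a germ `t + e t^(r+1) + O(t^(r+2))` -/
private theorem pp2_pow {u : ℝ → ℝ} {e : ℝ} {r : ℕ} (hr : 1 ≤ r)
    (hu : (fun t => u t - (t + e * t ^ (r + 1))) =O[𝓝 0] fun t => t ^ (r + 2)) (n : ℕ) :
    (fun t => u t ^ n - (t ^ n + n * e * t ^ (n + r))) =O[𝓝 0] fun t => t ^ (n + r + 1) := by
  have hu1 : u =O[𝓝 0] fun t => t ^ 1 := by
    have h1 : (fun t => u t - (t + e * t ^ (r + 1))) =O[𝓝 0] fun t : ℝ => t ^ 1 :=
      hu.trans (pp2_mono (by omega))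
    have h2 : (fun t : ℝ => t + e * t ^ (r + 1)) =O[𝓝 0] fun t : ℝ => t ^ 1 := by
      refine IsBigO.add ?_ ((pp2_mono (by omega)).const_mul_left e)
      simpa using isBigO_refl (fun t : ℝ => t) (𝓝 0)
    simpa using h1.add h2
  induction n with
  | zero =>
    simp only [pow_zero, Nat.cast_zero, zero_mul, add_zero, sub_self]
    exact isBigO_zero _ _
  | succ n ih =>
    have h1 : (fun t => u t ^ n * (u t - (t + e * t ^ (r + 1)))) =O[𝓝 0]
        fun t => t ^ (n + 1 + r + 1) := by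
      have h2 := (hu1.pow n).mul hu
      refine h2.congr_right fun t => ?_
      ring
    have h3 : (fun t => (t + e * t ^ (r + 1)) * (u t ^ n - (t ^ n + n * e * t ^ (n + r)))) =O[𝓝 0]
        fun t => t ^ (n + 1 + r + 1) := by
      have h4 : (fun t : ℝ => t + e * t ^ (r + 1)) =O[𝓝 0] fun t : ℝ => t ^ 1 := by
        refine IsBigO.add ?_ ((pp2_mono (by omega)).const_mul_left e)
        simpa using isBigO_refl (fun t : ℝ => t) (𝓝 0)
      refine (h4.mul ih).congr_right fun t => ?_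
      ring
    have h5 : (fun t : ℝ => n * e ^ 2 * t ^ (n + 2 * r + 1)) =O[𝓝 0]
        fun t => t ^ (n + 1 + r + 1) := (pp2_mono (by omega)).const_mul_left _
    refine ((h1.add h3).add h5).congr_left fun t => ?_
    push_cast
    ring

/-- local inverse of a smooth germ `x + …` -/
theorem exists_local_inverse {φ : ℝ → ℝ} (hφ : Cinf φ) (h0 : φ 0 = 0) (h1 : deriv φ 0 = 1) :
    ∃ ψ : ℝ → ℝ, Cinf ψ ∧ ψ 0 = 0 ∧ deriv ψ 0 = 1 ∧ (∀ᶠ x in 𝓝 0, φ (ψ x) = x) ∧
      ∀ᶠ x in 𝓝 0, ψ (φ x) = x := by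
  have hn : ((⊤ : ℕ∞) : WithTop ℕ∞) ≠ 0 := by simp
  have hs : HasStrictDerivAt φ 1 0 := by
    have := hφ.hasStrictDerivAt hn
    rwa [h1] at this
  have hf := hs.hasStrictFDerivAt_equiv one_ne_zero
  refine ⟨hφ.localInverse hf.hasFDerivAt hn, ?_, ?_, ?_, ?_, ?_⟩
  · have := hφ.to_localInverse hf.hasFDerivAt hn
    rwa [h0] at this
  · have := hφ.localInverse_apply_image hf.hasFDerivAt hn
    rwa [h0] at this
  · have h2 := hs.to_localInverse one_ne_zero
    rw [h0] at h2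
    have h3 := h2.hasDerivAt.deriv
    rw [inv_one] at h3
    exact h3
  · have h2 := hf.eventually_right_inverse
    rw [h0] at h2
    exact h2
  · exact hf.eventually_left_inverse

/-- `φ x = x + β x^(m-p)`, `β = -d / (c (m - 2p - 1))`, `f' = φ ∘ f ∘ φ⁻¹`: with `f̃ = x + c x^(p+1)
+ a x^(2p+1) + d̃ x^m + …` both sides of `φ ∘ f = f̃ ∘ φ` give
`d + β (m-p) c = β c (p+1) + d̃`, i.e. `d̃ = d + β c (m - 2p - 1) = 0`. -/
theorem elim_step {f : ℝ → ℝ} (hf : Cinf f) {p m : ℕ} {c a d : ℝ} (hp : 1 ≤ p) (hc : c ≠ 0)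
    (hm : p + 2 ≤ m) (hm' : m ≠ 2 * p + 1) (ha : m < 2 * p + 1 → a = 0)
    (h : (fun x => f x - (x + c * x ^ (p + 1) + a * x ^ (2 * p + 1) + d * x ^ m)) =O[𝓝 0]
      fun x => x ^ (m + 1)) :
    ∃ φ f' : ℝ → ℝ, Cinf φ ∧ φ 0 = 0 ∧ deriv φ 0 = 1 ∧ Cinf f' ∧
      (∀ᶠ x in 𝓝 0, φ (f x) = f' (φ x)) ∧
      (fun x => f' x - (x + c * x ^ (p + 1) + a * x ^ (2 * p + 1))) =O[𝓝 0]
        fun x => x ^ (m + 1) := by
  obtain ⟨r, hr, rfl⟩ : ∃ r, 1 ≤ r ∧ m = p + r + 1 := ⟨m - p - 1, by omega, by omega⟩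
  have hrp : (r : ℝ) - p ≠ 0 := by
    rw [sub_ne_zero]
    intro h1
    have : r = p := by exact_mod_cast h1
    omega
  set β : ℝ := -d / (c * (r - p)) with hβ
  have hβ' : d + β * (r + 1) * c - c * (p + 1) * β = 0 := by
    rw [hβ]
    field_simp
    ring
  set φ : ℝ → ℝ := fun x => x + β * x ^ (r + 1) with hφ
  have hφs : Cinf φ := by
    have : ContDiff ℝ ((⊤ : ℕ∞) : WithTop ℕ∞) φ :=
      contDiff_id.add (contDiff_const.mul (contDiff_id.pow _))
    exact this.contDiffAt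
  have hφ0 : φ 0 = 0 := by simp [hφ]
  have hφ1 : deriv φ 0 = 1 := by
    have h1 : HasDerivAt φ (1 + β * (((r + 1 : ℕ) : ℝ) * (0 : ℝ) ^ (r + 1 - 1) * 1)) 0 :=
      (hasDerivAt_id (0 : ℝ)).add (((hasDerivAt_id (0 : ℝ)).pow (r + 1)).const_mul β)
    rw [h1.deriv]
    have h2 : (0 : ℝ) ^ (r + 1 - 1) = 0 := zero_pow (by omega)
    rw [h2]
    ring
  obtain ⟨ψ, hψs, hψ0, hψ1, hφψ, hψφ⟩ := exists_local_inverse hφs hφ0 hφ1
  have hf0 : f 0 = 0 := by
    obtain ⟨C, hC, hb⟩ := h.exists_pos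
    have h3 := (isBigOWith_iff.1 hb).self_of_nhds
    simp at h3
    exact h3
  refine ⟨φ, φ ∘ f ∘ ψ, hφs, hφ0, hφ1, ?_, ?_, ?_⟩
  · refine ContDiffAt.comp 0 ?_ (ContDiffAt.comp 0 ?_ hψs)
    · rw [Function.comp, hψ0, hf0]
      exact hφs
    · rw [hψ0]
      exact hf
  · filter_upwards [hψφ] with x hx
    simp only [Function.comp, hx]
  · -- the estimate in the coordinate `t = ψ x`
    have hfs : (fun x => f x - (x + c * x ^ (p + 1))) =O[𝓝 0] fun x => x ^ (p + 2) := by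
      have h1 := h.trans (pp2_mono (show p + 2 ≤ p + r + 1 + 1 by omega))
      have h2 : (fun x : ℝ => a * x ^ (2 * p + 1)) =O[𝓝 0] fun x => x ^ (p + 2) :=
        (pp2_mono (by omega)).const_mul_left a
      have h3 : (fun x : ℝ => d * x ^ (p + r + 1)) =O[𝓝 0] fun x => x ^ (p + 2) :=
        (pp2_mono (by omega)).const_mul_left d
      refine ((h1.add h2).add h3).congr_left fun x => ?_
      ring
    have hφO : (fun x => φ x - (x + β * x ^ (r + 1))) =O[𝓝 0] fun x => x ^ (r + 2) := by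
      simp only [hφ, sub_self]
      exact isBigO_zero _ _
    have e1 := pp2_pow hp hfs (r + 1)
    have e2 := pp2_pow hr hφO (p + 1)
    have e3 := pp2_pow hr hφO (2 * p + 1)
    have e3' : (fun t => φ t ^ (2 * p + 1) - t ^ (2 * p + 1)) =O[𝓝 0]
        fun t => t ^ (p + r + 1 + 1) := by
      have h1 := e3.trans (pp2_mono (show p + r + 1 + 1 ≤ 2 * p + 1 + r + 1 by omega))
      have h2 : (fun t : ℝ => ((2 * p + 1 : ℕ) : ℝ) * β * t ^ (2 * p + 1 + r)) =O[𝓝 0]
          fun t => t ^ (p + r + 1 + 1) := (pp2_mono (by omega)).const_mul_left _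
      refine (h1.add h2).congr_left fun t => ?_
      ring
    have hG : (fun t => φ (f t) - (φ t + c * φ t ^ (p + 1) + a * φ t ^ (2 * p + 1))) =O[𝓝 0]
        fun t => t ^ (p + r + 1 + 1) := by
      have e1' : (fun t => f t ^ (r + 1) - (t ^ (r + 1) + ((r + 1 : ℕ) : ℝ) * c *
          t ^ (r + 1 + p))) =O[𝓝 0] fun t => t ^ (p + r + 1 + 1) :=
        e1.congr_right fun t => by rw [show r + 1 + p + 1 = p + r + 1 + 1 by omega]
      have e2' : (fun t => φ t ^ (p + 1) - (t ^ (p + 1) + ((p + 1 : ℕ) : ℝ) * β *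
          t ^ (p + 1 + r))) =O[𝓝 0] fun t => t ^ (p + r + 1 + 1) :=
        e2.congr_right fun t => by rw [show p + 1 + r + 1 = p + r + 1 + 1 by omega]
      refine (((h.add (e1'.const_mul_left β)).sub (e2'.const_mul_left c)).sub
        (e3'.const_mul_left a)).congr_left fun t => ?_
      have h1 : φ (f t) = f t + β * f t ^ (r + 1) := rfl
      have h2 : φ t = t + β * t ^ (r + 1) := rfl
      rw [h1]
      have h3 : t ^ (r + 1 + p) = t ^ (p + r + 1) := by congr 1; omega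
      have h4 : t ^ (p + 1 + r) = t ^ (p + r + 1) := by congr 1; omega
      rw [h3, h4]
      push_cast
      have h5 := hβ'
      linear_combination (-t ^ (p + r + 1)) * h5 - h2
    have hψt : Tendsto ψ (𝓝 0) (𝓝 0) := by
      have := hψs.continuousAt.tendsto
      rwa [hψ0] at this
    have hψO : ψ =O[𝓝 0] fun x => x := by
      have h1 := (hψs.differentiableAt (by simp)).isBigO_sub
      simpa [hψ0] using h1
    have h1 := (hG.comp_tendsto hψt).trans (hψO.pow (p + r + 1 + 1))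
    refine h1.congr' ?_ EventuallyEq.rfl
    filter_upwards [hφψ] with x hx
    simp only [Function.comp, hx]

end GD31
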