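import Pool.Agent.LibGD31.PP1
import Pool.Agent.LibGD31.GX1

/-! # PP4: the coordinate `y = 1 / (κ x^p)` on the right side of `0` -/

open Filter Topology Set Asymptotics

namespace GD31

/-- `y = 1 / (κ x^p)` -/
noncomputable def Yf (κ : ℝ) (p : ℕ) (x : ℝ) : ℝ := (κ * x ^ p)⁻¹

/-- `x = (κ y)^(-1/p)` -/
noncomputable def Xf (κ : ℝ) (p : ℕ) (y : ℝ) : ℝ := (κ * y) ^ (-(1 / (p : ℝ)))

private theorem pp4_Xpow {κ : ℝ} (hκ : 0 < κ) {p : ℕ} (hp : 1 ≤ p) {y : ℝ} (hy : 0 < y) :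
    Xf κ p y ^ p = (κ * y)⁻¹ := by
  unfold Xf
  have h0 : 0 < κ * y := mul_pos hκ hy
  have hp0 : (p : ℝ) ≠ 0 := by
    have : (0 : ℝ) < p := by exact_mod_cast hp
    exact this.ne'
  rw [← Real.rpow_natCast, ← Real.rpow_mul h0.le]
  have h2 : -(1 / (p : ℝ)) * p = -1 := by field_simp
  rw [h2, Real.rpow_neg_one]

private theorem pp4_Xder {κ : ℝ} (hκ : 0 < κ) {p : ℕ} (hp : 1 ≤ p) {y : ℝ} (hy : 0 < y) :
    HasDerivAt (Xf κ p) (-(Xf κ p y) / (p * y)) y := by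
  have h0 : 0 < κ * y := mul_pos hκ hy
  have hp0 : (p : ℝ) ≠ 0 := by
    have : (0 : ℝ) < p := by exact_mod_cast hp
    exact this.ne'
  have h1 : HasDerivAt (fun y : ℝ => κ * y) κ y := by
    simpa using (hasDerivAt_id y).const_mul κ
  have h2 := h1.rpow_const (p := -(1 / (p : ℝ))) (Or.inl h0.ne')
  have h3 : κ * -(1 / (p : ℝ)) * (κ * y) ^ (-(1 / (p : ℝ)) - 1) =
      -(Xf κ p y) / (p * y) := by
    unfold Xf
    rw [Real.rpow_sub_one h0.ne']
    field_simp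
  rw [h3] at h2
  exact h2

private theorem pp4_Xcd {κ : ℝ} (hκ : 0 < κ) (p : ℕ) {y : ℝ} (hy : 0 < y) :
    ContDiffAt ℝ 2 (Xf κ p) y := by
  have h0 : κ * y ≠ 0 := (mul_pos hκ hy).ne'
  exact (contDiffAt_const.mul contDiffAt_id).rpow_const_of_ne h0

private theorem pp4_Xtend {κ : ℝ} (hκ : 0 < κ) {p : ℕ} (hp : 1 ≤ p) :
    Tendsto (Xf κ p) atTop (𝓝 0) := by
  have hp0 : (0 : ℝ) < p := by exact_mod_cast hp
  have h1 : Tendsto (fun y : ℝ => κ * y) atTop atTop := tendsto_id.const_mul_atTop hκ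
  exact (tendsto_rpow_neg_atTop (by positivity : 0 < 1 / (p : ℝ))).comp h1

private theorem pp4_poly (p : ℕ) : ∃ q : ℝ → ℝ, Continuous q ∧ ∀ u : ℝ,
    (1 + u) ^ p * (1 - p * u + (p * (p + 1) : ℝ) / 2 * u ^ 2) = 1 + u ^ 3 * q u := by
  induction p with
  | zero => exact ⟨fun _ => 0, continuous_const, fun u => by simp⟩
  | succ p ih =>
    obtain ⟨q, hq, h⟩ := ih
    refine ⟨fun u => q u + ((p + 1 : ℝ) * (p + 2)) / 2 * (1 + u) ^ p, by fun_prop, fun u => ?_⟩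
    push_cast
    linear_combination h u

private theorem pp4_rpow {z : ℝ} (hz : 1 ≤ z) (n : ℕ) {e : ℝ} (he : -(n : ℝ) ≤ e) :
    (z⁻¹) ^ n ≤ z ^ e := by
  have h0 : 0 ≤ z := by linarith
  have h1 : (z⁻¹) ^ n = z ^ (-(n : ℝ)) := by
    rw [Real.rpow_neg h0, Real.rpow_natCast, inv_pow]
  rw [h1]
  exact Real.rpow_le_rpow_of_exponent_le hz he

private theorem pp4_deriv {f : ℝ → ℝ} (hf : Cinf f) : Cinf (deriv f) :=
  ((hf.fderiv_right (m := ((⊤ : ℕ∞) : WithTop ℕ∞)) (by norm_cast))).clm_apply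
    (contDiffAt_const (c := (1 : ℝ)))

/-- the smooth function `E` with `Y (f (X y)) = y + 1 + a' / y + y E (X y)` -/
private theorem pp4_E {f : ℝ → ℝ} (hf : Cinf f) {p : ℕ} (hp : 1 ≤ p) {κ a : ℝ} (hκ : 0 < κ)
    (h : (fun x => f x - (x - κ / p * x ^ (p + 1) + a * x ^ (2 * p + 1))) =O[𝓝 0]
      fun x => x ^ (3 * p + 2)) :
    ∃ E : ℝ → ℝ, Cinf E ∧ (E =O[𝓝 0] fun x => x ^ (3 * p)) ∧
      ∀ᶠ x in 𝓝 0, x ≠ 0 → (κ * f x ^ p)⁻¹ = (κ * x ^ p)⁻¹ *
        (1 + κ * x ^ p + κ ^ 2 * (((p : ℝ) + 1) / (2 * p) - p * a / κ ^ 2) * x ^ (2 * p) + E x) := by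
  have hp0 : (0 : ℝ) < p := by exact_mod_cast hp
  have hP : ∀ n : ℕ, Cinf fun x : ℝ => x ^ n := fun n => contDiffAt_id.pow n
  have hC : ∀ c : ℝ, Cinf fun _ : ℝ => c := fun c => contDiffAt_const
  obtain ⟨g, hg, hfg⟩ := exists_div_pow (f := fun x => f x - (x - κ / p * x ^ (p + 1) +
    a * x ^ (2 * p + 1))) (hf.sub ((contDiffAt_id.sub ((hC _).mul (hP _))).add
      ((hC _).mul (hP _)))) h
  obtain ⟨q, hq, hpoly⟩ := pp4_poly p
  set M : ℝ → ℝ := fun x => 1 - κ / p * x ^ p + a * x ^ (2 * p) + x ^ (3 * p + 1) * g x with hM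
  have hMc : Cinf M := (((hC 1).sub ((hC _).mul (hP _))).add ((hC _).mul (hP _))).add
    ((hP _).mul hg)
  have hM0 : M 0 = 1 := by
    simp only [hM]
    rw [zero_pow (by omega), zero_pow (by omega), zero_pow (by omega)]
    ring
  have hG : Cinf fun x => (M x ^ p)⁻¹ := (hMc.pow p).inv (by rw [hM0, one_pow]; exact one_ne_zero)
  have hMne : ∀ᶠ x in 𝓝 (0 : ℝ), M x ≠ 0 := by
    apply hMc.continuousAt.eventually_ne
    rw [hM0]
    exact one_ne_zero
  refine ⟨fun x => (M x ^ p)⁻¹ - (1 + κ * x ^ p +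
    κ ^ 2 * (((p : ℝ) + 1) / (2 * p) - p * a / κ ^ 2) * x ^ (2 * p)), ?_, ?_, ?_⟩
  · exact hG.sub (((hC 1).add ((hC _).mul (hP _))).add ((hC _).mul (hP _)))
  · set v : ℝ → ℝ := fun x => -κ / p + a * x ^ p + x ^ (2 * p) * (x * g x) with hv
    set Θ : ℝ → ℝ := fun x => -((M x ^ p)⁻¹ * v x ^ 3 * q (x ^ p * v x)) +
      (-p * (x * g x) + (p * (p + 1) : ℝ) / 2 * (a + x ^ p * (x * g x)) * (v x - κ / p)) with hΘ
    have hgc : ContinuousAt g 0 := hg.continuousAt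
    have hvc : ContinuousAt v 0 := by
      simp only [hv]
      exact ((continuousAt_const.add (continuousAt_const.mul (continuousAt_id.pow p))).add
        ((continuousAt_id.pow (2 * p)).mul (continuousAt_id.mul hgc)))
    have hΘc : ContinuousAt Θ 0 := by
      simp only [hΘ]
      have h1 : ContinuousAt (fun x => q (x ^ p * v x)) 0 :=
        hq.continuousAt.comp ((continuousAt_id.pow p).mul hvc)
      exact (((hG.continuousAt.mul (hvc.pow 3)).mul h1).neg).add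
        ((continuousAt_const.mul (continuousAt_id.mul hgc)).add
        ((continuousAt_const.mul (continuousAt_const.add
          ((continuousAt_id.pow p).mul (continuousAt_id.mul hgc)))).mul
          (hvc.sub continuousAt_const)))
    have hΘO : Θ =O[𝓝 0] fun _ => (1 : ℝ) := hΘc.tendsto.isBigO_one ℝ
    have hEq : (fun x => (M x ^ p)⁻¹ - (1 + κ * x ^ p +
        κ ^ 2 * (((p : ℝ) + 1) / (2 * p) - p * a / κ ^ 2) * x ^ (2 * p))) =ᶠ[𝓝 0]
        fun x => x ^ (3 * p) * Θ x := by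
      filter_upwards [hMne] with x hx
      have hMu : M x = 1 + x ^ p * v x := by
        simp only [hM, hv]
        ring
      have h1 := hpoly (x ^ p * v x)
      rw [← hMu] at h1
      have hMp : M x ^ p ≠ 0 := pow_ne_zero p hx
      have h2 : (M x ^ p)⁻¹ = (1 - p * (x ^ p * v x) +
          (p * (p + 1) : ℝ) / 2 * (x ^ p * v x) ^ 2) -
          (M x ^ p)⁻¹ * ((x ^ p * v x) ^ 3 * q (x ^ p * v x)) := by
        have h3 : (M x ^ p)⁻¹ * (M x ^ p * (1 - p * (x ^ p * v x) +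
            (p * (p + 1) : ℝ) / 2 * (x ^ p * v x) ^ 2)) =
            (M x ^ p)⁻¹ * (1 + (x ^ p * v x) ^ 3 * q (x ^ p * v x)) := by rw [h1]
        rw [← mul_assoc, inv_mul_cancel₀ hMp, one_mul] at h3
        rw [h3]
        ring
      have h4 : x ^ (3 * p) = (x ^ p) ^ 3 := by rw [← pow_mul, mul_comm]
      have h5 : x ^ (2 * p) = (x ^ p) ^ 2 := by rw [← pow_mul, mul_comm]
      have h6 : (1 - p * (x ^ p * v x) + (p * (p + 1) : ℝ) / 2 * (x ^ p * v x) ^ 2) -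
          (1 + κ * x ^ p + κ ^ 2 * (((p : ℝ) + 1) / (2 * p) - p * a / κ ^ 2) * x ^ (2 * p)) =
          x ^ (3 * p) * (-p * (x * g x) +
            (p * (p + 1) : ℝ) / 2 * (a + x ^ p * (x * g x)) * (v x - κ / p)) := by
        simp only [hv]
        rw [h4, h5]
        generalize x ^ p = t
        generalize x * g x = w
        field_simp
        ring
      simp only [hΘ]
      linear_combination h2 + h6 + ((M x ^ p)⁻¹ * v x ^ 3 * q (x ^ p * v x)) * h4
    refine hEq.trans_isBigO ?_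
    have h7 := (isBigO_refl (fun x : ℝ => x ^ (3 * p)) (𝓝 0)).mul hΘO
    simpa using h7
  · filter_upwards [hfg, hMne] with x hx hMx hx0
    have h1 : f x = x * M x := by
      have h2 : f x = x - κ / p * x ^ (p + 1) + a * x ^ (2 * p + 1) + x ^ (3 * p + 2) * g x := by
        linarith
      rw [h2]
      simp only [hM]
      ring
    rw [h1, mul_pow, ← mul_assoc, mul_inv]
    ring

theorem Xf_Yf {κ : ℝ} (hκ : 0 < κ) {p : ℕ} (hp : 1 ≤ p) {x : ℝ} (hx : 0 < x) :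
    Xf κ p (Yf κ p x) = x := by
  unfold Xf Yf
  have hp0 : (p : ℝ) ≠ 0 := by
    have : (0 : ℝ) < p := by exact_mod_cast hp
    exact this.ne'
  have h1 : κ * (κ * x ^ p)⁻¹ = x ^ (-(p : ℝ)) := by
    rw [Real.rpow_neg hx.le, Real.rpow_natCast]
    field_simp
  rw [h1, ← Real.rpow_mul hx.le]
  have h2 : -(p : ℝ) * -(1 / (p : ℝ)) = 1 := by field_simp
  rw [h2, Real.rpow_one]

theorem Yf_Xf {κ : ℝ} (hκ : 0 < κ) {p : ℕ} (hp : 1 ≤ p) {y : ℝ} (hy : 0 < y) :
    Yf κ p (Xf κ p y) = y := by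
  unfold Yf
  rw [pp4_Xpow hκ hp hy]
  field_simp

/-- For `f = x - (κ/p) x^(p+1) + a x^(2p+1) + O(x^(3p+2))` smooth, `T = Y ∘ f ∘ X` is
`y + 1 + a'/y + O(y^(-2))` with two derivatives, `a' = (p+1)/(2p) - p a/κ²`: with `f x = x M x`
(`exists_div_pow`) and `G = M^(-p)` smooth at `0`, `T y = y G(X y)`,
`G - (1 + κ x^p + κ² a' x^(2p)) = O(x^(3p))` with derivatives (`deriv_O`), `X' = - X / (p y)`. -/
theorem coord_expansion {f : ℝ → ℝ} (hf : Cinf f) {p : ℕ} (hp : 1 ≤ p) {κ a : ℝ} (hκ : 0 < κ)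
    (h : (fun x => f x - (x - κ / p * x ^ (p + 1) + a * x ^ (2 * p + 1))) =O[𝓝 0]
      fun x => x ^ (3 * p + 2)) :
    AbH (fun y => (((p : ℝ) + 1) / (2 * p) - p * a / κ ^ 2) / y)
      (fun y => Yf κ p (f (Xf κ p y))) := by
  have hp0 : (0 : ℝ) < p := by exact_mod_cast hp
  obtain ⟨E, hE, hEO, hfE⟩ := pp4_E hf hp hκ h
  set a' : ℝ := ((p : ℝ) + 1) / (2 * p) - p * a / κ ^ 2 with ha'
  obtain ⟨k, hk⟩ : ∃ k, 3 * p = k + 2 := ⟨3 * p - 2, by omega⟩
  rw [hk] at hEO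
  have hE1 : Cinf (deriv E) := pp4_deriv hE
  have hEO1 := deriv_O hE hEO
  have hEO2 := deriv_O hE1 hEO1
  obtain ⟨C0, hC0, hb0⟩ := hEO.exists_nonneg
  obtain ⟨C1, hC1, hb1⟩ := hEO1.exists_nonneg
  obtain ⟨C2, hC2, hb2⟩ := hEO2.exists_nonneg
  have hE2 : ContDiffAt ℝ 2 E 0 := hE.of_le (WithTop.coe_le_coe.2 (le_top : (2 : ℕ∞) ≤ ⊤))
  have hE12 : ContDiffAt ℝ 2 (deriv E) 0 := hE1.of_le (WithTop.coe_le_coe.2 (le_top : (2 : ℕ∞) ≤ ⊤))
  have hev : ∀ᶠ x in 𝓝 (0 : ℝ), ContDiffAt ℝ 2 E x ∧ ContDiffAt ℝ 2 (deriv E) x ∧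
      |E x| ≤ C0 * |x| ^ (k + 2) ∧ |deriv E x| ≤ C1 * |x| ^ (k + 1) ∧
      |deriv (deriv E) x| ≤ C2 * |x| ^ k ∧ (x ≠ 0 → (κ * f x ^ p)⁻¹ = (κ * x ^ p)⁻¹ *
        (1 + κ * x ^ p + κ ^ 2 * a' * x ^ (2 * p) + E x)) := by
    filter_upwards [hE2.eventually (by decide), hE12.eventually (by decide), hb0.bound, hb1.bound,
      hb2.bound, hfE] with x h1 h2 h3 h4 h5 h6
    simp only [Real.norm_eq_abs, abs_pow] at h3 h4 h5
    exact ⟨h1, h2, h3, h4, h5, h6⟩
  have hevX := (pp4_Xtend hκ hp).eventually hev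
  obtain ⟨R0, hR0⟩ := eventually_atTop.1 hevX
  set R : ℝ := max R0 1 with hR
  have basic : ∀ y, R ≤ y → 1 ≤ y ∧ 0 < Xf κ p y ∧ R0 ≤ y := by
    intro y hy
    have h1 : 1 ≤ y := (le_max_right _ _).trans hy
    exact ⟨h1, Real.rpow_pos_of_pos (mul_pos hκ (by linarith)) _, (le_max_left _ _).trans hy⟩
  set S : ℝ → ℝ := fun y => y * E (Xf κ p y) with hS
  set S1 : ℝ → ℝ := fun y => E (Xf κ p y) - deriv E (Xf κ p y) * Xf κ p y / p with hS1
  have dE : ∀ y, R ≤ y → HasDerivAt (fun y => E (Xf κ p y))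
      (deriv E (Xf κ p y) * (-(Xf κ p y) / (p * y))) y := by
    intro y hy
    obtain ⟨h1, h2, h3⟩ := basic y hy
    obtain ⟨h4, _⟩ := hR0 y h3
    exact (h4.differentiableAt (by norm_num)).hasDerivAt.comp y (pp4_Xder hκ hp (by linarith))
  have dE1 : ∀ y, R ≤ y → HasDerivAt (fun y => deriv E (Xf κ p y))
      (deriv (deriv E) (Xf κ p y) * (-(Xf κ p y) / (p * y))) y := by
    intro y hy
    obtain ⟨h1, h2, h3⟩ := basic y hy
    obtain ⟨_, h4, _⟩ := hR0 y h3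
    exact (h4.differentiableAt (by norm_num)).hasDerivAt.comp y (pp4_Xder hκ hp (by linarith))
  have dS : ∀ y, R ≤ y → HasDerivAt S (S1 y) y := by
    intro y hy
    have hy0 : (0 : ℝ) < y := by linarith [(basic y hy).1]
    have h5 := (hasDerivAt_id y).mul (dE y hy)
    have h6 : 1 * E (Xf κ p y) + id y * (deriv E (Xf κ p y) * (-(Xf κ p y) / (p * y))) = S1 y := by
      simp only [hS1, id]
      field_simp
      ring
    rw [← h6]
    exact h5
  have dS1 : ∀ y, R ≤ y → HasDerivAt S1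
      (-(Xf κ p y) / (p * y) * (deriv E (Xf κ p y) - deriv E (Xf κ p y) / p -
        deriv (deriv E) (Xf κ p y) * Xf κ p y / p)) y := by
    intro y hy
    have hy0 : (0 : ℝ) < y := by linarith [(basic y hy).1]
    have h5 := (dE y hy).sub (((dE1 y hy).mul (pp4_Xder hκ hp hy0)).div_const (p : ℝ))
    convert! h5 using 1
    field_simp
    ring
  have hT : ∀ y, R ≤ y → Yf κ p (f (Xf κ p y)) = y + 1 + a' / y + S y := by
    intro y hy
    obtain ⟨h1, h2, h3⟩ := basic y hy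
    have hy0 : (0 : ℝ) < y := by linarith
    obtain ⟨_, _, _, _, _, h4⟩ := hR0 y h3
    have h5 := h4 h2.ne'
    have h6 := pp4_Xpow hκ hp hy0
    have h7 : Xf κ p y ^ (2 * p) = ((κ * y)⁻¹) ^ 2 := by rw [← h6, ← pow_mul, mul_comm]
    unfold Yf
    rw [h5, h6, h7]
    simp only [hS]
    field_simp
  have hX3 : ∀ y, R ≤ y → Xf κ p y ^ (k + 2) = ((κ * y)⁻¹) ^ 3 := by
    intro y hy
    have hy0 : (0 : ℝ) < y := by linarith [(basic y hy).1]
    rw [← hk, ← pp4_Xpow hκ hp hy0, ← pow_mul, mul_comm]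
  have dw : ∀ y : ℝ, 0 < y → HasDerivAt (fun z => a' / z) (-a' * (y⁻¹) ^ 2) y := by
    intro y hy
    have := (hasDerivAt_inv hy.ne').const_mul a'
    convert! this using 1
    rw [← inv_pow]
    ring
  have dw2 : ∀ y : ℝ, 0 < y → HasDerivAt (fun z : ℝ => -a' * (z⁻¹) ^ 2)
      (2 * a' * (y⁻¹) ^ 3) y := by
    intro y hy
    have := ((hasDerivAt_inv hy.ne').fun_pow 2).const_mul (-a')
    convert! this using 1
    rw [← inv_pow]
    ring
  have dT : ∀ y, R < y → HasDerivAt (fun y => Yf κ p (f (Xf κ p y)))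
      (1 + -a' * (y⁻¹) ^ 2 + S1 y) y := by
    intro y hy
    have hy0 : (0 : ℝ) < y := by linarith [(basic y hy.le).1]
    have h5 := (((hasDerivAt_id y).add_const 1).add (dw y hy0)).add (dS y hy.le)
    refine h5.congr_of_eventuallyEq ?_
    filter_upwards [Ioi_mem_nhds hy] with z hz
    exact hT z (le_of_lt hz)
  have dT2 : ∀ y, R < y → HasDerivAt (deriv fun y => Yf κ p (f (Xf κ p y)))
      (2 * a' * (y⁻¹) ^ 3 + -(Xf κ p y) / (p * y) * (deriv E (Xf κ p y) -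
        deriv E (Xf κ p y) / p - deriv (deriv E) (Xf κ p y) * Xf κ p y / p)) y := by
    intro y hy
    have hy0 : (0 : ℝ) < y := by linarith [(basic y hy.le).1]
    have h5 := ((dw2 y hy0).const_add 1).add (dS1 y hy.le)
    refine h5.congr_of_eventuallyEq ?_
    filter_upwards [Ioi_mem_nhds hy] with z hz
    exact (dT z hz).deriv
  have hw2 : ∀ y : ℝ, 0 < y → deriv (deriv fun z => a' / z) y = 2 * a' * (y⁻¹) ^ 3 := by
    intro y hy
    have h3 : deriv (fun z => a' / z) =ᶠ[𝓝 y] fun z => -a' * (z⁻¹) ^ 2 := by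
      filter_upwards [Ioi_mem_nhds hy] with z hz
      exact (dw z hz).deriv
    rw [h3.deriv_eq, (dw2 y hy).deriv]
  set C : ℝ := (C0 + 2 * C1 + C2) * (κ⁻¹) ^ 3 with hC
  have hCn : 0 ≤ C := by positivity
  refine ⟨⟨C, R + 1, hCn, by linarith [le_max_right R0 1], ?_⟩⟩
  intro z hz
  have hzR : R < z := by linarith
  obtain ⟨h1, hx0, hzR0⟩ := basic z hzR.le
  have hz0 : (0 : ℝ) < z := by linarith
  obtain ⟨hcd, _, e0, e1, e2, _⟩ := hR0 z hzR0
  set x : ℝ := Xf κ p z with hx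
  rw [abs_of_pos hx0] at e0 e1 e2
  have hx3 : x ^ (k + 2) = (κ⁻¹) ^ 3 * (z⁻¹) ^ 3 := by
    rw [hx, hX3 z hzR.le, mul_inv, mul_pow]
  have hp1 : (1 : ℝ) ≤ p := by exact_mod_cast hp
  have hpi : (p : ℝ)⁻¹ ≤ 1 := inv_le_one_of_one_le₀ hp1
  have hpi0 : 0 ≤ (p : ℝ)⁻¹ := by positivity
  refine ⟨?_, ?_, ?_, ?_⟩
  · have h5 : ContDiffAt ℝ 2 (fun y => y + 1 + a' / y + S y) z := by
      have hXc := pp4_Xcd hκ p hz0
      have h6 : ContDiffAt ℝ 2 (fun y => E (Xf κ p y)) z := ContDiffAt.comp z hcd hXc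
      exact ((contDiffAt_id.add contDiffAt_const).add
        (contDiffAt_const.div contDiffAt_id hz0.ne')).add (contDiffAt_id.mul h6)
    refine h5.congr_of_eventuallyEq ?_
    filter_upwards [Ioi_mem_nhds hzR] with y hy
    exact hT y (le_of_lt hy)
  · have h5 : Yf κ p (f (Xf κ p z)) - z - 1 - a' / z = S z := by
      rw [hT z hzR.le]
      ring
    rw [h5]
    refine le_trans ?_ (mul_le_mul_of_nonneg_left (pp4_rpow h1 2 (by norm_num)) hCn)
    simp only [hS]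
    rw [abs_mul, abs_of_pos hz0]
    calc z * |E x| ≤ z * (C0 * x ^ (k + 2)) := mul_le_mul_of_nonneg_left e0 hz0.le
      _ = C0 * (κ⁻¹) ^ 3 * (z⁻¹) ^ 2 := by
        rw [hx3]
        field_simp
      _ ≤ C * (z⁻¹) ^ 2 := by
        refine mul_le_mul_of_nonneg_right ?_ (by positivity)
        rw [hC]
        refine mul_le_mul_of_nonneg_right (by linarith) (by positivity)
  · have h5 : deriv (fun y => Yf κ p (f (Xf κ p y))) z - 1 - deriv (fun y => a' / y) z = S1 z := by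
      rw [(dT z hzR).deriv, (dw z hz0).deriv]
      ring
    rw [h5]
    refine le_trans ?_ (mul_le_mul_of_nonneg_left (pp4_rpow h1 3 (by norm_num)) hCn)
    simp only [hS1]
    have h6 : |deriv E x * x / p| ≤ C1 * x ^ (k + 2) := by
      rw [abs_div, abs_mul, abs_of_pos hx0, abs_of_pos hp0]
      calc |deriv E x| * x / p ≤ |deriv E x| * x := div_le_self (by positivity) hp1
        _ ≤ C1 * x ^ (k + 1) * x := mul_le_mul_of_nonneg_right e1 hx0.le
        _ = C1 * x ^ (k + 2) := by ring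
    calc |E x - deriv E x * x / p| ≤ |E x| + |deriv E x * x / p| := abs_sub _ _
      _ ≤ C0 * x ^ (k + 2) + C1 * x ^ (k + 2) := add_le_add e0 h6
      _ = (C0 + C1) * (κ⁻¹) ^ 3 * (z⁻¹) ^ 3 := by
        rw [hx3]
        ring
      _ ≤ C * (z⁻¹) ^ 3 := by
        refine mul_le_mul_of_nonneg_right ?_ (by positivity)
        rw [hC]
        refine mul_le_mul_of_nonneg_right (by linarith) (by positivity)
  · have h5 : deriv (deriv fun y => Yf κ p (f (Xf κ p y))) z - deriv (deriv fun y => a' / y) z =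
        -x / (p * z) * (deriv E x - deriv E x / p - deriv (deriv E) x * x / p) := by
      rw [(dT2 z hzR).deriv, hw2 z hz0]
      ring
    rw [h5]
    refine le_trans ?_ (mul_le_mul_of_nonneg_left (pp4_rpow h1 4 (by norm_num)) hCn)
    have h6 : |deriv E x / p| ≤ C1 * x ^ (k + 1) := by
      rw [abs_div, abs_of_pos hp0]
      exact (div_le_self (abs_nonneg _) hp1).trans e1
    have h7 : |deriv (deriv E) x * x / p| ≤ C2 * x ^ (k + 1) := by
      rw [abs_div, abs_mul, abs_of_pos hx0, abs_of_pos hp0]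
      calc |deriv (deriv E) x| * x / p ≤ |deriv (deriv E) x| * x := div_le_self (by positivity) hp1
        _ ≤ C2 * x ^ k * x := mul_le_mul_of_nonneg_right e2 hx0.le
        _ = C2 * x ^ (k + 1) := by ring
    have h8 : |deriv E x - deriv E x / p - deriv (deriv E) x * x / p| ≤
        (2 * C1 + C2) * x ^ (k + 1) := by
      calc |deriv E x - deriv E x / p - deriv (deriv E) x * x / p| ≤
          |deriv E x - deriv E x / p| + |deriv (deriv E) x * x / p| := abs_sub _ _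
        _ ≤ (|deriv E x| + |deriv E x / p|) + |deriv (deriv E) x * x / p| :=
          add_le_add (abs_sub _ _) le_rfl
        _ ≤ (C1 * x ^ (k + 1) + C1 * x ^ (k + 1)) + C2 * x ^ (k + 1) :=
          add_le_add (add_le_add e1 h6) h7
        _ = _ := by ring
    have h9 : |-x / (p * z)| ≤ x * z⁻¹ := by
      rw [abs_div, abs_neg, abs_of_pos hx0, abs_of_pos (by positivity : (0 : ℝ) < p * z)]
      rw [div_le_iff₀ (by positivity)]
      have : x * z⁻¹ * (p * z) = x * p := by field_simp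
      rw [this]
      nlinarith
    rw [abs_mul]
    calc |-x / (p * z)| * |deriv E x - deriv E x / p - deriv (deriv E) x * x / p| ≤
        (x * z⁻¹) * ((2 * C1 + C2) * x ^ (k + 1)) :=
          mul_le_mul h9 h8 (abs_nonneg _) (by positivity)
      _ = (2 * C1 + C2) * z⁻¹ * x ^ (k + 2) := by ring
      _ = (2 * C1 + C2) * (κ⁻¹) ^ 3 * (z⁻¹) ^ 4 := by
        rw [hx3]
        ring
      _ ≤ C * (z⁻¹) ^ 4 := by
        refine mul_le_mul_of_nonneg_right ?_ (by positivity)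
        rw [hC]
        refine mul_le_mul_of_nonneg_right (by linarith) (by positivity)

end GD31
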