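import Pool.Agent.LibGD31.PP4
import Pool.Agent.LibGD31.AB2

/-! # PP5: one-sided conjugacy in the attracting case -/

open Filter Topology Set Asymptotics

namespace GD31

/-- the model `exp (c x^(p+1) d/dx)` -/
noncomputable def F0 (c : ℝ) (p : ℕ) (x : ℝ) : ℝ := x * (1 - p * c * x ^ p) ^ (-(1 / (p : ℝ)))

/-- `C²` tangency to the identity on the right side of `0` -/
structure Tan (φ : ℝ → ℝ) : Prop where
  contDiff : ∀ᶠ x in 𝓝[>] 0, ContDiffAt ℝ 2 φ x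
  t0 : Tendsto (fun x => (φ x - x) / x ^ 2) (𝓝[>] 0) (𝓝 0)
  t1 : Tendsto (fun x => (deriv φ x - 1) / x) (𝓝[>] 0) (𝓝 0)
  t2 : Tendsto (fun x => deriv (deriv φ) x) (𝓝[>] 0) (𝓝 0)

private theorem pp5_d1 (b : ℝ) : deriv (fun y : ℝ => b / y) = fun y => -b * y ^ (-2 : ℤ) := by
  funext y
  have e : (fun y : ℝ => b / y) = fun y => b * y ^ (-1 : ℤ) := by
    funext y
    rw [zpow_neg_one, div_eq_mul_inv]
  rw [e, deriv_const_mul_field, deriv_zpow]
  norm_num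

private theorem pp5_d2 (b : ℝ) : deriv (deriv (fun y : ℝ => b / y)) =
    fun y => 2 * b * y ^ (-3 : ℤ) := by
  funext y
  rw [pp5_d1, deriv_const_mul_field, deriv_zpow]
  norm_num
  ring

private theorem pp5_d3 (b : ℝ) : iteratedDeriv 3 (fun y : ℝ => b / y) =
    fun y => -6 * b * y ^ (-4 : ℤ) := by
  funext y
  rw [iteratedDeriv_succ, iteratedDeriv_succ, iteratedDeriv_one, pp5_d2, deriv_const_mul_field,
    deriv_zpow]
  norm_num
  ring

private theorem pp5_Wb (b : ℝ) : Wb (fun y => b / y) := by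
  refine ⟨fun z hz => contDiffAt_const.div contDiffAt_id (by simp; linarith), 6 * |b|,
    by positivity, fun z hz => ?_⟩
  have hz0 : 0 < z := by linarith
  have key : ∀ (k : ℕ) (t : ℝ), t ≤ (k : ℝ) → z ^ (-(k : ℤ)) ≤ z ^ (-t) := by
    intro k t ht
    rw [← Real.rpow_intCast]
    apply Real.rpow_le_rpow_of_exponent_le hz
    push_cast
    linarith
  have hb := abs_nonneg b
  have bd : ∀ (B : ℝ) (k : ℕ) (t : ℝ), |B| ≤ 6 * |b| → t ≤ (k : ℝ) →
      |B * z ^ (-(k : ℤ))| ≤ 6 * |b| * z ^ (-t) := by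
    intro B k t hB ht
    rw [abs_mul, abs_of_pos (zpow_pos hz0 _)]
    exact mul_le_mul hB (key k t ht) (zpow_pos hz0 _).le (by positivity)
  refine ⟨?_, ?_, ?_, ?_⟩
  · have h1 := bd b 1 (7 / 8) (by linarith) (by norm_num)
    have e : b / z = b * z ^ (-((1 : ℕ) : ℤ)) := by
      norm_num [div_eq_mul_inv]
    rw [e]
    exact h1
  · have h1 := bd (-b) 2 (15 / 8) (by rw [abs_neg]; linarith) (by norm_num)
    rw [pp5_d1]
    exact h1
  · have h1 := bd (2 * b) 3 (23 / 8) (by rw [abs_mul]; norm_num; linarith) (by norm_num)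
    rw [pp5_d2]
    exact h1
  · have h1 := bd (-6 * b) 4 (31 / 8) (by rw [abs_mul]; norm_num) (by norm_num)
    rw [pp5_d3]
    exact h1

private theorem pp5_Y {κ : ℝ} (hκ : 0 < κ) {p : ℕ} (hp : 1 ≤ p) {x : ℝ} (hx : 0 < x) :
    HasDerivAt (Yf κ p) (-(p * Yf κ p x / x)) x := by
  have h1 : HasDerivAt (fun x : ℝ => κ * x ^ p) (κ * (p * x ^ (p - 1))) x :=
    (hasDerivAt_pow p x).const_mul κ
  have h2 := h1.inv (by positivity)
  refine h2.congr_deriv ?_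
  obtain ⟨q, rfl⟩ : ∃ q, p = q + 1 := ⟨p - 1, by omega⟩
  rw [Nat.add_sub_cancel]
  unfold Yf
  field_simp
  try ring

private theorem pp5_X {κ : ℝ} (hκ : 0 < κ) {p : ℕ} (hp : 1 ≤ p) {u : ℝ} (hu : 0 < u) :
    HasDerivAt (Xf κ p) (-(Xf κ p u / (p * u))) u := by
  have hpr : (0 : ℝ) < p := by exact_mod_cast hp
  have h0 : HasDerivAt (fun u : ℝ => κ * u) κ u := by
    simpa using (hasDerivAt_id' u).const_mul κ
  have h1 := h0.rpow_const (p := -(1 / (p : ℝ))) (Or.inl (by positivity))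
  refine h1.congr_deriv ?_
  have e : (κ * u) ^ (-(1 / (p : ℝ)) - 1) = Xf κ p u / (κ * u) := by
    unfold Xf
    rw [Real.rpow_sub (by positivity), Real.rpow_one]
  rw [e]
  field_simp

private theorem pp5_Ypos {κ : ℝ} (hκ : 0 < κ) {p : ℕ} {x : ℝ} (hx : 0 < x) : 0 < Yf κ p x := by
  unfold Yf
  positivity

private theorem pp5_Xpos {κ : ℝ} (hκ : 0 < κ) {p : ℕ} {u : ℝ} (hu : 0 < u) : 0 < Xf κ p u := by
  unfold Xf
  positivity

private theorem pp5_Ytop {κ : ℝ} (hκ : 0 < κ) {p : ℕ} (hp : 1 ≤ p) :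
    Tendsto (Yf κ p) (𝓝[>] 0) atTop := by
  have h1 : Tendsto (fun x : ℝ => κ * x ^ p) (𝓝[>] 0) (𝓝[>] 0) := by
    refine tendsto_nhdsWithin_iff.2 ⟨?_, ?_⟩
    · have h2 : Tendsto (fun x : ℝ => κ * x ^ p) (𝓝 0) (𝓝 (κ * 0 ^ p)) :=
        ((continuous_id.pow p).const_mul κ).tendsto 0
      rw [zero_pow (by omega), mul_zero] at h2
      exact h2.mono_left nhdsWithin_le_nhds
    · filter_upwards [self_mem_nhdsWithin] with x hx
      have hx' : 0 < x := hx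
      exact mem_Ioi.2 (by positivity)
  exact tendsto_inv_nhdsGT_zero.comp h1

private theorem pp5_small {κ : ℝ} (hκ : 0 < κ) {p : ℕ} (hp : 2 ≤ p) {s : ℝ → ℝ}
    (hs : Tendsto (fun y => √y * s y) atTop (𝓝 0)) :
    Tendsto (fun x => s (Yf κ p x) / x) (𝓝[>] 0) (𝓝 0) := by
  have h1 := hs.comp (pp5_Ytop hκ (by omega : 1 ≤ p))
  have h2 : Tendsto (fun x => √κ * |√(Yf κ p x) * s (Yf κ p x)|) (𝓝[>] 0) (𝓝 0) := by
    simpa using (h1.abs).const_mul (√κ)
  refine squeeze_zero_norm' ?_ h2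
  filter_upwards [Ioo_mem_nhdsGT (zero_lt_one (α := ℝ))] with x hx
  have hx0 : 0 < x := hx.1
  have hY := pp5_Ypos hκ (p := p) hx0
  have hsY : 0 < √(Yf κ p x) := Real.sqrt_pos.2 hY
  have e1 : 1 / x ≤ √κ * √(Yf κ p x) := by
    rw [← Real.sqrt_mul hκ.le]
    apply Real.le_sqrt_of_sq_le
    have e2 : κ * Yf κ p x = (x ^ p)⁻¹ := by
      unfold Yf
      field_simp
    rw [e2, div_pow, one_pow, one_div]
    apply inv_anti₀ (by positivity)
    exact pow_le_pow_of_le_one hx0.le hx.2.le hp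
  rw [Real.norm_eq_abs, abs_div, abs_of_pos hx0, abs_mul, abs_of_pos hsY]
  have h3 := abs_nonneg (s (Yf κ p x))
  calc |s (Yf κ p x)| / x = (1 / x) * |s (Yf κ p x)| := by ring
    _ ≤ (√κ * √(Yf κ p x)) * |s (Yf κ p x)| := mul_le_mul_of_nonneg_right e1 h3
    _ = _ := by ring

private theorem pp5_tan {κ : ℝ} (hκ : 0 < κ) {p : ℕ} (hp : 2 ≤ p) {Ψ : ℝ → ℝ} {R : ℝ}
    (hcd : ∀ z, R < z → ContDiffAt ℝ 2 Ψ z)
    (s0 : Tendsto (fun y => √y * (Ψ y / y - 1)) atTop (𝓝 0))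
    (s1 : Tendsto (fun y => √y * (y * deriv Ψ y / Ψ y - 1)) atTop (𝓝 0))
    (s2 : Tendsto (fun y => √y * (y ^ 2 * deriv (deriv Ψ) y / Ψ y)) atTop (𝓝 0))
    (hpos : ∀ᶠ y in atTop, 0 < Ψ y) :
    Tan (fun x => Xf κ p (Ψ (Yf κ p x))) := by
  have hp1 : 1 ≤ p := by omega
  have hpr : (0 : ℝ) < p := by exact_mod_cast hp1
  have hYt := pp5_Ytop hκ hp1
  obtain ⟨R₁, hR₁⟩ := eventually_atTop.1 hpos
  obtain ⟨R₂, hR₂⟩ : ∃ R₂, R₂ = max (max R R₁) 0 := ⟨_, rfl⟩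
  have hRR : R ≤ R₂ := by rw [hR₂]; exact (le_max_left _ _).trans (le_max_left _ _)
  have hR1R : R₁ ≤ R₂ := by rw [hR₂]; exact (le_max_right _ _).trans (le_max_left _ _)
  -- the good region
  have good : ∀ᶠ x in 𝓝[>] (0 : ℝ), 0 < x ∧ R₂ < Yf κ p x := by
    filter_upwards [self_mem_nhdsWithin, hYt.eventually_gt_atTop R₂] with x h1 h2
    exact ⟨h1, h2⟩
  obtain ⟨φ, hφ⟩ : ∃ φ : ℝ → ℝ, φ = fun x => Xf κ p (Ψ (Yf κ p x)) := ⟨_, rfl⟩
  obtain ⟨Λ, hΛ⟩ : ∃ Λ : ℝ → ℝ, Λ = fun y => y * deriv Ψ y / Ψ y := ⟨_, rfl⟩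
  have hopen : ∀ x, 0 < x → R₂ < Yf κ p x → ∀ᶠ x' in 𝓝 x, 0 < x' ∧ R₂ < Yf κ p x' := by
    intro x hx hY
    have hc : ContinuousAt (Yf κ p) x := (pp5_Y hκ hp1 hx).continuousAt
    filter_upwards [eventually_gt_nhds hx, hc.eventually (eventually_gt_nhds hY)] with x' h1 h2
    exact ⟨h1, h2⟩
  have dφ : ∀ x, 0 < x → R₂ < Yf κ p x → HasDerivAt φ (φ x / x * Λ (Yf κ p x)) x := by
    intro x hx hY
    have hY0 := pp5_Ypos hκ (p := p) hx
    have hΨ0 : 0 < Ψ (Yf κ p x) := hR₁ _ (hR1R.trans hY.le)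
    have hΨd : HasDerivAt Ψ (deriv Ψ (Yf κ p x)) (Yf κ p x) :=
      ((hcd _ (hRR.trans_lt hY)).differentiableAt (by norm_num)).hasDerivAt
    have h1 := (pp5_X hκ hp1 hΨ0).comp x (hΨd.comp x (pp5_Y hκ hp1 hx))
    rw [hφ, hΛ]
    refine h1.congr_deriv ?_
    simp only
    field_simp
  have dΛ : ∀ y, R₂ < y → HasDerivAt Λ ((deriv Ψ y + y * deriv (deriv Ψ) y) / Ψ y -
      y * deriv Ψ y ^ 2 / Ψ y ^ 2) y := by
    intro y hy
    have hΨ0 : 0 < Ψ y := hR₁ _ (hR1R.trans hy.le)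
    have hΨd : HasDerivAt Ψ (deriv Ψ y) y :=
      ((hcd _ (hRR.trans_lt hy)).differentiableAt (by norm_num)).hasDerivAt
    have hΨd2 : HasDerivAt (deriv Ψ) (deriv (deriv Ψ) y) y :=
      (ab1_cd (hcd _ (hRR.trans_lt hy))).hasDerivAt
    have h1 := ((hasDerivAt_id' y).fun_mul hΨd2).fun_div hΨd hΨ0.ne'
    rw [hΛ]
    refine h1.congr_deriv ?_
    field_simp
    try ring
  have dφ2 : ∀ x, 0 < x → R₂ < Yf κ p x → deriv (deriv φ) x =
      (1 / x) * ((φ x / x * Λ (Yf κ p x) - φ x / x) * Λ (Yf κ p x) - p * (φ x / x) *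
        (Λ (Yf κ p x) * (1 - Λ (Yf κ p x)) +
          Yf κ p x ^ 2 * deriv (deriv Ψ) (Yf κ p x) / Ψ (Yf κ p x))) := by
    intro x hx hY
    have hY0 := pp5_Ypos hκ (p := p) hx
    have hΨ0 : 0 < Ψ (Yf κ p x) := hR₁ _ (hR1R.trans hY.le)
    have e : deriv φ =ᶠ[𝓝 x] fun x => φ x / x * Λ (Yf κ p x) := by
      filter_upwards [hopen x hx hY] with x' hx'
      exact (dφ x' hx'.1 hx'.2).deriv
    rw [e.deriv_eq]
    have h1 := (dφ x hx hY).fun_div (hasDerivAt_id' x) hx.ne'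
    have h2 := (dΛ _ hY).comp x (pp5_Y hκ hp1 hx)
    have h3 := h1.fun_mul h2
    refine h3.deriv.trans ?_
    have hΛe : Λ (Yf κ p x) = Yf κ p x * deriv Ψ (Yf κ p x) / Ψ (Yf κ p x) := by rw [hΛ]
    simp only [Function.comp]
    rw [hΛe]
    field_simp
    try ring
  have cφ : ∀ x, 0 < x → R₂ < Yf κ p x → ContDiffAt ℝ 2 φ x := by
    intro x hx hY
    have hY0 := pp5_Ypos hκ (p := p) hx
    have hΨ0 : 0 < Ψ (Yf κ p x) := hR₁ _ (hR1R.trans hY.le)
    have c1 : ContDiffAt ℝ 2 (Yf κ p) x := by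
      unfold Yf
      exact (contDiffAt_const.mul (contDiffAt_id.pow p)).inv (by simp; exact ⟨hκ.ne', fun h => absurd h hx.ne'⟩)
    have c2 : ContDiffAt ℝ 2 (Xf κ p) (Ψ (Yf κ p x)) := by
      unfold Xf
      exact (contDiffAt_const.mul contDiffAt_id).rpow_const_of_ne (by simp; exact ⟨hκ.ne', hΨ0.ne'⟩)
    rw [hφ]
    exact c2.comp x ((hcd _ (hRR.trans_lt hY)).comp x c1)
  -- smallness
  have q1 : Tendsto (fun x => (Λ (Yf κ p x) - 1) / x) (𝓝[>] 0) (𝓝 0) := by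
    have := pp5_small hκ hp (s := fun y => Λ y - 1) (by rw [hΛ]; exact s1)
    exact this
  have q2 : Tendsto (fun x => (Yf κ p x ^ 2 * deriv (deriv Ψ) (Yf κ p x) / Ψ (Yf κ p x)) / x)
      (𝓝[>] 0) (𝓝 0) := by
    have := pp5_small hκ hp (s := fun y => y ^ 2 * deriv (deriv Ψ) y / Ψ y) s2
    exact this
  have q3 : Tendsto (fun x => (Ψ (Yf κ p x) / Yf κ p x - 1) / x) (𝓝[>] 0) (𝓝 0) := by
    have := pp5_small hκ hp (s := fun y => Ψ y / y - 1) s0
    exact this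
  have x0 : Tendsto (fun x : ℝ => x) (𝓝[>] 0) (𝓝 0) := nhdsWithin_le_nhds
  have one_of : ∀ g : ℝ → ℝ, Tendsto (fun x => (g x - 1) / x) (𝓝[>] 0) (𝓝 0) →
      Tendsto g (𝓝[>] 0) (𝓝 1) := by
    intro g hg
    have h1 := (hg.mul x0).add_const 1
    rw [zero_mul, zero_add] at h1
    refine h1.congr' ?_
    filter_upwards [self_mem_nhdsWithin] with x hx
    have hx0 : x ≠ 0 := (mem_Ioi.1 hx).ne'
    field_simp
    ring
  have l1 : Tendsto (fun x => Λ (Yf κ p x)) (𝓝[>] 0) (𝓝 1) := one_of _ q1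
  -- `r = φ / x = (Ψ / y)^(-1/p)`
  have q4 : Tendsto (fun x => (φ x / x - 1) / x) (𝓝[>] 0) (𝓝 0) := by
    have hd : HasDerivAt (fun t : ℝ => t ^ (-(1 / (p : ℝ)))) (-(1 / (p : ℝ)) * 1 ^ (-(1 / (p : ℝ)) - 1)) 1 :=
      Real.hasDerivAt_rpow_const (Or.inl one_ne_zero)
    have hO := hd.isBigO_sub
    have hcomp := hO.comp_tendsto (one_of _ q3)
    have h5 : (fun x => φ x / x - 1) =O[𝓝[>] 0] fun x => Ψ (Yf κ p x) / Yf κ p x - 1 := by
      refine hcomp.congr' ?_ (by rfl)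
      filter_upwards [good] with x hx
      obtain ⟨hx0, hY⟩ := hx
      have hY0 := pp5_Ypos hκ (p := p) hx0
      have hΨ0 : 0 < Ψ (Yf κ p x) := hR₁ _ (hR1R.trans hY.le)
      have e1 : φ x / x = Xf κ p (Ψ (Yf κ p x)) / Xf κ p (Yf κ p x) := by
        rw [Xf_Yf hκ hp1 hx0, hφ]
      simp only [Function.comp, Real.one_rpow]
      rw [e1]
      congr 1
      unfold Xf
      rw [← Real.div_rpow (by positivity) (by positivity), mul_div_mul_left _ _ hκ.ne']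
    have h6 := (h5.mul (isBigO_refl (fun x : ℝ => x⁻¹) (𝓝[>] 0))).trans_tendsto
      (by simpa [div_eq_mul_inv] using q3)
    simpa [div_eq_mul_inv] using h6
  have l2 : Tendsto (fun x => φ x / x) (𝓝[>] 0) (𝓝 1) := one_of _ q4
  rw [← hφ]
  refine ⟨?_, ?_, ?_, ?_⟩
  · filter_upwards [good] with x hx
    exact cφ x hx.1 hx.2
  · refine q4.congr' ?_
    filter_upwards [self_mem_nhdsWithin] with x hx
    have hx0 : x ≠ 0 := (mem_Ioi.1 hx).ne'
    field_simp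
  · have h1 := (l2.mul q1).add q4
    rw [mul_zero, zero_add] at h1
    refine h1.congr' ?_
    filter_upwards [good] with x hx
    rw [(dφ x hx.1 hx.2).deriv]
    have hx0 : x ≠ 0 := hx.1.ne'
    field_simp
    ring
  · have h1 := ((l2.mul q1).mul l1).sub (((l2.mul ((l1.mul q1).neg)).add (l2.mul q2)).const_mul (p : ℝ))
    simp only [mul_zero, zero_mul, neg_zero, add_zero, sub_zero] at h1
    refine h1.congr' ?_
    filter_upwards [good] with x hx
    rw [dφ2 x hx.1 hx.2]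
    have hx0 : x ≠ 0 := hx.1.ne'
    generalize Λ (Yf κ p x) = L
    generalize φ x = F
    generalize Yf κ p x ^ 2 * deriv (deriv Ψ) (Yf κ p x) / Ψ (Yf κ p x) = G
    field_simp
    ring

/-- `φ = X ∘ Ψ ∘ Y` with the Abel function `Ψ` of `T = Y ∘ f ∘ X` (`abel` with `w = a'/y`,
`W = a' log y`): `Ψ y = y (1 + θ y)`, `θ, yθ', y²θ'' = O(log y / y)`, so
`φ x = x (1 + θ (Y x))^(-1/p)` with `x^p`-small corrections (times `log`), `p ≥ 2`. -/
theorem one_sided_neg {f : ℝ → ℝ} (hf : Cinf f) {p : ℕ} (hp : 2 ≤ p) {c a : ℝ} (hc : c < 0)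
    (h : (fun x => f x - (x + c * x ^ (p + 1) + a * x ^ (2 * p + 1))) =O[𝓝 0]
      fun x => x ^ (3 * p + 2)) :
    ∃ φ : ℝ → ℝ, Tan φ ∧ ∀ᶠ x in 𝓝[>] 0, φ (f x) = F0 c p (φ x) := by
  have hp1 : 1 ≤ p := by omega
  have hpr : (0 : ℝ) < p := by exact_mod_cast hp1
  obtain ⟨κ, hκd⟩ : ∃ κ : ℝ, κ = -(p * c) := ⟨_, rfl⟩
  have hκ : 0 < κ := by
    rw [hκd]
    nlinarith
  have hcκ : c = -(κ / p) := by
    rw [hκd]
    field_simp
  have hA := coord_expansion hf hp1 (a := a) hκ (by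
    refine h.congr_left fun x => ?_
    rw [hcκ]
    ring)
  obtain ⟨b, hb⟩ : ∃ b : ℝ, b = ((p : ℝ) + 1) / (2 * p) - p * a / κ ^ 2 := ⟨_, rfl⟩
  rw [← hb] at hA
  obtain ⟨Ψ, R, hR, hcd, hT, h0, h1, h2⟩ := abel (pp5_Wb b) hA (W := fun y => b * Real.log y)
    (fun z hz => by
      have := (Real.hasDerivAt_log (by linarith : z ≠ 0)).const_mul b
      rw [div_eq_mul_inv]
      exact this)
  -- consequences
  have sq : Tendsto (fun y : ℝ => √y) atTop atTop := Real.tendsto_sqrt_atTop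
  have sqi : Tendsto (fun y : ℝ => (√y)⁻¹) atTop (𝓝 0) := tendsto_inv_atTop_zero.comp sq
  have hlog : Tendsto (fun y : ℝ => Real.log y / √y) atTop (𝓝 0) := by
    have h3 := (isLittleO_log_rpow_atTop (r := 1 / 2) (by norm_num)).tendsto_div_nhds_zero
    refine h3.congr fun y => ?_
    rw [Real.sqrt_eq_rpow]
  have g0 : Tendsto (fun y => (Ψ y - y) / √y) atTop (𝓝 0) := by
    have h3 := (h0.mul sqi).sub (hlog.const_mul b)
    rw [mul_zero, mul_zero, sub_zero] at h3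
    refine h3.congr fun y => ?_
    ring
  have s0 : Tendsto (fun y => √y * (Ψ y / y - 1)) atTop (𝓝 0) := by
    refine g0.congr' ?_
    filter_upwards [eventually_gt_atTop 0] with y hy
    have e := Real.mul_self_sqrt hy.le
    have hs := Real.sqrt_pos.2 hy
    have e2 : Ψ y / y - 1 = (Ψ y - y) / (√y * √y) := by
      rw [e]
      field_simp
    rw [e2]
    field_simp
  have l0 : Tendsto (fun y => Ψ y / y) atTop (𝓝 1) := by
    have h3 := (s0.mul sqi).add_const 1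
    rw [mul_zero, zero_add] at h3
    refine h3.congr' ?_
    filter_upwards [eventually_gt_atTop 0] with y hy
    have hs := Real.sqrt_pos.2 hy
    field_simp
    ring
  have hpos : ∀ᶠ y in atTop, 0 < Ψ y := by
    filter_upwards [l0.eventually (eventually_gt_nhds (zero_lt_one (α := ℝ))),
      eventually_gt_atTop 0] with y h3 h4
    have := mul_pos h3 h4
    rwa [div_mul_cancel₀ _ h4.ne'] at this
  have l0i : Tendsto (fun y => y / Ψ y) atTop (𝓝 1) := by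
    have h3 := l0.inv₀ one_ne_zero
    rw [inv_one] at h3
    refine h3.congr fun y => ?_
    rw [inv_div]
  have g1 : Tendsto (fun y => (y * deriv Ψ y - Ψ y) / √y) atTop (𝓝 0) := by
    have h3 := ((h1.mul sqi).sub (sqi.const_mul b)).sub ((h0.mul sqi).sub (hlog.const_mul b))
    simp only [mul_zero, sub_zero] at h3
    refine h3.congr' ?_
    filter_upwards [eventually_gt_atTop 0] with y hy
    have hs := Real.sqrt_pos.2 hy
    field_simp
    ring
  have s1 : Tendsto (fun y => √y * (y * deriv Ψ y / Ψ y - 1)) atTop (𝓝 0) := by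
    have h3 := g1.mul l0i
    rw [zero_mul] at h3
    refine h3.congr' ?_
    filter_upwards [eventually_gt_atTop 0, hpos] with y hy hΨ
    have e := Real.mul_self_sqrt hy.le
    have hs := Real.sqrt_pos.2 hy
    have e2 : y / Ψ y = √y * √y / Ψ y := by rw [e]
    rw [e2]
    field_simp
  have s2 : Tendsto (fun y => √y * (y ^ 2 * deriv (deriv Ψ) y / Ψ y)) atTop (𝓝 0) := by
    have h3 := ((h2.add_const b).mul l0i).mul sqi
    rw [mul_zero] at h3
    refine h3.congr' ?_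
    filter_upwards [eventually_gt_atTop 0, hpos] with y hy hΨ
    have e := Real.mul_self_sqrt hy.le
    have hs := Real.sqrt_pos.2 hy
    have e3 : y ^ 2 * (deriv (deriv Ψ) y + deriv (fun y => b / y) y) + b =
        y ^ 2 * deriv (deriv Ψ) y := by
      rw [pp5_d1]
      have e4 : y ^ (-2 : ℤ) = (y ^ 2)⁻¹ := by
        rw [zpow_neg]
        norm_cast
      simp only
      rw [e4]
      field_simp
      ring
    rw [e3]
    have e5 : y / Ψ y = √y * √y / Ψ y := by rw [e]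
    rw [e5]
    field_simp
  refine ⟨fun x => Xf κ p (Ψ (Yf κ p x)), pp5_tan hκ hp hcd s0 s1 s2 hpos, ?_⟩
  have hYt := pp5_Ytop hκ hp1
  filter_upwards [self_mem_nhdsWithin, hYt.eventually_gt_atTop R, hYt.eventually hpos] with x hx hY hΨ
  have hx0 : 0 < x := hx
  have e1 := (hT _ hY).2
  rw [Xf_Yf hκ hp1 hx0] at e1
  rw [e1]
  unfold F0
  have e2 : 1 - p * c * Xf κ p (Ψ (Yf κ p x)) ^ p = (Ψ (Yf κ p x) + 1) / Ψ (Yf κ p x) := by
    have e3 : (κ * Xf κ p (Ψ (Yf κ p x)) ^ p)⁻¹ = Ψ (Yf κ p x) := Yf_Xf hκ hp1 hΨ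
    have e5 : κ * Xf κ p (Ψ (Yf κ p x)) ^ p = (Ψ (Yf κ p x))⁻¹ :=
      inv_injective (by rw [inv_inv]; exact e3)
    have e6 : (p : ℝ) * c = -κ := by rw [hκd]; ring
    rw [e6, neg_mul, sub_neg_eq_add, e5]
    field_simp
  rw [e2]
  unfold Xf
  rw [← Real.mul_rpow (by positivity) (by positivity)]
  congr 1
  field_simp

end GD31
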