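import Pool.Agent.LibGD31.PP5
import Pool.Agent.LibGD31.PP2

/-! # PP6: one-sided conjugacy, both signs -/

open Filter Topology Set Asymptotics

namespace GD31

private theorem pp6_pow (n : ℕ) : ∃ R : ℝ → ℝ, Continuous R ∧
    ∀ u, (1 + u) ^ n = 1 + n * u + u ^ 2 * R u := by
  induction n with
  | zero => exact ⟨fun _ => 0, continuous_const, fun u => by simp⟩
  | succ n ih =>
    obtain ⟨R, hR, h⟩ := ih
    refine ⟨fun u => R u * (1 + u) + n, by fun_prop, fun u => ?_⟩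
    rw [pow_succ, h u]
    push_cast
    ring

private theorem pp6_mul {H : ℝ → ℝ} (hH : ContinuousAt H 0) (k : ℕ) :
    (fun x => x ^ k * H x) =O[𝓝 0] fun x : ℝ => x ^ k := by
  have h1 : H =O[𝓝 0] (fun _ => (1 : ℝ)) := hH.tendsto.isBigO_one ℝ
  simpa using (isBigO_refl (fun x : ℝ => x ^ k) (𝓝 0)).mul h1

private theorem pp6_le {k m : ℕ} (h : k ≤ m) :
    (fun x : ℝ => x ^ m) =O[𝓝 0] fun x : ℝ => x ^ k := by
  have h1 := pp6_mul (H := fun x : ℝ => x ^ (m - k)) (by fun_prop) k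
  refine h1.congr_left fun x => ?_
  rw [← pow_add]
  congr 1
  omega

private theorem pp6_hasDeriv {r : ℝ → ℝ} {n : ℕ} (hn : 1 < n)
    (h : r =O[𝓝 0] fun x => x ^ n) : HasDerivAt r 0 0 := by
  have h1 : r =O[𝓝 0] fun x => ‖x - 0‖ ^ n := by
    have := h.norm_right
    simpa [norm_pow] using this
  have h2 := (h1.hasFDerivAt (𝕜 := ℝ) hn).hasDerivAt
  simpa using h2

private theorem pp6_val {r : ℝ → ℝ} {n : ℕ} (hn : n ≠ 0) (h : r =O[𝓝 0] fun x => x ^ n) :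
    r 0 = 0 := by
  obtain ⟨C, hC⟩ := h.bound
  have := hC.self_of_nhds
  rw [zero_pow hn, norm_zero, mul_zero] at this
  exact norm_le_zero_iff.1 this

private theorem pp6_pos {g : ℝ → ℝ} (h0 : g 0 = 0) (h1 : HasDerivAt g 1 0) :
    ∀ᶠ x in 𝓝[>] 0, 0 < g x := by
  have h2 := h1.tendsto_slope_zero_right
  filter_upwards [h2.eventually_const_lt (show (0 : ℝ) < 1 by norm_num), self_mem_nhdsWithin]
    with x hx hx0
  rw [zero_add, h0, sub_zero, smul_eq_mul] at hx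
  have hx0' : (0 : ℝ) < x := hx0
  have h3 : 0 < x * (x⁻¹ * g x) := mul_pos hx0' hx
  rwa [← mul_assoc, mul_inv_cancel₀ hx0'.ne', one_mul] at h3

/-- `f x - x = O(x^2)` -/
private theorem pp6_sub {f : ℝ → ℝ} {p : ℕ} (hp : 1 ≤ p) {c a : ℝ}
    (h : (fun x => f x - (x + c * x ^ (p + 1) + a * x ^ (2 * p + 1))) =O[𝓝 0]
      fun x => x ^ (3 * p + 2)) : (fun x => f x - x) =O[𝓝 0] fun x => x ^ 2 := by
  have h1 := h.trans (pp6_le (show 2 ≤ 3 * p + 2 by omega))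
  have h2 : (fun x : ℝ => c * x ^ (p + 1)) =O[𝓝 0] fun x => x ^ 2 :=
    (pp6_le (show 2 ≤ p + 1 by omega)).const_mul_left c
  have h3 : (fun x : ℝ => a * x ^ (2 * p + 1)) =O[𝓝 0] fun x => x ^ 2 :=
    (pp6_le (show 2 ≤ 2 * p + 1 by omega)).const_mul_left a
  refine ((h1.add h2).add h3).congr_left fun x => ?_
  ring

private theorem pp6_deriv {f : ℝ → ℝ} (h : (fun x => f x - x) =O[𝓝 0] fun x => x ^ 2) :
    f 0 = 0 ∧ HasDerivAt f 1 0 := by
  have h1 := pp6_val (by norm_num) h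
  have h2 := pp6_hasDeriv (by norm_num) h
  refine ⟨by simpa using h1, ?_⟩
  have h3 := h2.add (hasDerivAt_id (0 : ℝ))
  rw [zero_add] at h3
  refine h3.congr_of_eventuallyEq (Eventually.of_forall fun x => ?_)
  simp

/-- the polynomial computation for the inverse -/
private theorem pp6_alg (p : ℕ) (c a : ℝ) : ∃ H : ℝ → ℝ, Continuous H ∧ ∀ x : ℝ,
    (x + (-c) * x ^ (p + 1) + ((p + 1) * c ^ 2 - a) * x ^ (2 * p + 1)) +
      c * (x + (-c) * x ^ (p + 1) + ((p + 1) * c ^ 2 - a) * x ^ (2 * p + 1)) ^ (p + 1) +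
      a * (x + (-c) * x ^ (p + 1) + ((p + 1) * c ^ 2 - a) * x ^ (2 * p + 1)) ^ (2 * p + 1) =
      x + x ^ (3 * p + 1) * H x := by
  obtain ⟨R, hR, h⟩ := pp6_pow (p + 1)
  obtain ⟨R', hR', h'⟩ := pp6_pow (2 * p + 1)
  obtain ⟨e, he⟩ : ∃ e : ℝ, e = (p + 1) * c ^ 2 - a := ⟨_, rfl⟩
  refine ⟨fun x => c * (p + 1) * e + c * (-c + e * x ^ p) ^ 2 * R (x ^ p * (-c + e * x ^ p)) +
    a * (2 * p + 1) * (-c + e * x ^ p) +
    a * x ^ p * (-c + e * x ^ p) ^ 2 * R' (x ^ p * (-c + e * x ^ p)), by fun_prop, fun x => ?_⟩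
  rw [← he]
  have e1 : x + (-c) * x ^ (p + 1) + e * x ^ (2 * p + 1) =
      x * (1 + x ^ p * (-c + e * x ^ p)) := by ring
  rw [e1, mul_pow, mul_pow, h, h']
  push_cast
  have e2 : a = (p + 1) * c ^ 2 - e := by rw [he]; ring
  rw [e2]
  ring

/-- expansion of the inverse germ -/
theorem inverse_expansion {f : ℝ → ℝ} (hf : Cinf f) {p : ℕ} (hp : 1 ≤ p) {c a : ℝ}
    (h : (fun x => f x - (x + c * x ^ (p + 1) + a * x ^ (2 * p + 1))) =O[𝓝 0]
      fun x => x ^ (3 * p + 2)) :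
    ∃ g : ℝ → ℝ, Cinf g ∧ (∀ᶠ x in 𝓝 0, f (g x) = x) ∧ (∀ᶠ x in 𝓝 0, g (f x) = x) ∧
      (∀ᶠ x in 𝓝[>] 0, 0 < g x) ∧ (∀ᶠ x in 𝓝[>] 0, 0 < f x) ∧
      ∃ b : ℝ, (fun x => g x - (x + (-c) * x ^ (p + 1) +
        ((p + 1) * c ^ 2 - a) * x ^ (2 * p + 1) + b * x ^ (3 * p + 1))) =O[𝓝 0]
          fun x => x ^ (3 * p + 2) := by
  obtain ⟨hf0, hf1⟩ := pp6_deriv (pp6_sub hp h)
  obtain ⟨g, hg, hg0, hg1, hfg, hgf⟩ := exists_local_inverse hf hf0 hf1.deriv
  have hgd : HasStrictDerivAt g 1 0 := by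
    have := ContDiffAt.hasStrictDerivAt hg (by simp)
    rwa [hg1] at this
  refine ⟨g, hg, hfg, hgf, pp6_pos hg0 hgd.hasDerivAt, pp6_pos hf0 hf1, ?_⟩
  obtain ⟨H, hH, hal⟩ := pp6_alg p c a
  set G : ℝ → ℝ := fun x => x + (-c) * x ^ (p + 1) +
    ((p + 1) * c ^ 2 - a) * x ^ (2 * p + 1) with hG
  have hGc : Continuous G := by fun_prop
  have hG0 : G 0 = 0 := by simp [hG]
  have hGt : Tendsto G (𝓝 0) (𝓝 0) := by
    have := hGc.tendsto 0
    rwa [hG0] at this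
  have hGO : G =O[𝓝 0] fun x => x := by
    have h1 := pp6_mul (H := fun x : ℝ => 1 + (-c) * x ^ p +
      ((p + 1) * c ^ 2 - a) * x ^ (2 * p)) (by fun_prop) 1
    simp only [pow_one] at h1
    refine h1.congr_left fun x => ?_
    simp only [hG]
    ring
  have h1 : (fun x => f (G x) - x) =O[𝓝 0] fun x => x ^ (3 * p + 1) := by
    have h2 : (fun x => f (G x) - (G x + c * G x ^ (p + 1) + a * G x ^ (2 * p + 1))) =O[𝓝 0]
        fun x => x ^ (3 * p + 2) := (h.comp_tendsto hGt).trans (hGO.pow _)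
    have h3 : (fun x => x ^ (3 * p + 1) * H x) =O[𝓝 0] fun x => x ^ (3 * p + 1) :=
      pp6_mul hH.continuousAt _
    refine ((h2.trans (pp6_le (Nat.le_succ _))).add h3).congr_left fun x => ?_
    have h4 := hal x
    simp only [hG]
    linarith
  have hfGt : Tendsto (fun x => f (G x)) (𝓝 0) (𝓝 0) := by
    have h2 : Tendsto f (𝓝 0) (𝓝 0) := by
      have := hf1.continuousAt.tendsto
      rwa [hf0] at this
    exact h2.comp hGt
  have h2 : (fun x => g x - G x) =O[𝓝 0] fun x => x ^ (3 * p + 1) := by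
    have h3 := (hgd.hasStrictFDerivAt.isBigO_sub).comp_tendsto
      (tendsto_id.prodMk_nhds hfGt : Tendsto (fun x : ℝ => (id x, f (G x))) (𝓝 0) (𝓝 (0, 0)))
    have h4 : (fun x => g x - g (f (G x))) =O[𝓝 0] fun x => x - f (G x) := h3
    have h5 : (fun x => x - f (G x)) =O[𝓝 0] fun x => x ^ (3 * p + 1) :=
      h1.neg_left.congr_left fun x => by ring
    refine (h4.trans h5).congr' ?_ EventuallyEq.rfl
    filter_upwards [hGt.eventually hgf] with x hx
    rw [hx]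
  have h3 : Cinf fun x => g x - G x := by
    have : Cinf G := by
      unfold Cinf
      exact ContDiff.contDiffAt (by fun_prop)
    exact ContDiffAt.sub hg this
  obtain ⟨b, hb⟩ := taylor_O h3 h2
  refine ⟨b, hb.congr_left fun x => ?_⟩
  simp only [hG]
  ring

/-- `F0 (-c)` is the inverse of `F0 c` near `0`. -/
theorem F0_inv (c : ℝ) {p : ℕ} (hp : 1 ≤ p) : ∀ᶠ x in 𝓝 0, F0 c p (F0 (-c) p x) = x := by
  have h1 : Tendsto (fun x : ℝ => 1 - p * (-c) * x ^ p) (𝓝 0) (𝓝 (1 - p * (-c) * 0 ^ p)) :=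
    Continuous.tendsto (by fun_prop) 0
  rw [zero_pow (by omega), mul_zero, sub_zero] at h1
  filter_upwards [h1.eventually_const_lt (show (0 : ℝ) < 1 by norm_num)] with x hx
  set D : ℝ := 1 - p * (-c) * x ^ p with hD
  have hpR : (p : ℝ) ≠ 0 := by
    have : 0 < p := by omega
    positivity
  have h2 : (D ^ (-(1 / (p : ℝ)))) ^ p = D⁻¹ := by
    rw [← Real.rpow_natCast, ← Real.rpow_mul hx.le, neg_mul, one_div,
      inv_mul_cancel₀ hpR, Real.rpow_neg_one]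
  unfold F0
  rw [← hD, mul_pow, h2]
  have h3 : 1 - p * c * (x ^ p * D⁻¹) = D⁻¹ := by
    have h4 : D * (1 - p * c * (x ^ p * D⁻¹)) = D * D⁻¹ := by
      rw [mul_inv_cancel₀ hx.ne']
      have h5 : D * (1 - p * c * (x ^ p * D⁻¹)) = D - p * c * x ^ p * (D * D⁻¹) := by ring
      rw [h5, mul_inv_cancel₀ hx.ne', hD]
      ring
    exact mul_left_cancel₀ hx.ne' h4
  rw [h3, mul_assoc, Real.inv_rpow hx.le, Real.rpow_neg hx.le, inv_inv,
    inv_mul_cancel₀ (Real.rpow_pos_of_pos hx _).ne', mul_one]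

/-- values of a germ tangent to the identity -/
private theorem pp6_tan {φ : ℝ → ℝ} (h : Tan φ) :
    Tendsto (fun x => φ x / x) (𝓝[>] 0) (𝓝 1) ∧ Tendsto φ (𝓝[>] 0) (𝓝[>] 0) ∧
      Tendsto (deriv φ) (𝓝[>] 0) (𝓝 1) := by
  have hid : Tendsto (fun x : ℝ => x) (𝓝[>] 0) (𝓝 0) := tendsto_id.mono_left nhdsWithin_le_nhds
  have hpos : ∀ᶠ x : ℝ in 𝓝[>] 0, 0 < x := self_mem_nhdsWithin
  have h1 : Tendsto (fun x => φ x / x) (𝓝[>] 0) (𝓝 1) := by
    have h2 := (hid.mul h.t0).const_add 1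
    rw [mul_zero, add_zero] at h2
    refine h2.congr' ?_
    filter_upwards [hpos] with x hx
    field_simp
    ring
  refine ⟨h1, ?_, ?_⟩
  · refine tendsto_nhdsWithin_iff.2 ⟨?_, ?_⟩
    · have h2 := h1.mul hid
      rw [mul_zero] at h2
      refine h2.congr' ?_
      filter_upwards [hpos] with x hx
      field_simp
    · filter_upwards [hpos, h1.eventually_const_lt (show (0 : ℝ) < 1 by norm_num)] with x hx hx1
      have : 0 < φ x / x * x := mul_pos hx1 hx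
      rwa [div_mul_cancel₀ _ hx.ne'] at this
  · have h2 := (hid.mul h.t1).const_add 1
    rw [mul_zero, add_zero] at h2
    refine h2.congr' ?_
    filter_upwards [hpos] with x hx
    field_simp
    ring

private theorem pp6_deriv_contDiffAt {f : ℝ → ℝ} {x : ℝ} (h : ContDiffAt ℝ 2 f x) :
    ContDiffAt ℝ 1 (deriv f) x := by
  have h1 : ContDiffAt ℝ 1 (fderiv ℝ f) x := h.fderiv_right (by norm_num)
  exact h1.clm_apply contDiffAt_const

/-- composition -/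
private theorem pp6_comp {χ φ : ℝ → ℝ} (hχ : Tan χ) (hφ : Tan φ) : Tan fun x => χ (φ x) := by
  obtain ⟨a1, a2, a3⟩ := pp6_tan hφ
  obtain ⟨b1, b2, b3⟩ := pp6_tan hχ
  have hpos : ∀ᶠ x : ℝ in 𝓝[>] 0, 0 < x := self_mem_nhdsWithin
  have hposφ : ∀ᶠ x : ℝ in 𝓝[>] 0, 0 < φ x := a2.eventually self_mem_nhdsWithin
  have hc : ∀ᶠ x in 𝓝[>] 0, ContDiffAt ℝ 2 φ x ∧ ContDiffAt ℝ 2 χ (φ x) :=
    hφ.contDiff.and (a2.eventually hχ.contDiff)
  have hc2 : ∀ᶠ x in 𝓝[>] (0 : ℝ), ∀ᶠ y in 𝓝 x, ContDiffAt ℝ 2 φ y ∧ ContDiffAt ℝ 2 χ (φ y) := by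
    have h1 := eventually_eventually_nhdsWithin.2 hc
    filter_upwards [h1, hpos] with x hx hx0
    rwa [IsOpen.nhdsWithin_eq isOpen_Ioi hx0] at hx
  have hd1 : ∀ x, ContDiffAt ℝ 2 φ x → ContDiffAt ℝ 2 χ (φ x) →
      HasDerivAt (fun x => χ (φ x)) (deriv χ (φ x) * deriv φ x) x := fun x h1 h2 =>
    ((h2.differentiableAt (by norm_num)).hasDerivAt).comp x
      ((h1.differentiableAt (by norm_num)).hasDerivAt)
  have hd2 : ∀ᶠ x in 𝓝[>] (0 : ℝ), deriv (deriv fun x => χ (φ x)) x =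
      deriv (deriv χ) (φ x) * deriv φ x * deriv φ x + deriv χ (φ x) * deriv (deriv φ) x := by
    filter_upwards [hc2] with x hx
    have h1 : deriv (fun x => χ (φ x)) =ᶠ[𝓝 x] fun x => deriv χ (φ x) * deriv φ x := by
      filter_upwards [hx] with y hy
      exact (hd1 y hy.1 hy.2).deriv
    rw [h1.deriv_eq]
    obtain ⟨h2, h3⟩ := hx.self_of_nhds
    have h4 : HasDerivAt (deriv φ) (deriv (deriv φ) x) x :=
      ((pp6_deriv_contDiffAt h2).differentiableAt (by norm_num)).hasDerivAt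
    have h5 : HasDerivAt (deriv χ) (deriv (deriv χ) (φ x)) (φ x) :=
      ((pp6_deriv_contDiffAt h3).differentiableAt (by norm_num)).hasDerivAt
    have h6 : HasDerivAt (fun x => deriv χ (φ x)) (deriv (deriv χ) (φ x) * deriv φ x) x :=
      h5.comp x ((h2.differentiableAt (by norm_num)).hasDerivAt)
    exact (h6.mul h4).deriv
  refine ⟨?_, ?_, ?_, ?_⟩
  · filter_upwards [hc] with x hx
    exact hx.2.comp x hx.1
  · have h1 := ((hχ.t0.comp a2).mul (a1.pow 2)).add hφ.t0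
    simp only [zero_mul, add_zero] at h1
    refine h1.congr' ?_
    filter_upwards [hpos, hposφ] with x hx hx'
    simp only [Function.comp_apply]
    field_simp
    ring
  · have h1 := (((hχ.t1.comp a2).mul a1).mul a3).add hφ.t1
    simp only [zero_mul, add_zero] at h1
    refine h1.congr' ?_
    filter_upwards [hpos, hposφ, hc] with x hx hx' hx2
    rw [(hd1 x hx2.1 hx2.2).deriv]
    simp only [Function.comp_apply]
    field_simp
    ring
  · have h1 := (((hχ.t2.comp a2).mul a3).mul a3).add ((b3.comp a2).mul hφ.t2)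
    simp only [zero_mul, mul_zero, add_zero] at h1
    refine h1.congr' ?_
    filter_upwards [hd2] with x hx
    rw [hx]
    rfl

private theorem pp6_tan_poly (β : ℝ) {p : ℕ} (hp : 1 ≤ p) :
    Tan fun x => x + β * x ^ (2 * p + 1) := by
  have hpos : ∀ᶠ x : ℝ in 𝓝[>] 0, 0 < x := self_mem_nhdsWithin
  have hd1 : ∀ x : ℝ, HasDerivAt (fun x : ℝ => x + β * x ^ (2 * p + 1))
      (1 + β * ((2 * p + 1) * x ^ (2 * p))) x := by
    intro x
    have h1 := (hasDerivAt_pow (2 * p + 1) x).const_mul β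
    refine ((hasDerivAt_id x).add h1).congr_deriv ?_
    push_cast
    rfl
  have hd1' : deriv (fun x : ℝ => x + β * x ^ (2 * p + 1)) =
      fun x => 1 + β * ((2 * p + 1) * x ^ (2 * p)) := funext fun x => (hd1 x).deriv
  have hd2 : ∀ x : ℝ, HasDerivAt (fun x : ℝ => 1 + β * ((2 * p + 1) * x ^ (2 * p)))
      (β * ((2 * p + 1) * (((2 * p : ℕ) : ℝ) * x ^ (2 * p - 1)))) x := fun x =>
    (((hasDerivAt_pow (2 * p) x).const_mul _).const_mul β).const_add 1
  have hz : ∀ (C : ℝ) {k : ℕ}, 1 ≤ k → Tendsto (fun x : ℝ => C * x ^ k) (𝓝[>] 0) (𝓝 0) := by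
    intro C k hk
    have : Tendsto (fun x : ℝ => C * x ^ k) (𝓝 0) (𝓝 (C * 0 ^ k)) :=
      Continuous.tendsto (by fun_prop) 0
    rw [zero_pow (by omega), mul_zero] at this
    exact this.mono_left nhdsWithin_le_nhds
  refine ⟨Eventually.of_forall fun x => ContDiff.contDiffAt (by fun_prop), ?_, ?_, ?_⟩
  · refine (hz β (show 1 ≤ 2 * p - 1 by omega)).congr' ?_
    filter_upwards [hpos] with x hx
    have e1 : x ^ (2 * p + 1) = x ^ (2 * p - 1) * x ^ 2 := by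
      rw [← pow_add]; congr 1; omega
    rw [e1]
    field_simp
    ring
  · refine (hz (β * (2 * p + 1)) (show 1 ≤ 2 * p - 1 by omega)).congr' ?_
    filter_upwards [hpos] with x hx
    rw [hd1']
    have e1 : x ^ (2 * p) = x ^ (2 * p - 1) * x := by
      rw [← pow_succ]; congr 1; omega
    simp only [e1]
    field_simp
    ring
  · refine (hz (β * ((2 * p + 1) * ((2 * p : ℕ) : ℝ))) (show 1 ≤ 2 * p - 1 by omega)).congr' ?_
    filter_upwards [hpos] with x hx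
    rw [hd1', (hd2 x).deriv]
    ring

/-- the polynomial computation for the elimination of `b` -/
private theorem pp6_alg2 (p : ℕ) (hp : 1 ≤ p) (c a b β : ℝ) (hβ : p * β * c = b) :
    ∃ H : ℝ → ℝ, Continuous H ∧ ∀ x : ℝ,
    (x + (-c) * x ^ (p + 1) + a * x ^ (2 * p + 1) + b * x ^ (3 * p + 1)) +
      β * (x + (-c) * x ^ (p + 1) + a * x ^ (2 * p + 1) + b * x ^ (3 * p + 1)) ^ (2 * p + 1) -
      ((x + β * x ^ (2 * p + 1)) + (-c) * (x + β * x ^ (2 * p + 1)) ^ (p + 1) +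
        a * (x + β * x ^ (2 * p + 1)) ^ (2 * p + 1)) = x ^ (3 * p + 2) * H x := by
  obtain ⟨R, hR, h⟩ := pp6_pow (p + 1)
  obtain ⟨R', hR', h'⟩ := pp6_pow (2 * p + 1)
  obtain ⟨q, rfl⟩ : ∃ q, p = q + 1 := ⟨p - 1, by omega⟩
  obtain ⟨u, hu⟩ : ∃ u : ℝ → ℝ, u = fun x => -c + a * x ^ (q + 1) + b * x ^ (2 * (q + 1)) :=
    ⟨_, rfl⟩
  have huc : Continuous u := by rw [hu]; fun_prop
  refine ⟨fun x => x ^ q * (β * ((2 * (q + 1) + 1) * (a + b * x ^ (q + 1)) +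
      u x ^ 2 * R' (x ^ (q + 1) * u x)) - a * ((2 * (q + 1) + 1) * β) -
      a * x ^ (2 * (q + 1)) * β ^ 2 * R' (β * x ^ (2 * (q + 1))) +
      c * β ^ 2 * x ^ (q + 1) * R (β * x ^ (2 * (q + 1)))), by fun_prop, fun x => ?_⟩
  have e1 : x + (-c) * x ^ (q + 1 + 1) + a * x ^ (2 * (q + 1) + 1) + b * x ^ (3 * (q + 1) + 1) =
      x * (1 + x ^ (q + 1) * u x) := by rw [hu]; ring
  have e2 : x + β * x ^ (2 * (q + 1) + 1) = x * (1 + β * x ^ (2 * (q + 1))) := by ring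
  rw [e1, e2, mul_pow, mul_pow, mul_pow, h, h', h', ← hβ]
  have e3 : u x = -c + a * x ^ (q + 1) + (((q + 1 : ℕ) : ℝ) * β * c) * x ^ (2 * (q + 1)) := by
    rw [hu, ← hβ]
  beta_reduce
  generalize R' (x ^ (q + 1) * u x) = r1
  rw [e3]
  push_cast
  ring

/-- elimination of the coefficient `b` by `x + β x^(2p+1)` -/
private theorem pp6_elim {g : ℝ → ℝ} (hg : Cinf g) {p : ℕ} (hp : 1 ≤ p) {c a b : ℝ} (hc : c ≠ 0)
    (h : (fun x => g x - (x + (-c) * x ^ (p + 1) + a * x ^ (2 * p + 1) +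
      b * x ^ (3 * p + 1))) =O[𝓝 0] fun x => x ^ (3 * p + 2)) :
    ∃ β : ℝ, ∃ g' : ℝ → ℝ, Cinf g' ∧
      (∀ᶠ x in 𝓝 0, g x + β * g x ^ (2 * p + 1) = g' (x + β * x ^ (2 * p + 1))) ∧
      (fun x => g' x - (x + (-c) * x ^ (p + 1) + a * x ^ (2 * p + 1))) =O[𝓝 0]
        fun x => x ^ (3 * p + 2) := by
  obtain ⟨β, hβ⟩ : ∃ β : ℝ, p * β * c = b := by
    have hpR : (p : ℝ) ≠ 0 := by
      have : 0 < p := by omega
      positivity
    exact ⟨b / (p * c), by field_simp⟩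
  obtain ⟨H, hH, hal⟩ := pp6_alg2 p hp c a b β hβ
  set φ : ℝ → ℝ := fun x => x + β * x ^ (2 * p + 1) with hφ
  have hφc : Continuous φ := by fun_prop
  have hφs : Cinf φ := by
    unfold Cinf
    exact ContDiff.contDiffAt (by fun_prop)
  have hφ0 : φ 0 = 0 := by simp [hφ]
  have hφO : (fun x => φ x - x) =O[𝓝 0] fun x => x ^ 2 := by
    have : (fun x : ℝ => β * x ^ (2 * p + 1)) =O[𝓝 0] fun x => x ^ 2 :=
      (pp6_le (show 2 ≤ 2 * p + 1 by omega)).const_mul_left β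
    refine this.congr_left fun x => ?_
    simp only [hφ]
    ring
  obtain ⟨-, hφ1⟩ := pp6_deriv hφO
  obtain ⟨ψ, hψ, hψ0, hψ1, hφψ, hψφ⟩ := exists_local_inverse hφs hφ0 hφ1.deriv
  have hψt : Tendsto ψ (𝓝 0) (𝓝 0) := by
    have := hψ.continuousAt.tendsto
    rwa [hψ0] at this
  have hψO : ψ =O[𝓝 0] fun x => x := by
    have h1 := (ContDiffAt.hasStrictDerivAt hψ (by simp)).hasDerivAt.isBigO_sub
    rw [hψ0] at h1
    simpa using h1
  have hg0 : g 0 = 0 := by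
    have := pp6_val (by omega) h
    simpa using this
  refine ⟨β, fun x => φ (g (ψ x)), ?_, ?_, ?_⟩
  · unfold Cinf
    refine ContDiffAt.comp (g := φ) 0 ?_ (ContDiffAt.comp (g := g) 0 ?_ hψ)
    · simp only [hψ0, hg0]
      exact hφs
    · rw [hψ0]
      exact hg
  · filter_upwards [hψφ] with x hx
    show φ (g x) = φ (g (ψ (φ x)))
    rw [hx]
  · have h1 : (fun t => φ (g t) - (φ t + (-c) * φ t ^ (p + 1) + a * φ t ^ (2 * p + 1))) =O[𝓝 0]
        fun t => t ^ (3 * p + 2) := by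
      set P : ℝ → ℝ := fun x => x + (-c) * x ^ (p + 1) + a * x ^ (2 * p + 1) +
        b * x ^ (3 * p + 1) with hP
      have hPc : Continuous P := by fun_prop
      have hP0 : P 0 = 0 := by simp [hP]
      have hPt : Tendsto P (𝓝 0) (𝓝 0) := by
        have := hPc.tendsto 0
        rwa [hP0] at this
      have hgt : Tendsto g (𝓝 0) (𝓝 0) := by
        have := hg.continuousAt.tendsto
        rwa [hg0] at this
      have h2 : (fun t => φ (g t) - φ (P t)) =O[𝓝 0] fun t => g t - P t := by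
        have hs : HasStrictDerivAt φ (deriv φ 0) 0 := ContDiffAt.hasStrictDerivAt hφs (by simp)
        exact (hs.hasStrictFDerivAt.isBigO_sub).comp_tendsto
          (hgt.prodMk_nhds hPt : Tendsto (fun x : ℝ => (g x, P x)) (𝓝 0) (𝓝 (0, 0)))
      have h3 : (fun x => x ^ (3 * p + 2) * H x) =O[𝓝 0] fun x => x ^ (3 * p + 2) :=
        pp6_mul hH.continuousAt _
      refine ((h2.trans h).add h3).congr_left fun x => ?_
      have h4 := hal x
      simp only [hφ, hP]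
      linarith
    have h2 := (h1.comp_tendsto hψt).trans (hψO.pow (3 * p + 2))
    refine h2.congr' ?_ EventuallyEq.rfl
    filter_upwards [hφψ] with x hx
    simp only [Function.comp_apply, hx]

/-- For `c > 0` apply `one_sided_neg` to the inverse germ; the coefficient `b x^(3p+1)` is
removed by `elim_step` (with `m = 3p+1`, `φ' = x + β x^(2p+1)`, which is `Tan`), or the proof of
`coord_expansion` is repeated; composition of `Tan` maps is `Tan`. -/
theorem one_sided {f : ℝ → ℝ} (hf : Cinf f) {p : ℕ} (hp : 2 ≤ p) {c a : ℝ} (hc : c ≠ 0)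
    (h : (fun x => f x - (x + c * x ^ (p + 1) + a * x ^ (2 * p + 1))) =O[𝓝 0]
      fun x => x ^ (3 * p + 2)) :
    ∃ φ : ℝ → ℝ, Tan φ ∧ ∀ᶠ x in 𝓝[>] 0, φ (f x) = F0 c p (φ x) := by
  rcases lt_or_gt_of_ne hc with hc' | hc'
  · exact one_sided_neg hf hp hc' h
  obtain ⟨g, hg, hfg, hgf, hgpos, hfpos, b, hb⟩ := inverse_expansion hf (by omega) h
  obtain ⟨β, g', hg', hconj, hexp⟩ := pp6_elim hg (by omega) hc hb
  obtain ⟨χ, hχ, hχ2⟩ := one_sided_neg hg' hp (show -c < 0 by linarith) hexp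
  have hpoly := pp6_tan_poly β (show 1 ≤ p by omega)
  refine ⟨fun x => χ (x + β * x ^ (2 * p + 1)), pp6_comp hχ hpoly, ?_⟩
  obtain ⟨-, hp2, -⟩ := pp6_tan hpoly
  obtain ⟨-, hΦ2, -⟩ := pp6_tan (pp6_comp hχ hpoly)
  obtain ⟨hf0, hf1⟩ := pp6_deriv (pp6_sub (by omega) h)
  have hft : Tendsto f (𝓝[>] 0) (𝓝[>] 0) := by
    refine tendsto_nhdsWithin_iff.2 ⟨?_, hfpos⟩
    have := hf1.continuousAt.tendsto
    rw [hf0] at this
    exact this.mono_left nhdsWithin_le_nhds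
  have hft0 : Tendsto f (𝓝[>] 0) (𝓝 0) := hft.mono_right nhdsWithin_le_nhds
  have hconj' : ∀ᶠ x in 𝓝[>] 0, g (f x) + β * g (f x) ^ (2 * p + 1) =
      g' (f x + β * f x ^ (2 * p + 1)) := hft0.eventually hconj
  have hχ' : ∀ᶠ x in 𝓝[>] 0, χ (g' (f x + β * f x ^ (2 * p + 1))) =
      F0 (-c) p (χ (f x + β * f x ^ (2 * p + 1))) := (hp2.comp hft).eventually hχ2
  have hinv : ∀ᶠ x in 𝓝[>] 0, F0 c p (F0 (-c) p (χ (f x + β * f x ^ (2 * p + 1)))) =
      χ (f x + β * f x ^ (2 * p + 1)) :=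
    ((hΦ2.comp hft).mono_right nhdsWithin_le_nhds).eventually (F0_inv c (by omega))
  have hgf' : ∀ᶠ x in 𝓝[>] (0 : ℝ), g (f x) = x := nhdsWithin_le_nhds hgf
  filter_upwards [hconj', hχ', hinv, hgf'] with x h1 h2 h3 h4
  rw [h4] at h1
  rw [← h1] at h2
  rw [← h2] at h3
  exact h3.symm

end GD31
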